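import Pool.Agent.Work.MP_dd1e4a_gt.AreaA

/-! # AreaEx: existence of the area measure of a fibre

Cover the regular part of the fibre by countably many images `φ n '' U n` of slices of boxes
(Lindelöf). Let `V n = U n \ (φ n)⁻¹' (⋃_{j<n} φ j '' U j)` (Borel) and
`μ = ∑ n, Measure.map (φ n) ((volume.withDensity J n).restrict (V n))`,
`J n z = ofReal (g.normSq (φ n z) (vel (φ n) z))` (use a measurable modification of `φ n` off
`U n`, or `Measure.map` with `AEMeasurable`). `carried`: clear. `area`: for a parametrization `φ`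
on `U` and `A ⊆ U`: `A` is the disjoint union of the sets `A n = {z ∈ A | φ z ∈ φ n '' V n}` and on
`A n` we have `φ = φ n ∘ h` with `h = (b n ∘ φ).1` holomorphic and injective, `φ' = φ n'(h) h'`;
the change of variables formula (`lintegral_image_eq_lintegral_abs_det_fderiv_mul`, the real
determinant of multiplication by `h'` is `|h'|²`) gives `μ (φ '' A n) = ∫_{h '' A n} J n =
∫_{A n} J n (h z) |h' z|² dz = ∫_{A n} g(φ', φ')`. -/

open scoped Manifold ContDiff Topology
open MeasureTheory Set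

namespace DD

variable {X : Type} [TopologicalSpace X] [T2Space X] [SecondCountableTopology X]
  [ChartedSpace C2 X] [IsManifold 𝓘(ℂ, C2) ω X] [MeasurableSpace X] [BorelSpace X]

omit [T2Space X] [SecondCountableTopology X] [MeasurableSpace X] [BorelSpace X] in
/-- the density of a parametrization in the coordinates of a box. -/
theorem areaEx_J (g : HermMetric X) {f : X → ℂ} {s : ℂ} {U : Set ℂ} {φ : ℂ → X}
    (hφ : IsParam f s U φ) {b : OpenPartialHomeomorph X C2} (hb : IsBox f b) {z : ℂ} (hz : z ∈ U)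
    (hzb : φ z ∈ b.source) :
    DifferentiableAt ℂ (fun z => (b (φ z)).1) z ∧
    g.normSq (φ z) (vel φ z) =
      ‖deriv (fun z => (b (φ z)).1) z‖ ^ 2 * IsBox.dens g b ((b (φ z)).1, s) := by
  obtain ⟨w, hw1, hw2, hw3, hw4⟩ := mfderiv_symm_apply g b hb.holo hb.holo_symm hzb (vel φ z)
  have hbm := metA_md b hb.holo hzb
  have hφm := tanA_mdiff hφ hz
  have h1 : MDifferentiableAt 𝓘(ℂ, C2) 𝓘(ℂ, ℂ) (fun y => (b y).1) (φ z) :=
    ((ContinuousLinearMap.fst ℂ ℂ ℂ).mdifferentiableAt).comp (φ z) hbm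
  have h2 : MDifferentiableAt 𝓘(ℂ, C2) 𝓘(ℂ, ℂ) (fun y => (b y).2) (φ z) :=
    ((ContinuousLinearMap.snd ℂ ℂ ℂ).mdifferentiableAt).comp (φ z) hbm
  have e1 : deriv (fun w => (b (φ w)).1) z = w.1 := (deriv_comp_curve h1 hφm).trans hw3
  have e2 : deriv (fun w => (b (φ w)).2) z = w.2 := (deriv_comp_curve h2 hφm).trans hw4
  have hzero : deriv (fun w => (b (φ w)).2) z = 0 := by
    have hφc : ContinuousAt φ z := hφm.continuousAt
    have h3 : (fun w => (b (φ w)).2) =ᶠ[𝓝 z] fun _ => s := by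
      filter_upwards [hφ.isOpen.mem_nhds hz, hφc.preimage_mem_nhds
        (b.open_source.mem_nhds hzb)] with w hw hwb
      rw [hb.snd _ hwb, hφ.fib w hw]
    rw [h3.deriv_eq, deriv_const]
  refine ⟨(h1.comp z hφm).differentiableAt, ?_⟩
  have hw : w = (deriv (fun z => (b (φ z)).1) z) • (((1 : ℂ), (0 : ℂ)) : C2) := by
    ext
    · rw [e1]; simp
    · rw [← e2, hzero]; simp
  have hbz : b (φ z) = ((b (φ z)).1, s) := by
    refine Prod.ext rfl ?_
    show (b (φ z)).2 = s
    rw [hb.snd _ hzb, hφ.fib z hz]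
  rw [hw2, hw, boxB_metE_smul, IsBox.dens, ← hbz]

/-- the area measure of the slice of a box -/
noncomputable def boxMeas (g : HermMetric X) (b : OpenPartialHomeomorph X C2) (s : ℂ) :
    Measure X :=
  Measure.map (slice b s) ((volume.restrict (sliceDom b s)).withDensity
    (fun w => ENNReal.ofReal (IsBox.dens g b (w, s))))

theorem areaEx_meas {f : X → ℂ} {s : ℂ} {U : Set ℂ} {φ : ℂ → X} (hφ : IsParam f s U φ) {A : Set ℂ}
    (hA : MeasurableSet A) (hAU : A ⊆ U) {B : Set X} (hB : MeasurableSet B) :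
    MeasurableSet (A ∩ φ ⁻¹' B) := by
  have hc : ContinuousOn φ A := hφ.holo.continuousOn.mono hAU
  have h1 : MeasurableSet ((A.domRestrict φ) ⁻¹' B) :=
    (continuousOn_iff_continuous_domRestrict.1 hc).measurable hB
  have h2 := hA.subtype_image h1
  have h3 : Subtype.val '' ((A.domRestrict φ) ⁻¹' B) = A ∩ φ ⁻¹' B := by
    ext z
    constructor
    · rintro ⟨⟨w, hw⟩, hwB, rfl⟩
      exact ⟨hw, hwB⟩
    · rintro ⟨hz1, hz2⟩
      exact ⟨⟨z, hz1⟩, hz2, rfl⟩
  rwa [h3] at h2

theorem areaEx_det (c : ℂ) (L : ℂ →L[ℂ] ℂ) (hL : L 1 = c) :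
    (L.restrictScalars ℝ).det = ‖c‖ ^ 2 := by
  have h0 : ((L.restrictScalars ℝ : ℂ →L[ℝ] ℂ) : ℂ →ₗ[ℝ] ℂ) = LinearMap.mulLeft ℝ c := by
    refine LinearMap.ext fun z => ?_
    show L z = c * z
    have h2 := L.map_smul z 1
    rw [smul_eq_mul, mul_one, smul_eq_mul, hL] at h2
    rw [h2, mul_comm]
  have h1 : (L.restrictScalars ℝ).det = LinearMap.det ((LinearMap.mulLeft ℝ c) : ℂ →ₗ[ℝ] ℂ) := by
    rw [← h0]
  rw [h1]
  have h2 := Algebra.norm_complex_apply c
  rw [Algebra.norm_apply] at h2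
  rw [← Complex.normSq_eq_norm_sq, ← h2]
  rfl

/-- the measure of the image of a parametrization inside one box -/
theorem areaEx_box (g : HermMetric X) {f : X → ℂ} {s : ℂ} {U : Set ℂ} {φ : ℂ → X}
    (hφ : IsParam f s U φ) {b : OpenPartialHomeomorph X C2} (hb : IsBox f b) {A : Set ℂ}
    (hA : MeasurableSet A) (hAU : A ⊆ U) (hAb : ∀ z ∈ A, φ z ∈ b.source) :
    boxMeas g b s (φ '' A) = ∫⁻ z in A, ENNReal.ofReal (g.normSq (φ z) (vel φ z)) := by
  have hU := (isOpen_sliceDom b s).measurableSet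
  have hψ := hb.isParam s
  have hψm := areaA_aemeas hψ hU subset_rfl
  have him := hφ.measurableSet_image hA hAU
  rw [boxMeas, Measure.map_apply_of_aemeasurable
    (hψm.mono_ac (withDensity_absolutelyContinuous _ _)) him,
    withDensity_apply₀ _ (hψm.nullMeasurableSet_preimage him),
    Measure.restrict_restrict₀ (hψm.nullMeasurableSet_preimage him)]
  have hset : slice b s ⁻¹' (φ '' A) ∩ sliceDom b s = (fun z => (b (φ z)).1) '' A := by
    ext w
    constructor
    · rintro ⟨⟨z, hz, hzw⟩, hw⟩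
      refine ⟨z, hz, ?_⟩
      show (b (φ z)).1 = w
      rw [hzw]
      show (b (b.symm (w, s))).1 = w
      rw [b.right_inv hw]
    · rintro ⟨z, hz, rfl⟩
      obtain ⟨h1, h2⟩ := hb.slice_mem (hAb z hz)
      rw [hφ.fib z (hAU hz)] at h1 h2
      exact ⟨⟨z, hz, h2.symm⟩, h1⟩
  have hinj : InjOn (fun z => (b (φ z)).1) A := by
    intro z hz z' hz' h
    have h1 := (hb.slice_mem (hAb z hz)).2
    have h2 := (hb.slice_mem (hAb z' hz')).2
    rw [hφ.fib z (hAU hz)] at h1
    rw [hφ.fib z' (hAU hz')] at h2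
    have h3 : (b (φ z)).1 = (b (φ z')).1 := h
    rw [h3, h2] at h1
    exact hφ.inj (hAU hz) (hAU hz') h1.symm
  rw [hset, lintegral_image_eq_lintegral_abs_det_fderiv_mul volume hA
    (f' := fun z => (fderiv ℂ (fun z => (b (φ z)).1) z).restrictScalars ℝ) (fun z hz =>
      (((areaEx_J g hφ hb (hAU hz) (hAb z hz)).1.hasFDerivAt).restrictScalars
        ℝ).hasFDerivWithinAt) hinj]
  refine setLIntegral_congr_fun hA fun z hz => ?_
  show ENNReal.ofReal _ * ENNReal.ofReal _ = _
  rw [areaEx_det _ _ rfl, abs_of_nonneg (sq_nonneg _), ← ENNReal.ofReal_mul (sq_nonneg _),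
    (areaEx_J g hφ hb (hAU hz) (hAb z hz)).2]
  rfl

theorem exists_isFibreArea (g : HermMetric X) {f : X → ℂ}
    (hf : ContMDiff 𝓘(ℂ, C2) 𝓘(ℂ, ℂ) ω f) (s : ℂ) : ∃ μ : Measure X, IsFibreArea g f s μ := by
  classical
  have hfc : Continuous f := hf.continuous
  let F : Set X := {x | f x = s ∧ x ∉ Crit f}
  rcases F.eq_empty_or_nonempty with hF | hF
  · refine ⟨0, by simp, ?_⟩
    intro U φ hφ A hAU hA
    have : A = ∅ := by
      rw [Set.eq_empty_iff_forall_notMem]
      intro z hz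
      have h1 : φ z ∈ F := ⟨hφ.fib z (hAU hz), hφ.reg z (hAU hz)⟩
      rw [hF] at h1
      exact h1
    rw [this]
    simp
  have hbox : ∀ x : F, ∃ b : OpenPartialHomeomorph X C2, IsBox f b ∧ (x : X) ∈ b.source := by
    intro x
    obtain ⟨b, hb, hxb, -⟩ := exists_box' hf isOpen_univ (mem_univ (x : X)) x.2.2
    exact ⟨b, hb, hxb⟩
  choose bb hbb hbbx using hbox
  obtain ⟨T, hT, hTU⟩ := TopologicalSpace.isOpen_iUnion_countable
    (fun x : F => (bb x).source) (fun x => (bb x).open_source)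
  have hcov : F ⊆ ⋃ x ∈ T, (bb x).source := by
    rw [hTU]
    intro x hx
    exact mem_iUnion.2 ⟨⟨x, hx⟩, hbbx ⟨x, hx⟩⟩
  have hTne : T.Nonempty := by
    obtain ⟨x, hx⟩ := hF
    obtain ⟨y, hy, -⟩ := mem_iUnion₂.1 (hcov hx)
    exact ⟨y, hy⟩
  obtain ⟨q, hq⟩ := hT.exists_eq_range hTne
  let b : ℕ → OpenPartialHomeomorph X C2 := fun n => bb (q n)
  have hb : ∀ n, IsBox f (b n) := fun n => hbb (q n)
  have hcov' : ∀ x ∈ F, ∃ n, x ∈ (b n).source := by
    intro x hx
    obtain ⟨y, hy, hxy⟩ := mem_iUnion₂.1 (hcov hx)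
    rw [hq] at hy
    obtain ⟨n, rfl⟩ := hy
    exact ⟨n, hxy⟩
  let S : ℕ → Set X := fun n => (b n).source ∩ f ⁻¹' {s}
  have hS : ∀ n, MeasurableSet (S n) := fun n =>
    (b n).open_source.measurableSet.inter (hfc.measurable (measurableSet_singleton s))
  have hSF : ∀ n, S n ⊆ F := fun n x hx => ⟨hx.2, Set.disjoint_left.1 (hb n).disjoint_crit hx.1⟩
  let V : ℕ → Set X := disjointed S
  have hV : ∀ n, MeasurableSet (V n) := fun n => MeasurableSet.disjointed hS n
  have hVS : ∀ n, V n ⊆ S n := fun n => disjointed_subset S n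
  have hVU : F ⊆ ⋃ n, V n := by
    rw [iUnion_disjointed]
    intro x hx
    obtain ⟨n, hn⟩ := hcov' x hx
    exact mem_iUnion.2 ⟨n, hn, hx.1⟩
  refine ⟨Measure.sum fun n => (boxMeas g (b n) s).restrict (V n), ?_, ?_⟩
  · have hbad : MeasurableSet {x | f x ≠ s ∨ x ∈ Crit f} := by
      have h1 : {x | f x ≠ s ∨ x ∈ Crit f} = (f ⁻¹' {s})ᶜ ∪ Crit f := by
        ext x
        simp
      rw [h1]
      exact (hfc.measurable (measurableSet_singleton s)).compl.union
        (isClosed_crit hf).measurableSet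
    rw [Measure.sum_apply _ hbad]
    simp only [ENNReal.tsum_eq_zero]
    intro n
    rw [Measure.restrict_apply hbad]
    have h2 : {x | f x ≠ s ∨ x ∈ Crit f} ∩ V n = ∅ := by
      rw [Set.eq_empty_iff_forall_notMem]
      rintro x ⟨hx1, hx2⟩
      obtain ⟨h3, h4⟩ := hSF n (hVS n hx2)
      rcases hx1 with hx1 | hx1
      · exact hx1 h3
      · exact h4 hx1
    rw [h2, measure_empty]
  · intro U φ hφ A hAU hA
    have him := hφ.measurableSet_image hA hAU
    rw [Measure.sum_apply _ him]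
    have h1 : ∀ n, ((boxMeas g (b n) s).restrict (V n)) (φ '' A) =
        ∫⁻ z in A ∩ φ ⁻¹' (V n), ENNReal.ofReal (g.normSq (φ z) (vel φ z)) := by
      intro n
      rw [Measure.restrict_apply him, ← image_inter_preimage]
      exact areaEx_box g hφ (hb n) (areaEx_meas hφ hA hAU (hV n)) (inter_subset_left.trans hAU)
        (fun z hz => (hVS n hz.2).1)
    simp_rw [h1]
    rw [← lintegral_iUnion (fun n => areaEx_meas hφ hA hAU (hV n))]
    · congr 2
      ext z
      simp only [mem_iUnion, mem_inter_iff, mem_preimage]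
      constructor
      · rintro ⟨n, hz, -⟩
        exact hz
      · intro hz
        obtain ⟨n, hn⟩ := mem_iUnion.1 (hVU ⟨hφ.fib z (hAU hz), hφ.reg z (hAU hz)⟩)
        exact ⟨n, hz, hn⟩
    · intro i j hij
      have h2 := disjoint_disjointed S hij
      exact (h2.preimage φ).mono inter_subset_right inter_subset_right

end DD
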