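import Pool.Agent.Work.MP_dd1e4a_gt.CalcA

/-! # PartUnity: partitions of unity

`exists_bump`: Mathlib's smooth bump functions for closed sets on the real manifold `X`
(`isManifold_real`).
`exists_partition`: choose for every `x ∈ K` a smooth bump function `β x`
supported compactly in `O x` and equal to `1` near `x`, take a finite subcover, and
`ψ_i = β_i ∏_{j<i} (1 - β_j)`; then `∑ ψ_i = 1 - ∏ (1 - β_i) = 1` near `K`. -/

open scoped Manifold ContDiff Topology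
open MeasureTheory Set

namespace DD

variable {X : Type} [TopologicalSpace X] [T2Space X] [SecondCountableTopology X]
  [ChartedSpace C2 X] [IsManifold 𝓘(ℂ, C2) ω X]

/-- a smooth bump function around a compact set. -/
theorem exists_bump {K O : Set X} (hK : IsCompact K) (hO : IsOpen O) (hKO : K ⊆ O) :
    ∃ β : X → ℝ, ContMDiff 𝓘(ℝ, C2) 𝓘(ℝ, ℝ) ∞ β ∧ HasCompactSupport β ∧ tsupport β ⊆ O ∧
      (∀ x, 0 ≤ β x ∧ β x ≤ 1) ∧ ∃ W : Set X, IsOpen W ∧ K ⊆ W ∧ ∀ x ∈ W, β x = 1 := by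
  haveI : IsManifold 𝓘(ℝ, C2) ∞ X := isManifold_real
  haveI : LocallyCompactSpace X := ChartedSpace.locallyCompactSpace C2 X
  obtain ⟨L, hL, hKL, hLO⟩ := exists_compact_between hK hO hKO
  obtain ⟨η, h1, h2, h3⟩ := exists_contMDiffMap_one_nhds_of_subset_interior 𝓘(ℝ, C2)
    hK.isClosed hKL
  have hts : tsupport (fun x => η x) ⊆ L := by
    refine closure_minimal (fun x hx => ?_) hL.isClosed
    by_contra hxL
    exact hx (h2 x hxL)
  obtain ⟨W, hW1, hW2, hW3⟩ := mem_nhdsSet_iff_exists.mp h1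
  refine ⟨fun x => η x, η.contMDiff, hL.of_isClosed_subset (isClosed_tsupport _) hts,
    hts.trans hLO, fun x => h3 x, W, hW1, hW2, fun x hx => hW3 hx⟩

private theorem partUnity_aux (β : X → X → ℝ) (t : Finset X)
    (hs : ∀ q ∈ t, ContMDiff 𝓘(ℝ, C2) 𝓘(ℝ, ℝ) ∞ (β q)) (h01 : ∀ q ∈ t, ∀ x, 0 ≤ β q x ∧ β q x ≤ 1) :
    ∃ ψ : X → X → ℝ, (∀ q ∈ t, ContMDiff 𝓘(ℝ, C2) 𝓘(ℝ, ℝ) ∞ (ψ q)) ∧
      (∀ q ∈ t, ∀ x, 0 ≤ ψ q x) ∧ (∀ q ∈ t, tsupport (ψ q) ⊆ tsupport (β q)) ∧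
      ∀ x, ∑ q ∈ t, ψ q x = 1 - ∏ q ∈ t, (1 - β q x) := by
  classical
  induction t using Finset.induction_on with
  | empty => exact ⟨fun _ _ => 0, by simp, by simp, by simp, by simp⟩
  | insert a t hat ih =>
    obtain ⟨ψ, h1, h2, h3, h4⟩ := ih (fun q hq => hs q (Finset.mem_insert_of_mem hq))
      (fun q hq => h01 q (Finset.mem_insert_of_mem hq))
    refine ⟨fun q x => if q = a then β a x * ∏ r ∈ t, (1 - β r x) else ψ q x, ?_, ?_, ?_, ?_⟩
    · intro q hq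
      by_cases hqa : q = a
      · simp only [hqa, if_true]
        refine (hs a (Finset.mem_insert_self a t)).mul ?_
        have : ContMDiff 𝓘(ℝ, C2) 𝓘(ℝ, ℝ) ∞ (fun x => ∏ r ∈ t, (1 - β r x)) := by
          refine contMDiff_finset_prod (fun r hr => ?_)
          exact contMDiff_const.sub (hs r (Finset.mem_insert_of_mem hr))
        exact this
      · simp only [hqa, if_false]
        exact h1 q ((Finset.mem_insert.mp hq).resolve_left hqa)
    · intro q hq x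
      by_cases hqa : q = a
      · simp only [hqa, if_true]
        refine mul_nonneg (h01 a (Finset.mem_insert_self a t) x).1
          (Finset.prod_nonneg (fun r hr => ?_))
        linarith [(h01 r (Finset.mem_insert_of_mem hr) x).2]
      · simp only [hqa, if_false]
        exact h2 q ((Finset.mem_insert.mp hq).resolve_left hqa) x
    · intro q hq
      by_cases hqa : q = a
      · subst hqa
        simp only [if_true]
        exact tsupport_mul_subset_left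
      · simp only [hqa, if_false]
        exact h3 q ((Finset.mem_insert.mp hq).resolve_left hqa)
    · intro x
      rw [Finset.sum_insert hat, Finset.prod_insert hat]
      simp only [if_true]
      have hsum : ∑ q ∈ t, (if q = a then β a x * ∏ r ∈ t, (1 - β r x) else ψ q x) =
          ∑ q ∈ t, ψ q x := by
        refine Finset.sum_congr rfl (fun q hq => ?_)
        have hqa : q ≠ a := fun h => hat (h ▸ hq)
        simp [hqa]
      rw [hsum, h4 x]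
      ring

theorem exists_partition {K : Set X} (hK : IsCompact K) {O : X → Set X}
    (hO : ∀ x ∈ K, IsOpen (O x)) (hx : ∀ x ∈ K, x ∈ O x) :
    ∃ (t : Finset X) (ψ : X → X → ℝ), (∀ q ∈ t, q ∈ K) ∧
      (∀ q ∈ t, ContMDiff 𝓘(ℝ, C2) 𝓘(ℝ, ℝ) ∞ (ψ q)) ∧
      (∀ q ∈ t, ∀ x, 0 ≤ ψ q x ∧ ψ q x ≤ 1) ∧ (∀ q ∈ t, HasCompactSupport (ψ q)) ∧
      (∀ q ∈ t, tsupport (ψ q) ⊆ O q) ∧
      (∀ x, ∑ q ∈ t, ψ q x ≤ 1) ∧
      ∃ W : Set X, IsOpen W ∧ K ⊆ W ∧ ∀ x ∈ W, ∑ q ∈ t, ψ q x = 1 := by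
  classical
  have hb : ∀ q : X, ∃ (β : X → ℝ) (W : Set X), q ∈ K →
      (ContMDiff 𝓘(ℝ, C2) 𝓘(ℝ, ℝ) ∞ β ∧ HasCompactSupport β ∧ tsupport β ⊆ O q ∧
      (∀ x, 0 ≤ β x ∧ β x ≤ 1) ∧ IsOpen W ∧ q ∈ W ∧ ∀ x ∈ W, β x = 1) := by
    intro q
    by_cases hq : q ∈ K
    · obtain ⟨β, h1, h2, h3, h4, W, h5, h6, h7⟩ :=
        exists_bump (isCompact_singleton (x := q)) (hO q hq) (singleton_subset_iff.mpr (hx q hq))
      exact ⟨β, W, fun _ => ⟨h1, h2, h3, h4, h5, h6 rfl, h7⟩⟩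
    · exact ⟨fun _ => 0, ∅, fun h => absurd h hq⟩
  choose β W hβ using hb
  obtain ⟨t, ht1, ht2⟩ := hK.elim_nhds_subcover W
    (fun x hxK => (hβ x hxK).2.2.2.2.1.mem_nhds (hβ x hxK).2.2.2.2.2.1)
  obtain ⟨ψ, h1, h2, h3, h4⟩ := partUnity_aux β t (fun q hq => (hβ q (ht1 q hq)).1)
    (fun q hq => (hβ q (ht1 q hq)).2.2.2.1)
  have hprod0 : ∀ x, 0 ≤ ∏ q ∈ t, (1 - β q x) := fun x =>
    Finset.prod_nonneg (fun r hr => by linarith [((hβ r (ht1 r hr)).2.2.2.1 x).2])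
  have hle : ∀ x, ∑ q ∈ t, ψ q x ≤ 1 := fun x => by
    rw [h4 x]
    linarith [hprod0 x]
  refine ⟨t, ψ, ht1, h1, fun q hq x => ⟨h2 q hq x, ?_⟩, fun q hq => ?_, fun q hq => ?_, hle,
    ⋃ q ∈ t, W q, ?_, ht2, ?_⟩
  · exact (Finset.single_le_sum (fun r hr => h2 r hr x) hq).trans (hle x)
  · exact IsCompact.of_isClosed_subset (hβ q (ht1 q hq)).2.1 (isClosed_tsupport _) (h3 q hq)
  · exact (h3 q hq).trans (hβ q (ht1 q hq)).2.2.1
  · exact isOpen_biUnion (fun q hq => (hβ q (ht1 q hq)).2.2.2.2.1)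
  · intro x hxW
    obtain ⟨q, hq, hxq⟩ := mem_iUnion₂.mp hxW
    rw [h4 x, Finset.prod_eq_zero hq (by rw [(hβ q (ht1 q hq)).2.2.2.2.2.2 x hxq]; ring)]
    ring

end DD
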