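import Pool.Agent.Work.MP_dd1e4a_gt.AreaD
import Pool.Agent.Work.MP_dd1e4a_gt.PartUnity

/-! # LamNonempty: the min-max set is not empty; regular points of the singular fibre

* `lamSet_nonempty`: box `b` at `q` (`exists_box'`), `k + 1` distinct points of the slice near `q`
  with pairwise disjoint neighbourhoods in `b.source`; smooth bump functions `u_j ≥ 0` (complex
  valued) with compact supports in these neighbourhoods, `u_j = 1` near the `j`-th point
  (`exists_bump`), so `M (u_j) > 0` (`lintegral_box`, positive density). Let `V` be their span: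
  dimension `k + 1` (disjoint supports), `M (∑ c_j u_j) = ∑ |c_j|² M (u_j)`,
  `E (∑ c_j u_j) = ∑ |c_j|² E (u_j)` (at every point at most one `u_j` is not locally zero), so
  `Λ = max E (u_j) / M (u_j)` works. Disjointness of the supports from `Crit f`:
  `IsBox.disjoint_crit`.
* `exists_regular`: if `x` with `f x = 0` is critical, `x = p ∈ P`: `root` for the first coordinate
  `a` (a nonzero number) gives a point `x' ≠ p` of the source of `e p` with `f x' = 0`, not
  critical by `crit`. -/

open scoped Manifold ContDiff Topology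
open MeasureTheory Set

namespace DD

variable {X : Type} [TopologicalSpace X] [T2Space X] [SecondCountableTopology X]
  [ChartedSpace C2 X] [IsManifold 𝓘(ℂ, C2) ω X] {f : X → ℂ}

theorem exists_regular (S : Setup f) (hx : ∃ x, f x = 0) : ∃ x, f x = 0 ∧ x ∉ Crit f := by
  obtain ⟨x, hx⟩ := hx
  by_cases hxc : x ∈ Crit f
  · rw [← S.hP] at hxc
    have hl := S.loc x hxc
    have ha : ‖((S.a : ℝ) : ℂ)‖ ≤ S.a := by
      rw [Complex.norm_real, Real.norm_of_nonneg S.a_pos.le]
    obtain ⟨y, hy, hy2⟩ := hl.root (S.a : ℂ) ha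
    have ht : ((S.a : ℂ), y) ∈ (S.e x).target :=
      hl.target ⟨by simpa using ha, by simpa using hy.le⟩
    refine ⟨(S.e x).symm ((S.a : ℂ), y), hy2, ?_⟩
    intro hc
    have h1 := hl.crit _ ((S.e x).map_target ht) hc
    have h2 := (S.e x).right_inv ht
    rw [h1, hl.map_p] at h2
    have h3 := congrArg Prod.fst h2
    simp only at h3
    have h4 : S.a = 0 := by exact_mod_cast h3.symm
    exact S.a_pos.ne' h4
  · exact ⟨x, hx, hxc⟩

omit [T2Space X] [SecondCountableTopology X] [IsManifold 𝓘(ℂ, C2) ω X] in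
private theorem lamNonempty_congr (g : HermMetric X) {u v : X → ℂ} {x : X}
    (h : u =ᶠ[𝓝 x] v) : dbarSq g f u x = dbarSq g f v x := by
  rw [dbarSq, dbarSq, dR_congr h, dR_congr h]

omit [T2Space X] [SecondCountableTopology X] [IsManifold 𝓘(ℂ, C2) ω X] in
private theorem lamNonempty_smul (g : HermMetric X) {u : X → ℂ} {x : X} (c : ℂ)
    (hu : MDifferentiableAt 𝓘(ℝ, C2) 𝓘(ℝ, ℂ) u x) :
    dbarSq g f (fun y => c * u y) x = ‖c‖ ^ 2 * dbarSq g f u x := by
  have h1 : ∀ ν : TangentSpace 𝓘(ℂ, C2) x, dR (fun y => c * u y) x ν = c * dR u x ν := by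
    intro ν
    have hk : HasFDerivAt (fun z : ℂ => c * z) (ContinuousLinearMap.mul ℝ ℂ c) (u x) :=
      (ContinuousLinearMap.mul ℝ ℂ c).hasFDerivAt
    have h := dR_comp_left (k := fun z : ℂ => c * z) hk.differentiableAt hu ν
    rw [h, hk.fderiv]
    rfl
  rw [dbarSq, dbarSq, h1, h1]
  have h2 : (c * dR u x (tanVec f x) + Complex.I * (c * dR u x (Complex.I • tanVec f x))) / 2 =
      c * ((dR u x (tanVec f x) + Complex.I * dR u x (Complex.I • tanVec f x)) / 2) := by ring
  rw [h2, norm_mul]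
  ring

omit [T2Space X] [SecondCountableTopology X] [IsManifold 𝓘(ℂ, C2) ω X] in
private theorem lamNonempty_zero (g : HermMetric X) {u : X → ℂ} {x : X}
    (h : u =ᶠ[𝓝 x] fun _ => 0) : dbarSq g f u x = 0 := by
  rw [lamNonempty_congr g h, dbarSq]
  have h1 : ∀ ν : TangentSpace 𝓘(ℂ, C2) x, dR (fun _ : X => (0 : ℂ)) x ν = 0 := by
    intro ν
    unfold dR
    rw [mfderiv_const]
    rfl
  rw [h1, h1]
  simp

theorem lamSet_nonempty [MeasurableSpace X] [BorelSpace X] (g : HermMetric X)
    (hf : ContMDiff 𝓘(ℂ, C2) 𝓘(ℂ, ℂ) ω f) {s : ℂ} {μ : Measure X} (hμ : IsFibreArea g f s μ)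
    {q : X} (hq : f q = s) (hqc : q ∉ Crit f) (k : ℕ) : (lamSet g f μ k).Nonempty := by
  classical
  obtain ⟨b, hb, hqb, -⟩ := exists_box' hf isOpen_univ (mem_univ q) hqc
  have hbq : b q = ((b q).1, s) := Prod.ext rfl ((hb.snd q hqb).trans hq)
  obtain ⟨r, hr, hball⟩ := Metric.isOpen_iff.1 b.open_target (b q) (b.map_source hqb)
  -- the points
  set t : Fin (k + 1) → ℝ := fun j => r * (j : ℕ) / (k + 1) with ht
  have htpos : ∀ j, 0 ≤ t j := fun j => by rw [ht]; positivity
  have htlt : ∀ j, t j < r := by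
    intro j
    rw [ht]
    simp only
    rw [div_lt_iff₀ (by positivity)]
    have : ((j : ℕ) : ℝ) < k + 1 := by exact_mod_cast j.2
    nlinarith
  have htinj : Function.Injective t := by
    intro i j hij
    have h0 : ((k : ℝ) + 1) ≠ 0 := by positivity
    have hij' : r * ((i : ℕ) : ℝ) / (k + 1) = r * ((j : ℕ) : ℝ) / (k + 1) := hij
    rw [div_left_inj' h0] at hij'
    have := mul_left_cancel₀ hr.ne' hij'
    exact Fin.ext (by exact_mod_cast this)
  have htar : ∀ j, ((b q).1 + (t j : ℂ), s) ∈ b.target := by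
    intro j
    apply hball
    rw [hbq, Metric.mem_ball, Prod.dist_eq]
    simp only [dist_self]
    rw [dist_eq_norm, add_sub_cancel_left, Complex.norm_real, Real.norm_of_nonneg (htpos j)]
    exact max_lt (htlt j) hr
  set pt : Fin (k + 1) → X := fun j => b.symm ((b q).1 + (t j : ℂ), s) with hpt
  have hpts : ∀ j, pt j ∈ b.source := fun j => b.map_target (htar j)
  have hbpt : ∀ j, b (pt j) = ((b q).1 + (t j : ℂ), s) := fun j => b.right_inv (htar j)
  have hptinj : Function.Injective pt := by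
    intro i j hij
    have h1 := congrArg b hij
    rw [hbpt, hbpt] at h1
    have h2 := congrArg Prod.fst h1
    simp only [add_right_inj, Complex.ofReal_inj] at h2
    exact htinj h2
  obtain ⟨U, hU1, hU2⟩ := (Set.finite_range pt).t2_separation
  -- the bump functions
  have hbump : ∀ j, ∃ β : X → ℝ, ContMDiff 𝓘(ℝ, C2) 𝓘(ℝ, ℝ) ∞ β ∧ HasCompactSupport β ∧
      tsupport β ⊆ U (pt j) ∩ b.source ∧
      (∀ x, 0 ≤ β x ∧ β x ≤ 1) ∧ ∃ W : Set X, IsOpen W ∧ {pt j} ⊆ W ∧ ∀ x ∈ W, β x = 1 := by
    intro j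
    exact exists_bump (isCompact_singleton (x := pt j)) ((hU1 (pt j)).2.inter b.open_source)
      (singleton_subset_iff.mpr ⟨(hU1 (pt j)).1, hpts j⟩)
  choose β hβ1 hβ2 hβ3 hβ4 W hW1 hW2 hW3 using hbump
  set u : Fin (k + 1) → X → ℂ := fun j x => (β j x : ℂ) with hu
  have hsupp : ∀ j, tsupport (u j) ⊆ tsupport (β j) := by
    intro j
    refine closure_mono fun x hx => ?_
    simp only [hu, Function.mem_support, ne_eq, Complex.ofReal_eq_zero] at hx ⊢
    exact hx
  have hdisj : ∀ i j, i ≠ j → Disjoint (tsupport (u i)) (tsupport (u j)) := by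
    intro i j hij
    have h1 : Disjoint (U (pt i)) (U (pt j)) :=
      hU2 (mem_range_self i) (mem_range_self j) (fun h => hij (hptinj h))
    exact h1.mono (((hsupp i).trans (hβ3 i)).trans inter_subset_left)
      (((hsupp j).trans (hβ3 j)).trans inter_subset_left)
  have hsm : ∀ j, ContMDiff 𝓘(ℝ, C2) 𝓘(ℝ, ℂ) ∞ (u j) := by
    intro j
    have h1 : ContDiff ℝ ∞ (fun y : ℝ => (y : ℂ)) := Complex.ofRealCLM.contDiff
    exact h1.contMDiff.comp (hβ1 j)
  have huT : ∀ j, u j ∈ Test f := by
    intro j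
    refine ⟨hsm j, ?_, ?_⟩
    · exact IsCompact.of_isClosed_subset (hβ2 j) (isClosed_tsupport _) (hsupp j)
    · exact hb.disjoint_crit.mono_left (((hsupp j).trans (hβ3 j)).trans inter_subset_right)
  -- the masses are positive
  have hpar := hb.isParam s
  have hint : ∀ j, Integrable (dbarSq g f (u j)) μ ∧ Integrable (fun x => ‖u j x‖ ^ 2) μ :=
    fun j => (hμ.integrable_test hf (huT j)).2
  have hμW : ∀ j, 0 < μ (W j) := by
    intro j
    set A : Set ℂ := sliceDom b s ∩ slice b s ⁻¹' (W j) with hA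
    have hAo : IsOpen A :=
      hpar.holo.continuousOn.isOpen_inter_preimage (isOpen_sliceDom b s) (hW1 j)
    have hAne : A.Nonempty := ⟨(b q).1 + (t j : ℂ), htar j, hW2 j rfl⟩
    have h1 := hμ.area _ _ hpar A inter_subset_left hAo.measurableSet
    have h2 : 0 < ∫⁻ z in A, ENNReal.ofReal (g.normSq (slice b s z) (vel (slice b s) z)) := by
      rw [pos_iff_ne_zero]
      intro h0
      have h3 := (lintegral_eq_zero_iff' (areaA_dens (g := g) hpar hAo.measurableSet
        inter_subset_left)).mp h0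
      have h4 : ∀ᵐ z ∂(volume.restrict A), False := by
        filter_upwards [h3, ae_restrict_mem hAo.measurableSet] with z hz hzA
        have h5 := hpar.normSq_pos g hf hzA.1
        simp only [Pi.zero_apply, ENNReal.ofReal_eq_zero] at hz
        linarith
      rw [ae_iff] at h4
      simp only [not_false_eq_true, setOf_true, Measure.restrict_apply_univ] at h4
      exact (hAo.measure_pos volume hAne).ne' h4
    refine lt_of_lt_of_le (h1 ▸ h2) (measure_mono ?_)
    rintro _ ⟨z, hz, rfl⟩
    exact hz.2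
  have hMpos : ∀ j, 0 < ∫ x, ‖u j x‖ ^ 2 ∂μ := by
    intro j
    rw [integral_pos_iff_support_of_nonneg (fun x => by positivity) (hint j).2]
    refine lt_of_lt_of_le (hμW j) (measure_mono fun x hx => ?_)
    simp only [hu, Function.mem_support, ne_eq]
    rw [hW3 j x hx]
    simp
  have hEnn : ∀ j, 0 ≤ ∫ x, dbarSq g f (u j) x ∂μ := by
    intro j
    refine integral_nonneg fun x => ?_
    exact div_nonneg (by positivity) (normSq_nonneg g x _)
  -- values at the points
  have hupt : ∀ i j, u j (pt i) = if i = j then 1 else 0 := by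
    intro i j
    by_cases hij : i = j
    · rw [if_pos hij, hij]
      simp only [hu]
      rw [hW3 j _ (hW2 j rfl), Complex.ofReal_one]
    · rw [if_neg hij]
      have h1 : u i (pt i) = 1 := by
        simp only [hu]
        rw [hW3 i _ (hW2 i rfl), Complex.ofReal_one]
      have h2 : pt i ∈ tsupport (u i) := by
        apply subset_tsupport
        rw [Function.mem_support, h1]
        exact one_ne_zero
      have h3 : pt i ∉ tsupport (u j) := Set.disjoint_left.mp (hdisj i j hij) h2
      exact image_eq_zero_of_notMem_tsupport h3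
  have hlin : LinearIndependent ℂ u := by
    rw [Fintype.linearIndependent_iff]
    intro c hc i
    have h1 := congrFun hc (pt i)
    simp only [Finset.sum_apply, Pi.smul_apply, smul_eq_mul, hupt, Pi.zero_apply, mul_ite, mul_one,
      mul_zero, Finset.sum_ite_eq, Finset.mem_univ, if_true] at h1
    exact h1
  -- local structure of a linear combination
  have hloc : ∀ (c : Fin (k + 1) → ℂ) (x : X), (∀ j, x ∉ tsupport (u j)) ∨
      ∃ i, x ∈ tsupport (u i) ∧ ∀ j, j ≠ i → x ∉ tsupport (u j) := by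
    intro c x
    by_cases h : ∃ i, x ∈ tsupport (u i)
    · obtain ⟨i, hi⟩ := h
      right
      exact ⟨i, hi, fun j hj hxj => Set.disjoint_left.mp (hdisj j i hj) hxj hi⟩
    · left
      push Not at h
      exact h
  have hnormsq : ∀ (c : Fin (k + 1) → ℂ) (x : X),
      ‖(∑ j, c j • u j) x‖ ^ 2 = ∑ j, ‖c j‖ ^ 2 * ‖u j x‖ ^ 2 := by
    intro c x
    simp only [Finset.sum_apply, Pi.smul_apply, smul_eq_mul]
    rcases hloc c x with h | ⟨i, hi, h⟩
    · have h1 : ∀ j, u j x = 0 := fun j => image_eq_zero_of_notMem_tsupport (h j)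
      simp [h1]
    · have h1 : ∀ j, j ≠ i → u j x = 0 := fun j hj => image_eq_zero_of_notMem_tsupport (h j hj)
      rw [Finset.sum_eq_single i (fun j _ hj => by rw [h1 j hj, mul_zero])
        (fun h => absurd (Finset.mem_univ i) h),
        Finset.sum_eq_single i (fun j _ hj => by rw [h1 j hj]; simp)
        (fun h => absurd (Finset.mem_univ i) h), norm_mul, mul_pow]
  have hdbar : ∀ (c : Fin (k + 1) → ℂ) (x : X),
      dbarSq g f (∑ j, c j • u j) x = ∑ j, ‖c j‖ ^ 2 * dbarSq g f (u j) x := by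
    intro c x
    have hev : ∀ j, x ∉ tsupport (u j) → ∀ᶠ y in 𝓝 x, u j y = 0 :=
      fun j hj => notMem_tsupport_iff_eventuallyEq.mp hj
    rcases hloc c x with h | ⟨i, hi, h⟩
    · have h1 : (∑ j, c j • u j) =ᶠ[𝓝 x] fun _ => 0 := by
        have h2 : ∀ᶠ y in 𝓝 x, ∀ j, u j y = 0 := Filter.eventually_all.mpr fun j => hev j (h j)
        filter_upwards [h2] with y hy
        simp only [Finset.sum_apply, Pi.smul_apply, smul_eq_mul]
        exact Finset.sum_eq_zero fun j _ => by rw [hy j, mul_zero]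
      rw [lamNonempty_zero g h1]
      symm
      refine Finset.sum_eq_zero fun j _ => ?_
      rw [lamNonempty_zero g (hev j (h j)), mul_zero]
    · have h1 : (∑ j, c j • u j) =ᶠ[𝓝 x] fun y => c i * u i y := by
        have h2 : ∀ᶠ y in 𝓝 x, ∀ j, j ≠ i → u j y = 0 := by
          refine Filter.eventually_all.mpr fun j => ?_
          by_cases hj : j = i
          · exact Filter.Eventually.of_forall fun y h => absurd hj h
          · filter_upwards [hev j (h j hj)] with y hy _
            exact hy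
        filter_upwards [h2] with y hy
        simp only [Finset.sum_apply, Pi.smul_apply, smul_eq_mul]
        exact Finset.sum_eq_single i (fun j _ hj => by rw [hy j hj, mul_zero])
          (fun h => absurd (Finset.mem_univ i) h)
      rw [lamNonempty_congr g h1,
        lamNonempty_smul g (c i) ((hsm i).contMDiffAt.mdifferentiableAt (by simp))]
      symm
      exact Finset.sum_eq_single i
        (fun j _ hj => by rw [lamNonempty_zero g (hev j (h j hj)), mul_zero])
        (fun h => absurd (Finset.mem_univ i) h)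
  have hM : ∀ c : Fin (k + 1) → ℂ, ∫ x, ‖(∑ j, c j • u j) x‖ ^ 2 ∂μ =
      ∑ j, ‖c j‖ ^ 2 * ∫ x, ‖u j x‖ ^ 2 ∂μ := by
    intro c
    simp_rw [hnormsq c]
    rw [integral_finset_sum _ (fun j _ => (hint j).2.const_mul _)]
    refine Finset.sum_congr rfl fun j _ => ?_
    rw [integral_const_mul]
  have hE : ∀ c : Fin (k + 1) → ℂ, ∫ x, dbarSq g f (∑ j, c j • u j) x ∂μ =
      ∑ j, ‖c j‖ ^ 2 * ∫ x, dbarSq g f (u j) x ∂μ := by
    intro c
    simp_rw [hdbar c]
    rw [integral_finset_sum _ (fun j _ => (hint j).1.const_mul _)]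
    refine Finset.sum_congr rfl fun j _ => ?_
    rw [integral_const_mul]
  refine ⟨∑ i, (∫ x, dbarSq g f (u i) x ∂μ) / ∫ x, ‖u i x‖ ^ 2 ∂μ,
    Submodule.span ℂ (Set.range u), ?_, ?_, ?_, ?_⟩
  · rw [Submodule.span_le]
    rintro _ ⟨j, rfl⟩
    exact huT j
  · rw [finrank_span_eq_card hlin, Fintype.card_fin]
  · intro v hv hv0
    obtain ⟨c, rfl⟩ := (Submodule.mem_span_range_iff_exists_fun ℂ).mp hv
    rw [hM c] at hv0
    have h1 := (Finset.sum_eq_zero_iff_of_nonneg
      (fun j _ => mul_nonneg (by positivity) (hMpos j).le)).mp hv0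
    have h2 : ∀ j, c j = 0 := by
      intro j
      have h3 := h1 j (Finset.mem_univ j)
      rcases mul_eq_zero.mp h3 with h4 | h4
      · simpa using h4
      · exact absurd h4 (hMpos j).ne'
    simp [h2]
  · intro v hv
    obtain ⟨c, rfl⟩ := (Submodule.mem_span_range_iff_exists_fun ℂ).mp hv
    rw [hM c, hE c, Finset.mul_sum]
    refine Finset.sum_le_sum fun j _ => ?_
    have h1 : (∫ x, dbarSq g f (u j) x ∂μ) / (∫ x, ‖u j x‖ ^ 2 ∂μ) ≤
        ∑ i, (∫ x, dbarSq g f (u i) x ∂μ) / ∫ x, ‖u i x‖ ^ 2 ∂μ :=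
      Finset.single_le_sum (f := fun i => (∫ x, dbarSq g f (u i) x ∂μ) / ∫ x, ‖u i x‖ ^ 2 ∂μ)
        (fun i _ => div_nonneg (hEnn i) (hMpos i).le) (Finset.mem_univ j)
    rw [div_le_iff₀ (hMpos j)] at h1
    have h2 := mul_le_mul_of_nonneg_left h1 (by positivity : (0 : ℝ) ≤ ‖c j‖ ^ 2)
    linarith

end DD
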