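import Pool.Agent.Work.MP_dd1e4a_gt.Defs3

/-! # MinMax: perturbation of the min-max values -/

open scoped Manifold ContDiff Topology
open MeasureTheory Set

namespace DD

variable {X : Type} [TopologicalSpace X] [ChartedSpace C2 X] [MeasurableSpace X] {f : X → ℂ}

theorem lam_eq (g : HermMetric X) (f : X → ℂ) (μ : Measure X) (k : ℕ) :
    lam g f μ k = sInf (lamSet g f μ k) := rfl

omit [MeasurableSpace X] in
private theorem minMax_normSq_nonneg (g : HermMetric X) (x : X)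
    (v : TangentSpace 𝓘(ℂ, C2) x) : 0 ≤ g.normSq x v := by
  unfold HermMetric.normSq
  by_cases hv : v = 0
  · have h := g.smul_left x 0 v v
    rw [zero_smul, zero_mul] at h
    rw [hv] at h ⊢
    rw [h]
    simp
  · exact (g.pos x v hv).le

omit [MeasurableSpace X] in
private theorem minMax_dbar_nonneg (g : HermMetric X) (f : X → ℂ) (u : X → ℂ) (x : X) :
    0 ≤ dbarSq g f u x := by
  unfold dbarSq
  exact div_nonneg (mul_nonneg (by norm_num) (by positivity)) (minMax_normSq_nonneg g x _)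

theorem lamSet_nonneg (g : HermMetric X) (f : X → ℂ) (μ : Measure X) (k : ℕ) :
    ∀ Λ ∈ lamSet g f μ k, 0 ≤ Λ := by
  rintro Λ ⟨V, hV, hfr, hdef, hle⟩
  have hne : V ≠ ⊥ := by
    intro h
    rw [h, finrank_bot] at hfr
    omega
  obtain ⟨u, huV, hu0⟩ := Submodule.exists_mem_ne_zero_of_ne_bot hne
  have hM : 0 ≤ ∫ x, ‖u x‖ ^ 2 ∂μ := integral_nonneg (fun x => by positivity)
  have hM' : 0 < ∫ x, ‖u x‖ ^ 2 ∂μ :=
    lt_of_le_of_ne hM (fun h => hu0 (hdef u huV h.symm))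
  have hE : 0 ≤ ∫ x, dbarSq g f u x ∂μ :=
    integral_nonneg (fun x => minMax_dbar_nonneg g f u x)
  have h := hle u huV
  by_contra hneg
  push Not at hneg
  have : Λ * ∫ x, ‖u x‖ ^ 2 ∂μ < 0 := mul_neg_of_neg_of_pos hneg hM'
  linarith

private theorem minMax_step (g : HermMetric X) (f : X → ℂ) {μ μ' : Measure X} {k : ℕ} {κ : ℝ}
    (hκ : 0 ≤ κ) (T : Test f →ₗ[ℂ] Test f)
    (hE : ∀ u : Test f, ∫ x, dbarSq g f (T u).1 x ∂μ' ≤ (∫ x, dbarSq g f u.1 x ∂μ) +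
      κ * ((∫ x, dbarSq g f u.1 x ∂μ) + ∫ x, ‖u.1 x‖ ^ 2 ∂μ))
    (hM : ∀ u : Test f, (∫ x, ‖u.1 x‖ ^ 2 ∂μ) -
      κ * ((∫ x, dbarSq g f u.1 x ∂μ) + ∫ x, ‖u.1 x‖ ^ 2 ∂μ) ≤ ∫ x, ‖(T u).1 x‖ ^ 2 ∂μ')
    {Λ : ℝ} (hΛ : Λ ∈ lamSet g f μ k) (hs : κ * (1 + Λ) ≤ 1 / 2) :
    Λ + 2 * κ * (1 + Λ) ^ 2 ∈ lamSet g f μ' k := by
  have hΛ0 := lamSet_nonneg g f μ k Λ hΛ
  obtain ⟨V, hV, hfr, hdef, hle⟩ := hΛ
  set W : Submodule ℂ (Test f) := Submodule.comap (Test f).subtype V with hW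
  have hWfr : Module.finrank ℂ W = k + 1 := by
    rw [← hfr]
    exact LinearEquiv.finrank_eq (Submodule.comapSubtypeEquivOfLe hV)
  set L : W →ₗ[ℂ] (X → ℂ) := (Test f).subtype ∘ₗ T ∘ₗ W.subtype with hL
  have hLa : ∀ w : W, L w = (T w.1).1 := fun w => rfl
  have ha0 : 0 ≤ κ * (1 + Λ) := by positivity
  -- the basic estimates
  have hMn : ∀ w : W, 0 ≤ ∫ x, ‖w.1.1 x‖ ^ 2 ∂μ := fun w =>
    integral_nonneg (fun x => by positivity)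
  have hEW : ∀ w : W, ∫ x, dbarSq g f w.1.1 x ∂μ ≤ Λ * ∫ x, ‖w.1.1 x‖ ^ 2 ∂μ := fun w =>
    hle w.1.1 w.2
  have h1 : ∀ w : W, (1 - κ * (1 + Λ)) * ∫ x, ‖w.1.1 x‖ ^ 2 ∂μ ≤
      ∫ x, ‖(T w.1).1 x‖ ^ 2 ∂μ' := by
    intro w
    refine le_trans ?_ (hM w.1)
    have := mul_le_mul_of_nonneg_left (hEW w) hκ
    nlinarith
  have h2 : ∀ w : W, ∫ x, dbarSq g f (T w.1).1 x ∂μ' ≤
      (Λ + κ * (1 + Λ)) * ∫ x, ‖w.1.1 x‖ ^ 2 ∂μ := by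
    intro w
    refine le_trans (hE w.1) ?_
    have := mul_le_mul_of_nonneg_left (hEW w) hκ
    have := hEW w
    nlinarith
  have hz : ∀ w : W, ∫ x, ‖(T w.1).1 x‖ ^ 2 ∂μ' = 0 → w = 0 := by
    intro w hw
    have h3 := h1 w
    rw [hw] at h3
    have h4 : ∫ x, ‖w.1.1 x‖ ^ 2 ∂μ = 0 := by
      have h5 := hMn w
      nlinarith
    have h5 := hdef w.1.1 w.2 h4
    exact Subtype.ext (Subtype.ext h5)
  have hinj : Function.Injective L := by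
    intro w₁ w₂ h
    rw [hLa, hLa] at h
    have e : T (w₁ - w₂).1 = T w₁.1 - T w₂.1 := by
      rw [← map_sub]
      rfl
    have h3 : (T (w₁ - w₂).1).1 = 0 := by
      rw [e]
      change (T w₁.1).1 - (T w₂.1).1 = 0
      rw [h, sub_self]
    apply sub_eq_zero.1
    apply hz
    rw [h3]
    simp
  refine ⟨LinearMap.range L, ?_, ?_, ?_, ?_⟩
  · rintro _ ⟨w, rfl⟩
    exact (T w.1).2
  · rw [LinearMap.finrank_range_of_inj hinj, hWfr]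
  · rintro _ ⟨w, rfl⟩ hu
    rw [hz w hu, map_zero]
  · rintro _ ⟨w, rfl⟩
    rw [hLa]
    refine le_trans (h2 w) ?_
    have hpos : 0 ≤ Λ + 2 * κ * (1 + Λ) ^ 2 := by positivity
    refine le_trans ?_ (mul_le_mul_of_nonneg_left (h1 w) hpos)
    rw [← mul_assoc]
    apply mul_le_mul_of_nonneg_right _ (hMn w)
    have hb : 0 ≤ κ * (1 + Λ) * ((1 + Λ) * (1 / 2 - κ * (1 + Λ))) := by
      apply mul_nonneg ha0
      apply mul_nonneg (by linarith)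
      linarith
    nlinarith

theorem lam_transfer (g : HermMetric X) (f : X → ℂ) {μ μ' : Measure X} {k : ℕ} {κ : ℝ}
    (hκ : 0 ≤ κ) (T : Test f →ₗ[ℂ] Test f)
    (hE : ∀ u : Test f, ∫ x, dbarSq g f (T u).1 x ∂μ' ≤ (∫ x, dbarSq g f u.1 x ∂μ) +
      κ * ((∫ x, dbarSq g f u.1 x ∂μ) + ∫ x, ‖u.1 x‖ ^ 2 ∂μ))
    (hM : ∀ u : Test f, (∫ x, ‖u.1 x‖ ^ 2 ∂μ) -
      κ * ((∫ x, dbarSq g f u.1 x ∂μ) + ∫ x, ‖u.1 x‖ ^ 2 ∂μ) ≤ ∫ x, ‖(T u).1 x‖ ^ 2 ∂μ')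
    (hne : (lamSet g f μ k).Nonempty) (hsmall : κ * (2 + lam g f μ k) ≤ 1 / 2) :
    (lamSet g f μ' k).Nonempty ∧
      lam g f μ' k ≤ lam g f μ k + 2 * κ * (1 + lam g f μ k) ^ 2 := by
  set l := lam g f μ k with hl
  have hbdd : ∀ ν : Measure X, BddBelow (lamSet g f ν k) := fun ν =>
    ⟨0, fun Λ hΛ => lamSet_nonneg g f ν k Λ hΛ⟩
  have hex : ∀ ε : ℝ, 0 < ε → ∃ Λ ∈ lamSet g f μ k, l ≤ Λ ∧ Λ < l + ε := by
    intro ε hε
    obtain ⟨Λ, hΛ, hlt⟩ := exists_lt_of_csInf_lt hne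
      (show sInf (lamSet g f μ k) < l + ε by
        rw [← lam_eq]
        linarith)
    exact ⟨Λ, hΛ, csInf_le (hbdd μ) hΛ, hlt⟩
  have hstep : ∀ ε : ℝ, 0 < ε → ε ≤ 1 → ∃ Λ, l ≤ Λ ∧ Λ < l + ε ∧
      Λ + 2 * κ * (1 + Λ) ^ 2 ∈ lamSet g f μ' k := by
    intro ε hε hε1
    obtain ⟨Λ, hΛ, h1, h2⟩ := hex ε hε
    refine ⟨Λ, h1, h2, minMax_step g f hκ T hE hM hΛ ?_⟩
    refine le_trans (mul_le_mul_of_nonneg_left ?_ hκ) hsmall
    linarith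
  have hl0 : 0 ≤ l := by
    rw [hl, lam_eq]
    exact Real.sInf_nonneg (fun Λ hΛ => lamSet_nonneg g f μ k Λ hΛ)
  refine ⟨?_, ?_⟩
  · obtain ⟨Λ, _, _, h⟩ := hstep 1 one_pos le_rfl
    exact ⟨_, h⟩
  · have hbound : ∀ ε ∈ Ioo (0 : ℝ) 1, lam g f μ' k ≤ (l + ε) + 2 * κ * (1 + (l + ε)) ^ 2 := by
      rintro ε ⟨hε, hε1⟩
      obtain ⟨Λ, h1, h2, h3⟩ := hstep ε hε hε1.le
      have h4 : lam g f μ' k ≤ Λ + 2 * κ * (1 + Λ) ^ 2 := csInf_le (hbdd μ') h3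
      refine h4.trans ?_
      have h5 : (1 + Λ) ^ 2 ≤ (1 + (l + ε)) ^ 2 :=
        pow_le_pow_left₀ (by linarith) (by linarith) 2
      have h6 := mul_le_mul_of_nonneg_left h5 (show 0 ≤ 2 * κ by linarith)
      linarith
    have hcont : Continuous (fun ε : ℝ => (l + ε) + 2 * κ * (1 + (l + ε)) ^ 2) := by fun_prop
    have htend : Filter.Tendsto (fun ε : ℝ => (l + ε) + 2 * κ * (1 + (l + ε)) ^ 2)
        (𝓝[>] (0 : ℝ)) (𝓝 ((l + 0) + 2 * κ * (1 + (l + 0)) ^ 2)) :=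
      (hcont.tendsto 0).mono_left nhdsWithin_le_nhds
    rw [add_zero] at htend
    refine ge_of_tendsto htend ?_
    filter_upwards [Ioo_mem_nhdsGT (show (0 : ℝ) < 1 by norm_num)] with ε hε
    exact hbound ε hε

end DD
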