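import Pool.Agent.Work.MP_dd1e4a_gt.CalcA

/-! # ExtC: extension by zero of functions given in a chart

`G ∘ e` on `e.source`, zero on the open set `(e.symm '' K)ᶜ`; these two open sets
cover `X` (`e.symm '' K` is compact, hence closed). -/

open scoped Manifold ContDiff Topology
open MeasureTheory Set

namespace DD

variable {X : Type} [TopologicalSpace X] [T2Space X] [SecondCountableTopology X]
  [ChartedSpace C2 X] [IsManifold 𝓘(ℂ, C2) ω X]

theorem extC_smooth {e : OpenPartialHomeomorph X C2}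
    (he : ContMDiffOn 𝓘(ℂ, C2) 𝓘(ℂ, C2) ω e e.source) {G : C2 → ℝ} {K : Set C2}
    (hK : IsCompact K) (hKt : K ⊆ e.target) (hG : ContDiffOn ℝ ∞ G e.target)
    (h0 : ∀ z ∉ K, G z = 0) :
    ContMDiff 𝓘(ℝ, C2) 𝓘(ℝ, ℝ) ∞ (extC e G) ∧ HasCompactSupport (extC e G) ∧
      tsupport (extC e G) ⊆ e.symm '' K := by
  have hK' : IsCompact (e.symm '' K) := hK.image_of_continuousOn (e.continuousOn_symm.mono hKt)
  have hz : ∀ x ∉ e.symm '' K, extC e G x = 0 := by
    intro x hx
    unfold extC
    split_ifs with h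
    · exact h0 _ (fun hK2 => hx ⟨e x, hK2, e.left_inv h⟩)
    · rfl
  have hsub : Function.support (extC e G) ⊆ e.symm '' K := by
    intro x hx
    by_contra h
    exact hx (hz x h)
  refine ⟨?_, HasCompactSupport.intro hK' hz, closure_minimal hsub hK'.isClosed⟩
  intro x
  by_cases hx : x ∈ e.source
  · have h1 : ContMDiffOn 𝓘(ℝ, C2) 𝓘(ℝ, ℝ) ∞ (fun y => G (e y)) e.source :=
      (hG.contMDiffOn).comp (hol_real he) (fun y hy => e.map_source hy)
    have h2 := h1.contMDiffAt (e.open_source.mem_nhds hx)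
    refine h2.congr_of_eventuallyEq ?_
    filter_upwards [e.open_source.mem_nhds hx] with y hy
    unfold extC
    rw [if_pos hy]
  · have hx' : x ∉ e.symm '' K := by
      rintro ⟨z, hz1, rfl⟩
      exact hx (e.map_target (hKt hz1))
    refine (contMDiffAt_const (c := (0 : ℝ))).congr_of_eventuallyEq ?_
    filter_upwards [hK'.isClosed.isOpen_compl.mem_nhds hx'] with y hy
    exact hz y hy

end DD
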