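import Pool.Agent.Work.MP_dd1e4a_gt.LocX
import Pool.Agent.Work.MP_dd1e4a_gt.PartUnity
import Pool.Agent.Work.MP_dd1e4a_gt.ExtC

/-! # SetupEx: existence of the global data

* `P = hcrit.toFinset`. Disjoint open neighbourhoods of the critical points (finite set, Hausdorff),
  `exists_locProps`, uniform `a, c, m` by `LocProps.mono` (minimum, minimum, maximum; for `P = ∅`
  take `a = 1/4`, `c = 1`, `m = 1`).
* `θ`, `κ p`: `ContDiffBump` functions. `C p = tsupport Θ_p ⊆ (e p).symm '' (closedBall (3a/4) ×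
  closedBall (7b/8))`, compact in the open bidisc (`extC_smooth`).
* `X₀ = f⁻¹' {0}` is compact (properness). `K = X₀ ∩ {x | ∑ Θ_p x ≠ 1 near x}` (closure of
  `{x ∈ X₀ | ∑ Θ_p x < 1}`) is compact and contains no critical point, because `Θ_p = 1` near `p`
  and the other `Θ` vanish there.
* Box around `q ∈ K`: if `q ∈ C p` for some `p`: then `q` is in the open bidisc of `p`, write
  `(x, y) = e p q`, `f q = 0`. `x ≠ 0`: otherwise `low` gives `c ‖y‖^m ≤ 0`, `q = p`. So `der`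
  gives `∂_y F (x, y) ≠ 0`, hence `d x, d f` are independent at `q` and `exists_box` with
  `h = (e p ·).1` gives a box inside the open bidisc with first coordinate `(e p ·).1`.
  Otherwise `q ∉ ⋃ C p` (closed): `exists_box'` with `O = (⋃ C p)ᶜ`.
* `exists_partition` for `K` and these boxes: `ψ' q`, `q ∈ t`, `∑ ψ' = 1` on an open `W ⊇ K`. Put
  `ι = t` (subtype), `ψ q = (1 - ∑ Θ_p) ψ' q`. On `W` the sum is `1`. On the open set where
  `∑ Θ_p = 1` near the point it is `1` as well. These two open sets cover `X₀`; by properness they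
  contain `f⁻¹' (ball 0 ρ)` for small `ρ` (`IsClosedMap`-type argument with sequences or
  `f⁻¹' closedBall 0 (1/2)` compact).
* `0 ≤ ∑ Θ_p ≤ 1` because the supports are disjoint (`disj`).
* `compat`: a box of the second kind does not meet `C p`; a box of the first kind for `p'` lies in
  the source of `e p'`, disjoint from that of `e p`, if `p' ≠ p`. -/

open scoped Manifold ContDiff Topology
open MeasureTheory Set

namespace DD

theorem setupEx_pos {X : Type} (P : Finset X) (r : X → ℝ) (hr : ∀ p ∈ P, 0 < r p) {M : ℝ}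
    (hM : 0 < M) : ∃ a > 0, a ≤ M ∧ ∀ p ∈ P, a ≤ r p := by
  classical
  induction P using Finset.induction_on with
  | empty => exact ⟨M, hM, le_rfl, by simp⟩
  | insert q P _ ih =>
    obtain ⟨a, ha, haM, har⟩ := ih (fun p hp => hr p (Finset.mem_insert_of_mem hp))
    refine ⟨min a (r q), lt_min ha (hr q (Finset.mem_insert_self q P)),
      (min_le_left _ _).trans haM, fun p hp => ?_⟩
    rcases Finset.mem_insert.mp hp with rfl | hp
    · exact min_le_right _ _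
    · exact (min_le_left _ _).trans (har p hp)

variable {X : Type} [TopologicalSpace X] [T2Space X] [SecondCountableTopology X]
  [ChartedSpace C2 X] [IsManifold 𝓘(ℂ, C2) ω X]

theorem setupEx_ind {f : X → ℂ} (hf : ContMDiff 𝓘(ℂ, C2) 𝓘(ℂ, ℂ) ω f) {p : X}
    {e : OpenPartialHomeomorph X C2} {a b c : ℝ} {m : ℕ} (h : LocProps f p e a b c m) {q : X}
    (hq : q ∈ e.source) (h1 : ‖(e q).1‖ ≤ a) (h2 : ‖(e q).2‖ ≤ b) (hne : (e q).1 ≠ 0)
    (hf0 : f q = 0) (v : TangentSpace 𝓘(ℂ, C2) q) (hv1 : dC (fun x => (e x).1) q v = 0)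
    (hv2 : dC f q v = 0) : v = 0 := by
  have hd := h.der (e q).1 (e q).2 h1 h2 (by
    have : e.symm ((e q).1, (e q).2) = q := e.left_inv hq
    rw [this, hf0, norm_zero]
    have := h.c_pos
    positivity)
  have hd0 : 0 < c * ‖(e q).1‖ ^ m := by
    have := h.c_pos
    have := norm_pos_iff.mpr hne
    positivity
  have heq : MDifferentiableAt 𝓘(ℂ, C2) 𝓘(ℂ, C2) e q :=
    (h.holo.contMDiffAt (e.open_source.mem_nhds hq)).mdifferentiableAt (by simp)
  have hes : MDifferentiableAt 𝓘(ℂ, C2) 𝓘(ℂ, C2) e.symm (e q) :=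
    (h.holo_symm.contMDiffAt (e.open_target.mem_nhds (e.map_source hq))).mdifferentiableAt (by simp)
  have hfq : MDifferentiableAt 𝓘(ℂ, C2) 𝓘(ℂ, ℂ) f (e.symm (e q)) :=
    (hf.contMDiffAt).mdifferentiableAt (by simp)
  have hF : MDifferentiableAt 𝓘(ℂ, C2) 𝓘(ℂ, ℂ) (fun z => f (e.symm z)) (e q) :=
    hfq.comp (e q) hes
  have hFd : DifferentiableAt ℂ (fun z => f (e.symm z)) (e q) :=
    mdifferentiableAt_iff_differentiableAt.mp hF
  have hder : deriv (fun t => f (e.symm ((e q).1, t))) (e q).2 =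
      fderiv ℂ (fun z => f (e.symm z)) (e q) ((0 : ℂ), (1 : ℂ)) := by
    have h3 : HasDerivAt (fun t : ℂ => (((e q).1, t) : C2)) ((0 : ℂ), (1 : ℂ)) (e q).2 :=
      (hasDerivAt_const _ _).prodMk (hasDerivAt_id _)
    exact (hFd.hasFDerivAt.comp_hasDerivAt (e q).2 h3).deriv
  set w : C2 := mfderiv 𝓘(ℂ, C2) 𝓘(ℂ, C2) e q v with hw
  have hw1 : w.1 = 0 := by
    have h4 : mfderiv 𝓘(ℂ, C2) 𝓘(ℂ, ℂ) (fun x => (e x).1) q v = w.1 := by
      have h5 : HasMFDerivAt 𝓘(ℂ, C2) 𝓘(ℂ, ℂ) (fun z : C2 => z.1) (e q)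
          (ContinuousLinearMap.fst ℂ ℂ ℂ) :=
        (ContinuousLinearMap.fst ℂ ℂ ℂ).hasMFDerivAt
      have h6 := (h5.comp q heq.hasMFDerivAt).mfderiv
      have h7 : (fun x => (e x).1) = (fun z : C2 => z.1) ∘ e := rfl
      rw [h7, h6]
      rfl
    rw [← h4]
    exact hv1
  have hw2 : w.2 = 0 := by
    have h5 : mfderiv 𝓘(ℂ, C2) 𝓘(ℂ, ℂ) f q v = fderiv ℂ (fun z => f (e.symm z)) (e q) w := by
      have h6 : f =ᶠ[𝓝 q] (fun z => f (e.symm z)) ∘ e := by
        filter_upwards [e.open_source.mem_nhds hq] with x hx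
        simp [e.left_inv hx]
      rw [h6.mfderiv_eq, mfderiv_comp q hF heq, mfderiv_eq_fderiv]
      rfl
    have h7 : fderiv ℂ (fun z => f (e.symm z)) (e q) w =
        w.2 * fderiv ℂ (fun z => f (e.symm z)) (e q) ((0 : ℂ), (1 : ℂ)) := by
      have h8 : w = w.2 • (((0 : ℂ), (1 : ℂ)) : C2) := by
        ext
        · simp [hw1]
        · simp
      conv_lhs => rw [h8]
      rw [map_smul, smul_eq_mul]
    have h9 : fderiv ℂ (fun z => f (e.symm z)) (e q) w = 0 := by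
      rw [← h5]
      exact hv2
    rw [h7, mul_eq_zero] at h9
    rcases h9 with h9 | h9
    · exact h9
    · exfalso
      rw [hder, h9, norm_zero] at hd
      linarith
  have hw0 : w = 0 := Prod.ext hw1 hw2
  have h11 : (e.symm ∘ e) =ᶠ[𝓝 q] id := by
    filter_upwards [e.open_source.mem_nhds hq] with x hx
    simp [e.left_inv hx]
  have h12 : HasMFDerivAt 𝓘(ℂ, C2) 𝓘(ℂ, C2) (e.symm ∘ e) q
      ((mfderiv 𝓘(ℂ, C2) 𝓘(ℂ, C2) e.symm (e q)).comp (mfderiv 𝓘(ℂ, C2) 𝓘(ℂ, C2) e q)) :=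
    hes.hasMFDerivAt.comp q heq.hasMFDerivAt
  have h13 : HasMFDerivAt 𝓘(ℂ, C2) 𝓘(ℂ, C2) (e.symm ∘ e) q
      (ContinuousLinearMap.id ℂ (TangentSpace 𝓘(ℂ, C2) q)) :=
    (hasMFDerivAt_id q).congr_of_eventuallyEq h11
  have h14 := hasMFDerivAt_unique h12 h13
  have h15 : ((mfderiv 𝓘(ℂ, C2) 𝓘(ℂ, C2) e.symm (e q)).comp
      (mfderiv 𝓘(ℂ, C2) 𝓘(ℂ, C2) e q)) v = v := by
    rw [h14]
    rfl
  have h16 : ((mfderiv 𝓘(ℂ, C2) 𝓘(ℂ, C2) e.symm (e q)).comp
      (mfderiv 𝓘(ℂ, C2) 𝓘(ℂ, C2) e q)) v = (mfderiv 𝓘(ℂ, C2) 𝓘(ℂ, C2) e.symm (e q)) w := rfl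
  have h17 : (mfderiv 𝓘(ℂ, C2) 𝓘(ℂ, C2) e.symm (e q)) w = 0 :=
    (congrArg (mfderiv 𝓘(ℂ, C2) 𝓘(ℂ, C2) e.symm (e q)) hw0).trans
      (map_zero (mfderiv 𝓘(ℂ, C2) 𝓘(ℂ, C2) e.symm (e q)))
  exact h15.symm.trans (h16.trans h17)


theorem setupEx_coords {f : X → ℂ} (hf : ContMDiff 𝓘(ℂ, C2) 𝓘(ℂ, ℂ) ω f)
    (hsing : ∀ x ∈ Crit f, f x = 0) (hcrit : (Crit f).Finite) :
    ∃ (e : X → OpenPartialHomeomorph X C2) (b : X → ℝ) (a c : ℝ) (m : ℕ),
      0 < a ∧ a ≤ 1 / 4 ∧ 0 < c ∧ c ≤ 1 ∧ 1 ≤ m ∧ (∀ p, 0 < b p) ∧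
      (∀ p ∈ hcrit.toFinset, LocProps f p (e p) a (b p) c m) ∧
      (∀ p ∈ hcrit.toFinset, ∀ q ∈ hcrit.toFinset, p ≠ q →
        Disjoint (e p).source (e q).source) := by
  classical
  obtain ⟨U, hU, hUd⟩ := hcrit.t2_separation
  have key : ∀ p : X, ∃ (e : OpenPartialHomeomorph X C2) (b a c : ℝ) (m : ℕ), 0 < b ∧
      (p ∈ Crit f → LocProps f p e a b c m ∧ e.source ⊆ U p) := by
    intro p
    by_cases hp : p ∈ Crit f
    · obtain ⟨e, a, b, c, m, h1, h2⟩ := exists_locProps hf hcrit hp (hsing p hp) (hU p).2 (hU p).1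
      exact ⟨e, b, a, c, m, h1.b_pos, fun _ => ⟨h1, h2⟩⟩
    · exact ⟨chartAt C2 p, 1, 1, 1, 1, one_pos, fun h => absurd h hp⟩
  choose e b a c m hb h using key
  obtain ⟨a₀, ha₀, ha₀', ha₀''⟩ := setupEx_pos hcrit.toFinset a
    (fun p hp => (h p (hcrit.mem_toFinset.mp hp)).1.a_pos) (show (0 : ℝ) < 1 / 4 by norm_num)
  obtain ⟨c₀, hc₀, hc₀', hc₀''⟩ := setupEx_pos hcrit.toFinset c
    (fun p hp => (h p (hcrit.mem_toFinset.mp hp)).1.c_pos) one_pos
  refine ⟨e, b, a₀, c₀, hcrit.toFinset.sup m + 1, ha₀, ha₀', hc₀, hc₀', by omega, hb, ?_, ?_⟩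
  · intro p hp
    refine (h p (hcrit.mem_toFinset.mp hp)).1.mono ha₀ (ha₀'' p hp) hc₀ (hc₀'' p hp) ?_
    have := Finset.le_sup (f := m) hp
    omega
  · intro p hp q hq hpq
    exact (hUd (hcrit.mem_toFinset.mp hp) (hcrit.mem_toFinset.mp hq) hpq).mono
      (h p (hcrit.mem_toFinset.mp hp)).2 (h q (hcrit.mem_toFinset.mp hq)).2

omit [TopologicalSpace X] [T2Space X] [SecondCountableTopology X] [ChartedSpace C2 X]
  [IsManifold 𝓘(ℂ, C2) ω X] in
theorem setupEx_bump {r R : ℝ} (hr : 0 < r) (hR : r < R) : ∃ θ : ℂ → ℝ, ContDiff ℝ ∞ θ ∧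
    (∀ x, 0 ≤ θ x) ∧ (∀ x, θ x ≤ 1) ∧ (∀ x, ‖x‖ ≤ r → θ x = 1) ∧ (∀ x, R ≤ ‖x‖ → θ x = 0) := by
  let β : ContDiffBump (0 : ℂ) := ⟨r, R, hr, hR⟩
  refine ⟨β, β.contDiff, fun x => β.nonneg, fun x => β.le_one, fun x hx => ?_, fun x hx => ?_⟩
  · exact β.one_of_mem_closedBall (by simpa using hx)
  · exact β.zero_of_le_dist (by simpa using hx)

/-- the bidiscs are open. -/
theorem setupEx_open (e : OpenPartialHomeomorph X C2) (a b : ℝ) :
    IsOpen {x | x ∈ e.source ∧ ‖(e x).1‖ < a ∧ ‖(e x).2‖ < b} := by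
  have h1 : IsOpen {z : C2 | ‖z.1‖ < a} := isOpen_lt (by fun_prop) continuous_const
  have h2 : IsOpen {z : C2 | ‖z.2‖ < b} := isOpen_lt (by fun_prop) continuous_const
  exact e.isOpen_inter_preimage (h1.inter h2)

/-- boxes adapted to the bidiscs. -/
theorem setupEx_box {f : X → ℂ} (hf : ContMDiff 𝓘(ℂ, C2) 𝓘(ℂ, ℂ) ω f) {P : Finset X}
    (hP : ∀ x, x ∈ P ↔ x ∈ Crit f)
    {e : X → OpenPartialHomeomorph X C2} {b : X → ℝ} {a c : ℝ} {m : ℕ}
    (hloc : ∀ p ∈ P, LocProps f p (e p) a (b p) c m)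
    (hdisj : ∀ p ∈ P, ∀ q ∈ P, p ≠ q → Disjoint (e p).source (e q).source)
    {C : X → Set X} (hC : ∀ p ∈ P, IsClosed (C p))
    (hCb : ∀ p ∈ P, ∀ x ∈ C p, x ∈ (e p).source ∧ ‖(e p x).1‖ < a ∧ ‖(e p x).2‖ < b p)
    {q : X} (hq0 : f q = 0) (hqc : q ∉ Crit f) :
    ∃ β : OpenPartialHomeomorph X C2, IsBox f β ∧ q ∈ β.source ∧
      ∀ p ∈ P, (β.source ∩ C p).Nonempty → ∀ x ∈ β.source,
        x ∈ (e p).source ∧ ‖(e p x).1‖ < a ∧ ‖(e p x).2‖ < b p ∧ (β x).1 = (e p x).1 := by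
  by_cases hq : ∃ p ∈ P, q ∈ C p
  · obtain ⟨p, hp, hqp⟩ := hq
    obtain ⟨h1, h2, h3⟩ := hCb p hp q hqp
    have hL := hloc p hp
    have hne : (e p q).1 ≠ 0 := by
      intro h0
      have h4 := hL.low (e p q).1 (e p q).2 h2.le h3.le
      have h5 : (e p).symm ((e p q).1, (e p q).2) = q := (e p).left_inv h1
      rw [h5, hq0, h0, norm_zero, zero_div, add_zero] at h4
      have h6 : (e p q).2 = 0 := by
        by_contra h7
        have := norm_pos_iff.mpr h7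
        have := hL.c_pos
        have : 0 < c * ‖(e p q).2‖ ^ m := by positivity
        linarith
      have h7 : e p q = e p p := by
        rw [hL.map_p]
        exact Prod.ext h0 h6
      have h8 : q = p := (e p).injOn h1 hL.mem h7
      exact hqc (h8 ▸ (hP p).mp hp)
    have hO := setupEx_open (e p) a (b p)
    obtain ⟨β, hβ, hβq, hβO, hβ1⟩ := exists_box hf (q := q) hO ⟨h1, h2, h3⟩
      (h := fun x => (e p x).1) (by
        have h4 : ContMDiffOn 𝓘(ℂ, C2) 𝓘(ℂ, C2) ω (e p)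
            {x | x ∈ (e p).source ∧ ‖(e p x).1‖ < a ∧ ‖(e p x).2‖ < b p} :=
          hL.holo.mono (fun x hx => hx.1)
        exact (ContinuousLinearMap.fst ℂ ℂ ℂ).contMDiff.comp_contMDiffOn h4)
      (fun v hv1 hv2 => setupEx_ind hf hL h1 h2.le h3.le hne hq0 v hv1 hv2)
    refine ⟨β, hβ, hβq, fun p' hp' hne' x hx => ?_⟩
    obtain ⟨y, hy1, hy2⟩ := hne'
    have hpp : p' = p := by
      by_contra hpp
      exact Set.disjoint_left.mp (hdisj p' hp' p hp hpp) (hCb p' hp' y hy2).1 (hβO hy1).1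
    subst hpp
    exact ⟨(hβO hx).1, (hβO hx).2.1, (hβO hx).2.2, hβ1 x hx⟩
  · push Not at hq
    have hO : IsOpen (⋃ p ∈ P, C p)ᶜ := by
      rw [isOpen_compl_iff]
      exact P.finite_toSet.isClosed_biUnion (fun p hp => hC p hp)
    obtain ⟨β, hβ, hβq, hβO⟩ := exists_box' hf hO (q := q) (by simpa using hq) hqc
    refine ⟨β, hβ, hβq, fun p hp hne => ?_⟩
    obtain ⟨y, hy1, hy2⟩ := hne
    exact absurd (Set.mem_biUnion (Finset.mem_coe.mpr hp) hy2) (hβO hy1)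

theorem exists_setup {f : X → ℂ} (hf : ContMDiff 𝓘(ℂ, C2) 𝓘(ℂ, ℂ) ω f)
    (hproper : ∀ K ⊆ Metric.ball (0 : ℂ) 1, IsCompact K → IsCompact (f ⁻¹' K))
    (hsing : ∀ x ∈ Crit f, f x = 0) (hcrit : (Crit f).Finite) : Nonempty (Setup f) := by
  classical
  obtain ⟨e, b, a, c, m, ha, ha', hc, hc', hm, hb, hloc, hdisj⟩ := setupEx_coords hf hsing hcrit
  set P := hcrit.toFinset with hPdef
  have hP : ∀ x, x ∈ P ↔ x ∈ Crit f := fun x => hcrit.mem_toFinset
  obtain ⟨θ, hθ, hθ0, hθ1, hθa, hθz⟩ := setupEx_bump (r := a / 2) (R := 3 / 4 * a) (by positivity)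
    (by linarith)
  have hκex : ∀ p : X, ∃ κ : ℂ → ℝ, ContDiff ℝ ∞ κ ∧ (∀ x, 0 ≤ κ x) ∧ (∀ x, κ x ≤ 1) ∧
      (∀ x, ‖x‖ ≤ 3 / 4 * b p → κ x = 1) ∧ (∀ x, 7 / 8 * b p ≤ ‖x‖ → κ x = 0) := fun p =>
    setupEx_bump (by have := hb p; positivity) (by have := hb p; linarith)
  choose κ hκ hκ0 hκ1 hκa hκz using hκex
  -- the cutoff functions
  set Θ : X → X → ℝ := fun p => extC (e p) (fun z => θ z.1 * κ p z.2) with hΘdef
  set KK : X → Set C2 := fun p =>
    Metric.closedBall (0 : ℂ) (3 / 4 * a) ×ˢ Metric.closedBall (0 : ℂ) (7 / 8 * b p) with hKK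
  set C : X → Set X := fun p => (e p).symm '' KK p with hCdef
  have hKKt : ∀ p ∈ P, KK p ⊆ (e p).target := fun p hp => by
    refine Subset.trans ?_ (hloc p hp).target
    apply Set.prod_mono
    · exact Metric.closedBall_subset_closedBall (by linarith)
    · exact Metric.closedBall_subset_closedBall (by have := hb p; linarith)
  have hKKc : ∀ p, IsCompact (KK p) := fun p =>
    (isCompact_closedBall _ _).prod (isCompact_closedBall _ _)
  have hCc : ∀ p ∈ P, IsCompact (C p) := fun p hp =>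
    (hKKc p).image_of_continuousOn ((e p).continuousOn_symm.mono (hKKt p hp))
  have hCb : ∀ p ∈ P, ∀ x ∈ C p, x ∈ (e p).source ∧ ‖(e p x).1‖ < a ∧ ‖(e p x).2‖ < b p := by
    rintro p hp x ⟨z, hz, rfl⟩
    have hz' := hKKt p hp hz
    have h1 := (e p).right_inv hz'
    rw [h1]
    simp only [hKK, Set.mem_prod, Metric.mem_closedBall, dist_zero_right] at hz
    have := hb p
    exact ⟨(e p).map_target hz', by linarith, by linarith⟩
  have hΘs : ∀ p ∈ P, ContMDiff 𝓘(ℝ, C2) 𝓘(ℝ, ℝ) ∞ (Θ p) ∧ HasCompactSupport (Θ p) ∧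
      tsupport (Θ p) ⊆ C p := by
    intro p hp
    refine extC_smooth (hloc p hp).holo (hKKc p) (hKKt p hp) ?_ ?_
    · exact ((hθ.comp contDiff_fst).mul ((hκ p).comp contDiff_snd)).contDiffOn
    · intro z hz
      simp only [hKK, Set.mem_prod, Metric.mem_closedBall, dist_zero_right, not_and_or,
        not_le] at hz
      rcases hz with hz | hz
      · rw [hθz _ hz.le, zero_mul]
      · rw [hκz p _ hz.le, mul_zero]
  have hΘ0 : ∀ p, ∀ x ∉ (e p).source, Θ p x = 0 := fun p x hx => by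
    simp [hΘdef, extC, hx]
  have hΘnn : ∀ p x, 0 ≤ Θ p x := by
    intro p x
    simp only [hΘdef, extC]
    split_ifs
    · exact mul_nonneg (hθ0 _) (hκ0 _ _)
    · exact le_rfl
  have hΘle : ∀ p x, Θ p x ≤ 1 := by
    intro p x
    simp only [hΘdef, extC]
    split_ifs
    · exact mul_le_one₀ (hθ1 _) (hκ0 _ _) (hκ1 _ _)
    · exact zero_le_one
  -- the sum
  have hsum : ∀ p ∈ P, ∀ x ∈ (e p).source, ∑ q ∈ P, Θ q x = Θ p x := by
    intro p hp x hx
    refine Finset.sum_eq_single_of_mem p hp (fun q hq hqp => hΘ0 q x (fun hxq => ?_))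
    exact Set.disjoint_left.mp (hdisj q hq p hp hqp) hxq hx
  have hSle : ∀ x, ∑ q ∈ P, Θ q x ≤ 1 := by
    intro x
    by_cases h : ∃ p ∈ P, x ∈ (e p).source
    · obtain ⟨p, hp, hx⟩ := h
      rw [hsum p hp x hx]
      exact hΘle p x
    · push Not at h
      rw [Finset.sum_eq_zero (fun q hq => hΘ0 q x (h q hq))]
      exact zero_le_one
  have hSnn : ∀ x, 0 ≤ ∑ q ∈ P, Θ q x := fun x => Finset.sum_nonneg (fun q _ => hΘnn q x)
  have hSs : ContMDiff 𝓘(ℝ, C2) 𝓘(ℝ, ℝ) ∞ (fun x => ∑ q ∈ P, Θ q x) :=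
    contMDiff_finsetSum (fun q hq => (hΘs q hq).1)
  -- the compact set
  set N : Set X := closure {x | ∑ q ∈ P, Θ q x ≠ 1} with hN
  have hX0 : IsCompact (f ⁻¹' {0}) := hproper {0} (by simp) isCompact_singleton
  set K : Set X := f ⁻¹' {0} ∩ N with hK
  have hKc : IsCompact K := hX0.inter_right isClosed_closure
  have hKcrit : ∀ q ∈ K, q ∉ Crit f := by
    rintro q ⟨-, hq⟩ hqc
    have hqP := (hP q).mpr hqc
    have h1 := setupEx_open (e q) (a / 2) (3 / 4 * b q)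
    have h2 : q ∈ {x | x ∈ (e q).source ∧ ‖(e q x).1‖ < a / 2 ∧ ‖(e q x).2‖ < 3 / 4 * b q} := by
      have := hb q
      refine ⟨(hloc q hqP).mem, ?_, ?_⟩
      · rw [(hloc q hqP).map_p]
        simpa using ha
      · rw [(hloc q hqP).map_p]
        simpa using this
    rw [hN, mem_closure_iff] at hq
    obtain ⟨y, hy1, hy2⟩ := hq _ h1 h2
    apply hy2
    rw [hsum q hqP y hy1.1]
    simp only [hΘdef, extC, if_pos hy1.1]
    rw [hθa _ hy1.2.1.le, hκa q _ hy1.2.2.le, one_mul]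
  have hbox : ∀ q, ∃ β : OpenPartialHomeomorph X C2, q ∈ K → (IsBox f β ∧ q ∈ β.source ∧
      ∀ p ∈ P, (β.source ∩ C p).Nonempty → ∀ x ∈ β.source,
        x ∈ (e p).source ∧ ‖(e p x).1‖ < a ∧ ‖(e p x).2‖ < b p ∧ (β x).1 = (e p x).1) := by
    intro q
    by_cases hq : q ∈ K
    · obtain ⟨β, h⟩ := setupEx_box hf hP hloc hdisj (fun p hp => (hCc p hp).isClosed) hCb
        (q := q) hq.1 (hKcrit q hq)
      exact ⟨β, fun _ => h⟩
    · exact ⟨chartAt C2 q, fun h => absurd h hq⟩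
  choose β hβ using hbox
  obtain ⟨t, ψ', htK, hψs, hψ01, hψc, hψsupp, hψle, W, hW, hKW, hW1⟩ :=
    exists_partition hKc (O := fun q => (β q).source) (fun q _ => (β q).open_source)
      (fun q hq => (hβ q hq).2.1)
  -- near the singular fibre
  have hcov : f ⁻¹' {0} ⊆ W ∪ Nᶜ := by
    intro x hx
    by_cases h : x ∈ N
    · exact Or.inl (hKW ⟨hx, h⟩)
    · exact Or.inr h
  have hopen : IsOpen (W ∪ Nᶜ) := hW.union isClosed_closure.isOpen_compl
  have hK2 : IsCompact (f ⁻¹' Metric.closedBall 0 (1 / 2) \ (W ∪ Nᶜ)) :=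
    (hproper _ (Metric.closedBall_subset_ball (by norm_num)) (isCompact_closedBall _ _)).diff hopen
  obtain ⟨ρ₀, hρ₀, hρ₀'⟩ : ∃ ρ₀ > 0, ∀ x ∈ f ⁻¹' Metric.closedBall 0 (1 / 2) \ (W ∪ Nᶜ),
      ρ₀ ≤ ‖f x‖ := by
    rcases (f ⁻¹' Metric.closedBall 0 (1 / 2) \ (W ∪ Nᶜ)).eq_empty_or_nonempty with h | h
    · refine ⟨1, one_pos, fun x hx => ?_⟩
      rw [h] at hx
      exact absurd hx (by simp)
    · obtain ⟨x₀, hx₀, hmin⟩ := hK2.exists_isMinOn h (f := fun x => ‖f x‖)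
        (hf.continuous.norm.continuousOn)
      refine ⟨‖f x₀‖, norm_pos_iff.mpr (fun h0 => hx₀.2 (hcov h0)), fun x hx => hmin hx⟩
  obtain ⟨ρ, hρ, hρ1, hρ2, hρ3⟩ : ∃ ρ > 0, ρ < ρ₀ ∧ ρ < c ∧ ρ < 1 / 2 := by
    refine ⟨min (min ρ₀ c) (1 / 2) / 2, by positivity, ?_, ?_, ?_⟩
    · have h1 : min (min ρ₀ c) (1 / 2) ≤ ρ₀ := (min_le_left _ _).trans (min_le_left _ _)
      linarith
    · have h1 : min (min ρ₀ c) (1 / 2) ≤ c := (min_le_left _ _).trans (min_le_right _ _)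
      linarith
    · have h1 : min (min ρ₀ c) (1 / 2) ≤ 1 / 2 := min_le_right _ _
      linarith
  exact ⟨{
    P := P
    hP := hP
    e := e
    b := b
    a := a
    c := c
    m := m
    loc := hloc
    disj := hdisj
    a_pos := ha
    a_le := ha'
    c_pos := hc
    c_le := hc'
    m_pos := hm
    ι := {q // q ∈ t}
    fin := inferInstance
    bx := fun α => β α.1
    box := fun α => (hβ α.1 (htK α.1 α.2)).1
    ψ := fun α x => (1 - ∑ q ∈ P, Θ q x) * ψ' α.1 x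
    ψ_smooth := fun α => (contMDiff_const.sub hSs).mul (hψs α.1 α.2)
    ψ_nonneg := fun α x => mul_nonneg (by have := hSle x; linarith) (hψ01 α.1 α.2 x).1
    ψ_le := fun α x => mul_le_one₀ (by have := hSnn x; linarith) (hψ01 α.1 α.2 x).1
      (hψ01 α.1 α.2 x).2
    ψ_compact := fun α => (hψc α.1 α.2).mul_left
    ψ_supp := fun α => (tsupport_mul_subset_right
      (f := fun x => 1 - ∑ q ∈ P, Θ q x) (g := ψ' α.1)).trans (hψsupp α.1 α.2)
    θ := θ
    θ_smooth := hθ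
    θ_nonneg := hθ0
    θ_le := hθ1
    θ_one := hθa
    θ_zero := hθz
    κ := κ
    κ_smooth := hκ
    κ_nonneg := hκ0
    κ_le := hκ1
    κ_one := fun p _ y hy => hκa p y hy
    κ_zero := fun p _ y hy => hκz p y hy
    ρ := ρ
    ρ_pos := hρ
    ρ_lt := hρ2
    ρ_lt' := by linarith
    proper := hproper _ (Metric.closedBall_subset_ball (by linarith)) (isCompact_closedBall _ _)
    sum_one := by
      intro x hx
      have hx' : x ∈ W ∪ Nᶜ := by
        by_contra h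
        have := hρ₀' x ⟨by
          simp only [Set.mem_preimage, Metric.mem_closedBall, dist_zero_right]
          linarith, h⟩
        linarith
      have h1 : ∑ α : {q // q ∈ t}, (1 - ∑ q ∈ P, Θ q x) * ψ' α.1 x =
          (1 - ∑ q ∈ P, Θ q x) * ∑ q ∈ t, ψ' q x := by
        rw [← Finset.mul_sum, ← Finset.sum_coe_sort t]
      rw [h1]
      rcases hx' with hx' | hx'
      · rw [hW1 x hx']
        ring
      · have h2 : ∑ q ∈ P, Θ q x = 1 := by
          by_contra h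
          exact hx' (subset_closure h)
        rw [h2]
        ring
    compat := by
      intro α p hp hne
      obtain ⟨y, hy1, hy2⟩ := hne
      have h1 : y ∈ (β α.1).source := hψsupp α.1 α.2 ((tsupport_mul_subset_right
        (f := fun x => 1 - ∑ q ∈ P, Θ q x) (g := ψ' α.1)) hy1)
      have h2 : y ∈ C p := (hΘs p hp).2.2 hy2
      exact (hβ α.1 (htK α.1 α.2)).2.2 p hp ⟨y, h1, h2⟩ }⟩

end DD
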