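import Pool.Agent.Work.MP_dd1e4a_gt.Defs3

/-! # PlanarA: integration by parts in the plane

`planar_green`, `planar_wedge`: `integral_mul_fderiv_eq_neg_fderiv_mul_of_integrable` in the
directions `1` and `I`; for the wedge use the symmetry of second derivatives. -/

open scoped Manifold ContDiff Topology
open MeasureTheory Set

namespace DD

private theorem pA_cont {U : Set ℂ} (hU : IsOpen U) {f g : ℂ → ℝ} (hf : ContinuousOn f U)
    (hg : Continuous g) (hgU : tsupport g ⊆ U) : Continuous (fun z => f z * g z) := by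
  refine continuous_of_tsupport (fun x hx => ?_)
  have hx' : x ∈ tsupport g := tsupport_mul_subset_right hx
  exact (hf.continuousAt (hU.mem_nhds (hgU hx'))).mul hg.continuousAt

private theorem pA_int {U : Set ℂ} (hU : IsOpen U) {f g : ℂ → ℝ} (hf : ContinuousOn f U)
    (hg : Continuous g) (hgc : HasCompactSupport g) (hgU : tsupport g ⊆ U) :
    Integrable (fun z => f z * g z) :=
  (pA_cont hU hf hg hgU).integrable_of_hasCompactSupport
    (hgc.mono' ((subset_tsupport _).trans tsupport_mul_subset_right))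

private theorem pA_contDiffOn {U : Set ℂ} (hU : IsOpen U) {A : ℂ → ℝ} (hA : ContDiffOn ℝ ∞ A U)
    (v : ℂ) : ContDiffOn ℝ ∞ (fun z => fderiv ℝ A z v) U :=
  (hA.fderiv_of_isOpen hU (m := ∞) (by simp)).clm_apply contDiffOn_const

/-- the basic integration by parts. -/
private theorem pA_parts {U : Set ℂ} (hU : IsOpen U) {A B : ℂ → ℝ} (hA : ContDiffOn ℝ ∞ A U)
    (hB : ContDiff ℝ ∞ B) (hBc : HasCompactSupport B) (hBU : tsupport B ⊆ U) (u v : ℂ) :
    ∫ z, fderiv ℝ A z u * fderiv ℝ B z v =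
      - ∫ z, fderiv ℝ (fun w => fderiv ℝ A w u) z v * B z := by
  have hA1 := pA_contDiffOn hU hA u
  have hA2 := pA_contDiffOn hU hA1 v
  refine integral_mul_fderiv_eq_neg_fderiv_mul_of_integrable
    (pA_int hU hA2.continuousOn hB.continuous hBc hBU) ?_
    (pA_int hU hA1.continuousOn hB.continuous hBc hBU) ?_ ?_
  · refine pA_int hU hA1.continuousOn ((hB.continuous_fderiv (by simp)).clm_apply continuous_const)
      (hBc.fderiv_apply ℝ v) ((tsupport_fderiv_apply_subset ℝ v).trans hBU)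
  · intro x hx
    exact (hA1.contDiffAt (hU.mem_nhds (hBU hx))).differentiableAt (by simp)
  · intro x _
    exact hB.differentiable (by simp) x

private theorem pA_int1 {U : Set ℂ} (hU : IsOpen U) {A B : ℂ → ℝ} (hA : ContDiffOn ℝ ∞ A U)
    (hB : ContDiff ℝ ∞ B) (hBc : HasCompactSupport B) (hBU : tsupport B ⊆ U) (u v : ℂ) :
    Integrable (fun z => fderiv ℝ A z u * fderiv ℝ B z v) :=
  pA_int hU (pA_contDiffOn hU hA u).continuousOn
    ((hB.continuous_fderiv (by simp)).clm_apply continuous_const)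
    (hBc.fderiv_apply ℝ v) ((tsupport_fderiv_apply_subset ℝ v).trans hBU)

private theorem pA_int2 {U : Set ℂ} (hU : IsOpen U) {A B : ℂ → ℝ} (hA : ContDiffOn ℝ ∞ A U)
    (hB : ContDiff ℝ ∞ B) (hBc : HasCompactSupport B) (hBU : tsupport B ⊆ U) (u v : ℂ) :
    Integrable (fun z => fderiv ℝ (fun w => fderiv ℝ A w u) z v * B z) :=
  pA_int hU (pA_contDiffOn hU (pA_contDiffOn hU hA u) v).continuousOn hB.continuous hBc hBU

theorem planar_green {U : Set ℂ} (hU : IsOpen U) {A B : ℂ → ℝ} (hA : ContDiffOn ℝ ∞ A U)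
    (hB : ContDiff ℝ ∞ B) (hBc : HasCompactSupport B) (hBU : tsupport B ⊆ U) :
    ∫ z, (fderiv ℝ A z 1 * fderiv ℝ B z 1 +
      fderiv ℝ A z Complex.I * fderiv ℝ B z Complex.I) = - ∫ z, B z * lap A z := by
  rw [integral_add (pA_int1 hU hA hB hBc hBU 1 1) (pA_int1 hU hA hB hBc hBU Complex.I Complex.I),
    pA_parts hU hA hB hBc hBU 1 1, pA_parts hU hA hB hBc hBU Complex.I Complex.I,
    ← neg_add, ← integral_add (pA_int2 hU hA hB hBc hBU 1 1)
      (pA_int2 hU hA hB hBc hBU Complex.I Complex.I)]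
  congr 1
  refine integral_congr_ae (Filter.Eventually.of_forall (fun z => ?_))
  simp only [lap]
  ring

theorem planar_wedge {U : Set ℂ} (hU : IsOpen U) {A B : ℂ → ℝ} (hA : ContDiffOn ℝ ∞ A U)
    (hB : ContDiff ℝ ∞ B) (hBc : HasCompactSupport B) (hBU : tsupport B ⊆ U) :
    ∫ z, (fderiv ℝ A z 1 * fderiv ℝ B z Complex.I -
      fderiv ℝ A z Complex.I * fderiv ℝ B z 1) = 0 := by
  rw [integral_sub (pA_int1 hU hA hB hBc hBU 1 Complex.I) (pA_int1 hU hA hB hBc hBU Complex.I 1),
    pA_parts hU hA hB hBc hBU 1 Complex.I, pA_parts hU hA hB hBc hBU Complex.I 1]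
  have h : (fun z => fderiv ℝ (fun w => fderiv ℝ A w 1) z Complex.I * B z) =
      (fun z => fderiv ℝ (fun w => fderiv ℝ A w Complex.I) z 1 * B z) := by
    funext z
    by_cases hz : z ∈ tsupport B
    · have hAz : ContDiffAt ℝ ∞ A z := hA.contDiffAt (hU.mem_nhds (hBU hz))
      have h2 : ContDiffAt ℝ 2 A z := hAz.of_le ENat.LEInfty.out
      have h1 : ContDiffAt ℝ 1 (fderiv ℝ A) z := h2.fderiv_right (by norm_num)
      have hd : DifferentiableAt ℝ (fderiv ℝ A) z := h1.differentiableAt (by simp)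
      have hs : IsSymmSndFDerivAt ℝ A z := hAz.isSymmSndFDerivAt (by
        rw [minSmoothness_of_isRCLikeNormedField]; exact ENat.LEInfty.out)
      have key : ∀ u v : ℂ, fderiv ℝ (fun w => fderiv ℝ A w u) z v =
          fderiv ℝ (fderiv ℝ A) z v u := by
        intro u v
        rw [fderiv_clm_apply hd (differentiableAt_const u)]
        simp
      rw [key, key, hs.eq]
    · rw [image_eq_zero_of_notMem_tsupport hz]
      ring
  rw [h]
  ring

end DD
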