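import Pool.Agent.Work.MP_dd1e4a_gt.AreaD
import Pool.Agent.Work.MP_dd1e4a_gt.PartUnity
import Pool.Agent.Work.MP_dd1e4a_gt.PlanarA

/-! # GreenX: integration by parts on a fibre

`K = tsupport b ∩ {f = s}` is compact and contained in `O` and disjoint from `Crit f`. Boxes around
the points of `K` inside `O`, `exists_partition`: `b = ∑ ψ_i b` on a neighbourhood of `K`, so on
the fibre `∇a·∇b = ∑ ∇a·∇(ψ_i b)` (`gradDot` is linear in `b` and depends only on the germ at
points of the fibre) and `b q = ∑ ψ_i b q`. So `b` is supported in a box `β` inside `O`;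
`IsFibreArea.integral_box` (the function `gradDot g f a b` is continuous off `Crit f` and vanishes
off `tsupport b`; modify it to be measurable) and `IsParam.gradDot_eq` for the slice turn the
integral into `∫ (∂₁A ∂₁B + ∂_I A ∂_I B)` with `A = a ∘ slice`, `B = b ∘ slice` (compact support in
`sliceDom`), apply `planar_green` and `hq`. -/

open scoped Manifold ContDiff Topology
open MeasureTheory Set

namespace DD

variable {X : Type} [TopologicalSpace X] [T2Space X] [SecondCountableTopology X]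
  [ChartedSpace C2 X] [IsManifold 𝓘(ℂ, C2) ω X] [MeasurableSpace X] [BorelSpace X]
  {g : HermMetric X} {f : X → ℂ} {s : ℂ} {μ : Measure X}

omit [T2Space X] [SecondCountableTopology X] [IsManifold 𝓘(ℂ, C2) ω X] [MeasurableSpace X]
  [BorelSpace X] in
theorem greenX_zero_near {F : Type} [Zero F] [TopologicalSpace F] {u : X → F} {x : X}
    (hx : x ∉ tsupport u) : u =ᶠ[𝓝 x] fun _ => 0 := by
  filter_upwards [(isClosed_tsupport u).isOpen_compl.mem_nhds hx] with y hy
  exact image_eq_zero_of_notMem_tsupport hy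

omit [T2Space X] [SecondCountableTopology X] [IsManifold 𝓘(ℂ, C2) ω X] [MeasurableSpace X]
  [BorelSpace X] in
theorem greenX_dR_zero {F : Type} [NormedAddCommGroup F] [NormedSpace ℝ F] {x : X} {u : X → F}
    (hu : u =ᶠ[𝓝 x] fun _ => 0) (w : TangentSpace 𝓘(ℂ, C2) x) : dR u x w = 0 := by
  rw [dR_congr hu]
  have h1 : mfderiv 𝓘(ℝ, C2) 𝓘(ℝ, F) (fun _ : X => (0 : F)) x = 0 := mfderiv_const
  rw [dR, h1]
  rfl

omit [T2Space X] [SecondCountableTopology X] [IsManifold 𝓘(ℂ, C2) ω X] [MeasurableSpace X]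
  [BorelSpace X] in
theorem greenX_slice_smooth {bx : OpenPartialHomeomorph X C2} (hb : IsBox f bx) (s : ℂ)
    {a : X → ℝ} {O : Set X} (ha : ContMDiffOn 𝓘(ℝ, C2) 𝓘(ℝ, ℝ) ∞ a O) (hO : bx.source ⊆ O) :
    ContDiffOn ℝ ∞ (fun w => a (slice bx s w)) (sliceDom bx s) := by
  have h1 : ContMDiffOn 𝓘(ℝ, C2) 𝓘(ℝ, C2) ∞ bx.symm bx.target := hol_real hb.holo_symm
  have h2 : ContMDiffOn 𝓘(ℝ, C2) 𝓘(ℝ, ℝ) ∞ (fun y => a (bx.symm y)) bx.target :=
    ha.comp h1 (fun y hy => hO (bx.map_target hy))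
  have h3 : ContMDiff 𝓘(ℝ, ℂ) 𝓘(ℝ, C2) ∞ (fun w : ℂ => ((w, s) : C2)) :=
    (contDiff_id.prodMk contDiff_const).contMDiff
  have h4 : ContMDiffOn 𝓘(ℝ, ℂ) 𝓘(ℝ, ℝ) ∞ (fun w => a (slice bx s w)) (sliceDom bx s) :=
    h2.comp h3.contMDiffOn (fun w hw => hw)
  exact h4.contDiffOn

omit [SecondCountableTopology X] [MeasurableSpace X] [BorelSpace X] in
/-- the restriction of a function supported in a box to a slice. -/
theorem greenX_slice (hf : ContMDiff 𝓘(ℂ, C2) 𝓘(ℂ, ℂ) ω f) {bx : OpenPartialHomeomorph X C2}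
    (hb : IsBox f bx) (s : ℂ) {β : X → ℝ}
    (hβ : ContMDiff 𝓘(ℝ, C2) 𝓘(ℝ, ℝ) ∞ β) (hβc : HasCompactSupport β)
    (hβs : tsupport β ⊆ bx.source) :
    ∃ B : ℂ → ℝ, ContDiff ℝ ∞ B ∧ HasCompactSupport B ∧ tsupport B ⊆ sliceDom bx s ∧
      (∀ w ∈ sliceDom bx s, B w = β (slice bx s w)) ∧ (∀ w ∉ sliceDom bx s, B w = 0) := by
  classical
  set B : ℂ → ℝ := fun w => if w ∈ sliceDom bx s then β (slice bx s w) else 0 with hB
  have hB1 : ∀ w ∈ sliceDom bx s, B w = β (slice bx s w) := fun w hw => by simp [hB, hw]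
  have hB0 : ∀ w ∉ sliceDom bx s, B w = 0 := fun w hw => by simp [hB, hw]
  have hopen := isOpen_sliceDom bx s
  set K : Set ℂ := (fun x => (bx x).1) '' (tsupport β ∩ f ⁻¹' {s}) with hK
  have hKc : IsCompact K := by
    have h1 : IsCompact (tsupport β ∩ f ⁻¹' {s}) :=
      IsCompact.inter_right hβc (isClosed_singleton.preimage hf.continuous)
    refine h1.image_of_continuousOn ?_
    exact continuous_fst.comp_continuousOn (bx.continuousOn.mono
      (fun x hx => hβs hx.1))
  have hKs : K ⊆ sliceDom bx s := by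
    rintro _ ⟨x, ⟨hx1, hx2⟩, rfl⟩
    have h2 : f x = s := hx2
    have h3 := (hb.slice_mem (hβs hx1)).1
    rw [h2] at h3
    exact h3
  have hsupp : Function.support B ⊆ K := by
    intro w hw
    have hwd : w ∈ sliceDom bx s := by
      by_contra h
      exact hw (hB0 w h)
    have h4 : β (slice bx s w) ≠ 0 := by
      rw [← hB1 w hwd]
      exact hw
    refine ⟨slice bx s w, ⟨subset_tsupport β h4, ?_⟩, ?_⟩
    · exact (hb.isParam s).fib w hwd
    · show (bx (bx.symm (w, s))).1 = w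
      rw [bx.right_inv hwd]
  have hts : tsupport B ⊆ K := closure_minimal hsupp hKc.isClosed
  refine ⟨B, ?_, hKc.of_isClosed_subset (isClosed_tsupport B) hts, hts.trans hKs, hB1, hB0⟩
  refine contDiff_iff_contDiffAt.mpr (fun w => ?_)
  by_cases hw : w ∈ tsupport B
  · have hwd : w ∈ sliceDom bx s := hKs (hts hw)
    have h5 := greenX_slice_smooth hb s (hβ.contMDiffOn (s := univ)) (subset_univ _)
    refine (h5.contDiffAt (hopen.mem_nhds hwd)).congr_of_eventuallyEq ?_
    filter_upwards [hopen.mem_nhds hwd] with w' hw'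
    exact hB1 w' hw'
  · have h6 : B =ᶠ[𝓝 w] fun _ => 0 := by
      filter_upwards [(isClosed_tsupport B).isOpen_compl.mem_nhds hw] with y hy
      exact image_eq_zero_of_notMem_tsupport hy
    exact contDiffAt_const.congr_of_eventuallyEq h6

omit [T2Space X] [SecondCountableTopology X] [MeasurableSpace X] [BorelSpace X] in
theorem greenX_dens (g : HermMetric X) {bx : OpenPartialHomeomorph X C2} (hb : IsBox f bx) (s : ℂ)
    {w : ℂ} (hw : w ∈ sliceDom bx s) :
    IsBox.dens g bx (w, s) = g.normSq (slice bx s w) (vel (slice bx s) w) := by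
  rw [hb.vel_slice hw]
  rfl

omit [T2Space X] [SecondCountableTopology X] [MeasurableSpace X] [BorelSpace X] in
theorem greenX_dens_pos (g : HermMetric X) {bx : OpenPartialHomeomorph X C2} (hb : IsBox f bx)
    (s : ℂ) {w : ℂ} (hw : w ∈ sliceDom bx s) : 0 < IsBox.dens g bx (w, s) := by
  rw [greenX_dens g hb s hw]
  exact normSq_pos g _ ((hb.isParam s).imm w hw)

omit [T2Space X] [SecondCountableTopology X] [MeasurableSpace X] [BorelSpace X] in
theorem greenX_dens_cont (g : HermMetric X) {bx : OpenPartialHomeomorph X C2} (hb : IsBox f bx)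
    (s : ℂ) : ContinuousOn (fun w => IsBox.dens g bx (w, s)) (sliceDom bx s) := by
  have h1 := (smooth_metE g bx hb.holo hb.holo_symm).continuousOn
  have h2 : Continuous (fun w : ℂ => (((w, s), ((1 : ℂ), (0 : ℂ))) : C2 × C2)) := by fun_prop
  exact h1.comp h2.continuousOn (fun w hw => ⟨hw, mem_univ _⟩)

omit [MeasurableSpace X] [BorelSpace X] in
/-- the partition of unity. -/
theorem greenX_partition (hf : ContMDiff 𝓘(ℂ, C2) 𝓘(ℂ, ℂ) ω f) (s : ℂ) {O : Set X}
    (hO : IsOpen O) {b : X → ℝ}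
    (hb : ContMDiff 𝓘(ℝ, C2) 𝓘(ℝ, ℝ) ∞ b) (hbc : HasCompactSupport b) (hbO : tsupport b ⊆ O)
    (hbcrit : Disjoint (tsupport b) (Crit f)) :
    ∃ (t : Finset X) (β : X → X → ℝ) (bx : X → OpenPartialHomeomorph X C2),
      (∀ r ∈ t, IsBox f (bx r) ∧ (bx r).source ⊆ O ∧
        ContMDiff 𝓘(ℝ, C2) 𝓘(ℝ, ℝ) ∞ (β r) ∧ HasCompactSupport (β r) ∧
        tsupport (β r) ⊆ (bx r).source) ∧
      ∀ x, f x = s → b =ᶠ[𝓝 x] fun y => ∑ r ∈ t, β r y := by
  classical
  set K : Set X := tsupport b ∩ f ⁻¹' {s} with hK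
  have hKc : IsCompact K :=
    IsCompact.inter_right hbc (isClosed_singleton.preimage hf.continuous)
  have hbox : ∀ x : X, ∃ bx : OpenPartialHomeomorph X C2, x ∈ K →
      (IsBox f bx ∧ x ∈ bx.source ∧ bx.source ⊆ O) := by
    intro x
    by_cases hx : x ∈ K
    · obtain ⟨bx, h1, h2, h3⟩ := exists_box' hf hO (hbO hx.1)
        (Set.disjoint_left.mp hbcrit hx.1)
      exact ⟨bx, fun _ => ⟨h1, h2, h3⟩⟩
    · exact ⟨chartAt C2 x, fun h => absurd h hx⟩
  choose bx hbx using hbox
  obtain ⟨t, ψ, ht, h1, h2, h3, h4, h5, W, hW, hKW, hW1⟩ :=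
    exists_partition hKc (O := fun x => (bx x).source)
      (fun x _ => (bx x).open_source) (fun x hx => (hbx x hx).2.1)
  refine ⟨t, fun r y => ψ r y * b y, bx, fun r hr => ?_, fun x hx => ?_⟩
  · have hsub : tsupport (fun y => ψ r y * b y) ⊆ tsupport (ψ r) := tsupport_mul_subset_left
    exact ⟨(hbx r (ht r hr)).1, (hbx r (ht r hr)).2.2, (h1 r hr).mul hb,
      IsCompact.of_isClosed_subset (h3 r hr) (isClosed_tsupport _) hsub,
      hsub.trans (h4 r hr)⟩
  · by_cases hxb : x ∈ tsupport b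
    · filter_upwards [hW.mem_nhds (hKW ⟨hxb, hx⟩)] with y hy
      rw [← Finset.sum_mul, hW1 y hy, one_mul]
    · filter_upwards [greenX_zero_near hxb] with y hy
      simp [hy]

omit [T2Space X] [SecondCountableTopology X] [ChartedSpace C2 X] [IsManifold 𝓘(ℂ, C2) ω X]
  [MeasurableSpace X] [BorelSpace X] in
/-- germs of smooth functions with support in a box: continuity. -/
theorem greenX_continuous {O : Set X} (hO : IsOpen O) {G : X → ℝ} {β : X → ℝ}
    (hβ : tsupport β ⊆ O) (hG : ContinuousOn G O) (h0 : ∀ x ∉ tsupport β, G x = 0) :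
    Continuous G := by
  refine continuous_iff_continuousAt.mpr (fun x => ?_)
  by_cases hx : x ∈ tsupport β
  · exact hG.continuousAt (hO.mem_nhds (hβ hx))
  · have h1 : G =ᶠ[𝓝 x] fun _ => 0 := by
      filter_upwards [(isClosed_tsupport β).isOpen_compl.mem_nhds hx] with y hy
      exact h0 y hy
    exact continuousAt_const.congr h1.symm

/-- the formula for functions supported in a box. -/
theorem greenX_box (hf : ContMDiff 𝓘(ℂ, C2) 𝓘(ℂ, ℂ) ω f) (hμ : IsFibreArea g f s μ) {O : Set X}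
    (hO : IsOpen O) {a b : X → ℝ} (ha : ContMDiffOn 𝓘(ℝ, C2) 𝓘(ℝ, ℝ) ∞ a O)
    (hb : ContMDiff 𝓘(ℝ, C2) 𝓘(ℝ, ℝ) ∞ b) (hbc : HasCompactSupport b)
    {bx : OpenPartialHomeomorph X C2} (hbx : IsBox f bx) (hbxO : bx.source ⊆ O)
    (hbs : tsupport b ⊆ bx.source) {q : X → ℝ}
    (hq : ∀ (U : Set ℂ) (φ : ℂ → X), IsParam f s U φ → (∀ z ∈ U, φ z ∈ O) →
      ∀ z ∈ U, lap (fun w => a (φ w)) z = q (φ z) * g.normSq (φ z) (vel φ z)) :
    ∫ x, gradDot g f a b x ∂μ = - ∫ x, b x * q x ∂μ ∧ Integrable (fun x => b x * q x) μ := by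
  classical
  obtain ⟨B, hBs, hBc, hBd, hB1, hB0⟩ := greenX_slice hf hbx s hb hbc hbs
  have hopen := isOpen_sliceDom bx s
  have hparam := hbx.isParam s
  set φ := slice bx s with hφ
  set A : ℂ → ℝ := fun w => a (φ w) with hA
  have hAs : ContDiffOn ℝ ∞ A (sliceDom bx s) := greenX_slice_smooth hbx s ha hbxO
  have hφO : ∀ w ∈ sliceDom bx s, φ w ∈ O := fun w hw => hbxO (bx.map_target hw)
  have hφs : ∀ w ∈ sliceDom bx s, φ w ∈ bx.source := fun w hw => bx.map_target hw
  have hcrit : Disjoint bx.source (Crit f) := hbx.disjoint_crit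
  have hsO : bx.source ⊆ O \ Crit f := fun x hx => ⟨hbxO hx, Set.disjoint_left.mp hcrit hx⟩
  -- the left side
  have hG0 : ∀ x ∉ tsupport b, gradDot g f a b x = 0 := fun x hx => by
    rw [gradDot, greenX_dR_zero (greenX_zero_near hx), greenX_dR_zero (greenX_zero_near hx)]
    simp
  have hGc : Continuous (gradDot g f a b) :=
    greenX_continuous bx.open_source hbs
      ((continuousOn_gradDot g hf hO ha hb.contMDiffOn).mono hsO) hG0
  have hL := IsFibreArea.integral_box hf hμ hbx hGc.measurable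
    (fun x hx => hG0 x (fun h => hx (hbs h)))
  have hbd : ∀ x, MDifferentiableAt 𝓘(ℝ, C2) 𝓘(ℝ, ℝ) b x := fun x =>
    (hb.contMDiffAt).mdifferentiableAt (by simp)
  have had : ∀ x ∈ O, MDifferentiableAt 𝓘(ℝ, C2) 𝓘(ℝ, ℝ) a x := fun x hx =>
    (ha.contMDiffAt (hO.mem_nhds hx)).mdifferentiableAt (by simp)
  have hfd : ∀ w ∈ sliceDom bx s, fderiv ℝ (fun w => b (φ w)) w = fderiv ℝ B w := by
    intro w hw
    refine Filter.EventuallyEq.fderiv_eq ?_
    filter_upwards [hopen.mem_nhds hw] with w' hw'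
    exact (hB1 w' hw').symm
  have hB0' : ∀ w ∉ sliceDom bx s, fderiv ℝ B w = 0 := by
    intro w hw
    have h1 : w ∉ tsupport B := fun h => hw (hBd h)
    have h2 : B =ᶠ[𝓝 w] fun _ => 0 := by
      filter_upwards [(isClosed_tsupport B).isOpen_compl.mem_nhds h1] with y hy
      exact image_eq_zero_of_notMem_tsupport hy
    rw [h2.fderiv_eq]
    simp
  have hL2 : ∫ x, gradDot g f a b x ∂μ =
      ∫ w, (fderiv ℝ A w 1 * fderiv ℝ B w 1 + fderiv ℝ A w Complex.I * fderiv ℝ B w Complex.I) := by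
    rw [hL, ← setIntegral_eq_integral_of_forall_compl_eq_zero (s := sliceDom bx s)
      (f := fun w => fderiv ℝ A w 1 * fderiv ℝ B w 1 +
        fderiv ℝ A w Complex.I * fderiv ℝ B w Complex.I)
      (fun w hw => by rw [hB0' w hw]; simp)]
    refine setIntegral_congr_fun hopen.measurableSet (fun w hw => ?_)
    show gradDot g f a b (φ w) * IsBox.dens g bx (w, s) = _
    rw [greenX_dens g hbx s hw,
      IsParam.gradDot_eq g hf hparam hw (had _ (hφO w hw)) (hbd _), hfd w hw]
  -- the right side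
  have hlapc : ContinuousOn (lap A) (sliceDom bx s) := by
    have h1 : ∀ v : ℂ, ContDiffOn ℝ ∞ (fun z => fderiv ℝ A z v) (sliceDom bx s) := fun v =>
      (hAs.fderiv_of_isOpen hopen (m := ∞) (by simp)).clm_apply contDiffOn_const
    have h2 : ∀ v : ℂ, ContDiffOn ℝ ∞ (fun z => fderiv ℝ (fun w => fderiv ℝ A w v) z v)
        (sliceDom bx s) := fun v =>
      ((h1 v).fderiv_of_isOpen hopen (m := ∞) (by simp)).clm_apply contDiffOn_const
    exact (h2 1).continuousOn.add (h2 Complex.I).continuousOn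
  set H : ℂ → ℝ := fun w => B w * (lap A w / IsBox.dens g bx (w, s)) with hH
  have hHc : Continuous H := by
    refine continuous_iff_continuousAt.mpr (fun w => ?_)
    by_cases hw : w ∈ tsupport B
    · have hwd := hBd hw
      have h1 : ContinuousAt (fun w => lap A w / IsBox.dens g bx (w, s)) w :=
        (hlapc.continuousAt (hopen.mem_nhds hwd)).div
          ((greenX_dens_cont g hbx s).continuousAt (hopen.mem_nhds hwd))
          (greenX_dens_pos g hbx s hwd).ne'
      exact hBs.continuous.continuousAt.mul h1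
    · have h2 : H =ᶠ[𝓝 w] fun _ => 0 := by
        filter_upwards [(isClosed_tsupport B).isOpen_compl.mem_nhds hw] with y hy
        simp [hH, image_eq_zero_of_notMem_tsupport hy]
      exact continuousAt_const.congr h2.symm
  have hHcs : HasCompactSupport H := by
    refine HasCompactSupport.mono' hBc ?_
    intro w hw
    refine subset_tsupport B (fun h => hw ?_)
    simp [hH, h]
  obtain ⟨M, hM⟩ := hHc.bounded_above_of_compact_support hHcs
  set G : X → ℝ := bx.source.piecewise (fun x => H (bx x).1) (fun _ => 0) with hG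
  have hGm : Measurable G :=
    ContinuousOn.measurable_piecewise
      (hHc.comp_continuousOn (continuous_fst.comp_continuousOn bx.continuousOn))
      continuousOn_const bx.open_source.measurableSet
  have hGin : ∀ x ∈ bx.source, G x = H (bx x).1 := fun x hx => by simp [hG, hx]
  have hGout : ∀ x ∉ bx.source, G x = 0 := fun x hx => by simp [hG, hx]
  have hGM : ∀ x, ‖G x‖ ≤ M := by
    intro x
    by_cases hx : x ∈ bx.source
    · rw [hGin x hx]; exact hM _
    · rw [hGout x hx, norm_zero]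
      exact (norm_nonneg _).trans (hM 0)
  have hGq : ∀ x, f x = s → b x * q x = G x := by
    intro x hx
    by_cases hxs : x ∈ bx.source
    · have h1 := hbx.slice_mem hxs
      rw [hx] at h1
      obtain ⟨h2, h3⟩ := h1
      have h4 := hq _ _ hparam hφO _ h2
      have h5 : φ (bx x).1 = x := h3
      rw [hGin x hxs]
      simp only [hH]
      rw [hB1 _ h2]
      have h6 : lap A (bx x).1 = q x * IsBox.dens g bx ((bx x).1, s) := by
        rw [greenX_dens g hbx s h2]
        have h7 : ∀ y, y = x → q y = q x := fun y hy => by rw [hy]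
        rw [← h7 _ h5]
        exact h4
      rw [h6, mul_div_assoc, div_self (greenX_dens_pos g hbx s h2).ne', mul_one]
      show b x * q x = b (φ (bx x).1) * q x
      rw [h5]
    · rw [hGout x hxs, image_eq_zero_of_notMem_tsupport (fun h => hxs (hbs h)), zero_mul]
  have hae : (fun x => b x * q x) =ᵐ[μ] G := by
    filter_upwards [IsFibreArea.ae_fibre hμ] with x hx
    exact hGq x hx.1
  have hGint : Integrable G μ := by
    have hfin : μ (tsupport b) < ⊤ := IsFibreArea.finite_compact hf hμ hbc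
      (Set.disjoint_of_subset_left hbs hcrit)
    have h1 : IntegrableOn G (tsupport b) μ :=
      Measure.integrableOn_of_bounded hfin.ne hGm.aestronglyMeasurable
        (Filter.Eventually.of_forall hGM)
    refine h1.integrable_of_ae_notMem_eq_zero ?_
    filter_upwards [IsFibreArea.ae_fibre hμ] with x hx hxb
    rw [← hGq x hx.1, image_eq_zero_of_notMem_tsupport hxb, zero_mul]
  have hR := IsFibreArea.integral_box hf hμ hbx hGm hGout
  have hR2 : ∫ x, b x * q x ∂μ = ∫ w, B w * lap A w := by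
    rw [integral_congr_ae hae, hR, ← setIntegral_eq_integral_of_forall_compl_eq_zero
      (s := sliceDom bx s) (f := fun w => B w * lap A w) (fun w hw => by rw [hB0 w hw, zero_mul])]
    refine setIntegral_congr_fun hopen.measurableSet (fun w hw => ?_)
    show G (φ w) * IsBox.dens g bx (w, s) = B w * lap A w
    rw [hGin _ (hφs w hw)]
    have h1 : (bx (φ w)).1 = w := by
      show (bx (bx.symm (w, s))).1 = w
      rw [bx.right_inv hw]
    rw [h1]
    simp only [hH]
    have h2 := (greenX_dens_pos g hbx s hw).ne'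
    field_simp
  refine ⟨?_, hGint.congr hae.symm⟩
  rw [hL2, hR2]
  exact planar_green hopen hAs hBs hBc hBd

omit [T2Space X] [SecondCountableTopology X] [IsManifold 𝓘(ℂ, C2) ω X] [MeasurableSpace X]
  [BorelSpace X] in
theorem greenX_gradDot_sum (g : HermMetric X) (f : X → ℂ) (a : X → ℝ) {t : Finset X}
    {β : X → X → ℝ} {x : X} (hβ : ∀ r ∈ t, MDifferentiableAt 𝓘(ℝ, C2) 𝓘(ℝ, ℝ) (β r) x) :
    gradDot g f a (fun y => ∑ r ∈ t, β r y) x = ∑ r ∈ t, gradDot g f a (β r) x := by
  simp only [gradDot]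
  rw [dR_sum hβ, dR_sum hβ, Finset.mul_sum, Finset.mul_sum, ← Finset.sum_add_distrib,
    Finset.sum_div]

theorem green (hf : ContMDiff 𝓘(ℂ, C2) 𝓘(ℂ, ℂ) ω f) (hμ : IsFibreArea g f s μ) {O : Set X}
    (hO : IsOpen O) {a b : X → ℝ} (ha : ContMDiffOn 𝓘(ℝ, C2) 𝓘(ℝ, ℝ) ∞ a O)
    (hb : ContMDiff 𝓘(ℝ, C2) 𝓘(ℝ, ℝ) ∞ b) (hbc : HasCompactSupport b) (hbO : tsupport b ⊆ O)
    (hbcrit : Disjoint (tsupport b) (Crit f)) {q : X → ℝ}
    (hq : ∀ (U : Set ℂ) (φ : ℂ → X), IsParam f s U φ → (∀ z ∈ U, φ z ∈ O) →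
      ∀ z ∈ U, lap (fun w => a (φ w)) z = q (φ z) * g.normSq (φ z) (vel φ z)) :
    ∫ x, gradDot g f a b x ∂μ = - ∫ x, b x * q x ∂μ ∧ Integrable (fun x => b x * q x) μ := by
  classical
  obtain ⟨t, β, bx, h1, h2⟩ := greenX_partition hf s hO hb hbc hbO hbcrit
  have h3 : ∀ r ∈ t, ∫ x, gradDot g f a (β r) x ∂μ = - ∫ x, β r x * q x ∂μ ∧
      Integrable (fun x => β r x * q x) μ := fun r hr => by
    obtain ⟨k1, k2, k3, k4, k5⟩ := h1 r hr
    exact greenX_box hf hμ hO ha k3 k4 k1 k2 k5 hq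
  have h4 : ∀ r ∈ t, Integrable (gradDot g f a (β r)) μ := fun r hr => by
    obtain ⟨k1, k2, k3, k4, k5⟩ := h1 r hr
    have hcrit : Disjoint (bx r).source (Crit f) := k1.disjoint_crit
    have hsO : (bx r).source ⊆ O \ Crit f := fun x hx => ⟨k2 hx, Set.disjoint_left.mp hcrit hx⟩
    have hG0 : ∀ x ∉ tsupport (β r), gradDot g f a (β r) x = 0 := fun x hx => by
      rw [gradDot, greenX_dR_zero (greenX_zero_near hx), greenX_dR_zero (greenX_zero_near hx)]
      simp
    have hGc : Continuous (gradDot g f a (β r)) :=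
      greenX_continuous (bx r).open_source k5
        ((continuousOn_gradDot g hf hO ha k3.contMDiffOn).mono hsO) hG0
    exact IsFibreArea.integrable hf hμ k4 (Set.disjoint_of_subset_left k5 hcrit)
      hGc.continuousOn hG0
  have h5 : gradDot g f a b =ᵐ[μ] fun x => ∑ r ∈ t, gradDot g f a (β r) x := by
    filter_upwards [IsFibreArea.ae_fibre hμ] with x hx
    have e1 := h2 x hx.1
    have e2 : gradDot g f a b x = gradDot g f a (fun y => ∑ r ∈ t, β r y) x := by
      rw [gradDot, gradDot, dR_congr e1, dR_congr e1]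
    rw [e2]
    exact greenX_gradDot_sum g f a
      (fun r hr => ((h1 r hr).2.2.1.contMDiffAt).mdifferentiableAt (by simp))
  have h6 : (fun x => b x * q x) =ᵐ[μ] fun x => ∑ r ∈ t, β r x * q x := by
    filter_upwards [IsFibreArea.ae_fibre hμ] with x hx
    have e1 := (h2 x hx.1).self_of_nhds
    rw [e1, Finset.sum_mul]
  have h7 : Integrable (fun x => ∑ r ∈ t, β r x * q x) μ :=
    integrable_finsetSum _ (fun r hr => (h3 r hr).2)
  refine ⟨?_, h7.congr h6.symm⟩
  rw [integral_congr_ae h5, integral_congr_ae h6, integral_finsetSum _ h4,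
    integral_finsetSum _ (fun r hr => (h3 r hr).2), ← Finset.sum_neg_distrib]
  exact Finset.sum_congr rfl (fun r hr => (h3 r hr).1)

end DD
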