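import Pool.Agent.Work.MP_dd1e4a_gt.TanA

/-! # TanC: pointwise identities for the densities

`gradSq_comp`: `dσ(ν_x) = c ν_{σ x}` by `exists_smul_tanVec`, and for a real linear map `L : ℂ → F`
`‖L c‖² + ‖L (i c)‖² = |c|² (‖L 1‖² + ‖L i‖²)` (`F` an inner product space). The others: with
`A = dR u x ν`, `B = dR u x (iν)` expand `‖A + iB‖² = ‖A‖² + ‖B‖² - 2 (A_re B_im - A_im B_re)`,
`d(au) = a du + u da`, `d|u|² = 2 Re (conj u du)` (`dR_smul`, `dR_normSq`). -/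

open scoped Manifold ContDiff Topology
open MeasureTheory Set

namespace DD

theorem tanC_inner {F : Type} [NormedAddCommGroup F] [InnerProductSpace ℝ F] (A B : F) (a b : ℝ) :
    ‖a • A + b • B‖ ^ 2 + ‖(-b) • A + a • B‖ ^ 2 = (a ^ 2 + b ^ 2) * (‖A‖ ^ 2 + ‖B‖ ^ 2) := by
  simp only [norm_add_sq_real, norm_smul, inner_smul_left, inner_smul_right, mul_pow,
    Real.norm_eq_abs, sq_abs]
  simp
  ring

theorem tanC_normSq (c : ℂ) : ‖c‖ ^ 2 = c.re ^ 2 + c.im ^ 2 := by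
  rw [← Complex.normSq_eq_norm_sq, Complex.normSq_apply]
  ring

variable {X : Type} [TopologicalSpace X] [ChartedSpace C2 X] {f : X → ℂ} {x : X}

theorem tanC_dR {F : Type} [NormedAddCommGroup F] [NormedSpace ℝ F] (u : X → F) (x : X)
    (v : TangentSpace 𝓘(ℂ, C2) x) (c : ℂ) :
    dR u x (c • v) = c.re • dR u x v + c.im • dR u x (Complex.I • v) := by
  rw [← dR_lin]
  congr 1
  rw [smul_smul, ← add_smul, Complex.re_add_im]

theorem tanC_dR_I {F : Type} [NormedAddCommGroup F] [NormedSpace ℝ F] (u : X → F) (x : X)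
    (v : TangentSpace 𝓘(ℂ, C2) x) (c : ℂ) :
    dR u x (Complex.I • c • v) = (-c.im) • dR u x v + c.re • dR u x (Complex.I • v) := by
  rw [smul_smul, tanC_dR]
  simp

theorem tanC_mul {a : X → ℝ} {u : X → ℂ}
    (ha : MDifferentiableAt 𝓘(ℝ, C2) 𝓘(ℝ, ℝ) a x)
    (hu : MDifferentiableAt 𝓘(ℝ, C2) 𝓘(ℝ, ℂ) u x) (w : TangentSpace 𝓘(ℂ, C2) x) :
    dR (fun y => (a y : ℂ) * u y) x w = a x * dR u x w + dR a x w * u x := by
  have h := dR_smul ha hu w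
  have h2 : (fun y => (a y : ℂ) * u y) = fun y => a y • u y := by
    funext y
    rw [Complex.real_smul]
  rw [h2, h, Complex.real_smul, Complex.real_smul]

theorem tanC_mdiff_normSq {u : X → ℂ} (hu : MDifferentiableAt 𝓘(ℝ, C2) 𝓘(ℝ, ℂ) u x) :
    MDifferentiableAt 𝓘(ℝ, C2) 𝓘(ℝ, ℝ) (fun y => ‖u y‖ ^ 2) x := by
  have hu' := calcB_iff.mp hu
  have h1 := hu'.2.hasFDerivAt.norm_sq
  exact calcB_iff.mpr ⟨hu'.1.norm.pow 2, h1.differentiableAt⟩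

variable
  [IsManifold 𝓘(ℂ, C2) ω X] (g : HermMetric X)

/-- conformal invariance of the Dirichlet density under a holomorphic map between fibres. -/
theorem gradSq_comp {F : Type} [NormedAddCommGroup F] [InnerProductSpace ℝ F] {u : X → F}
    {σ : X → X}
    (hx : x ∉ Crit f) (hσx : σ x ∉ Crit f) (hσ : MDifferentiableAt 𝓘(ℂ, C2) 𝓘(ℂ, C2) σ x)
    (hker : dC f (σ x) (mfderiv 𝓘(ℂ, C2) 𝓘(ℂ, C2) σ x (tanVec f x)) = 0)
    (hu : MDifferentiableAt 𝓘(ℝ, C2) 𝓘(ℝ, F) u (σ x)) :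
    gradSq g f (fun y => u (σ y)) x = gradSq g f u (σ x) * ratio g f σ x := by
  obtain ⟨c, hc⟩ := exists_smul_tanVec hσx _ hker
  have hn := normSq_pos g (σ x) (tanVec_ne hσx)
  have h2 : mfderiv 𝓘(ℂ, C2) 𝓘(ℂ, C2) σ x (Complex.I • tanVec f x) =
      Complex.I • c • tanVec f (σ x) := by
    rw [map_smul, hc]
  rw [gradSq, dR_comp hu hσ, dR_comp hu hσ, h2, hc, tanC_dR, tanC_dR_I, tanC_inner, gradSq, ratio,
    hc, normSq_smul, tanC_normSq]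
  field_simp

/-- the relation between the two energy densities of a complex function. -/
theorem dbarSq_eq_grad {u : X → ℂ} (hx : x ∉ Crit f)
    (hu : MDifferentiableAt 𝓘(ℝ, C2) 𝓘(ℝ, ℂ) u x) :
    dbarSq g f u x = gradSq g f u x / 2 - wedge g f (fun y => (u y).re) (fun y => (u y).im) x := by
  have hre : ∀ w : TangentSpace 𝓘(ℂ, C2) x, dR (fun y => (u y).re) x w = (dR u x w).re := by
    intro w
    have h := dR_comp_left (k := fun z : ℂ => z.re) (u := u) (x := x)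
      Complex.reCLM.differentiableAt hu w
    rw [h]
    have h3 : fderiv ℝ (fun z : ℂ => z.re) (u x) = Complex.reCLM := Complex.reCLM.fderiv
    rw [h3]
    rfl
  have him : ∀ w : TangentSpace 𝓘(ℂ, C2) x, dR (fun y => (u y).im) x w = (dR u x w).im := by
    intro w
    have h := dR_comp_left (k := fun z : ℂ => z.im) (u := u) (x := x)
      Complex.imCLM.differentiableAt hu w
    rw [h]
    have h3 : fderiv ℝ (fun z : ℂ => z.im) (u x) = Complex.imCLM := Complex.imCLM.fderiv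
    rw [h3]
    rfl
  rw [dbarSq, gradSq, wedge, hre, hre, him, him]
  set A := dR u x (tanVec f x)
  set B := dR u x (Complex.I • tanVec f x)
  have hn := normSq_pos g x (tanVec_ne hx)
  rw [tanC_normSq, tanC_normSq, tanC_normSq]
  simp
  field_simp
  ring

/-- product rule for a real function times a complex function. -/
theorem gradSq_mul {a : X → ℝ} {u : X → ℂ}
    (ha : MDifferentiableAt 𝓘(ℝ, C2) 𝓘(ℝ, ℝ) a x)
    (hu : MDifferentiableAt 𝓘(ℝ, C2) 𝓘(ℝ, ℂ) u x) :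
    gradSq g f (fun y => (a y : ℂ) * u y) x =
      a x ^ 2 * gradSq g f u x + gradDot g f a (fun y => a y * ‖u y‖ ^ 2) x := by
  have h1 : ∀ w : TangentSpace 𝓘(ℂ, C2) x, dR (fun y => a y * ‖u y‖ ^ 2) x w =
      a x * (2 * ((starRingEnd ℂ) (u x) * dR u x w).re) + dR a x w * ‖u x‖ ^ 2 := by
    intro w
    have h := dR_smul ha (tanC_mdiff_normSq hu) w
    rw [dR_normSq hu] at h
    exact h
  rw [gradSq, tanC_mul ha hu, tanC_mul ha hu, gradSq, gradDot, h1, h1]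
  set A := dR u x (tanVec f x)
  set B := dR u x (Complex.I • tanVec f x)
  set p := dR a x (tanVec f x)
  set q := dR a x (Complex.I • tanVec f x)
  rw [tanC_normSq, tanC_normSq, tanC_normSq, tanC_normSq, tanC_normSq]
  simp
  ring

theorem gradSq_mul_le {a : X → ℝ} {u : X → ℂ}
    (ha : MDifferentiableAt 𝓘(ℝ, C2) 𝓘(ℝ, ℝ) a x)
    (hu : MDifferentiableAt 𝓘(ℝ, C2) 𝓘(ℝ, ℂ) u x) :
    gradSq g f (fun y => (a y : ℂ) * u y) x ≤
      2 * a x ^ 2 * gradSq g f u x + 2 * ‖u x‖ ^ 2 * gradSq g f a x := by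
  rw [gradSq, tanC_mul ha hu, tanC_mul ha hu, gradSq, gradSq]
  set A := dR u x (tanVec f x)
  set B := dR u x (Complex.I • tanVec f x)
  set p := dR a x (tanVec f x)
  set q := dR a x (Complex.I • tanVec f x)
  have hn := normSq_nonneg g x (tanVec f x)
  have key : ∀ (r : ℝ) (C : ℂ), ‖(a x : ℂ) * C + (r : ℂ) * u x‖ ^ 2 ≤
      2 * a x ^ 2 * ‖C‖ ^ 2 + 2 * ‖u x‖ ^ 2 * ‖r‖ ^ 2 := by
    intro r C
    have h1 : ‖(a x : ℂ) * C + (r : ℂ) * u x‖ ≤ |a x| * ‖C‖ + |r| * ‖u x‖ := by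
      refine (norm_add_le _ _).trans ?_
      simp [norm_mul]
    have h2 : ‖(a x : ℂ) * C + (r : ℂ) * u x‖ ^ 2 ≤ (|a x| * ‖C‖ + |r| * ‖u x‖) ^ 2 := by
      gcongr
    have h3 : (|a x| * ‖C‖ + |r| * ‖u x‖) ^ 2 ≤ 2 * (|a x| * ‖C‖) ^ 2 + 2 * (|r| * ‖u x‖) ^ 2 := by
      nlinarith [sq_nonneg (|a x| * ‖C‖ - |r| * ‖u x‖)]
    rw [mul_pow, mul_pow, sq_abs, sq_abs] at h3
    rw [Real.norm_eq_abs, sq_abs]
    linarith
  have e1 : 2 * a x ^ 2 * ((‖A‖ ^ 2 + ‖B‖ ^ 2) / g.normSq x (tanVec f x)) +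
      2 * ‖u x‖ ^ 2 * ((‖p‖ ^ 2 + ‖q‖ ^ 2) / g.normSq x (tanVec f x)) =
      ((2 * a x ^ 2 * ‖A‖ ^ 2 + 2 * ‖u x‖ ^ 2 * ‖p‖ ^ 2) +
        (2 * a x ^ 2 * ‖B‖ ^ 2 + 2 * ‖u x‖ ^ 2 * ‖q‖ ^ 2)) / g.normSq x (tanVec f x) := by
    ring
  rw [e1]
  exact div_le_div_of_nonneg_right (add_le_add (key p A) (key q B)) hn

theorem abs_gradDot_normSq_le {a : X → ℝ} {u : X → ℂ}
    (ha : MDifferentiableAt 𝓘(ℝ, C2) 𝓘(ℝ, ℝ) a x)
    (hu : MDifferentiableAt 𝓘(ℝ, C2) 𝓘(ℝ, ℂ) u x) :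
    |gradDot g f a (fun y => ‖u y‖ ^ 2) x| ≤ ‖u x‖ ^ 2 * gradSq g f a x + gradSq g f u x := by
  rw [gradDot, dR_normSq hu, dR_normSq hu, gradSq, gradSq]
  set A := dR u x (tanVec f x)
  set B := dR u x (Complex.I • tanVec f x)
  set p := dR a x (tanVec f x)
  set q := dR a x (Complex.I • tanVec f x)
  have hn := normSq_nonneg g x (tanVec f x)
  have key : ∀ (r : ℝ) (C : ℂ), |r * (2 * ((starRingEnd ℂ) (u x) * C).re)| ≤
      ‖u x‖ ^ 2 * ‖r‖ ^ 2 + ‖C‖ ^ 2 := by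
    intro r C
    have h1 : |((starRingEnd ℂ) (u x) * C).re| ≤ ‖u x‖ * ‖C‖ := by
      refine (Complex.abs_re_le_norm _).trans ?_
      rw [norm_mul, RCLike.norm_conj]
    have h2 : |r * (2 * ((starRingEnd ℂ) (u x) * C).re)| =
        2 * |r| * |((starRingEnd ℂ) (u x) * C).re| := by
      rw [abs_mul, abs_mul, abs_two]
      ring
    rw [h2, Real.norm_eq_abs]
    have h3 : 2 * |r| * |((starRingEnd ℂ) (u x) * C).re| ≤ 2 * |r| * (‖u x‖ * ‖C‖) := by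
      gcongr
    nlinarith [sq_nonneg (‖u x‖ * |r| - ‖C‖)]
  have e1 : ‖u x‖ ^ 2 * ((‖p‖ ^ 2 + ‖q‖ ^ 2) / g.normSq x (tanVec f x)) +
      (‖A‖ ^ 2 + ‖B‖ ^ 2) / g.normSq x (tanVec f x) =
      ((‖u x‖ ^ 2 * ‖p‖ ^ 2 + ‖A‖ ^ 2) + (‖u x‖ ^ 2 * ‖q‖ ^ 2 + ‖B‖ ^ 2)) /
        g.normSq x (tanVec f x) := by
    ring
  rw [e1, abs_div, abs_of_nonneg hn]
  refine div_le_div_of_nonneg_right ?_ hn
  exact (abs_add_le _ _).trans (add_le_add (key p A) (key q B))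

theorem gradSq_congr {F : Type} [NormedAddCommGroup F] [NormedSpace ℝ F] {u v : X → F}
    (h : u =ᶠ[𝓝 x] v) : gradSq g f u x = gradSq g f v x := by
  rw [gradSq, gradSq, dR_congr h, dR_congr h]

end DD
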