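import Pool.Agent.Work.MP_dd1e4a_gt.AreaD
import Pool.Agent.Work.MP_dd1e4a_gt.PartUnity
import Pool.Agent.Work.MP_dd1e4a_gt.PlanarA
import Pool.Agent.Work.MP_dd1e4a_gt.TanC
import Pool.Agent.Work.MP_dd1e4a_gt.GreenX

/-! # WedgeX: the integral of `da ∧ db` over a fibre vanishes

As for Green's formula: `K = tsupport b ∩ {f = s}` compact, disjoint from `Crit f`; boxes around the
points of `K`, `exists_partition` (`wedge` is linear in `b` and depends only on the germ), so `b` is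
supported in a box; `IsFibreArea.integral_box`, `IsParam.wedge_eq`, `planar_wedge` with
`A = a ∘ slice`, `B = b ∘ slice`. -/

open scoped Manifold ContDiff Topology
open MeasureTheory Set

namespace DD

variable {X : Type} [TopologicalSpace X] [T2Space X] [SecondCountableTopology X]
  [ChartedSpace C2 X] [IsManifold 𝓘(ℂ, C2) ω X] [MeasurableSpace X] [BorelSpace X]
  {g : HermMetric X} {f : X → ℂ} {s : ℂ} {μ : Measure X}

omit [T2Space X] [SecondCountableTopology X] [IsManifold 𝓘(ℂ, C2) ω X] [MeasurableSpace X]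
  [BorelSpace X] in
private theorem wedgeX_sum (g : HermMetric X) (f : X → ℂ) (a : X → ℝ) {t : Finset X}
    {β : X → X → ℝ} {x : X} (hβ : ∀ r ∈ t, MDifferentiableAt 𝓘(ℝ, C2) 𝓘(ℝ, ℝ) (β r) x) :
    wedge g f a (fun y => ∑ r ∈ t, β r y) x = ∑ r ∈ t, wedge g f a (β r) x := by
  simp only [wedge]
  rw [dR_sum hβ, dR_sum hβ, Finset.mul_sum, Finset.mul_sum, ← Finset.sum_sub_distrib,
    Finset.sum_div]

private theorem wedgeX_box (hf : ContMDiff 𝓘(ℂ, C2) 𝓘(ℂ, ℂ) ω f) (hμ : IsFibreArea g f s μ)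
    {a b : X → ℝ} (ha : ContMDiff 𝓘(ℝ, C2) 𝓘(ℝ, ℝ) ∞ a)
    (hb : ContMDiff 𝓘(ℝ, C2) 𝓘(ℝ, ℝ) ∞ b) (hbc : HasCompactSupport b)
    {bx : OpenPartialHomeomorph X C2} (hbx : IsBox f bx) (hbs : tsupport b ⊆ bx.source) :
    ∫ x, wedge g f a b x ∂μ = 0 ∧ Integrable (wedge g f a b) μ := by
  classical
  obtain ⟨B, hBs, hBc, hBd, hB1, hB0⟩ := greenX_slice hf hbx s hb hbc hbs
  have hopen := isOpen_sliceDom bx s
  have hparam := hbx.isParam s
  set φ := slice bx s with hφ
  set A : ℂ → ℝ := fun w => a (φ w) with hA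
  have hAs : ContDiffOn ℝ ∞ A (sliceDom bx s) :=
    greenX_slice_smooth hbx s (ha.contMDiffOn (s := univ)) (subset_univ _)
  have hcrit : Disjoint bx.source (Crit f) := hbx.disjoint_crit
  have hsO : bx.source ⊆ univ \ Crit f :=
    fun x hx => ⟨mem_univ x, Set.disjoint_left.mp hcrit hx⟩
  have hG0 : ∀ x ∉ tsupport b, wedge g f a b x = 0 := fun x hx => by
    rw [wedge, greenX_dR_zero (greenX_zero_near hx), greenX_dR_zero (greenX_zero_near hx)]
    simp
  have hGc : Continuous (wedge g f a b) :=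
    greenX_continuous bx.open_source hbs
      ((continuousOn_wedge g hf isOpen_univ ha.contMDiffOn hb.contMDiffOn).mono hsO) hG0
  refine ⟨?_, IsFibreArea.integrable hf hμ hbc (Set.disjoint_of_subset_left hbs hcrit)
    hGc.continuousOn hG0⟩
  have hL := IsFibreArea.integral_box hf hμ hbx hGc.measurable
    (fun x hx => hG0 x (fun h => hx (hbs h)))
  have hbd : ∀ x, MDifferentiableAt 𝓘(ℝ, C2) 𝓘(ℝ, ℝ) b x := fun x =>
    (hb.contMDiffAt).mdifferentiableAt (by simp)
  have had : ∀ x, MDifferentiableAt 𝓘(ℝ, C2) 𝓘(ℝ, ℝ) a x := fun x =>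
    (ha.contMDiffAt).mdifferentiableAt (by simp)
  have hfd : ∀ w ∈ sliceDom bx s, fderiv ℝ (fun w => b (φ w)) w = fderiv ℝ B w := by
    intro w hw
    refine Filter.EventuallyEq.fderiv_eq ?_
    filter_upwards [hopen.mem_nhds hw] with w' hw'
    exact (hB1 w' hw').symm
  have hB0' : ∀ w ∉ sliceDom bx s, fderiv ℝ B w = 0 := by
    intro w hw
    have h1 : w ∉ tsupport B := fun h => hw (hBd h)
    have h2 : B =ᶠ[𝓝 w] fun _ => 0 := by
      filter_upwards [(isClosed_tsupport B).isOpen_compl.mem_nhds h1] with y hy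
      exact image_eq_zero_of_notMem_tsupport hy
    rw [h2.fderiv_eq]
    simp
  have hL2 : ∫ x, wedge g f a b x ∂μ =
      ∫ w, (fderiv ℝ A w 1 * fderiv ℝ B w Complex.I - fderiv ℝ A w Complex.I * fderiv ℝ B w 1) := by
    rw [hL, ← setIntegral_eq_integral_of_forall_compl_eq_zero (s := sliceDom bx s)
      (f := fun w => fderiv ℝ A w 1 * fderiv ℝ B w Complex.I -
        fderiv ℝ A w Complex.I * fderiv ℝ B w 1)
      (fun w hw => by rw [hB0' w hw]; simp)]
    refine setIntegral_congr_fun hopen.measurableSet (fun w hw => ?_)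
    show wedge g f a b (φ w) * IsBox.dens g bx (w, s) = _
    rw [greenX_dens g hbx s hw,
      IsParam.wedge_eq g hf hparam hw (had _) (hbd _), hfd w hw]
  rw [hL2]
  exact planar_wedge hopen hAs hBs hBc hBd

theorem wedge_zero (hf : ContMDiff 𝓘(ℂ, C2) 𝓘(ℂ, ℂ) ω f) (hμ : IsFibreArea g f s μ)
    {a b : X → ℝ} (ha : ContMDiff 𝓘(ℝ, C2) 𝓘(ℝ, ℝ) ∞ a)
    (hb : ContMDiff 𝓘(ℝ, C2) 𝓘(ℝ, ℝ) ∞ b) (hbc : HasCompactSupport b)
    (hbcrit : Disjoint (tsupport b) (Crit f)) : ∫ x, wedge g f a b x ∂μ = 0 := by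
  classical
  obtain ⟨t, β, bx, h1, h2⟩ := greenX_partition hf s isOpen_univ hb hbc (subset_univ _) hbcrit
  have h3 : ∀ r ∈ t, ∫ x, wedge g f a (β r) x ∂μ = 0 ∧ Integrable (wedge g f a (β r)) μ :=
    fun r hr => by
      obtain ⟨k1, _, k3, k4, k5⟩ := h1 r hr
      exact wedgeX_box hf hμ ha k3 k4 k1 k5
  have h5 : wedge g f a b =ᵐ[μ] fun x => ∑ r ∈ t, wedge g f a (β r) x := by
    filter_upwards [IsFibreArea.ae_fibre hμ] with x hx
    have e1 := h2 x hx.1
    have e2 : wedge g f a b x = wedge g f a (fun y => ∑ r ∈ t, β r y) x := by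
      rw [wedge, wedge, dR_congr e1, dR_congr e1]
    rw [e2]
    exact wedgeX_sum g f a
      (fun r hr => ((h1 r hr).2.2.1.contMDiffAt).mdifferentiableAt (by simp))
  rw [integral_congr_ae h5, integral_finsetSum _ (fun r hr => (h3 r hr).2)]
  exact Finset.sum_eq_zero (fun r hr => (h3 r hr).1)

/-- for test functions the `∂̄`-energy is one half of the Dirichlet integral
(`dbarSq_eq_grad`, `wedge_zero` with the real and the imaginary part). -/
theorem energy_eq (hf : ContMDiff 𝓘(ℂ, C2) 𝓘(ℂ, ℂ) ω f) (hμ : IsFibreArea g f s μ)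
    {u : X → ℂ} (hu : u ∈ Test f) :
    ∫ x, dbarSq g f u x ∂μ = (∫ x, gradSq g f u x ∂μ) / 2 := by
  obtain ⟨hi1, hi2, _⟩ := IsFibreArea.integrable_test hf hμ hu
  have hre : ContMDiff 𝓘(ℝ, C2) 𝓘(ℝ, ℝ) ∞ (fun y => (u y).re) :=
    (Complex.reCLM.contMDiff).comp hu.1
  have him : ContMDiff 𝓘(ℝ, C2) 𝓘(ℝ, ℝ) ∞ (fun y => (u y).im) :=
    (Complex.imCLM.contMDiff).comp hu.1
  have hsub : tsupport (fun y => (u y).im) ⊆ tsupport u := by
    refine closure_mono (fun x hx h => hx ?_)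
    show (u x).im = 0
    rw [h]
    rfl
  have hw := wedge_zero hf hμ hre him
    (IsCompact.of_isClosed_subset hu.2.1 (isClosed_tsupport _) hsub)
    (Set.disjoint_of_subset_left hsub hu.2.2)
  have hae : dbarSq g f u =ᵐ[μ] fun x => gradSq g f u x / 2 -
      wedge g f (fun y => (u y).re) (fun y => (u y).im) x := by
    filter_upwards [IsFibreArea.ae_fibre hμ] with x hx
    exact dbarSq_eq_grad g hx.2 ((hu.1.contMDiffAt).mdifferentiableAt (by simp))
  have hi3 : Integrable (wedge g f (fun y => (u y).re) (fun y => (u y).im)) μ := by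
    have h1 : Integrable (fun x => gradSq g f u x / 2 - dbarSq g f u x) μ :=
      (hi1.div_const 2).sub hi2
    refine h1.congr ?_
    filter_upwards [hae] with x hx
    rw [hx]
    ring
  rw [integral_congr_ae hae, integral_sub (hi1.div_const 2) hi3, hw, integral_div, sub_zero]

end DD
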