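import Pool.Agent.Work.MP_dd1e4a_gt.Transfer
import Pool.Agent.Work.MP_dd1e4a_gt.LamNonempty
import Pool.Agent.Work.MP_dd1e4a_gt.AreaEx
import Pool.Agent.Work.MP_dd1e4a_gt.WedgeX
import Pool.Agent.Work.MP_dd1e4a_gt.MinMax
import Pool.Agent.Work.MP_dd1e4a_gt.SetupEx

/-! # Final: assembly -/

open scoped Manifold ContDiff Topology
open MeasureTheory Set

namespace DD

theorem main {X : Type} [TopologicalSpace X] [T2Space X] [SecondCountableTopology X]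
    [ChartedSpace C2 X] [IsManifold 𝓘(ℂ, C2) ω X] [MeasurableSpace X] [BorelSpace X]
    (g : HermMetric X) (f : X → ℂ) (hf : ContMDiff 𝓘(ℂ, C2) 𝓘(ℂ, ℂ) ω f)
    (hdisc : Set.range f = Metric.ball 0 1)
    (hproper : ∀ K ⊆ Metric.ball (0 : ℂ) 1, IsCompact K → IsCompact (f ⁻¹' K))
    (hsing : ∀ x ∈ Crit f, f x = 0) (hcrit : (Crit f).Finite) :
    (∀ s : ℂ, ∃ μ : Measure X, IsFibreArea g f s μ) ∧
    ∀ μ : ℂ → Measure X, (∀ s ∈ Metric.ball (0 : ℂ) 1, IsFibreArea g f s (μ s)) →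
      ∀ k : ℕ, ∃ C > 0, ∃ r ∈ Set.Ioo (0 : ℝ) 1, ∀ s : ℂ, 0 < ‖s‖ → ‖s‖ < r →
        |lam g f (μ s) k - lam g f (μ 0) k| ≤ C / Real.log (1 / ‖s‖) := by
  refine ⟨fun s => exists_isFibreArea g hf s, fun μ hμ k => ?_⟩
  obtain ⟨S⟩ := exists_setup hf hproper hsing hcrit
  obtain ⟨C, hC, ε₀, hε₀, hε₁, htr⟩ := transfer S g hf
  have hx0 : ∃ x, f x = 0 := by
    have : (0 : ℂ) ∈ Set.range f := by
      rw [hdisc]
      exact Metric.mem_ball_self one_pos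
    exact this
  obtain ⟨q, hq, hqc⟩ := exists_regular S hx0
  have hμ0 : IsFibreArea g f 0 (μ 0) := hμ 0 (Metric.mem_ball_self one_pos)
  have hne0 : (lamSet g f (μ 0) k).Nonempty := lamSet_nonempty g hf hμ0 hq hqc k
  set Λ := lam g f (μ 0) k with hΛ
  have hΛ0 : 0 ≤ Λ := by
    rw [hΛ, lam_eq]
    exact Real.sInf_nonneg (lamSet_nonneg g f (μ 0) k)
  -- a small radius
  set A : ℝ := 4 * C * (2 + Λ) ^ 2 + 4 * C * (4 + Λ) with hA
  have hApos : 0 < A := by positivity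
  obtain ⟨r, hr0, hr1, hrε, hrlog⟩ : ∃ r : ℝ, 0 < r ∧ r < 1 ∧ r ≤ ε₀ ∧
      ∀ t : ℝ, 0 < t → t < r → A ≤ Real.log (1 / t) := by
    refine ⟨min (ε₀ / 2) (Real.exp (-A)), by positivity, ?_, ?_, fun t ht htr' => ?_⟩
    · exact lt_of_le_of_lt (min_le_left _ _) (by linarith)
    · exact (min_le_left _ _).trans (by linarith)
    · have h1 : t < Real.exp (-A) := lt_of_lt_of_le htr' (min_le_right _ _)
      rw [one_div, Real.log_inv]
      have h2 : Real.log t < -A := by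
        rw [← Real.log_exp (-A)]
        exact Real.log_lt_log ht h1
      linarith
  refine ⟨4 * C * (3 + Λ) ^ 2, by positivity, r, ⟨hr0, hr1⟩, fun s hs0 hsr => ?_⟩
  set L := Real.log (1 / ‖s‖) with hL
  have hLA : A ≤ L := hrlog _ hs0 hsr
  have hLpos : 0 < L := lt_of_lt_of_le hApos hLA
  set κ : ℝ := 2 * C / L with hκ
  have hκ0 : 0 < κ := by positivity
  have hκA : κ * A ≤ 2 * C := by
    rw [hκ, div_mul_eq_mul_div, div_le_iff₀ hLpos]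
    exact mul_le_mul_of_nonneg_left hLA (by positivity)
  have hsball : s ∈ Metric.ball (0 : ℂ) 1 := by
    simp only [Metric.mem_ball, dist_zero_right]
    linarith
  have hμs : IsFibreArea g f s (μ s) := hμ s hsball
  have key : ∀ (s₁ s₂ : ℂ), ‖s₁‖ ≤ ‖s‖ → ‖s₂‖ ≤ ‖s‖ → IsFibreArea g f s₁ (μ s₁) →
      IsFibreArea g f s₂ (μ s₂) → (lamSet g f (μ s₁) k).Nonempty →
      κ * (2 + lam g f (μ s₁) k) ≤ 1 / 2 → (lamSet g f (μ s₂) k).Nonempty ∧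
      lam g f (μ s₂) k ≤ lam g f (μ s₁) k + 2 * κ * (1 + lam g f (μ s₁) k) ^ 2 := by
    intro s₁ s₂ h₁ h₂ hm₁ hm₂ hne hsm
    obtain ⟨T, hT⟩ := htr ‖s‖ hs0 (lt_of_lt_of_le hsr hrε) s₁ s₂ h₁ h₂ (μ s₁) (μ s₂) hm₁ hm₂
    have hMn : ∀ u : Test f, 0 ≤ ∫ x, ‖u.1 x‖ ^ 2 ∂(μ s₁) := fun u =>
      integral_nonneg fun x => by positivity
    have h3 : C / Real.log (1 / ‖s‖) = κ / 2 := by
      rw [hκ, ← hL]
      ring
    refine lam_transfer g f hκ0.le T (fun u => ?_) (fun u => ?_) hne hsm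
    · have h := (hT u).1
      rw [energy_eq hf hm₂ (T u).2, energy_eq hf hm₁ u.2]
      have := mul_nonneg hκ0.le (hMn u)
      have hD := mul_nonneg hκ0.le (integral_nonneg
        (μ := μ s₁) (f := gradSq g f u.1) (fun x => gradSq_nonneg g f u.1 x))
      rw [h3] at h
      linarith
    · have h := (hT u).2
      rw [energy_eq hf hm₁ u.2]
      have := mul_nonneg hκ0.le (hMn u)
      rw [h3] at h
      linarith
  have hC0 : 0 ≤ C := hC.le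
  have hκΛ : κ * (4 + Λ) ≤ 1 / 2 := by
    have h1 : κ * (4 * C * (4 + Λ)) ≤ 2 * C := by
      refine le_trans (mul_le_mul_of_nonneg_left ?_ hκ0.le) hκA
      rw [hA]
      have : 0 ≤ 4 * C * (2 + Λ) ^ 2 := by positivity
      linarith
    have h2 : 4 * C * (κ * (4 + Λ)) ≤ 4 * C * (1 / 2) := by linarith
    exact le_of_mul_le_mul_left h2 (by positivity)
  have hκ1 : 2 * κ * (1 + Λ) ^ 2 ≤ 1 := by
    have h1 : κ * (4 * C * (2 + Λ) ^ 2) ≤ 2 * C := by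
      refine le_trans (mul_le_mul_of_nonneg_left ?_ hκ0.le) hκA
      rw [hA]
      have : 0 ≤ 4 * C * (4 + Λ) := by positivity
      linarith
    have h2 : 2 * C * (2 * κ * (2 + Λ) ^ 2) ≤ 2 * C * 1 := by linarith
    have h3 : 2 * κ * (2 + Λ) ^ 2 ≤ 1 := le_of_mul_le_mul_left h2 (by positivity)
    have h4 : (1 + Λ) ^ 2 ≤ (2 + Λ) ^ 2 := by nlinarith
    have h5 : 2 * κ * (1 + Λ) ^ 2 ≤ 2 * κ * (2 + Λ) ^ 2 :=
      mul_le_mul_of_nonneg_left h4 (by positivity)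
    linarith
  have h0s : ‖(0 : ℂ)‖ ≤ ‖s‖ := by simp
  obtain ⟨hnes, hup⟩ := key 0 s h0s le_rfl hμ0 hμs hne0 (by
    rw [← hΛ]
    have : κ * (2 + Λ) ≤ κ * (4 + Λ) := mul_le_mul_of_nonneg_left (by linarith) hκ0.le
    linarith)
  rw [← hΛ] at hup
  set Λs := lam g f (μ s) k with hΛs
  have hΛs0 : 0 ≤ Λs := by
    rw [hΛs, lam_eq]
    exact Real.sInf_nonneg (lamSet_nonneg g f (μ s) k)
  have hΛs1 : Λs ≤ Λ + 1 := by linarith
  obtain ⟨-, hlow⟩ := key s 0 le_rfl h0s hμs hμ0 hnes (by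
    rw [← hΛs]
    have : κ * (2 + Λs) ≤ κ * (4 + Λ) := mul_le_mul_of_nonneg_left (by linarith) hκ0.le
    linarith)
  rw [← hΛs, ← hΛ] at hlow
  have hb1 : 2 * κ * (1 + Λ) ^ 2 ≤ 2 * κ * (3 + Λ) ^ 2 := by
    have : (1 + Λ) ^ 2 ≤ (3 + Λ) ^ 2 := by nlinarith
    exact mul_le_mul_of_nonneg_left this (by positivity)
  have hb2 : 2 * κ * (1 + Λs) ^ 2 ≤ 2 * κ * (3 + Λ) ^ 2 := by
    have : (1 + Λs) ^ 2 ≤ (3 + Λ) ^ 2 := by nlinarith
    exact mul_le_mul_of_nonneg_left this (by positivity)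
  have hgoal : 2 * κ * (3 + Λ) ^ 2 = 4 * C * (3 + Λ) ^ 2 / L := by
    rw [hκ]
    ring
  rw [← hgoal, abs_le]
  constructor <;> linarith

end DD
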