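import Pool.Agent.Work.MP_dd1e4a_gt.Stmt
import Pool.Agent.Work.MP_dd1e4a_gt.Final

/-! # Bridge: the definitions of the statement agree with those used in the proof -/

set_option autoImplicit false

open scoped Manifold ContDiff
open MeasureTheory Set

namespace DDS

variable {X : Type} [TopologicalSpace X] [ChartedSpace (ℂ × ℂ) X]

/-- the metric. -/
noncomputable def HermMetric.toDD (g : HermMetric X) : DD.HermMetric X where
  inner := g.inner
  add_left := g.add_left
  smul_left := g.smul_left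
  conj_symm := g.conj_symm
  pos := g.pos
  smooth := g.smooth

theorem crit_eq (f : X → ℂ) : Crit f = DD.Crit f := rfl

theorem isParam_iff (f : X → ℂ) (s : ℂ) (U : Set ℂ) (φ : ℂ → X) :
    IsParam f s U φ ↔ DD.IsParam f s U φ :=
  ⟨fun h => ⟨h.isOpen, h.holo, h.inj, h.imm, h.fib, h.reg⟩,
    fun h => ⟨h.isOpen, h.holo, h.inj, h.imm, h.fib, h.reg⟩⟩

theorem isFibreArea_iff [MeasurableSpace X] (g : HermMetric X) (f : X → ℂ) (s : ℂ)
    (μ : Measure X) : IsFibreArea g f s μ ↔ DD.IsFibreArea g.toDD f s μ :=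
  ⟨fun h => ⟨h.carried, fun U φ hφ A hA hAm => h.area U φ ((isParam_iff f s U φ).mpr hφ) A hA hAm⟩,
    fun h => ⟨h.carried, fun U φ hφ A hA hAm => h.area U φ ((isParam_iff f s U φ).mp hφ) A hA hAm⟩⟩

theorem dbarSq_eq (g : HermMetric X) (f : X → ℂ) (u : X → ℂ) (x : X) :
    dbarSq g f u x = DD.dbarSq g.toDD f u x := rfl

theorem isTest_iff (f : X → ℂ) (u : X → ℂ) : IsTest f u ↔ u ∈ DD.Test f := Iff.rfl

theorem lam_eq [MeasurableSpace X] (g : HermMetric X) (f : X → ℂ) (μ : Measure X) (k : ℕ) :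
    lam g f μ k = DD.lam g.toDD f μ k := rfl

end DDS
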