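import Mathlib

/-! # MP_dd1e4a_gt: the definitions used in the statement

Complex surfaces (modelled on `ℂ × ℂ`), Hermitian metrics, fibres of a holomorphic function, area
measure and `∂̄`-energy on the fibres, eigenvalues by the min-max formula. -/

set_option autoImplicit false

open scoped Manifold ContDiff
open MeasureTheory Set

namespace DDS

/-- A smooth Hermitian metric on a complex surface: a positive definite Hermitian form on every
tangent space, depending smoothly on the point. -/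
structure HermMetric (X : Type) [TopologicalSpace X] [ChartedSpace (ℂ × ℂ) X] where
  /-- the Hermitian form, linear in the first and conjugate linear in the second variable -/
  inner : ∀ x : X, TangentSpace 𝓘(ℂ, ℂ × ℂ) x → TangentSpace 𝓘(ℂ, ℂ × ℂ) x → ℂ
  add_left : ∀ x u v w, inner x (u + v) w = inner x u w + inner x v w
  smul_left : ∀ x (a : ℂ) v w, inner x (a • v) w = a * inner x v w
  conj_symm : ∀ x v w, inner x w v = (starRingEnd ℂ) (inner x v w)
  pos : ∀ x v, v ≠ 0 → 0 < (inner x v v).re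
  smooth : ∀ e ∈ atlas (ℂ × ℂ) X, ∀ v w : ℂ × ℂ, ContDiffOn ℝ ∞ (fun y : ℂ × ℂ =>
    inner (e.symm y) (mfderiv 𝓘(ℂ, ℂ × ℂ) 𝓘(ℂ, ℂ × ℂ) e.symm y v)
      (mfderiv 𝓘(ℂ, ℂ × ℂ) 𝓘(ℂ, ℂ × ℂ) e.symm y w)) e.target

variable {X : Type} [TopologicalSpace X] [ChartedSpace (ℂ × ℂ) X]

/-- The Riemannian length squared `g(v, v)` of a tangent vector. -/
noncomputable def HermMetric.normSq (g : HermMetric X) (x : X)
    (v : TangentSpace 𝓘(ℂ, ℂ × ℂ) x) : ℝ :=
  (g.inner x v v).re

/-- The critical points of `f`. -/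
def Crit (f : X → ℂ) : Set X := {x | mfderiv 𝓘(ℂ, ℂ × ℂ) 𝓘(ℂ, ℂ) f x = 0}

/-- The complex derivative `φ'(z)`, a tangent vector of `X` at `φ z`. -/
noncomputable def vel (φ : ℂ → X) (z : ℂ) : TangentSpace 𝓘(ℂ, ℂ × ℂ) (φ z) :=
  mfderiv 𝓘(ℂ, ℂ) 𝓘(ℂ, ℂ × ℂ) φ z (1 : ℂ)

/-- `φ`, restricted to the open set `U` of the plane, is an injective holomorphic immersion of `U`
into the regular part of the fibre `f = s` (a holomorphic parametrization of an open part of this
Riemann surface). -/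
structure IsParam (f : X → ℂ) (s : ℂ) (U : Set ℂ) (φ : ℂ → X) : Prop where
  isOpen : IsOpen U
  holo : ContMDiffOn 𝓘(ℂ, ℂ) 𝓘(ℂ, ℂ × ℂ) ω φ U
  inj : InjOn φ U
  imm : ∀ z ∈ U, vel φ z ≠ 0
  fib : ∀ z ∈ U, f (φ z) = s
  reg : ∀ z ∈ U, φ z ∉ Crit f

/-- `μ` is the Riemannian area measure of (the regular part of) the fibre `X_s = {f = s}` with the
metric induced by `g`: it is carried by this fibre, and the area of the image of a holomorphic
parametrization `φ` is the integral of `g(φ', φ')`. -/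
structure IsFibreArea [MeasurableSpace X] (g : HermMetric X) (f : X → ℂ) (s : ℂ)
    (μ : Measure X) : Prop where
  carried : μ {x | f x ≠ s ∨ x ∈ Crit f} = 0
  area : ∀ (U : Set ℂ) (φ : ℂ → X), IsParam f s U φ → ∀ A ⊆ U, MeasurableSet A →
    μ (φ '' A) = ∫⁻ z in A, ENNReal.ofReal (g.normSq (φ z) (vel φ z))

/-- A vector which spans the tangent line `ker df_x` of the fibre through the regular point `x`. -/
noncomputable def tanVec (f : X → ℂ) (x : X) : TangentSpace 𝓘(ℂ, ℂ × ℂ) x :=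
  ((-(mfderiv 𝓘(ℂ, ℂ × ℂ) 𝓘(ℂ, ℂ) f x ((0 : ℂ), (1 : ℂ)) : ℂ),
    (mfderiv 𝓘(ℂ, ℂ × ℂ) 𝓘(ℂ, ℂ) f x ((1 : ℂ), (0 : ℂ)) : ℂ)) : ℂ × ℂ)

/-- The real derivative of a complex function on `X` in the direction of a tangent vector. -/
noncomputable def dR (u : X → ℂ) (x : X) (v : TangentSpace 𝓘(ℂ, ℂ × ℂ) x) : ℂ :=
  mfderiv 𝓘(ℝ, ℂ × ℂ) 𝓘(ℝ, ℂ) u x (v : ℂ × ℂ)

/-- `|∂̄u|²` at the point `x` of the fibre through `x`, in the metric induced by `g`. With
`ν = tanVec f x`, `∂̄u (ν) = (du(ν) + i du(iν)) / 2` and `|∂̄u|² = 2 |∂̄u(ν)|² / g(ν, ν)`. -/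
noncomputable def dbarSq (g : HermMetric X) (f : X → ℂ) (u : X → ℂ) (x : X) : ℝ :=
  2 * ‖(dR u x (tanVec f x) + Complex.I * dR u x (Complex.I • tanVec f x)) / 2‖ ^ 2
    / g.normSq x (tanVec f x)

/-- The test functions: smooth complex functions on `X` with compact support in the complement of
the critical points of `f`. Their restrictions to a smooth compact fibre `X_s` are all smooth
functions on `X_s`; their restrictions to a singular fibre are the smooth functions with compact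
support in the regular part of the fibre. -/
def IsTest (f : X → ℂ) (u : X → ℂ) : Prop :=
  ContMDiff 𝓘(ℝ, ℂ × ℂ) 𝓘(ℝ, ℂ) ∞ u ∧ HasCompactSupport u ∧ Disjoint (tsupport u) (Crit f)

/-- The `k`-th eigenvalue (`k = 0, 1, 2, …`, counted with multiplicity) of `□ = ∂̄*∂̄` on the fibre
with area measure `μ`, given by the min-max formula over the `(k+1)`-dimensional spaces of test
functions. -/
noncomputable def lam [MeasurableSpace X] (g : HermMetric X) (f : X → ℂ) (μ : Measure X)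
    (k : ℕ) : ℝ :=
  sInf {Λ : ℝ | ∃ V : Submodule ℂ (X → ℂ), (∀ u ∈ V, IsTest f u) ∧
    Module.finrank ℂ V = k + 1 ∧ (∀ u ∈ V, ∫ x, ‖u x‖ ^ 2 ∂μ = 0 → u = 0) ∧
    ∀ u ∈ V, ∫ x, dbarSq g f u x ∂μ ≤ Λ * ∫ x, ‖u x‖ ^ 2 ∂μ}

end DDS
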