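import Pool.Agent.Work.MP_dd1e4a_gt.BoxA

/-! # BoxEx: existence of boxes

* `exists_box`: take the chart `e₀ = chartAt C2 q` and the map `G z = (h (e₀.symm z), f (e₀.symm z))`
  near `z₀ = e₀ q`; it is complex analytic (`ContDiffAt ℂ ω`), its derivative at `z₀` is injective
  (hypothesis `hind`), hence bijective. Inverse function theorem
  (`ContDiffAt.toOpenPartialHomeomorph`, `ContDiffAt.to_localInverse`); shrink the source to an
  open set where `G` and its local inverse are analytic (analyticity is an open condition) and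
  which is contained in `O`; `b = e₀ ≫ₕ G`.
* `exists_box'`: apply it with one of the two coordinates of `e₀` as `h`: `df_q ≠ 0` is not a
  multiple of both coordinate forms.
* `isClosed_crit`: `exists_box'` and `IsBox.disjoint_crit`. -/

open scoped Manifold ContDiff Topology
open MeasureTheory Set

namespace DD

variable {X : Type} [TopologicalSpace X] [ChartedSpace C2 X] [IsManifold 𝓘(ℂ, C2) ω X]
  {f : X → ℂ} (hf : ContMDiff 𝓘(ℂ, C2) 𝓘(ℂ, ℂ) ω f)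

include hf

theorem boxEx_aux (e : OpenPartialHomeomorph X C2)
    (he : ContMDiffOn 𝓘(ℂ, C2) 𝓘(ℂ, C2) ω e e.source)
    (he' : ContMDiffOn 𝓘(ℂ, C2) 𝓘(ℂ, C2) ω e.symm e.target) {z₀ : C2} (hz₀ : z₀ ∈ e.target)
    {O : Set X} (hO : IsOpen O) (hq : e.symm z₀ ∈ O) {h : X → ℂ}
    (hh : ContMDiffOn 𝓘(ℂ, C2) 𝓘(ℂ, ℂ) ω h O)
    (hind : ∀ v : TangentSpace 𝓘(ℂ, C2) (e.symm z₀), dC h (e.symm z₀) v = 0 →
      dC f (e.symm z₀) v = 0 → v = 0) :
    ∃ b : OpenPartialHomeomorph X C2, IsBox f b ∧ e.symm z₀ ∈ b.source ∧ b.source ⊆ O ∧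
      ∀ x ∈ b.source, (b x).1 = h x := by
  set G : C2 → C2 := fun z => (h (e.symm z), f (e.symm z)) with hGdef
  have hes : ContMDiffAt 𝓘(ℂ, C2) 𝓘(ℂ, C2) ω e.symm z₀ :=
    he'.contMDiffAt (e.open_target.mem_nhds hz₀)
  have hhq : ContMDiffAt 𝓘(ℂ, C2) 𝓘(ℂ, ℂ) ω h (e.symm z₀) := hh.contMDiffAt (hO.mem_nhds hq)
  have hG1 : ContMDiffAt 𝓘(ℂ, C2) 𝓘(ℂ, ℂ) ω (fun z => h (e.symm z)) z₀ := hhq.comp z₀ hes
  have hG2 : ContMDiffAt 𝓘(ℂ, C2) 𝓘(ℂ, ℂ) ω (fun z => f (e.symm z)) z₀ :=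
    (hf.contMDiffAt).comp z₀ hes
  have hG : ContDiffAt ℂ ω G z₀ := (hG1.contDiffAt).prodMk (hG2.contDiffAt)
  have hd1 : DifferentiableAt ℂ (fun z => h (e.symm z)) z₀ :=
    hG1.contDiffAt.differentiableAt (by simp)
  have hd2 : DifferentiableAt ℂ (fun z => f (e.symm z)) z₀ :=
    hG2.contDiffAt.differentiableAt (by simp)
  have hmes := metA_mds e he' hz₀
  have hmh : MDifferentiableAt 𝓘(ℂ, C2) 𝓘(ℂ, ℂ) h (e.symm z₀) := hhq.mdifferentiableAt (by simp)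
  have hmf : MDifferentiableAt 𝓘(ℂ, C2) 𝓘(ℂ, ℂ) f (e.symm z₀) :=
    (hf.contMDiffAt).mdifferentiableAt (by simp)
  have k1 : ∀ w : C2, fderiv ℂ (fun z => h (e.symm z)) z₀ w =
      dC h (e.symm z₀) (mfderiv 𝓘(ℂ, C2) 𝓘(ℂ, C2) e.symm z₀ w) := by
    intro w
    have h1 := (hmh.hasMFDerivAt.comp z₀ hmes.hasMFDerivAt).mfderiv
    rw [mfderiv_eq_fderiv] at h1
    exact congrArg (fun L : C2 →L[ℂ] ℂ => L w) h1
  have k2 : ∀ w : C2, fderiv ℂ (fun z => f (e.symm z)) z₀ w =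
      dC f (e.symm z₀) (mfderiv 𝓘(ℂ, C2) 𝓘(ℂ, C2) e.symm z₀ w) := by
    intro w
    have h1 := (hmf.hasMFDerivAt.comp z₀ hmes.hasMFDerivAt).mfderiv
    rw [mfderiv_eq_fderiv] at h1
    exact congrArg (fun L : C2 →L[ℂ] ℂ => L w) h1
  set L : C2 →L[ℂ] C2 := (fderiv ℂ (fun z => h (e.symm z)) z₀).prod
    (fderiv ℂ (fun z => f (e.symm z)) z₀) with hL
  have hGd : HasFDerivAt G L z₀ := hd1.hasFDerivAt.prodMk hd2.hasFDerivAt
  have hker : LinearMap.ker (L : C2 →ₗ[ℂ] C2) = ⊥ := by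
    rw [LinearMap.ker_eq_bot']
    intro w hw
    have h1 : fderiv ℂ (fun z => h (e.symm z)) z₀ w = 0 := congrArg Prod.fst hw
    have h2 : fderiv ℂ (fun z => f (e.symm z)) z₀ w = 0 := congrArg Prod.snd hw
    rw [k1] at h1
    rw [k2] at h2
    have h3 := hind _ h1 h2
    exact mfderiv_symm_injective e he he' hz₀
      (h3.trans (map_zero (mfderiv 𝓘(ℂ, C2) 𝓘(ℂ, C2) e.symm z₀)).symm)
  set E : C2 ≃L[ℂ] C2 :=
    (LinearEquiv.ofInjectiveEndo (L : C2 →ₗ[ℂ] C2) (LinearMap.ker_eq_bot.mp hker)).toContinuousLinearEquiv with hE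
  have hEL : (E : C2 →L[ℂ] C2) = L := by
    ext <;> rfl
  have hGE : HasFDerivAt G (E : C2 →L[ℂ] C2) z₀ := by rw [hEL]; exact hGd
  have hω : (ω : WithTop ℕ∞) ≠ 0 := by simp
  set b₁ := hG.toOpenPartialHomeomorph G hGE hω with hb₁
  have hb₁s : z₀ ∈ b₁.source := hG.mem_toOpenPartialHomeomorph_source hGE hω
  have hb₁c : ∀ z, b₁ z = G z := fun z => rfl
  have hloc : ContDiffAt ℂ ω b₁.symm (G z₀) := hG.to_localInverse hGE hω
  obtain ⟨T, hTs, hT, hGT⟩ := eventually_nhds_iff.mp (hloc.eventually (by simp))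
  set b' := e.trans b₁ with hb'
  have hb's : b'.source = e.source ∩ e ⁻¹' b₁.source := OpenPartialHomeomorph.trans_source e b₁
  have hb'c : ∀ x, b' x = G (e x) := fun x => rfl
  have hW : IsOpen (O ∩ (b'.source ∩ b' ⁻¹' T)) := hO.inter (b'.isOpen_inter_preimage hT)
  set b := b'.restrOpen _ hW with hb
  have hbs : b.source = b'.source ∩ (O ∩ (b'.source ∩ b' ⁻¹' T)) := b'.restrOpen_source _ hW
  have hbc : ∀ x ∈ b.source, b x = (h x, f x) := by
    intro x hx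
    rw [hbs, hb's] at hx
    change G (e x) = (h x, f x)
    simp only [hGdef, e.left_inv hx.1.1]
  refine ⟨b, ⟨?_, ?_, ?_⟩, ?_, ?_, ?_⟩
  · have h1 : ContMDiffOn 𝓘(ℂ, C2) 𝓘(ℂ, C2) ω (fun x => (h x, f x)) b.source := by
      refine ContMDiffOn.prodMk_space (hh.mono ?_) hf.contMDiffOn
      intro x hx
      rw [hbs] at hx
      exact hx.2.1
    exact h1.congr hbc
  · intro y hy
    have hx := b.map_target hy
    have hbr := b.right_inv hy
    rw [hbs] at hx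
    have hyT : y ∈ T := by
      have h1 : b' (b.symm y) ∈ T := hx.2.2.2
      have h2 : b' (b.symm y) = y := hbr
      rwa [h2] at h1
    have hs1 : ContDiffAt ℂ ω b₁.symm y := hTs y hyT
    have hyt : y ∈ b'.target := by
      have h1 : b' (b.symm y) ∈ b'.target := b'.map_source hx.1
      have h2 : b' (b.symm y) = y := hbr
      rwa [h2] at h1
    have hyt' : b₁.symm y ∈ e.target := by
      rw [hb', OpenPartialHomeomorph.trans_target] at hyt
      exact hyt.2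
    have h3 : ContMDiffAt 𝓘(ℂ, C2) 𝓘(ℂ, C2) ω e.symm (b₁.symm y) :=
      he'.contMDiffAt (e.open_target.mem_nhds hyt')
    have h4 : ContMDiffAt 𝓘(ℂ, C2) 𝓘(ℂ, C2) ω (fun y => e.symm (b₁.symm y)) y :=
      h3.comp y hs1.contMDiffAt
    exact h4.contMDiffWithinAt
  · intro x hx
    rw [hbc x hx]
  · rw [hbs, hb's]
    have h1 : e (e.symm z₀) = z₀ := e.right_inv hz₀
    have h2 : e.symm z₀ ∈ e.source ∩ e ⁻¹' b₁.source := by
      refine ⟨e.map_target hz₀, ?_⟩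
      change e (e.symm z₀) ∈ b₁.source
      rw [h1]
      exact hb₁s
    refine ⟨h2, hq, h2, ?_⟩
    change G (e (e.symm z₀)) ∈ T
    rw [h1]
    exact hGT
  · intro x hx
    rw [hbs] at hx
    exact hx.2.1
  · intro x hx
    rw [hbc x hx]

theorem exists_box {q : X} {O : Set X} (hO : IsOpen O) (hq : q ∈ O) {h : X → ℂ}
    (hh : ContMDiffOn 𝓘(ℂ, C2) 𝓘(ℂ, ℂ) ω h O)
    (hind : ∀ v : TangentSpace 𝓘(ℂ, C2) q, dC h q v = 0 → dC f q v = 0 → v = 0) :
    ∃ b : OpenPartialHomeomorph X C2, IsBox f b ∧ q ∈ b.source ∧ b.source ⊆ O ∧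
      ∀ x ∈ b.source, (b x).1 = h x := by
  have hl := (chartAt C2 q).left_inv (mem_chart_source C2 q)
  have key : ∀ q', q' = q → (∀ v : TangentSpace 𝓘(ℂ, C2) q', dC h q' v = 0 →
      dC f q' v = 0 → v = 0) := by
    rintro q' rfl
    exact hind
  have h1 := boxEx_aux hf (chartAt C2 q) contMDiffOn_chart contMDiffOn_chart_symm
    ((chartAt C2 q).map_source (mem_chart_source C2 q)) hO (by rw [hl]; exact hq) hh (key _ hl)
  rwa [hl] at h1

theorem exists_box' {q : X} {O : Set X} (hO : IsOpen O) (hq : q ∈ O) (hc : q ∉ Crit f) :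
    ∃ b : OpenPartialHomeomorph X C2, IsBox f b ∧ q ∈ b.source ∧ b.source ⊆ O := by
  set e := chartAt C2 q with he
  have hes : ContMDiffOn 𝓘(ℂ, C2) 𝓘(ℂ, C2) ω e e.source := contMDiffOn_chart
  have hes' : ContMDiffOn 𝓘(ℂ, C2) 𝓘(ℂ, C2) ω e.symm e.target := contMDiffOn_chart_symm
  have hqs : q ∈ e.source := mem_chart_source C2 q
  have hO' : IsOpen (O ∩ e.source) := hO.inter e.open_source
  set L' : C2 →L[ℂ] ℂ := ContinuousLinearMap.comp
    (show C2 →L[ℂ] ℂ from mfderiv 𝓘(ℂ, C2) 𝓘(ℂ, ℂ) f q)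
    (show C2 →L[ℂ] C2 from mfderiv 𝓘(ℂ, C2) 𝓘(ℂ, C2) e.symm (e q)) with hL'
  have hLv : ∀ v : TangentSpace 𝓘(ℂ, C2) q,
      L' (show C2 from mfderiv 𝓘(ℂ, C2) 𝓘(ℂ, C2) e q v) = dC f q v := by
    intro v
    exact congrArg (fun v' : C2 => (mfderiv 𝓘(ℂ, C2) 𝓘(ℂ, ℂ) f q v' : ℂ))
      (metA_left e hes hes' hqs v)
  have hL0 : L' ≠ 0 := by
    intro h0
    apply hc
    change mfderiv 𝓘(ℂ, C2) 𝓘(ℂ, ℂ) f q = 0
    apply ContinuousLinearMap.ext
    intro v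
    have h1 := hLv v
    rw [h0] at h1
    exact h1.symm
  have hv0 : ∀ v : TangentSpace 𝓘(ℂ, C2) q,
      (show C2 from mfderiv 𝓘(ℂ, C2) 𝓘(ℂ, C2) e q v) = 0 → v = 0 := by
    intro v hv
    have h1 := metA_left e hes hes' hqs v
    have h2 : (mfderiv 𝓘(ℂ, C2) 𝓘(ℂ, C2) e.symm (e q)
      (mfderiv 𝓘(ℂ, C2) 𝓘(ℂ, C2) e q v) : C2) = 0 :=
      (congrArg (fun v' : C2 => (mfderiv 𝓘(ℂ, C2) 𝓘(ℂ, C2) e.symm (e q) v' : C2)) hv).trans
        (map_zero (mfderiv 𝓘(ℂ, C2) 𝓘(ℂ, C2) e.symm (e q)))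
    exact h1.symm.trans h2
  rcases tanA_ne_pair L' hL0 with h10 | h01
  · obtain ⟨b, h1, h2, h3, -⟩ := exists_box hf hO' ⟨hq, hqs⟩ (h := fun x => (e x).2)
      ((ContinuousLinearMap.snd ℂ ℂ ℂ).contMDiff.comp_contMDiffOn (hes.mono inter_subset_right))
      (by
        intro v hv1 hv2
        apply hv0
        rw [metA_snd e hes hqs] at hv1
        have h4 := hLv v
        rw [hv2, tanA_lin] at h4
        rw [hv1, zero_mul, add_zero, mul_eq_zero] at h4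
        exact Prod.ext (h4.resolve_right h10) hv1)
    exact ⟨b, h1, h2, h3.trans inter_subset_left⟩
  · obtain ⟨b, h1, h2, h3, -⟩ := exists_box hf hO' ⟨hq, hqs⟩ (h := fun x => (e x).1)
      ((ContinuousLinearMap.fst ℂ ℂ ℂ).contMDiff.comp_contMDiffOn (hes.mono inter_subset_right))
      (by
        intro v hv1 hv2
        apply hv0
        rw [metA_fst e hes hqs] at hv1
        have h4 := hLv v
        rw [hv2, tanA_lin] at h4
        rw [hv1, zero_mul, zero_add, mul_eq_zero] at h4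
        exact Prod.ext hv1 (h4.resolve_right h01))
    exact ⟨b, h1, h2, h3.trans inter_subset_left⟩

theorem isClosed_crit : IsClosed (Crit f) := by
  rw [← isOpen_compl_iff, isOpen_iff_mem_nhds]
  intro x hx
  obtain ⟨b, hb, hxb, -⟩ := exists_box' hf isOpen_univ (mem_univ x) hx
  filter_upwards [b.open_source.mem_nhds hxb] with y hy
  exact Set.disjoint_left.mp hb.disjoint_crit hy

end DD
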