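import Pool.Agent.Work.MP_dd1e4a_gt.MetA

/-! # MetB: the metric in holomorphic coordinates is smooth -/

open scoped Manifold ContDiff Topology
open MeasureTheory Set

namespace DD

variable {X : Type} [TopologicalSpace X] [ChartedSpace C2 X]
  [IsManifold 𝓘(ℂ, C2) ω X] (g : HermMetric X) (e : OpenPartialHomeomorph X C2)
  (he : ContMDiffOn 𝓘(ℂ, C2) 𝓘(ℂ, C2) ω e e.source)
  (he' : ContMDiffOn 𝓘(ℂ, C2) 𝓘(ℂ, C2) ω e.symm e.target)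

omit [IsManifold 𝓘(ℂ, C2) ω X] in
theorem metB_add_right (x : X) (u v w : TangentSpace 𝓘(ℂ, C2) x) :
    g.inner x u (v + w) = g.inner x u v + g.inner x u w := by
  rw [g.conj_symm x (v + w) u, g.add_left, map_add, ← g.conj_symm, ← g.conj_symm]

omit [IsManifold 𝓘(ℂ, C2) ω X] in
theorem metB_expand (x : X) (v₁ v₂ : TangentSpace 𝓘(ℂ, C2) x) (a b : ℂ) :
    g.inner x (a • v₁ + b • v₂) (a • v₁ + b • v₂) =
      a * ((starRingEnd ℂ) a * g.inner x v₁ v₁ + (starRingEnd ℂ) b * g.inner x v₁ v₂) +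
      b * ((starRingEnd ℂ) a * g.inner x v₂ v₁ + (starRingEnd ℂ) b * g.inner x v₂ v₂) := by
  rw [g.add_left, g.smul_left, g.smul_left, metB_add_right, metB_add_right, tanA_smul_right,
    tanA_smul_right, tanA_smul_right, tanA_smul_right]

omit [IsManifold 𝓘(ℂ, C2) ω X] in
/-- the form in a frame. -/
theorem metB_frame (x : X) (L : C2 →L[ℂ] C2) (w : C2) :
    g.normSq x (L w) =
      (w.1 * ((starRingEnd ℂ) w.1 * g.inner x (L ((1 : ℂ), (0 : ℂ))) (L ((1 : ℂ), (0 : ℂ))) +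
        (starRingEnd ℂ) w.2 * g.inner x (L ((1 : ℂ), (0 : ℂ))) (L ((0 : ℂ), (1 : ℂ)))) +
      w.2 * ((starRingEnd ℂ) w.1 * g.inner x (L ((0 : ℂ), (1 : ℂ))) (L ((1 : ℂ), (0 : ℂ))) +
        (starRingEnd ℂ) w.2 * g.inner x (L ((0 : ℂ), (1 : ℂ))) (L ((0 : ℂ), (1 : ℂ))))).re := by
  have h : w = w.1 • (((1 : ℂ), (0 : ℂ)) : C2) + w.2 • (((0 : ℂ), (1 : ℂ)) : C2) := by
    ext <;> simp
  have h2 : L w = w.1 • L (((1 : ℂ), (0 : ℂ)) : C2) + w.2 • L (((0 : ℂ), (1 : ℂ)) : C2) := by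
    conv_lhs => rw [h]
    rw [map_add, map_smul, map_smul]
  have h3 := metB_expand g x (L ((1 : ℂ), (0 : ℂ))) (L ((0 : ℂ), (1 : ℂ))) w.1 w.2
  have h4 : g.inner x (L w) (L w) = g.inner x
      (w.1 • L (((1 : ℂ), (0 : ℂ)) : C2) + w.2 • L (((0 : ℂ), (1 : ℂ)) : C2))
      (w.1 • L (((1 : ℂ), (0 : ℂ)) : C2) + w.2 • L (((0 : ℂ), (1 : ℂ)) : C2)) := by
    rw [h2]
  exact congrArg Complex.re (h4.trans h3)

include he he'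

theorem smooth_metE : ContDiffOn ℝ ∞ (fun z : C2 × C2 => metE g e z.1 z.2) (e.target ×ˢ univ) := by
  rintro ⟨y₀, w₀⟩ ⟨hy₀, _⟩
  apply ContDiffAt.contDiffWithinAt
  simp only at hy₀
  set x₀ := e.symm y₀ with hx₀
  set e₀ := chartAt C2 x₀ with he₀
  have hatlas : e₀ ∈ atlas C2 X := chart_mem_atlas C2 x₀
  set τ : C2 → C2 := fun y => e₀ (e.symm y) with hτ
  have hx₀s : x₀ ∈ e₀.source := mem_chart_source C2 x₀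
  -- e.symm y in the source of e₀
  have hcs : ContinuousAt e.symm y₀ := e.symm.continuousAt hy₀
  have hev1 : ∀ᶠ y in 𝓝 y₀, y ∈ e.target := e.open_target.mem_nhds hy₀
  have hev2 : ∀ᶠ y in 𝓝 y₀, e.symm y ∈ e₀.source :=
    hcs.eventually_mem (e₀.open_source.mem_nhds hx₀s)
  have hchart : ContMDiffOn 𝓘(ℂ, C2) 𝓘(ℂ, C2) ω e₀ e₀.source := contMDiffOn_chart
  have hcharts : ContMDiffOn 𝓘(ℂ, C2) 𝓘(ℂ, C2) ω e₀.symm e₀.target := contMDiffOn_chart_symm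
  have hτa : AnalyticAt ℂ τ y₀ := by
    have h1 : ContMDiffAt 𝓘(ℂ, C2) 𝓘(ℂ, C2) ω e.symm y₀ :=
      (he' y₀ hy₀).contMDiffAt (e.open_target.mem_nhds hy₀)
    have h2 : ContMDiffAt 𝓘(ℂ, C2) 𝓘(ℂ, C2) ω e₀ x₀ :=
      (hchart x₀ hx₀s).contMDiffAt (e₀.open_source.mem_nhds hx₀s)
    have h3 : ContMDiffAt 𝓘(ℂ, C2) 𝓘(ℂ, C2) ω (e₀ ∘ e.symm) y₀ := h2.comp y₀ h1
    have h4 : ContDiffAt ℂ ω τ y₀ := contMDiffAt_iff_contDiffAt.1 h3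
    exact h4.analyticAt
  -- the formula
  have hform : ∀ᶠ z : C2 × C2 in 𝓝 (y₀, w₀), metE g e z.1 z.2 =
      ((fderiv ℂ τ z.1 z.2).1 * ((starRingEnd ℂ) (fderiv ℂ τ z.1 z.2).1 *
          g.inner (e₀.symm (τ z.1)) (mfderiv 𝓘(ℂ, C2) 𝓘(ℂ, C2) e₀.symm (τ z.1) ((1 : ℂ), (0 : ℂ)))
            (mfderiv 𝓘(ℂ, C2) 𝓘(ℂ, C2) e₀.symm (τ z.1) ((1 : ℂ), (0 : ℂ))) +
        (starRingEnd ℂ) (fderiv ℂ τ z.1 z.2).2 *
          g.inner (e₀.symm (τ z.1)) (mfderiv 𝓘(ℂ, C2) 𝓘(ℂ, C2) e₀.symm (τ z.1) ((1 : ℂ), (0 : ℂ)))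
            (mfderiv 𝓘(ℂ, C2) 𝓘(ℂ, C2) e₀.symm (τ z.1) ((0 : ℂ), (1 : ℂ)))) +
      (fderiv ℂ τ z.1 z.2).2 * ((starRingEnd ℂ) (fderiv ℂ τ z.1 z.2).1 *
          g.inner (e₀.symm (τ z.1)) (mfderiv 𝓘(ℂ, C2) 𝓘(ℂ, C2) e₀.symm (τ z.1) ((0 : ℂ), (1 : ℂ)))
            (mfderiv 𝓘(ℂ, C2) 𝓘(ℂ, C2) e₀.symm (τ z.1) ((1 : ℂ), (0 : ℂ))) +
        (starRingEnd ℂ) (fderiv ℂ τ z.1 z.2).2 *
          g.inner (e₀.symm (τ z.1)) (mfderiv 𝓘(ℂ, C2) 𝓘(ℂ, C2) e₀.symm (τ z.1) ((0 : ℂ), (1 : ℂ)))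
            (mfderiv 𝓘(ℂ, C2) 𝓘(ℂ, C2) e₀.symm (τ z.1) ((0 : ℂ), (1 : ℂ))))).re := by
    have hall : ∀ᶠ y in 𝓝 y₀, (y ∈ e.target ∧ e.symm y ∈ e₀.source) ∧ AnalyticAt ℂ τ y ∧
        ∀ᶠ y' in 𝓝 y, e.symm y' ∈ e₀.source :=
      (hev1.and hev2).and (hτa.eventually_analyticAt.and hev2.eventually_nhds)
    have hall2 : ∀ᶠ z : C2 × C2 in 𝓝 (y₀, w₀),
        (z.1 ∈ e.target ∧ e.symm z.1 ∈ e₀.source) ∧ AnalyticAt ℂ τ z.1 ∧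
        ∀ᶠ y' in 𝓝 z.1, e.symm y' ∈ e₀.source :=
      (continuous_fst.continuousAt (x := (y₀, w₀))).eventually hall
    filter_upwards [hall2] with z hz
    obtain ⟨⟨hz1, hz2⟩, hz3, hz4⟩ := hz
    set y := z.1 with hy
    set w := z.2 with hw
    have h0 : e₀.symm (τ y) = e.symm y := e₀.left_inv hz2
    have ht : τ y ∈ e₀.target := e₀.map_source hz2
    -- the chain rule
    have h1 : HasMFDerivAt 𝓘(ℂ, C2) 𝓘(ℂ, C2) e₀.symm (τ y)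
        (mfderiv 𝓘(ℂ, C2) 𝓘(ℂ, C2) e₀.symm (τ y)) :=
      (((hcharts _ ht).contMDiffAt (e₀.open_target.mem_nhds ht)).mdifferentiableAt
        (by simp)).hasMFDerivAt
    have h2 : HasMFDerivAt 𝓘(ℂ, C2) 𝓘(ℂ, C2) τ y (fderiv ℂ τ y) :=
      hz3.differentiableAt.hasFDerivAt.hasMFDerivAt
    have h3 := h1.comp y h2
    have h4 : e.symm =ᶠ[𝓝 y] e₀.symm ∘ τ := by
      filter_upwards [hz4] with y' hy'
      exact (e₀.left_inv hy').symm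
    have h5 := (h3.congr_of_eventuallyEq h4).mfderiv
    have h6 : (mfderiv 𝓘(ℂ, C2) 𝓘(ℂ, C2) e.symm y w : C2) =
        (mfderiv 𝓘(ℂ, C2) 𝓘(ℂ, C2) e₀.symm (τ y) (fderiv ℂ τ y w) : C2) :=
      congrArg (fun L : C2 →L[ℂ] C2 => L w) h5
    have h7 : ∀ x' : X, x' = e.symm y → ∀ v v' : C2, v = v' →
        g.normSq (e.symm y) v = g.normSq x' v' := by
      rintro x' rfl v v' rfl
      rfl
    have h8 := h7 _ h0 _ _ h6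
    have h9 := metB_frame g (e₀.symm (τ y)) (mfderiv 𝓘(ℂ, C2) 𝓘(ℂ, C2) e₀.symm (τ y))
      (fderiv ℂ τ y w)
    exact h8.trans h9
  refine ContDiffAt.congr_of_eventuallyEq ?_ hform
  -- smoothness
  have hH : ∀ u v : C2, ContDiffAt ℝ ∞ (fun z : C2 × C2 => g.inner (e₀.symm (τ z.1))
      (mfderiv 𝓘(ℂ, C2) 𝓘(ℂ, C2) e₀.symm (τ z.1) u)
      (mfderiv 𝓘(ℂ, C2) 𝓘(ℂ, C2) e₀.symm (τ z.1) v)) (y₀, w₀) := by
    intro u v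
    have h1 : ContDiffAt ℝ ∞ (fun y : C2 => g.inner (e₀.symm y)
        (mfderiv 𝓘(ℂ, C2) 𝓘(ℂ, C2) e₀.symm y u)
        (mfderiv 𝓘(ℂ, C2) 𝓘(ℂ, C2) e₀.symm y v)) (τ y₀) := by
      have ht : τ y₀ ∈ e₀.target := e₀.map_source hx₀s
      exact (g.smooth e₀ hatlas u v).contDiffAt (e₀.open_target.mem_nhds ht)
    have h2 : ContDiffAt ℝ ∞ τ y₀ :=
      (hτa.contDiffAt (n := ω)).restrict_scalars ℝ |>.of_le le_top
    have h3 : ContDiffAt ℝ ∞ (fun z : C2 × C2 => τ z.1) (y₀, w₀) :=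
      ContDiffAt.comp (g := τ) (f := fun z : C2 × C2 => z.1) (y₀, w₀) h2 contDiffAt_fst
    exact ContDiffAt.comp (g := fun y : C2 => g.inner (e₀.symm y)
        (mfderiv 𝓘(ℂ, C2) 𝓘(ℂ, C2) e₀.symm y u)
        (mfderiv 𝓘(ℂ, C2) 𝓘(ℂ, C2) e₀.symm y v)) (f := fun z : C2 × C2 => τ z.1) (y₀, w₀) h1 h3
  have hD : ContDiffAt ℝ ∞ (fun z : C2 × C2 => fderiv ℂ τ z.1 z.2) (y₀, w₀) := by
    have h1 : ContDiffAt ℂ ω (fderiv ℂ τ) y₀ := hτa.fderiv.contDiffAt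
    have h2 : ContDiffAt ℂ ω (fun z : C2 × C2 => fderiv ℂ τ z.1) (y₀, w₀) :=
      ContDiffAt.comp (g := fderiv ℂ τ) (f := fun z : C2 × C2 => z.1) (y₀, w₀) h1 contDiffAt_fst
    have h3 : ContDiffAt ℂ ω (fun z : C2 × C2 => fderiv ℂ τ z.1 z.2) (y₀, w₀) :=
      h2.clm_apply contDiffAt_snd
    exact (h3.restrict_scalars ℝ).of_le le_top
  have hD1 : ContDiffAt ℝ ∞ (fun z : C2 × C2 => (fderiv ℂ τ z.1 z.2).1) (y₀, w₀) := hD.fst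
  have hD2 : ContDiffAt ℝ ∞ (fun z : C2 × C2 => (fderiv ℂ τ z.1 z.2).2) (y₀, w₀) := hD.snd
  have hc1 : ContDiffAt ℝ ∞ (fun z : C2 × C2 => (starRingEnd ℂ) (fderiv ℂ τ z.1 z.2).1)
      (y₀, w₀) := Complex.conjCLE.contDiff.contDiffAt.comp (y₀, w₀) hD1
  have hc2 : ContDiffAt ℝ ∞ (fun z : C2 × C2 => (starRingEnd ℂ) (fderiv ℂ τ z.1 z.2).2)
      (y₀, w₀) := Complex.conjCLE.contDiff.contDiffAt.comp (y₀, w₀) hD2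
  have hfin := (hD1.mul ((hc1.mul (hH ((1 : ℂ), (0 : ℂ)) ((1 : ℂ), (0 : ℂ)))).add
      (hc2.mul (hH ((1 : ℂ), (0 : ℂ)) ((0 : ℂ), (1 : ℂ)))))).add
    (hD2.mul ((hc1.mul (hH ((0 : ℂ), (1 : ℂ)) ((1 : ℂ), (0 : ℂ)))).add
      (hc2.mul (hH ((0 : ℂ), (1 : ℂ)) ((0 : ℂ), (1 : ℂ))))))
  exact Complex.reCLM.contDiff.contDiffAt.comp (y₀, w₀) hfin

end DD
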