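import Pool.Agent.Work.MP_dd1e4a_gt.TanA

/-! # TanB: densities in a parametrization

`φ'(z) = c • ν`, `ν = tanVec f (φ z)`, `c ≠ 0` (`IsParam.vel_eq`). All density formulas follow from
this, the chain rule `fderiv_comp_curve` and the fact that for a real linear map `L : ℂ → F` (here
`L w = dR u x (w • ν)`) and `c : ℂ`
`‖L c‖² + ‖L (i c)‖² = |c|² (‖L 1‖² + ‖L i‖²)` (`F` an inner product space); for `F = ℂ`:
`‖L c + i L(ic)‖ = |c| ‖L 1 + i L i‖`,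
`L c M(ic) - L(ic) M c = |c|² (L 1 M i - L i M 1)`, `L c M c + L(ic) M(ic) = |c|² (L 1 M 1 + L i M i)`
(expand `c = a + b i`; `dR_lin`). -/

open scoped Manifold ContDiff Topology
open MeasureTheory Set

namespace DD

theorem tanB_inner {F : Type} [NormedAddCommGroup F] [InnerProductSpace ℝ F] (A B : F) (a b : ℝ) :
    ‖a • A + b • B‖ ^ 2 + ‖(-b) • A + a • B‖ ^ 2 = (a ^ 2 + b ^ 2) * (‖A‖ ^ 2 + ‖B‖ ^ 2) := by
  simp only [norm_add_sq_real, norm_smul, inner_smul_left, inner_smul_right, mul_pow,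
    Real.norm_eq_abs, sq_abs]
  simp
  ring

theorem tanB_normSq (c : ℂ) : ‖c‖ ^ 2 = c.re ^ 2 + c.im ^ 2 := by
  rw [← Complex.normSq_eq_norm_sq, Complex.normSq_apply]
  ring

variable {X : Type} [TopologicalSpace X] [ChartedSpace C2 X] {f : X → ℂ}

theorem tanB_dR {F : Type} [NormedAddCommGroup F] [NormedSpace ℝ F] (u : X → F) (x : X)
    (v : TangentSpace 𝓘(ℂ, C2) x) (c : ℂ) :
    dR u x (c • v) = c.re • dR u x v + c.im • dR u x (Complex.I • v) := by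
  rw [← dR_lin]
  congr 1
  rw [smul_smul, ← add_smul, Complex.re_add_im]

theorem tanB_dR_I {F : Type} [NormedAddCommGroup F] [NormedSpace ℝ F] (u : X → F) (x : X)
    (v : TangentSpace 𝓘(ℂ, C2) x) (c : ℂ) :
    dR u x (Complex.I • c • v) = (-c.im) • dR u x v + c.re • dR u x (Complex.I • v) := by
  rw [smul_smul, tanB_dR]
  simp

variable
  [IsManifold 𝓘(ℂ, C2) ω X] (g : HermMetric X) (hf : ContMDiff 𝓘(ℂ, C2) 𝓘(ℂ, ℂ) ω f)
  {s : ℂ} {U : Set ℂ} {φ : ℂ → X} (hφ : IsParam f s U φ) {z : ℂ} (hz : z ∈ U)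

include hf hφ hz

theorem IsParam.normSq_pos : 0 < g.normSq (φ z) (vel φ z) := DD.normSq_pos g _ (hφ.imm z hz)

theorem tanB_data : ∃ c : ℂ, c ≠ 0 ∧ 0 < g.normSq (φ z) (tanVec f (φ z)) ∧
    g.normSq (φ z) (vel φ z) = (c.re ^ 2 + c.im ^ 2) * g.normSq (φ z) (tanVec f (φ z)) ∧
    (∀ {F : Type} [NormedAddCommGroup F] [NormedSpace ℝ F] {u : X → F},
      MDifferentiableAt 𝓘(ℝ, C2) 𝓘(ℝ, F) u (φ z) →
      fderiv ℝ (fun w => u (φ w)) z 1 = c.re • dR u (φ z) (tanVec f (φ z)) +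
        c.im • dR u (φ z) (Complex.I • tanVec f (φ z)) ∧
      fderiv ℝ (fun w => u (φ w)) z Complex.I = (-c.im) • dR u (φ z) (tanVec f (φ z)) +
        c.re • dR u (φ z) (Complex.I • tanVec f (φ z))) := by
  obtain ⟨c, hc, hvel⟩ := hφ.vel_eq hf hz
  refine ⟨c, hc, DD.normSq_pos g _ (tanVec_ne (hφ.reg z hz)), ?_, ?_⟩
  · rw [hvel, normSq_smul, tanB_normSq]
  · intro F _ _ u hu
    rw [fderiv_comp_curve hu (tanA_mdiff hφ hz), fderiv_comp_curve hu (tanA_mdiff hφ hz), hvel,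
      one_smul, tanB_dR, tanB_dR_I]
    exact ⟨rfl, rfl⟩

theorem IsParam.gradSq_eq {F : Type} [NormedAddCommGroup F] [InnerProductSpace ℝ F] {u : X → F}
    (hu : MDifferentiableAt 𝓘(ℝ, C2) 𝓘(ℝ, F) u (φ z)) :
    gradSq g f u (φ z) * g.normSq (φ z) (vel φ z) =
      ‖fderiv ℝ (fun w => u (φ w)) z 1‖ ^ 2 + ‖fderiv ℝ (fun w => u (φ w)) z Complex.I‖ ^ 2 := by
  obtain ⟨c, hc, hn, hv, hu'⟩ := tanB_data g hf hφ hz
  obtain ⟨h1, h2⟩ := hu' hu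
  rw [h1, h2, tanB_inner, hv, gradSq]
  field_simp

theorem IsParam.dbarSq_eq {u : X → ℂ} (hu : MDifferentiableAt 𝓘(ℝ, C2) 𝓘(ℝ, ℂ) u (φ z)) :
    dbarSq g f u (φ z) * g.normSq (φ z) (vel φ z) =
      ‖fderiv ℝ (fun w => u (φ w)) z 1 +
        Complex.I * fderiv ℝ (fun w => u (φ w)) z Complex.I‖ ^ 2 / 2 := by
  obtain ⟨c, hc, hn, hv, hu'⟩ := tanB_data g hf hφ hz
  obtain ⟨h1, h2⟩ := hu' hu
  rw [h1, h2, hv, dbarSq]
  set A := dR u (φ z) (tanVec f (φ z))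
  set B := dR u (φ z) (Complex.I • tanVec f (φ z))
  rw [tanB_normSq, tanB_normSq]
  simp
  field_simp
  ring

theorem IsParam.gradDot_eq {u v : X → ℝ} (hu : MDifferentiableAt 𝓘(ℝ, C2) 𝓘(ℝ, ℝ) u (φ z))
    (hv : MDifferentiableAt 𝓘(ℝ, C2) 𝓘(ℝ, ℝ) v (φ z)) :
    gradDot g f u v (φ z) * g.normSq (φ z) (vel φ z) =
      fderiv ℝ (fun w => u (φ w)) z 1 * fderiv ℝ (fun w => v (φ w)) z 1 +
      fderiv ℝ (fun w => u (φ w)) z Complex.I * fderiv ℝ (fun w => v (φ w)) z Complex.I := by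
  obtain ⟨c, hc, hn, hvv, hu'⟩ := tanB_data g hf hφ hz
  obtain ⟨h1, h2⟩ := hu' hu
  obtain ⟨h3, h4⟩ := hu' hv
  rw [h1, h2, h3, h4, hvv, gradDot]
  simp only [smul_eq_mul]
  field_simp
  ring

theorem IsParam.wedge_eq {u v : X → ℝ} (hu : MDifferentiableAt 𝓘(ℝ, C2) 𝓘(ℝ, ℝ) u (φ z))
    (hv : MDifferentiableAt 𝓘(ℝ, C2) 𝓘(ℝ, ℝ) v (φ z)) :
    wedge g f u v (φ z) * g.normSq (φ z) (vel φ z) =
      fderiv ℝ (fun w => u (φ w)) z 1 * fderiv ℝ (fun w => v (φ w)) z Complex.I -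
      fderiv ℝ (fun w => u (φ w)) z Complex.I * fderiv ℝ (fun w => v (φ w)) z 1 := by
  obtain ⟨c, hc, hn, hvv, hu'⟩ := tanB_data g hf hφ hz
  obtain ⟨h1, h2⟩ := hu' hu
  obtain ⟨h3, h4⟩ := hu' hv
  rw [h1, h2, h3, h4, hvv, wedge]
  simp only [smul_eq_mul]
  field_simp
  ring

theorem IsParam.coSq_eq {h : X → ℂ} (hh : MDifferentiableAt 𝓘(ℂ, C2) 𝓘(ℂ, ℂ) h (φ z)) :
    coSq g f h (φ z) * g.normSq (φ z) (vel φ z) = ‖deriv (fun w => h (φ w)) z‖ ^ 2 := by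
  obtain ⟨c, hc, hvel⟩ := hφ.vel_eq hf hz
  have hn := DD.normSq_pos g _ (tanVec_ne (hφ.reg z hz))
  have h1 : deriv (fun w => h (φ w)) z = c * dC h (φ z) (tanVec f (φ z)) := by
    rw [deriv_comp_curve hh (tanA_mdiff hφ hz), hvel]
    exact map_smul (mfderiv 𝓘(ℂ, C2) 𝓘(ℂ, ℂ) h (φ z)) c (tanVec f (φ z))
  rw [h1, hvel, normSq_smul, norm_mul, mul_pow, coSq]
  field_simp

end DD
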