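import Pool.Agent.Work.MP_dd1e4a_gt.BoxB
import Pool.Agent.Work.MP_dd1e4a_gt.BoxEx
import Pool.Agent.Work.MP_dd1e4a_gt.MetB
import Pool.Agent.Work.MP_dd1e4a_gt.TanB

/-! # AreaA: integrals over the image of a parametrization and over a box

* `measurableSet_image`: `φ` is continuous and injective on the Borel set `A` of the Polish space
  `ℂ`, `X` is second countable Hausdorff: `MeasurableSet.image_of_continuousOn_injOn`.
* `lintegral_image`: for indicator functions this is `IsFibreArea.area` (applied to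
  `A ∩ φ⁻¹' B`), then simple functions and monotone limits; or: the measures
  `μ.restrict (φ '' A)` and `Measure.map φ ((volume.restrict A).withDensity ..)` agree.
* `lintegral_box`: `φ = slice b s`, `IsBox.image_slice`, and `μ` does not charge `{f ≠ s}`. -/

open scoped Manifold ContDiff Topology
open MeasureTheory Set

namespace DD

variable {X : Type} [TopologicalSpace X] [T2Space X] [SecondCountableTopology X]
  [ChartedSpace C2 X] [IsManifold 𝓘(ℂ, C2) ω X] [MeasurableSpace X] [BorelSpace X]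
  {g : HermMetric X} {f : X → ℂ} {s : ℂ} {μ : Measure X}

omit [T2Space X] [SecondCountableTopology X] [MeasurableSpace X] [BorelSpace X] in
/-- the density of a parametrization is continuous. -/
theorem areaA_cont (g : HermMetric X) {U : Set ℂ} {φ : ℂ → X} (hφ : IsParam f s U φ) :
    ContinuousOn (fun z => g.normSq (φ z) (vel φ z)) U := by
  intro z₀ hz₀
  let e : OpenPartialHomeomorph X C2 := chartAt C2 (φ z₀)
  have he : ContMDiffOn 𝓘(ℂ, C2) 𝓘(ℂ, C2) ω e e.source := contMDiffOn_chart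
  have he' : ContMDiffOn 𝓘(ℂ, C2) 𝓘(ℂ, C2) ω e.symm e.target := contMDiffOn_chart_symm
  have hφc : ContinuousOn φ U := hφ.holo.continuousOn
  obtain ⟨V, hVo, hV⟩ := (continuousOn_iff'.1 hφc) e.source e.open_source
  have hVU : IsOpen (V ∩ U) := hVo.inter hφ.isOpen
  have hVe : ∀ z ∈ V ∩ U, φ z ∈ e.source := by
    intro z hz
    rw [← hV] at hz
    exact hz.1
  have hz₀V : z₀ ∈ V ∩ U := by
    rw [← hV]
    exact ⟨mem_chart_source C2 (φ z₀), hz₀⟩
  -- `e ∘ φ` is analytic
  have hcomp : ContMDiffOn 𝓘(ℂ, ℂ) 𝓘(ℂ, C2) ω (fun z => e (φ z)) (V ∩ U) :=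
    he.comp (hφ.holo.mono inter_subset_right) hVe
  have hcd : ContDiffOn ℂ ω (fun z => e (φ z)) (V ∩ U) := contMDiffOn_iff_contDiffOn.1 hcomp
  have hdc : ContinuousOn (fun z => fderiv ℂ (fun z => e (φ z)) z 1) (V ∩ U) :=
    (hcd.continuousOn_fderiv_of_isOpen hVU (by simp)).clm_apply continuousOn_const
  have key : ∀ z ∈ V ∩ U, g.normSq (φ z) (vel φ z) =
      metE g e (e (φ z)) (fderiv ℂ (fun z => e (φ z)) z 1) := by
    intro z hz
    obtain ⟨w, hw1, hw2, -⟩ := mfderiv_symm_apply g e he he' (hVe z hz) (vel φ z)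
    have h1 := ((metA_md e he (hVe z hz)).hasMFDerivAt.comp z
      (tanA_mdiff hφ hz.2).hasMFDerivAt).mfderiv
    rw [mfderiv_eq_fderiv] at h1
    have h2 : fderiv ℂ (fun z => e (φ z)) z 1 = w := by
      rw [← hw1]
      exact congrArg (fun L : ℂ →L[ℂ] C2 => L 1) h1
    rw [hw2, h2]
  have hcont : ContinuousOn (fun z => metE g e (e (φ z)) (fderiv ℂ (fun z => e (φ z)) z 1))
      (V ∩ U) := by
    have h1 := (smooth_metE g e he he').continuousOn
    have h2 : ContinuousOn (fun z => ((e (φ z), fderiv ℂ (fun z => e (φ z)) z 1) : C2 × C2))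
        (V ∩ U) := hcd.continuousOn.prodMk hdc
    exact h1.comp h2 (fun z hz => ⟨e.map_source (hVe z hz), mem_univ _⟩)
  have h3 : ContinuousOn (fun z => g.normSq (φ z) (vel φ z)) (V ∩ U) := hcont.congr key
  exact (h3.continuousAt (hVU.mem_nhds hz₀V)).continuousWithinAt

theorem IsParam.measurableSet_image {U : Set ℂ} {φ : ℂ → X} (hφ : IsParam f s U φ) {A : Set ℂ}
    (hA : MeasurableSet A) (hAU : A ⊆ U) : MeasurableSet (φ '' A) :=
  hA.image_of_continuousOn_injOn (hφ.holo.continuousOn.mono hAU) (hφ.inj.mono hAU)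

theorem areaA_aemeas {U : Set ℂ} {φ : ℂ → X} (hφ : IsParam f s U φ) {A : Set ℂ}
    (hA : MeasurableSet A) (hAU : A ⊆ U) : AEMeasurable φ (volume.restrict A) :=
  (hφ.holo.continuousOn.mono hAU).aemeasurable hA

theorem areaA_dens {U : Set ℂ} {φ : ℂ → X} (hφ : IsParam f s U φ) {A : Set ℂ}
    (hA : MeasurableSet A) (hAU : A ⊆ U) :
    AEMeasurable (fun z => ENNReal.ofReal (g.normSq (φ z) (vel φ z))) (volume.restrict A) :=
  (((areaA_cont g hφ).mono hAU).aemeasurable hA).ennreal_ofReal

/-- the restriction of the area measure to the image of a parametrization. -/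
theorem areaA_restrict (hμ : IsFibreArea g f s μ) {U : Set ℂ} {φ : ℂ → X}
    (hφ : IsParam f s U φ) {A : Set ℂ} (hA : MeasurableSet A) (hAU : A ⊆ U) :
    μ.restrict (φ '' A) = Measure.map φ ((volume.restrict A).withDensity
      (fun z => ENNReal.ofReal (g.normSq (φ z) (vel φ z)))) := by
  have hφm := areaA_aemeas hφ hA hAU
  ext B hB
  rw [Measure.restrict_apply hB, Measure.map_apply_of_aemeasurable
    (hφm.mono_ac (withDensity_absolutelyContinuous _ _)) hB]
  have hc : ContinuousOn φ A := hφ.holo.continuousOn.mono hAU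
  have hAB : MeasurableSet (A ∩ φ ⁻¹' B) := by
    have h1 : MeasurableSet ((A.domRestrict φ) ⁻¹' B) :=
      (continuousOn_iff_continuous_domRestrict.1 hc).measurable hB
    have h2 := hA.subtype_image h1
    have h3 : Subtype.val '' ((A.domRestrict φ) ⁻¹' B) = A ∩ φ ⁻¹' B := by
      ext z
      constructor
      · rintro ⟨⟨w, hw⟩, hwB, rfl⟩
        exact ⟨hw, hwB⟩
      · rintro ⟨hz1, hz2⟩
        exact ⟨⟨z, hz1⟩, hz2, rfl⟩
    rwa [h3] at h2
  have h1 : B ∩ φ '' A = φ '' (A ∩ φ ⁻¹' B) := by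
    rw [inter_comm, image_inter_preimage]
  rw [h1, hμ.area U φ hφ _ (inter_subset_left.trans hAU) hAB]
  rw [withDensity_apply₀ _ ((hφm.nullMeasurableSet_preimage hB)),
    Measure.restrict_restrict₀ (hφm.nullMeasurableSet_preimage hB), inter_comm]

theorem IsFibreArea.lintegral_image (hμ : IsFibreArea g f s μ) {U : Set ℂ} {φ : ℂ → X}
    (hφ : IsParam f s U φ) {A : Set ℂ} (hA : MeasurableSet A) (hAU : A ⊆ U) {G : X → ENNReal}
    (hG : Measurable G) :
    ∫⁻ x in φ '' A, G x ∂μ =
      ∫⁻ z in A, G (φ z) * ENNReal.ofReal (g.normSq (φ z) (vel φ z)) := by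
  have hφm := areaA_aemeas hφ hA hAU
  have h1 := lintegral_withDensity_eq_lintegral_mul₀ (μ := volume.restrict A)
    (areaA_dens (g := g) hφ hA hAU) (g := fun z => G (φ z)) (hG.comp_aemeasurable hφm)
  rw [areaA_restrict hμ hφ hA hAU, lintegral_map' hG.aemeasurable
    (hφm.mono_ac (withDensity_absolutelyContinuous _ _)), h1]
  refine lintegral_congr fun z => ?_
  simp only [Pi.mul_apply]
  rw [mul_comm]

theorem IsFibreArea.ae_fibre (hμ : IsFibreArea g f s μ) : ∀ᵐ x ∂μ, f x = s ∧ x ∉ Crit f := by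
  have h := hμ.carried
  rw [ae_iff]
  convert h using 2
  ext x
  simp only [mem_ofPred_eq]
  tauto

omit [T2Space X] [SecondCountableTopology X] [MeasurableSpace X] [BorelSpace X] in
theorem areaA_slice (g : HermMetric X) {b : OpenPartialHomeomorph X C2} (hb : IsBox f b) {s w : ℂ}
    (hw : w ∈ sliceDom b s) :
    g.normSq (slice b s w) (vel (slice b s) w) = IsBox.dens g b (w, s) := by
  rw [hb.vel_slice hw]
  rfl

theorem areaA_box (hμ : IsFibreArea g f s μ) {b : OpenPartialHomeomorph X C2} (hb : IsBox f b) :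
    μ.restrict b.source = μ.restrict (slice b s '' sliceDom b s) := by
  apply Measure.restrict_congr_set
  filter_upwards [hμ.ae_fibre] with x hx
  rw [hb.image_slice]
  apply propext
  exact ⟨fun h => ⟨h, hx.1⟩, fun h => h.1⟩

theorem IsFibreArea.lintegral_box (hf : ContMDiff 𝓘(ℂ, C2) 𝓘(ℂ, ℂ) ω f)
    (hμ : IsFibreArea g f s μ) {b : OpenPartialHomeomorph X C2} (hb : IsBox f b) {G : X → ENNReal}
    (hG : Measurable G) :
    ∫⁻ x in b.source, G x ∂μ =
      ∫⁻ w in sliceDom b s, G (slice b s w) * ENNReal.ofReal (IsBox.dens g b (w, s)) := by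
  have hU := (isOpen_sliceDom b s).measurableSet
  rw [areaA_box hμ hb, hμ.lintegral_image (hb.isParam s) hU subset_rfl hG]
  refine setLIntegral_congr_fun hU fun w hw => ?_
  show _ = _
  rw [areaA_slice g hb hw]

/-- real version, for functions supported in the box. -/
theorem IsFibreArea.integral_box (hf : ContMDiff 𝓘(ℂ, C2) 𝓘(ℂ, ℂ) ω f)
    (hμ : IsFibreArea g f s μ) {b : OpenPartialHomeomorph X C2} (hb : IsBox f b) {G : X → ℝ}
    (hG : Measurable G) (hsupp : ∀ x ∉ b.source, G x = 0) :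
    ∫ x, G x ∂μ = ∫ w in sliceDom b s, G (slice b s w) * IsBox.dens g b (w, s) := by
  have hU := (isOpen_sliceDom b s).measurableSet
  have hφ := hb.isParam s
  have hφm := areaA_aemeas hφ hU subset_rfl
  have h1 : ∫ x, G x ∂μ = ∫ x in b.source, G x ∂μ := by
    rw [setIntegral_eq_integral_of_forall_compl_eq_zero]
    intro x hx
    exact hsupp x hx
  rw [h1, areaA_box hμ hb, areaA_restrict hμ hφ hU subset_rfl,
    integral_map (hφm.mono_ac (withDensity_absolutelyContinuous _ _)) hG.aestronglyMeasurable,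
    integral_withDensity_eq_integral_toReal_smul₀ (areaA_dens hφ hU subset_rfl)
      (ae_of_all _ fun _ => ENNReal.ofReal_lt_top)]
  refine setIntegral_congr_fun hU fun w hw => ?_
  show (ENNReal.ofReal _).toReal • G (slice b s w) = _
  rw [areaA_slice g hb hw, ENNReal.toReal_ofReal, smul_eq_mul, mul_comm]
  rw [← areaA_slice g hb hw]
  exact normSq_nonneg g _ _

end DD
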