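import Pool.Agent.Work.MP_dd1e4a_gt.AreaA

/-! # AreaB: compact sets have finite area

Cover `K` by finitely many boxes (`exists_box'`; by sets compactly contained in boxes); a compact set
inside one box has finite measure by `lintegral_box` (the density `dens` is bounded on a compact
set: `smooth_metE`, or directly by continuity). -/

open scoped Manifold ContDiff Topology
open MeasureTheory Set

namespace DD

variable {X : Type} [TopologicalSpace X] [T2Space X] [SecondCountableTopology X]
  [ChartedSpace C2 X] [IsManifold 𝓘(ℂ, C2) ω X] [MeasurableSpace X] [BorelSpace X]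
  {g : HermMetric X} {f : X → ℂ} {s : ℂ} {μ : Measure X}

omit [T2Space X] [SecondCountableTopology X] [MeasurableSpace X] [BorelSpace X] in
theorem areaB_dens (g : HermMetric X) {b : OpenPartialHomeomorph X C2} (hb : IsBox f b) :
    ContinuousOn (IsBox.dens g b) b.target := by
  have h1 := (smooth_metE g b hb.holo hb.holo_symm).continuousOn
  have h2 : ContinuousOn (fun y : C2 => ((y, (((1 : ℂ), (0 : ℂ)) : C2)) : C2 × C2)) b.target := by
    fun_prop
  exact h1.comp h2 (fun y hy => ⟨hy, mem_univ _⟩)

theorem IsFibreArea.finite_compact (hf : ContMDiff 𝓘(ℂ, C2) 𝓘(ℂ, ℂ) ω f)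
    (hμ : IsFibreArea g f s μ) {K : Set X} (hK : IsCompact K) (hKc : Disjoint K (Crit f)) :
    μ K < ⊤ := by
  refine hK.measure_lt_top_of_nhdsWithin fun x hx => ?_
  obtain ⟨b, hb, hxb, -⟩ := exists_box' hf isOpen_univ (mem_univ x)
    (Set.disjoint_left.1 hKc hx)
  obtain ⟨r, hr, hball⟩ := Metric.isOpen_iff.1 b.open_target (b x) (b.map_source hxb)
  have hcb : Metric.closedBall (b x) (r / 2) ⊆ b.target :=
    (Metric.closedBall_subset_ball (half_lt_self hr)).trans hball
  obtain ⟨M, hM⟩ := (isCompact_closedBall (b x) (r / 2)).exists_bound_of_continuousOn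
    ((areaB_dens g hb).mono hcb)
  let N : Set X := b.source ∩ b ⁻¹' (Metric.ball (b x) (r / 2))
  have hN : IsOpen N := b.isOpen_inter_preimage Metric.isOpen_ball
  have hxN : x ∈ N := ⟨hxb, Metric.mem_ball_self (half_pos hr)⟩
  refine ⟨N, mem_nhdsWithin_of_mem_nhds (hN.mem_nhds hxN), ?_⟩
  have h1 : μ N = ∫⁻ x in b.source, N.indicator (fun _ => 1) x ∂μ := by
    rw [lintegral_indicator_const hN.measurableSet, one_mul, Measure.restrict_apply
      hN.measurableSet, inter_eq_left.2 inter_subset_left]
  have h2 : Measurable (N.indicator (fun _ => (1 : ENNReal))) :=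
    measurable_const.indicator hN.measurableSet
  rw [h1, hμ.lintegral_box hf hb h2]
  have h3 : ∫⁻ w in sliceDom b s, N.indicator (fun _ => (1 : ENNReal)) (slice b s w) *
      ENNReal.ofReal (IsBox.dens g b (w, s)) ≤
      ∫⁻ w in sliceDom b s, (Metric.ball (b x).1 (r / 2)).indicator
        (fun _ => ENNReal.ofReal M) w := by
    refine setLIntegral_mono' (isOpen_sliceDom b s).measurableSet fun w hw => ?_
    by_cases hwN : slice b s w ∈ N
    · have h4 : b (slice b s w) = (w, s) := b.right_inv hw
      have h5 : ((w, s) : C2) ∈ Metric.ball (b x) (r / 2) := by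
        have := hwN.2
        rw [mem_preimage, h4] at this
        exact this
      have h6 : w ∈ Metric.ball (b x).1 (r / 2) := by
        rw [Metric.mem_ball] at h5 ⊢
        exact (le_max_left _ _).trans_lt (by rwa [Prod.dist_eq] at h5)
      rw [indicator_of_mem hwN, indicator_of_mem h6, one_mul]
      exact ENNReal.ofReal_le_ofReal ((le_abs_self _).trans
        (hM _ (Metric.ball_subset_closedBall h5)))
    · rw [indicator_of_notMem hwN, zero_mul]
      exact bot_le
  refine h3.trans_lt ((setLIntegral_le_lintegral _ _).trans_lt ?_)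
  rw [lintegral_indicator_const Metric.isOpen_ball.measurableSet]
  exact ENNReal.mul_lt_top ENNReal.ofReal_lt_top measure_ball_lt_top

end DD
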