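import Pool.Agent.Work.MP_dd1e4a_gt.TanA

/-! # MetA: coordinate vectors

`e` is any holomorphic chart (`holo`, `holo_symm`), not necessarily in the atlas.
`mfderiv e.symm y` is injective because it has a left inverse `mfderiv e` (chain rule for
`e ∘ e.symm = id` near `y`). `mfderiv_symm_apply`: `w = mfderiv e x v`; `mfderiv e.symm (e x) w = v`
by the chain rule for `e.symm ∘ e = id` near `x` and `e.symm (e x) = x`. -/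

open scoped Manifold ContDiff Topology
open MeasureTheory Set

namespace DD

variable {X : Type} [TopologicalSpace X] [ChartedSpace C2 X]
  [IsManifold 𝓘(ℂ, C2) ω X] (g : HermMetric X) (e : OpenPartialHomeomorph X C2)
  (he : ContMDiffOn 𝓘(ℂ, C2) 𝓘(ℂ, C2) ω e e.source)
  (he' : ContMDiffOn 𝓘(ℂ, C2) 𝓘(ℂ, C2) ω e.symm e.target)

omit [IsManifold 𝓘(ℂ, C2) ω X] in
theorem metA_md (he : ContMDiffOn 𝓘(ℂ, C2) 𝓘(ℂ, C2) ω e e.source) {x : X} (hx : x ∈ e.source) :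
    MDifferentiableAt 𝓘(ℂ, C2) 𝓘(ℂ, C2) e x :=
  (he.contMDiffAt (e.open_source.mem_nhds hx)).mdifferentiableAt (by simp)

omit [IsManifold 𝓘(ℂ, C2) ω X] in
theorem metA_mds (he' : ContMDiffOn 𝓘(ℂ, C2) 𝓘(ℂ, C2) ω e.symm e.target) {y : C2}
    (hy : y ∈ e.target) : MDifferentiableAt 𝓘(ℂ, C2) 𝓘(ℂ, C2) e.symm y :=
  (he'.contMDiffAt (e.open_target.mem_nhds hy)).mdifferentiableAt (by simp)

omit [IsManifold 𝓘(ℂ, C2) ω X] in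
/-- `mfderiv e.symm` is a right inverse of `mfderiv e`. -/
theorem metA_right (he : ContMDiffOn 𝓘(ℂ, C2) 𝓘(ℂ, C2) ω e e.source)
    (he' : ContMDiffOn 𝓘(ℂ, C2) 𝓘(ℂ, C2) ω e.symm e.target) {y : C2} (hy : y ∈ e.target) (w : C2) :
    (mfderiv 𝓘(ℂ, C2) 𝓘(ℂ, C2) e (e.symm y)
      (mfderiv 𝓘(ℂ, C2) 𝓘(ℂ, C2) e.symm y w) : C2) = w := by
  have h11 : (e ∘ e.symm) =ᶠ[𝓝 y] id := by
    filter_upwards [e.open_target.mem_nhds hy] with z hz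
    simp [e.right_inv hz]
  have h12 : HasMFDerivAt 𝓘(ℂ, C2) 𝓘(ℂ, C2) (e ∘ e.symm) y
      ((mfderiv 𝓘(ℂ, C2) 𝓘(ℂ, C2) e (e.symm y)).comp (mfderiv 𝓘(ℂ, C2) 𝓘(ℂ, C2) e.symm y)) :=
    (metA_md e he (e.map_target hy)).hasMFDerivAt.comp y (metA_mds e he' hy).hasMFDerivAt
  have h13 : HasMFDerivAt 𝓘(ℂ, C2) 𝓘(ℂ, C2) (e ∘ e.symm) y
      (ContinuousLinearMap.id ℂ (TangentSpace 𝓘(ℂ, C2) y)) :=
    (hasMFDerivAt_id y).congr_of_eventuallyEq h11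
  have h14 := hasMFDerivAt_unique h12 h13
  exact congrArg (fun L : C2 →L[ℂ] C2 => L w) h14

omit [IsManifold 𝓘(ℂ, C2) ω X] in
/-- `mfderiv e.symm` is a left inverse of `mfderiv e`. -/
theorem metA_left (he : ContMDiffOn 𝓘(ℂ, C2) 𝓘(ℂ, C2) ω e e.source)
    (he' : ContMDiffOn 𝓘(ℂ, C2) 𝓘(ℂ, C2) ω e.symm e.target) {x : X} (hx : x ∈ e.source) (v : C2) :
    (mfderiv 𝓘(ℂ, C2) 𝓘(ℂ, C2) e.symm (e x)
      (mfderiv 𝓘(ℂ, C2) 𝓘(ℂ, C2) e x v) : C2) = v := by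
  have h11 : (e.symm ∘ e) =ᶠ[𝓝 x] id := by
    filter_upwards [e.open_source.mem_nhds hx] with z hz
    simp [e.left_inv hz]
  have h12 : HasMFDerivAt 𝓘(ℂ, C2) 𝓘(ℂ, C2) (e.symm ∘ e) x
      ((mfderiv 𝓘(ℂ, C2) 𝓘(ℂ, C2) e.symm (e x)).comp (mfderiv 𝓘(ℂ, C2) 𝓘(ℂ, C2) e x)) :=
    (metA_mds e he' (e.map_source hx)).hasMFDerivAt.comp x (metA_md e he hx).hasMFDerivAt
  have h13 : HasMFDerivAt 𝓘(ℂ, C2) 𝓘(ℂ, C2) (e.symm ∘ e) x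
      (ContinuousLinearMap.id ℂ (TangentSpace 𝓘(ℂ, C2) x)) :=
    (hasMFDerivAt_id x).congr_of_eventuallyEq h11
  have h14 := hasMFDerivAt_unique h12 h13
  exact congrArg (fun L : C2 →L[ℂ] C2 => L v) h14

omit [IsManifold 𝓘(ℂ, C2) ω X] in
theorem metA_fst (he : ContMDiffOn 𝓘(ℂ, C2) 𝓘(ℂ, C2) ω e e.source) {x : X} (hx : x ∈ e.source)
    (v : TangentSpace 𝓘(ℂ, C2) x) :
    dC (fun y => (e y).1) x v = (show C2 from mfderiv 𝓘(ℂ, C2) 𝓘(ℂ, C2) e x v).1 := by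
  have h5 : HasMFDerivAt 𝓘(ℂ, C2) 𝓘(ℂ, ℂ) (fun z : C2 => z.1) (e x)
      (ContinuousLinearMap.fst ℂ ℂ ℂ) :=
    (ContinuousLinearMap.fst ℂ ℂ ℂ).hasMFDerivAt
  have h6 := (h5.comp x (metA_md e he hx).hasMFDerivAt).mfderiv
  exact congrArg (fun L : C2 →L[ℂ] ℂ => L v) h6

omit [IsManifold 𝓘(ℂ, C2) ω X] in
theorem metA_snd (he : ContMDiffOn 𝓘(ℂ, C2) 𝓘(ℂ, C2) ω e e.source) {x : X} (hx : x ∈ e.source)
    (v : TangentSpace 𝓘(ℂ, C2) x) :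
    dC (fun y => (e y).2) x v = (show C2 from mfderiv 𝓘(ℂ, C2) 𝓘(ℂ, C2) e x v).2 := by
  have h5 : HasMFDerivAt 𝓘(ℂ, C2) 𝓘(ℂ, ℂ) (fun z : C2 => z.2) (e x)
      (ContinuousLinearMap.snd ℂ ℂ ℂ) :=
    (ContinuousLinearMap.snd ℂ ℂ ℂ).hasMFDerivAt
  have h6 := (h5.comp x (metA_md e he hx).hasMFDerivAt).mfderiv
  exact congrArg (fun L : C2 →L[ℂ] ℂ => L v) h6

include he he'

/-- the derivative of the inverse chart is injective. -/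
theorem mfderiv_symm_injective {y : C2} (hy : y ∈ e.target) :
    Function.Injective (mfderiv 𝓘(ℂ, C2) 𝓘(ℂ, C2) e.symm y) := by
  intro v w hvw
  have h1 := metA_right e he he' hy v
  have h2 := metA_right e he he' hy w
  have h3 : (mfderiv 𝓘(ℂ, C2) 𝓘(ℂ, C2) e (e.symm y)
      (mfderiv 𝓘(ℂ, C2) 𝓘(ℂ, C2) e.symm y v) : C2) = (mfderiv 𝓘(ℂ, C2) 𝓘(ℂ, C2) e (e.symm y)
      (mfderiv 𝓘(ℂ, C2) 𝓘(ℂ, C2) e.symm y w) : C2) := by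
    rw [hvw]
  exact h1.symm.trans (h3.trans h2)

/-- a tangent vector is the image of its coordinate vector. -/
theorem mfderiv_symm_apply {x : X} (hx : x ∈ e.source) (v : TangentSpace 𝓘(ℂ, C2) x) :
    ∃ w : C2, mfderiv 𝓘(ℂ, C2) 𝓘(ℂ, C2) e x v = w ∧
      g.normSq x v = metE g e (e x) w ∧
      dC (fun y => (e y).1) x v = w.1 ∧ dC (fun y => (e y).2) x v = w.2 := by
  refine ⟨mfderiv 𝓘(ℂ, C2) 𝓘(ℂ, C2) e x v, rfl, ?_, metA_fst e he hx v, metA_snd e he hx v⟩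
  have h : ∀ (y : X), y = x → ∀ v' : C2, g.normSq y v' = g.normSq x v' := by
    rintro y rfl v'
    rfl
  have h2 := h (e.symm (e x)) (e.left_inv hx) (mfderiv 𝓘(ℂ, C2) 𝓘(ℂ, C2) e.symm (e x)
      (mfderiv 𝓘(ℂ, C2) 𝓘(ℂ, C2) e x v))
  have h3 : g.normSq x (mfderiv 𝓘(ℂ, C2) 𝓘(ℂ, C2) e.symm (e x)
      (mfderiv 𝓘(ℂ, C2) 𝓘(ℂ, C2) e x v)) = g.normSq x v :=
    congrArg (fun v' : C2 => g.normSq x v') (metA_left e he he' hx v)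
  exact (h2.trans h3).symm

end DD
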