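import Pool.Agent.Work.MP_dd1e4a_gt.BoxA
import Pool.Agent.Work.MP_dd1e4a_gt.MetA

/-! # BoxB: transport between fibres in a box

`b (btrans b s x) = ((b x).1, s)` on `transDom b s`. `mfderiv_btrans_ne`: the first coordinate of
`b ∘ btrans b s` is the first coordinate of `b`; `db` maps `tanVec f x` to a vector `(w, 0)`, `w ≠ 0`
(`df (tanVec) = 0`), so the image is not zero. `ratio_btrans`: `tanVec f x = w d(b.symm) (1,0)` at
`b x`, and `d(btrans)` maps it to `w d(b.symm) (1,0)` at `((b x).1, s)`. `IsBox.isTransport`: collect. -/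

open scoped Manifold ContDiff Topology
open MeasureTheory Set

namespace DD

variable {X : Type} [TopologicalSpace X] [ChartedSpace C2 X] [IsManifold 𝓘(ℂ, C2) ω X]
  {f : X → ℂ}

theorem isOpen_transDom (b : OpenPartialHomeomorph X C2) (s : ℂ) : IsOpen (transDom b s) := by
  have h := b.isOpen_inter_preimage (b.open_target.preimage
    (show Continuous fun z : C2 => ((z.1, s) : C2) by fun_prop))
  exact h

omit [IsManifold 𝓘(ℂ, C2) ω X] in
theorem boxB_proj (s : ℂ) (z : C2) : HasMFDerivAt 𝓘(ℂ, C2) 𝓘(ℂ, C2) (fun z : C2 => ((z.1, s) : C2)) z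
    ((ContinuousLinearMap.fst ℂ ℂ ℂ).prod (0 : C2 →L[ℂ] ℂ)) :=
  (((ContinuousLinearMap.fst ℂ ℂ ℂ).hasFDerivAt (x := z)).prodMk
    (hasFDerivAt_const s z)).hasMFDerivAt

theorem boxB_mf {b : OpenPartialHomeomorph X C2} (hb : IsBox f b) {s : ℂ} {x : X}
    (hx : x ∈ transDom b s) (v : TangentSpace 𝓘(ℂ, C2) x) :
    (mfderiv 𝓘(ℂ, C2) 𝓘(ℂ, C2) (btrans b s) x v : C2) =
      mfderiv 𝓘(ℂ, C2) 𝓘(ℂ, C2) b.symm (((b x).1, s) : C2)
        (((show C2 from mfderiv 𝓘(ℂ, C2) 𝓘(ℂ, C2) b x v).1, (0 : ℂ)) : C2) := by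
  have h1 := (boxB_proj s (b x)).comp x (metA_md b hb.holo hx.1).hasMFDerivAt
  have h2 : MDifferentiableAt 𝓘(ℂ, C2) 𝓘(ℂ, C2) b.symm (((b x).1, s) : C2) :=
    metA_mds b hb.holo_symm hx.2
  have h3 := (h2.hasMFDerivAt.comp (f := (fun z : C2 => ((z.1, s) : C2)) ∘ b) x h1).mfderiv
  exact congrArg (fun L : C2 →L[ℂ] C2 => L v) h3

theorem boxB_metE_smul (g : HermMetric X) (e : OpenPartialHomeomorph X C2) (y w : C2) (c : ℂ) :
    metE g e y (c • w) = ‖c‖ ^ 2 * metE g e y w := by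
  have h : (mfderiv 𝓘(ℂ, C2) 𝓘(ℂ, C2) e.symm y (c • w)) =
      c • (mfderiv 𝓘(ℂ, C2) 𝓘(ℂ, C2) e.symm y w) :=
    map_smul (mfderiv 𝓘(ℂ, C2) 𝓘(ℂ, C2) e.symm y) c w
  rw [metE, metE, h, normSq_smul]

theorem boxB_tan {b : OpenPartialHomeomorph X C2} (hb : IsBox f b) {x : X} (hx : x ∈ b.source) :
    ∃ c : ℂ, c ≠ 0 ∧ (show C2 from mfderiv 𝓘(ℂ, C2) 𝓘(ℂ, C2) b x (tanVec f x)) =
      c • (((1 : ℂ), (0 : ℂ)) : C2) := by
  have hxc : x ∉ Crit f := Set.disjoint_left.mp hb.disjoint_crit hx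
  have h1 := boxA_dC hb hx (tanVec f x)
  rw [dC_tanVec] at h1
  set w : C2 := (show C2 from mfderiv 𝓘(ℂ, C2) 𝓘(ℂ, C2) b x (tanVec f x)) with hw
  have hw' : w = w.1 • (((1 : ℂ), (0 : ℂ)) : C2) := by
    ext
    · simp
    · simp [← h1]
  refine ⟨w.1, fun h0 => ?_, hw'⟩
  rw [h0, zero_smul] at hw'
  have h2 := metA_left b hb.holo hb.holo_symm hx (tanVec f x)
  have h3 : (mfderiv 𝓘(ℂ, C2) 𝓘(ℂ, C2) b.symm (b x) w : C2) = 0 := by
    have h4 := congrArg (fun w' : C2 => (mfderiv 𝓘(ℂ, C2) 𝓘(ℂ, C2) b.symm (b x) w' : C2)) hw'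
    exact h4.trans (map_zero (mfderiv 𝓘(ℂ, C2) 𝓘(ℂ, C2) b.symm (b x)))
  exact tanVec_ne hxc (h2.symm.trans h3)

theorem IsBox.holo_btrans {b : OpenPartialHomeomorph X C2} (hb : IsBox f b) (s : ℂ) :
    ContMDiffOn 𝓘(ℂ, C2) 𝓘(ℂ, C2) ω (btrans b s) (transDom b s) := by
  have h1 : ContMDiffOn 𝓘(ℂ, C2) 𝓘(ℂ, C2) ω b (transDom b s) := hb.holo.mono (fun x hx => hx.1)
  have h2 : ContMDiff 𝓘(ℂ, C2) 𝓘(ℂ, C2) ω (fun z : C2 => ((z.1, s) : C2)) :=
    (contDiff_fst.prodMk contDiff_const).contMDiff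
  exact hb.holo_symm.comp (h2.comp_contMDiffOn h1) (fun x hx => hx.2)

theorem IsBox.btrans_mem {b : OpenPartialHomeomorph X C2} (hb : IsBox f b) {s : ℂ} {x : X}
    (hx : x ∈ transDom b s) :
    btrans b s x ∈ b.source ∧ f (btrans b s x) = s ∧ (b (btrans b s x)).1 = (b x).1 ∧
      btrans b s x ∈ transDom b (f x) ∧ btrans b (f x) (btrans b s x) = x := by
  have h1 : b (btrans b s x) = ((b x).1, s) := b.right_inv hx.2
  have h2 : btrans b s x ∈ b.source := b.map_target hx.2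
  have h3 : ((b x).1, f x) = b x := Prod.ext rfl (hb.snd x hx.1).symm
  refine ⟨h2, ?_, by rw [h1], ⟨h2, ?_⟩, ?_⟩
  · rw [← hb.snd _ h2, h1]
  · rw [h1]
    change ((b x).1, f x) ∈ b.target
    rw [h3]
    exact b.map_source hx.1
  · change b.symm ((b (btrans b s x)).1, f x) = x
    rw [h1]
    change b.symm ((b x).1, f x) = x
    rw [h3, b.left_inv hx.1]

/-- the derivative of the transport does not vanish on the tangent line of the fibre. -/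
theorem IsBox.mfderiv_btrans_ne {b : OpenPartialHomeomorph X C2} (hb : IsBox f b) {s : ℂ} {x : X}
    (hx : x ∈ transDom b s) :
    mfderiv 𝓘(ℂ, C2) 𝓘(ℂ, C2) (btrans b s) x (tanVec f x) ≠ 0 := by
  intro h0
  obtain ⟨c, hc, hcv⟩ := boxB_tan hb hx.1
  have h1 := boxB_mf hb hx (tanVec f x)
  rw [hcv] at h1
  have h2 : (mfderiv 𝓘(ℂ, C2) 𝓘(ℂ, C2) b.symm (((b x).1, s) : C2)
      (((c • (((1 : ℂ), (0 : ℂ)) : C2)).1, (0 : ℂ)) : C2)) = 0 := h1.symm.trans h0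
  have h3 := mfderiv_symm_injective b hb.holo hb.holo_symm hx.2
      (h2.trans (map_zero (mfderiv 𝓘(ℂ, C2) 𝓘(ℂ, C2) b.symm (((b x).1, s) : C2))).symm)
  have h4 := congrArg Prod.fst h3
  simp at h4
  exact hc h4

theorem IsBox.ratio_btrans {b : OpenPartialHomeomorph X C2} (hb : IsBox f b) (g : HermMetric X)
    {s : ℂ} {x : X} (hx : x ∈ transDom b s) :
    ratio g f (btrans b s) x = IsBox.dens g b ((b x).1, s) / IsBox.dens g b (b x) := by
  obtain ⟨c, hc, hcv⟩ := boxB_tan hb hx.1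
  have h1 := boxB_mf hb hx (tanVec f x)
  rw [hcv] at h1
  have h5 : (((c • (((1 : ℂ), (0 : ℂ)) : C2)).1, (0 : ℂ)) : C2) = c • (((1 : ℂ), (0 : ℂ)) : C2) := by
    simp
  rw [h5] at h1
  have h2 : g.normSq (btrans b s x) (mfderiv 𝓘(ℂ, C2) 𝓘(ℂ, C2) (btrans b s) x (tanVec f x)) =
      metE g b ((b x).1, s) (c • (((1 : ℂ), (0 : ℂ)) : C2)) :=
    congrArg (fun v : C2 => g.normSq (btrans b s x) v) h1
  obtain ⟨w, hw1, hw2, -⟩ := mfderiv_symm_apply g b hb.holo hb.holo_symm hx.1 (tanVec f x)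
  have h3 : w = c • (((1 : ℂ), (0 : ℂ)) : C2) := hw1.symm.trans hcv
  rw [ratio, h2, hw2, h3, boxB_metE_smul, boxB_metE_smul, IsBox.dens, IsBox.dens]
  have hc2 : ‖c‖ ^ 2 ≠ 0 := by
    have := norm_pos_iff.mpr hc
    positivity
  rw [mul_div_mul_left _ _ hc2]

theorem IsBox.isTransport {b : OpenPartialHomeomorph X C2} (hb : IsBox f b)
    (hf : ContMDiff 𝓘(ℂ, C2) 𝓘(ℂ, ℂ) ω f) (s' s : ℂ) :
    IsTransport f s' s (transDom b s) (btrans b s) where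
  isOpen := isOpen_transDom b s
  holo := hb.holo_btrans s
  fib := fun x hx => (hb.btrans_mem hx).2.1
  reg := fun x hx => ⟨Set.disjoint_left.mp hb.disjoint_crit hx.1,
    Set.disjoint_left.mp hb.disjoint_crit (hb.btrans_mem hx).1⟩
  inj := by
    rintro x ⟨hx, hxs⟩ y ⟨hy, hys⟩ hxy
    have h1 := (hb.btrans_mem hx).2.2.2.2
    have h2 := (hb.btrans_mem hy).2.2.2.2
    have hxs' : f x = s' := hxs
    have hys' : f y = s' := hys
    rw [hxs'] at h1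
    rw [hys'] at h2
    rw [← h1, ← h2, hxy]
  imm := fun x hx _ => hb.mfderiv_btrans_ne hx

end DD
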