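import Pool.Agent.Work.MP_dd1e4a_gt.TanB
import Pool.Agent.Work.MP_dd1e4a_gt.BoxB
import Pool.Agent.Work.MP_dd1e4a_gt.BoxEx
import Pool.Agent.Work.MP_dd1e4a_gt.MetB

/-! # AreaC: the densities are continuous off the critical points

In a box (`exists_box'`), `gradSq_eq` etc. along the slices (`IsBox.isParam`, `IsBox.slice_mem`):
numerator and denominator are continuous functions of `(w, s) = b x`:
`fderiv ℝ (fun w => u (b.symm (w, s))) w 1` is the derivative of the smooth function `u ∘ b.symm` of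
`(w, s)` in the direction `(1, 0)`; the denominator is `dens g b (w, s) > 0`, continuous by
`smooth_metE`. -/

open scoped Manifold ContDiff Topology
open MeasureTheory Set

namespace DD

variable {X : Type} [TopologicalSpace X] [T2Space X] [SecondCountableTopology X]
  [ChartedSpace C2 X] [IsManifold 𝓘(ℂ, C2) ω X]
  (g : HermMetric X) {f : X → ℂ} (hf : ContMDiff 𝓘(ℂ, C2) 𝓘(ℂ, ℂ) ω f)

theorem areaC_smooth {F : Type} [NormedAddCommGroup F] [NormedSpace ℝ F] {u : X → F}
    {O : Set X} (hu : ContMDiffOn 𝓘(ℝ, C2) 𝓘(ℝ, F) ∞ u O) {b : OpenPartialHomeomorph X C2}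
    (hb : IsBox f b) (hbO : b.source ⊆ O) :
    ContDiffOn ℝ ∞ (fun z => u (b.symm z)) b.target := by
  have h1 : ContMDiffOn 𝓘(ℝ, C2) 𝓘(ℝ, F) ∞ (fun z => u (b.symm z)) b.target :=
    (hu.mono hbO).comp (hol_real hb.holo_symm) (fun z hz => b.map_target hz)
  exact contMDiffOn_iff_contDiffOn.mp h1

theorem areaC_eta {b : OpenPartialHomeomorph X C2} (hb : IsBox f b) {x : X} (hx : x ∈ b.source) :
    ((b x).1, f x) = b x := Prod.ext rfl (hb.snd x hx).symm

theorem areaC_fd {F : Type} [NormedAddCommGroup F] [NormedSpace ℝ F] {u : X → F}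
    {O : Set X} (hu : ContMDiffOn 𝓘(ℝ, C2) 𝓘(ℝ, F) ∞ u O) {b : OpenPartialHomeomorph X C2}
    (hb : IsBox f b) (hbO : b.source ⊆ O) {x : X} (hx : x ∈ b.source) (v : ℂ) :
    fderiv ℝ (fun w => u (slice b (f x) w)) (b x).1 v =
      fderiv ℝ (fun z => u (b.symm z)) (b x) ((v, (0 : ℂ)) : C2) := by
  have h1 := areaC_smooth hu hb hbO
  have h2 : DifferentiableAt ℝ (fun z => u (b.symm z)) ((b x).1, f x) := by
    rw [areaC_eta hb hx]
    exact (h1.contDiffAt (b.open_target.mem_nhds (b.map_source hx))).differentiableAt (by simp)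
  have h3 : HasFDerivAt (fun w : ℂ => ((w, f x) : C2))
      ((ContinuousLinearMap.id ℝ ℂ).prod (0 : ℂ →L[ℝ] ℂ)) (b x).1 :=
    (hasFDerivAt_id _).prodMk (hasFDerivAt_const _ _)
  have h4 := (h2.hasFDerivAt.comp (b x).1 h3).fderiv
  rw [areaC_eta hb hx] at h4
  exact congrArg (fun L : ℂ →L[ℝ] F => L v) h4

theorem areaC_contfd {F : Type} [NormedAddCommGroup F] [NormedSpace ℝ F] {u : X → F}
    {O : Set X} (hu : ContMDiffOn 𝓘(ℝ, C2) 𝓘(ℝ, F) ∞ u O) {b : OpenPartialHomeomorph X C2}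
    (hb : IsBox f b) (hbO : b.source ⊆ O) (v : ℂ) :
    ContinuousOn (fun x => fderiv ℝ (fun w => u (slice b (f x) w)) (b x).1 v) b.source := by
  have h1 : ContinuousOn (fun z => fderiv ℝ (fun z => u (b.symm z)) z ((v, (0 : ℂ)) : C2))
      b.target :=
    ((areaC_smooth hu hb hbO).continuousOn_fderiv_of_isOpen b.open_target
      (by simp)).clm_apply continuousOn_const
  have h2 : ContinuousOn (fun x => fderiv ℝ (fun z => u (b.symm z)) (b x) ((v, (0 : ℂ)) : C2))
      b.source := h1.comp b.continuousOn (fun x hx => b.map_source hx)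
  exact h2.congr (fun x hx => areaC_fd hu hb hbO hx v)

theorem areaC_densval {b : OpenPartialHomeomorph X C2} (hb : IsBox f b) {x : X}
    (hx : x ∈ b.source) :
    g.normSq (slice b (f x) (b x).1) (vel (slice b (f x)) (b x).1) = IsBox.dens g b (b x) := by
  rw [hb.vel_slice (hb.slice_mem hx).1, ← areaC_eta hb hx]
  rfl

theorem areaC_denscont {b : OpenPartialHomeomorph X C2} (hb : IsBox f b) :
    ContinuousOn (fun x => IsBox.dens g b (b x)) b.source := by
  have h1 := (smooth_metE g b hb.holo hb.holo_symm).continuousOn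
  have h2 : ContinuousOn (fun x => ((b x, (((1 : ℂ), (0 : ℂ)) : C2)) : C2 × C2)) b.source :=
    b.continuousOn.prodMk continuousOn_const
  exact h1.comp h2 (fun x hx => ⟨b.map_source hx, mem_univ _⟩)

include hf

theorem areaC_denspos {b : OpenPartialHomeomorph X C2} (hb : IsBox f b) {x : X}
    (hx : x ∈ b.source) : 0 < IsBox.dens g b (b x) := by
  rw [← areaC_densval g hb hx]
  exact (hb.isParam (f x)).normSq_pos g hf (hb.slice_mem hx).1

theorem areaC_glue {Y : Type} [TopologicalSpace Y] {H : X → Y} {O : Set X} (hO : IsOpen O)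
    (h : ∀ b, IsBox f b → b.source ⊆ O → ContinuousOn H b.source) :
    ContinuousOn H (O \ Crit f) := by
  rintro x ⟨hx, hxc⟩
  obtain ⟨b, hb, hxb, hbO⟩ := exists_box' hf hO hx hxc
  exact ((h b hb hbO).continuousAt (b.open_source.mem_nhds hxb)).continuousWithinAt

theorem areaC_md {F : Type} [NormedAddCommGroup F] [NormedSpace ℝ F] {u : X → F}
    {O : Set X} (hu : ContMDiffOn 𝓘(ℝ, C2) 𝓘(ℝ, F) ∞ u O) {b : OpenPartialHomeomorph X C2}
    (hb : IsBox f b) (hbO : b.source ⊆ O) {x : X} (hx : x ∈ b.source) :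
    MDifferentiableAt 𝓘(ℝ, C2) 𝓘(ℝ, F) u (slice b (f x) (b x).1) := by
  rw [(hb.slice_mem hx).2]
  exact ((hu.mono hbO).contMDiffAt (b.open_source.mem_nhds hx)).mdifferentiableAt (by simp)

theorem continuousOn_gradSq {F : Type} [NormedAddCommGroup F] [InnerProductSpace ℝ F]
    {u : X → F} {O : Set X} (hO : IsOpen O) (hu : ContMDiffOn 𝓘(ℝ, C2) 𝓘(ℝ, F) ∞ u O) :
    ContinuousOn (gradSq g f u) (O \ Crit f) := by
  refine areaC_glue hf hO (fun b hb hbO => ?_)
  have h1 : ∀ x ∈ b.source, gradSq g f u x =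
      (‖fderiv ℝ (fun w => u (slice b (f x) w)) (b x).1 1‖ ^ 2 +
        ‖fderiv ℝ (fun w => u (slice b (f x) w)) (b x).1 Complex.I‖ ^ 2) /
          IsBox.dens g b (b x) := by
    intro x hx
    have h2 := (hb.isParam (f x)).gradSq_eq g hf (hb.slice_mem hx).1 (areaC_md hf hu hb hbO hx)
    rw [areaC_densval g hb hx, (hb.slice_mem hx).2] at h2
    rw [eq_div_iff (areaC_denspos g hf hb hx).ne', h2]
  refine ContinuousOn.congr ?_ h1
  exact (((areaC_contfd hu hb hbO 1).norm.pow 2).add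
    ((areaC_contfd hu hb hbO Complex.I).norm.pow 2)).div (areaC_denscont g hb)
    (fun x hx => (areaC_denspos g hf hb hx).ne')

theorem continuousOn_gradDot {u v : X → ℝ} {O : Set X} (hO : IsOpen O)
    (hu : ContMDiffOn 𝓘(ℝ, C2) 𝓘(ℝ, ℝ) ∞ u O) (hv : ContMDiffOn 𝓘(ℝ, C2) 𝓘(ℝ, ℝ) ∞ v O) :
    ContinuousOn (gradDot g f u v) (O \ Crit f) := by
  refine areaC_glue hf hO (fun b hb hbO => ?_)
  have h1 : ∀ x ∈ b.source, gradDot g f u v x =
      (fderiv ℝ (fun w => u (slice b (f x) w)) (b x).1 1 *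
        fderiv ℝ (fun w => v (slice b (f x) w)) (b x).1 1 +
        fderiv ℝ (fun w => u (slice b (f x) w)) (b x).1 Complex.I *
        fderiv ℝ (fun w => v (slice b (f x) w)) (b x).1 Complex.I) /
          IsBox.dens g b (b x) := by
    intro x hx
    have h2 := (hb.isParam (f x)).gradDot_eq g hf (hb.slice_mem hx).1
      (areaC_md hf hu hb hbO hx) (areaC_md hf hv hb hbO hx)
    rw [areaC_densval g hb hx, (hb.slice_mem hx).2] at h2
    rw [eq_div_iff (areaC_denspos g hf hb hx).ne', h2]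
  refine ContinuousOn.congr ?_ h1
  exact (((areaC_contfd hu hb hbO 1).mul (areaC_contfd hv hb hbO 1)).add
    ((areaC_contfd hu hb hbO Complex.I).mul (areaC_contfd hv hb hbO Complex.I))).div
    (areaC_denscont g hb) (fun x hx => (areaC_denspos g hf hb hx).ne')

theorem continuousOn_wedge {u v : X → ℝ} {O : Set X} (hO : IsOpen O)
    (hu : ContMDiffOn 𝓘(ℝ, C2) 𝓘(ℝ, ℝ) ∞ u O) (hv : ContMDiffOn 𝓘(ℝ, C2) 𝓘(ℝ, ℝ) ∞ v O) :
    ContinuousOn (wedge g f u v) (O \ Crit f) := by
  refine areaC_glue hf hO (fun b hb hbO => ?_)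
  have h1 : ∀ x ∈ b.source, wedge g f u v x =
      (fderiv ℝ (fun w => u (slice b (f x) w)) (b x).1 1 *
        fderiv ℝ (fun w => v (slice b (f x) w)) (b x).1 Complex.I -
        fderiv ℝ (fun w => u (slice b (f x) w)) (b x).1 Complex.I *
        fderiv ℝ (fun w => v (slice b (f x) w)) (b x).1 1) /
          IsBox.dens g b (b x) := by
    intro x hx
    have h2 := (hb.isParam (f x)).wedge_eq g hf (hb.slice_mem hx).1
      (areaC_md hf hu hb hbO hx) (areaC_md hf hv hb hbO hx)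
    rw [areaC_densval g hb hx, (hb.slice_mem hx).2] at h2
    rw [eq_div_iff (areaC_denspos g hf hb hx).ne', h2]
  refine ContinuousOn.congr ?_ h1
  exact (((areaC_contfd hu hb hbO 1).mul (areaC_contfd hv hb hbO Complex.I)).sub
    ((areaC_contfd hu hb hbO Complex.I).mul (areaC_contfd hv hb hbO 1))).div
    (areaC_denscont g hb) (fun x hx => (areaC_denspos g hf hb hx).ne')

theorem continuousOn_dbarSq {u : X → ℂ} {O : Set X} (hO : IsOpen O)
    (hu : ContMDiffOn 𝓘(ℝ, C2) 𝓘(ℝ, ℂ) ∞ u O) :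
    ContinuousOn (dbarSq g f u) (O \ Crit f) := by
  refine areaC_glue hf hO (fun b hb hbO => ?_)
  have h1 : ∀ x ∈ b.source, dbarSq g f u x =
      (‖fderiv ℝ (fun w => u (slice b (f x) w)) (b x).1 1 +
        Complex.I * fderiv ℝ (fun w => u (slice b (f x) w)) (b x).1 Complex.I‖ ^ 2 / 2) /
          IsBox.dens g b (b x) := by
    intro x hx
    have h2 := (hb.isParam (f x)).dbarSq_eq g hf (hb.slice_mem hx).1 (areaC_md hf hu hb hbO hx)
    rw [areaC_densval g hb hx, (hb.slice_mem hx).2] at h2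
    rw [eq_div_iff (areaC_denspos g hf hb hx).ne', h2]
  refine ContinuousOn.congr ?_ h1
  exact ((((areaC_contfd hu hb hbO 1).add (continuousOn_const.mul
    (areaC_contfd hu hb hbO Complex.I))).norm.pow 2).div_const 2).div (areaC_denscont g hb)
    (fun x hx => (areaC_denspos g hf hb hx).ne')

theorem continuousOn_coSq {h : X → ℂ} {O : Set X} (hO : IsOpen O)
    (hh : ContMDiffOn 𝓘(ℂ, C2) 𝓘(ℂ, ℂ) ω h O) :
    ContinuousOn (coSq g f h) (O \ Crit f) := by
  have hhr : ContMDiffOn 𝓘(ℝ, C2) 𝓘(ℝ, ℂ) ∞ h O := hol_real hh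
  refine areaC_glue hf hO (fun b hb hbO => ?_)
  have h1 : ∀ x ∈ b.source, coSq g f h x =
      ‖fderiv ℝ (fun w => h (slice b (f x) w)) (b x).1 1‖ ^ 2 / IsBox.dens g b (b x) := by
    intro x hx
    have hmd : MDifferentiableAt 𝓘(ℂ, C2) 𝓘(ℂ, ℂ) h (slice b (f x) (b x).1) := by
      rw [(hb.slice_mem hx).2]
      exact ((hh.mono hbO).contMDiffAt (b.open_source.mem_nhds hx)).mdifferentiableAt (by simp)
    have h2 := (hb.isParam (f x)).coSq_eq g hf (hb.slice_mem hx).1 hmd
    rw [areaC_densval g hb hx, (hb.slice_mem hx).2] at h2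
    have h3 : fderiv ℝ (fun w => h (slice b (f x) w)) (b x).1 1 =
        deriv (fun w => h (slice b (f x) w)) (b x).1 := by
      have h4 := hmd.comp (b x).1 (tanA_mdiff (hb.isParam (f x)) (hb.slice_mem hx).1)
      have h5 : DifferentiableAt ℂ (fun w => h (slice b (f x) w)) (b x).1 :=
        mdifferentiableAt_iff_differentiableAt.mp h4
      rw [h5.fderiv_restrictScalars ℝ]
      rfl
    rw [eq_div_iff (areaC_denspos g hf hb hx).ne', h2, h3]
  refine ContinuousOn.congr ?_ h1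
  exact ((areaC_contfd hhr hb hbO 1).norm.pow 2).div (areaC_denscont g hb)
    (fun x hx => (areaC_denspos g hf hb hx).ne')

end DD
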