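import Pool.Agent.Work.MP_dd1e4a_gt.AreaB
import Pool.Agent.Work.MP_dd1e4a_gt.AreaC

/-! # AreaD: integrability

`integrable`: `G` is continuous on the open set `(Crit f)ᶜ` (`isClosed_crit`) and zero off `K`, so it
is bounded and measurable; `finite_compact`. `integrable_test`: `K = tsupport u`. -/

open scoped Manifold ContDiff Topology
open MeasureTheory Set

namespace DD

variable {X : Type} [TopologicalSpace X] [T2Space X] [SecondCountableTopology X]
  [ChartedSpace C2 X] [IsManifold 𝓘(ℂ, C2) ω X] [MeasurableSpace X] [BorelSpace X]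
  {g : HermMetric X} {f : X → ℂ} {s : ℂ} {μ : Measure X}

/-- a function which is continuous off the critical points and vanishes off a compact set disjoint
from them is integrable on every fibre. -/
theorem IsFibreArea.integrable (hf : ContMDiff 𝓘(ℂ, C2) 𝓘(ℂ, ℂ) ω f)
    (hμ : IsFibreArea g f s μ) {F : Type} [NormedAddCommGroup F] [NormedSpace ℝ F]
    [SecondCountableTopology F] {G : X → F} {K : Set X} (hK : IsCompact K)
    (hKc : Disjoint K (Crit f)) (hG : ContinuousOn G (Crit f)ᶜ) (h0 : ∀ x ∉ K, G x = 0) :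
    Integrable G μ := by
  have hsub : Function.support G ⊆ K := fun x hx => by
    by_contra hxK
    exact hx (h0 x hxK)
  rw [← integrableOn_iff_integrable_of_support_subset hsub]
  have hGK : ContinuousOn G K := hG.mono (Set.disjoint_left.1 hKc)
  have hfin := hμ.finite_compact hf hK hKc
  have hKm : MeasurableSet K := hK.isClosed.measurableSet
  obtain ⟨C, hC⟩ := hK.exists_bound_of_continuousOn hGK
  exact IntegrableOn.of_bound hfin (hGK.aestronglyMeasurable hKm) C
    ((ae_restrict_iff' hKm).2 (Filter.Eventually.of_forall hC))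

omit [T2Space X] [SecondCountableTopology X] [IsManifold 𝓘(ℂ, C2) ω X] [MeasurableSpace X] [BorelSpace X] in
private theorem AreaD_dR_zero {u : X → ℂ} {x : X} (hx : x ∉ tsupport u)
    (v : TangentSpace 𝓘(ℂ, C2) x) : dR u x v = 0 := by
  have h1 : u =ᶠ[𝓝 x] fun _ => (0 : ℂ) := notMem_tsupport_iff_eventuallyEq.1 hx
  unfold dR
  rw [h1.mfderiv_eq, mfderiv_const]
  rfl

/-- the energy densities of a test function are integrable. -/
theorem IsFibreArea.integrable_test (hf : ContMDiff 𝓘(ℂ, C2) 𝓘(ℂ, ℂ) ω f)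
    (hμ : IsFibreArea g f s μ) {u : X → ℂ} (hu : u ∈ Test f) :
    Integrable (gradSq g f u) μ ∧ Integrable (dbarSq g f u) μ ∧
      Integrable (fun x => ‖u x‖ ^ 2) μ := by
  obtain ⟨h1, h2, h3⟩ := hu
  have hO : ContMDiffOn 𝓘(ℝ, C2) 𝓘(ℝ, ℂ) ∞ u univ := h1.contMDiffOn
  refine ⟨?_, ?_, ?_⟩
  · refine hμ.integrable hf h2.isCompact h3 ?_ ?_
    · have := continuousOn_gradSq g hf isOpen_univ hO
      rwa [← compl_eq_univ_sdiff] at this
    · intro x hx
      unfold gradSq
      rw [AreaD_dR_zero hx, AreaD_dR_zero hx]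
      simp
  · refine hμ.integrable hf h2.isCompact h3 ?_ ?_
    · have := continuousOn_dbarSq g hf isOpen_univ hO
      rwa [← compl_eq_univ_sdiff] at this
    · intro x hx
      unfold dbarSq
      rw [AreaD_dR_zero hx, AreaD_dR_zero hx]
      simp
  · refine hμ.integrable hf h2.isCompact h3 ?_ ?_
    · exact (h1.continuous.norm.pow 2).continuousOn
    · intro x hx
      rw [image_eq_zero_of_notMem_tsupport hx]
      simp

end DD
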