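import Pool.Agent.Work.MP_dd1e4a_gt.CalcB

/-! # TanA: the tangent line of the fibres

`df_x` is a nonzero linear form on `ℂ²`, `tanVec f x = (-df(0,1), df(1,0))` spans its kernel.
For a parametrization `φ` of the fibre `f = s`: `0 = d(f ∘ φ) = df(φ')`, so
`φ'(z) = c • tanVec f (φ z)` with `c ≠ 0` (`IsParam.vel_eq`). -/

open scoped Manifold ContDiff Topology
open MeasureTheory Set

namespace DD

variable {X : Type} [TopologicalSpace X] [ChartedSpace C2 X] {f : X → ℂ} {x : X}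

theorem tanA_lin (L : C2 →L[ℂ] ℂ) (w : C2) :
    L w = w.1 * L ((1 : ℂ), (0 : ℂ)) + w.2 * L ((0 : ℂ), (1 : ℂ)) := by
  have h : w = w.1 • (((1 : ℂ), (0 : ℂ)) : C2) + w.2 • (((0 : ℂ), (1 : ℂ)) : C2) := by
    ext <;> simp
  conv_lhs => rw [h]
  rw [map_add, map_smul, map_smul, smul_eq_mul, smul_eq_mul]

theorem tanA_ne_pair (L : C2 →L[ℂ] ℂ) (hL : L ≠ 0) :
    L ((1 : ℂ), (0 : ℂ)) ≠ 0 ∨ L ((0 : ℂ), (1 : ℂ)) ≠ 0 := by
  by_contra h
  push Not at h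
  apply hL
  ext w
  · simp [h.1]
  · simp [h.2]

theorem tanA_exists (L : C2 →L[ℂ] ℂ) (hL : L ≠ 0) (v : C2) (hv : L v = 0) :
    ∃ c : ℂ, v = c • ((-(L ((0 : ℂ), (1 : ℂ))), L ((1 : ℂ), (0 : ℂ))) : C2) := by
  rw [tanA_lin L v] at hv
  rcases tanA_ne_pair L hL with h | h
  · refine ⟨v.2 / L ((1 : ℂ), (0 : ℂ)), ?_⟩
    ext
    · simp only [Prod.smul_fst, smul_eq_mul]
      field_simp
      linear_combination hv
    · simp only [Prod.smul_snd, smul_eq_mul]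
      field_simp
  · refine ⟨-(v.1) / L ((0 : ℂ), (1 : ℂ)), ?_⟩
    ext
    · simp only [Prod.smul_fst, smul_eq_mul]
      field_simp
    · simp only [Prod.smul_snd, smul_eq_mul]
      field_simp
      linear_combination hv

theorem tanVec_ne (hx : x ∉ Crit f) : tanVec f x ≠ 0 := by
  have hL : mfderiv 𝓘(ℂ, C2) 𝓘(ℂ, ℂ) f x ≠ 0 := hx
  rcases tanA_ne_pair _ hL with h | h
  · intro h0
    exact h (congrArg Prod.snd (show ((-(mfderiv 𝓘(ℂ, C2) 𝓘(ℂ, ℂ) f x ((0 : ℂ), (1 : ℂ)) : ℂ),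
      (mfderiv 𝓘(ℂ, C2) 𝓘(ℂ, ℂ) f x ((1 : ℂ), (0 : ℂ)) : ℂ)) : C2) = 0 from h0))
  · intro h0
    have h1 := congrArg Prod.fst (show ((-(mfderiv 𝓘(ℂ, C2) 𝓘(ℂ, ℂ) f x ((0 : ℂ), (1 : ℂ)) : ℂ),
      (mfderiv 𝓘(ℂ, C2) 𝓘(ℂ, ℂ) f x ((1 : ℂ), (0 : ℂ)) : ℂ)) : C2) = 0 from h0)
    exact h (neg_eq_zero.mp h1)

theorem dC_tanVec (f : X → ℂ) (x : X) : dC f x (tanVec f x) = 0 := by
  have h : ∀ L : C2 →L[ℂ] ℂ, L ((-(L ((0 : ℂ), (1 : ℂ))), L ((1 : ℂ), (0 : ℂ))) : C2) = 0 := by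
    intro L
    rw [tanA_lin L]
    ring
  exact h _

theorem exists_smul_tanVec (hx : x ∉ Crit f) (v : TangentSpace 𝓘(ℂ, C2) x) (hv : dC f x v = 0) :
    ∃ c : ℂ, v = c • tanVec f x := by
  have hL : mfderiv 𝓘(ℂ, C2) 𝓘(ℂ, ℂ) f x ≠ 0 := hx
  exact tanA_exists _ hL v hv

theorem tanA_smul_right (g : HermMetric X) (x : X) (c : ℂ) (v w : TangentSpace 𝓘(ℂ, C2) x) :
    g.inner x v (c • w) = (starRingEnd ℂ) c * g.inner x v w := by
  rw [g.conj_symm, g.smul_left, map_mul, ← g.conj_symm]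

theorem normSq_smul (g : HermMetric X) (x : X) (c : ℂ) (v : TangentSpace 𝓘(ℂ, C2) x) :
    g.normSq x (c • v) = ‖c‖ ^ 2 * g.normSq x v := by
  rw [HermMetric.normSq, HermMetric.normSq, g.smul_left, tanA_smul_right, ← mul_assoc,
    Complex.mul_conj, Complex.re_ofReal_mul, Complex.normSq_eq_norm_sq]

theorem normSq_pos (g : HermMetric X) (x : X) {v : TangentSpace 𝓘(ℂ, C2) x} (hv : v ≠ 0) :
    0 < g.normSq x v := g.pos x v hv

theorem normSq_nonneg (g : HermMetric X) (x : X) (v : TangentSpace 𝓘(ℂ, C2) x) :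
    0 ≤ g.normSq x v := by
  by_cases hv : v = 0
  · have h := normSq_smul g x 0 v
    rw [hv, smul_zero] at h
    rw [hv, h]
    simp
  · exact (normSq_pos g x hv).le

theorem gradSq_nonneg {F : Type} [NormedAddCommGroup F] [NormedSpace ℝ F] (g : HermMetric X)
    (f : X → ℂ) (u : X → F) (x : X) : 0 ≤ gradSq g f u x :=
  div_nonneg (by positivity) (normSq_nonneg g x _)

theorem tanA_mdiff {s : ℂ} {U : Set ℂ} {φ : ℂ → X} (h : IsParam f s U φ) {z : ℂ} (hz : z ∈ U) :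
    MDifferentiableAt 𝓘(ℂ, ℂ) 𝓘(ℂ, C2) φ z :=
  (h.holo.contMDiffAt (h.isOpen.mem_nhds hz)).mdifferentiableAt (by simp)

theorem IsParam.vel_eq (hf : ContMDiff 𝓘(ℂ, C2) 𝓘(ℂ, ℂ) ω f) {s : ℂ} {U : Set ℂ} {φ : ℂ → X}
    (h : IsParam f s U φ) {z : ℂ} (hz : z ∈ U) :
    ∃ c : ℂ, c ≠ 0 ∧ vel φ z = c • tanVec f (φ z) := by
  have hfm : MDifferentiableAt 𝓘(ℂ, C2) 𝓘(ℂ, ℂ) f (φ z) :=
    (hf.contMDiffAt).mdifferentiableAt (by simp)
  have h1 := deriv_comp_curve hfm (tanA_mdiff h hz)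
  have h2 : deriv (fun w => f (φ w)) z = 0 := by
    have h3 : (fun w => f (φ w)) =ᶠ[𝓝 z] fun _ => s := by
      filter_upwards [h.isOpen.mem_nhds hz] with w hw
      exact h.fib w hw
    rw [h3.deriv_eq, deriv_const]
  obtain ⟨c, hc⟩ := exists_smul_tanVec (h.reg z hz) (vel φ z) (h1.symm.trans h2)
  refine ⟨c, ?_, hc⟩
  rintro rfl
  rw [zero_smul] at hc
  exact h.imm z hz hc

end DD
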