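import Pool.Agent.Work.MP_dd1e4a_gt.MetA
import Pool.Agent.Work.MP_dd1e4a_gt.TanA

/-! # BoxA: a box contains no critical point; slices are parametrizations

* `disjoint_crit`: `(b x).2 = f x` and `b` is a diffeomorphism, so `df_x ≠ 0` on the source.
* slices are parametrizations: `w ↦ b.symm (w, s)`; `vel (slice b s) w = d(b.symm)_{(w,s)} (1, 0)`. -/

open scoped Manifold ContDiff Topology
open MeasureTheory Set

namespace DD

variable {X : Type} [TopologicalSpace X] [ChartedSpace C2 X] [IsManifold 𝓘(ℂ, C2) ω X]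
  {f : X → ℂ}

omit [IsManifold 𝓘(ℂ, C2) ω X] in
theorem boxA_dC {b : OpenPartialHomeomorph X C2} (hb : IsBox f b) {x : X} (hx : x ∈ b.source)
    (v : TangentSpace 𝓘(ℂ, C2) x) :
    dC f x v = (show C2 from mfderiv 𝓘(ℂ, C2) 𝓘(ℂ, C2) b x v).2 := by
  rw [← metA_snd b hb.holo hx v]
  have h : f =ᶠ[𝓝 x] fun y => (b y).2 := by
    filter_upwards [b.open_source.mem_nhds hx] with y hy
    exact (hb.snd y hy).symm
  have h2 : mfderiv 𝓘(ℂ, C2) 𝓘(ℂ, ℂ) f x = mfderiv 𝓘(ℂ, C2) 𝓘(ℂ, ℂ) (fun y => (b y).2) x :=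
    h.mfderiv_eq
  exact congrArg (fun L : C2 →L[ℂ] ℂ => L v) h2

omit [IsManifold 𝓘(ℂ, C2) ω X] in
/-- the vector with given coordinates. -/
theorem boxA_vec {b : OpenPartialHomeomorph X C2} (hb : IsBox f b) {x : X} (hx : x ∈ b.source)
    (w : C2) : ∃ v : TangentSpace 𝓘(ℂ, C2) x,
      (show C2 from mfderiv 𝓘(ℂ, C2) 𝓘(ℂ, C2) b x v) = w := by
  have h : ∀ (y : X), y = x → ∀ v' : C2, (mfderiv 𝓘(ℂ, C2) 𝓘(ℂ, C2) b y v' : C2) =
      mfderiv 𝓘(ℂ, C2) 𝓘(ℂ, C2) b x v' := by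
    rintro y rfl v'
    rfl
  have h1 := metA_right b hb.holo hb.holo_symm (b.map_source hx) w
  exact ⟨_, (h _ (b.left_inv hx) _).symm.trans h1⟩

theorem IsBox.disjoint_crit {b : OpenPartialHomeomorph X C2} (hb : IsBox f b) :
    Disjoint b.source (Crit f) := by
  rw [Set.disjoint_left]
  intro x hx hxc
  obtain ⟨v, hv⟩ := boxA_vec hb hx ((0 : ℂ), (1 : ℂ))
  have h1 := boxA_dC hb hx v
  rw [hv] at h1
  have h2 : dC f x v = 0 := by
    have h3 : mfderiv 𝓘(ℂ, C2) 𝓘(ℂ, ℂ) f x = 0 := hxc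
    exact congrArg (fun L : C2 →L[ℂ] ℂ => L v) h3
  rw [h2] at h1
  exact zero_ne_one h1

theorem isOpen_sliceDom (b : OpenPartialHomeomorph X C2) (s : ℂ) : IsOpen (sliceDom b s) :=
  b.open_target.preimage (show Continuous fun w : ℂ => ((w, s) : C2) by fun_prop)

theorem IsBox.vel_slice {b : OpenPartialHomeomorph X C2} (hb : IsBox f b) {s w : ℂ}
    (hw : w ∈ sliceDom b s) :
    vel (slice b s) w = mfderiv 𝓘(ℂ, C2) 𝓘(ℂ, C2) b.symm ((w, s) : C2) (((1 : ℂ), (0 : ℂ)) : C2) := by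
  have h1 : HasMFDerivAt 𝓘(ℂ, ℂ) 𝓘(ℂ, C2) (fun w : ℂ => ((w, s) : C2)) w
      ((ContinuousLinearMap.id ℂ ℂ).prod (0 : ℂ →L[ℂ] ℂ)) :=
    ((hasFDerivAt_id w).prodMk (hasFDerivAt_const s w)).hasMFDerivAt
  have h2 := ((metA_mds b hb.holo_symm hw).hasMFDerivAt.comp w h1).mfderiv
  exact congrArg (fun L : ℂ →L[ℂ] C2 => L 1) h2

theorem IsBox.isParam {b : OpenPartialHomeomorph X C2} (hb : IsBox f b) (s : ℂ) :
    IsParam f s (sliceDom b s) (slice b s) where
  isOpen := isOpen_sliceDom b s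
  holo := by
    have h1 : ContMDiffOn 𝓘(ℂ, ℂ) 𝓘(ℂ, C2) ω (fun w : ℂ => ((w, s) : C2)) (sliceDom b s) :=
      (contDiff_id.prodMk contDiff_const).contMDiff.contMDiffOn
    exact hb.holo_symm.comp h1 (fun w hw => hw)
  inj := by
    intro w hw w' hw' h
    have h1 := b.symm.injOn hw hw' h
    exact congrArg Prod.fst h1
  imm := by
    intro w hw h0
    rw [hb.vel_slice hw] at h0
    have h1 := mfderiv_symm_injective b hb.holo hb.holo_symm hw
      (h0.trans (map_zero (mfderiv 𝓘(ℂ, C2) 𝓘(ℂ, C2) b.symm ((w, s) : C2))).symm)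
    exact one_ne_zero (congrArg Prod.fst h1)
  fib := by
    intro w hw
    have h1 := hb.snd (b.symm (w, s)) (b.map_target hw)
    rw [b.right_inv hw] at h1
    exact h1.symm
  reg := fun w hw => Set.disjoint_left.mp hb.disjoint_crit (b.map_target hw)

theorem IsBox.slice_mem {b : OpenPartialHomeomorph X C2} (hb : IsBox f b) {x : X}
    (hx : x ∈ b.source) : (b x).1 ∈ sliceDom b (f x) ∧ slice b (f x) (b x).1 = x := by
  have h1 : ((b x).1, f x) = b x := Prod.ext rfl (hb.snd x hx).symm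
  constructor
  · change ((b x).1, f x) ∈ b.target
    rw [h1]
    exact b.map_source hx
  · change b.symm ((b x).1, f x) = x
    rw [h1, b.left_inv hx]

theorem IsBox.image_slice {b : OpenPartialHomeomorph X C2} (hb : IsBox f b) (s : ℂ) :
    slice b s '' sliceDom b s = {x | x ∈ b.source ∧ f x = s} := by
  ext x
  constructor
  · rintro ⟨w, hw, rfl⟩
    exact ⟨b.map_target hw, (hb.isParam s).fib w hw⟩
  · rintro ⟨hx, rfl⟩
    exact ⟨(b x).1, hb.slice_mem hx⟩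

end DD
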