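import Pool.Agent.Work.MP_dd1e4a_gt.BoxB

/-! # BoxCompact: uniform statements on compact subsets of a box

`K ⊆ b.source` compact.
* `box_compact`: for `x₀ ∈ K` with `f x₀ = 0` the point `b x₀ = (w₀, 0)` has a compact polydisc
  neighbourhood in `b.target`; finitely many of the corresponding neighbourhoods of `x₀` in `X`
  cover `K ∩ {f = 0}`, hence (compactness) also `K ∩ {‖f‖ ≤ ρ}` for small `ρ`. `K'` = finite union
  of compact polydiscs `closedBall w_i r_i × closedBall 0 ρ`.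
* `box_lip`: mean value inequality for `t ↦ h (w, t)` on the disc `‖t‖ ≤ ρ`, with a bound of the
  derivative on `K'`. -/

open scoped Manifold ContDiff Topology
open MeasureTheory Set

namespace DD

variable {X : Type} [TopologicalSpace X] [T2Space X] [SecondCountableTopology X]
  [ChartedSpace C2 X] [IsManifold 𝓘(ℂ, C2) ω X] {f : X → ℂ}

theorem box_compact (hf : ContMDiff 𝓘(ℂ, C2) 𝓘(ℂ, ℂ) ω f) {b : OpenPartialHomeomorph X C2}
    (hb : IsBox f b) {K : Set X} (hK : IsCompact K) (hKs : K ⊆ b.source) :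
    ∃ ρ > 0, ∃ K' : Set C2, IsCompact K' ∧ K' ⊆ b.target ∧
      ∀ x ∈ K, ‖f x‖ ≤ ρ → ∀ s : ℂ, ‖s‖ ≤ ρ → ((b x).1, s) ∈ K' ∧ x ∈ transDom b s := by
  have hfc : Continuous f := hf.continuous
  have hbc : ContinuousOn b K := b.continuousOn.mono hKs
  have hb1 : ContinuousOn (fun x => (b x).1) K := continuous_fst.comp_continuousOn hbc
  set K0 : Set X := K ∩ f ⁻¹' {0} with hK0
  have hK0c : IsCompact K0 := hK.inter_right (isClosed_singleton.preimage hfc)
  set A : Set ℂ := (fun x => (b x).1) '' K0 with hA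
  have hAc : IsCompact A := hK0c.image_of_continuousOn (hb1.mono inter_subset_left)
  have hAt : A ×ˢ ({0} : Set ℂ) ⊆ b.target := by
    rintro ⟨w, t⟩ ⟨⟨x, hx, rfl⟩, ht⟩
    simp only [mem_singleton_iff] at ht
    subst ht
    have h1 : (b x).2 = 0 := by rw [hb.snd x (hKs hx.1)]; exact hx.2
    have h2 : ((b x).1, (0 : ℂ)) = b x := by rw [← h1]
    show ((b x).1, (0 : ℂ)) ∈ b.target
    rw [h2]
    exact b.map_source (hKs hx.1)
  obtain ⟨u, v, hu, hv, hAu, h0v, huv⟩ :=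
    generalized_tube_lemma hAc isCompact_singleton b.open_target hAt
  obtain ⟨L, hL, hAL, hLu⟩ := exists_compact_between hAc hu hAu
  obtain ⟨ρ0, hρ0, hρv⟩ := Metric.nhds_basis_closedBall.mem_iff.1
    (hv.mem_nhds (h0v (mem_singleton (0 : ℂ))))
  set K1 : Set X := K ∩ (fun x => (b x).1) ⁻¹' (interior L)ᶜ with hK1
  have hK1c : IsCompact K1 := by
    have h1 : IsClosed K1 := hb1.preimage_isClosed_of_isClosed hK.isClosed
      isOpen_interior.isClosed_compl
    exact hK.of_isClosed_subset h1 inter_subset_left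
  have hK1f : ∀ x ∈ K1, 0 < ‖f x‖ := by
    intro x hx
    rw [norm_pos_iff]
    intro h0
    exact hx.2 (hAL ⟨x, ⟨hx.1, h0⟩, rfl⟩)
  obtain ⟨ρ1, hρ1, hρ1K⟩ : ∃ ρ1 > 0, ∀ x ∈ K1, ρ1 < ‖f x‖ := by
    rcases K1.eq_empty_or_nonempty with h | h
    · exact ⟨1, one_pos, by rw [h]; intro x hx; exact absurd hx (notMem_empty x)⟩
    · obtain ⟨x0, hx0, hmin⟩ := hK1c.exists_isMinOn h hfc.norm.continuousOn
      refine ⟨‖f x0‖ / 2, by have := hK1f x0 hx0; linarith, ?_⟩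
      intro x hx
      have h1 : ‖f x0‖ ≤ ‖f x‖ := hmin hx
      have h2 := hK1f x0 hx0
      linarith
  refine ⟨min ρ0 ρ1, lt_min hρ0 hρ1, L ×ˢ Metric.closedBall (0 : ℂ) (min ρ0 ρ1),
    hL.prod (isCompact_closedBall _ _), ?_, ?_⟩
  · refine Subset.trans ?_ huv
    exact Set.prod_mono hLu
      ((Metric.closedBall_subset_closedBall (min_le_left _ _)).trans hρv)
  · intro x hx hfx s hs
    have hxL : (b x).1 ∈ interior L := by
      by_contra h
      have h1 := hρ1K x ⟨hx, h⟩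
      have h2 := hfx.trans (min_le_right _ _)
      linarith
    have hmem : ((b x).1, s) ∈ L ×ˢ Metric.closedBall (0 : ℂ) (min ρ0 ρ1) :=
      ⟨interior_subset hxL, by rwa [mem_closedBall_zero_iff]⟩
    refine ⟨hmem, hKs hx, huv ?_⟩
    exact ⟨hLu (interior_subset hxL), hρv (Metric.closedBall_subset_closedBall (min_le_left _ _)
      hmem.2)⟩

theorem box_lip (hf : ContMDiff 𝓘(ℂ, C2) 𝓘(ℂ, ℂ) ω f) {b : OpenPartialHomeomorph X C2}
    (hb : IsBox f b) {K : Set X} (hK : IsCompact K) (hKs : K ⊆ b.source) {F : Type}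
    [NormedAddCommGroup F] [NormedSpace ℝ F] {h : C2 → F} (hh : ContDiffOn ℝ 1 h b.target) :
    ∃ C > 0, ∃ ρ > 0, ∀ x ∈ K, ‖f x‖ ≤ ρ → ∀ s : ℂ, ‖s‖ ≤ ρ →
      x ∈ transDom b s ∧ ‖h ((b x).1, s) - h (b x)‖ ≤ C * ‖s - f x‖ := by
  obtain ⟨ρ, hρ, K', hK', hK't, hmem⟩ := box_compact hf hb hK hKs
  have hcont : ContinuousOn (fun z => ‖fderiv ℝ h z‖) K' :=
    ((hh.continuousOn_fderiv_of_isOpen b.open_target le_rfl).mono hK't).norm
  obtain ⟨C, hC⟩ := hK'.bddAbove_image hcont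
  have hC' : ∀ z ∈ K', ‖fderiv ℝ h z‖ ≤ max C 1 := fun z hz =>
    (hC (mem_image_of_mem _ hz)).trans (le_max_left _ _)
  refine ⟨max C 1, lt_of_lt_of_le one_pos (le_max_right _ _), ρ, hρ, ?_⟩
  intro x hx hfx s hs
  refine ⟨(hmem x hx hfx s hs).2, ?_⟩
  have hdisc : ∀ t ∈ Metric.closedBall (0 : ℂ) ρ, ((b x).1, t) ∈ K' := fun t ht =>
    (hmem x hx hfx t (by rwa [mem_closedBall_zero_iff] at ht)).1
  have hder : ∀ t ∈ Metric.closedBall (0 : ℂ) ρ, HasFDerivWithinAt (fun t : ℂ => h ((b x).1, t))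
      ((fderiv ℝ h ((b x).1, t)).comp (ContinuousLinearMap.inr ℝ ℂ ℂ))
      (Metric.closedBall (0 : ℂ) ρ) t := by
    intro t ht
    have h1 : DifferentiableAt ℝ h ((b x).1, t) :=
      (hh.differentiableOn (by norm_num)).differentiableAt
        (b.open_target.mem_nhds (hK't (hdisc t ht)))
    have h2 : HasFDerivAt (fun t : ℂ => ((b x).1, t)) (ContinuousLinearMap.inr ℝ ℂ ℂ) t :=
      hasFDerivAt_prodMk_right _ _
    exact (h1.hasFDerivAt.comp t h2).hasFDerivWithinAt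
  have hbound : ∀ t ∈ Metric.closedBall (0 : ℂ) ρ,
      ‖(fderiv ℝ h ((b x).1, t)).comp (ContinuousLinearMap.inr ℝ ℂ ℂ)‖ ≤ max C 1 := by
    intro t ht
    calc ‖(fderiv ℝ h ((b x).1, t)).comp (ContinuousLinearMap.inr ℝ ℂ ℂ)‖
        ≤ ‖fderiv ℝ h ((b x).1, t)‖ * ‖ContinuousLinearMap.inr ℝ ℂ ℂ‖ :=
          ContinuousLinearMap.opNorm_comp_le _ _
      _ ≤ max C 1 * 1 := by
          apply mul_le_mul (hC' _ (hdisc t ht)) (ContinuousLinearMap.norm_inr_le_one ℝ ℂ ℂ)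
            (norm_nonneg _) (by positivity)
      _ = max C 1 := mul_one _
  have h3 := (convex_closedBall (0 : ℂ) ρ).norm_image_sub_le_of_norm_hasFDerivWithin_le hder hbound
    (mem_closedBall_zero_iff.2 hfx) (mem_closedBall_zero_iff.2 hs)
  have h4 : ((b x).1, f x) = b x := by rw [← hb.snd x (hKs hx)]
  rw [h4] at h3
  exact h3

end DD
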