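import Pool.Agent.Work.MP_dd1e4a_gt.AreaA
import Pool.Agent.Work.MP_dd1e4a_gt.TanC

/-! # ChangeFibre: change of variables between two fibres

`X_{s'} ∩ O` is covered by countably many images `φ n '' U n` of parametrizations (slices of
boxes contained in `O`, second countability / Lindelöf). Put
`A n = A ∩ φ n '' U n \ ⋃_{j<n} φ j '' U j` (measurable). `σ ∘ φ n` is a parametrization of the
fibre `s` on `U n` (injective because `σ` is injective on `O ∩ {f = s'}`; `vel_comp`, `imm`,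
`IsParam.vel_eq`), so by `lintegral_image` twice
`∫_{σ(A n)} G dμ = ∫_{(φ n)⁻¹ (A n)} G(σ φ z) |(σφ)'(z)|² dz
  = ∫_{(φ n)⁻¹ (A n)} G(σ φ z) ratio(φ z) |φ'(z)|² dz = ∫_{A n} G∘σ · ratio dμ'`.
Sum over `n` (the sets `σ '' A n` are disjoint by injectivity). -/

open scoped Manifold ContDiff Topology
open MeasureTheory Set

namespace DD

variable {X : Type} [TopologicalSpace X] [T2Space X] [SecondCountableTopology X]
  [ChartedSpace C2 X] [IsManifold 𝓘(ℂ, C2) ω X] [MeasurableSpace X] [BorelSpace X]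
  {g : HermMetric X} {f : X → ℂ} {s s' : ℂ} {μ μ' : Measure X} {O : Set X} {σ : X → X}

omit [T2Space X] [SecondCountableTopology X] [MeasurableSpace X] [BorelSpace X]
  [IsManifold 𝓘(ℂ, C2) ω X] in
theorem changeFibre_md (hσ : IsTransport f s' s O σ) {x : X} (hx : x ∈ O) :
    MDifferentiableAt 𝓘(ℂ, C2) 𝓘(ℂ, C2) σ x :=
  (hσ.holo.contMDiffAt (hσ.isOpen.mem_nhds hx)).mdifferentiableAt (by simp)

/-- pointwise conformal invariance for transports. -/
theorem IsTransport.gradSq_comp (hf : ContMDiff 𝓘(ℂ, C2) 𝓘(ℂ, ℂ) ω f)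
    (hσ : IsTransport f s' s O σ) {u : X → ℂ} (hu : ContMDiff 𝓘(ℝ, C2) 𝓘(ℝ, ℂ) ∞ u) {x : X}
    (hx : x ∈ O) :
    gradSq g f (fun y => u (σ y)) x = gradSq g f u (σ x) * ratio g f σ x := by
  have hmf : MDifferentiableAt 𝓘(ℂ, C2) 𝓘(ℂ, ℂ) f (σ x) :=
    (hf.contMDiffAt).mdifferentiableAt (by simp)
  refine DD.gradSq_comp g (hσ.reg x hx).1 (hσ.reg x hx).2 (changeFibre_md hσ hx) ?_
    ((hu.contMDiffAt).mdifferentiableAt (by simp))
  have h1 := (hmf.hasMFDerivAt.comp x (changeFibre_md hσ hx).hasMFDerivAt).mfderiv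
  have h2 : f ∘ σ =ᶠ[𝓝 x] fun _ => s := by
    filter_upwards [hσ.isOpen.mem_nhds hx] with y hy
    exact hσ.fib y hy
  have h3 : mfderiv 𝓘(ℂ, C2) 𝓘(ℂ, ℂ) (f ∘ σ) x = 0 := by
    have h4 : mfderiv 𝓘(ℂ, C2) 𝓘(ℂ, ℂ) (f ∘ σ) x =
      mfderiv 𝓘(ℂ, C2) 𝓘(ℂ, ℂ) (fun _ : X => s) x := h2.mfderiv_eq
    rw [h4]
    exact mfderiv_const
  have h5 := h1.symm.trans h3
  exact congrArg (fun L : C2 →L[ℂ] ℂ => L (tanVec f x)) h5

/-- the composition of a parametrization and a transport. -/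
theorem changeFibre_param (hσ : IsTransport f s' s O σ) (hf : ContMDiff 𝓘(ℂ, C2) 𝓘(ℂ, ℂ) ω f)
    {U : Set ℂ} {φ : ℂ → X} (hφ : IsParam f s' U φ) (hU : ∀ z ∈ U, φ z ∈ O) :
    IsParam f s U (fun z => σ (φ z)) where
  isOpen := hφ.isOpen
  holo := hσ.holo.comp hφ.holo hU
  inj := by
    intro z hz w hw h
    exact hφ.inj hz hw (hσ.inj ⟨hU z hz, hφ.fib z hz⟩ ⟨hU w hw, hφ.fib w hw⟩ h)
  imm := by
    intro z hz h0
    rw [vel_comp (tanA_mdiff hφ hz) (changeFibre_md hσ (hU z hz))] at h0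
    obtain ⟨c, hc, hv⟩ := hφ.vel_eq hf hz
    rw [hv, map_smul] at h0
    exact hσ.imm _ (hU z hz) (hφ.fib z hz) ((smul_eq_zero.mp h0).resolve_left hc)
  fib := fun z hz => hσ.fib _ (hU z hz)
  reg := fun z hz => (hσ.reg _ (hU z hz)).2

theorem changeFibre_jac (g : HermMetric X) (hσ : IsTransport f s' s O σ)
    (hf : ContMDiff 𝓘(ℂ, C2) 𝓘(ℂ, ℂ) ω f)
    {U : Set ℂ} {φ : ℂ → X} (hφ : IsParam f s' U φ) (hU : ∀ z ∈ U, φ z ∈ O) {z : ℂ} (hz : z ∈ U) :
    g.normSq (σ (φ z)) (vel (fun z => σ (φ z)) z) =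
      ratio g f σ (φ z) * g.normSq (φ z) (vel φ z) := by
  obtain ⟨c, hc, hv⟩ := hφ.vel_eq hf hz
  have hn := normSq_pos g (φ z) (tanVec_ne (hφ.reg z hz))
  rw [vel_comp (tanA_mdiff hφ hz) (changeFibre_md hσ (hU z hz)), hv, map_smul, normSq_smul,
    normSq_smul, ratio]
  field_simp

omit [T2Space X] [SecondCountableTopology X] [IsManifold 𝓘(ℂ, C2) ω X] in
theorem changeFibre_pre {U : Set ℂ} {φ : ℂ → X} (hφ : IsParam f s' U φ) {A : Set X}
    (hA : MeasurableSet A) : MeasurableSet (U ∩ φ ⁻¹' A) := by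
  have hc : ContinuousOn φ U := hφ.holo.continuousOn
  have h1 : MeasurableSet ((U.domRestrict φ) ⁻¹' A) :=
    (continuousOn_iff_continuous_domRestrict.1 hc).measurable hA
  have h2 := hφ.isOpen.measurableSet.subtype_image h1
  have h3 : Subtype.val '' ((U.domRestrict φ) ⁻¹' A) = U ∩ φ ⁻¹' A := by
    ext z
    constructor
    · rintro ⟨⟨w, hw⟩, hwB, rfl⟩
      exact ⟨hw, hwB⟩
    · rintro ⟨hz1, hz2⟩
      exact ⟨⟨z, hz1⟩, hz2, rfl⟩
  rwa [h3] at h2

/-- the statement inside one box. -/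
theorem changeFibre_box (hf : ContMDiff 𝓘(ℂ, C2) 𝓘(ℂ, ℂ) ω f)
    (hσ : IsTransport f s' s O σ) {b : OpenPartialHomeomorph X C2} (hb : IsBox f b)
    (hbO : b.source ⊆ O) {A : Set X} (hA : MeasurableSet A) (hAb : A ⊆ b.source ∩ f ⁻¹' {s'}) :
    MeasurableSet (σ '' A) ∧ ∀ (μ μ' : Measure X), IsFibreArea g f s μ → IsFibreArea g f s' μ' →
      ∀ G : X → ENNReal, Measurable G →
      ∫⁻ x in σ '' A, G x ∂μ = ∫⁻ x in A, G (σ x) * ENNReal.ofReal (ratio g f σ x) ∂μ' := by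
  set U := sliceDom b s' with hUdef
  set φ := slice b s' with hφdef
  have hφ : IsParam f s' U φ := hb.isParam s'
  have hUO : ∀ z ∈ U, φ z ∈ O := fun z hz => hbO (b.map_target hz)
  have hτ := changeFibre_param hσ hf hφ hUO
  have hB : MeasurableSet (U ∩ φ ⁻¹' A) := changeFibre_pre hφ hA
  have hBU : U ∩ φ ⁻¹' A ⊆ U := inter_subset_left
  have hAB : φ '' (U ∩ φ ⁻¹' A) = A := by
    rw [image_inter_preimage, hφdef, hUdef, hb.image_slice]
    apply inter_eq_self_of_subset_right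
    intro x hx
    exact ⟨(hAb hx).1, (hAb hx).2⟩
  have hσA : σ '' A = (fun z => σ (φ z)) '' (U ∩ φ ⁻¹' A) := by
    conv_lhs => rw [← hAB, image_image]
  refine ⟨?_, fun μ μ' hμ hμ' G hG => ?_⟩
  · rw [hσA]
    exact hτ.measurableSet_image hB hBU
  · rw [hσA, hμ.lintegral_image hτ hB hBU hG]
    -- the measurability of the integrand
    have hσm : AEMeasurable σ (μ'.restrict A) :=
      (hσ.holo.continuousOn.mono (fun x hx => hbO (hAb hx).1)).aemeasurable hA
    have hrat : ∀ z ∈ U, ratio g f σ (φ z) =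
        g.normSq (σ (φ z)) (vel (fun z => σ (φ z)) z) / g.normSq (φ z) (vel φ z) := by
      intro z hz
      rw [changeFibre_jac g hσ hf hφ hUO hz,
        mul_div_cancel_right₀ _ (normSq_pos g _ (hφ.imm z hz)).ne']
    have hcontR : ContinuousOn (fun z =>
        g.normSq (σ (φ z)) (vel (fun z => σ (φ z)) z) / g.normSq (φ z) (vel φ z)) U :=
      (areaA_cont g hτ).div (areaA_cont g hφ) (fun z hz => (normSq_pos g _ (hφ.imm z hz)).ne')
    have hsl : ∀ x ∈ A, (b x).1 ∈ U ∧ φ (b x).1 = x := by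
      intro x hx
      have h1 := hb.slice_mem (hAb hx).1
      have h2 : f x = s' := (hAb hx).2
      rwa [h2] at h1
    have hcontx : ContinuousOn (fun x => (b x).1) A :=
      (continuous_fst.comp_continuousOn b.continuousOn).mono (fun x hx => (hAb hx).1)
    have hrat2 : ∀ z ∈ U, ∀ y, φ z = y → ratio g f σ y =
        g.normSq (σ (φ z)) (vel (fun z => σ (φ z)) z) / g.normSq (φ z) (vel φ z) := by
      rintro z hz y rfl
      exact hrat z hz
    have hratm : AEMeasurable (fun x => ratio g f σ x) (μ'.restrict A) := by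
      have h1 : ContinuousOn (fun x => ratio g f σ x) A :=
        (hcontR.comp hcontx (fun x hx => (hsl x hx).1)).congr
          (fun x hx => hrat2 _ (hsl x hx).1 x (hsl x hx).2)
      exact h1.aemeasurable hA
    have hFm : AEMeasurable (fun x => G (σ x) * ENNReal.ofReal (ratio g f σ x))
        (μ'.restrict A) := (hG.comp_aemeasurable hσm).mul hratm.ennreal_ofReal
    have hres : μ'.restrict A = Measure.map φ ((volume.restrict (U ∩ φ ⁻¹' A)).withDensity
        (fun z => ENNReal.ofReal (g.normSq (φ z) (vel φ z)))) := by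
      rw [← areaA_restrict hμ' hφ hB hBU, hAB]
    have hφm := areaA_aemeas hφ hB hBU
    have hratz : AEMeasurable (fun z => ratio g f σ (φ z)) (volume.restrict (U ∩ φ ⁻¹' A)) :=
      ((hcontR.congr hrat).mono hBU).aemeasurable hB
    have hGz : AEMeasurable (fun z => G (σ (φ z)) * ENNReal.ofReal (ratio g f σ (φ z)))
        (volume.restrict (U ∩ φ ⁻¹' A)) :=
      (hG.comp_aemeasurable (areaA_aemeas hτ hB hBU)).mul hratz.ennreal_ofReal
    rw [hres] at hFm
    rw [hres, lintegral_map' hFm (hφm.mono_ac (withDensity_absolutelyContinuous _ _)),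
      lintegral_withDensity_eq_lintegral_mul₀ (μ := volume.restrict (U ∩ φ ⁻¹' A))
        (areaA_dens (g := g) hφ hB hBU) (g := fun z => G (σ (φ z)) *
          ENNReal.ofReal (ratio g f σ (φ z))) hGz]
    refine setLIntegral_congr_fun hB fun z hz => ?_
    simp only [Pi.mul_apply]
    rw [changeFibre_jac g hσ hf hφ hUO hz.1]
    have hr0 : 0 ≤ ratio g f σ (φ z) := div_nonneg (normSq_nonneg _ _ _) (normSq_nonneg _ _ _)
    rw [ENNReal.ofReal_mul hr0]
    ring

omit [IsManifold 𝓘(ℂ, C2) ω X] [MeasurableSpace X] [BorelSpace X] in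
theorem changeFibre_cover [IsManifold 𝓘(ℂ, C2) ω X] (hf : ContMDiff 𝓘(ℂ, C2) 𝓘(ℂ, ℂ) ω f)
    (hO : IsOpen O) (hOc : ∀ x ∈ O, x ∉ Crit f) (hne : O.Nonempty) :
    ∃ b : ℕ → OpenPartialHomeomorph X C2, (∀ n, IsBox f (b n)) ∧ (∀ n, (b n).source ⊆ O) ∧
      O = ⋃ n, (b n).source := by
  classical
  let ι := {b : OpenPartialHomeomorph X C2 // IsBox f b ∧ b.source ⊆ O}
  obtain ⟨T, hT, hTU⟩ := TopologicalSpace.isOpen_iUnion_countable (fun b : ι => b.1.source)
    (fun b => b.1.open_source)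
  have hU : ⋃ b : ι, b.1.source = O := by
    apply Subset.antisymm
    · exact iUnion_subset (fun b => b.2.2)
    · intro x hx
      obtain ⟨b, hb, hxb, hbO⟩ := exists_box' hf hO hx (hOc x hx)
      exact mem_iUnion.mpr ⟨⟨b, hb, hbO⟩, hxb⟩
  rw [hU] at hTU
  have hTne : T.Nonempty := by
    obtain ⟨x, hx⟩ := hne
    rw [← hTU] at hx
    obtain ⟨b, hb, -⟩ := mem_iUnion₂.mp hx
    exact ⟨b, hb⟩
  obtain ⟨β, hβ⟩ := hT.exists_eq_range hTne
  refine ⟨fun n => (β n).1, fun n => (β n).2.1, fun n => (β n).2.2, ?_⟩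
  refine hTU.symm.trans ?_
  rw [hβ, biUnion_range]

/-- both statements. -/
theorem changeFibre_main (hf : ContMDiff 𝓘(ℂ, C2) 𝓘(ℂ, ℂ) ω f)
    (hσ : IsTransport f s' s O σ) {A : Set X} (hA : MeasurableSet A)
    (hAO : A ⊆ O ∩ f ⁻¹' {s'}) :
    MeasurableSet (σ '' A) ∧ ∀ (μ μ' : Measure X), IsFibreArea g f s μ → IsFibreArea g f s' μ' →
      ∀ G : X → ENNReal, Measurable G →
      ∫⁻ x in σ '' A, G x ∂μ = ∫⁻ x in A, G (σ x) * ENNReal.ofReal (ratio g f σ x) ∂μ' := by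
  rcases A.eq_empty_or_nonempty with rfl | ⟨x₀, hx₀⟩
  · simp
  obtain ⟨b, hb, hbO, hOb⟩ := changeFibre_cover hf hσ.isOpen (fun x hx => (hσ.reg x hx).1)
    ⟨x₀, (hAO hx₀).1⟩
  set D : ℕ → Set X := disjointed (fun n => (b n).source) with hD
  have hDm : ∀ n, MeasurableSet (D n) := fun n =>
    MeasurableSet.disjointed (fun n => (b n).open_source.measurableSet) n
  have hDs : ∀ n, D n ⊆ (b n).source := fun n => disjointed_subset _ n
  have hDd : Pairwise (Function.onFun Disjoint D) := disjoint_disjointed _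
  have hDU : ⋃ n, D n = O := by rw [hD, iUnion_disjointed, ← hOb]
  have hAU : A = ⋃ n, A ∩ D n := by
    rw [← inter_iUnion, hDU]
    exact (inter_eq_self_of_subset_left (fun x hx => (hAO hx).1)).symm
  have hAm : ∀ n, MeasurableSet (A ∩ D n) := fun n => hA.inter (hDm n)
  have hAd : Pairwise (Function.onFun Disjoint fun n => A ∩ D n) := fun i j hij =>
    (hDd hij).mono inter_subset_right inter_subset_right
  have hAb : ∀ n, A ∩ D n ⊆ (b n).source ∩ f ⁻¹' {s'} := fun n x hx =>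
    ⟨hDs n hx.2, (hAO hx.1).2⟩
  have key := fun n => changeFibre_box (g := g) hf hσ (hb n) (hbO n) (hAm n) (hAb n)
  have hσU : σ '' A = ⋃ n, σ '' (A ∩ D n) := by
    conv_lhs => rw [hAU]
    rw [image_iUnion]
  have hσd : Pairwise (Function.onFun Disjoint fun n => σ '' (A ∩ D n)) := by
    intro i j hij
    rw [Function.onFun, Set.disjoint_left]
    rintro _ ⟨x, hx, rfl⟩ ⟨y, hy, hxy⟩
    have h1 : y = x := hσ.inj (hAO hy.1) (hAO hx.1) hxy
    subst h1
    exact Set.disjoint_left.mp (hDd hij) hx.2 hy.2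
  refine ⟨?_, fun μ μ' hμ hμ' G hG => ?_⟩
  · rw [hσU]
    exact MeasurableSet.iUnion (fun n => (key n).1)
  · rw [hσU, lintegral_iUnion (fun n => (key n).1) hσd]
    conv_rhs => rw [hAU]
    rw [lintegral_iUnion hAm hAd]
    exact tsum_congr (fun n => (key n).2 μ μ' hμ hμ' G hG)

theorem IsTransport.measurableSet_image (hσ : IsTransport f s' s O σ) {A : Set X}
    (hA : MeasurableSet A) (hAO : A ⊆ O ∩ f ⁻¹' {s'}) : MeasurableSet (σ '' A) := by
  classical
  rcases A.eq_empty_or_nonempty with rfl | ⟨x₀, hx₀⟩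
  · simp
  obtain ⟨T, hT, hTU⟩ := TopologicalSpace.isOpen_iUnion_countable
    (fun x : X => (chartAt C2 x).source) (fun x => (chartAt C2 x).open_source)
  have hU : ⋃ x : X, (chartAt C2 x).source = univ :=
    eq_univ_of_forall (fun x => mem_iUnion.mpr ⟨x, mem_chart_source C2 x⟩)
  rw [hU] at hTU
  have hTne : T.Nonempty := by
    have h1 : x₀ ∈ ⋃ x ∈ T, (chartAt C2 x).source := by rw [hTU]; exact mem_univ _
    obtain ⟨x, hx, -⟩ := mem_iUnion₂.mp h1
    exact ⟨x, hx⟩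
  obtain ⟨β, hβ⟩ := hT.exists_eq_range hTne
  have hcov : ⋃ n, (chartAt C2 (β n)).source = univ := by
    rw [← hTU, hβ, biUnion_range]
  have hAU : A = ⋃ n, A ∩ (chartAt C2 (β n)).source := by
    rw [← inter_iUnion, hcov, inter_univ]
  rw [hAU, image_iUnion]
  refine MeasurableSet.iUnion (fun n => ?_)
  set e := chartAt C2 (β n) with he
  have hB : MeasurableSet (e.target ∩ e.symm ⁻¹' A) := by
    have h1 : MeasurableSet ((e.target.domRestrict e.symm) ⁻¹' A) :=
      (continuousOn_iff_continuous_domRestrict.1 e.continuousOn_symm).measurable hA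
    have h2 := e.open_target.measurableSet.subtype_image h1
    have h3 : Subtype.val '' ((e.target.domRestrict e.symm) ⁻¹' A) = e.target ∩ e.symm ⁻¹' A := by
      ext z
      constructor
      · rintro ⟨⟨w, hw⟩, hwB, rfl⟩
        exact ⟨hw, hwB⟩
      · rintro ⟨hz1, hz2⟩
        exact ⟨⟨z, hz1⟩, hz2, rfl⟩
    rwa [h3] at h2
  have himg : e.symm '' (e.target ∩ e.symm ⁻¹' A) = A ∩ e.source := by
    rw [image_inter_preimage, e.symm_image_target_eq_source, inter_comm]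
  rw [← himg, image_image]
  refine hB.image_of_continuousOn_injOn ?_ ?_
  · refine hσ.holo.continuousOn.comp (e.continuousOn_symm.mono inter_subset_left) ?_
    intro z hz
    exact (hAO hz.2).1
  · intro z hz w hw h
    exact e.symm.injOn hz.1 hw.1 (hσ.inj (hAO hz.2) (hAO hw.2) h)

theorem IsTransport.change (hf : ContMDiff 𝓘(ℂ, C2) 𝓘(ℂ, ℂ) ω f)
    (hσ : IsTransport f s' s O σ) (hμ : IsFibreArea g f s μ) (hμ' : IsFibreArea g f s' μ')
    {A : Set X} (hA : MeasurableSet A) (hAO : A ⊆ O ∩ f ⁻¹' {s'}) {G : X → ENNReal}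
    (hG : Measurable G) :
    ∫⁻ x in σ '' A, G x ∂μ = ∫⁻ x in A, G (σ x) * ENNReal.ofReal (ratio g f σ x) ∂μ' :=
  (changeFibre_main hf hσ hA hAO).2 μ μ' hμ hμ' G hG

end DD
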