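import Pool.Agent.Work.MP_dd1e4a_gt.MetB

/-! # MetC: bounds for the metric on compact sets -/

open scoped Manifold ContDiff Topology
open MeasureTheory Set

namespace DD

variable {X : Type} [TopologicalSpace X] [ChartedSpace C2 X]
  [IsManifold 𝓘(ℂ, C2) ω X] (g : HermMetric X) (e : OpenPartialHomeomorph X C2)
  (he : ContMDiffOn 𝓘(ℂ, C2) 𝓘(ℂ, C2) ω e e.source)
  (he' : ContMDiffOn 𝓘(ℂ, C2) 𝓘(ℂ, C2) ω e.symm e.target)

omit [IsManifold 𝓘(ℂ, C2) ω X] in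
theorem metC_hom (y : C2) (c : ℂ) (w : C2) :
    metE g e y (c • w) = ‖c‖ ^ 2 * metE g e y w := by
  have h1 : (mfderiv 𝓘(ℂ, C2) 𝓘(ℂ, C2) e.symm y (c • w) : C2) =
      c • (mfderiv 𝓘(ℂ, C2) 𝓘(ℂ, C2) e.symm y w : C2) :=
    map_smul (mfderiv 𝓘(ℂ, C2) 𝓘(ℂ, C2) e.symm y) c w
  have h2 : metE g e y (c • w) =
      g.normSq (e.symm y) (c • (mfderiv 𝓘(ℂ, C2) 𝓘(ℂ, C2) e.symm y w)) :=
    congrArg (fun v : C2 => g.normSq (e.symm y) v) h1
  rw [h2, normSq_smul]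
  rfl

include he he'

theorem metC_pos {y : C2} (hy : y ∈ e.target) {w : C2} (hw : w ≠ 0) : 0 < metE g e y w := by
  apply normSq_pos
  intro h
  apply hw
  apply mfderiv_symm_injective e he he' hy
  exact h.trans (map_zero (mfderiv 𝓘(ℂ, C2) 𝓘(ℂ, C2) e.symm y)).symm

theorem metE_bounds {K : Set C2} (hK : IsCompact K) (hKt : K ⊆ e.target) :
    ∃ c > 0, ∃ C > 0, ∀ y ∈ K, ∀ w : C2,
      c * (‖w.1‖ ^ 2 + ‖w.2‖ ^ 2) ≤ metE g e y w ∧
        metE g e y w ≤ C * (‖w.1‖ ^ 2 + ‖w.2‖ ^ 2) := by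
  rcases K.eq_empty_or_nonempty with rfl | ⟨y₀, hy₀⟩
  · exact ⟨1, one_pos, 1, one_pos, fun y hy => absurd hy (notMem_empty y)⟩
  set T : Set C2 := {w | ‖w.1‖ ^ 2 + ‖w.2‖ ^ 2 = 1} with hT
  have hTc : IsCompact T := by
    apply Metric.isCompact_of_isClosed_isBounded
    · have h1 : Continuous fun w : C2 => ‖w.1‖ ^ 2 + ‖w.2‖ ^ 2 := by fun_prop
      exact isClosed_eq h1 continuous_const
    · rw [isBounded_iff_forall_norm_le]
      refine ⟨1, fun w hw => ?_⟩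
      have h1 : ‖w.1‖ ^ 2 + ‖w.2‖ ^ 2 = 1 := hw
      rw [Prod.norm_def]
      apply max_le
      · nlinarith [norm_nonneg w.1, sq_nonneg ‖w.2‖]
      · nlinarith [norm_nonneg w.2, sq_nonneg ‖w.1‖]
  have hTne : (((1 : ℂ), (0 : ℂ)) : C2) ∈ T := by
    show ‖(1 : ℂ)‖ ^ 2 + ‖(0 : ℂ)‖ ^ 2 = 1
    simp
  have hKT : IsCompact (K ×ˢ T) := hK.prod hTc
  have hcont : ContinuousOn (fun z : C2 × C2 => metE g e z.1 z.2) (K ×ˢ T) :=
    (smooth_metE g e he he').continuousOn.mono (prod_mono hKt (subset_univ T))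
  have hne : (K ×ˢ T).Nonempty := ⟨(y₀, ((1 : ℂ), (0 : ℂ))), hy₀, hTne⟩
  obtain ⟨z₁, hz₁, hmin⟩ := hKT.exists_isMinOn hne hcont
  obtain ⟨z₂, hz₂, hmax⟩ := hKT.exists_isMaxOn hne hcont
  have hTnz : ∀ w ∈ T, w ≠ 0 := by
    rintro w hw rfl
    have h1 : ‖(0 : C2).1‖ ^ 2 + ‖(0 : C2).2‖ ^ 2 = 1 := hw
    simp at h1
  have hc : 0 < metE g e z₁.1 z₁.2 := metC_pos g e he he' (hKt hz₁.1) (hTnz _ hz₁.2)
  have hC : 0 < metE g e z₂.1 z₂.2 := metC_pos g e he he' (hKt hz₂.1) (hTnz _ hz₂.2)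
  refine ⟨_, hc, _, hC, fun y hy w => ?_⟩
  set N : ℝ := ‖w.1‖ ^ 2 + ‖w.2‖ ^ 2 with hN
  have hN0 : 0 ≤ N := by positivity
  rcases hN0.eq_or_lt with h0 | h0
  · have h1 : ‖w.1‖ ^ 2 = 0 := by nlinarith [sq_nonneg ‖w.1‖, sq_nonneg ‖w.2‖]
    have h2 : ‖w.2‖ ^ 2 = 0 := by nlinarith [sq_nonneg ‖w.1‖, sq_nonneg ‖w.2‖]
    have h3 : w = (0 : ℂ) • w := by
      rw [zero_smul]
      apply Prod.ext
      · exact norm_eq_zero.1 (pow_eq_zero_iff (two_ne_zero)|>.1 h1)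
      · exact norm_eq_zero.1 (pow_eq_zero_iff (two_ne_zero)|>.1 h2)
    have h4 : metE g e y w = 0 := by
      rw [h3, metC_hom, norm_zero]
      ring
    rw [h4, ← h0]
    simp
  · set r : ℝ := Real.sqrt N with hr
    have hr0 : 0 < r := Real.sqrt_pos.2 h0
    have hr2 : r ^ 2 = N := Real.sq_sqrt hN0
    set w' : C2 := ((r : ℂ)⁻¹) • w with hw'
    have hwr : w = (r : ℂ) • w' := by
      rw [hw', smul_smul, mul_inv_cancel₀, one_smul]
      exact_mod_cast hr0.ne'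
    have hw'T : w' ∈ T := by
      show ‖w'.1‖ ^ 2 + ‖w'.2‖ ^ 2 = 1
      have e1 : ‖w'.1‖ = r⁻¹ * ‖w.1‖ := by
        rw [hw', Prod.smul_fst, norm_smul, norm_inv, Complex.norm_real,
          Real.norm_of_nonneg hr0.le]
      have e2 : ‖w'.2‖ = r⁻¹ * ‖w.2‖ := by
        rw [hw', Prod.smul_snd, norm_smul, norm_inv, Complex.norm_real,
          Real.norm_of_nonneg hr0.le]
      rw [e1, e2, mul_pow, mul_pow, ← mul_add, ← hN, ← hr2]
      field_simp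
    have h1 : metE g e y w = N * metE g e y w' := by
      conv_lhs => rw [hwr]
      rw [metC_hom, Complex.norm_real, Real.norm_of_nonneg hr0.le, hr2]
    have h2 : metE g e z₁.1 z₁.2 ≤ metE g e y w' := hmin (a := (y, w')) ⟨hy, hw'T⟩
    have h3 : metE g e y w' ≤ metE g e z₂.1 z₂.2 := hmax (a := (y, w')) ⟨hy, hw'T⟩
    rw [h1]
    constructor
    · rw [mul_comm]
      exact mul_le_mul_of_nonneg_left h2 hN0
    · rw [mul_comm N]
      exact mul_le_mul_of_nonneg_right h3 hN0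

end DD
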