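import Pool.Agent.Work.MP_dd1e4a_gt.BoxCompact
import Pool.Agent.Work.MP_dd1e4a_gt.ChangeFibre
import Pool.Agent.Work.MP_dd1e4a_gt.AreaC
import Pool.Agent.Work.MP_dd1e4a_gt.MetC

/-! # BoxEnergy: energy under the transport in a box

`σ = btrans b s`, `σ' = btrans b s'`, `A = {x | f x = s', ψ x ≠ 0}` (Borel),
`IsTransport.change` (`IsBox.isTransport`) with `G = ofReal (ψ ∘ σ') * ofReal (gradSq v)`
(measurable modification off the open set where `σ'` is defined), `σ' (σ x) = x`, and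
`gradSq (v∘σ) = gradSq v ∘ σ * ratio` (`IsTransport.gradSq_comp`):
`∫ ψ gradSq (v∘σ) dμ' = ∫_{σ '' A} ψ(σ' q) gradSq v q dμ(q)` and `ψ (σ' q) ≤ ψ q + C ‖s - s'‖`
(`box_lip` for `h = ψ ∘ b.symm`, `K = tsupport ψ`: with `x = σ' q ∈ K`, `q = σ x`:
`‖ψ (σ x) - ψ x‖ ≤ C ‖s - f x‖`). -/

open scoped Manifold ContDiff Topology
open MeasureTheory Set

namespace DD

variable {X : Type} [TopologicalSpace X] [T2Space X] [SecondCountableTopology X]
  [ChartedSpace C2 X] [IsManifold 𝓘(ℂ, C2) ω X] [MeasurableSpace X] [BorelSpace X] {f : X → ℂ}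

private theorem BoxEnergy_tan {x : X} (hx : x ∈ Crit f) : tanVec f x = 0 := by
  have h : mfderiv 𝓘(ℂ, C2) 𝓘(ℂ, ℂ) f x = 0 := hx
  unfold tanVec
  rw [h]
  exact Prod.ext (neg_zero (G := ℂ)) rfl

private theorem BoxEnergy_crit (g : HermMetric X) (v : X → ℂ) {x : X} (hx : x ∈ Crit f) :
    gradSq g f v x = 0 := by
  have h0 : g.normSq x (tanVec f x) = 0 := by
    rw [BoxEnergy_tan hx]
    have h1 := normSq_smul g x (0 : ℂ) (0 : TangentSpace 𝓘(ℂ, C2) x)
    rw [zero_smul] at h1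
    rw [h1]
    simp
  unfold gradSq
  rw [h0, div_zero]

private theorem BoxEnergy_meas (hf : ContMDiff 𝓘(ℂ, C2) 𝓘(ℂ, ℂ) ω f) (g : HermMetric X)
    {v : X → ℂ} (hv : v ∈ Test f) : Measurable (gradSq g f v) := by
  classical
  have h1 : ContinuousOn (gradSq g f v) (univ \ Crit f) :=
    continuousOn_gradSq g hf isOpen_univ hv.1.contMDiffOn
  have hcl : IsClosed (Crit f) := isClosed_crit hf
  have hms : MeasurableSet (univ \ Crit f) := MeasurableSet.univ.diff hcl.measurableSet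
  have h2 : Measurable ((univ \ Crit f).piecewise (gradSq g f v) (fun _ => (0 : ℝ))) :=
    h1.measurable_piecewise continuousOn_const hms
  have h3 : (univ \ Crit f).piecewise (gradSq g f v) (fun _ => (0 : ℝ)) = gradSq g f v := by
    funext x
    by_cases hx : x ∈ Crit f
    · rw [Set.piecewise_eq_of_notMem _ _ _ (by simp [hx]), BoxEnergy_crit g v hx]
    · rw [Set.piecewise_eq_of_mem _ _ _ (by simp [hx])]
  rwa [h3] at h2

theorem box_energy (hf : ContMDiff 𝓘(ℂ, C2) 𝓘(ℂ, ℂ) ω f) (g : HermMetric X)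
    {b : OpenPartialHomeomorph X C2} (hb : IsBox f b) {ψ : X → ℝ}
    (hψ : ContMDiff 𝓘(ℝ, C2) 𝓘(ℝ, ℝ) ∞ ψ) (hψ0 : ∀ x, 0 ≤ ψ x) (hψ1 : ∀ x, ψ x ≤ 1)
    (hψc : HasCompactSupport ψ) (hψs : tsupport ψ ⊆ b.source) :
    ∃ C > 0, ∃ ρ > 0, ∀ s s' : ℂ, ‖s‖ ≤ ρ → ‖s'‖ ≤ ρ → ∀ μ μ' : Measure X,
      IsFibreArea g f s μ → IsFibreArea g f s' μ' → ∀ v ∈ Test f,
      ∫⁻ x, ENNReal.ofReal (ψ x) *
          ENNReal.ofReal (gradSq g f (fun y => v (btrans b s y)) x) ∂μ' ≤
        ∫⁻ x, ENNReal.ofReal (ψ x + C * ‖s - s'‖) * ENNReal.ofReal (gradSq g f v x) ∂μ := by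
  have hh : ContDiffOn ℝ 1 (fun z : C2 => ψ (b.symm z)) b.target := by
    have h1 : ContMDiffOn 𝓘(ℝ, C2) 𝓘(ℝ, C2) ∞ b.symm b.target := hol_real hb.holo_symm
    have h2 : ContMDiffOn 𝓘(ℝ, C2) 𝓘(ℝ, ℝ) ∞ (fun z : C2 => ψ (b.symm z)) b.target :=
      hψ.comp_contMDiffOn h1
    exact (contMDiffOn_iff_contDiffOn.1 h2).of_le (by exact_mod_cast le_top)
  obtain ⟨C, hC, ρ, hρ, hlip⟩ := box_lip hf hb hψc hψs hh
  refine ⟨C, hC, ρ, hρ, ?_⟩
  intro s s' hs hs' μ μ' hμ hμ' v hv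
  have hσ := hb.isTransport hf s' s
  have hfc : Continuous f := hf.continuous
  have hψm : Measurable ψ := hψ.continuous.measurable
  set A : Set X := {x | f x = s' ∧ ψ x ≠ 0} with hA
  have hAm : MeasurableSet A := by
    have h1 : MeasurableSet {x | f x = s'} := (isClosed_singleton.preimage hfc).measurableSet
    have h2 : MeasurableSet {x | ψ x ≠ 0} := hψm (measurableSet_singleton (0 : ℝ)).compl
    exact h1.inter h2
  have hAK : ∀ x ∈ A, x ∈ tsupport ψ := fun x hx => subset_tsupport _ hx.2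
  have hlipA : ∀ x ∈ A, x ∈ transDom b s ∧ ψ x ≤ ψ (btrans b s x) + C * ‖s - s'‖ := by
    intro x hx
    obtain ⟨h1, h2⟩ := hlip x (hAK x hx) (by rw [hx.1]; exact hs') s hs
    refine ⟨h1, ?_⟩
    have e1 : ψ (b.symm (b x)) = ψ x := by rw [b.left_inv h1.1]
    have e2 : ψ (b.symm ((b x).1, s)) = ψ (btrans b s x) := rfl
    rw [e1, e2, hx.1, Real.norm_eq_abs] at h2
    have := (abs_le.1 h2).1
    linarith
  have hAO : A ⊆ transDom b s ∩ f ⁻¹' {s'} := fun x hx => ⟨(hlipA x hx).1, hx.1⟩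
  set G : X → ENNReal := fun q => ENNReal.ofReal (ψ q + C * ‖s - s'‖) *
    ENNReal.ofReal (gradSq g f v q) with hG
  have hGm : Measurable G :=
    (hψm.add_const _).ennreal_ofReal.mul (BoxEnergy_meas hf g hv).ennreal_ofReal
  have hchange := hσ.change hf hμ hμ' hAm hAO hGm
  calc ∫⁻ x, ENNReal.ofReal (ψ x) *
          ENNReal.ofReal (gradSq g f (fun y => v (btrans b s y)) x) ∂μ'
      ≤ ∫⁻ x, A.indicator (fun x => G (btrans b s x) *
          ENNReal.ofReal (ratio g f (btrans b s) x)) x ∂μ' := by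
        apply lintegral_mono_ae
        filter_upwards [hμ'.ae_fibre] with x hx
        by_cases hψx : ψ x = 0
        · rw [hψx]
          simp
        · have hxA : x ∈ A := ⟨hx.1, hψx⟩
          rw [Set.indicator_of_mem hxA]
          have hc := hσ.gradSq_comp (g := g) hf hv.1 (hlipA x hxA).1
          have hc' : gradSq g f (fun y => v (btrans b s y)) x =
              gradSq g f v (btrans b s x) * ratio g f (btrans b s) x := hc
          rw [hc', ENNReal.ofReal_mul (gradSq_nonneg g f v _), ← mul_assoc]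
          apply mul_le_mul_left
          rw [hG]
          apply mul_le_mul_left
          exact ENNReal.ofReal_le_ofReal (hlipA x hxA).2
    _ = ∫⁻ x in A, G (btrans b s x) * ENNReal.ofReal (ratio g f (btrans b s) x) ∂μ' :=
        lintegral_indicator hAm _
    _ = ∫⁻ x in btrans b s '' A, G x ∂μ := hchange.symm
    _ ≤ ∫⁻ x, G x ∂μ := setLIntegral_le_lintegral _ _

end DD
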