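import Pool.Agent.Work.MP_dd1e4a_gt.BoxCompact
import Pool.Agent.Work.MP_dd1e4a_gt.ChangeFibre
import Pool.Agent.Work.MP_dd1e4a_gt.MetC

/-! # BoxMass: mass under the transport in a box

`σ = btrans b s`, `σ' = btrans b s'`, `A = {x | f x = s', ψ x ≠ 0}` (Borel), `δ = ‖s - s'‖`,
`IsTransport.change` (`IsBox.isTransport`) with `G = ofReal (ψ - C δ) * ofReal (‖v‖²)`,
`ratio = dens (w, s) / dens (w, s') ≤ 1 + C₃ δ` (`IsBox.ratio_btrans`, `box_lip`
for `h = dens`, `dens ≥ c > 0` on the compact `K'` of `box_compact`). If `q` is in the fibre `s` and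
`ψ q > C δ` then `ψ (σ' q) > 0` (`box_lip` for `h = ψ ∘ b.symm`), so `q = σ (σ' q) ∈ σ '' A`.
On `A`: `(ψ (σ x) - C δ) ratio ≤ (ψ x + C₁ δ - C δ) (1 + C₃ δ) ≤ ψ x` for `C = C₁ + C₃`. -/

open scoped Manifold ContDiff Topology
open MeasureTheory Set

namespace DD

variable {X : Type} [TopologicalSpace X] [T2Space X] [SecondCountableTopology X]
  [ChartedSpace C2 X] [IsManifold 𝓘(ℂ, C2) ω X] [MeasurableSpace X] [BorelSpace X] {f : X → ℂ}

theorem box_mass (hf : ContMDiff 𝓘(ℂ, C2) 𝓘(ℂ, ℂ) ω f) (g : HermMetric X)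
    {b : OpenPartialHomeomorph X C2} (hb : IsBox f b) {ψ : X → ℝ}
    (hψ : ContMDiff 𝓘(ℝ, C2) 𝓘(ℝ, ℝ) ∞ ψ) (hψ0 : ∀ x, 0 ≤ ψ x) (hψ1 : ∀ x, ψ x ≤ 1)
    (hψc : HasCompactSupport ψ) (hψs : tsupport ψ ⊆ b.source) :
    ∃ C > 0, ∃ ρ > 0, ∀ s s' : ℂ, ‖s‖ ≤ ρ → ‖s'‖ ≤ ρ → ∀ μ μ' : Measure X,
      IsFibreArea g f s μ → IsFibreArea g f s' μ' → ∀ v ∈ Test f,
      ∫⁻ x, ENNReal.ofReal (ψ x - C * ‖s - s'‖) * ENNReal.ofReal (‖v x‖ ^ 2) ∂μ ≤
        ∫⁻ x, ENNReal.ofReal (ψ x) * ENNReal.ofReal (‖v (btrans b s x)‖ ^ 2) ∂μ' := by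
  have hh1 : ContDiffOn ℝ 1 (fun y => ψ (b.symm y)) b.target := by
    have h1 : ContMDiffOn 𝓘(ℝ, C2) 𝓘(ℝ, C2) ∞ b.symm b.target := hol_real hb.holo_symm
    have h2 : ContMDiffOn 𝓘(ℝ, C2) 𝓘(ℝ, ℝ) ∞ (fun y => ψ (b.symm y)) b.target :=
      hψ.comp_contMDiffOn h1
    exact h2.contDiffOn.of_le ENat.LEInfty.out
  have hh2 : ContDiffOn ℝ 1 (fun y => IsBox.dens g b y) b.target := by
    have h1 := smooth_metE g b hb.holo hb.holo_symm
    have h2 : ContDiff ℝ ∞ (fun y : C2 => ((y, ((1 : ℂ), (0 : ℂ))) : C2 × C2)) :=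
      contDiff_id.prodMk contDiff_const
    have h3 : ContDiffOn ℝ ∞ (fun y => IsBox.dens g b y) b.target :=
      h1.comp h2.contDiffOn (fun y hy => ⟨hy, mem_univ _⟩)
    exact h3.of_le ENat.LEInfty.out
  obtain ⟨C₁, hC₁, ρ₁, hρ₁, hlip1⟩ := box_lip hf hb hψc hψs hh1
  obtain ⟨C₂, hC₂, ρ₂, hρ₂, hlip2⟩ := box_lip hf hb hψc hψs hh2
  obtain ⟨ρ₃, hρ₃, K', hK', hK't, hmem⟩ := box_compact hf hb hψc hψs
  obtain ⟨c, hc, _, _, hbound⟩ := metE_bounds g b hb.holo hb.holo_symm hK' hK't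
  set C₃ : ℝ := C₂ / c with hC₃
  have hC₃0 : 0 < C₃ := div_pos hC₂ hc
  refine ⟨C₁ + C₃, by positivity, min ρ₁ (min ρ₂ ρ₃), by positivity, ?_⟩
  intro s s' hs hs' μ μ' hμ hμ' v hv
  have hs1 : ‖s‖ ≤ ρ₁ := hs.trans (min_le_left _ _)
  have hs1' : ‖s'‖ ≤ ρ₁ := hs'.trans (min_le_left _ _)
  have hs2 : ‖s‖ ≤ ρ₂ := hs.trans ((min_le_right _ _).trans (min_le_left _ _))
  have hs2' : ‖s'‖ ≤ ρ₂ := hs'.trans ((min_le_right _ _).trans (min_le_left _ _))
  have hs3' : ‖s'‖ ≤ ρ₃ := hs'.trans ((min_le_right _ _).trans (min_le_right _ _))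
  set δ : ℝ := ‖s - s'‖ with hδ
  have hδ0 : 0 ≤ δ := norm_nonneg _
  have hψcont : Continuous ψ := hψ.continuous
  have hvcont : Continuous v := hv.1.continuous
  set G : X → ENNReal := fun x =>
    ENNReal.ofReal (ψ x - (C₁ + C₃) * δ) * ENNReal.ofReal (‖v x‖ ^ 2) with hG
  have hGm : Measurable G := by
    have g1 : Measurable (fun x => ENNReal.ofReal (ψ x - (C₁ + C₃) * δ)) :=
      (hψcont.sub continuous_const).measurable.ennreal_ofReal
    have g2 : Measurable (fun x => ENNReal.ofReal (‖v x‖ ^ 2)) :=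
      (hvcont.norm.pow 2).measurable.ennreal_ofReal
    exact g1.mul g2
  set A : Set X := {x | f x = s' ∧ ψ x ≠ 0} with hA
  have hAm : MeasurableSet A := by
    have h1 : IsClosed {x | f x = s'} := isClosed_eq hf.continuous continuous_const
    have h2 : IsOpen {x | ψ x ≠ 0} := isOpen_ne_fun hψcont continuous_const
    exact h1.measurableSet.inter h2.measurableSet
  have hAK : ∀ x ∈ A, x ∈ tsupport ψ := fun x hx => subset_tsupport ψ hx.2
  have hAO : A ⊆ transDom b s ∩ f ⁻¹' {s'} := fun x hx =>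
    ⟨(hlip1 x (hAK x hx) (by rw [hx.1]; exact hs1') s hs1).1, hx.1⟩
  have hσ := hb.isTransport hf s' s
  have hS := IsTransport.measurableSet_image hσ hAm hAO
  have hchange := IsTransport.change hf hσ hμ hμ' hAm hAO hGm
  -- the points of the fibre `s`
  have hpt : ∀ q, f q = s → G q ≤ (btrans b s '' A).indicator G q := by
    intro q hq
    by_cases hpos : (C₁ + C₃) * δ < ψ q
    · have hCδ : 0 ≤ C₃ * δ := by positivity
      have hCδ1 : 0 ≤ C₁ * δ := by positivity
      have hψq : ψ q ≠ 0 := by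
        intro h
        rw [h] at hpos
        linarith
      have hqK : q ∈ tsupport ψ := subset_tsupport ψ hψq
      obtain ⟨hd, hl⟩ := hlip1 q hqK (by rw [hq]; exact hs1) s' hs1'
      have hl' : |ψ (btrans b s' q) - ψ q| ≤ C₁ * δ := by
        have h1 : ψ (b.symm (b q)) = ψ q := by rw [b.left_inv hd.1]
        have h2 : ‖ψ (b.symm ((b q).1, s')) - ψ (b.symm (b q))‖ ≤ C₁ * ‖s' - f q‖ := hl
        rw [h1, hq, norm_sub_rev s' s] at h2
        exact h2
      have hgt : 0 < ψ (btrans b s' q) := by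
        have := (abs_le.mp hl').1
        linarith
      have hback := hb.btrans_mem hd
      have hin : q ∈ btrans b s '' A := by
        refine ⟨btrans b s' q, ⟨hback.2.1, hgt.ne'⟩, ?_⟩
        have h3 := hback.2.2.2.2
        rw [hq] at h3
        exact h3
      rw [indicator_of_mem hin]
    · have h0 : G q = 0 := by
        simp only [hG]
        rw [ENNReal.ofReal_of_nonpos (by linarith [not_lt.mp hpos]), zero_mul]
      rw [h0]
      exact bot_le
  calc ∫⁻ x, G x ∂μ ≤ ∫⁻ x, (btrans b s '' A).indicator G x ∂μ := by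
        refine lintegral_mono_ae ?_
        filter_upwards [IsFibreArea.ae_fibre hμ] with x hx
        exact hpt x hx.1
    _ = ∫⁻ x in btrans b s '' A, G x ∂μ := lintegral_indicator hS _
    _ = ∫⁻ x in A, G (btrans b s x) * ENNReal.ofReal (ratio g f (btrans b s) x) ∂μ' := hchange
    _ ≤ ∫⁻ x in A, ENNReal.ofReal (ψ x) * ENNReal.ofReal (‖v (btrans b s x)‖ ^ 2) ∂μ' := by
        refine setLIntegral_mono' hAm (fun x hx => ?_)
        have hxK := hAK x hx
        have hfx : f x = s' := hx.1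
        obtain ⟨hd, hl1⟩ := hlip1 x hxK (by rw [hfx]; exact hs1') s hs1
        have hl2 := (hlip2 x hxK (by rw [hfx]; exact hs2') s hs2).2
        have hl1' : |ψ (btrans b s x) - ψ x| ≤ C₁ * δ := by
          have h1 : ψ (b.symm (b x)) = ψ x := by rw [b.left_inv hd.1]
          have h2 : ‖ψ (b.symm ((b x).1, s)) - ψ (b.symm (b x))‖ ≤ C₁ * ‖s - f x‖ := hl1
          rw [h1, hfx] at h2
          exact h2
        have hbx : ((b x).1, s') = b x := Prod.ext rfl (by rw [hb.snd x hd.1, hfx])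
        have hxK' : b x ∈ K' := by
          have := (hmem x hxK (by rw [hfx]; exact hs3') s' hs3').1
          rw [hbx] at this
          exact this
        have hdens : c ≤ IsBox.dens g b (b x) := by
          have h1 := (hbound _ hxK' ((1 : ℂ), (0 : ℂ))).1
          have h2 : c * (‖(1 : ℂ)‖ ^ 2 + ‖(0 : ℂ)‖ ^ 2) = c := by simp
          show c ≤ metE g b (b x) ((1 : ℂ), (0 : ℂ))
          calc c = c * (‖(1 : ℂ)‖ ^ 2 + ‖(0 : ℂ)‖ ^ 2) := h2.symm
            _ ≤ _ := h1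
        have hl2' : |IsBox.dens g b ((b x).1, s) - IsBox.dens g b (b x)| ≤ C₂ * δ := by
          rw [hfx] at hl2
          exact hl2
        have hratio : ratio g f (btrans b s) x ≤ 1 + C₃ * δ := by
          rw [hb.ratio_btrans g hd, div_le_iff₀ (hc.trans_le hdens)]
          have h3 := (abs_le.mp hl2').2
          have h4 : C₂ * δ ≤ C₃ * δ * IsBox.dens g b (b x) := by
            have h5 : C₂ * δ = C₃ * δ * c := by
              rw [hC₃]
              field_simp
            rw [h5]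
            exact mul_le_mul_of_nonneg_left hdens (by positivity)
          linarith
        simp only [hG]
        rw [mul_right_comm]
        refine mul_le_mul_left ?_ _
        by_cases hpos : 0 < ψ (btrans b s x) - (C₁ + C₃) * δ
        · rw [← ENNReal.ofReal_mul hpos.le]
          refine ENNReal.ofReal_le_ofReal ?_
          have h6 := (abs_le.mp hl1').2
          have h7 : ψ (btrans b s x) - (C₁ + C₃) * δ ≤ ψ x - C₃ * δ := by linarith
          have h8 := hψ1 x
          have h9 : 0 < ψ x - C₃ * δ := lt_of_lt_of_le hpos h7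
          calc (ψ (btrans b s x) - (C₁ + C₃) * δ) * ratio g f (btrans b s) x
              ≤ (ψ (btrans b s x) - (C₁ + C₃) * δ) * (1 + C₃ * δ) :=
                mul_le_mul_of_nonneg_left hratio hpos.le
            _ ≤ (ψ x - C₃ * δ) * (1 + C₃ * δ) :=
                mul_le_mul_of_nonneg_right h7 (by positivity)
            _ ≤ ψ x := by
                have k1 : 0 ≤ C₃ * δ := mul_nonneg hC₃0.le hδ0
                have k2 : 0 ≤ C₃ * δ * (1 - ψ x) := mul_nonneg k1 (sub_nonneg.mpr h8)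
                have k3 : 0 ≤ (C₃ * δ) * (C₃ * δ) := mul_nonneg k1 k1
                have k4 : (ψ x - C₃ * δ) * (1 + C₃ * δ) =
                  ψ x - C₃ * δ * (1 - ψ x) - (C₃ * δ) * (C₃ * δ) := by ring
                rw [k4]
                linarith
        · rw [ENNReal.ofReal_of_nonpos (not_lt.mp hpos), zero_mul]
          exact bot_le
    _ ≤ ∫⁻ x, ENNReal.ofReal (ψ x) * ENNReal.ofReal (‖v (btrans b s x)‖ ^ 2) ∂μ' :=
        setLIntegral_le_lintegral _ _

end DD
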