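import Pool.Agent.Work.MP_dd1e4a_gt.Defs3

/-! # CalcA: real differential calculus of holomorphic maps, basics

Everything is a comparison of the models `𝓘(ℂ, E)` and `𝓘(ℝ, E)`: the extended charts are the same
functions, and complex analytic implies real smooth (`ContDiffWithinAt.restrict_scalars`,
`fderivWithin` of a complex differentiable map is the restriction of scalars of the complex
derivative).

* `isManifold_real`: the transition functions are complex analytic, hence real smooth.
* `hol_real`: unfold `ContMDiffOn`, `ContMDiffWithinAt`, `contDiffWithinAtProp`; restrict scalars.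
* `mfderiv_real`: both sides are `fderivWithin (range I) (writtenInExtChartAt ..)` with range univ;
  `HasFDerivAt.restrictScalars` and uniqueness. -/

open scoped Manifold ContDiff Topology
open MeasureTheory Set

namespace DD

section general

variable {E E' : Type} [NormedAddCommGroup E] [NormedSpace ℂ E] [NormedSpace ℝ E]
  [IsScalarTower ℝ ℂ E] [NormedAddCommGroup E'] [NormedSpace ℂ E'] [NormedSpace ℝ E']
  [IsScalarTower ℝ ℂ E']
  {M N : Type} [TopologicalSpace M] [ChartedSpace E M] [TopologicalSpace N] [ChartedSpace E' N]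

/-- complex analytic maps are real smooth. -/
theorem hol_real {h : M → N} {O : Set M} (hh : ContMDiffOn 𝓘(ℂ, E) 𝓘(ℂ, E') ω h O) :
    ContMDiffOn 𝓘(ℝ, E) 𝓘(ℝ, E') ∞ h O := by
  intro x hx
  have h1 := hh x hx
  rw [contMDiffWithinAt_iff] at h1 ⊢
  refine ⟨h1.1, ?_⟩
  have h2 := (h1.2.restrict_scalars ℝ).of_le (show (∞ : WithTop ℕ∞) ≤ ω from le_top)
  exact h2

theorem calcA_mdiff {h : M → N} {x : M} (hh : MDifferentiableAt 𝓘(ℂ, E) 𝓘(ℂ, E') h x) :
    MDifferentiableAt 𝓘(ℝ, E) 𝓘(ℝ, E') h x := by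
  rw [mdifferentiableAt_iff] at hh ⊢
  exact ⟨hh.1, hh.2.restrictScalars ℝ⟩

/-- the real derivative of a holomorphic map is the complex derivative. -/
theorem mfderiv_real {h : M → N} {x : M} (hh : MDifferentiableAt 𝓘(ℂ, E) 𝓘(ℂ, E') h x) (v : E) :
    mfderiv 𝓘(ℝ, E) 𝓘(ℝ, E') h x v = mfderiv 𝓘(ℂ, E) 𝓘(ℂ, E') h x v := by
  have hr := calcA_mdiff hh
  rw [mfderiv, if_pos hr, mfderiv, if_pos hh]
  have hd := ((mdifferentiableAt_iff _ _).mp hh).2
  have h3 := hd.hasFDerivWithinAt.restrictScalars ℝ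
  have h4 : UniqueDiffWithinAt ℝ (range 𝓘(ℝ, E)) (extChartAt 𝓘(ℝ, E) x x) := by
    rw [ModelWithCorners.range_eq_univ]
    exact uniqueDiffWithinAt_univ
  have h5 := HasFDerivWithinAt.fderivWithin (𝕜 := ℝ) h3 h4
  exact congrArg (fun L : E →L[ℝ] E' => L v) h5

end general

variable {X : Type} [TopologicalSpace X] [ChartedSpace C2 X]

theorem isManifold_real [IsManifold 𝓘(ℂ, C2) ω X] : IsManifold 𝓘(ℝ, C2) ∞ X := by
  refine isManifold_of_contDiffOn _ _ _ (fun e e' he he' => ?_)
  have h1 := HasGroupoid.compatible (G := contDiffGroupoid ω 𝓘(ℂ, C2)) he he'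
  rw [contDiffGroupoid, mem_groupoid_of_pregroupoid, contDiffPregroupoid] at h1
  exact (ContDiffOn.restrict_scalars ℝ h1.1).of_le (show (∞ : WithTop ℕ∞) ≤ ω from le_top)
end DD
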