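import Pool.Agent.Work.MP_dd1e4a_gt.CalcA

/-! # CalcB: chain rules and the calculus of `dR`

`mfderiv_comp`, `mfderiv_real`; sums, products: `mfderiv` of functions with values in a vector
space is `fderiv` in the chart. -/

open scoped Manifold ContDiff Topology
open MeasureTheory Set

namespace DD

variable {X : Type} [TopologicalSpace X] [ChartedSpace C2 X]

variable {F : Type} [NormedAddCommGroup F] [NormedSpace ℝ F]

theorem calcB_iff {u : X → F} {x : X} : MDifferentiableAt 𝓘(ℝ, C2) 𝓘(ℝ, F) u x ↔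
    ContinuousAt u x ∧
      DifferentiableAt ℝ (fun z => u ((chartAt C2 x).symm z)) (chartAt C2 x x) := by
  rw [mdifferentiableAt_iff, ModelWithCorners.range_eq_univ, differentiableWithinAt_univ]
  exact Iff.rfl

theorem calcB_eq {u : X → F} {x : X} (hu : MDifferentiableAt 𝓘(ℝ, C2) 𝓘(ℝ, F) u x) (w : C2) :
    dR u x w = fderiv ℝ (fun z => u ((chartAt C2 x).symm z)) (chartAt C2 x x) w := by
  rw [dR, mfderiv, if_pos hu, ModelWithCorners.range_eq_univ, fderivWithin_univ]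
  rfl

theorem calcB_symm (u : X → F) (x : X) :
    u ((chartAt C2 x).symm (chartAt C2 x x)) = u x := by
  rw [(chartAt C2 x).left_inv (mem_chart_source C2 x)]

/-- chain rule along a holomorphic curve. -/
theorem fderiv_comp_curve [IsManifold 𝓘(ℂ, C2) ω X] {u : X → F} {φ : ℂ → X} {z : ℂ}
    (hu : MDifferentiableAt 𝓘(ℝ, C2) 𝓘(ℝ, F) u (φ z))
    (hφ : MDifferentiableAt 𝓘(ℂ, ℂ) 𝓘(ℂ, C2) φ z) (v : ℂ) :
    fderiv ℝ (fun w => u (φ w)) z v = dR u (φ z) (v • vel φ z) := by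
  have h2 := (hu.hasMFDerivAt.comp z (calcA_mdiff hφ).hasMFDerivAt).mfderiv
  rw [mfderiv_eq_fderiv] at h2
  have h3 : fderiv ℝ (fun w => u (φ w)) z v =
      mfderiv 𝓘(ℝ, C2) 𝓘(ℝ, F) u (φ z) (mfderiv 𝓘(ℝ, ℂ) 𝓘(ℝ, C2) φ z v) :=
    congrArg (fun L : ℂ →L[ℝ] F => L v) h2
  rw [h3, dR]
  have h4 : mfderiv 𝓘(ℝ, ℂ) 𝓘(ℝ, C2) φ z v = v • vel φ z := by
    rw [mfderiv_real hφ, vel]
    have h5 : (v : ℂ) = v • (1 : ℂ) := by simp
    exact (congrArg (mfderiv 𝓘(ℂ, ℂ) 𝓘(ℂ, C2) φ z) h5).trans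
      (map_smul (mfderiv 𝓘(ℂ, ℂ) 𝓘(ℂ, C2) φ z) v (1 : ℂ))
  exact congrArg (mfderiv 𝓘(ℝ, C2) 𝓘(ℝ, F) u (φ z)) h4

/-- chain rule for a holomorphic map `σ : X → X`. -/
theorem dR_comp [IsManifold 𝓘(ℂ, C2) ω X] {u : X → F} {σ : X → X} {x : X}
    (hu : MDifferentiableAt 𝓘(ℝ, C2) 𝓘(ℝ, F) u (σ x))
    (hσ : MDifferentiableAt 𝓘(ℂ, C2) 𝓘(ℂ, C2) σ x) (v : TangentSpace 𝓘(ℂ, C2) x) :
    dR (fun y => u (σ y)) x v =
      dR u (σ x) (mfderiv 𝓘(ℂ, C2) 𝓘(ℂ, C2) σ x v) := by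
  have h1 := (hu.hasMFDerivAt.comp x (calcA_mdiff hσ).hasMFDerivAt).mfderiv
  have h3 : dR (fun y => u (σ y)) x v =
      mfderiv 𝓘(ℝ, C2) 𝓘(ℝ, F) u (σ x) (mfderiv 𝓘(ℝ, C2) 𝓘(ℝ, C2) σ x (v : C2)) :=
    congrArg (fun L : C2 →L[ℝ] F => L v) h1
  rw [h3, dR]
  exact congrArg (mfderiv 𝓘(ℝ, C2) 𝓘(ℝ, F) u (σ x)) (mfderiv_real hσ v)

/-- the velocity of the image of a curve. -/
theorem vel_comp {φ : ℂ → X} {σ : X → X} {z : ℂ}
    (hφ : MDifferentiableAt 𝓘(ℂ, ℂ) 𝓘(ℂ, C2) φ z)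
    (hσ : MDifferentiableAt 𝓘(ℂ, C2) 𝓘(ℂ, C2) σ (φ z)) :
    vel (fun w => σ (φ w)) z = mfderiv 𝓘(ℂ, C2) 𝓘(ℂ, C2) σ (φ z) (vel φ z) := by
  have h1 := (hσ.hasMFDerivAt.comp z hφ.hasMFDerivAt).mfderiv
  exact congrArg (fun L : ℂ →L[ℂ] C2 => L 1) h1

/-- derivative of a holomorphic function of a holomorphic curve. -/
theorem deriv_comp_curve {h : X → ℂ} {φ : ℂ → X} {z : ℂ}
    (hh : MDifferentiableAt 𝓘(ℂ, C2) 𝓘(ℂ, ℂ) h (φ z))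
    (hφ : MDifferentiableAt 𝓘(ℂ, ℂ) 𝓘(ℂ, C2) φ z) :
    deriv (fun w => h (φ w)) z = mfderiv 𝓘(ℂ, C2) 𝓘(ℂ, ℂ) h (φ z) (vel φ z) := by
  have h1 := (hh.hasMFDerivAt.comp z hφ.hasMFDerivAt).mfderiv
  rw [mfderiv_eq_fderiv] at h1
  exact congrArg (fun L : ℂ →L[ℂ] ℂ => L 1) h1

/-- sums, products: calculus of `dR`. -/
theorem dR_add {u v : X → F} {x : X} (hu : MDifferentiableAt 𝓘(ℝ, C2) 𝓘(ℝ, F) u x)
    (hv : MDifferentiableAt 𝓘(ℝ, C2) 𝓘(ℝ, F) v x) (w : TangentSpace 𝓘(ℂ, C2) x) :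
    dR (fun y => u y + v y) x w = dR u x w + dR v x w := by
  have hu' := calcB_iff.mp hu
  have hv' := calcB_iff.mp hv
  have h := calcB_iff.mpr ⟨hu'.1.add hv'.1, hu'.2.add hv'.2⟩
  rw [calcB_eq (u := fun y => u y + v y) h, calcB_eq hu, calcB_eq hv]
  rw [fderiv_fun_add hu'.2 hv'.2]
  rfl

theorem dR_smul {a : X → ℝ} {u : X → F} {x : X} (ha : MDifferentiableAt 𝓘(ℝ, C2) 𝓘(ℝ, ℝ) a x)
    (hu : MDifferentiableAt 𝓘(ℝ, C2) 𝓘(ℝ, F) u x) (w : TangentSpace 𝓘(ℂ, C2) x) :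
    dR (fun y => a y • u y) x w = a x • dR u x w + dR a x w • u x := by
  have hu' := calcB_iff.mp hu
  have ha' := calcB_iff.mp ha
  have h := calcB_iff.mpr ⟨ha'.1.smul hu'.1, ha'.2.smul hu'.2⟩
  rw [calcB_eq (u := fun y => a y • u y) h, calcB_eq hu, calcB_eq ha]
  rw [fderiv_fun_smul ha'.2 hu'.2, calcB_symm a x, calcB_symm u x]
  rfl

theorem dR_sum {J : Type} {s : Finset J} {u : J → X → F} {x : X}
    (hu : ∀ j ∈ s, MDifferentiableAt 𝓘(ℝ, C2) 𝓘(ℝ, F) (u j) x)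
    (w : TangentSpace 𝓘(ℂ, C2) x) :
    dR (fun y => ∑ j ∈ s, u j y) x w = ∑ j ∈ s, dR (u j) x w := by
  have hd : ∀ j ∈ s, DifferentiableAt ℝ (fun z => u j ((chartAt C2 x).symm z))
      (chartAt C2 x x) := fun j hj => (calcB_iff.mp (hu j hj)).2
  have hc : ContinuousAt (fun y => ∑ j ∈ s, u j y) x := by
    refine tendsto_finsetSum s (fun j hj => ?_)
    exact (calcB_iff.mp (hu j hj)).1
  have h : MDifferentiableAt 𝓘(ℝ, C2) 𝓘(ℝ, F) (fun y => ∑ j ∈ s, u j y) x :=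
    calcB_iff.mpr ⟨hc, DifferentiableAt.fun_sum hd⟩
  rw [calcB_eq h, fderiv_fun_sum hd]
  rw [sum_apply]
  exact Finset.sum_congr rfl (fun j hj => (calcB_eq (hu j hj) w).symm)

theorem dR_normSq {u : X → ℂ} {x : X} (hu : MDifferentiableAt 𝓘(ℝ, C2) 𝓘(ℝ, ℂ) u x)
    (w : TangentSpace 𝓘(ℂ, C2) x) :
    dR (fun y => ‖u y‖ ^ 2) x w = 2 * ((starRingEnd ℂ) (u x) * dR u x w).re := by
  have hu' := calcB_iff.mp hu
  have h1 := hu'.2.hasFDerivAt.norm_sq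
  have h : MDifferentiableAt 𝓘(ℝ, C2) 𝓘(ℝ, ℝ) (fun y => ‖u y‖ ^ 2) x :=
    calcB_iff.mpr ⟨hu'.1.norm.pow 2, h1.differentiableAt⟩
  rw [calcB_eq h, h1.fderiv, calcB_eq hu, calcB_symm u x]
  simp [Complex.inner]
  ring

/-- composition with a real differentiable function between normed spaces. -/
theorem dR_comp_left {F' : Type} [NormedAddCommGroup F'] [NormedSpace ℝ F'] {k : F → F'}
    {u : X → F} {x : X} (hk : DifferentiableAt ℝ k (u x))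
    (hu : MDifferentiableAt 𝓘(ℝ, C2) 𝓘(ℝ, F) u x) (w : TangentSpace 𝓘(ℂ, C2) x) :
    dR (fun y => k (u y)) x w = fderiv ℝ k (u x) (dR u x w) := by
  have h1 := (hk.hasFDerivAt.hasMFDerivAt.comp x hu.hasMFDerivAt).mfderiv
  exact congrArg (fun L : C2 →L[ℝ] F' => L w) h1

theorem dR_congr {u v : X → F} {x : X} (h : u =ᶠ[𝓝 x] v) (w : TangentSpace 𝓘(ℂ, C2) x) :
    dR u x w = dR v x w := by
  have h1 : mfderiv 𝓘(ℝ, C2) 𝓘(ℝ, F) u x = mfderiv 𝓘(ℝ, C2) 𝓘(ℝ, F) v x := h.mfderiv_eq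
  exact congrArg (fun L : C2 →L[ℝ] F => L w) h1

theorem calcB_lin (L : C2 →L[ℝ] F) (v w : C2) (a b : ℝ) :
    L ((a : ℂ) • v + (b : ℂ) • w) = a • L v + b • L w := by
  have h1 : (a : ℂ) • v + (b : ℂ) • w = a • v + b • w := by
    ext <;> simp
  rw [h1, map_add, map_smul, map_smul]

/-- `dR` is real linear in the vector. -/
theorem dR_lin (u : X → F) (x : X) (v w : TangentSpace 𝓘(ℂ, C2) x) (a b : ℝ) :
    dR u x ((a : ℂ) • v + (b : ℂ) • w) = a • dR u x v + b • dR u x w := by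
  exact calcB_lin _ v w a b

end DD
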