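import Pool.Agent.Work.MP_dd1e4a_gt.CutX
import Pool.Agent.Work.MP_dd1e4a_gt.TanB
import Pool.Agent.Work.MP_dd1e4a_gt.MetC

/-! # CoSq: functions of the local coordinates on a fibre

* `coSq_bounds`: `mfderiv_symm_apply`, `metE_bounds` on `K = closedBall a ×ˢ closedBall b`: with
  `w` the coordinate vector of `tanVec f x`, `coSq x₁ = ‖w.1‖² / metE w`, `coSq x₂ = ‖w.2‖² / metE w`.
* `lap_c1`, `lap_c2`: `lap_comp_hol` and `IsParam.coSq_eq`.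
* `gradSq_c1_le`: `dR (A ∘ c1) x v = DA (c1 x) (dC c1 x v)`. -/

open scoped Manifold ContDiff Topology
open MeasureTheory Set

namespace DD

variable {X : Type} [TopologicalSpace X] [T2Space X] [SecondCountableTopology X]
  [ChartedSpace C2 X] [IsManifold 𝓘(ℂ, C2) ω X] {f : X → ℂ}

private theorem coSq_c1_holo (S : Setup f) {p : X} (hp : p ∈ S.P) :
    ContMDiffOn 𝓘(ℂ, C2) 𝓘(ℂ, ℂ) ω (S.c1 p) (S.e p).source := by
  have h1 : ContMDiff 𝓘(ℂ, C2) 𝓘(ℂ, ℂ) ω (fun z : C2 => z.1) :=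
    (ContinuousLinearMap.fst ℂ ℂ ℂ).contMDiff
  exact h1.comp_contMDiffOn (S.loc p hp).holo

private theorem coSq_c2_holo (S : Setup f) {p : X} (hp : p ∈ S.P) :
    ContMDiffOn 𝓘(ℂ, C2) 𝓘(ℂ, ℂ) ω (S.c2 p) (S.e p).source := by
  have h1 : ContMDiff 𝓘(ℂ, C2) 𝓘(ℂ, ℂ) ω (fun z : C2 => z.2) :=
    (ContinuousLinearMap.snd ℂ ℂ ℂ).contMDiff
  exact h1.comp_contMDiffOn (S.loc p hp).holo

theorem coSq_bounds (S : Setup f) (g : HermMetric X) {p : X} (hp : p ∈ S.P) :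
    ∃ c > 0, ∃ C > 0, ∀ x ∈ S.bidisc p, x ∉ Crit f →
      c ≤ coSq g f (S.c1 p) x + coSq g f (S.c2 p) x ∧
      coSq g f (S.c1 p) x + coSq g f (S.c2 p) x ≤ C := by
  have hloc := S.loc p hp
  obtain ⟨c₀, hc₀, C₀, hC₀, hb⟩ := metE_bounds g (S.e p) hloc.holo hloc.holo_symm
    (K := Metric.closedBall (0 : ℂ) S.a ×ˢ Metric.closedBall (0 : ℂ) (S.b p))
    ((isCompact_closedBall _ _).prod (isCompact_closedBall _ _)) hloc.target
  refine ⟨1 / C₀, by positivity, 1 / c₀, by positivity, fun x hx hxc => ?_⟩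
  obtain ⟨w, _, hw2, hw3, hw4⟩ := mfderiv_symm_apply g (S.e p) hloc.holo hloc.holo_symm hx.1
    (tanVec f x)
  have hK : S.e p x ∈ Metric.closedBall (0 : ℂ) S.a ×ˢ Metric.closedBall (0 : ℂ) (S.b p) :=
    ⟨by simpa using hx.2.1.le, by simpa using hx.2.2.le⟩
  obtain ⟨h1, h2⟩ := hb _ hK w
  have hpos : 0 < metE g (S.e p) (S.e p x) w := by
    rw [← hw2]
    exact normSq_pos g x (tanVec_ne hxc)
  have e1 : coSq g f (S.c1 p) x + coSq g f (S.c2 p) x =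
      (‖w.1‖ ^ 2 + ‖w.2‖ ^ 2) / metE g (S.e p) (S.e p x) w := by
    have a1 : dC (S.c1 p) x (tanVec f x) = w.1 := hw3
    have a2 : dC (S.c2 p) x (tanVec f x) = w.2 := hw4
    rw [coSq, coSq, a1, a2, hw2]
    ring
  rw [e1]
  constructor
  · rw [div_le_div_iff₀ hC₀ hpos]
    linarith
  · rw [div_le_div_iff₀ hpos hc₀]
    linarith

omit [T2Space X] [SecondCountableTopology X] [IsManifold 𝓘(ℂ, C2) ω X] in
theorem coSq_nonneg (g : HermMetric X) (f h : X → ℂ) (x : X) : 0 ≤ coSq g f h x :=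
  div_nonneg (sq_nonneg _) (normSq_nonneg g x _)

private theorem coSq_lap (g : HermMetric X) (hf : ContMDiff 𝓘(ℂ, C2) 𝓘(ℂ, ℂ) ω f) {c : X → ℂ}
    {O : Set X} (hO : IsOpen O) (hc : ContMDiffOn 𝓘(ℂ, C2) 𝓘(ℂ, ℂ) ω c O)
    {A : ℂ → ℝ} (hA : ContDiff ℝ ∞ A) {s : ℂ} {U : Set ℂ} {φ : ℂ → X}
    (hφ : IsParam f s U φ) {z : ℂ} (hz : z ∈ U) (hb : φ z ∈ O) :
    lap (fun w => A (c (φ w))) z =
      lap A (c (φ z)) * coSq g f c (φ z) * g.normSq (φ z) (vel φ z) := by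
  have hcd : MDifferentiableAt 𝓘(ℂ, C2) 𝓘(ℂ, ℂ) c (φ z) :=
    (hc.contMDiffAt (hO.mem_nhds hb)).mdifferentiableAt (by simp)
  have h1 : ContMDiffAt 𝓘(ℂ, ℂ) 𝓘(ℂ, ℂ) ω (fun w => c (φ w)) z :=
    (hc.contMDiffAt (hO.mem_nhds hb)).comp z (hφ.holo.contMDiffAt (hφ.isOpen.mem_nhds hz))
  have h2 : AnalyticAt ℂ (fun w => c (φ w)) z :=
    h1.contDiffAt.analyticAt
  have h3 := lap_comp_hol (A := A) (h := fun w => c (φ w)) (z := z) hA.contDiffAt h2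
  rw [h3, mul_assoc, IsParam.coSq_eq g hf hφ hz hcd]

/-- Laplacian of a function of the first coordinate. -/
theorem lap_c1 (S : Setup f) (g : HermMetric X) (hf : ContMDiff 𝓘(ℂ, C2) 𝓘(ℂ, ℂ) ω f) {p : X}
    (hp : p ∈ S.P) {A : ℂ → ℝ} (hA : ContDiff ℝ ∞ A) {s : ℂ} {U : Set ℂ} {φ : ℂ → X}
    (hφ : IsParam f s U φ) {z : ℂ} (hz : z ∈ U) (hb : φ z ∈ S.bidisc p) :
    lap (fun w => A (S.c1 p (φ w))) z =
      lap A (S.c1 p (φ z)) * coSq g f (S.c1 p) (φ z) * g.normSq (φ z) (vel φ z) :=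
  coSq_lap g hf (S.e p).open_source (coSq_c1_holo S hp) hA hφ hz hb.1

theorem lap_c2 (S : Setup f) (g : HermMetric X) (hf : ContMDiff 𝓘(ℂ, C2) 𝓘(ℂ, ℂ) ω f) {p : X}
    (hp : p ∈ S.P) {A : ℂ → ℝ} (hA : ContDiff ℝ ∞ A) {s : ℂ} {U : Set ℂ} {φ : ℂ → X}
    (hφ : IsParam f s U φ) {z : ℂ} (hz : z ∈ U) (hb : φ z ∈ S.bidisc p) :
    lap (fun w => A (S.c2 p (φ w))) z =
      lap A (S.c2 p (φ z)) * coSq g f (S.c2 p) (φ z) * g.normSq (φ z) (vel φ z) :=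
  coSq_lap g hf (S.e p).open_source (coSq_c2_holo S hp) hA hφ hz hb.1

/-- gradient of a function of the first coordinate. -/
theorem gradSq_c1_le (S : Setup f) (g : HermMetric X) {p : X} (hp : p ∈ S.P) {A : ℂ → ℝ}
    (hA : ContDiff ℝ ∞ A) {B : ℝ} (hB : ∀ x, ‖x‖ ≤ S.a → ‖fderiv ℝ A x‖ ≤ B) :
    ∀ x ∈ S.bidisc p, x ∉ Crit f →
      gradSq g f (fun y => A (S.c1 p y)) x ≤ 2 * B ^ 2 * coSq g f (S.c1 p) x := by
  intro x hx hxc
  have hcd : MDifferentiableAt 𝓘(ℂ, C2) 𝓘(ℂ, ℂ) (S.c1 p) x :=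
    ((coSq_c1_holo S hp).contMDiffAt ((S.e p).open_source.mem_nhds hx.1)).mdifferentiableAt
      (by simp)
  have hcr : MDifferentiableAt 𝓘(ℝ, C2) 𝓘(ℝ, ℂ) (S.c1 p) x := calcA_mdiff hcd
  have hBx := hB _ hx.2.1.le
  have key : ∀ w : TangentSpace 𝓘(ℂ, C2) x,
      ‖dR (fun y => A (S.c1 p y)) x w‖ ^ 2 ≤ B ^ 2 * ‖dC (S.c1 p) x w‖ ^ 2 := by
    intro w
    have h1 := dR_comp_left (k := A) (u := S.c1 p) (x := x)
      (hA.differentiable (by simp) _) hcr w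
    have h2 : dR (S.c1 p) x w = dC (S.c1 p) x w := mfderiv_real hcd w
    rw [h1, h2, ← mul_pow]
    refine pow_le_pow_left₀ (norm_nonneg _) ?_ 2
    exact (ContinuousLinearMap.le_opNorm _ _).trans
      (mul_le_mul_of_nonneg_right hBx (norm_nonneg _))
  have hI : ‖dC (S.c1 p) x (Complex.I • tanVec f x)‖ = ‖dC (S.c1 p) x (tanVec f x)‖ := by
    have h3 : dC (S.c1 p) x (Complex.I • tanVec f x) = Complex.I • dC (S.c1 p) x (tanVec f x) :=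
      map_smul (mfderiv 𝓘(ℂ, C2) 𝓘(ℂ, ℂ) (S.c1 p) x) Complex.I (tanVec f x)
    rw [h3]
    simp
  have k1 := key (tanVec f x)
  have k2 := key (Complex.I • tanVec f x)
  rw [hI] at k2
  have hpos := normSq_pos g x (tanVec_ne hxc)
  rw [gradSq, coSq, mul_div_assoc']
  exact div_le_div_of_nonneg_right (by linarith) hpos.le

end DD
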