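import Pool.Agent.Work.MP_dd1e4a_gt.PRootA
import Pool.Agent.Work.MP_dd1e4a_gt.BoxCompact

/-! # Compat: the two kinds of transport agree where both are used

`compat_trans`. By `S.compat`: `(bx α).source ⊆ bidisc p`, `(bx α x).1 = c1 p x`.
`K = tsupport (ψ α)` is compact and contains no critical point. There are `r₀ > 0`, `ε₁ > 0` with
`‖c1 p x‖ ≥ r₀` for `x ∈ K`, `‖f x‖ ≤ ε₁`: otherwise a limit point `x ∈ K` has `f x = 0`,
`c1 p x = 0`, then `low` gives `c2 p x = 0`, `x = p`, a critical point. For small `ε`: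
`r₀ > ε^τ / 2`, so `x ∈ pdom p ε`. The point `x' = btrans (bx α) s x` (defined by `box_lip` for
small `ε`) has `c1 p x' = c1 p x`, `f x' = s` and `‖c2 p x' - c2 p x‖ ≤ C ‖s - f x‖ ≤ 2 C ε ≤ √ε`
(`box_lip` with `h = c2 p ∘ (bx α).symm`); `PTransProps.uniq`. -/

open scoped Manifold ContDiff Topology
open MeasureTheory Set

namespace DD

variable {X : Type} [TopologicalSpace X] [T2Space X] [SecondCountableTopology X]
  [ChartedSpace C2 X] [IsManifold 𝓘(ℂ, C2) ω X] {f : X → ℂ}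

private theorem Compat_contDiff (S : Setup f) {α : S.ι} {p : X} (hp : p ∈ S.P)
    (hc : ∀ x ∈ (S.bx α).source, x ∈ (S.e p).source) :
    ContDiffOn ℝ 1 (fun z : C2 => (S.e p ((S.bx α).symm z)).2) (S.bx α).target := by
  have h1 : ContMDiffOn 𝓘(ℂ, C2) 𝓘(ℂ, C2) ω (fun z : C2 => S.e p ((S.bx α).symm z))
      (S.bx α).target := by
    refine (S.loc p hp).holo.comp (S.box α).holo_symm ?_
    intro z hz
    exact hc _ ((S.bx α).map_target hz)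
  have h2 : ContDiffOn ℂ ω (fun z : C2 => S.e p ((S.bx α).symm z)) (S.bx α).target :=
    contMDiffOn_iff_contDiffOn.1 h1
  have h3 : ContDiffOn ℝ 1 (fun z : C2 => S.e p ((S.bx α).symm z)) (S.bx α).target :=
    (h2.restrict_scalars ℝ).of_le (by exact le_top)
  exact contDiff_snd.comp_contDiffOn h3

private theorem Compat_lower (S : Setup f) (hf : ContMDiff 𝓘(ℂ, C2) 𝓘(ℂ, ℂ) ω f) {α : S.ι} {p : X}
    (hp : p ∈ S.P) (hc : ∀ x ∈ (S.bx α).source, x ∈ (S.e p).source ∧ ‖(S.e p x).1‖ < S.a ∧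
      ‖(S.e p x).2‖ < S.b p) :
    ∃ δ > 0, ∀ x ∈ tsupport (S.ψ α), ‖f x‖ ≤ δ → δ ≤ ‖S.c1 p x‖ := by
  have hK : IsCompact (tsupport (S.ψ α)) := S.ψ_compact α
  have hKs := S.ψ_supp α
  have hfc : Continuous f := hf.continuous
  have hcont : ContinuousOn (fun x => ‖f x‖ + ‖S.c1 p x‖) (tsupport (S.ψ α)) := by
    refine hfc.norm.continuousOn.add ?_
    have h1 : ContinuousOn (S.e p) (tsupport (S.ψ α)) :=
      (S.e p).continuousOn.mono (fun x hx => (hc x (hKs hx)).1)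
    exact (continuous_fst.comp_continuousOn h1).norm
  have hpos : ∀ x ∈ tsupport (S.ψ α), 0 < ‖f x‖ + ‖S.c1 p x‖ := by
    intro x hx
    by_contra hcon
    push Not at hcon
    have h1 : ‖f x‖ = 0 := by
      have := norm_nonneg (f x)
      have := norm_nonneg (S.c1 p x)
      linarith
    have h2 : ‖S.c1 p x‖ = 0 := by
      have := norm_nonneg (f x)
      have := norm_nonneg (S.c1 p x)
      linarith
    obtain ⟨g1, g2, g3⟩ := hc x (hKs hx)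
    have hl := (S.loc p hp).low (S.e p x).1 (S.e p x).2 g2.le g3.le
    have e3 : (S.e p).symm ((S.e p x).1, (S.e p x).2) = x := (S.e p).left_inv g1
    have h2' : ‖(S.e p x).1‖ = 0 := h2
    rw [e3, h1, h2'] at hl
    have h4 : ‖(S.e p x).2‖ ^ S.m ≤ 0 := by
      have hcp := S.c_pos
      by_contra h
      push Not at h
      have : 0 < S.c * ‖(S.e p x).2‖ ^ S.m := mul_pos hcp h
      have e0 : (0 : ℝ) + 0 / S.c = 0 := by simp
      rw [e0] at hl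
      linarith
    have h5 : ‖(S.e p x).2‖ = 0 := by
      have h6 : ‖(S.e p x).2‖ ^ S.m = 0 := le_antisymm h4 (by positivity)
      have hm := S.m_pos
      exact (pow_eq_zero_iff (by omega)).1 h6
    have h6 : S.e p x = ((0 : ℂ), (0 : ℂ)) := by
      ext1
      · exact norm_eq_zero.1 h2'
      · exact norm_eq_zero.1 h5
    have h7 : x = p := by
      apply (S.e p).injOn g1 (S.loc p hp).mem
      rw [h6, (S.loc p hp).map_p]
    have h8 : x ∈ Crit f := by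
      rw [h7]
      exact (S.hP p).1 hp
    exact Set.disjoint_left.1 (S.box α).disjoint_crit (hKs hx) h8
  obtain ⟨δ, hδ, hδK⟩ : ∃ δ > 0, ∀ x ∈ tsupport (S.ψ α), δ ≤ ‖f x‖ + ‖S.c1 p x‖ := by
    rcases (tsupport (S.ψ α)).eq_empty_or_nonempty with h | h
    · exact ⟨1, one_pos, by rw [h]; intro x hx; exact absurd hx (notMem_empty x)⟩
    · obtain ⟨x0, hx0, hmin⟩ := hK.exists_isMinOn h hcont
      exact ⟨_, hpos x0 hx0, fun x hx => hmin hx⟩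
  refine ⟨δ / 2, by linarith, ?_⟩
  intro x hx hfx
  have := hδK x hx
  linarith

private theorem Compat_one (S : Setup f) (hf : ContMDiff 𝓘(ℂ, C2) 𝓘(ℂ, ℂ) ω f) (α : S.ι) {p : X}
    (hp : p ∈ S.P) : ∀ᶠ ε in 𝓝[>] (0 : ℝ), ∀ s : ℂ, ‖s‖ ≤ ε →
      ∀ x ∈ tsupport (S.ψ α) ∩ tsupport (S.Θ p), ‖f x‖ ≤ ε →
        btrans (S.bx α) s x = S.ptrans p ε s x := by
  rcases (tsupport (S.ψ α) ∩ tsupport (S.Θ p)).eq_empty_or_nonempty with hemp | hne
  · rw [hemp]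
    exact Filter.Eventually.of_forall (fun ε s _ x hx => absurd hx (notMem_empty x))
  have hcomp := S.compat α p hp hne
  have hc : ∀ x ∈ (S.bx α).source, x ∈ (S.e p).source ∧ ‖(S.e p x).1‖ < S.a ∧
      ‖(S.e p x).2‖ < S.b p := fun x hx => ⟨(hcomp x hx).1, (hcomp x hx).2.1, (hcomp x hx).2.2.1⟩
  obtain ⟨δ, hδ, hlow⟩ := Compat_lower S hf hp hc
  obtain ⟨C, hC, ρ, hρ, hlip⟩ := box_lip hf (S.box α) (S.ψ_compact α) (S.ψ_supp α)
    (Compat_contDiff S hp (fun x hx => (hc x hx).1))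
  obtain ⟨D, hD, ε₁, hε₁, hprops⟩ := ptrans_props S hf
  have hτ : 0 < S.τ := by
    unfold Setup.τ
    have : (0 : ℝ) < S.m := by exact_mod_cast S.m_pos
    positivity
  -- smallness conditions
  have t1 : ∀ᶠ ε in 𝓝[>] (0 : ℝ), ε < ε₁ := by
    filter_upwards [Ioo_mem_nhdsGT hε₁] with ε hε using hε.2
  have t2 : ∀ᶠ ε in 𝓝[>] (0 : ℝ), ε < ρ := by
    filter_upwards [Ioo_mem_nhdsGT hρ] with ε hε using hε.2
  have t3 : ∀ᶠ ε in 𝓝[>] (0 : ℝ), ε < δ := by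
    filter_upwards [Ioo_mem_nhdsGT hδ] with ε hε using hε.2
  have t4 : ∀ᶠ ε in 𝓝[>] (0 : ℝ), 0 < ε := self_mem_nhdsWithin
  have t5 : ∀ᶠ ε in 𝓝[>] (0 : ℝ), ε ^ S.τ < δ := by
    have h1 : Filter.Tendsto (fun ε : ℝ => ε ^ S.τ) (𝓝[>] 0) (𝓝 0) := by
      have h2 : Filter.Tendsto (fun ε : ℝ => ε ^ S.τ) (𝓝 0) (𝓝 ((0 : ℝ) ^ S.τ)) :=
        (Real.continuousAt_rpow_const 0 S.τ (Or.inr hτ.le)).tendsto
      rw [Real.zero_rpow hτ.ne'] at h2
      exact h2.mono_left nhdsWithin_le_nhds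
    exact h1.eventually (gt_mem_nhds hδ)
  have t6 : ∀ᶠ ε in 𝓝[>] (0 : ℝ), 2 * C * ε ≤ ε ^ (1 / 2 : ℝ) := by
    have hpos : 0 < (1 / (2 * C)) ^ 2 := by positivity
    filter_upwards [Ioo_mem_nhdsGT hpos] with ε hε
    have h1 : ε ^ (1 / 2 : ℝ) = √ε := (Real.sqrt_eq_rpow ε).symm
    rw [h1]
    have h2 : √ε ≤ 1 / (2 * C) := by
      rw [← Real.sqrt_sq (show 0 ≤ 1 / (2 * C) by positivity)]
      exact Real.sqrt_le_sqrt hε.2.le
    have h3 : 2 * C * √ε ≤ 1 := by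
      rw [le_div_iff₀ (by positivity)] at h2
      linarith
    have h4 : √ε * √ε = ε := Real.mul_self_sqrt hε.1.le
    have h5 : 0 ≤ √ε := Real.sqrt_nonneg _
    calc 2 * C * ε = (2 * C * √ε) * √ε := by rw [mul_assoc (2 * C), h4]
      _ ≤ 1 * √ε := mul_le_mul_of_nonneg_right h3 h5
      _ = √ε := one_mul _
  filter_upwards [t1, t2, t3, t4, t5, t6] with ε g1 g2 g3 g4 g5 g6 s hs x hx hfx
  have hpt := hprops ε g4 g1 p hp
  have hxs : x ∈ (S.bx α).source := S.ψ_supp α hx.1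
  obtain ⟨k1, k2, k3, k4⟩ := hcomp x hxs
  obtain ⟨l1, l2⟩ := hlip x hx.1 (by linarith) s (by linarith)
  obtain ⟨m1, m2, m3, m4, m5⟩ := (S.box α).btrans_mem l1
  obtain ⟨n1, n2, n3, n4⟩ := hcomp _ m1
  apply hpt.uniq s hs x _ (btrans (S.bx α) s x) ⟨n1, n2, n3⟩ _ m2 _
  · refine ⟨⟨k1, k2, k3⟩, ?_, by linarith⟩
    have := hlow x hx.1 (by linarith)
    linarith
  · show (S.e p (btrans (S.bx α) s x)).1 = (S.e p x).1
    rw [← n4, m3, k4]
  · have e1 : (S.e p ((S.bx α).symm ((S.bx α x).1, s))).2 = S.c2 p (btrans (S.bx α) s x) := rfl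
    have e2 : (S.e p ((S.bx α).symm (S.bx α x))).2 = S.c2 p x := by
      rw [(S.bx α).left_inv hxs]; rfl
    rw [e1, e2] at l2
    refine l2.trans (le_trans ?_ g6)
    have h3 : ‖s - f x‖ ≤ 2 * ε := by
      calc ‖s - f x‖ ≤ ‖s‖ + ‖f x‖ := norm_sub_le _ _
        _ ≤ 2 * ε := by linarith
    nlinarith

theorem compat_trans (S : Setup f) (hf : ContMDiff 𝓘(ℂ, C2) 𝓘(ℂ, ℂ) ω f) :
    ∃ ε₀ > 0, ∀ ε : ℝ, 0 < ε → ε < ε₀ → ∀ α, ∀ p ∈ S.P, ∀ s : ℂ, ‖s‖ ≤ ε →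
      ∀ x ∈ tsupport (S.ψ α) ∩ tsupport (S.Θ p), ‖f x‖ ≤ ε →
        btrans (S.bx α) s x = S.ptrans p ε s x := by
  have h : ∀ᶠ ε in 𝓝[>] (0 : ℝ), ∀ α, ∀ p ∈ S.P, ∀ s : ℂ, ‖s‖ ≤ ε →
      ∀ x ∈ tsupport (S.ψ α) ∩ tsupport (S.Θ p), ‖f x‖ ≤ ε →
        btrans (S.bx α) s x = S.ptrans p ε s x := by
    rw [Filter.eventually_all]
    intro α
    rw [Filter.eventually_all_finset]
    intro p hp
    exact Compat_one S hf α hp
  obtain ⟨u, hu, hsub⟩ := mem_nhdsGT_iff_exists_Ioo_subset.1 h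
  exact ⟨u, hu, fun ε h1 h2 => hsub ⟨h1, h2⟩⟩

end DD
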