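import Pool.Agent.Work.MP_dd1e4a_gt.CalcA

/-! # TestL: closure properties of the space of test functions (easy)

`ContMDiff` is closed under products (multiplication by a real function: compose the product map
`ℝ × ℂ → ℂ`, a continuous bilinear map), supports do not grow. -/

open scoped Manifold ContDiff Topology
open MeasureTheory Set

namespace DD

variable {X : Type} [TopologicalSpace X] [ChartedSpace C2 X] {f : X → ℂ}

theorem tsupport_mul_subset (a : X → ℝ) (u : X → ℂ) :
    tsupport (fun x => (a x : ℂ) * u x) ⊆ tsupport a ∩ tsupport u := by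
  refine Set.subset_inter (closure_mono ?_) (closure_mono ?_)
  · intro x hx h
    exact hx (by simp [h])
  · intro x hx h
    exact hx (by simp [h])

theorem test_mul {a : X → ℝ} (ha : ContMDiff 𝓘(ℝ, C2) 𝓘(ℝ, ℝ) ∞ a) {u : X → ℂ}
    (hu : u ∈ Test f) : (fun x => (a x : ℂ) * u x) ∈ Test f := by
  obtain ⟨h1, h2, h3⟩ := hu
  have h4 := tsupport_mul_subset a u
  refine ⟨?_, ?_, h3.mono_left (h4.trans Set.inter_subset_right)⟩
  · have h5 := ha.smul h1
    have h6 : (fun x => (a x : ℂ) * u x) = fun x => a x • u x := by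
      funext x
      rw [Complex.real_smul]
    rw [h6]
    exact h5
  · exact h2.of_isClosed_subset (isClosed_tsupport _) (h4.trans Set.inter_subset_right)

/-- `a |u|²` is smooth with compact support off the critical points. -/
theorem test_normSq {a : X → ℝ} (ha : ContMDiff 𝓘(ℝ, C2) 𝓘(ℝ, ℝ) ∞ a) {u : X → ℂ}
    (hu : u ∈ Test f) :
    ContMDiff 𝓘(ℝ, C2) 𝓘(ℝ, ℝ) ∞ (fun x => a x * ‖u x‖ ^ 2) ∧
      HasCompactSupport (fun x => a x * ‖u x‖ ^ 2) ∧
      tsupport (fun x => a x * ‖u x‖ ^ 2) ⊆ tsupport a ∩ tsupport u ∧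
      Disjoint (tsupport (fun x => a x * ‖u x‖ ^ 2)) (Crit f) := by
  obtain ⟨h1, h2, h3⟩ := hu
  have h4 : tsupport (fun x => a x * ‖u x‖ ^ 2) ⊆ tsupport a ∩ tsupport u := by
    refine Set.subset_inter (closure_mono ?_) (closure_mono ?_)
    · intro x hx h
      exact hx (by simp [h])
    · intro x hx h
      exact hx (by simp [h])
  refine ⟨ha.mul ((contDiff_norm_sq ℝ).contMDiff.comp h1), ?_, h4,
    h3.mono_left (h4.trans Set.inter_subset_right)⟩
  exact h2.of_isClosed_subset (isClosed_tsupport _) (h4.trans Set.inter_subset_right)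

end DD
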