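import Pool.Agent.Work.MP_dd1e4a_gt.CoSq
import Pool.Agent.Work.MP_dd1e4a_gt.GreenX
import Pool.Agent.Work.MP_dd1e4a_gt.TestL
import Pool.Agent.Work.MP_dd1e4a_gt.TanC

/-! # CutEnergy: the cutoff increases the energy by at most `C K ∫ |u|²`

`q x = lap η (c1 p x) * coSq g f (c1 p) x` if `x ∈ bidisc p` for some
`p ∈ P` (unique by `disj`), `q x = 0` otherwise. For a parametrization `φ` of the fibre `s`,
`‖s‖ < c`: if `φ z` lies in `bidisc p` then (`far_fibre`) `‖c2 p (φ z)‖ < b/2` and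
`χ ∘ φ = η ∘ c1 p ∘ φ` near `z`, so `lap (χ ∘ φ) z = q (φ z) * normSq` by `lap_c1`, `lap_congr`; if
`φ z` is in no bidisc then `χ ∘ φ = 1` near `z` (`one_near`) and `lap = 0 = q`.
`green` with `O = univ`, `a = χ`, `b = χ |u|²` (`test_normSq`):
`∫ ∇χ·∇(χ|u|²) = -∫ χ |u|² q`, and `gradSq_mul`: `∫ gradSq (χu) = ∫ χ² gradSq u - ∫ χ |u|² q`.
On the fibre `-χ q = -η lap η (c1) coSq ≤ K C`, `C` from `coSq_bounds` (maximum over the finite set
`P`). Everything is integrable by `integrable_test` and `green`. -/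

open scoped Manifold ContDiff Topology
open MeasureTheory Set

namespace DD

variable {X : Type} [TopologicalSpace X] [T2Space X] [SecondCountableTopology X]
  [ChartedSpace C2 X] [IsManifold 𝓘(ℂ, C2) ω X] [MeasurableSpace X] [BorelSpace X] {f : X → ℂ}

private theorem cutEnergy_int (hf : ContMDiff 𝓘(ℂ, C2) 𝓘(ℂ, ℂ) ω f) {g : HermMetric X} {s : ℂ}
    {μ : Measure X} (hμ : IsFibreArea g f s μ) {v : X → ℂ} (hv : v ∈ Test f) {G : X → ℝ}
    (hG : ContinuousOn G (univ \ Crit f)) (h0 : ∀ x ∉ tsupport v, G x = 0) : Integrable G μ := by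
  refine IsFibreArea.integrable hf hμ hv.2.1 hv.2.2 ?_ h0
  exact hG.mono (fun x hx => ⟨mem_univ x, hx⟩)

theorem cut_energy (S : Setup f) (g : HermMetric X) (hf : ContMDiff 𝓘(ℂ, C2) 𝓘(ℂ, ℂ) ω f) :
    ∃ C > 0, ∀ (η : ℂ → ℝ) (χ : X → ℝ) (K : ℝ), ContDiff ℝ ∞ η → (∀ x, 0 ≤ η x ∧ η x ≤ 1) →
      IsCut S η χ → 0 ≤ K → (∀ x, -K ≤ η x * lap η x) →
      ∀ (s : ℂ) (μ : Measure X), ‖s‖ < S.c → IsFibreArea g f s μ → ∀ u ∈ Test f,
        ∫ x, gradSq g f (fun y => (χ y : ℂ) * u y) x ∂μ ≤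
          (∫ x, gradSq g f u x ∂μ) + C * K * ∫ x, ‖u x‖ ^ 2 ∂μ := by
  classical
  have hCp : ∀ p : X, ∃ C : ℝ, 0 ≤ C ∧ (p ∈ S.P → ∀ x ∈ S.bidisc p, x ∉ Crit f →
      coSq g f (S.c1 p) x ≤ C) := by
    intro p
    by_cases hp : p ∈ S.P
    · obtain ⟨c, _, C, hC, h⟩ := coSq_bounds S g hp
      refine ⟨C, hC.le, fun _ x hx hxc => ?_⟩
      have h1 := (h x hx hxc).2
      have h2 := coSq_nonneg g f (S.c2 p) x
      linarith
    · exact ⟨0, le_rfl, fun h => absurd h hp⟩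
  choose Cp hCp0 hCp1 using hCp
  have hCsum : ∀ p ∈ S.P, Cp p ≤ (∑ p ∈ S.P, Cp p) + 1 := fun p hp => by
    have := Finset.single_le_sum (fun r _ => hCp0 r) hp
    linarith
  have hCnn : 0 ≤ ∑ p ∈ S.P, Cp p := Finset.sum_nonneg (fun r _ => hCp0 r)
  refine ⟨(∑ p ∈ S.P, Cp p) + 1, by linarith, fun η χ K hη hη01 hχ hK hηK s μ hs hμ u hu => ?_⟩
  set C : ℝ := (∑ p ∈ S.P, Cp p) + 1 with hC
  have hC0 : 0 ≤ C := by linarith
  set q : X → ℝ := fun x => if h : ∃ p, p ∈ S.P ∧ x ∈ S.bidisc p then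
    lap η (S.c1 h.choose x) * coSq g f (S.c1 h.choose) x else 0 with hq_def
  -- on the fibre
  have heta : ∀ p ∈ S.P, ∀ x ∈ S.bidisc p, f x = s → χ x = η (S.c1 p x) := by
    intro p hp x hx hfx
    have h1 := far_fibre S hp hx.1 hx.2.1.le hx.2.2.le (by rw [hfx]; exact hs)
    refine hχ.eq_eta p hp x hx ?_
    have := (S.loc p hp).b_pos
    linarith
  have hq : ∀ (U : Set ℂ) (φ : ℂ → X), IsParam f s U φ → (∀ z ∈ U, φ z ∈ (univ : Set X)) →
      ∀ z ∈ U, lap (fun w => χ (φ w)) z = q (φ z) * g.normSq (φ z) (vel φ z) := by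
    intro U φ hφ _ z hz
    have hcont : ContinuousAt φ z := (hφ.holo.contMDiffAt (hφ.isOpen.mem_nhds hz)).continuousAt
    by_cases h : ∃ p, p ∈ S.P ∧ φ z ∈ S.bidisc p
    · obtain ⟨hp, hb⟩ := h.choose_spec
      have hqz : q (φ z) = lap η (S.c1 h.choose (φ z)) * coSq g f (S.c1 h.choose) (φ z) := by
        simp only [hq_def, dif_pos h]
      have hev : (fun w => χ (φ w)) =ᶠ[𝓝 z] fun w => η (S.c1 h.choose (φ w)) := by
        filter_upwards [hφ.isOpen.mem_nhds hz,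
          hcont.preimage_mem_nhds ((isOpen_bidisc S h.choose).mem_nhds hb)] with w hw1 hw2
        exact heta _ hp _ hw2 (hφ.fib w hw1)
      rw [lap_congr hev, lap_c1 S g hf hp hη hφ hz hb, hqz]
    · have hqz : q (φ z) = 0 := by simp only [hq_def, dif_neg h]
      have h1 := hχ.one_near (x := φ z) (fun p hp hb => h ⟨p, hp, hb⟩)
      have hev : (fun w => χ (φ w)) =ᶠ[𝓝 z] fun _ => 1 := hcont.eventually h1
      rw [lap_congr hev, hqz]
      simp [lap]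
  obtain ⟨hb, hbc, hbt, hbcrit⟩ := test_normSq hχ.smooth hu
  have hbv : tsupport (fun x => χ x * ‖u x‖ ^ 2) ⊆ tsupport u := hbt.trans inter_subset_right
  obtain ⟨hgreen, hint_bq⟩ := green hf hμ isOpen_univ hχ.smooth.contMDiffOn hb hbc
    (subset_univ _) hbcrit hq
  have hud : ∀ x, MDifferentiableAt 𝓘(ℝ, C2) 𝓘(ℝ, ℂ) u x := fun x =>
    (hu.1.contMDiffAt).mdifferentiableAt (by simp)
  have hχd : ∀ x, MDifferentiableAt 𝓘(ℝ, C2) 𝓘(ℝ, ℝ) χ x := fun x =>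
    (hχ.smooth.contMDiffAt).mdifferentiableAt (by simp)
  have hdR0 : ∀ {F : Type} [NormedAddCommGroup F] [NormedSpace ℝ F] (x : X) (w : X → F)
      (_ : w =ᶠ[𝓝 x] fun _ => 0) (t : TangentSpace 𝓘(ℂ, C2) x), dR w x t = 0 := by
    intro F _ _ x w hw t
    rw [dR_congr hw]
    have h1 : mfderiv 𝓘(ℝ, C2) 𝓘(ℝ, F) (fun _ : X => (0 : F)) x = 0 := mfderiv_const
    rw [dR, h1]
    rfl
  have hu0 : ∀ x ∉ tsupport u, u =ᶠ[𝓝 x] fun _ => 0 := fun x hx => by
    filter_upwards [(isClosed_tsupport u).isOpen_compl.mem_nhds hx] with y hy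
    exact image_eq_zero_of_notMem_tsupport hy
  have hi1 : Integrable (fun x => χ x ^ 2 * gradSq g f u x) μ := by
    refine cutEnergy_int hf hμ hu ((hχ.smooth.continuous.pow 2).continuousOn.mul
      (continuousOn_gradSq g hf isOpen_univ hu.1.contMDiffOn)) (fun x hx => ?_)
    rw [gradSq, hdR0 x u (hu0 x hx), hdR0 x u (hu0 x hx)]
    simp
  have hi2 : Integrable (gradDot g f χ (fun x => χ x * ‖u x‖ ^ 2)) μ := by
    refine cutEnergy_int hf hμ hu
      (continuousOn_gradDot g hf isOpen_univ hχ.smooth.contMDiffOn hb.contMDiffOn)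
      (fun x hx => ?_)
    have h1 : (fun x => χ x * ‖u x‖ ^ 2) =ᶠ[𝓝 x] fun _ => 0 := by
      filter_upwards [hu0 x hx] with y hy
      simp [hy]
    rw [gradDot, hdR0 x _ h1, hdR0 x _ h1]
    simp
  obtain ⟨hi3, _, hi4⟩ := IsFibreArea.integrable_test hf hμ hu
  have h1 : ∫ x, gradSq g f (fun y => (χ y : ℂ) * u y) x ∂μ =
      (∫ x, χ x ^ 2 * gradSq g f u x ∂μ) - ∫ x, χ x * ‖u x‖ ^ 2 * q x ∂μ := by
    have e1 : (fun x => gradSq g f (fun y => (χ y : ℂ) * u y) x) = fun x =>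
        χ x ^ 2 * gradSq g f u x + gradDot g f χ (fun x => χ x * ‖u x‖ ^ 2) x := by
      funext x
      exact gradSq_mul g (hχd x) (hud x)
    rw [e1, integral_add hi1 hi2, hgreen]
    ring
  have h2 : ∫ x, χ x ^ 2 * gradSq g f u x ∂μ ≤ ∫ x, gradSq g f u x ∂μ := by
    refine integral_mono hi1 hi3 (fun x => ?_)
    have a1 := hχ.nonneg x
    have a2 := hχ.le_one x
    have a3 := gradSq_nonneg g f u x
    show χ x ^ 2 * gradSq g f u x ≤ gradSq g f u x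
    exact mul_le_of_le_one_left a3 (pow_le_one₀ a1 a2)
  have h3 : -∫ x, χ x * ‖u x‖ ^ 2 * q x ∂μ ≤ C * K * ∫ x, ‖u x‖ ^ 2 ∂μ := by
    rw [← integral_neg, ← integral_const_mul]
    refine integral_mono_ae hint_bq.neg (hi4.const_mul _) ?_
    filter_upwards [IsFibreArea.ae_fibre hμ] with x hx
    show -(χ x * ‖u x‖ ^ 2 * q x) ≤ C * K * ‖u x‖ ^ 2
    have hu2 : 0 ≤ ‖u x‖ ^ 2 := sq_nonneg _
    by_cases h : ∃ p, p ∈ S.P ∧ x ∈ S.bidisc p
    · obtain ⟨hp, hb⟩ := h.choose_spec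
      have hqx : q x = lap η (S.c1 h.choose x) * coSq g f (S.c1 h.choose) x := by
        simp only [hq_def, dif_pos h]
      have hχx := heta _ hp x hb hx.1
      have b1 := coSq_nonneg g f (S.c1 h.choose) x
      have b2 := (hCp1 _ hp x hb hx.2).trans (hCsum _ hp)
      have b3 := hηK (S.c1 h.choose x)
      rw [hqx, hχx]
      have b4 : -(η (S.c1 h.choose x) * lap η (S.c1 h.choose x)) *
          coSq g f (S.c1 h.choose) x ≤ K * C :=
        mul_le_mul (by linarith) b2 b1 hK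
      have b5 := mul_le_mul_of_nonneg_right b4 hu2
      calc -(η (S.c1 h.choose x) * ‖u x‖ ^ 2 *
            (lap η (S.c1 h.choose x) * coSq g f (S.c1 h.choose) x))
          = -(η (S.c1 h.choose x) * lap η (S.c1 h.choose x)) *
            coSq g f (S.c1 h.choose) x * ‖u x‖ ^ 2 := by ring
        _ ≤ K * C * ‖u x‖ ^ 2 := b5
        _ = C * K * ‖u x‖ ^ 2 := by ring
    · have hqx : q x = 0 := by simp only [hq_def, dif_neg h]
      rw [hqx, mul_zero, neg_zero]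
      positivity
  rw [h1]
  linarith

end DD
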