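import Pool.Agent.Work.MP_dd1e4a_gt.PlanarB

/-! # CutEta: the logarithmic cutoff function in the plane

`exists_eta`. Let `T = Real.smoothTransition`, `t₀ = log (a/2)`, `t₁ = τ log ε`,
`g s = T (s - t₁) * T (t₀ - s)`, `A = ∫_{t₁}^{t₀} g ≥ t₀ - t₁ - 2`, `h t = (∫_{t₁}^t g) / A` and
`η x = h (log ‖x‖)` for `x ≠ 0`, `η 0 = 0`. -/

open scoped Manifold ContDiff Topology
open MeasureTheory Set

namespace DD

private theorem cutEta_T_smooth : ContDiff ℝ ∞ Real.smoothTransition :=
  Real.smoothTransition.contDiff (n := ⊤)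

private theorem cutEta_T_deriv_nonneg (x : ℝ) : 0 ≤ deriv Real.smoothTransition x :=
  Real.smoothTransition.monotone.deriv_nonneg

private theorem cutEta_T_deriv_one {x : ℝ} (hx : 1 < x) : deriv Real.smoothTransition x = 0 := by
  have h : Real.smoothTransition =ᶠ[𝓝 x] fun _ => 1 := by
    filter_upwards [Ioi_mem_nhds hx] with y hy
    exact Real.smoothTransition.one_of_one_le (le_of_lt hy)
  rw [h.deriv_eq]
  simp

private theorem cutEta_T_deriv_zero {x : ℝ} (hx : x < 0) : deriv Real.smoothTransition x = 0 := by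
  have h : Real.smoothTransition =ᶠ[𝓝 x] fun _ => 0 := by
    filter_upwards [Iio_mem_nhds hx] with y hy
    exact Real.smoothTransition.zero_of_nonpos (le_of_lt hy)
  rw [h.deriv_eq]
  simp

private theorem cutEta_T_bound : ∃ C₀ : ℝ, 0 ≤ C₀ ∧ ∀ x, deriv Real.smoothTransition x ≤ C₀ := by
  have hc : Continuous (deriv Real.smoothTransition) :=
    cutEta_T_smooth.continuous_deriv (by simp)
  obtain ⟨C, hC⟩ := (isCompact_Icc (a := (0 : ℝ)) (b := 1)).exists_bound_of_continuousOn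
    hc.continuousOn
  refine ⟨max C 0, le_max_right _ _, fun x => ?_⟩
  by_cases h0 : x < 0
  · rw [cutEta_T_deriv_zero h0]; exact le_max_right _ _
  · by_cases h1 : 1 < x
    · rw [cutEta_T_deriv_one h1]; exact le_max_right _ _
    · exact ((Real.le_norm_self _).trans (hC x ⟨not_lt.mp h0, not_lt.mp h1⟩)).trans
        (le_max_left _ _)

private theorem cutEta_profile : ∃ C₀ : ℝ, 0 ≤ C₀ ∧ ∀ t₁ t₀ : ℝ, t₁ + 2 < t₀ → ∃ h : ℝ → ℝ,
    ContDiff ℝ ∞ h ∧ (∀ t, 0 ≤ h t ∧ h t ≤ 1) ∧ (∀ t, t ≤ t₁ → h t = 0) ∧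
    (∀ t, t₀ ≤ t → h t = 1) ∧ (∀ t, t < t₀ - 1 → 0 ≤ deriv (deriv h) t) ∧
    (∀ t, -(C₀ / (t₀ - t₁ - 2)) ≤ deriv (deriv h) t) ∧
    (∀ t, t ≤ t₀ → 1 - h t ≤ (t₀ - t) / (t₀ - t₁ - 2)) := by
  obtain ⟨C₀, hC₀, hT'⟩ := cutEta_T_bound
  refine ⟨C₀, hC₀, fun t₁ t₀ hlt => ?_⟩
  set T := Real.smoothTransition with hT
  have hTs : ContDiff ℝ ∞ T := cutEta_T_smooth
  have hT0 : ∀ x, 0 ≤ T x := Real.smoothTransition.nonneg
  have hT1 : ∀ x, T x ≤ 1 := Real.smoothTransition.le_one
  set g : ℝ → ℝ := fun s => T (s - t₁) * T (t₀ - s) with hg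
  have hgs : ContDiff ℝ ∞ g :=
    (hTs.comp (contDiff_id.sub contDiff_const)).mul (hTs.comp (contDiff_const.sub contDiff_id))
  have hgc : Continuous g := hgs.continuous
  have hg0 : ∀ s, 0 ≤ g s := fun s => mul_nonneg (hT0 _) (hT0 _)
  have hg1 : ∀ s, g s ≤ 1 := fun s => mul_le_one₀ (hT1 _) (hT0 _) (hT1 _)
  have hgl : ∀ s, s ≤ t₁ → g s = 0 := fun s hs => by
    have : T (s - t₁) = 0 := Real.smoothTransition.zero_of_nonpos (by linarith)
    simp [hg, this]
  have hgr : ∀ s, t₀ ≤ s → g s = 0 := fun s hs => by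
    have : T (t₀ - s) = 0 := Real.smoothTransition.zero_of_nonpos (by linarith)
    simp [hg, this]
  have hgi : ∀ a b : ℝ, IntervalIntegrable g volume a b := fun a b => hgc.intervalIntegrable a b
  set A : ℝ := ∫ s in t₁..t₀, g s with hA
  have hAge : t₀ - t₁ - 2 ≤ A := by
    have e1 : ∫ s in (t₁ + 1)..(t₀ - 1), g s = t₀ - t₁ - 2 := by
      have : ∫ s in (t₁ + 1)..(t₀ - 1), g s = ∫ s in (t₁ + 1)..(t₀ - 1), (1 : ℝ) := by
        refine intervalIntegral.integral_congr (fun s hs => ?_)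
        rw [uIcc_of_le (by linarith)] at hs
        have a1 : T (s - t₁) = 1 := Real.smoothTransition.one_of_one_le (by linarith [hs.1])
        have a2 : T (t₀ - s) = 1 := Real.smoothTransition.one_of_one_le (by linarith [hs.2])
        simp [hg, a1, a2]
      rw [this, intervalIntegral.integral_const]
      simp only [smul_eq_mul, mul_one]
      ring
    rw [← e1]
    exact intervalIntegral.integral_mono_interval (by linarith) (by linarith) (by linarith)
      (Filter.Eventually.of_forall (fun s => hg0 s)) (hgi _ _)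
  have hM : 0 < t₀ - t₁ - 2 := by linarith
  have hApos : 0 < A := lt_of_lt_of_le hM hAge
  set h : ℝ → ℝ := fun t => (∫ s in t₁..t, g s) / A with hh
  have hder : ∀ t, HasDerivAt h (g t / A) t := fun t =>
    ((hgc.integral_hasStrictDerivAt t₁ t).hasDerivAt).div_const A
  have hderiv : deriv h = fun t => g t / A := funext fun t => (hder t).deriv
  have hgA : ContDiff ℝ ∞ (fun t => g t / A) := hgs.div_const A
  have hhs : ContDiff ℝ ∞ h := by
    rw [contDiff_infty_iff_deriv]
    exact ⟨fun t => (hder t).differentiableAt, by rw [hderiv]; exact hgA⟩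
  have hzero : ∀ t, t ≤ t₁ → h t = 0 := by
    intro t ht
    have : ∫ s in t₁..t, g s = 0 := by
      rw [intervalIntegral.integral_symm, neg_eq_zero]
      have e2 : ∫ s in t..t₁, g s = ∫ s in t..t₁, (0 : ℝ) := by
        refine intervalIntegral.integral_congr (fun s hs => ?_)
        rw [uIcc_of_le ht] at hs
        exact hgl s hs.2
      rw [e2]
      simp
    simp [hh, this]
  have hone : ∀ t, t₀ ≤ t → h t = 1 := by
    intro t ht
    have e3 : ∫ s in t₀..t, g s = 0 := by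
      have e2 : ∫ s in t₀..t, g s = ∫ s in t₀..t, (0 : ℝ) := by
        refine intervalIntegral.integral_congr (fun s hs => ?_)
        rw [uIcc_of_le ht] at hs
        exact hgr s hs.1
      rw [e2]
      simp
    have e4 := intervalIntegral.integral_add_adjacent_intervals (hgi t₁ t₀) (hgi t₀ t)
    rw [e3, add_zero] at e4
    simp only [hh, ← e4]
    exact div_self hApos.ne'
  have hsub : ∀ t, 1 - h t = (∫ s in t..t₀, g s) / A := by
    intro t
    have e4 := intervalIntegral.integral_add_adjacent_intervals (hgi t₁ t) (hgi t t₀)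
    rw [← hA] at e4
    simp only [hh]
    rw [eq_div_iff hApos.ne', sub_mul, one_mul, div_mul_cancel₀ _ hApos.ne']
    linarith
  have hnn : ∀ t, 0 ≤ h t := by
    intro t
    rcases le_total t t₁ with ht | ht
    · rw [hzero t ht]
    · exact div_nonneg (intervalIntegral.integral_nonneg ht (fun s _ => hg0 s)) hApos.le
  have hle : ∀ t, h t ≤ 1 := by
    intro t
    rcases le_total t₀ t with ht | ht
    · rw [hone t ht]
    · have : 0 ≤ 1 - h t := by
        rw [hsub]
        exact div_nonneg (intervalIntegral.integral_nonneg ht (fun s _ => hg0 s)) hApos.le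
      linarith
  have hd2 : ∀ t, deriv (deriv h) t =
      (deriv T (t - t₁) * T (t₀ - t) - T (t - t₁) * deriv T (t₀ - t)) / A := by
    intro t
    rw [hderiv]
    have d1 : HasDerivAt (fun s => T (s - t₁)) (deriv T (t - t₁)) t :=
      ((hTs.differentiable (by simp) (t - t₁)).hasDerivAt).comp_sub_const t t₁
    have d2 : HasDerivAt (fun s => T (t₀ - s)) (-deriv T (t₀ - t)) t :=
      ((hTs.differentiable (by simp) (t₀ - t)).hasDerivAt).comp_const_sub t₀ t
    have d3 := (d1.mul d2).div_const A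
    have d4 : HasDerivAt (fun t => g t / A)
        ((deriv T (t - t₁) * T (t₀ - t) + T (t - t₁) * -deriv T (t₀ - t)) / A) t := d3
    rw [d4.deriv]
    ring
  refine ⟨h, hhs, fun t => ⟨hnn t, hle t⟩, hzero, hone, ?_, ?_, ?_⟩
  · intro t ht
    rw [hd2, cutEta_T_deriv_one (x := t₀ - t) (by linarith), mul_zero, sub_zero]
    exact div_nonneg (mul_nonneg (cutEta_T_deriv_nonneg _) (hT0 _)) hApos.le
  · intro t
    rw [hd2]
    have b1 : -C₀ ≤ deriv T (t - t₁) * T (t₀ - t) - T (t - t₁) * deriv T (t₀ - t) := by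
      have b2 : 0 ≤ deriv T (t - t₁) * T (t₀ - t) :=
        mul_nonneg (cutEta_T_deriv_nonneg _) (hT0 _)
      have b3 : T (t - t₁) * deriv T (t₀ - t) ≤ 1 * C₀ :=
        mul_le_mul (hT1 _) (hT' _) (cutEta_T_deriv_nonneg _) zero_le_one
      linarith
    calc -(C₀ / (t₀ - t₁ - 2)) ≤ -(C₀ / A) :=
          neg_le_neg (div_le_div_of_nonneg_left hC₀ hM hAge)
      _ = -C₀ / A := by rw [neg_div]
      _ ≤ _ := div_le_div_of_nonneg_right b1 hApos.le
  · intro t ht
    rw [hsub]
    have c1 : ∫ s in t..t₀, g s ≤ t₀ - t := by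
      have : ∫ s in t..t₀, g s ≤ ∫ s in t..t₀, (1 : ℝ) :=
        intervalIntegral.integral_mono_on ht (hgi _ _) (by simp) (fun s _ => hg1 s)
      simpa using this
    calc (∫ s in t..t₀, g s) / A ≤ (t₀ - t) / A := div_le_div_of_nonneg_right c1 hApos.le
      _ ≤ (t₀ - t) / (t₀ - t₁ - 2) := div_le_div_of_nonneg_left (by linarith) hM hAge

private theorem cutEta_lap {h : ℝ → ℝ} (hh : ContDiff ℝ ∞ h) {x : ℂ} (hx : x ≠ 0) :
    lap (fun y => h (Real.log ‖y‖)) x = deriv (deriv h) (Real.log ‖x‖) * (‖x‖⁻¹) ^ 2 := by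
  set c : ℝ := Real.log ‖x‖ with hc
  set A : ℂ → ℝ := fun w => h (w.re + c) with hA
  have hAs : ContDiff ℝ ∞ A := hh.comp (Complex.reCLM.contDiff.add contDiff_const)
  have hev : (fun y => h (Real.log ‖y‖)) =ᶠ[𝓝 x] fun y => A (Complex.log (y * x⁻¹)) := by
    filter_upwards [isOpen_ne.mem_nhds hx] with y hy
    have hy' : ‖y‖ ≠ 0 := norm_ne_zero_iff.mpr hy
    have hx' : ‖x‖ ≠ 0 := norm_ne_zero_iff.mpr hx
    simp only [hA, Complex.log_re, norm_mul, norm_inv]
    rw [Real.log_mul hy' (inv_ne_zero hx'), Real.log_inv, hc]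
    congr 1
    ring
  have hin : AnalyticAt ℂ (fun y : ℂ => y * x⁻¹) x := analyticAt_id.mul analyticAt_const
  have h1 : x * x⁻¹ = 1 := mul_inv_cancel₀ hx
  have hlog : AnalyticAt ℂ (fun y : ℂ => Complex.log (y * x⁻¹)) x :=
    hin.clog (by rw [h1]; exact Complex.one_mem_slitPlane)
  have hdl : deriv (fun y : ℂ => Complex.log (y * x⁻¹)) x = x⁻¹ := by
    have d1 : HasDerivAt (fun y : ℂ => y * x⁻¹) (1 * x⁻¹) x := (hasDerivAt_id x).mul_const _
    have d2 := d1.clog (by rw [h1]; exact Complex.one_mem_slitPlane)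
    rw [d2.deriv, h1]
    simp
  rw [lap_congr hev, lap_comp_hol hAs.contDiffAt hlog, hdl, norm_inv, h1, Complex.log_one]
  congr 1
  -- the Laplacian of `A`
  have hfd : ∀ w v : ℂ, fderiv ℝ A w v = deriv h (w.re + c) * v.re := by
    intro w v
    have e1 : HasFDerivAt (fun w : ℂ => w.re + c) Complex.reCLM w :=
      Complex.reCLM.hasFDerivAt.add_const c
    have e2 : HasDerivAt h (deriv h (w.re + c)) (w.re + c) :=
      (hh.differentiable (by simp) _).hasDerivAt
    have e3 := e2.comp_hasFDerivAt w e1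
    have e4 : fderiv ℝ A w = deriv h (w.re + c) • Complex.reCLM := e3.fderiv
    rw [e4]
    simp
  have hh' : ContDiff ℝ ∞ (deriv h) := (contDiff_infty_iff_deriv.mp hh).2
  unfold lap
  have f1 : (fun w => fderiv ℝ A w 1) = fun w => deriv h (w.re + c) := by
    funext w; rw [hfd]; simp
  have f2 : (fun w => fderiv ℝ A w Complex.I) = fun _ => (0 : ℝ) := by
    funext w; rw [hfd]; simp
  rw [f1, f2]
  have e1 : HasFDerivAt (fun w : ℂ => w.re + c) Complex.reCLM 0 :=
    Complex.reCLM.hasFDerivAt.add_const c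
  have e2 : HasDerivAt (deriv h) (deriv (deriv h) ((0 : ℂ).re + c)) ((0 : ℂ).re + c) :=
    (hh'.differentiable (by simp) _).hasDerivAt
  have e3 := e2.comp_hasFDerivAt 0 e1
  have e4 : fderiv ℝ (fun w : ℂ => deriv h (w.re + c)) 0 =
      deriv (deriv h) ((0 : ℂ).re + c) • Complex.reCLM := e3.fderiv
  rw [e4]
  simp

theorem exists_eta {a τ : ℝ} (ha : 0 < a) (ha' : a ≤ 1 / 4) (hτ : 0 < τ) (hτ' : τ ≤ 1) :
    ∃ C > 0, ∃ ε₀ > 0, ε₀ < 1 / 4 ∧ ∀ ε : ℝ, 0 < ε → ε < ε₀ → ∃ η : ℂ → ℝ, ContDiff ℝ ∞ η ∧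
      (∀ x, 0 ≤ η x ∧ η x ≤ 1) ∧ (∀ x, ‖x‖ ≤ ε ^ τ → η x = 0) ∧ (∀ x, a / 2 ≤ ‖x‖ → η x = 1) ∧
      (∀ x, -(C / Real.log (1 / ε)) ≤ η x * lap η x) ∧
      (∀ x, ‖x‖ ≤ a →
        1 - η x ^ 2 ≤ C / Real.log (1 / ε) * (1 - Real.log (‖x‖ ^ 2 + ε ^ 2) / 2)) := by
  obtain ⟨C₀, hC₀, hprof⟩ := cutEta_profile
  set t₀ : ℝ := Real.log (a / 2) with ht₀
  have ht₀neg : t₀ < 0 := Real.log_neg (by linarith) (by linarith)
  set R : ℝ := 2 / τ * (2 - t₀) with hR
  have hRpos : 0 < R := by
    have : 0 < 2 - t₀ := by linarith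
    positivity
  set K : ℝ := Real.exp (1 - t₀) with hK
  have hKpos : 0 < K := Real.exp_pos _
  set C : ℝ := C₀ * K ^ 2 * (2 / τ) + 4 / τ with hC
  have hCpos : 0 < C := by positivity
  refine ⟨C, hCpos, min (1 / 8) (Real.exp (-R)), lt_min (by norm_num) (Real.exp_pos _),
    lt_of_le_of_lt (min_le_left _ _) (by norm_num), fun ε hε hεlt => ?_⟩
  have hε8 : ε < 1 / 8 := lt_of_lt_of_le hεlt (min_le_left _ _)
  have hεR : ε < Real.exp (-R) := lt_of_lt_of_le hεlt (min_le_right _ _)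
  set L : ℝ := Real.log (1 / ε) with hL
  have hLeq : L = -Real.log ε := by rw [hL, one_div, Real.log_inv]
  have hLR : R < L := by
    rw [hLeq]
    have := (Real.log_lt_iff_lt_exp hε).mpr hεR
    linarith
  have hLpos : 0 < L := hRpos.trans hLR
  set t₁ : ℝ := τ * Real.log ε with ht₁
  have ht₁eq : t₁ = -(τ * L) := by rw [ht₁, hLeq]; ring
  have hM : τ * L / 2 ≤ t₀ - t₁ - 2 := by
    rw [ht₁eq]
    have h1 : τ * R ≤ τ * L := mul_le_mul_of_nonneg_left hLR.le hτ.le
    have h2 : τ * R = 2 * (2 - t₀) := by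
      rw [hR]; field_simp
    linarith
  have hτL : 0 < τ * L := mul_pos hτ hLpos
  have hMpos : 0 < t₀ - t₁ - 2 := lt_of_lt_of_le (by positivity) hM
  obtain ⟨h, hs, h01, hzero, hone, hconv, hlow, hup⟩ := hprof t₁ t₀ (by linarith)
  have hετ : 0 < ε ^ τ := Real.rpow_pos_of_pos hε τ
  have hlogετ : Real.log (ε ^ τ) = t₁ := by rw [Real.log_rpow hε]
  classical
  set η : ℂ → ℝ := fun x => if x = 0 then 0 else h (Real.log ‖x‖) with hη
  have hη0 : ∀ x : ℂ, ‖x‖ ≤ ε ^ τ → η x = 0 := by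
    intro x hx
    by_cases hx0 : x = 0
    · simp [hη, hx0]
    · simp only [hη, hx0, if_false]
      refine hzero _ ?_
      rw [← hlogετ]
      exact Real.log_le_log (norm_pos_iff.mpr hx0) hx
  have hηne : ∀ x : ℂ, x ≠ 0 → η =ᶠ[𝓝 x] fun y => h (Real.log ‖y‖) := by
    intro x hx
    filter_upwards [isOpen_ne.mem_nhds hx] with y hy
    have hy' : y ≠ 0 := hy
    simp [hη, hy']
  have hηzero : η =ᶠ[𝓝 0] fun _ => 0 := by
    filter_upwards [Metric.ball_mem_nhds (0 : ℂ) hετ] with y hy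
    exact hη0 y (by simpa using (mem_ball_zero_iff.mp hy).le)
  have hηs : ContDiff ℝ ∞ η := by
    rw [contDiff_iff_contDiffAt]
    intro x
    by_cases hx : x = 0
    · subst hx
      exact contDiffAt_const.congr_of_eventuallyEq hηzero
    · refine ContDiffAt.congr_of_eventuallyEq ?_ (hηne x hx)
      have h1 : ContDiffAt ℝ ∞ (fun y : ℂ => ‖y‖) x := contDiffAt_norm ℝ hx
      exact hs.contDiffAt.comp x (h1.log (norm_ne_zero_iff.mpr hx))
  have hηone : ∀ x : ℂ, a / 2 ≤ ‖x‖ → η x = 1 := by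
    intro x hx
    have hx0 : x ≠ 0 := by
      rintro rfl
      simp at hx
      linarith
    simp only [hη, hx0, if_false]
    exact hone _ (Real.log_le_log (by linarith) hx)
  have hη01 : ∀ x, 0 ≤ η x ∧ η x ≤ 1 := by
    intro x
    by_cases hx : x = 0
    · simp [hη, hx]
    · simp only [hη, hx, if_false]
      exact h01 _
  have hCL : 0 ≤ C / L := (div_pos hCpos hLpos).le
  have hinvM : 1 / (t₀ - t₁ - 2) ≤ 2 / τ / L := by
    have : 2 / τ / L = 1 / (τ * L / 2) := by field_simp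
    rw [this]
    exact one_div_le_one_div_of_le (by positivity) hM
  refine ⟨η, hηs, hη01, hη0, hηone, ?_, ?_⟩
  · intro x
    by_cases hx : x = 0
    · subst hx
      have : η 0 = 0 := by simp [hη]
      rw [this, zero_mul]
      linarith
    · have hlap : -(C / L) ≤ lap η x := by
        rw [lap_congr (hηne x hx), cutEta_lap hs hx]
        have hxpos : 0 < ‖x‖ := norm_pos_iff.mpr hx
        by_cases ht : Real.log ‖x‖ < t₀ - 1
        · have := mul_nonneg (hconv _ ht) (sq_nonneg (‖x‖⁻¹))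
          linarith
        · have hge : t₀ - 1 ≤ Real.log ‖x‖ := not_lt.mp ht
          have hinv : ‖x‖⁻¹ ≤ K := by
            have : Real.exp (t₀ - 1) ≤ ‖x‖ := (Real.le_log_iff_exp_le hxpos).mp hge
            have h2 : K = (Real.exp (t₀ - 1))⁻¹ := by
              rw [hK, ← Real.exp_neg]; congr 1; ring
            rw [h2]
            exact inv_anti₀ (Real.exp_pos _) this
          have hinv2 : (‖x‖⁻¹) ^ 2 ≤ K ^ 2 := pow_le_pow_left₀ (by positivity) hinv 2
          have hq := hlow (Real.log ‖x‖)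
          have hB : 0 ≤ C₀ / (t₀ - t₁ - 2) := div_nonneg hC₀ hMpos.le
          have h3 : -(C₀ / (t₀ - t₁ - 2) * K ^ 2) ≤
              deriv (deriv h) (Real.log ‖x‖) * (‖x‖⁻¹) ^ 2 := by
            calc -(C₀ / (t₀ - t₁ - 2) * K ^ 2) ≤ -(C₀ / (t₀ - t₁ - 2) * (‖x‖⁻¹) ^ 2) :=
                  neg_le_neg (mul_le_mul_of_nonneg_left hinv2 hB)
              _ = -(C₀ / (t₀ - t₁ - 2)) * (‖x‖⁻¹) ^ 2 := by ring
              _ ≤ _ := mul_le_mul_of_nonneg_right hq (sq_nonneg _)
          have h4 : C₀ / (t₀ - t₁ - 2) * K ^ 2 ≤ C / L := by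
            calc C₀ / (t₀ - t₁ - 2) * K ^ 2 = C₀ * K ^ 2 * (1 / (t₀ - t₁ - 2)) := by ring
              _ ≤ C₀ * K ^ 2 * (2 / τ / L) :=
                  mul_le_mul_of_nonneg_left hinvM (by positivity)
              _ = (C₀ * K ^ 2 * (2 / τ)) / L := by ring
              _ ≤ C / L := by
                  refine div_le_div_of_nonneg_right ?_ hLpos.le
                  rw [hC]
                  have : 0 < 4 / τ := by positivity
                  linarith
          linarith
      have h5 := (hη01 x).1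
      have h6 := (hη01 x).2
      calc -(C / L) ≤ η x * -(C / L) := by nlinarith
        _ ≤ η x * lap η x := mul_le_mul_of_nonneg_left hlap h5
  · intro x hxa
    have h5 := (hη01 x).1
    have h6 := (hη01 x).2
    have hsqsum : ‖x‖ ^ 2 + ε ^ 2 ≤ 1 := by
      have := norm_nonneg x
      nlinarith
    have hsqpos : 0 < ‖x‖ ^ 2 + ε ^ 2 := by positivity
    have hlogneg : Real.log (‖x‖ ^ 2 + ε ^ 2) ≤ 0 := Real.log_nonpos hsqpos.le hsqsum
    have hlog2 : Real.log 2 < 1 := by
      have := Real.log_two_lt_d9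
      linarith
    by_cases hbig : a / 2 ≤ ‖x‖
    · rw [hηone x hbig]
      have : 0 ≤ C / L * (1 - Real.log (‖x‖ ^ 2 + ε ^ 2) / 2) := mul_nonneg hCL (by linarith)
      linarith
    · by_cases hsmall : ‖x‖ ≤ ε ^ τ
      · rw [hη0 x hsmall]
        have hW : τ * L ≤ 1 - Real.log (‖x‖ ^ 2 + ε ^ 2) / 2 := by
          have e1 : ε ≤ ε ^ τ := by
            have := Real.rpow_le_rpow_of_exponent_ge hε (by linarith : ε ≤ 1) hτ'
            simpa using this
          have e2 : ‖x‖ ^ 2 + ε ^ 2 ≤ 2 * (ε ^ τ) ^ 2 := by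
            have := pow_le_pow_left₀ (norm_nonneg x) hsmall 2
            have := pow_le_pow_left₀ hε.le e1 2
            linarith
          have e3 := Real.log_le_log hsqpos e2
          rw [Real.log_mul (by norm_num) (by positivity), Real.log_pow, hlogετ, ht₁eq] at e3
          push_cast at e3
          linarith
        have h7 : 1 ≤ 4 / τ / L * (1 - Real.log (‖x‖ ^ 2 + ε ^ 2) / 2) := by
          calc (1 : ℝ) ≤ 4 := by norm_num
            _ = 4 / τ / L * (τ * L) := by field_simp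
            _ ≤ _ := mul_le_mul_of_nonneg_left hW (by positivity)
        have h8 : 4 / τ / L ≤ C / L := by
          refine div_le_div_of_nonneg_right ?_ hLpos.le
          rw [hC]
          have : 0 ≤ C₀ * K ^ 2 * (2 / τ) := by positivity
          linarith
        have h9 : 4 / τ / L * (1 - Real.log (‖x‖ ^ 2 + ε ^ 2) / 2) ≤
            C / L * (1 - Real.log (‖x‖ ^ 2 + ε ^ 2) / 2) :=
          mul_le_mul_of_nonneg_right h8 (by linarith)
        linarith
      · have hx1 : ε ^ τ < ‖x‖ := not_le.mp hsmall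
        have hx2 : ‖x‖ < a / 2 := not_le.mp hbig
        have hxpos : 0 < ‖x‖ := hετ.trans hx1
        have hx0 : x ≠ 0 := norm_pos_iff.mp hxpos
        have hηx : η x = h (Real.log ‖x‖) := by simp [hη, hx0]
        have ht : Real.log ‖x‖ ≤ t₀ := Real.log_le_log hxpos hx2.le
        have h10 := hup (Real.log ‖x‖) ht
        rw [← hηx] at h10
        have hW : -Real.log ‖x‖ ≤ 1 - Real.log (‖x‖ ^ 2 + ε ^ 2) / 2 := by
          have e1 : ε ≤ ε ^ τ := by
            have := Real.rpow_le_rpow_of_exponent_ge hε (by linarith : ε ≤ 1) hτ'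
            simpa using this
          have e2 : ‖x‖ ^ 2 + ε ^ 2 ≤ 2 * ‖x‖ ^ 2 := by
            have := pow_le_pow_left₀ hε.le (e1.trans hx1.le) 2
            linarith
          have e3 := Real.log_le_log hsqpos e2
          rw [Real.log_mul (by norm_num) (by positivity), Real.log_pow] at e3
          push_cast at e3
          linarith
        have h11 : (t₀ - Real.log ‖x‖) / (t₀ - t₁ - 2) ≤
            2 / τ / L * (1 - Real.log (‖x‖ ^ 2 + ε ^ 2) / 2) := by
          calc (t₀ - Real.log ‖x‖) / (t₀ - t₁ - 2)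
              = (t₀ - Real.log ‖x‖) * (1 / (t₀ - t₁ - 2)) := by ring
            _ ≤ (1 - Real.log (‖x‖ ^ 2 + ε ^ 2) / 2) * (2 / τ / L) :=
                mul_le_mul (by linarith) hinvM (by positivity) (by linarith)
            _ = _ := by ring
        have h12 : 1 - η x ^ 2 ≤ 2 * (1 - η x) := by nlinarith
        have h8 : 4 / τ / L ≤ C / L := by
          refine div_le_div_of_nonneg_right ?_ hLpos.le
          rw [hC]
          have : 0 ≤ C₀ * K ^ 2 * (2 / τ) := by positivity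
          linarith
        have h9 : 4 / τ / L * (1 - Real.log (‖x‖ ^ 2 + ε ^ 2) / 2) ≤
            C / L * (1 - Real.log (‖x‖ ^ 2 + ε ^ 2) / 2) :=
          mul_le_mul_of_nonneg_right h8 (by linarith)
        have h13 : 4 / τ / L * (1 - Real.log (‖x‖ ^ 2 + ε ^ 2) / 2) =
            2 * (2 / τ / L * (1 - Real.log (‖x‖ ^ 2 + ε ^ 2) / 2)) := by ring
        linarith

end DD
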