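import Pool.Agent.Work.MP_dd1e4a_gt.CutX

/-! # Weights: comparison of the weights

Fix `ε` small, `W t = 1 - log (t² + ε²) / 2`, `L = log (1/ε)`, `K = C₁ / L`.

* weights: on the fibre `s`, `‖s‖ ≤ ε`, in `bidisc p`: `low` gives
  `c ‖x₂‖^m ≤ ε + ‖x₁‖ / c`. If `‖x₁‖ ≥ ε`: `‖x₂‖^m ≤ (2/c²) ‖x₁‖`, so
  `‖x₂‖² + ε² ≤ C₂ ‖x₁‖^(2/m)` and `W ‖x₂‖ ≥ (1/m) log (1/‖x₁‖) - C₃`; together with `W ≥ 1` this
  gives `W ‖x₁‖ ≤ 1 + log (1/‖x₁‖) ≤ C₄ W ‖x₂‖`. If `‖x₁‖ < ε`: `W ‖x₂‖ ≥ L/m - C₃`, so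
  `1 ≤ (C₄ / L) W ‖x₂‖`. Since `1 - η² ≤ min 1 (K W ‖x₁‖)`:
  `1 - η(x₁)² ≤ C₅ K W ‖x₁‖` and `≤ C₅ K W ‖x₂‖` (recall `K = C₁/L`, `C₁ ≥ 1`). -/

open scoped Manifold ContDiff Topology
open MeasureTheory Set

namespace DD

variable {X : Type} [TopologicalSpace X] [T2Space X] [SecondCountableTopology X]
  [ChartedSpace C2 X] [IsManifold 𝓘(ℂ, C2) ω X] {f : X → ℂ}

/-- the logarithmic estimate -/
private theorem weights_aux {c t x2 ε : ℝ} {m : ℕ} (hc : 0 < c) (hc1 : c ≤ 1) (hm : 1 ≤ m)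
    (ht : 0 < t) (hε : 0 < ε) (hε1 : ε < 1 / 4) (hx2 : 0 ≤ x2) (hx21 : x2 ≤ 1 / 4)
    (hεt : ε ≤ t) (h : c * x2 ^ m ≤ t + t / c) :
    Real.log (1 / t) ≤ (m + Real.log (2 / c ^ 2)) * (1 - Real.log (x2 ^ 2 + ε ^ 2) / 2) ∧
      1 ≤ 1 - Real.log (x2 ^ 2 + ε ^ 2) / 2 := by
  set K : ℝ := 2 / c ^ 2 with hK
  have hc2 : c ^ 2 ≤ 1 := pow_le_one₀ hc.le hc1
  have hK2 : 2 ≤ K := by
    rw [hK, le_div_iff₀ (by positivity)]
    nlinarith
  have hm' : (1 : ℝ) ≤ m := by exact_mod_cast hm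
  have hu : 0 < x2 ^ 2 + ε ^ 2 := by positivity
  have hW : 1 ≤ 1 - Real.log (x2 ^ 2 + ε ^ 2) / 2 := by
    have : Real.log (x2 ^ 2 + ε ^ 2) ≤ 0 := Real.log_nonpos hu.le (by nlinarith)
    linarith
  refine ⟨?_, hW⟩
  set M := max x2 ε with hM
  have hMpos : 0 < M := lt_of_lt_of_le hε (le_max_right _ _)
  have h1 : x2 ^ m ≤ K * t := by
    have h2 : c * x2 ^ m ≤ 2 * t / c := by
      have : t ≤ t / c := by
        rw [le_div_iff₀ hc]; nlinarith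
      have e : 2 * t / c = t / c + t / c := by ring
      rw [e]; linarith
    have h3 : c ^ 2 * x2 ^ m ≤ 2 * t := by
      rw [le_div_iff₀ hc] at h2
      nlinarith
    rw [hK, div_mul_eq_mul_div, le_div_iff₀ (by positivity)]
    linarith
  have h2 : ε ^ m ≤ K * t := by
    have h3 : ε ^ m ≤ ε := pow_le_of_le_one hε.le (by linarith) (by omega)
    nlinarith
  have h3 : M ^ m ≤ K * t := by
    rcases max_cases x2 ε with ⟨h4, _⟩ | ⟨h4, _⟩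
    · rw [hM, h4]; exact h1
    · rw [hM, h4]; exact h2
  have h4 : m * Real.log M ≤ Real.log K + Real.log t := by
    rw [← Real.log_pow, ← Real.log_mul (by linarith) ht.ne']
    exact Real.log_le_log (by positivity) h3
  have h5 : Real.log (x2 ^ 2 + ε ^ 2) ≤ Real.log 2 + 2 * Real.log M := by
    have e : Real.log 2 + 2 * Real.log M = Real.log (2 * M ^ 2) := by
      rw [Real.log_mul (by norm_num) (by positivity), Real.log_pow]
      norm_num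
    rw [e]
    apply Real.log_le_log hu
    have g1 : x2 ^ 2 ≤ M ^ 2 := pow_le_pow_left₀ hx2 (le_max_left _ _) 2
    have g2 : ε ^ 2 ≤ M ^ 2 := pow_le_pow_left₀ hε.le (le_max_right _ _) 2
    linarith
  have h6 : Real.log 2 < 1 := by
    have := Real.log_two_lt_d9
    linarith
  have h7 : Real.log (1 / t) = - Real.log t := by
    rw [one_div, Real.log_inv]
  have hlK : 0 ≤ Real.log K := Real.log_nonneg (by linarith)
  rw [h7]
  set W := 1 - Real.log (x2 ^ 2 + ε ^ 2) / 2 with hWd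
  have h8 : W ≥ 1 / 2 - Real.log M := by
    rw [hWd]; linarith
  have h9 : (m : ℝ) * W ≥ m * (1 / 2 - Real.log M) := mul_le_mul_of_nonneg_left h8 (by linarith)
  have h10 : Real.log K * 1 ≤ Real.log K * W := mul_le_mul_of_nonneg_left hW hlK
  nlinarith

/-- comparison of the weights. -/
theorem weights (S : Setup f) {C₁ : ℝ} (hC₁ : 1 ≤ C₁) :
    ∃ C > 0, ∃ ε₀ > 0, ε₀ < 1 / 4 ∧ ∀ ε : ℝ, 0 < ε → ε < ε₀ → ∀ η : ℂ → ℝ,
      (∀ x, 0 ≤ η x ∧ η x ≤ 1) →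
      (∀ x, ‖x‖ ≤ S.a →
        1 - η x ^ 2 ≤ C₁ / Real.log (1 / ε) * (1 - Real.log (‖x‖ ^ 2 + ε ^ 2) / 2)) →
      ∀ p ∈ S.P, ∀ x ∈ S.bidisc p, ‖f x‖ ≤ ε →
        1 - η (S.c1 p x) ^ 2 ≤
          C / Real.log (1 / ε) * (1 - Real.log (‖S.c1 p x‖ ^ 2 + ε ^ 2) / 2) ∧
        1 - η (S.c1 p x) ^ 2 ≤
          C / Real.log (1 / ε) * (1 - Real.log (‖S.c2 p x‖ ^ 2 + ε ^ 2) / 2) := by
  set C4 : ℝ := 1 + (S.m + Real.log (2 / S.c ^ 2)) with hC4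
  have hc := S.c_pos
  have hc1 := S.c_le
  have hlK : 0 ≤ Real.log (2 / S.c ^ 2) := by
    apply Real.log_nonneg
    rw [le_div_iff₀ (by positivity)]
    have : S.c ^ 2 ≤ 1 := pow_le_one₀ hc.le hc1
    linarith
  have hm' : (1 : ℝ) ≤ S.m := by exact_mod_cast S.m_pos
  have hC41 : 1 ≤ C4 := by rw [hC4]; linarith
  refine ⟨C₁ * C4, by positivity, 1 / 5, by norm_num, by norm_num, ?_⟩
  intro ε hε hε5 η hη hw p hp x hx hfx
  obtain ⟨hxs, hx1, hx2⟩ := hx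
  have hL : 0 < Real.log (1 / ε) := by
    apply Real.log_pos
    rw [lt_div_iff₀ hε]; linarith
  have hloc := S.loc p hp
  have ha := S.a_le
  have hb := hloc.b_le
  have e1 : S.c1 p x = (S.e p x).1 := rfl
  have e2 : S.c2 p x = (S.e p x).2 := rfl
  have hlow := hloc.low (S.c1 p x) (S.c2 p x) hx1.le hx2.le
  have e3 : (S.e p).symm (S.c1 p x, S.c2 p x) = x := by
    rw [e1, e2]
    exact (S.e p).left_inv hxs
  rw [e3] at hlow
  have hw1 := hw (S.c1 p x) hx1.le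
  set x1 := ‖S.c1 p x‖ with hx1d
  set x2 := ‖S.c2 p x‖ with hx2d
  have hx10 : 0 ≤ x1 := norm_nonneg _
  have hx20 : 0 ≤ x2 := norm_nonneg _
  have hx1' : x1 < S.a := hx1
  have hx2' : x2 < S.b p := hx2
  have hW1 : 1 ≤ 1 - Real.log (x1 ^ 2 + ε ^ 2) / 2 := by
    have : Real.log (x1 ^ 2 + ε ^ 2) ≤ 0 := Real.log_nonpos (by positivity) (by nlinarith)
    linarith
  have hη1 : 1 - η (S.c1 p x) ^ 2 ≤ 1 := by
    have := sq_nonneg (η (S.c1 p x))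
    linarith
  have hCC : C₁ / Real.log (1 / ε) ≤ C₁ * C4 / Real.log (1 / ε) := by
    apply div_le_div_of_nonneg_right _ hL.le
    nlinarith
  have hCp : 0 < C₁ / Real.log (1 / ε) := by positivity
  refine ⟨hw1.trans (mul_le_mul_of_nonneg_right hCC (by linarith)), ?_⟩
  rcases le_total ε x1 with h | h
  · -- case `ε ≤ x1`
    have hx1p : 0 < x1 := lt_of_lt_of_le hε h
    have h3 : S.c * x2 ^ S.m ≤ x1 + x1 / S.c := by linarith
    obtain ⟨g1, g2⟩ := weights_aux (t := x1) hc hc1 S.m_pos hx1p hε (by linarith) hx20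
      (by linarith) h h3
    have g3 : 1 - Real.log (x1 ^ 2 + ε ^ 2) / 2 ≤ 1 + Real.log (1 / x1) := by
      have g4 : Real.log (x1 ^ 2) ≤ Real.log (x1 ^ 2 + ε ^ 2) :=
        Real.log_le_log (by positivity) (by nlinarith)
      rw [Real.log_pow] at g4
      push_cast at g4
      rw [one_div, Real.log_inv]
      linarith
    have g5 : 1 - Real.log (x1 ^ 2 + ε ^ 2) / 2 ≤ C4 * (1 - Real.log (x2 ^ 2 + ε ^ 2) / 2) := by
      rw [hC4]; linarith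
    calc 1 - η (S.c1 p x) ^ 2 ≤ C₁ / Real.log (1 / ε) * (1 - Real.log (x1 ^ 2 + ε ^ 2) / 2) := hw1
      _ ≤ C₁ / Real.log (1 / ε) * (C4 * (1 - Real.log (x2 ^ 2 + ε ^ 2) / 2)) :=
          mul_le_mul_of_nonneg_left g5 hCp.le
      _ = _ := by ring
  · have h3 : S.c * x2 ^ S.m ≤ ε + ε / S.c := by
      have : x1 / S.c ≤ ε / S.c := div_le_div_of_nonneg_right h hc.le
      linarith
    obtain ⟨g1, g2⟩ := weights_aux (t := ε) hc hc1 S.m_pos hε hε (by linarith) hx20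
      (by linarith) le_rfl h3
    have g5 : Real.log (1 / ε) ≤ C4 * (1 - Real.log (x2 ^ 2 + ε ^ 2) / 2) := by
      rw [hC4]; linarith
    have g6 : 1 ≤ C₁ * C4 / Real.log (1 / ε) * (1 - Real.log (x2 ^ 2 + ε ^ 2) / 2) := by
      have g7 : Real.log (1 / ε) ≤ C₁ * (C4 * (1 - Real.log (x2 ^ 2 + ε ^ 2) / 2)) := by
        have : 0 ≤ C4 * (1 - Real.log (x2 ^ 2 + ε ^ 2) / 2) := by linarith
        nlinarith
      rw [div_mul_eq_mul_div, le_div_iff₀ hL]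
      linarith
    linarith

end DD
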