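import Pool.Agent.Work.MP_dd1e4a_gt.Hardy
import Pool.Agent.Work.MP_dd1e4a_gt.Weights
import Pool.Agent.Work.MP_dd1e4a_gt.CoSq
import Pool.Agent.Work.MP_dd1e4a_gt.TanC
import Pool.Agent.Work.MP_dd1e4a_gt.AreaD

/-! # CutMass: the cutoff loses little mass

Fix `ε` small (`ε < S.c`, `ε < 1/4`), `W t = 1 - log (t² + ε²) / 2`, `L = log (1/ε)`.

* conclusion: `1 - χ² = 1 - η(c1)²` in the bidiscs, supported in `‖c1‖ ≤ a/2`, where `Θ p = 1` on
  the fibre; `v = Θ p u` is a test function supported in the closed bidisc; `coSq_bounds`: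
  `1 ≤ (coSq c1 + coSq c2) / c`. So
  `∫ (1-χ²)|u|² ≤ ∑_p (C₅ K / c) ∫ |v|² (W coSq c1 + W coSq c2) ≤ C K ∑_p ∫ gradSq (Θ_p u)` and
  `gradSq (Θ_p u) ≤ 2 gradSq u + 2 |u|² gradSq Θ_p` (`gradSq_mul_le`),
  `gradSq Θ_p ≤ C` on the fibre (`gradSq_c1_le`, as `Θ p = θ ∘ c1 p` near points of the fibre in
  the bidisc). -/

open scoped Manifold ContDiff Topology
open MeasureTheory Set

namespace DD

variable {X : Type} [TopologicalSpace X] [T2Space X] [SecondCountableTopology X]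
  [ChartedSpace C2 X] [IsManifold 𝓘(ℂ, C2) ω X] [MeasurableSpace X] [BorelSpace X] {f : X → ℂ}

private theorem cutMass_int (hf : ContMDiff 𝓘(ℂ, C2) 𝓘(ℂ, ℂ) ω f) {g : HermMetric X} {s : ℂ}
    {μ : Measure X} (hμ : IsFibreArea g f s μ) {v : X → ℂ} (hv : v ∈ Test f) {O : Set X}
    (hO : IsOpen O) (hvO : tsupport v ⊆ O) {G : X → ℝ} (hG : ContinuousOn G (O \ Crit f))
    (h0 : ∀ x ∉ tsupport v, G x = 0) : Integrable G μ := by
  refine IsFibreArea.integrable hf hμ hv.2.1 hv.2.2 ?_ h0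
  intro x hx
  by_cases hxv : x ∈ tsupport v
  · have hopen : IsOpen (O \ Crit f) := hO.sdiff (isClosed_crit hf)
    exact (hG.continuousAt (hopen.mem_nhds ⟨hvO hxv, hx⟩)).continuousWithinAt
  · have h1 : G =ᶠ[𝓝 x] fun _ => 0 := by
      filter_upwards [(isClosed_tsupport v).isOpen_compl.mem_nhds hxv] with y hy
      exact h0 y hy
    exact (continuousAt_const.congr h1.symm).continuousWithinAt

/-- the weight in the bidisc. -/
private noncomputable def cutMass_w (S : Setup f) (g : HermMetric X) (ε : ℝ) (p x : X) : ℝ :=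
  (1 - Real.log (‖S.c1 p x‖ ^ 2 + ε ^ 2) / 2) * coSq g f (S.c1 p) x +
    (1 - Real.log (‖S.c2 p x‖ ^ 2 + ε ^ 2) / 2) * coSq g f (S.c2 p) x

omit [MeasurableSpace X] [BorelSpace X] in
private theorem cutMass_w_nonneg (S : Setup f) (g : HermMetric X) {ε : ℝ} (hε : 0 < ε)
    (hε' : ε < 1 / 4) {p : X} (hp : p ∈ S.P) {x : X} (hx : x ∈ S.bidisc p) :
    0 ≤ cutMass_w S g ε p x := by
  have hW : ∀ (c : ℂ), ‖c‖ ≤ 1 / 4 → 0 ≤ 1 - Real.log (‖c‖ ^ 2 + ε ^ 2) / 2 := by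
    intro c hc
    have h1 : Real.log (‖c‖ ^ 2 + ε ^ 2) ≤ 0 := by
      refine Real.log_nonpos (by positivity) ?_
      have := norm_nonneg c
      nlinarith
    linarith
  exact add_nonneg
    (mul_nonneg (hW _ (hx.2.1.le.trans S.a_le)) (coSq_nonneg g f (S.c1 p) x))
    (mul_nonneg (hW _ (hx.2.2.le.trans (S.loc p hp).b_le)) (coSq_nonneg g f (S.c2 p) x))

omit [MeasurableSpace X] [BorelSpace X] in
private theorem cutMass_w_cont (S : Setup f) (g : HermMetric X)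
    (hf : ContMDiff 𝓘(ℂ, C2) 𝓘(ℂ, ℂ) ω f) {ε : ℝ} (hε : 0 < ε)
    {p : X} (hp : p ∈ S.P) : ContinuousOn (cutMass_w S g ε p) (S.bidisc p \ Crit f) := by
  have hloc := S.loc p hp
  have hO : IsOpen (S.bidisc p) := isOpen_bidisc S p
  have hsrc : ∀ x ∈ S.bidisc p, x ∈ (S.e p).source := fun x hx => hx.1
  have hc1 : ContMDiffOn 𝓘(ℂ, C2) 𝓘(ℂ, ℂ) ω (S.c1 p) (S.bidisc p) := by
    have h1 : ContMDiff 𝓘(ℂ, C2) 𝓘(ℂ, ℂ) ω (fun z : C2 => z.1) :=
      (ContinuousLinearMap.fst ℂ ℂ ℂ).contMDiff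
    exact h1.comp_contMDiffOn (hloc.holo.mono hsrc)
  have hc2 : ContMDiffOn 𝓘(ℂ, C2) 𝓘(ℂ, ℂ) ω (S.c2 p) (S.bidisc p) := by
    have h1 : ContMDiff 𝓘(ℂ, C2) 𝓘(ℂ, ℂ) ω (fun z : C2 => z.2) :=
      (ContinuousLinearMap.snd ℂ ℂ ℂ).contMDiff
    exact h1.comp_contMDiffOn (hloc.holo.mono hsrc)
  have hlog : ∀ c : X → ℂ, ContMDiffOn 𝓘(ℂ, C2) 𝓘(ℂ, ℂ) ω c (S.bidisc p) →
      ContinuousOn (fun x => 1 - Real.log (‖c x‖ ^ 2 + ε ^ 2) / 2) (S.bidisc p \ Crit f) := by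
    intro c hc
    have h1 : ContinuousOn (fun x => ‖c x‖ ^ 2 + ε ^ 2) (S.bidisc p \ Crit f) :=
      (((hc.continuousOn.mono diff_subset).norm).pow 2).add continuousOn_const
    exact continuousOn_const.sub ((h1.log (fun x _ => by positivity)).div_const 2)
  exact ((hlog _ hc1).mul (continuousOn_coSq g hf hO hc1)).add
    ((hlog _ hc2).mul (continuousOn_coSq g hf hO hc2))

theorem cut_mass (S : Setup f) (g : HermMetric X) (hf : ContMDiff 𝓘(ℂ, C2) 𝓘(ℂ, ℂ) ω f) {C₁ : ℝ}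
    (hC₁ : 1 ≤ C₁) :
    ∃ C > 0, ∃ ε₀ > 0, ε₀ < 1 / 4 ∧ ∀ ε : ℝ, 0 < ε → ε < ε₀ → ∀ (η : ℂ → ℝ) (χ : X → ℝ),
      ContDiff ℝ ∞ η → (∀ x, 0 ≤ η x ∧ η x ≤ 1) → (∀ x, S.a / 2 ≤ ‖x‖ → η x = 1) →
      (∀ x, ‖x‖ ≤ S.a →
        1 - η x ^ 2 ≤ C₁ / Real.log (1 / ε) * (1 - Real.log (‖x‖ ^ 2 + ε ^ 2) / 2)) →
      IsCut S η χ → ∀ (s : ℂ) (μ : Measure X), ‖s‖ ≤ ε → IsFibreArea g f s μ → ∀ u ∈ Test f,
        (∫ x, ‖u x‖ ^ 2 ∂μ) - C / Real.log (1 / ε) *
          ((∫ x, gradSq g f u x ∂μ) + ∫ x, ‖u x‖ ^ 2 ∂μ) ≤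
          ∫ x, ‖(χ x : ℂ) * u x‖ ^ 2 ∂μ := by
  classical
  obtain ⟨Cw, hCw, εw, hεw, hεw4, hweights⟩ := weights S hC₁
  have hbd : ∀ p : X, ∃ c C : ℝ, 0 < c ∧ 0 < C ∧ (p ∈ S.P → ∀ x ∈ S.bidisc p, x ∉ Crit f →
      c ≤ coSq g f (S.c1 p) x + coSq g f (S.c2 p) x ∧
      coSq g f (S.c1 p) x + coSq g f (S.c2 p) x ≤ C) := by
    intro p
    by_cases hp : p ∈ S.P
    · obtain ⟨c, hc, C, hC, h⟩ := coSq_bounds S g hp
      exact ⟨c, C, hc, hC, fun _ => h⟩
    · exact ⟨1, 1, one_pos, one_pos, fun h => absurd h hp⟩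
  choose cp Cp hcp hCp hcC using hbd
  obtain ⟨B, hB⟩ := (isCompact_closedBall (0 : ℂ) S.a).exists_bound_of_continuousOn
    ((S.θ_smooth.continuous_fderiv (by simp)).norm.continuousOn)
  have hB' : ∀ x : ℂ, ‖x‖ ≤ S.a → ‖fderiv ℝ S.θ x‖ ≤ B := by
    intro x hx
    have := hB x (by simpa using hx)
    simpa using this
  set D : ℝ := ∑ p ∈ S.P, Real.exp 4 / cp p * (2 + 4 * B ^ 2 * Cp p) with hD
  have hD0 : 0 ≤ D := Finset.sum_nonneg (fun p _ => by
    have h1 := hcp p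
    have h2 := hCp p
    positivity)
  refine ⟨Cw * (D + 1), by positivity, min εw S.c, lt_min hεw S.c_pos,
    lt_of_le_of_lt (min_le_left _ _) hεw4, ?_⟩
  intro ε hε hεlt η χ hη hη01 hη1 hηW hχ s μ hs hμ u hu
  have hε1 : ε < εw := lt_of_lt_of_le hεlt (min_le_left _ _)
  have hεc : ε < S.c := lt_of_lt_of_le hεlt (min_le_right _ _)
  have hε4 : ε < 1 / 4 := hε1.trans hεw4
  have hsc : ‖s‖ < S.c := lt_of_le_of_lt hs hεc
  have hw := hweights ε hε hε1 η hη01 hηW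
  set L : ℝ := Real.log (1 / ε) with hL
  have hLpos : 0 < L := by
    rw [hL]
    refine Real.log_pos ?_
    rw [lt_div_iff₀ hε]
    linarith
  set κ : ℝ := Cw / L with hκ
  have hκ0 : 0 < κ := div_pos hCw hLpos
  -- the test functions `Θ p u`
  have hΘ := tsupport_Θ S
  have hv : ∀ p ∈ S.P, (fun x => (S.Θ p x : ℂ) * u x) ∈ Test f := fun p hp =>
    test_mul (hΘ p hp).2.2.1 hu
  have hvb : ∀ p ∈ S.P, tsupport (fun x => (S.Θ p x : ℂ) * u x) ⊆ S.bidisc p := fun p hp =>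
    (tsupport_mul_subset _ _).trans (inter_subset_left.trans (hΘ p hp).1)
  have hΘ0 : ∀ p ∈ S.P, ∀ x, x ∉ S.bidisc p → S.Θ p x = 0 := fun p hp x hx =>
    image_eq_zero_of_notMem_tsupport (fun h => hx ((hΘ p hp).1 h))
  have hfar : ∀ p ∈ S.P, ∀ x ∈ S.bidisc p, f x = s → ‖S.c2 p x‖ < S.b p / 2 := by
    intro p hp x hx hfx
    exact far_fibre S hp hx.1 hx.2.1.le hx.2.2.le (by rw [hfx]; exact hsc)
  -- the integrands
  set F : X → X → ℝ := fun p x => ‖(S.Θ p x : ℂ) * u x‖ ^ 2 * cutMass_w S g ε p x with hF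
  have hF0 : ∀ p ∈ S.P, ∀ x, 0 ≤ F p x := by
    intro p hp x
    by_cases hx : x ∈ S.bidisc p
    · exact mul_nonneg (sq_nonneg _) (cutMass_w_nonneg S g hε hε4 hp hx)
    · simp [hF, hΘ0 p hp x hx]
  have hFi : ∀ p ∈ S.P, Integrable (F p) μ := by
    intro p hp
    refine cutMass_int hf hμ (hv p hp) (isOpen_bidisc S p) (hvb p hp) ?_ (fun x hx => ?_)
    · exact ((hv p hp).1.continuous.norm.pow 2).continuousOn.mul (cutMass_w_cont S g hf hε hp)
    · have : (S.Θ p x : ℂ) * u x = 0 :=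
        image_eq_zero_of_notMem_tsupport (f := fun x => (S.Θ p x : ℂ) * u x) hx
      simp only [hF]
      rw [this]
      simp
  obtain ⟨hi3, _, hi4⟩ := IsFibreArea.integrable_test hf hμ hu
  have hi5 : Integrable (fun x => (1 - χ x ^ 2) * ‖u x‖ ^ 2) μ := by
    refine cutMass_int hf hμ hu isOpen_univ (subset_univ _) ?_ (fun x hx => ?_)
    · exact ((continuous_const.sub (hχ.smooth.continuous.pow 2)).mul
        (hu.1.continuous.norm.pow 2)).continuousOn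
    · rw [image_eq_zero_of_notMem_tsupport hx]
      simp
  -- the pointwise estimate
  have hpt : ∀ x, f x = s → x ∉ Crit f →
      (1 - χ x ^ 2) * ‖u x‖ ^ 2 ≤ ∑ p ∈ S.P, κ / cp p * F p x := by
    intro x hfx hxc
    have hsum0 : 0 ≤ ∑ p ∈ S.P, κ / cp p * F p x :=
      Finset.sum_nonneg (fun p hp => mul_nonneg (div_pos hκ0 (hcp p)).le (hF0 p hp x))
    by_cases h : ∃ p, p ∈ S.P ∧ x ∈ S.bidisc p
    · obtain ⟨p, hp, hx⟩ := h
      have hb := (S.loc p hp).b_pos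
      have h2 := hfar p hp x hx hfx
      have hχx : χ x = η (S.c1 p x) := hχ.eq_eta p hp x hx (by linarith)
      by_cases hbig : S.a / 2 ≤ ‖S.c1 p x‖
      · rw [hχx, hη1 _ hbig]
        simpa using hsum0
      · have hsmall : ‖S.c1 p x‖ ≤ S.a / 2 := (not_le.mp hbig).le
        have hΘ1 : S.Θ p x = 1 := by
          have e1 : S.Θ p x = S.θ (S.c1 p x) * S.κ p (S.c2 p x) := by
            unfold Setup.Θ extC
            rw [if_pos hx.1]
            rfl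
          rw [e1, S.θ_one _ hsmall, S.κ_one p hp _ (by linarith)]
          norm_num
        obtain ⟨w1, w2⟩ := hw p hp x hx (by rw [hfx]; exact hs)
        obtain ⟨k1, _⟩ := hcC p hp x hx hxc
        have n1 := coSq_nonneg g f (S.c1 p) x
        have n2 := coSq_nonneg g f (S.c2 p) x
        have hη2 : 0 ≤ 1 - η (S.c1 p x) ^ 2 := by
          have := hη01 (S.c1 p x)
          nlinarith
        have hle1 : (1 - η (S.c1 p x) ^ 2) * cp p ≤ κ * cutMass_w S g ε p x := by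
          calc (1 - η (S.c1 p x) ^ 2) * cp p
              ≤ (1 - η (S.c1 p x) ^ 2) * (coSq g f (S.c1 p) x + coSq g f (S.c2 p) x) :=
                mul_le_mul_of_nonneg_left k1 hη2
            _ = (1 - η (S.c1 p x) ^ 2) * coSq g f (S.c1 p) x +
                (1 - η (S.c1 p x) ^ 2) * coSq g f (S.c2 p) x := by ring
            _ ≤ κ * (1 - Real.log (‖S.c1 p x‖ ^ 2 + ε ^ 2) / 2) * coSq g f (S.c1 p) x +
                κ * (1 - Real.log (‖S.c2 p x‖ ^ 2 + ε ^ 2) / 2) * coSq g f (S.c2 p) x :=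
                add_le_add (mul_le_mul_of_nonneg_right w1 n1) (mul_le_mul_of_nonneg_right w2 n2)
            _ = κ * cutMass_w S g ε p x := by
                unfold cutMass_w
                ring
        have hle2 : 1 - χ x ^ 2 ≤ κ / cp p * cutMass_w S g ε p x := by
          rw [hχx]
          have : κ / cp p * cutMass_w S g ε p x = (κ * cutMass_w S g ε p x) / cp p := by ring
          rw [this, le_div_iff₀ (hcp p)]
          exact hle1
        have hFx : F p x = ‖u x‖ ^ 2 * cutMass_w S g ε p x := by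
          simp only [hF]
          rw [hΘ1]
          simp
        have hterm : (1 - χ x ^ 2) * ‖u x‖ ^ 2 ≤ κ / cp p * F p x := by
          rw [hFx]
          have := mul_le_mul_of_nonneg_right hle2 (sq_nonneg ‖u x‖)
          linarith
        refine hterm.trans ?_
        exact Finset.single_le_sum (f := fun p => κ / cp p * F p x)
          (fun r hr => mul_nonneg (div_pos hκ0 (hcp r)).le (hF0 r hr x)) hp
    · have h1 : χ x = 1 := (hχ.one_near (x := x) (fun p hp hb => h ⟨p, hp, hb⟩)).self_of_nhds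
      rw [h1]
      simpa using hsum0
  -- the energy of `Θ p u`
  have hud : ∀ x, MDifferentiableAt 𝓘(ℝ, C2) 𝓘(ℝ, ℂ) u x := fun x =>
    (hu.1.contMDiffAt).mdifferentiableAt (by simp)
  have henergy : ∀ p ∈ S.P, ∫ x, gradSq g f (fun y => (S.Θ p y : ℂ) * u y) x ∂μ ≤
      2 * (∫ x, gradSq g f u x ∂μ) + 4 * B ^ 2 * Cp p * ∫ x, ‖u x‖ ^ 2 ∂μ := by
    intro p hp
    rw [← integral_const_mul, ← integral_const_mul, ← integral_add (hi3.const_mul _)
      (hi4.const_mul _)]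
    refine integral_mono_ae (IsFibreArea.integrable_test hf hμ (hv p hp)).1
      ((hi3.const_mul _).add (hi4.const_mul _)) ?_
    filter_upwards [IsFibreArea.ae_fibre hμ] with x hx
    have hΘd : MDifferentiableAt 𝓘(ℝ, C2) 𝓘(ℝ, ℝ) (S.Θ p) x :=
      ((hΘ p hp).2.2.1.contMDiffAt).mdifferentiableAt (by simp)
    have h1 := gradSq_mul_le (f := f) g hΘd (hud x)
    have h2 : gradSq g f (S.Θ p) x ≤ 2 * B ^ 2 * Cp p := by
      by_cases hxb : x ∈ S.bidisc p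
      · have h3 := hfar p hp x hxb hx.1
        have hb := (S.loc p hp).b_pos
        have hev : S.Θ p =ᶠ[𝓝 x] fun y => S.θ (S.c1 p y) := by
          have hcc : ContinuousAt (S.c2 p) x := by
            have h4 : ContinuousAt (S.e p) x := (S.e p).continuousAt hxb.1
            exact continuousAt_snd.comp h4
          have h5 : ∀ᶠ y in 𝓝 x, ‖S.c2 p y‖ < 3 / 4 * S.b p :=
            hcc.norm.eventually_lt continuousAt_const (by linarith)
          filter_upwards [h5, (S.e p).open_source.mem_nhds hxb.1] with y hy1 hy2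
          unfold Setup.Θ extC
          rw [if_pos hy2]
          show S.θ (S.c1 p y) * S.κ p (S.c2 p y) = S.θ (S.c1 p y)
          rw [S.κ_one p hp _ hy1.le, mul_one]
        rw [gradSq_congr g hev]
        have h6 := gradSq_c1_le S g hp S.θ_smooth hB' x hxb hx.2
        have h7 := (hcC p hp x hxb hx.2).2
        have h8 := coSq_nonneg g f (S.c2 p) x
        refine h6.trans (mul_le_mul_of_nonneg_left (by linarith) (by positivity))
      · have hev : S.Θ p =ᶠ[𝓝 x] fun _ => 0 := by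
          have h9 : x ∉ tsupport (S.Θ p) := fun h => hxb ((hΘ p hp).1 h)
          filter_upwards [(isClosed_tsupport (S.Θ p)).isOpen_compl.mem_nhds h9] with y hy
          exact image_eq_zero_of_notMem_tsupport hy
        rw [gradSq_congr g hev]
        have h10 : ∀ w : TangentSpace 𝓘(ℂ, C2) x, dR (fun _ : X => (0 : ℝ)) x w = 0 := by
          intro w
          have h11 : mfderiv 𝓘(ℝ, C2) 𝓘(ℝ, ℝ) (fun _ : X => (0 : ℝ)) x = 0 := mfderiv_const
          rw [dR, h11]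
          rfl
        rw [gradSq, h10, h10]
        have := hCp p
        simp
        positivity
    have h12 := (hΘ p hp).2.2.2.1 x
    have h13 := gradSq_nonneg g f u x
    show gradSq g f (fun y => (S.Θ p y : ℂ) * u y) x ≤
      2 * gradSq g f u x + 4 * B ^ 2 * Cp p * ‖u x‖ ^ 2
    have h14 : 2 * S.Θ p x ^ 2 * gradSq g f u x ≤ 2 * gradSq g f u x := by
      have : S.Θ p x ^ 2 ≤ 1 := pow_le_one₀ h12.1 h12.2
      nlinarith
    have h15 : 2 * ‖u x‖ ^ 2 * gradSq g f (S.Θ p) x ≤ 2 * ‖u x‖ ^ 2 * (2 * B ^ 2 * Cp p) :=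
      mul_le_mul_of_nonneg_left h2 (by positivity)
    linarith
  -- conclusion
  have hE0 : 0 ≤ ∫ x, gradSq g f u x ∂μ := integral_nonneg (fun x => gradSq_nonneg g f u x)
  have hM0 : 0 ≤ ∫ x, ‖u x‖ ^ 2 ∂μ := integral_nonneg (fun x => sq_nonneg _)
  have hmain : ∫ x, (1 - χ x ^ 2) * ‖u x‖ ^ 2 ∂μ ≤
      κ * D * ((∫ x, gradSq g f u x ∂μ) + ∫ x, ‖u x‖ ^ 2 ∂μ) := by
    have h1 : ∫ x, (1 - χ x ^ 2) * ‖u x‖ ^ 2 ∂μ ≤ ∫ x, ∑ p ∈ S.P, κ / cp p * F p x ∂μ := by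
      refine integral_mono_ae hi5 (integrable_finset_sum _ (fun p hp => (hFi p hp).const_mul _)) ?_
      filter_upwards [IsFibreArea.ae_fibre hμ] with x hx
      exact hpt x hx.1 hx.2
    refine h1.trans ?_
    rw [integral_finset_sum _ (fun p hp => (hFi p hp).const_mul _), hD, Finset.mul_sum,
      Finset.sum_mul]
    refine Finset.sum_le_sum (fun p hp => ?_)
    rw [integral_const_mul]
    have h2 : ∫ x, F p x ∂μ ≤ Real.exp 4 *
        ∫ x, gradSq g f (fun y => (S.Θ p y : ℂ) * u y) x ∂μ :=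
      hardy S g hf hp hμ hε hε4 (hv p hp) (hvb p hp)
    have h3 := henergy p hp
    have h4 : ∫ x, F p x ∂μ ≤ Real.exp 4 * ((2 + 4 * B ^ 2 * Cp p) *
        ((∫ x, gradSq g f u x ∂μ) + ∫ x, ‖u x‖ ^ 2 ∂μ)) := by
      refine h2.trans (mul_le_mul_of_nonneg_left (h3.trans ?_) (Real.exp_pos 4).le)
      have h5 := hCp p
      have h6 : 0 ≤ 4 * B ^ 2 * Cp p * ∫ x, gradSq g f u x ∂μ := by positivity
      nlinarith
    calc κ / cp p * ∫ x, F p x ∂μ ≤ κ / cp p * (Real.exp 4 * ((2 + 4 * B ^ 2 * Cp p) *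
        ((∫ x, gradSq g f u x ∂μ) + ∫ x, ‖u x‖ ^ 2 ∂μ))) :=
          mul_le_mul_of_nonneg_left h4 (div_pos hκ0 (hcp p)).le
      _ = κ * (Real.exp 4 / cp p * (2 + 4 * B ^ 2 * Cp p)) *
        ((∫ x, gradSq g f u x ∂μ) + ∫ x, ‖u x‖ ^ 2 ∂μ) := by ring
  have hsplit : ∫ x, ‖(χ x : ℂ) * u x‖ ^ 2 ∂μ =
      (∫ x, ‖u x‖ ^ 2 ∂μ) - ∫ x, (1 - χ x ^ 2) * ‖u x‖ ^ 2 ∂μ := by
    rw [← integral_sub hi4 hi5]
    refine integral_congr_ae (Filter.Eventually.of_forall (fun x => ?_))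
    show ‖(χ x : ℂ) * u x‖ ^ 2 = ‖u x‖ ^ 2 - (1 - χ x ^ 2) * ‖u x‖ ^ 2
    rw [norm_mul, mul_pow, Complex.norm_real, Real.norm_eq_abs, sq_abs]
    ring
  rw [hsplit]
  have hfin : κ * D * ((∫ x, gradSq g f u x ∂μ) + ∫ x, ‖u x‖ ^ 2 ∂μ) ≤
      Cw * (D + 1) / L * ((∫ x, gradSq g f u x ∂μ) + ∫ x, ‖u x‖ ^ 2 ∂μ) := by
    refine mul_le_mul_of_nonneg_right ?_ (by linarith)
    rw [hκ]
    have : Cw * (D + 1) / L = Cw / L * D + Cw / L := by ring
    rw [this]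
    have h7 : 0 < Cw / L := hκ0
    linarith
  linarith

end DD
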