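import Pool.Agent.Work.MP_dd1e4a_gt.PlanarB

/-! # CutPot: the potential in the plane

`exists_pot`. `P x = G (‖x‖² + ε²)`, `G t = 2 t - ½ t log t` for `t > 0`:
`lap P = 4 (G' + ‖x‖² G'') = 4 (3/2 - ½ log t - ‖x‖²/(2t)) ≥ 4 (1 - ½ log t)`,
`t = ‖x‖² + ε² ≤ 1/8`, and `0 ≤ G t ≤ 2 t + ½ ≤ 2` for `0 < t ≤ 1/8` (`-t log t ≤ 1/e`). -/

open scoped Manifold ContDiff Topology
open MeasureTheory Set

namespace DD

private noncomputable def CutPot_q (ε : ℝ) (w : ℂ) : ℝ := w.re ^ 2 + w.im ^ 2 + ε ^ 2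

private noncomputable def CutPot_dq (w : ℂ) : ℂ →L[ℝ] ℝ :=
  (2 * w.re) • Complex.reCLM + (2 * w.im) • Complex.imCLM

private theorem CutPot_q_pos {ε : ℝ} (hε : 0 < ε) (w : ℂ) : 0 < CutPot_q ε w := by
  unfold CutPot_q
  positivity

private theorem CutPot_q_deriv (ε : ℝ) (w : ℂ) : HasFDerivAt (CutPot_q ε) (CutPot_dq w) w := by
  unfold CutPot_q CutPot_dq
  have h1 : HasFDerivAt (fun w : ℂ => w.re) Complex.reCLM w := Complex.reCLM.hasFDerivAt
  have h2 : HasFDerivAt (fun w : ℂ => w.im) Complex.imCLM w := Complex.imCLM.hasFDerivAt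
  have h3 := ((h1.pow 2).add (h2.pow 2)).add_const (ε ^ 2)
  refine h3.congr_fderiv ?_
  ext v
  simp

private noncomputable def CutPot_P (ε : ℝ) (w : ℂ) : ℝ :=
  2 * CutPot_q ε w - CutPot_q ε w * Real.log (CutPot_q ε w) / 2

private theorem CutPot_P_deriv {ε : ℝ} (hε : 0 < ε) (w : ℂ) :
    HasFDerivAt (CutPot_P ε) ((3 / 2 - Real.log (CutPot_q ε w) / 2) • CutPot_dq w) w := by
  unfold CutPot_P
  have hq := CutPot_q_deriv ε w
  have hpos := CutPot_q_pos hε w
  have hG : HasDerivAt (fun t : ℝ => 2 * t - t * Real.log t / 2)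
      (3 / 2 - Real.log (CutPot_q ε w) / 2) (CutPot_q ε w) := by
    have h1 : HasDerivAt (fun t : ℝ => t * Real.log t) (Real.log (CutPot_q ε w) + 1)
        (CutPot_q ε w) := Real.hasDerivAt_mul_log hpos.ne'
    have h2 := ((hasDerivAt_id (CutPot_q ε w)).const_mul 2).sub (h1.div_const 2)
    refine HasDerivAt.congr_deriv (f := fun t : ℝ => 2 * t - t * Real.log t / 2) h2 ?_
    ring
  exact hG.comp_hasFDerivAt w hq

private theorem CutPot_second {ε : ℝ} (hε : 0 < ε) (w : ℂ) (L : ℂ →L[ℝ] ℝ) :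
    HasFDerivAt (fun w => (3 / 2 - Real.log (CutPot_q ε w) / 2) * (2 * L w))
      ((3 / 2 - Real.log (CutPot_q ε w) / 2) • ((2 : ℝ) • L) +
        (2 * L w) • ((-(1 / (2 * CutPot_q ε w))) • CutPot_dq w)) w := by
  have hq := CutPot_q_deriv ε w
  have hpos := CutPot_q_pos hε w
  have hG : HasDerivAt (fun t : ℝ => 3 / 2 - Real.log t / 2)
      (-(1 / (2 * CutPot_q ε w))) (CutPot_q ε w) := by
    have h1 := ((Real.hasDerivAt_log hpos.ne').div_const 2).const_sub (3 / 2)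
    refine HasDerivAt.congr_deriv (f := fun t : ℝ => 3 / 2 - Real.log t / 2) h1 ?_
    field_simp
  have h3 := hG.comp_hasFDerivAt w hq
  have h4 : HasFDerivAt (fun w : ℂ => 2 * L w) ((2 : ℝ) • L) w := by
    have := L.hasFDerivAt (x := w)
    exact this.const_mul 2
  exact h3.mul h4

theorem exists_pot {ε : ℝ} (hε : 0 < ε) (hε' : ε < 1 / 4) :
    ∃ P : ℂ → ℝ, ContDiff ℝ ∞ P ∧ ∀ x, ‖x‖ ≤ 1 / 4 →
      0 ≤ P x ∧ P x ≤ 2 ∧ 1 - Real.log (‖x‖ ^ 2 + ε ^ 2) / 2 ≤ lap P x := by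
  refine ⟨CutPot_P ε, ?_, ?_⟩
  · have h1 : ContDiff ℝ ∞ (CutPot_q ε) := by
      unfold CutPot_q
      have h2 : ContDiff ℝ ∞ (fun w : ℂ => w.re) := Complex.reCLM.contDiff
      have h3 : ContDiff ℝ ∞ (fun w : ℂ => w.im) := Complex.imCLM.contDiff
      exact ((h2.pow 2).add (h3.pow 2)).add contDiff_const
    unfold CutPot_P
    exact (contDiff_const.mul h1).sub
      ((h1.mul (h1.log (fun w => (CutPot_q_pos hε w).ne'))).div_const 2)
  · intro x hx
    have hqx : CutPot_q ε x = ‖x‖ ^ 2 + ε ^ 2 := by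
      rw [← Complex.normSq_eq_norm_sq, Complex.normSq_apply]
      unfold CutPot_q
      ring
    have hpos := CutPot_q_pos hε x
    have hle : CutPot_q ε x ≤ 1 / 8 := by
      rw [hqx]
      have := norm_nonneg x
      nlinarith
    have hlog : Real.log (CutPot_q ε x) < 0 := Real.log_neg hpos (by linarith)
    have hlap : lap (CutPot_P ε) x = 4 * (3 / 2 - Real.log (CutPot_q ε x) / 2)
        - 2 * ‖x‖ ^ 2 / CutPot_q ε x := by
      have e1 : (fun w => fderiv ℝ (CutPot_P ε) w 1) =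
          fun w => (3 / 2 - Real.log (CutPot_q ε w) / 2) * (2 * Complex.reCLM w) := by
        funext w
        rw [(CutPot_P_deriv hε w).fderiv]
        simp [CutPot_dq]
      have e2 : (fun w => fderiv ℝ (CutPot_P ε) w Complex.I) =
          fun w => (3 / 2 - Real.log (CutPot_q ε w) / 2) * (2 * Complex.imCLM w) := by
        funext w
        rw [(CutPot_P_deriv hε w).fderiv]
        simp [CutPot_dq]
      unfold lap
      rw [e1, e2, (CutPot_second hε x Complex.reCLM).fderiv,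
        (CutPot_second hε x Complex.imCLM).fderiv]
      have hn : ‖x‖ ^ 2 = x.re ^ 2 + x.im ^ 2 := by
        rw [← Complex.normSq_eq_norm_sq, Complex.normSq_apply]; ring
      rw [hn]
      simp [CutPot_dq]
      field_simp
      ring
    refine ⟨?_, ?_, ?_⟩
    · unfold CutPot_P
      have : CutPot_q ε x * Real.log (CutPot_q ε x) ≤ 0 := by nlinarith
      linarith
    · unfold CutPot_P
      have h1 : - (CutPot_q ε x * Real.log (CutPot_q ε x)) ≤ 1 := by
        have h2 := Real.one_sub_inv_le_log_of_pos hpos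
        have h3 : CutPot_q ε x * (1 - (CutPot_q ε x)⁻¹) ≤
            CutPot_q ε x * Real.log (CutPot_q ε x) := mul_le_mul_of_nonneg_left h2 hpos.le
        rw [mul_sub, mul_inv_cancel₀ hpos.ne'] at h3
        linarith
      linarith
    · rw [hlap, ← hqx]
      have h1 : 2 * ‖x‖ ^ 2 / CutPot_q ε x ≤ 2 := by
        rw [div_le_iff₀ hpos, hqx]
        nlinarith [sq_nonneg ε]
      linarith

end DD
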