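import Pool.Agent.Work.MP_dd1e4a_gt.Defs3

/-! # PlanarB: the Laplacian in the plane

* `lap_comp_hol`: chain rule and the Cauchy-Riemann equations: `h' (i v) = i h' (v)`. Near `z` the
  function `h` is holomorphic, so `fderiv ℝ (A ∘ h) w v = fderiv ℝ A (h w) (v * deriv h w)`;
  differentiate again; the terms with `h''` cancel (`i² = -1`), the second derivatives of `A` give
  `|h'|² (A_{11} + A_{II})` by symmetry of the second derivative.
* `lap_exp`: `Δ (exp A) = exp A (Δ A + |∇A|²)`. -/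

open scoped Manifold ContDiff Topology
open MeasureTheory Set

namespace DD

private theorem pB_two : (2 : WithTop ℕ∞) ≤ ∞ := by
  exact ENat.LEInfty.out

private theorem pB_ev {A : ℂ → ℝ} {z : ℂ} (hA : ContDiffAt ℝ ∞ A z) :
    ∀ᶠ w in 𝓝 z, DifferentiableAt ℝ A w := by
  have h2 : ContDiffAt ℝ 2 A z := hA.of_le pB_two
  filter_upwards [h2.eventually (by simp)] with w hw
  exact hw.differentiableAt (by simp)

private theorem pB_fd {A : ℂ → ℝ} {z : ℂ} (hA : ContDiffAt ℝ ∞ A z) :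
    DifferentiableAt ℝ (fderiv ℝ A) z := by
  have h2 : ContDiffAt ℝ 2 A z := hA.of_le pB_two
  have h1 : ContDiffAt ℝ 1 (fderiv ℝ A) z := h2.fderiv_right (by norm_num)
  exact h1.differentiableAt (by simp)

private theorem pB_fdv {A : ℂ → ℝ} {z : ℂ} (hA : ContDiffAt ℝ ∞ A z) (v : ℂ) :
    HasFDerivAt (fun w => fderiv ℝ A w v) ((fderiv ℝ (fderiv ℝ A) z).flip v) z := by
  have h := (pB_fd hA).hasFDerivAt.clm_apply (hasFDerivAt_const v z)
  refine h.congr_fderiv ?_
  ext u
  simp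

private theorem pB_sec {A : ℂ → ℝ} {z : ℂ} (hA : ContDiffAt ℝ ∞ A z) (u v : ℂ) :
    fderiv ℝ (fun w => fderiv ℝ A w v) z u = fderiv ℝ (fderiv ℝ A) z u v := by
  rw [(pB_fdv hA v).fderiv]
  simp

theorem lap_congr {A B : ℂ → ℝ} {z : ℂ} (h : A =ᶠ[𝓝 z] B) : lap A z = lap B z := by
  have h1 : fderiv ℝ A =ᶠ[𝓝 z] fderiv ℝ B := h.fderiv
  have h2 : ∀ v : ℂ, (fun w => fderiv ℝ A w v) =ᶠ[𝓝 z] (fun w => fderiv ℝ B w v) := fun v => by
    filter_upwards [h1] with w hw
    rw [hw]
  unfold lap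
  rw [(h2 1).fderiv_eq, (h2 Complex.I).fderiv_eq]

theorem lap_comp_hol {A : ℂ → ℝ} {h : ℂ → ℂ} {z : ℂ} (hA : ContDiffAt ℝ ∞ A (h z))
    (hh : AnalyticAt ℂ h z) : lap (fun w => A (h w)) z = lap A (h z) * ‖deriv h z‖ ^ 2 := by
  -- near `z`
  have hev : ∀ᶠ w in 𝓝 z, ∀ v : ℂ,
      fderiv ℝ (fun w => A (h w)) w v = fderiv ℝ A (h w) (deriv h w * v) := by
    have e1 : ∀ᶠ w in 𝓝 z, DifferentiableAt ℝ A (h w) := hh.continuousAt.eventually (pB_ev hA)
    have e2 : ∀ᶠ w in 𝓝 z, AnalyticAt ℂ h w := hh.eventually_analyticAt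
    filter_upwards [e1, e2] with w hw1 hw2 v
    have hd : HasDerivAt h (deriv h w) w := hw2.differentiableAt.hasDerivAt
    have hd' : HasFDerivAt h ((ContinuousLinearMap.toSpanSingleton ℂ (deriv h w)).restrictScalars ℝ)
        w := hd.hasFDerivAt.restrictScalars ℝ
    have hc := hw1.hasFDerivAt.comp w hd'
    have hc' : fderiv ℝ (fun w => A (h w)) w = _ := hc.fderiv
    rw [hc']
    simp [mul_comm]
  -- the derivative of `deriv h`
  have hdh : AnalyticAt ℂ (deriv h) z := hh.deriv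
  have hd2 : HasDerivAt (deriv h) (deriv (deriv h) z) z := hdh.differentiableAt.hasDerivAt
  have hd1 : HasDerivAt h (deriv h z) z := hh.differentiableAt.hasDerivAt
  have hf1 : HasFDerivAt h ((ContinuousLinearMap.toSpanSingleton ℂ (deriv h z)).restrictScalars ℝ)
        z := hd1.hasFDerivAt.restrictScalars ℝ
  have hf2 : ∀ v : ℂ, HasFDerivAt (fun w => deriv h w * v)
      ((ContinuousLinearMap.toSpanSingleton ℂ (deriv (deriv h) z * v)).restrictScalars ℝ) z :=
    fun v => (hd2.mul_const v).hasFDerivAt.restrictScalars ℝ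
  have key : ∀ v : ℂ, fderiv ℝ (fun w => fderiv ℝ (fun w => A (h w)) w v) z v =
      fderiv ℝ (fderiv ℝ A) (h z) (deriv h z * v) (deriv h z * v) +
        fderiv ℝ A (h z) (deriv (deriv h) z * v * v) := by
    intro v
    have hcg : (fun w => fderiv ℝ (fun w => A (h w)) w v) =ᶠ[𝓝 z]
        (fun w => fderiv ℝ A (h w) (deriv h w * v)) := by
      filter_upwards [hev] with w hw
      exact hw v
    rw [hcg.fderiv_eq]
    have hc : HasFDerivAt (fun w => fderiv ℝ A (h w)) _ z :=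
      (pB_fd hA).hasFDerivAt.comp z hf1
    have hc2 := hc.clm_apply (hf2 v)
    rw [hc2.fderiv]
    simp [mul_comm, add_comm]
  have hsymm : ∀ u v : ℂ, fderiv ℝ (fderiv ℝ A) (h z) u v = fderiv ℝ (fderiv ℝ A) (h z) v u := by
    have hs : IsSymmSndFDerivAt ℝ A (h z) := hA.isSymmSndFDerivAt (by
      rw [minSmoothness_of_isRCLikeNormedField]; exact pB_two)
    intro u v
    exact hs.eq u v
  unfold lap
  rw [key 1, key Complex.I, pB_sec hA, pB_sec hA]
  set B := fderiv ℝ (fderiv ℝ A) (h z) with hB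
  set L := fderiv ℝ A (h z) with hL
  have hLc : L (deriv (deriv h) z * 1 * 1) + L (deriv (deriv h) z * Complex.I * Complex.I) = 0 := by
    rw [← map_add]
    have : deriv (deriv h) z * 1 * 1 + deriv (deriv h) z * Complex.I * Complex.I = 0 := by
      rw [mul_assoc _ Complex.I, Complex.I_mul_I]; ring
    rw [this, map_zero]
  obtain ⟨a, b, hab⟩ : ∃ a b : ℝ, deriv h z = a • (1 : ℂ) + b • Complex.I :=
    ⟨(deriv h z).re, (deriv h z).im, by
      simp [Complex.re_add_im]⟩
  have hnorm : ‖deriv h z‖ ^ 2 = a ^ 2 + b ^ 2 := by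
    rw [hab, ← Complex.normSq_eq_norm_sq, Complex.normSq_apply]
    simp
    ring
  have h1 : deriv h z * 1 = a • (1 : ℂ) + b • Complex.I := by rw [mul_one, hab]
  have h2 : deriv h z * Complex.I = (-b) • (1 : ℂ) + a • Complex.I := by
    rw [hab, add_mul, smul_mul_assoc, smul_mul_assoc, Complex.I_mul_I, one_mul]
    simp [add_comm]
  have e1 : B (deriv h z * 1) (deriv h z * 1) =
      a ^ 2 * B 1 1 + 2 * a * b * B 1 Complex.I + b ^ 2 * B Complex.I Complex.I := by
    rw [h1]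
    simp only [map_add, map_smul, add_apply, smul_apply,
      smul_eq_mul]
    rw [hsymm Complex.I 1]
    ring
  have e2 : B (deriv h z * Complex.I) (deriv h z * Complex.I) =
      b ^ 2 * B 1 1 - 2 * a * b * B 1 Complex.I + a ^ 2 * B Complex.I Complex.I := by
    rw [h2]
    simp only [map_add, map_smul, add_apply, smul_apply,
      smul_eq_mul]
    rw [hsymm Complex.I 1]
    ring
  rw [e1, e2, hnorm]
  linear_combination hLc

theorem lap_add {A B : ℂ → ℝ} {z : ℂ} (hA : ContDiffAt ℝ ∞ A z) (hB : ContDiffAt ℝ ∞ B z) :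
    lap (fun w => A w + B w) z = lap A z + lap B z := by
  have key : ∀ v : ℂ, fderiv ℝ (fun w => fderiv ℝ (fun w => A w + B w) w v) z v =
      fderiv ℝ (fun w => fderiv ℝ A w v) z v + fderiv ℝ (fun w => fderiv ℝ B w v) z v := by
    intro v
    have hcg : (fun w => fderiv ℝ (fun w => A w + B w) w v) =ᶠ[𝓝 z]
        (fun w => fderiv ℝ A w v + fderiv ℝ B w v) := by
      filter_upwards [pB_ev hA, pB_ev hB] with w hw1 hw2
      rw [fderiv_fun_add hw1 hw2]
      rfl
    rw [hcg.fderiv_eq, fderiv_fun_add (pB_fdv hA v).differentiableAt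
      (pB_fdv hB v).differentiableAt]
    rfl
  unfold lap
  rw [key, key]
  ring

theorem lap_exp {A : ℂ → ℝ} {z : ℂ} (hA : ContDiffAt ℝ ∞ A z) :
    lap (fun w => Real.exp (A w)) z =
      Real.exp (A z) * (lap A z + (fderiv ℝ A z 1 ^ 2 + fderiv ℝ A z Complex.I ^ 2)) := by
  have hAz : DifferentiableAt ℝ A z := (pB_ev hA).self_of_nhds
  have key : ∀ v : ℂ, fderiv ℝ (fun w => fderiv ℝ (fun w => Real.exp (A w)) w v) z v =
      Real.exp (A z) * (fderiv ℝ (fun w => fderiv ℝ A w v) z v + fderiv ℝ A z v ^ 2) := by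
    intro v
    have hcg : (fun w => fderiv ℝ (fun w => Real.exp (A w)) w v) =ᶠ[𝓝 z]
        (fun w => Real.exp (A w) * fderiv ℝ A w v) := by
      filter_upwards [pB_ev hA] with w hw1
      rw [fderiv_exp hw1]
      rfl
    rw [hcg.fderiv_eq, fderiv_fun_mul hAz.exp (pB_fdv hA v).differentiableAt]
    simp only [fderiv_exp hAz, add_apply, smul_apply,
      smul_eq_mul]
    ring
  unfold lap
  rw [key, key]
  ring

end DD
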