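import Pool.Agent.Work.MP_dd1e4a_gt.ExtC
import Pool.Agent.Work.MP_dd1e4a_gt.PlanarB

/-! # CutX: the cutoff function on `X` and the geometry of the fibres near a critical point

* `far_fibre`: `S.loc p`, field `far`: `‖x₂‖ ≥ b/2` would give `c ≤ ‖f x‖`.
* `exists_cut`: `χ = 1 - ∑ p ∈ P, extC (e p) (fun z => (1 - η z.1) * κ p z.2)`; `extC_smooth` with
  `K = closedBall (a/2) ×ˢ closedBall (7b/8)`; the supports for different `p` are disjoint.
* `one_near`: the sets in `IsCut.one` are compact, contained in the bidiscs.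
* `tsupport_Θ`: `extC_smooth` with `K = closedBall (3a/4) ×ˢ closedBall (7b/8)`; `S.disj`. -/

open scoped Manifold ContDiff Topology
open MeasureTheory Set

namespace DD

variable {X : Type} [TopologicalSpace X] [T2Space X] [SecondCountableTopology X]
  [ChartedSpace C2 X] [IsManifold 𝓘(ℂ, C2) ω X] {f : X → ℂ}

theorem far_fibre (S : Setup f) {p : X} (hp : p ∈ S.P) {x : X} (hx : x ∈ (S.e p).source)
    (h1 : ‖S.c1 p x‖ ≤ S.a) (h2 : ‖S.c2 p x‖ ≤ S.b p) (hc : ‖f x‖ < S.c) :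
    ‖S.c2 p x‖ < S.b p / 2 := by
  by_contra hcon
  push Not at hcon
  have h3 := (S.loc p hp).far (S.c1 p x) (S.c2 p x) h1 hcon h2
  have e3 : (S.e p).symm (S.c1 p x, S.c2 p x) = x := (S.e p).left_inv hx
  rw [e3] at h3
  linarith

theorem isOpen_bidisc (S : Setup f) (p : X) : IsOpen (S.bidisc p) := by
  have h : IsOpen {z : C2 | ‖z.1‖ < S.a ∧ ‖z.2‖ < S.b p} :=
    (isOpen_lt (continuous_fst.norm) continuous_const).inter
      (isOpen_lt (continuous_snd.norm) continuous_const)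
  exact (S.e p).isOpen_inter_preimage h

/-- the compact bidisc of radii `r1`, `r2` in the coordinates at `p` -/
private def CutX_K (_S : Setup f) (r1 r2 : ℝ) : Set C2 :=
  Metric.closedBall (0 : ℂ) r1 ×ˢ Metric.closedBall (0 : ℂ) r2

private theorem CutX_sub (S : Setup f) {p : X} (hp : p ∈ S.P) {r1 r2 : ℝ} (h1 : r1 < S.a)
    (h2 : r2 < S.b p) : CutX_K S r1 r2 ⊆ (S.e p).target ∧
      (S.e p).symm '' CutX_K S r1 r2 ⊆ S.bidisc p := by
  have hsub : CutX_K S r1 r2 ⊆ (S.e p).target := by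
    refine Subset.trans ?_ (S.loc p hp).target
    exact Set.prod_mono (Metric.closedBall_subset_closedBall h1.le)
      (Metric.closedBall_subset_closedBall h2.le)
  refine ⟨hsub, ?_⟩
  rintro _ ⟨z, hz, rfl⟩
  have hzt := hsub hz
  obtain ⟨hz1, hz2⟩ := hz
  rw [mem_closedBall_zero_iff] at hz1 hz2
  refine ⟨(S.e p).map_target hzt, ?_, ?_⟩
  · rw [(S.e p).right_inv hzt]; linarith
  · rw [(S.e p).right_inv hzt]; linarith

private theorem CutX_compact (S : Setup f) (r1 r2 : ℝ) : IsCompact (CutX_K S r1 r2) :=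
  (isCompact_closedBall _ _).prod (isCompact_closedBall _ _)

private theorem CutX_closed (S : Setup f) {p : X} (hp : p ∈ S.P) {r1 r2 : ℝ} (h1 : r1 < S.a)
    (h2 : r2 < S.b p) : IsClosed ((S.e p).symm '' CutX_K S r1 r2) :=
  ((CutX_compact S r1 r2).image_of_continuousOn
    ((S.e p).continuousOn_symm.mono (CutX_sub S hp h1 h2).1)).isClosed

private theorem CutX_half (S : Setup f) : S.a / 2 < S.a := by
  have := S.a_pos
  linarith

private theorem CutX_78 (S : Setup f) {p : X} (hp : p ∈ S.P) : 7 / 8 * S.b p < S.b p := by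
  have := (S.loc p hp).b_pos
  linarith

private theorem CutX_zero (S : Setup f) {p : X} {G : C2 → ℝ} {K : Set C2}
    (h0 : ∀ z ∉ K, G z = 0) {x : X} (hx : x ∉ (S.e p).symm '' K) : extC (S.e p) G x = 0 := by
  unfold extC
  split_ifs with h
  · apply h0
    intro hK
    exact hx ⟨S.e p x, hK, (S.e p).left_inv h⟩
  · rfl

private theorem CutX_other (S : Setup f) {p q : X} (hp : p ∈ S.P) (hq : q ∈ S.P) (hne : p ≠ q)
    {G : C2 → ℝ} {x : X} (hx : x ∈ (S.e p).source) : extC (S.e q) G x = 0 := by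
  unfold extC
  rw [if_neg]
  intro h
  exact Set.disjoint_left.1 (S.disj p hp q hq hne) hx h

private theorem CutX_sum (S : Setup f) (G : X → C2 → ℝ) (hG : ∀ p z, 0 ≤ G p z ∧ G p z ≤ 1)
    (x : X) : 0 ≤ ∑ p ∈ S.P, extC (S.e p) (G p) x ∧ ∑ p ∈ S.P, extC (S.e p) (G p) x ≤ 1 := by
  classical
  have hnn : ∀ p ∈ S.P, 0 ≤ extC (S.e p) (G p) x := by
    intro p _
    unfold extC
    split_ifs
    · exact (hG p _).1
    · exact le_rfl
  refine ⟨Finset.sum_nonneg hnn, ?_⟩
  by_cases h : ∃ p ∈ S.P, x ∈ (S.e p).source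
  · obtain ⟨p, hp, hx⟩ := h
    rw [Finset.sum_eq_single_of_mem p hp (fun q hq hne => CutX_other S hp hq (Ne.symm hne) hx)]
    unfold extC
    rw [if_pos hx]
    exact (hG p _).2
  · push Not at h
    rw [Finset.sum_eq_zero]
    · norm_num
    · intro p hp
      unfold extC
      rw [if_neg (h p hp)]

theorem exists_cut (S : Setup f) {η : ℂ → ℝ} (h1 : ContDiff ℝ ∞ η)
    (h2 : ∀ x, 0 ≤ η x ∧ η x ≤ 1) (h3 : ∀ x, S.a / 2 ≤ ‖x‖ → η x = 1) :
    ∃ χ : X → ℝ, IsCut S η χ := by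
  classical
  set G : X → C2 → ℝ := fun p z => (1 - η z.1) * S.κ p z.2 with hGdef
  have hG01 : ∀ p z, 0 ≤ G p z ∧ G p z ≤ 1 := by
    intro p z
    have g1 := h2 z.1
    have g2 := S.κ_nonneg p z.2
    have g3 := S.κ_le p z.2
    constructor
    · exact mul_nonneg (by linarith) g2
    · calc G p z ≤ 1 * 1 := mul_le_mul (by linarith) g3 g2 (by norm_num)
        _ = 1 := one_mul 1
  have hG0 : ∀ p ∈ S.P, ∀ z ∉ CutX_K S (S.a / 2) (7 / 8 * S.b p), G p z = 0 := by
    intro p hp z hz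
    unfold CutX_K at hz
    rw [Set.mem_prod, mem_closedBall_zero_iff, mem_closedBall_zero_iff, not_and_or] at hz
    rcases hz with hz | hz
    · push Not at hz
      rw [hGdef]
      simp only
      rw [h3 _ hz.le]; ring
    · push Not at hz
      rw [hGdef]
      simp only
      rw [S.κ_zero p hp _ hz.le]; ring
  have hGs : ∀ p, ContDiff ℝ ∞ (G p) := by
    intro p
    exact (contDiff_const.sub (h1.comp contDiff_fst)).mul ((S.κ_smooth p).comp contDiff_snd)
  have hsm : ∀ p ∈ S.P, ContMDiff 𝓘(ℝ, C2) 𝓘(ℝ, ℝ) ∞ (extC (S.e p) (G p)) := fun p hp =>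
    (extC_smooth (S.loc p hp).holo (CutX_compact S _ _)
      (CutX_sub S hp (CutX_half S) (CutX_78 S hp)).1 (hGs p).contDiffOn (hG0 p hp)).1
  refine ⟨fun x => 1 - ∑ p ∈ S.P, extC (S.e p) (G p) x, ?_, ?_, ?_, ?_, ?_⟩
  · have hsum : ContMDiff 𝓘(ℝ, C2) 𝓘(ℝ, ℝ) ∞ (fun x => ∑ p ∈ S.P, extC (S.e p) (G p) x) := by
      apply contMDiff_finsetSum
      exact hsm
    exact contMDiff_const.sub hsum
  · intro x
    have := (CutX_sum S G hG01 x).2
    linarith
  · intro x
    have := (CutX_sum S G hG01 x).1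
    linarith
  · intro p hp x hx hx2
    rw [Finset.sum_eq_single_of_mem p hp (fun q hq hne => CutX_other S hp hq (Ne.symm hne) hx.1)]
    unfold extC
    rw [if_pos hx.1, hGdef]
    simp only
    have e2 : S.κ p (S.e p x).2 = 1 := S.κ_one p hp _ (le_of_lt hx2)
    rw [e2]
    unfold Setup.c1
    ring
  · intro x hx
    rw [Finset.sum_eq_zero]
    · ring
    · intro p hp
      exact CutX_zero S (hG0 p hp) (hx p hp)

/-- on a nearby fibre, outside of the small bidiscs `χ` is one. -/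
theorem IsCut.one_near {S : Setup f} {η : ℂ → ℝ} {χ : X → ℝ} (h : IsCut S η χ) {x : X}
    (hx : ∀ p ∈ S.P, x ∉ S.bidisc p) : ∀ᶠ y in 𝓝 x, χ y = 1 := by
  have hcl : IsClosed (⋃ p ∈ S.P, (S.e p).symm '' CutX_K S (S.a / 2) (7 / 8 * S.b p)) := by
    apply Set.Finite.isClosed_biUnion S.P.finite_toSet
    intro p hp
    exact CutX_closed S hp (CutX_half S) (CutX_78 S hp)
  have hxn : x ∉ ⋃ p ∈ S.P, (S.e p).symm '' CutX_K S (S.a / 2) (7 / 8 * S.b p) := by
    intro hmem
    rw [Set.mem_iUnion₂] at hmem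
    obtain ⟨p, hp, hmem⟩ := hmem
    exact hx p hp ((CutX_sub S hp (CutX_half S) (CutX_78 S hp)).2 hmem)
  filter_upwards [hcl.isOpen_compl.mem_nhds hxn] with y hy
  apply h.one
  intro p hp hmem
  apply hy
  rw [Set.mem_iUnion₂]
  exact ⟨p, hp, hmem⟩

/-- the supports of the cutoff functions at different critical points are disjoint, and they lie in
the bidiscs. -/
theorem tsupport_Θ (S : Setup f) : ∀ p ∈ S.P, tsupport (S.Θ p) ⊆ S.bidisc p ∧
    HasCompactSupport (S.Θ p) ∧ ContMDiff 𝓘(ℝ, C2) 𝓘(ℝ, ℝ) ∞ (S.Θ p) ∧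
    (∀ x, 0 ≤ S.Θ p x ∧ S.Θ p x ≤ 1) ∧ ∀ q ∈ S.P, p ≠ q → Disjoint (S.bidisc p) (S.bidisc q) := by
  intro p hp
  set G : C2 → ℝ := fun z => S.θ z.1 * S.κ p z.2 with hGdef
  have ha := S.a_pos
  have h34 : 3 / 4 * S.a < S.a := by linarith
  have hG0 : ∀ z ∉ CutX_K S (3 / 4 * S.a) (7 / 8 * S.b p), G z = 0 := by
    intro z hz
    unfold CutX_K at hz
    rw [Set.mem_prod, mem_closedBall_zero_iff, mem_closedBall_zero_iff, not_and_or] at hz
    rcases hz with hz | hz
    · push Not at hz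
      rw [hGdef]
      simp only
      rw [S.θ_zero _ hz.le]; ring
    · push Not at hz
      rw [hGdef]
      simp only
      rw [S.κ_zero p hp _ hz.le]; ring
  have hGs : ContDiff ℝ ∞ G :=
    (S.θ_smooth.comp contDiff_fst).mul ((S.κ_smooth p).comp contDiff_snd)
  obtain ⟨g1, g2, g3⟩ := extC_smooth (S.loc p hp).holo (CutX_compact S _ _)
      (CutX_sub S hp h34 (CutX_78 S hp)).1 hGs.contDiffOn hG0
  refine ⟨g3.trans (CutX_sub S hp h34 (CutX_78 S hp)).2, g2, g1, ?_, ?_⟩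
  · intro x
    unfold Setup.Θ extC
    split_ifs with h
    · have t1 := S.θ_nonneg (S.e p x).1
      have t2 := S.θ_le (S.e p x).1
      have t3 := S.κ_nonneg p (S.e p x).2
      have t4 := S.κ_le p (S.e p x).2
      constructor
      · exact mul_nonneg t1 t3
      · calc S.θ (S.e p x).1 * S.κ p (S.e p x).2 ≤ 1 * 1 := mul_le_mul t2 t4 t3 (by norm_num)
          _ = 1 := one_mul 1
    · constructor <;> norm_num
  · intro q hq hne
    rw [Set.disjoint_left]
    intro x hx hx'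
    exact Set.disjoint_left.1 (S.disj p hp q hq hne) hx.1 hx'.1

end DD
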