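import Pool.Agent.Work.MP_dd1e4a_gt.Defs

/-! # Auxiliary definitions (only used in the proof) -/

open scoped Manifold ContDiff Topology
open MeasureTheory Set

namespace DD

variable {X : Type} [TopologicalSpace X] [ChartedSpace C2 X]

/-! ## Densities along the fibres -/

/-- `|∇u|²` along the fibre through `x`. -/
noncomputable def gradSq {F : Type} [NormedAddCommGroup F] [NormedSpace ℝ F] (g : HermMetric X)
    (f : X → ℂ) (u : X → F) (x : X) : ℝ :=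
  (‖dR u x (tanVec f x)‖ ^ 2 + ‖dR u x (Complex.I • tanVec f x)‖ ^ 2) / g.normSq x (tanVec f x)

/-- `∇a · ∇b` along the fibre through `x`. -/
noncomputable def gradDot (g : HermMetric X) (f : X → ℂ) (a b : X → ℝ) (x : X) : ℝ :=
  (dR a x (tanVec f x) * dR b x (tanVec f x)
    + dR a x (Complex.I • tanVec f x) * dR b x (Complex.I • tanVec f x))
    / g.normSq x (tanVec f x)

/-- the density of `da ∧ db` along the fibre through `x`. -/
noncomputable def wedge (g : HermMetric X) (f : X → ℂ) (a b : X → ℝ) (x : X) : ℝ :=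
  (dR a x (tanVec f x) * dR b x (Complex.I • tanVec f x)
    - dR a x (Complex.I • tanVec f x) * dR b x (tanVec f x))
    / g.normSq x (tanVec f x)

/-- the factor by which a holomorphic map `σ` between fibres changes the area at `x`. -/
noncomputable def ratio (g : HermMetric X) (f : X → ℂ) (σ : X → X) (x : X) : ℝ :=
  g.normSq (σ x) (mfderiv 𝓘(ℂ, C2) 𝓘(ℂ, C2) σ x (tanVec f x)) / g.normSq x (tanVec f x)

/-- the complex derivative of a holomorphic function on `X`, as a complex number. -/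
noncomputable def dC (h : X → ℂ) (x : X) (v : TangentSpace 𝓘(ℂ, C2) x) : ℂ :=
  mfderiv 𝓘(ℂ, C2) 𝓘(ℂ, ℂ) h x v

/-- `|dh|²` (for a holomorphic function `h`) along the fibre through `x`, normalised such that
`|dh(ν)|² = coSq · g(ν, ν)` on the tangent line of the fibre. -/
noncomputable def coSq (g : HermMetric X) (f : X → ℂ) (h : X → ℂ) (x : X) : ℝ :=
  ‖dC h x (tanVec f x)‖ ^ 2 / g.normSq x (tanVec f x)

/-! ## Boxes -/

/-- a box: holomorphic coordinates on an open part of `X` whose second coordinate is `f`. -/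
structure IsBox (f : X → ℂ) (b : OpenPartialHomeomorph X C2) : Prop where
  holo : ContMDiffOn 𝓘(ℂ, C2) 𝓘(ℂ, C2) ω b b.source
  holo_symm : ContMDiffOn 𝓘(ℂ, C2) 𝓘(ℂ, C2) ω b.symm b.target
  snd : ∀ x ∈ b.source, (b x).2 = f x

/-- the slice of a box in the fibre `f = s`. -/
noncomputable def slice (b : OpenPartialHomeomorph X C2) (s : ℂ) (w : ℂ) : X := b.symm (w, s)

def sliceDom (b : OpenPartialHomeomorph X C2) (s : ℂ) : Set ℂ := {w | (w, s) ∈ b.target}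

/-- transport to the fibre `f = s` along the first coordinate of a box. -/
noncomputable def btrans (b : OpenPartialHomeomorph X C2) (s : ℂ) (x : X) : X := b.symm ((b x).1, s)

/-! ## The plane -/

/-- the Laplacian of a function on the plane. -/
noncomputable def lap (A : ℂ → ℝ) (z : ℂ) : ℝ :=
  fderiv ℝ (fun w => fderiv ℝ A w 1) z 1 + fderiv ℝ (fun w => fderiv ℝ A w Complex.I) z Complex.I

/-! ## Functions given in a chart -/

open Classical in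
/-- the function `G ∘ e`, extended by zero. -/
noncomputable def extC (e : OpenPartialHomeomorph X C2) (G : C2 → ℝ) (x : X) : ℝ :=
  if x ∈ e.source then G (e x) else 0

/-! ## Local data at a critical point -/

/-- Coordinates `(x, y) = e` centred at the critical point `p` and constants; `F = f ∘ e⁻¹`. -/
structure LocProps (f : X → ℂ) (p : X) (e : OpenPartialHomeomorph X C2) (a b c : ℝ) (m : ℕ) :
    Prop where
  holo : ContMDiffOn 𝓘(ℂ, C2) 𝓘(ℂ, C2) ω e e.source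
  holo_symm : ContMDiffOn 𝓘(ℂ, C2) 𝓘(ℂ, C2) ω e.symm e.target
  mem : p ∈ e.source
  map_p : e p = ((0 : ℂ), (0 : ℂ))
  a_pos : 0 < a
  a_le : a ≤ 1 / 4
  b_pos : 0 < b
  b_le : b ≤ 1 / 4
  c_pos : 0 < c
  c_le : c ≤ 1
  m_pos : 1 ≤ m
  target : Metric.closedBall (0 : ℂ) a ×ˢ Metric.closedBall (0 : ℂ) b ⊆ e.target
  crit : ∀ x ∈ e.source, x ∈ Crit f → x = p
  far : ∀ x y : ℂ, ‖x‖ ≤ a → b / 2 ≤ ‖y‖ → ‖y‖ ≤ b → c ≤ ‖f (e.symm (x, y))‖
  low : ∀ x y : ℂ, ‖x‖ ≤ a → ‖y‖ ≤ b → c * ‖y‖ ^ m ≤ ‖f (e.symm (x, y))‖ + ‖x‖ / c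
  der : ∀ x y : ℂ, ‖x‖ ≤ a → ‖y‖ ≤ b → ‖f (e.symm (x, y))‖ ≤ c * ‖x‖ ^ m →
    c * ‖x‖ ^ m ≤ ‖deriv (fun t => f (e.symm (x, t))) y‖
  root : ∀ x : ℂ, ‖x‖ ≤ a → ∃ y : ℂ, ‖y‖ < b ∧ f (e.symm (x, y)) = 0

/-- The global data used in the proof: coordinates at the critical points, finitely many boxes
which cover the rest of the singular fibre, and a subordinate partition of unity. -/
structure Setup (f : X → ℂ) where
  /-- the critical points -/
  P : Finset X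
  hP : ∀ x, x ∈ P ↔ x ∈ Crit f
  e : X → OpenPartialHomeomorph X C2
  b : X → ℝ
  a : ℝ
  c : ℝ
  m : ℕ
  loc : ∀ p ∈ P, LocProps f p (e p) a (b p) c m
  disj : ∀ p ∈ P, ∀ q ∈ P, p ≠ q → Disjoint (e p).source (e q).source
  a_pos : 0 < a
  a_le : a ≤ 1 / 4
  c_pos : 0 < c
  c_le : c ≤ 1
  m_pos : 1 ≤ m
  /-- the index set of the boxes -/
  ι : Type
  fin : Fintype ι
  bx : ι → OpenPartialHomeomorph X C2
  box : ∀ α, IsBox f (bx α)
  ψ : ι → X → ℝ
  ψ_smooth : ∀ α, ContMDiff 𝓘(ℝ, C2) 𝓘(ℝ, ℝ) ∞ (ψ α)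
  ψ_nonneg : ∀ α x, 0 ≤ ψ α x
  ψ_le : ∀ α x, ψ α x ≤ 1
  ψ_compact : ∀ α, HasCompactSupport (ψ α)
  ψ_supp : ∀ α, tsupport (ψ α) ⊆ (bx α).source
  /-- cutoff functions in the coordinates at the critical points -/
  θ : ℂ → ℝ
  θ_smooth : ContDiff ℝ ∞ θ
  θ_nonneg : ∀ x, 0 ≤ θ x
  θ_le : ∀ x, θ x ≤ 1
  θ_one : ∀ x, ‖x‖ ≤ a / 2 → θ x = 1
  θ_zero : ∀ x, 3 / 4 * a ≤ ‖x‖ → θ x = 0
  κ : X → ℂ → ℝ
  κ_smooth : ∀ p, ContDiff ℝ ∞ (κ p)
  κ_nonneg : ∀ p y, 0 ≤ κ p y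
  κ_le : ∀ p y, κ p y ≤ 1
  κ_one : ∀ p ∈ P, ∀ y, ‖y‖ ≤ 3 / 4 * b p → κ p y = 1
  κ_zero : ∀ p ∈ P, ∀ y, 7 / 8 * b p ≤ ‖y‖ → κ p y = 0
  ρ : ℝ
  ρ_pos : 0 < ρ
  ρ_lt : ρ < c
  ρ_lt' : ρ < 1
  proper : IsCompact (f ⁻¹' Metric.closedBall 0 ρ)
  sum_one : ∀ x, ‖f x‖ < ρ →
    (∑ α, ψ α x) + ∑ p ∈ P, extC (e p) (fun z => θ z.1 * κ p z.2) x = 1
  compat : ∀ α, ∀ p ∈ P,
    (tsupport (ψ α) ∩ tsupport (extC (e p) (fun z => θ z.1 * κ p z.2))).Nonempty →
    (∀ x ∈ (bx α).source, x ∈ (e p).source ∧ ‖(e p x).1‖ < a ∧ ‖(e p x).2‖ < b p ∧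
      (bx α x).1 = (e p x).1)

attribute [instance] Setup.fin

/-- the cutoff function near the critical point `p`. -/
noncomputable def Setup.Θ {f : X → ℂ} (S : Setup f) (p : X) : X → ℝ :=
  extC (S.e p) (fun z => S.θ z.1 * S.κ p z.2)

/-- the open bidisc around the critical point `p`. -/
def Setup.bidisc {f : X → ℂ} (S : Setup f) (p : X) : Set X :=
  {x | x ∈ (S.e p).source ∧ ‖(S.e p x).1‖ < S.a ∧ ‖(S.e p x).2‖ < S.b p}

end DD
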