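import Pool.Agent.Work.MP_dd1e4a_gt.Defs2

/-! # Auxiliary definitions, second part (only used in the proof) -/

open scoped Manifold ContDiff Topology
open MeasureTheory Set

namespace DD

variable {X : Type} [TopologicalSpace X] [ChartedSpace C2 X]

/-- the metric in the coordinates `e`. -/
noncomputable def metE (g : HermMetric X) (e : OpenPartialHomeomorph X C2) (y w : C2) : ℝ :=
  g.normSq (e.symm y) (mfderiv 𝓘(ℂ, C2) 𝓘(ℂ, C2) e.symm y w)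

/-- the area density of the slices of a box. -/
noncomputable def IsBox.dens (g : HermMetric X) (b : OpenPartialHomeomorph X C2) (y : C2) : ℝ :=
  metE g b y ((1 : ℂ), (0 : ℂ))

/-- where the transport to the fibre `s` is defined. -/
def transDom (b : OpenPartialHomeomorph X C2) (s : ℂ) : Set X :=
  {x | x ∈ b.source ∧ ((b x).1, s) ∈ b.target}

/-- a holomorphic map `σ`, defined on the open set `O`, which maps the part of the fibre `s'` in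
`O` biholomorphically onto an open part of the fibre `s`. -/
structure IsTransport (f : X → ℂ) (s' s : ℂ) (O : Set X) (σ : X → X) : Prop where
  isOpen : IsOpen O
  holo : ContMDiffOn 𝓘(ℂ, C2) 𝓘(ℂ, C2) ω σ O
  fib : ∀ x ∈ O, f (σ x) = s
  reg : ∀ x ∈ O, x ∉ Crit f ∧ σ x ∉ Crit f
  inj : InjOn σ (O ∩ f ⁻¹' {s'})
  imm : ∀ x ∈ O, f x = s' → mfderiv 𝓘(ℂ, C2) 𝓘(ℂ, C2) σ x (tanVec f x) ≠ 0

/-- the local properties in the coordinates. -/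
structure Loc2 (G : ℂ × ℂ → ℂ) (a b c : ℝ) (m : ℕ) : Prop where
  a_pos : 0 < a
  a_le : a ≤ 1 / 4
  b_pos : 0 < b
  b_le : b ≤ 1 / 4
  c_pos : 0 < c
  c_le : c ≤ 1
  m_pos : 1 ≤ m
  far : ∀ x y : ℂ, ‖x‖ ≤ a → b / 2 ≤ ‖y‖ → ‖y‖ ≤ b → c ≤ ‖G (x, y)‖
  low : ∀ x y : ℂ, ‖x‖ ≤ a → ‖y‖ ≤ b → c * ‖y‖ ^ m ≤ ‖G (x, y)‖ + ‖x‖ / c
  der : ∀ x y : ℂ, ‖x‖ ≤ a → ‖y‖ ≤ b → ‖G (x, y)‖ ≤ c * ‖x‖ ^ m →
    c * ‖x‖ ^ m ≤ ‖deriv (fun t => G (x, t)) y‖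
  root : ∀ x : ℂ, ‖x‖ ≤ a → ∃ y : ℂ, ‖y‖ < b ∧ G (x, y) = 0

variable {f : X → ℂ}

/-- the coordinates at the critical point `p`. -/
noncomputable def Setup.c1 (S : Setup f) (p : X) (x : X) : ℂ := (S.e p x).1

noncomputable def Setup.c2 (S : Setup f) (p : X) (x : X) : ℂ := (S.e p x).2

/-- `χ` is the cutoff function belonging to the planar cutoff function `η`. -/
structure IsCut (S : Setup f) (η : ℂ → ℝ) (χ : X → ℝ) : Prop where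
  smooth : ContMDiff 𝓘(ℝ, C2) 𝓘(ℝ, ℝ) ∞ χ
  nonneg : ∀ x, 0 ≤ χ x
  le_one : ∀ x, χ x ≤ 1
  eq_eta : ∀ p ∈ S.P, ∀ x ∈ S.bidisc p, ‖S.c2 p x‖ < 3 / 4 * S.b p → χ x = η (S.c1 p x)
  one : ∀ x, (∀ p ∈ S.P, x ∉ (S.e p).symm ''
    (Metric.closedBall (0 : ℂ) (S.a / 2) ×ˢ Metric.closedBall (0 : ℂ) (7 / 8 * S.b p))) → χ x = 1

open Classical in
/-- the solution `Y` of `F (x, Y) = s` with `‖Y - y‖ ≤ δ` (or `y` if there is none). -/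
noncomputable def rootY (F : C2 → ℂ) (δ : ℝ) (s : ℂ) (z : C2) : ℂ :=
  if h : ∃ Y : ℂ, ‖Y - z.2‖ ≤ δ ∧ F (z.1, Y) = s then h.choose else z.2

/-- transport to the fibre `s` near the critical point `p`. -/
noncomputable def Setup.ptrans (S : Setup f) (p : X) (ε : ℝ) (s : ℂ) (x : X) : X :=
  (S.e p).symm (S.c1 p x, rootY (fun z => f ((S.e p).symm z)) (ε ^ (1 / 2 : ℝ)) s (S.e p x))

/-- the exponent of the inner radius. -/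
noncomputable def Setup.τ (S : Setup f) : ℝ := 1 / (8 * S.m)

/-- the region where the transport is a holomorphic map. -/
def Setup.pdom (S : Setup f) (p : X) (ε : ℝ) : Set X :=
  {x | x ∈ S.bidisc p ∧ ε ^ S.τ / 2 < ‖S.c1 p x‖ ∧ ‖f x‖ < 2 * ε}

/-- everything about `ptrans` except the area ratio. -/
structure PTransProps (S : Setup f) (p : X) (ε : ℝ) (D : ℝ) : Prop where
  isOpen : IsOpen (S.pdom p ε)
  /-- first coordinate, in the whole thin part of the bidisc -/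
  fst : ∀ s, ∀ x ∈ S.bidisc p, ‖f x‖ < 2 * ε →
    S.ptrans p ε s x ∈ S.bidisc p ∧ S.c1 p (S.ptrans p ε s x) = S.c1 p x ∧
      ‖S.c2 p (S.ptrans p ε s x) - S.c2 p x‖ ≤ ε ^ (1 / 2 : ℝ)
  fib : ∀ s, ‖s‖ ≤ ε → ∀ x ∈ S.pdom p ε, f (S.ptrans p ε s x) = s
  disp : ∀ s, ‖s‖ ≤ ε → ∀ x ∈ S.pdom p ε,
    ‖S.c2 p (S.ptrans p ε s x) - S.c2 p x‖ ≤ D * ε ^ (7 / 8 : ℝ)
  der : ∀ x ∈ S.pdom p ε, ε ^ (1 / 8 : ℝ) / D ≤
    ‖deriv (fun t => f ((S.e p).symm (S.c1 p x, t))) (S.c2 p x)‖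
  uniq : ∀ s, ‖s‖ ≤ ε → ∀ x ∈ S.pdom p ε, ∀ x' ∈ S.bidisc p, S.c1 p x' = S.c1 p x → f x' = s →
    ‖S.c2 p x' - S.c2 p x‖ ≤ ε ^ (1 / 2 : ℝ) → x' = S.ptrans p ε s x
  inv : ∀ s s', ‖s‖ ≤ ε → ‖s'‖ ≤ ε → ∀ x ∈ S.pdom p ε, f x = s' →
    S.ptrans p ε s x ∈ S.pdom p ε ∧ S.ptrans p ε s' (S.ptrans p ε s x) = x

/-- functions which vanish on the cores of the bidiscs. -/
def Setup.CoreZero (S : Setup f) (ε : ℝ) (v : X → ℂ) : Prop :=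
  ∀ p ∈ S.P, ∀ x ∈ S.bidisc p, ‖S.c1 p x‖ ≤ ε ^ S.τ → ‖S.c2 p x‖ < 3 / 4 * S.b p → v x = 0

/-- the transplantation operator. -/
noncomputable def Setup.TT (S : Setup f) (ε : ℝ) (s : ℂ) (ζ : ℂ → ℝ) (v : X → ℂ) (x : X) : ℂ :=
  (ζ (f x) : ℂ) * ((∑ α, (S.ψ α x : ℂ) * v (btrans (S.bx α) s x)) +
    ∑ p ∈ S.P, (S.Θ p x : ℂ) * v (S.ptrans p ε s x))

/-- the set in the definition of `lam`. -/
def lamSet [MeasurableSpace X] (g : HermMetric X) (f : X → ℂ) (μ : Measure X) (k : ℕ) : Set ℝ :=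
  {Λ : ℝ | ∃ V : Submodule ℂ (X → ℂ), V ≤ Test f ∧ Module.finrank ℂ V = k + 1 ∧
    (∀ u ∈ V, ∫ x, ‖u x‖ ^ 2 ∂μ = 0 → u = 0) ∧
    ∀ u ∈ V, ∫ x, dbarSq g f u x ∂μ ≤ Λ * ∫ x, ‖u x‖ ^ 2 ∂μ}

end DD
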