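import Pool.Agent.Work.MP_dd1e4a_gt.CoSq
import Pool.Agent.Work.MP_dd1e4a_gt.GreenX
import Pool.Agent.Work.MP_dd1e4a_gt.TestL
import Pool.Agent.Work.MP_dd1e4a_gt.CutPot
import Pool.Agent.Work.MP_dd1e4a_gt.TanC

/-! # Hardy: the Hardy type inequality in a bidisc

Fix `ε`, `W t = 1 - log (t² + ε²) / 2` (`≥ 1` on the bidisc).

* `hardy`: let `P` be the potential of `exists_pot ε`, `Ψ = P (c1 p) + P (c2 p)` on `bidisc p`,
  `0 ≤ Ψ ≤ 4`. `green` with `O = bidisc p`, `a = exp Ψ`, `b = |v|²`: by `lap_exp`, `lap_add`,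
  `lap_c1`, `lap_c2` and `IsParam.gradSq_eq`,
  `q = exp Ψ (lap P (c1) coSq c1 + lap P (c2) coSq c2 + gradSq Ψ)`. So
  `∫ |v|² q = -∫ exp Ψ ∇Ψ·∇|v|² ≤ ∫ exp Ψ (|v|² gradSq Ψ + gradSq v)` (`abs_gradDot_normSq_le`,
  chain rule for `exp`), hence
  `∫ |v|² exp Ψ (W(‖c1‖) coSq c1 + W(‖c2‖) coSq c2) ≤ ∫ exp Ψ gradSq v ≤ e⁴ ∫ gradSq v`. -/

open scoped Manifold ContDiff Topology
open MeasureTheory Set

namespace DD

variable {X : Type} [TopologicalSpace X] [T2Space X] [SecondCountableTopology X]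
  [ChartedSpace C2 X] [IsManifold 𝓘(ℂ, C2) ω X] [MeasurableSpace X] [BorelSpace X] {f : X → ℂ}

private theorem hardy_gradDot_exp (g : HermMetric X) (f : X → ℂ) {Ψ b : X → ℝ} {x : X}
    (hΨ : MDifferentiableAt 𝓘(ℝ, C2) 𝓘(ℝ, ℝ) Ψ x) :
    gradDot g f (fun y => Real.exp (Ψ y)) b x = Real.exp (Ψ x) * gradDot g f Ψ b x := by
  have h : ∀ w : TangentSpace 𝓘(ℂ, C2) x, dR (fun y => Real.exp (Ψ y)) x w =
      Real.exp (Ψ x) * dR Ψ x w := by
    intro w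
    rw [dR_comp_left (k := Real.exp) Real.differentiableAt_exp hΨ w]
    simp [mul_comm]
  rw [gradDot, gradDot, h, h]
  ring

private theorem hardy_int (hf : ContMDiff 𝓘(ℂ, C2) 𝓘(ℂ, ℂ) ω f) {g : HermMetric X} {s : ℂ}
    {μ : Measure X} (hμ : IsFibreArea g f s μ) {v : X → ℂ} (hv : v ∈ Test f) {O : Set X}
    (hO : IsOpen O) (hvO : tsupport v ⊆ O) {G : X → ℝ} (hG : ContinuousOn G (O \ Crit f))
    (h0 : ∀ x ∉ tsupport v, G x = 0) : Integrable G μ := by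
  refine IsFibreArea.integrable hf hμ hv.2.1 hv.2.2 ?_ h0
  intro x hx
  by_cases hxv : x ∈ tsupport v
  · have hopen : IsOpen (O \ Crit f) := hO.sdiff (isClosed_crit hf)
    exact (hG.continuousAt (hopen.mem_nhds ⟨hvO hxv, hx⟩)).continuousWithinAt
  · have h1 : G =ᶠ[𝓝 x] fun _ => 0 := by
      filter_upwards [(isClosed_tsupport v).isOpen_compl.mem_nhds hxv] with y hy
      exact h0 y hy
    exact (continuousAt_const.congr h1.symm).continuousWithinAt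

/-- the Hardy type inequality in a bidisc. -/
theorem hardy (S : Setup f) (g : HermMetric X) (hf : ContMDiff 𝓘(ℂ, C2) 𝓘(ℂ, ℂ) ω f) {p : X}
    (hp : p ∈ S.P) {s : ℂ} {μ : Measure X} (hμ : IsFibreArea g f s μ) {ε : ℝ} (hε : 0 < ε)
    (hε' : ε < 1 / 4) {v : X → ℂ} (hv : v ∈ Test f) (hvb : tsupport v ⊆ S.bidisc p) :
    ∫ x, ‖v x‖ ^ 2 *
      ((1 - Real.log (‖S.c1 p x‖ ^ 2 + ε ^ 2) / 2) * coSq g f (S.c1 p) x +
        (1 - Real.log (‖S.c2 p x‖ ^ 2 + ε ^ 2) / 2) * coSq g f (S.c2 p) x) ∂μ ≤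
      Real.exp 4 * ∫ x, gradSq g f v x ∂μ := by
  obtain ⟨P, hPs, hP⟩ := exists_pot hε hε'
  set O := S.bidisc p with hO_def
  have hO : IsOpen O := isOpen_bidisc S p
  have hloc := S.loc p hp
  have hsrc : ∀ x ∈ O, x ∈ (S.e p).source := fun x hx => hx.1
  have hn1 : ∀ x ∈ O, ‖S.c1 p x‖ ≤ 1 / 4 := fun x hx => hx.2.1.le.trans S.a_le
  have hn2 : ∀ x ∈ O, ‖S.c2 p x‖ ≤ 1 / 4 := fun x hx => hx.2.2.le.trans hloc.b_le
  have hc1 : ContMDiffOn 𝓘(ℂ, C2) 𝓘(ℂ, ℂ) ω (S.c1 p) O := by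
    have h1 : ContMDiff 𝓘(ℂ, C2) 𝓘(ℂ, ℂ) ω (fun z : C2 => z.1) :=
      (ContinuousLinearMap.fst ℂ ℂ ℂ).contMDiff
    exact h1.comp_contMDiffOn (hloc.holo.mono hsrc)
  have hc2 : ContMDiffOn 𝓘(ℂ, C2) 𝓘(ℂ, ℂ) ω (S.c2 p) O := by
    have h1 : ContMDiff 𝓘(ℂ, C2) 𝓘(ℂ, ℂ) ω (fun z : C2 => z.2) :=
      (ContinuousLinearMap.snd ℂ ℂ ℂ).contMDiff
    exact h1.comp_contMDiffOn (hloc.holo.mono hsrc)
  have hc1r : ContMDiffOn 𝓘(ℝ, C2) 𝓘(ℝ, ℂ) ∞ (S.c1 p) O := hol_real hc1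
  have hc2r : ContMDiffOn 𝓘(ℝ, C2) 𝓘(ℝ, ℂ) ∞ (S.c2 p) O := hol_real hc2
  have hP1 : ContMDiffOn 𝓘(ℝ, C2) 𝓘(ℝ, ℝ) ∞ (fun x => P (S.c1 p x)) O :=
    hPs.contMDiff.comp_contMDiffOn hc1r
  have hP2 : ContMDiffOn 𝓘(ℝ, C2) 𝓘(ℝ, ℝ) ∞ (fun x => P (S.c2 p x)) O :=
    hPs.contMDiff.comp_contMDiffOn hc2r
  set Ψ : X → ℝ := fun x => P (S.c1 p x) + P (S.c2 p x) with hΨ
  have hΨs : ContMDiffOn 𝓘(ℝ, C2) 𝓘(ℝ, ℝ) ∞ Ψ O := hP1.add hP2
  have hΨd : ∀ x ∈ O, MDifferentiableAt 𝓘(ℝ, C2) 𝓘(ℝ, ℝ) Ψ x := fun x hx =>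
    (hΨs.contMDiffAt (hO.mem_nhds hx)).mdifferentiableAt (by simp)
  set a : X → ℝ := fun x => Real.exp (Ψ x) with ha_def
  have ha : ContMDiffOn 𝓘(ℝ, C2) 𝓘(ℝ, ℝ) ∞ a O :=
    Real.contDiff_exp.contMDiff.comp_contMDiffOn hΨs
  have hΨ0 : ∀ x ∈ O, 0 ≤ Ψ x := fun x hx =>
    add_nonneg (hP _ (hn1 x hx)).1 (hP _ (hn2 x hx)).1
  have hΨ4 : ∀ x ∈ O, Ψ x ≤ 4 := fun x hx => by
    have h1 := (hP _ (hn1 x hx)).2.1
    have h2 := (hP _ (hn2 x hx)).2.1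
    have h3 : Ψ x = P (S.c1 p x) + P (S.c2 p x) := rfl
    linarith
  set b : X → ℝ := fun x => ‖v x‖ ^ 2 with hb_def
  obtain ⟨hb, hbc, hbt, hbcrit⟩ := test_normSq (a := fun _ : X => (1 : ℝ)) contMDiff_const hv
  simp only [one_mul] at hb hbc hbt hbcrit
  have hbv : tsupport b ⊆ tsupport v := hbt.trans inter_subset_right
  have hvd : ∀ x, MDifferentiableAt 𝓘(ℝ, C2) 𝓘(ℝ, ℂ) v x := fun x =>
    (hv.1.contMDiffAt).mdifferentiableAt (by simp)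
  set q : X → ℝ := fun x => Real.exp (Ψ x) * (lap P (S.c1 p x) * coSq g f (S.c1 p) x +
    lap P (S.c2 p x) * coSq g f (S.c2 p) x + gradSq g f Ψ x) with hq_def
  have hq : ∀ (U : Set ℂ) (φ : ℂ → X), IsParam f s U φ → (∀ z ∈ U, φ z ∈ O) →
      ∀ z ∈ U, lap (fun w => a (φ w)) z = q (φ z) * g.normSq (φ z) (vel φ z) := by
    intro U φ hφ hφO z hz
    have hholo : ∀ c : X → ℂ, ContMDiffOn 𝓘(ℂ, C2) 𝓘(ℂ, ℂ) ω c O →
        ContDiffAt ℝ ∞ (fun w => P (c (φ w))) z := by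
      intro c hc
      have h1 : ContMDiffOn 𝓘(ℂ, ℂ) 𝓘(ℂ, ℂ) ω (fun w => c (φ w)) U :=
        hc.comp hφ.holo hφO
      have h2 : ContMDiffOn 𝓘(ℝ, ℂ) 𝓘(ℝ, ℂ) ∞ (fun w => c (φ w)) U := hol_real h1
      have h3 : ContDiffAt ℝ ∞ (fun w => c (φ w)) z :=
        (h2.contMDiffAt (hφ.isOpen.mem_nhds hz)).contDiffAt
      exact hPs.contDiffAt.comp z h3
    have hA1 := hholo _ hc1
    have hA2 := hholo _ hc2
    have hA12 : ContDiffAt ℝ ∞ (fun w => P (S.c1 p (φ w)) + P (S.c2 p (φ w))) z := hA1.add hA2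
    have e1 := lap_exp hA12
    have e2 := lap_add hA1 hA2
    have e3 := lap_c1 S g hf hp hPs hφ hz (hφO z hz)
    have e4 := lap_c2 S g hf hp hPs hφ hz (hφO z hz)
    have e5 := IsParam.gradSq_eq g hf hφ hz (hΨd _ (hφO z hz))
    simp only [Real.norm_eq_abs, sq_abs] at e5
    have e6 : lap (fun w => a (φ w)) z =
        lap (fun w => Real.exp (P (S.c1 p (φ w)) + P (S.c2 p (φ w)))) z := rfl
    rw [e6, e1, e2, e3, e4]
    have e7 : (fun w => Ψ (φ w)) = fun w => P (S.c1 p (φ w)) + P (S.c2 p (φ w)) := rfl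
    rw [e7] at e5
    rw [← e5]
    simp only [hq_def, hΨ]
    ring
  obtain ⟨hgreen, hint_bq⟩ := green hf hμ hO ha hb hbc (hbv.trans hvb) hbcrit hq
  -- outside of the support of `v`
  have hv0 : ∀ x ∉ tsupport v, v =ᶠ[𝓝 x] fun _ => 0 := fun x hx => by
    filter_upwards [(isClosed_tsupport v).isOpen_compl.mem_nhds hx] with y hy
    exact image_eq_zero_of_notMem_tsupport hy
  have hdR0 : ∀ {F : Type} [NormedAddCommGroup F] [NormedSpace ℝ F] (x : X) (u : X → F)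
      (_ : u =ᶠ[𝓝 x] fun _ => 0) (w : TangentSpace 𝓘(ℂ, C2) x), dR u x w = 0 := by
    intro F _ _ x u hu w
    rw [dR_congr hu]
    have h1 : mfderiv 𝓘(ℝ, C2) 𝓘(ℝ, F) (fun _ : X => (0 : F)) x = 0 := mfderiv_const
    rw [dR, h1]
    rfl
  have hb0 : ∀ x ∉ tsupport v, b =ᶠ[𝓝 x] fun _ => 0 := fun x hx => by
    filter_upwards [hv0 x hx] with y hy
    simp [hb_def, hy]
  have hgv0 : ∀ x ∉ tsupport v, gradSq g f v x = 0 := fun x hx => by
    rw [gradSq, hdR0 x v (hv0 x hx), hdR0 x v (hv0 x hx)]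
    simp
  have hgd0 : ∀ (h : X → ℝ) (x : X), x ∉ tsupport v → gradDot g f h b x = 0 := fun h x hx => by
    rw [gradDot, hdR0 x b (hb0 x hx), hdR0 x b (hb0 x hx)]
    simp
  have hvx0 : ∀ x ∉ tsupport v, v x = 0 := fun x hx => image_eq_zero_of_notMem_tsupport hx
  have hnv0 : ∀ x, x ∉ O → x ∉ tsupport v := fun x hx hxv => hx (hvb hxv)
  -- continuity
  have hΨc : ContinuousOn (fun x => Real.exp (Ψ x)) (O \ Crit f) :=
    (ha.continuousOn).mono diff_subset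
  have hbcont : ContinuousOn b (O \ Crit f) := hb.continuous.continuousOn
  have hi1 : Integrable (fun x => Real.exp (Ψ x) * (b x * gradSq g f Ψ x)) μ := by
    refine hardy_int hf hμ hv hO hvb
      (hΨc.mul (hbcont.mul (continuousOn_gradSq g hf hO hΨs))) (fun x hx => ?_)
    simp [hb_def, hvx0 x hx]
  have hi2 : Integrable (fun x => Real.exp (Ψ x) * gradSq g f v x) μ := by
    refine hardy_int hf hμ hv hO hvb
      (hΨc.mul (continuousOn_gradSq g hf hO hv.1.contMDiffOn)) (fun x hx => ?_)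
    simp [hgv0 x hx]
  have hi3 : Integrable (gradDot g f a b) μ :=
    hardy_int hf hμ hv hO hvb (continuousOn_gradDot g hf hO ha hb.contMDiffOn)
      (fun x hx => hgd0 a x hx)
  have hi4 : Integrable (gradSq g f v) μ := (IsFibreArea.integrable_test hf hμ hv).1
  -- the inequality of the right sides
  have hstep1 : ∫ x, b x * q x ∂μ ≤ (∫ x, Real.exp (Ψ x) * (b x * gradSq g f Ψ x) ∂μ) +
      ∫ x, Real.exp (Ψ x) * gradSq g f v x ∂μ := by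
    have h1 : ∫ x, b x * q x ∂μ = ∫ x, -gradDot g f a b x ∂μ := by
      rw [integral_neg, hgreen, neg_neg]
    rw [h1, ← integral_add hi1 hi2]
    refine integral_mono hi3.neg (hi1.add hi2) (fun x => ?_)
    by_cases hx : x ∈ O
    · have h2 := abs_gradDot_normSq_le (f := f) g (hΨd x hx) (hvd x)
      have h3 : gradDot g f a b x = Real.exp (Ψ x) * gradDot g f Ψ b x :=
        hardy_gradDot_exp g f (hΨd x hx)
      have h4 := (abs_le.mp h2).1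
      have h5 := Real.exp_pos (Ψ x)
      show -gradDot g f a b x ≤
        Real.exp (Ψ x) * (b x * gradSq g f Ψ x) + Real.exp (Ψ x) * gradSq g f v x
      rw [h3]
      have h6 : -gradDot g f Ψ b x ≤ b x * gradSq g f Ψ x + gradSq g f v x := by
        have : -(‖v x‖ ^ 2 * gradSq g f Ψ x + gradSq g f v x) ≤
          gradDot g f Ψ (fun y => ‖v y‖ ^ 2) x := h4
        simp only [hb_def]
        linarith
      nlinarith [mul_le_mul_of_nonneg_left h6 h5.le]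
    · have hxv := hnv0 x hx
      show -gradDot g f a b x ≤
        Real.exp (Ψ x) * (b x * gradSq g f Ψ x) + Real.exp (Ψ x) * gradSq g f v x
      rw [hgd0 a x hxv, hgv0 x hxv]
      simp [hb_def, hvx0 x hxv]
  have hstep2 : ∫ x, Real.exp (Ψ x) * gradSq g f v x ∂μ ≤ Real.exp 4 * ∫ x, gradSq g f v x ∂μ := by
    rw [← integral_const_mul]
    refine integral_mono hi2 (hi4.const_mul _) (fun x => ?_)
    show Real.exp (Ψ x) * gradSq g f v x ≤ Real.exp 4 * gradSq g f v x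
    by_cases hx : x ∈ O
    · exact mul_le_mul_of_nonneg_right (Real.exp_le_exp.mpr (hΨ4 x hx)) (gradSq_nonneg g f v x)
    · rw [hgv0 x (hnv0 x hx)]
      simp
  have hi5 : Integrable (fun x => b x * q x - Real.exp (Ψ x) * (b x * gradSq g f Ψ x)) μ :=
    hint_bq.sub hi1
  have hstep3 : ∫ x, (b x * q x - Real.exp (Ψ x) * (b x * gradSq g f Ψ x)) ∂μ ≤
      Real.exp 4 * ∫ x, gradSq g f v x ∂μ := by
    rw [integral_sub hint_bq hi1]
    linarith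
  refine le_trans ?_ hstep3
  have hW : ∀ (c : ℂ), ‖c‖ ≤ 1 / 4 → 0 ≤ 1 - Real.log (‖c‖ ^ 2 + ε ^ 2) / 2 := by
    intro c hc
    have h1 : Real.log (‖c‖ ^ 2 + ε ^ 2) ≤ 0 := by
      refine Real.log_nonpos (by positivity) ?_
      have := norm_nonneg c
      nlinarith
    linarith
  have hpt : ∀ x, 0 ≤ ‖v x‖ ^ 2 *
      ((1 - Real.log (‖S.c1 p x‖ ^ 2 + ε ^ 2) / 2) * coSq g f (S.c1 p) x +
        (1 - Real.log (‖S.c2 p x‖ ^ 2 + ε ^ 2) / 2) * coSq g f (S.c2 p) x) ∧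
      ‖v x‖ ^ 2 *
      ((1 - Real.log (‖S.c1 p x‖ ^ 2 + ε ^ 2) / 2) * coSq g f (S.c1 p) x +
        (1 - Real.log (‖S.c2 p x‖ ^ 2 + ε ^ 2) / 2) * coSq g f (S.c2 p) x) ≤
      b x * q x - Real.exp (Ψ x) * (b x * gradSq g f Ψ x) := by
    intro x
    by_cases hx : x ∈ O
    · have w1 := hW _ (hn1 x hx)
      have w2 := hW _ (hn2 x hx)
      have p1 := (hP _ (hn1 x hx)).2.2
      have p2 := (hP _ (hn2 x hx)).2.2
      have k1 := coSq_nonneg g f (S.c1 p) x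
      have k2 := coSq_nonneg g f (S.c2 p) x
      have hb1 : 0 ≤ ‖v x‖ ^ 2 := sq_nonneg _
      have hE : 1 ≤ Real.exp (Ψ x) := Real.one_le_exp (hΨ0 x hx)
      have hsum : (1 - Real.log (‖S.c1 p x‖ ^ 2 + ε ^ 2) / 2) * coSq g f (S.c1 p) x +
        (1 - Real.log (‖S.c2 p x‖ ^ 2 + ε ^ 2) / 2) * coSq g f (S.c2 p) x ≤
        lap P (S.c1 p x) * coSq g f (S.c1 p) x + lap P (S.c2 p x) * coSq g f (S.c2 p) x :=
        add_le_add (mul_le_mul_of_nonneg_right p1 k1) (mul_le_mul_of_nonneg_right p2 k2)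
      have hsum0 : 0 ≤ (1 - Real.log (‖S.c1 p x‖ ^ 2 + ε ^ 2) / 2) * coSq g f (S.c1 p) x +
        (1 - Real.log (‖S.c2 p x‖ ^ 2 + ε ^ 2) / 2) * coSq g f (S.c2 p) x :=
        add_nonneg (mul_nonneg w1 k1) (mul_nonneg w2 k2)
      refine ⟨mul_nonneg hb1 hsum0, ?_⟩
      have hE2 : lap P (S.c1 p x) * coSq g f (S.c1 p) x + lap P (S.c2 p x) * coSq g f (S.c2 p) x ≤
          Real.exp (Ψ x) * (lap P (S.c1 p x) * coSq g f (S.c1 p) x +
            lap P (S.c2 p x) * coSq g f (S.c2 p) x) :=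
        le_mul_of_one_le_left (hsum0.trans hsum) hE
      have hfin := mul_le_mul_of_nonneg_left (hsum.trans hE2) hb1
      have heq : b x * q x - Real.exp (Ψ x) * (b x * gradSq g f Ψ x) =
          ‖v x‖ ^ 2 * (Real.exp (Ψ x) * (lap P (S.c1 p x) * coSq g f (S.c1 p) x +
            lap P (S.c2 p x) * coSq g f (S.c2 p) x)) := by
        simp only [hb_def, hq_def]
        ring
      rw [heq]
      exact hfin
    · have hx0 := hvx0 x (hnv0 x hx)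
      simp [hb_def, hx0]
  exact integral_mono_of_nonneg (Filter.Eventually.of_forall (fun x => (hpt x).1)) hi5
    (Filter.Eventually.of_forall (fun x => (hpt x).2))

end DD
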