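import Mathlib

/-! # LDir: choice of the coordinate direction

`F : ℂ × ℂ → ℂ` is analytic on the open neighbourhood `V` of `0`, `F 0 = 0`.
If `y ↦ F (A (0, y))` vanished identically near `0` for every linear
isomorphism `A`, then `t ↦ F (t v)` would vanish near `0` for every `v ≠ 0`; by the identity
theorem on the disc `{t | t v ∈ ball}` it vanishes on a whole ball, hence `F = 0` on a ball
around `0` and `fderiv F = 0` there, contradicting `hd` at points `z ≠ 0`. -/

open Metric Set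

namespace DD

theorem exists_direction {F : ℂ × ℂ → ℂ} {V : Set (ℂ × ℂ)} (hV : IsOpen V) (h0 : (0 : ℂ × ℂ) ∈ V)
    (hF : AnalyticOnNhd ℂ F V) (hF0 : F 0 = 0)
    (hd : ∀ z ∈ V, z ≠ 0 → fderiv ℂ F z ≠ 0) :
    ∃ A : (ℂ × ℂ) ≃L[ℂ] (ℂ × ℂ), ¬ ∀ᶠ y in nhds (0 : ℂ), F (A (0, y)) = 0 := by
  by_contra hcon
  push Not at hcon
  obtain ⟨r, hr, hrV⟩ := Metric.isOpen_iff.mp hV 0 h0
  have hzero : ∀ v ∈ ball (0 : ℂ × ℂ) r, F v = 0 := by
    intro v hv
    by_cases hv0 : v = 0
    · rw [hv0]; exact hF0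
    have hvn : 0 < ‖v‖ := norm_pos_iff.mpr hv0
    rw [mem_ball_zero_iff] at hv
    obtain ⟨A, hA⟩ := SeparatingDual.exists_continuousLinearEquiv_apply_eq (R := ℂ)
      (V := ℂ × ℂ) (x := ((0 : ℂ), (1 : ℂ))) (y := v) (by simp) hv0
    have hA2 : ∀ y : ℂ, A (0, y) = y • v := by
      intro y
      have : ((0 : ℂ), y) = y • ((0 : ℂ), (1 : ℂ)) := by simp
      rw [this, map_smul, hA]
    have h1 : ∀ᶠ t in nhds (0 : ℂ), F (t • v) = 0 := by
      filter_upwards [hcon A] with t ht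
      rw [← hA2]; exact ht
    have hmem : ∀ t ∈ ball (0 : ℂ) (r / ‖v‖), t • v ∈ V := by
      intro t ht
      rw [mem_ball_zero_iff, lt_div_iff₀ hvn] at ht
      apply hrV
      rw [mem_ball_zero_iff, norm_smul]
      exact ht
    have han : AnalyticOnNhd ℂ (fun t : ℂ => F (t • v)) (ball 0 (r / ‖v‖)) := by
      intro t ht
      have h2 : AnalyticAt ℂ (fun t : ℂ => t • v) t := analyticAt_id.smul analyticAt_const
      exact (hF (t • v) (hmem t ht)).comp_of_eq (f := fun t : ℂ => t • v) h2 rfl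
    have h3 := han.eqOn_zero_of_preconnected_of_eventuallyEq_zero
      (convex_ball (0 : ℂ) _).isPreconnected (mem_ball_self (by positivity)) h1
    have h4 : (1 : ℂ) ∈ ball (0 : ℂ) (r / ‖v‖) := by
      rw [mem_ball_zero_iff, norm_one, lt_div_iff₀ hvn]
      linarith
    have h5 := h3 h4
    simpa using h5
  -- a nonzero point of the ball
  have hz : ((0 : ℂ), ((r / 2 : ℝ) : ℂ)) ∈ ball (0 : ℂ × ℂ) r := by
    rw [mem_ball_zero_iff, Prod.norm_mk, norm_zero, Complex.norm_real,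
      Real.norm_of_nonneg (by positivity)]
    rw [max_lt_iff]
    constructor <;> linarith
  have hz0 : ((0 : ℂ), ((r / 2 : ℝ) : ℂ)) ≠ 0 := by
    intro h
    have := congrArg Prod.snd h
    simp only [Prod.snd_zero, Complex.ofReal_eq_zero] at this
    linarith
  refine hd _ (hrV hz) hz0 ?_
  have h6 : F =ᶠ[nhds ((0 : ℂ), ((r / 2 : ℝ) : ℂ))] fun _ => (0 : ℂ) := by
    filter_upwards [isOpen_ball.mem_nhds hz] with w hw
    exact hzero w hw
  rw [h6.fderiv_eq]
  simp

end DD
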