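import Mathlib

/-! # LNewton: from power sums to the product -/

open Metric Set

namespace DD

private theorem newton_ms (s : Multiset ℂ) (k : ℕ) :
    (k : ℂ) * s.esymm k = (-1) ^ (k + 1) *
      ∑ a ∈ Finset.HasAntidiagonal.antidiagonal k with a.1 < k, (-1) ^ a.1 * s.esymm a.1 *
        (s.map (fun w => w ^ a.2)).sum := by
  classical
  obtain ⟨l, rfl⟩ := Quot.exists_rep s
  change (k : ℂ) * ((l : Multiset ℂ)).esymm k = (-1) ^ (k + 1) *
      ∑ a ∈ Finset.HasAntidiagonal.antidiagonal k with a.1 < k, (-1) ^ a.1 * ((l : Multiset ℂ)).esymm a.1 *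
        ((l : Multiset ℂ).map (fun w => w ^ a.2)).sum
  have hl : (l : Multiset ℂ) = (Finset.univ : Finset (Fin l.length)).val.map (fun i => l.get i) := by
    have h := List.ofFn_get l
    have h2 : (Finset.univ : Finset (Fin l.length)).val.map (fun i => l.get i) =
        ((List.ofFn (fun i => l.get i) : List ℂ) : Multiset ℂ) := by
      rw [Fin.univ_val_map]
    rw [h2, h]
  have h := congrArg (MvPolynomial.aeval (fun i : Fin l.length => l.get i))
    (MvPolynomial.mul_esymm_eq_sum (Fin l.length) ℂ k)
  rw [map_mul, map_mul, map_sum, map_pow, map_neg, map_one, map_natCast,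
    MvPolynomial.aeval_esymm_eq_multiset_esymm] at h
  rw [hl, h]
  congr 1
  apply Finset.sum_congr rfl
  intro a _
  rw [map_mul, map_mul, map_pow, map_neg, map_one,
    MvPolynomial.aeval_esymm_eq_multiset_esymm]
  congr 1
  unfold MvPolynomial.psum
  rw [map_sum, Multiset.map_map]
  change _ = ∑ i : Fin l.length, (l.get i) ^ a.2
  apply Finset.sum_congr rfl
  intro i _
  rw [map_pow, MvPolynomial.aeval_X]

theorem newton_holo {W : ℂ → Multiset ℂ} {a : ℝ} (ha : 0 < a)
    (hp : ∀ k : ℕ, DifferentiableOn ℂ (fun x => ((W x).map (fun w => w ^ k)).sum) (ball 0 a)) :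
    (∃ m : ℕ, ∀ x ∈ ball (0 : ℂ) a, Multiset.card (W x) = m) ∧
      DifferentiableOn ℂ (fun x => (W x).prod) (ball 0 a) := by
  have hcard : ∃ m : ℕ, ∀ x ∈ ball (0 : ℂ) a, Multiset.card (W x) = m := by
    refine ⟨Multiset.card (W 0), fun x hx => ?_⟩
    have hpre : IsPreconnected (ball (0 : ℂ) a) := (convex_ball (0 : ℂ) a).isPreconnected
    have hcont : ContinuousOn (fun x => Multiset.card (W x)) (ball (0 : ℂ) a) := by
      have h0 := (hp 0).continuousOn
      have h1 : ContinuousOn (fun x => ((Multiset.card (W x) : ℕ) : ℝ)) (ball (0 : ℂ) a) := by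
        have h2 : ContinuousOn (fun x => (((W x).map (fun w => w ^ 0)).sum).re)
            (ball (0 : ℂ) a) := Complex.continuous_re.comp_continuousOn h0
        refine h2.congr (fun x _ => ?_)
        simp
      exact (Nat.isUniformEmbedding_coe_real.isUniformInducing.isInducing.continuousOn_iff).2 h1
    exact hpre.constant hcont hx (mem_ball_self ha)
  have hE : ∀ k : ℕ, DifferentiableOn ℂ (fun x => (W x).esymm k) (ball 0 a) := by
    intro k
    induction k using Nat.strong_induction_on with
    | _ k ih =>
      rcases Nat.eq_zero_or_pos k with h0 | hk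
      · subst h0
        have : (fun x => (W x).esymm 0) = fun _ => (1 : ℂ) := by
          funext x
          simp [Multiset.esymm]
        rw [this]
        exact differentiableOn_const _
      · have hk0 : (k : ℂ) ≠ 0 := by
          exact_mod_cast hk.ne'
        have e : (fun x => (W x).esymm k) = fun x => (k : ℂ)⁻¹ * ((-1) ^ (k + 1) *
            ∑ a ∈ Finset.HasAntidiagonal.antidiagonal k with a.1 < k, (-1) ^ a.1 * (W x).esymm a.1 *
              ((W x).map (fun w => w ^ a.2)).sum) := by
          funext x
          rw [← newton_ms (W x) k, ← mul_assoc, inv_mul_cancel₀ hk0, one_mul]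
        rw [e]
        apply DifferentiableOn.const_mul
        apply DifferentiableOn.const_mul
        apply DifferentiableOn.fun_sum
        intro b hb
        rw [Finset.mem_filter] at hb
        exact ((ih b.1 hb.2).const_mul _).mul (hp b.2)
  refine ⟨hcard, ?_⟩
  obtain ⟨m, hm⟩ := hcard
  refine (hE m).congr (fun x hx => ?_)
  beta_reduce
  rw [← hm x hx, Multiset.esymm, Multiset.powersetCard_self]
  simp

end DD
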