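import Mathlib

/-! # LOne: one variable: zeros in a disc, residue formula, lower bound -/

open Metric Set

namespace DD

private theorem lone_poly_analytic (Z : Multiset ℂ) (x : ℂ) :
    AnalyticAt ℂ (fun y => (Z.map (fun z => y - z)).prod) x := by
  induction Z using Multiset.induction_on with
  | empty => simpa using analyticAt_const
  | cons a Z ih =>
    simp only [Multiset.map_cons, Multiset.prod_cons]
    exact (analyticAt_id.sub analyticAt_const).mul ih

private theorem lone_poly_ne (Z : Multiset ℂ) (y : ℂ) :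
    (Z.map (fun z => y - z)).prod = 0 ↔ y ∈ Z := by
  rw [Multiset.prod_eq_zero_iff, Multiset.mem_map]
  constructor
  · rintro ⟨z, hz, h⟩
    rw [sub_eq_zero] at h
    rw [h]
    exact hz
  · intro h
    exact ⟨y, h, sub_self y⟩

private theorem lone_poly_deriv (Z : Multiset ℂ) (y : ℂ) (hy : y ∉ Z) :
    HasDerivAt (fun y => (Z.map (fun z => y - z)).prod)
      ((Z.map (fun z => y - z)).prod * (Z.map (fun z => (y - z)⁻¹)).sum) y := by
  induction Z using Multiset.induction_on with
  | empty => simpa using hasDerivAt_const y (1 : ℂ)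
  | cons a Z ih =>
    rw [Multiset.mem_cons, not_or] at hy
    have h1 := ih hy.2
    have h2 : HasDerivAt (fun y : ℂ => y - a) 1 y := (hasDerivAt_id y).sub_const a
    have h3 := h2.mul h1
    simp only [Multiset.map_cons, Multiset.prod_cons, Multiset.sum_cons]
    refine h3.congr_deriv ?_
    have h4 : (y - a) * (y - a)⁻¹ = 1 := mul_inv_cancel₀ (sub_ne_zero.2 hy.1)
    linear_combination (-(Z.map (fun z => y - z)).prod) * h4

private theorem lone_poly_norm (Z : Multiset ℂ) (y : ℂ) :
    ‖(Z.map (fun z => y - z)).prod‖ = (Z.map (fun z => ‖y - z‖)).prod := by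
  induction Z using Multiset.induction_on with
  | empty => simp
  | cons a Z ih =>
    simp only [Multiset.map_cons, Multiset.prod_cons, norm_mul]
    rw [ih]

private theorem lone_poly_le (Z : Multiset ℂ) (b : ℝ) (hb : 0 < b) (hZ : ∀ z ∈ Z, ‖z‖ < b / 2)
    (y : ℂ) (hy : ‖y‖ = b) : (Z.map (fun z => ‖y - z‖)).prod ≤ (2 * b) ^ Multiset.card Z := by
  induction Z using Multiset.induction_on with
  | empty => simp
  | cons a Z ih =>
    simp only [Multiset.map_cons, Multiset.prod_cons, Multiset.card_cons]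
    have h1 := ih (fun z hz => hZ z (Multiset.mem_cons_of_mem hz))
    have h2 : ‖y - a‖ ≤ 2 * b := by
      have h3 := norm_sub_le y a
      have h4 := hZ a (Multiset.mem_cons_self a Z)
      linarith
    rw [pow_succ, mul_comm]
    refine mul_le_mul h1 h2 (norm_nonneg _) (by positivity)

private theorem lone_fact {g : ℂ → ℂ} {b : ℝ} (hb : 0 < b)
    (hg : AnalyticOnNhd ℂ g (closedBall 0 b)) (hw : ∃ w ∈ closedBall (0 : ℂ) b, g w ≠ 0) :
    ∃ (Z : Multiset ℂ) (h : ℂ → ℂ), AnalyticOnNhd ℂ h (closedBall 0 b) ∧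
      (∀ u ∈ closedBall (0 : ℂ) b, h u ≠ 0) ∧ (∀ z ∈ Z, z ∈ closedBall (0 : ℂ) b) ∧
      ∀ y ∈ closedBall (0 : ℂ) b, g y = (Z.map (fun z => y - z)).prod * h y := by
  have hpre : IsPreconnected (closedBall (0 : ℂ) b) := (convex_closedBall _ _).isPreconnected
  have hmer := hg.meromorphicOn
  obtain ⟨w, hwU, hw0⟩ := hw
  have hord : ∀ u : closedBall (0 : ℂ) b, meromorphicOrderAt g u ≠ ⊤ := by
    intro u
    apply hmer.meromorphicOrderAt_ne_top_of_isPreconnected hpre hwU u.2
    rw [(hg w hwU).meromorphicOrderAt_eq, (hg w hwU).analyticOrderAt_eq_zero.2 hw0]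
    simp
  have hfin := (MeromorphicOn.divisor g (closedBall (0 : ℂ) b)).finiteSupport
    (isCompact_closedBall 0 b)
  obtain ⟨h, hh, hne, heq⟩ := hmer.extract_zeros_poles hord hfin
  set D := MeromorphicOn.divisor g (closedBall (0 : ℂ) b) with hD
  have hDnn : ∀ u, 0 ≤ D u := fun u => MeromorphicOn.AnalyticOnNhd.divisor_nonneg hg u
  set Z : Multiset ℂ := ∑ u ∈ hfin.toFinset, (D u).toNat • ({u} : Multiset ℂ) with hZ
  have hprod : ∀ y : ℂ, (∏ᶠ u, (fun x : ℂ => x - u) ^ D u) y =
      (Z.map (fun z => y - z)).prod := by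
    intro y
    rw [Function.FactorizedRational.finprod_eq_fun hfin]
    beta_reduce
    rw [finprod_eq_prod_of_mulSupport_subset (s := hfin.toFinset)]
    · rw [hZ]
      have e1 : (∑ u ∈ hfin.toFinset, (D u).toNat • ({u} : Multiset ℂ)).map (fun z => y - z) =
          ∑ u ∈ hfin.toFinset, (D u).toNat • ({y - u} : Multiset ℂ) := by
        have h1 := map_sum (Multiset.mapAddMonoidHom (fun z => y - z))
          (fun u => (D u).toNat • ({u} : Multiset ℂ)) hfin.toFinset
        simp only [Multiset.coe_mapAddMonoidHom] at h1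
        rw [h1]
        refine Finset.sum_congr rfl fun u _ => ?_
        rw [Multiset.map_nsmul, Multiset.map_singleton]
      rw [e1, Multiset.prod_sum]
      refine Finset.prod_congr rfl fun u _ => ?_
      rw [Multiset.prod_nsmul, Multiset.prod_singleton]
      conv_lhs => rw [← Int.toNat_of_nonneg (hDnn u)]
      rw [zpow_natCast]
    · intro u hu
      rw [Function.mem_mulSupport] at hu
      rw [Set.Finite.coe_toFinset, Function.mem_support]
      intro h0
      apply hu
      rw [h0, zpow_zero]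
  refine ⟨Z, h, hh, fun u hu => hne ⟨u, hu⟩, ?_, ?_⟩
  · intro z hz
    rw [hZ, Multiset.mem_sum] at hz
    obtain ⟨u, hu, hzu⟩ := hz
    have h1 : z = u := by
      have := Multiset.mem_of_mem_nsmul hzu
      exact Multiset.mem_singleton.1 this
    rw [h1]
    rw [Set.Finite.mem_toFinset] at hu
    by_contra hcon
    exact hu (D.apply_eq_zero_of_notMem hcon)
  · have hF : AnalyticOnNhd ℂ (fun y => g y - (Z.map (fun z => y - z)).prod * h y)
        (closedBall 0 b) := fun y hy =>
      (hg y hy).sub ((lone_poly_analytic Z y).mul (hh y hy))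
    have h0U : (0 : ℂ) ∈ closedBall (0 : ℂ) b := mem_closedBall_self hb.le
    have hfr : ∃ᶠ y in nhdsWithin (0 : ℂ) {0}ᶜ,
        g y - (Z.map (fun z => y - z)).prod * h y = 0 := by
      apply Filter.Eventually.frequently
      have h1 := mem_codiscreteWithin_iff_forall_mem_nhdsNE.1 heq 0 h0U
      have h2 : closedBall (0 : ℂ) b ∈ nhdsWithin (0 : ℂ) {0}ᶜ :=
        mem_nhdsWithin_of_mem_nhds (closedBall_mem_nhds _ hb)
      filter_upwards [h1, h2] with y h3 h4
      rcases h3 with h3 | h3
      · have h5 : g y = ((∏ᶠ u, (fun x : ℂ => x - u) ^ D u) • h) y := h3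
        rw [h5, Pi.smul_apply', hprod y, smul_eq_mul, sub_self]
      · exact absurd h4 h3
    have h2 := hF.eqOn_zero_of_preconnected_of_frequently_eq_zero hpre h0U hfr
    intro y hy
    have h3 := h2 hy
    simp only [Pi.zero_apply] at h3
    exact sub_eq_zero.1 h3

private theorem lone_int {K : ℂ → ℂ} {b : ℝ} (hb : 0 < b)
    (hK : AnalyticOnNhd ℂ K (closedBall 0 b)) (Z : Multiset ℂ) (hZ : ∀ z ∈ Z, ‖z‖ < b) :
    CircleIntegrable (fun y => K y * (Z.map (fun z => (y - z)⁻¹)).sum) 0 b ∧
    (∮ y in C(0, b), K y * (Z.map (fun z => (y - z)⁻¹)).sum) =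
      2 * Real.pi * Complex.I * (Z.map K).sum := by
  induction Z using Multiset.induction_on with
  | empty =>
    simp only [Multiset.map_zero, Multiset.sum_zero, mul_zero]
    refine ⟨circleIntegrable_const _ _ _, ?_⟩
    simp [circleIntegral]
  | cons a Z ih =>
    obtain ⟨h1, h2⟩ := ih (fun z hz => hZ z (Multiset.mem_cons_of_mem hz))
    have ha := hZ a (Multiset.mem_cons_self a Z)
    simp only [Multiset.map_cons, Multiset.sum_cons, mul_add]
    have hd : DiffContOnCl ℂ K (ball 0 b) := by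
      apply DifferentiableOn.diffContOnCl
      intro y hy
      exact (hK y (closure_ball_subset_closedBall hy)).differentiableAt.differentiableWithinAt
    have h3 : (∮ y in C(0, b), K y * (y - a)⁻¹) = 2 * Real.pi * Complex.I * K a := by
      have h4 := hd.circleIntegral_sub_inv_smul (w := a) (by rw [mem_ball_zero_iff]; exact ha)
      simp only [smul_eq_mul] at h4
      rw [← h4]
      congr 1
      ext y
      ring
    have h5 : CircleIntegrable (fun y => K y * (y - a)⁻¹) 0 b := by
      apply ContinuousOn.circleIntegrable hb.le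
      intro y hy
      have hyb : ‖y‖ = b := by rwa [mem_sphere_zero_iff_norm] at hy
      have hya : y - a ≠ 0 := by
        intro h
        rw [sub_eq_zero] at h
        rw [← h] at ha
        linarith
      have h6 : ContinuousAt K y :=
        (hK y (by rw [mem_closedBall_zero_iff]; linarith)).continuousAt
      exact (h6.mul ((continuousAt_id.sub continuousAt_const).inv₀ hya)).continuousWithinAt
    refine ⟨h5.add h1, ?_⟩
    rw [circleIntegral.integral_add h5 h1, h3, h2]

theorem one_var {g : ℂ → ℂ} {b : ℝ} (hb : 0 < b) (hg : AnalyticOnNhd ℂ g (closedBall 0 b))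
    (hfar : ∀ y : ℂ, b / 2 ≤ ‖y‖ → ‖y‖ ≤ b → g y ≠ 0) :
    ∃ Z : Multiset ℂ, (∀ z ∈ Z, ‖z‖ < b / 2 ∧ g z = 0) ∧
      (∀ y : ℂ, ‖y‖ ≤ b → g y = 0 → y ∈ Z) ∧
      (∀ K : ℂ → ℂ, AnalyticOnNhd ℂ K (closedBall 0 b) →
        (∮ y in C(0, b), K y * (deriv g y / g y)) =
          2 * Real.pi * Complex.I * (Z.map K).sum) ∧
      (∀ c : ℝ, 0 < c → (∀ y : ℂ, ‖y‖ = b → c ≤ ‖g y‖) →
        ∀ y : ℂ, ‖y‖ ≤ b →
          c / (2 * b) ^ Multiset.card Z * (Z.map (fun z => ‖y - z‖)).prod ≤ ‖g y‖) := by
  -- a slightly larger disc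
  have hO1 : IsOpen {z : ℂ | AnalyticAt ℂ g z} := isOpen_analyticAt ℂ g
  have hcO : ContinuousOn g {z : ℂ | AnalyticAt ℂ g z} := fun z hz =>
    (AnalyticAt.continuousAt hz).continuousWithinAt
  have hO2 : IsOpen ({z : ℂ | AnalyticAt ℂ g z} ∩ g ⁻¹' {0}ᶜ) :=
    hcO.isOpen_inter_preimage hO1 isOpen_compl_singleton
  have hO3 : IsOpen (({z : ℂ | AnalyticAt ℂ g z} ∩ g ⁻¹' {0}ᶜ) ∪
      ({z : ℂ | AnalyticAt ℂ g z} ∩ ball 0 (b / 2))) := hO2.union (hO1.inter isOpen_ball)
  have hsub : closedBall (0 : ℂ) b ⊆ (({z : ℂ | AnalyticAt ℂ g z} ∩ g ⁻¹' {0}ᶜ) ∪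
      ({z : ℂ | AnalyticAt ℂ g z} ∩ ball 0 (b / 2))) := by
    intro y hy
    have h1 : AnalyticAt ℂ g y := hg y hy
    rw [mem_closedBall_zero_iff] at hy
    rcases lt_or_ge ‖y‖ (b / 2) with h | h
    · exact Or.inr ⟨h1, by rw [mem_ball_zero_iff]; exact h⟩
    · exact Or.inl ⟨h1, hfar y h hy⟩
  obtain ⟨δ, hδ, hδ'⟩ := (isCompact_closedBall (0 : ℂ) b).exists_cthickening_subset_open hO3 hsub
  rw [cthickening_closedBall hδ.le hb.le] at hδ'
  set b₁ : ℝ := δ + b with hb₁
  have hbb : b < b₁ := by linarith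
  have hb₁0 : 0 < b₁ := by linarith
  have hgb₁ : AnalyticOnNhd ℂ g (closedBall 0 b₁) := by
    intro y hy
    rcases hδ' hy with h | h
    · exact h.1
    · exact h.1
  have hzb₁ : ∀ y ∈ closedBall (0 : ℂ) b₁, g y = 0 → ‖y‖ < b / 2 := by
    intro y hy h0
    rcases hδ' hy with h | h
    · exact absurd h0 h.2
    · have := h.2
      rwa [mem_ball_zero_iff] at this
  obtain ⟨Z, h, hh, hne, hZU, hgZ⟩ := lone_fact hb₁0 hgb₁
    ⟨(b : ℂ), by
      rw [mem_closedBall_zero_iff, Complex.norm_real, Real.norm_of_nonneg hb.le]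
      exact hbb.le,
      hfar _ (by rw [Complex.norm_real, Real.norm_of_nonneg hb.le]; linarith)
        (by rw [Complex.norm_real, Real.norm_of_nonneg hb.le])⟩
  have hZ0 : ∀ z ∈ Z, g z = 0 := by
    intro z hz
    rw [hgZ z (hZU z hz), (lone_poly_ne Z z).2 hz, zero_mul]
  have hZb : ∀ z ∈ Z, ‖z‖ < b / 2 := fun z hz => hzb₁ z (hZU z hz) (hZ0 z hz)
  refine ⟨Z, fun z hz => ⟨hZb z hz, hZ0 z hz⟩, ?_, ?_, ?_⟩
  · intro y hy h0
    have hy' : y ∈ closedBall (0 : ℂ) b₁ := by
      rw [mem_closedBall_zero_iff]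
      linarith
    rw [hgZ y hy'] at h0
    rcases mul_eq_zero.1 h0 with h1 | h1
    · exact (lone_poly_ne Z y).1 h1
    · exact absurd h1 (hne y hy')
  · intro K hK
    have hquot : ∀ y : ℂ, ‖y‖ = b → deriv g y / g y =
        (Z.map (fun z => (y - z)⁻¹)).sum + deriv h y / h y := by
      intro y hy
      have hyU : y ∈ closedBall (0 : ℂ) b₁ := by
        rw [mem_closedBall_zero_iff]
        linarith
      have hyZ : y ∉ Z := by
        intro hyZ
        have := hZb y hyZ
        linarith
      have h1 := lone_poly_deriv Z y hyZ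
      have h2 : HasDerivAt h (deriv h y) y := (hh y hyU).differentiableAt.hasDerivAt
      have h3 := h1.mul h2
      have h4 : g =ᶠ[nhds y] (fun y => (Z.map (fun z => y - z)).prod) * h := by
        have h5 : ball (0 : ℂ) b₁ ∈ nhds y := by
          apply isOpen_ball.mem_nhds
          rw [mem_ball_zero_iff]
          linarith
        filter_upwards [h5] with x hx
        exact hgZ x (ball_subset_closedBall hx)
      have h5 := h3.congr_of_eventuallyEq h4
      rw [h5.deriv, hgZ y hyU]
      have h6 : (Z.map (fun z => y - z)).prod ≠ 0 := fun h7 => hyZ ((lone_poly_ne Z y).1 h7)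
      have h7 := hne y hyU
      field_simp
    have h1 : (∮ y in C(0, b), K y * (deriv g y / g y)) =
        ∮ y in C(0, b), (K y * (Z.map (fun z => (y - z)⁻¹)).sum + K y * (deriv h y / h y)) := by
      apply circleIntegral.integral_congr hb.le
      intro y hy
      have hyb : ‖y‖ = b := by rwa [mem_sphere_zero_iff_norm] at hy
      simp only
      rw [hquot y hyb, mul_add]
    obtain ⟨h2, h3⟩ := lone_int hb hK Z (fun z hz => by have := hZb z hz; linarith)
    have h4 : ∀ y ∈ closedBall (0 : ℂ) b, AnalyticAt ℂ (fun y => K y * (deriv h y / h y)) y := by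
      intro y hy
      have hyU : y ∈ closedBall (0 : ℂ) b₁ := closedBall_subset_closedBall hbb.le hy
      exact (hK y hy).mul ((hh y hyU).deriv.div (hh y hyU) (hne y hyU))
    have h5 : CircleIntegrable (fun y => K y * (deriv h y / h y)) 0 b := by
      apply ContinuousOn.circleIntegrable hb.le
      intro y hy
      exact (h4 y (sphere_subset_closedBall hy)).continuousAt.continuousWithinAt
    have h6 : (∮ y in C(0, b), K y * (deriv h y / h y)) = 0 := by
      apply DiffContOnCl.circleIntegral_eq_zero hb.le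
      apply DifferentiableOn.diffContOnCl
      intro y hy
      exact (h4 y (closure_ball_subset_closedBall hy)).differentiableAt.differentiableWithinAt
    rw [h1, circleIntegral.integral_add h2 h5, h6, add_zero, h3]
  · intro c hc hcb y hy
    have hUb : ∀ y ∈ closedBall (0 : ℂ) b, y ∈ closedBall (0 : ℂ) b₁ := fun y hy =>
      closedBall_subset_closedBall hbb.le hy
    have h1 : DiffContOnCl ℂ (fun y => (h y)⁻¹) (ball 0 b) := by
      apply DifferentiableOn.diffContOnCl
      intro y hy
      have hyU := hUb y (closure_ball_subset_closedBall hy)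
      exact ((hh y hyU).inv (hne y hyU)).differentiableAt.differentiableWithinAt
    have hpow : (0 : ℝ) < (2 * b) ^ Multiset.card Z := by positivity
    have h2 : ∀ z ∈ frontier (ball (0 : ℂ) b), ‖(h z)⁻¹‖ ≤ (2 * b) ^ Multiset.card Z / c := by
      intro z hz
      rw [frontier_ball _ hb.ne', mem_sphere_zero_iff_norm] at hz
      have hzU : z ∈ closedBall (0 : ℂ) b₁ := hUb z (by rw [mem_closedBall_zero_iff, hz])
      have h3 := hcb z hz
      rw [hgZ z hzU, norm_mul, lone_poly_norm] at h3
      have h4 := lone_poly_le Z b hb hZb z hz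
      have h5 : 0 < ‖h z‖ := norm_pos_iff.2 (hne z hzU)
      rw [norm_inv, inv_le_comm₀ h5 (by positivity), inv_div, div_le_iff₀ hpow]
      calc c ≤ (Z.map (fun z_1 => ‖z - z_1‖)).prod * ‖h z‖ := h3
        _ ≤ (2 * b) ^ Multiset.card Z * ‖h z‖ := by gcongr
        _ = _ := mul_comm _ _
    have h3 := Complex.norm_le_of_forall_mem_frontier_norm_le isBounded_ball h1 h2
      (z := y) (by rw [closure_ball _ hb.ne', mem_closedBall_zero_iff]; exact hy)
    have hyU : y ∈ closedBall (0 : ℂ) b₁ := hUb y (by rw [mem_closedBall_zero_iff]; exact hy)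
    have h5 : 0 < ‖h y‖ := norm_pos_iff.2 (hne y hyU)
    rw [norm_inv, inv_le_comm₀ h5 (by positivity), inv_div] at h3
    rw [hgZ y hyU, norm_mul, lone_poly_norm, mul_comm]
    have h6 : 0 ≤ (Z.map (fun z => ‖y - z‖)).prod := by
      rw [← lone_poly_norm]
      exact norm_nonneg _
    exact mul_le_mul_of_nonneg_left h3 h6

end DD
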