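import Mathlib

/-! # LPow: the power sums are holomorphic

`x ↦ ∮_{‖y‖=b} (∂_y G (x,y))^(k+1) / G (x,y) dy` is holomorphic: the integrand is jointly
continuous (analytic) in `(x, y)` on `ball 0 a × sphere 0 b`, holomorphic in `x`; differentiate
under the integral (`hasDerivAt_integral_of_dominated_loc_of_deriv_le`, local bound of the
`x`-derivative on compact sets), or use the theorem on parametric circle integrals. -/

open Metric Set

namespace DD

private theorem LPow_circle {H : ℂ × ℂ → ℂ} {U : Set (ℂ × ℂ)} (hU : IsOpen U)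
    (hH : AnalyticOnNhd ℂ H U) {a b : ℝ} (hb : 0 < b)
    (hsub : ∀ x y : ℂ, ‖x‖ < a → ‖y‖ = b → (x, y) ∈ U) :
    DifferentiableOn ℂ (fun x : ℂ => ∮ y in C(0, b), H (x, y)) (ball 0 a) := by
  intro x₀ hx₀
  rw [mem_ball_zero_iff] at hx₀
  -- a closed ball around x₀ inside the ball
  set ε : ℝ := (a - ‖x₀‖) / 2 with hε
  have hεpos : 0 < ε := by rw [hε]; linarith
  have hball : ∀ x ∈ closedBall x₀ ε, ‖x‖ < a := by
    intro x hx
    rw [mem_closedBall, dist_eq_norm] at hx
    have := norm_le_norm_add_norm_sub' x x₀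
    rw [hε] at hx
    have h2 := norm_sub_rev x₀ x
    linarith [norm_sub_rev x x₀]
  have hKU : closedBall x₀ ε ×ˢ sphere (0 : ℂ) b ⊆ U := by
    rintro ⟨x, y⟩ ⟨hx, hy⟩
    exact hsub x y (hball x hx) (by simpa using hy)
  have hK : IsCompact (closedBall x₀ ε ×ˢ sphere (0 : ℂ) b) :=
    (isCompact_closedBall _ _).prod (isCompact_sphere _ _)
  have hcontH : ContinuousOn H U := hH.continuousOn
  have hcontD : ContinuousOn (fderiv ℂ H) U := hH.fderiv.continuousOn
  have hcontD1 : ContinuousOn (fun z => fderiv ℂ H z (1, 0)) U :=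
    hcontD.clm_apply continuousOn_const
  obtain ⟨M, hM⟩ := hK.exists_bound_of_continuousOn (hcontD1.mono hKU)
  have hmap : ∀ θ : ℝ, ‖circleMap 0 b θ‖ = b := by
    intro θ
    simp [abs_of_pos hb]
  have hmapc : Continuous (circleMap (0 : ℂ) b) := continuous_circleMap 0 b
  have hder : Continuous (deriv (circleMap (0 : ℂ) b)) := by
    have : deriv (circleMap (0 : ℂ) b) = fun θ => circleMap 0 b θ * Complex.I := by
      funext θ; simp
    rw [this]
    exact hmapc.mul continuous_const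
  have hcontF : ∀ x : ℂ, ‖x‖ < a → Continuous
      (fun θ : ℝ => deriv (circleMap (0 : ℂ) b) θ • H (x, circleMap 0 b θ)) := by
    intro x hx
    refine hder.smul ?_
    exact hcontH.comp_continuous (continuous_const.prodMk hmapc) (fun θ => hsub _ _ hx (hmap θ))
  have hcontF' : ∀ x : ℂ, ‖x‖ < a → Continuous
      (fun θ : ℝ => deriv (circleMap (0 : ℂ) b) θ • fderiv ℂ H (x, circleMap 0 b θ) (1, 0)) := by
    intro x hx
    refine hder.smul ?_
    exact hcontD1.comp_continuous (continuous_const.prodMk hmapc) (fun θ => hsub _ _ hx (hmap θ))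
  have key := intervalIntegral.hasDerivAt_integral_of_dominated_loc_of_deriv_le
    (μ := MeasureTheory.volume) (a := 0) (b := 2 * Real.pi)
    (F := fun (x : ℂ) (θ : ℝ) => deriv (circleMap (0 : ℂ) b) θ • H (x, circleMap 0 b θ))
    (F' := fun (x : ℂ) (θ : ℝ) =>
      deriv (circleMap (0 : ℂ) b) θ • fderiv ℂ H (x, circleMap 0 b θ) (1, 0))
    (x₀ := x₀) (s := closedBall x₀ ε) (bound := fun _ => b * M)
    (closedBall_mem_nhds _ hεpos)
    (by
      filter_upwards [closedBall_mem_nhds x₀ hεpos] with x hx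
      exact (hcontF x (hball x hx)).aestronglyMeasurable)
    ((hcontF x₀ hx₀).intervalIntegrable _ _)
    ((hcontF' x₀ hx₀).aestronglyMeasurable)
    (by
      refine Filter.Eventually.of_forall fun θ _ x hx => ?_
      have h1 : ‖deriv (circleMap (0 : ℂ) b) θ‖ = b := by
        simp [abs_of_pos hb]
      rw [norm_smul, h1]
      refine mul_le_mul_of_nonneg_left ?_ hb.le
      exact hM (x, circleMap 0 b θ) ⟨hx, by simpa using hmap θ⟩)
    (by simp)
    (by
      refine Filter.Eventually.of_forall fun θ _ x hx => ?_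
      have hz : (x, circleMap 0 b θ) ∈ U := hsub _ _ (hball x hx) (hmap θ)
      have h1 : HasFDerivAt H (fderiv ℂ H (x, circleMap 0 b θ)) (x, circleMap 0 b θ) :=
        (hH _ hz).differentiableAt.hasFDerivAt
      have h2 : HasDerivAt (fun t : ℂ => (t, circleMap 0 b θ)) ((1 : ℂ), (0 : ℂ)) x :=
        (hasDerivAt_id x).prodMk (hasDerivAt_const x _)
      have h3 : HasDerivAt (fun t : ℂ => H (t, circleMap 0 b θ))
          (fderiv ℂ H (x, circleMap 0 b θ) (1, 0)) x := h1.comp_hasDerivAt x h2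
      exact h3.const_smul (deriv (circleMap (0 : ℂ) b) θ))
  exact key.2.differentiableAt.differentiableWithinAt

theorem power_holo {G : ℂ × ℂ → ℂ} {V : Set (ℂ × ℂ)} (hV : IsOpen V)
    (hG : AnalyticOnNhd ℂ G V) {a b : ℝ} (hb : 0 < b)
    (hab : closedBall (0 : ℂ) a ×ˢ closedBall (0 : ℂ) b ⊆ V)
    (hfar : ∀ x y : ℂ, ‖x‖ ≤ a → ‖y‖ = b → G (x, y) ≠ 0) (k : ℕ) :
    DifferentiableOn ℂ (fun x : ℂ => ∮ y in C(0, b),
      (deriv (fun t => G (x, t)) y) ^ k * (deriv (fun t => G (x, t)) y / G (x, y)))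
      (ball 0 a) := by
  set U : Set (ℂ × ℂ) := V ∩ {z | G z ≠ 0} with hUdef
  have hU : IsOpen U := by
    have := hG.continuousOn.isOpen_inter_preimage hV (isOpen_compl_singleton (x := (0 : ℂ)))
    exact this
  have hGU : AnalyticOnNhd ℂ G U := hG.mono inter_subset_left
  have hD : AnalyticOnNhd ℂ (fun z => fderiv ℂ G z (0, 1)) U := by
    intro z hz
    exact (ContinuousLinearMap.analyticAt
      (ContinuousLinearMap.apply ℂ ℂ ((0 : ℂ), (1 : ℂ))) _).comp (hGU.fderiv z hz)
  have hH : AnalyticOnNhd ℂ (fun z => (fderiv ℂ G z (0, 1)) ^ k *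
      (fderiv ℂ G z (0, 1) / G z)) U := by
    intro z hz
    exact ((hD z hz).pow k).mul ((hD z hz).div (hGU z hz) hz.2)
  have hmem : ∀ x y : ℂ, ‖x‖ ≤ a → ‖y‖ ≤ b → (x, y) ∈ V := by
    intro x y hx hy
    exact hab ⟨by simpa using hx, by simpa using hy⟩
  have key := LPow_circle (H := fun z => (fderiv ℂ G z (0, 1)) ^ k *
      (fderiv ℂ G z (0, 1) / G z)) hU hH hb (a := a)
      (fun x y hx hy => ⟨hmem x y hx.le hy.le, hfar x y hx.le hy⟩)
  refine key.congr ?_
  intro x hx
  rw [mem_ball_zero_iff] at hx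
  refine circleIntegral.integral_congr hb.le ?_
  intro y hy
  have hy' : ‖y‖ = b := by simpa using hy
  have hz : (x, y) ∈ V := hmem x y hx.le hy'.le
  have h1 : HasFDerivAt G (fderiv ℂ G (x, y)) (x, y) :=
    (hG _ hz).differentiableAt.hasFDerivAt
  have h2 : HasDerivAt (fun t : ℂ => (x, t)) ((0 : ℂ), (1 : ℂ)) y :=
    (hasDerivAt_const y _).prodMk (hasDerivAt_id y)
  have h3 : HasDerivAt (fun t : ℂ => G (x, t)) (fderiv ℂ G (x, y) (0, 1)) y :=
    h1.comp_hasDerivAt y h2
  simp only [h3.deriv]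

end DD
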