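import Mathlib

/-! # LZero: common zeros of `G` and `∂_y G` -/

open Metric Set

namespace DD

private theorem lzero_inv {Φ : ℂ × ℂ → ℂ × ℂ} {z : ℂ × ℂ} (hΦ : AnalyticAt ℂ Φ z)
    (i : (ℂ × ℂ) ≃L[ℂ] (ℂ × ℂ)) (hi : fderiv ℂ Φ z = (i : (ℂ × ℂ) →L[ℂ] (ℂ × ℂ))) :
    ∃ R : OpenPartialHomeomorph (ℂ × ℂ) (ℂ × ℂ), z ∈ R.source ∧ (∀ w, R w = Φ w) ∧
      AnalyticAt ℂ R.symm (Φ z) := by
  have hfd : HasStrictFDerivAt Φ (i : (ℂ × ℂ) →L[ℂ] (ℂ × ℂ)) z := by
    rw [← hi]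
    exact hΦ.hasStrictFDerivAt
  refine ⟨hfd.toOpenPartialHomeomorph _, hfd.mem_toOpenPartialHomeomorph_source, fun w => rfl, ?_⟩
  obtain ⟨p, hp⟩ := hΦ
  have hp1 : fderiv ℂ Φ z = (continuousMultilinearCurryFin1 ℂ (ℂ × ℂ) (ℂ × ℂ)) (p 1) :=
    hp.hasFDerivAt.fderiv
  refine ((hfd.toOpenPartialHomeomorph _).hasFPowerSeriesAt_symm
    hfd.mem_toOpenPartialHomeomorph_source hp (i := i) ?_).analyticAt
  rw [← hi, hp1]
  ext <;> simp

private theorem lzero_dy {G : ℂ × ℂ → ℂ} {z : ℂ × ℂ} (hG : AnalyticAt ℂ G z) :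
    deriv (fun t => G (z.1, t)) z.2 = fderiv ℂ G z (0, 1) := by
  have h1 : HasFDerivAt G (fderiv ℂ G z) (z.1, z.2) := hG.differentiableAt.hasFDerivAt
  have h2 : HasDerivAt (fun t : ℂ => (z.1, t)) ((0 : ℂ), (1 : ℂ)) z.2 :=
    (hasDerivAt_const z.2 z.1).prodMk (hasDerivAt_id z.2)
  exact (h1.comp_hasDerivAt z.2 h2).deriv

theorem zeros_finite {G : ℂ × ℂ → ℂ} {V : Set (ℂ × ℂ)} (hV : IsOpen V)
    (hG : AnalyticOnNhd ℂ G V) (hd : ∀ z ∈ V, z ≠ 0 → fderiv ℂ G z ≠ 0) {a b : ℝ} (hb : 0 < b)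
    (hab : closedBall (0 : ℂ) a ×ˢ closedBall (0 : ℂ) b ⊆ V)
    (hfar : ∀ x y : ℂ, ‖x‖ ≤ a → b / 2 ≤ ‖y‖ → ‖y‖ ≤ b → G (x, y) ≠ 0) {r : ℝ} (hr : 0 < r) :
    {z : ℂ × ℂ | r ≤ ‖z.1‖ ∧ ‖z.1‖ ≤ a ∧ ‖z.2‖ ≤ b ∧ G z = 0 ∧
      deriv (fun t => G (z.1, t)) z.2 = 0}.Finite := by
  set S := {z : ℂ × ℂ | r ≤ ‖z.1‖ ∧ ‖z.1‖ ≤ a ∧ ‖z.2‖ ≤ b ∧ G z = 0 ∧
      deriv (fun t => G (z.1, t)) z.2 = 0} with hS
  by_contra hinf
  have hinf : S.Infinite := hinf
  have hK : IsCompact (closedBall (0 : ℂ) a ×ˢ closedBall (0 : ℂ) b) :=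
    (isCompact_closedBall _ _).prod (isCompact_closedBall _ _)
  have hSK : S ⊆ closedBall (0 : ℂ) a ×ˢ closedBall (0 : ℂ) b := by
    rintro z ⟨_, h2, h3, _, _⟩
    exact ⟨mem_closedBall_zero_iff.2 h2, mem_closedBall_zero_iff.2 h3⟩
  obtain ⟨z₀, hz₀K, hacc⟩ := hinf.exists_accPt_of_subset_isCompact hK hSK
  have hz₀V := hab hz₀K
  have hx₀a : ‖z₀.1‖ ≤ a := mem_closedBall_zero_iff.1 hz₀K.1
  have hy₀b : ‖z₀.2‖ ≤ b := mem_closedBall_zero_iff.1 hz₀K.2
  -- the filter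
  set l : Filter (ℂ × ℂ) := nhdsWithin z₀ {z₀}ᶜ ⊓ Filter.principal S with hl
  have hne : l.NeBot := hacc
  have hlS : ∀ᶠ z in l, z ∈ S := by
    rw [hl]
    exact Filter.mem_inf_of_right (Filter.mem_principal_self S)
  have hl0 : ∀ᶠ z in l, z ≠ z₀ := by
    rw [hl]
    exact Filter.mem_inf_of_left self_mem_nhdsWithin
  have hln : l ≤ nhds z₀ := by
    rw [hl]
    exact inf_le_left.trans nhdsWithin_le_nhds
  have hGc : ContinuousAt G z₀ := (hG z₀ hz₀V).continuousAt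
  have hDc : ContinuousAt (fun z => fderiv ℂ G z (0, 1)) z₀ :=
    ((hG z₀ hz₀V).fderiv.continuousAt).clm_apply continuousAt_const
  have hSf : ∀ z ∈ S, fderiv ℂ G z (0, 1) = 0 := by
    intro z hz
    rw [← lzero_dy (hG z (hab (hSK hz)))]
    exact hz.2.2.2.2
  have hG0 : G z₀ = 0 := by
    have h1 : Filter.Tendsto G l (nhds (G z₀)) := hGc.tendsto.mono_left hln
    have h2 : Filter.Tendsto G l (nhds 0) := by
      apply tendsto_const_nhds.congr'
      filter_upwards [hlS] with z hz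
      exact hz.2.2.2.1.symm
    exact tendsto_nhds_unique h1 h2
  have hD0 : fderiv ℂ G z₀ (0, 1) = 0 := by
    have h1 : Filter.Tendsto (fun z => fderiv ℂ G z (0, 1)) l (nhds (fderiv ℂ G z₀ (0, 1))) :=
      hDc.tendsto.mono_left hln
    have h2 : Filter.Tendsto (fun z => fderiv ℂ G z (0, 1)) l (nhds 0) := by
      apply tendsto_const_nhds.congr'
      filter_upwards [hlS] with z hz
      exact (hSf z hz).symm
    exact tendsto_nhds_unique h1 h2
  have hr0 : r ≤ ‖z₀.1‖ := by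
    have h1 : Filter.Tendsto (fun z : ℂ × ℂ => ‖z.1‖) l (nhds ‖z₀.1‖) :=
      (continuous_fst.norm.tendsto z₀).mono_left hln
    apply ge_of_tendsto h1
    filter_upwards [hlS] with z hz
    exact hz.1
  -- partial derivative in the first variable
  have hdx : ∀ z : ℂ × ℂ, z ∈ V → r ≤ ‖z.1‖ → fderiv ℂ G z (0, 1) = 0 →
      fderiv ℂ G z (1, 0) ≠ 0 := by
    intro z hzV hzr hz1 hz2
    have hz0 : z ≠ 0 := by
      rintro rfl
      rw [Prod.fst_zero, norm_zero] at hzr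
      linarith
    apply hd z hzV hz0
    ext
    · simpa using hz2
    · simpa using hz1
  have hα := hdx z₀ hz₀V hr0 hD0
  set α := fderiv ℂ G z₀ (1, 0) with hαdef
  -- the local inverse
  have hΦ : AnalyticAt ℂ (fun z : ℂ × ℂ => (G z, z.2)) z₀ :=
    (hG z₀ hz₀V).prod analyticAt_snd
  set i : (ℂ × ℂ) ≃L[ℂ] (ℂ × ℂ) :=
    (ContinuousLinearEquiv.unitsEquivAut ℂ (Units.mk0 α hα)).prodCongr
      (ContinuousLinearEquiv.refl ℂ ℂ) with hi
  have hfdΦ : fderiv ℂ (fun z : ℂ × ℂ => (G z, z.2)) z₀ = (i : (ℂ × ℂ) →L[ℂ] (ℂ × ℂ)) := by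
    have h1 : HasFDerivAt (fun z : ℂ × ℂ => (G z, z.2))
        ((fderiv ℂ G z₀).prod (ContinuousLinearMap.snd ℂ ℂ ℂ)) z₀ :=
      ((hG z₀ hz₀V).differentiableAt.hasFDerivAt).prodMk hasFDerivAt_snd
    rw [h1.fderiv]
    ext
    · simp [hi, ← hαdef]
    · simp [hi]
    · simp [hi, hD0]
    · simp [hi]
  obtain ⟨R, hRs, hRe, hRa⟩ := lzero_inv hΦ i hfdΦ
  set y₀ := z₀.2 with hy₀
  have hΦ0 : (G z₀, z₀.2) = ((0 : ℂ), y₀) := by rw [hG0]
  rw [hΦ0] at hRa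
  -- the implicit function
  set h : ℂ → ℂ := fun y => (R.symm ((0 : ℂ), y)).1 with hh
  have hRa' : AnalyticAt ℂ (fun y : ℂ => R.symm ((0 : ℂ), y)) y₀ := by
    have h1 : AnalyticAt ℂ (fun y : ℂ => ((0 : ℂ), y)) y₀ := analyticAt_const.prod analyticAt_id
    exact AnalyticAt.comp (f := fun y : ℂ => ((0 : ℂ), y)) hRa h1
  have hha : AnalyticAt ℂ h y₀ := by
    exact (analyticAt_fst (𝕜 := ℂ) (E := ℂ) (F := ℂ)).comp hRa'
  have hRz : R.symm ((0 : ℂ), y₀) = z₀ := by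
    rw [← hΦ0]
    have h1 := R.left_inv hRs
    rw [hRe] at h1
    exact h1
  have hh0 : h y₀ = z₀.1 := by
    rw [hh]
    simp only
    rw [hRz]
  have htar : ∀ᶠ y in nhds y₀, ((0 : ℂ), y) ∈ R.target := by
    have h1 : ((0 : ℂ), y₀) ∈ R.target := by
      rw [← hΦ0]
      have := R.map_source hRs
      rw [hRe] at this
      exact this
    have h2 : ContinuousAt (fun y : ℂ => ((0 : ℂ), y)) y₀ := by fun_prop
    exact h2.eventually_mem (R.open_target.mem_nhds h1)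
  have hsnd : ∀ᶠ y in nhds y₀, R.symm ((0 : ℂ), y) = (h y, y) ∧ G (h y, y) = 0 := by
    filter_upwards [htar] with y hy
    have h1 := R.right_inv hy
    rw [hRe] at h1
    have h2 := (Prod.mk.inj h1).1
    have h3 := (Prod.mk.inj h1).2
    have h4 : R.symm ((0 : ℂ), y) = (h y, y) := by
      apply Prod.ext
      · rfl
      · exact h3
    refine ⟨h4, ?_⟩
    rw [← h4]
    exact h2
  have hcont : ContinuousAt (fun y : ℂ => (h y, y)) y₀ :=
    hha.continuousAt.prodMk continuousAt_id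
  have hVn : ∀ᶠ y in nhds y₀, (h y, y) ∈ V := by
    apply hcont.eventually_mem
    apply hV.mem_nhds
    rw [hh0]
    exact hz₀V
  -- derivative of the implicit equation
  have hder : ∀ᶠ y in nhds y₀, r ≤ ‖h y‖ → fderiv ℂ G (h y, y) (0, 1) = 0 → deriv h y = 0 := by
    filter_upwards [hsnd.eventually_nhds, hVn, hha.eventually_analyticAt] with y h1 h2 h3 h4 h5
    have e1 : HasFDerivAt G (fderiv ℂ G (h y, y)) (h y, y) :=
      (hG _ h2).differentiableAt.hasFDerivAt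
    have e2 : HasDerivAt (fun t : ℂ => (h t, t)) (deriv h y, (1 : ℂ)) y :=
      (h3.differentiableAt.hasDerivAt).prodMk (hasDerivAt_id y)
    have e3 : HasDerivAt (fun t : ℂ => G (h t, t)) (fderiv ℂ G (h y, y) (deriv h y, 1)) y :=
      HasFDerivAt.comp_hasDerivAt (f := fun t : ℂ => (h t, t)) y e1 e2
    have e4 : HasDerivAt (fun t : ℂ => G (h t, t)) 0 y := by
      apply (hasDerivAt_const y (0 : ℂ)).congr_of_eventuallyEq
      filter_upwards [h1] with t ht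
      exact ht.2
    have e5 := e3.unique e4
    have e6 : (deriv h y, (1 : ℂ)) = deriv h y • ((1 : ℂ), (0 : ℂ)) + ((0 : ℂ), (1 : ℂ)) := by
      simp
    rw [e6, map_add, map_smul, h5, add_zero, smul_eq_mul] at e5
    rcases mul_eq_zero.1 e5 with e7 | e7
    · exact e7
    · exact absurd e7 (hdx _ h2 h4 h5)
  -- points of S near z₀
  have hRl : ∀ᶠ z in l, z = (h z.2, z.2) := by
    have h1 : ∀ᶠ z in nhds z₀, z ∈ R.source := R.open_source.mem_nhds hRs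
    filter_upwards [hln h1, hlS] with z h2 h3
    have h4 := R.left_inv h2
    rw [hRe] at h4
    have h5 : (G z, z.2) = ((0 : ℂ), z.2) := by rw [h3.2.2.2.1]
    rw [h5] at h4
    apply Prod.ext
    · rw [hh]
      simp only
      rw [h4]
    · rfl
  have htend : Filter.Tendsto (fun z : ℂ × ℂ => z.2) l (nhdsWithin y₀ {y₀}ᶜ) := by
    rw [tendsto_nhdsWithin_iff]
    refine ⟨(continuous_snd.tendsto z₀).mono_left hln, ?_⟩
    filter_upwards [hRl, hl0] with z h1 h2 h3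
    apply h2
    rw [mem_singleton_iff] at h3
    rw [h1, h3, hh0]
  have hfreq : ∃ᶠ y in nhdsWithin y₀ {y₀}ᶜ, deriv h y = 0 := by
    apply htend.frequently
    apply Filter.Eventually.frequently
    have h1 : ∀ᶠ z in l, r ≤ ‖h z.2‖ → fderiv ℂ G (h z.2, z.2) (0, 1) = 0 → deriv h z.2 = 0 :=
      ((continuous_snd.tendsto z₀).mono_left hln).eventually hder
    filter_upwards [h1, hRl, hlS] with z h2 h3 h4
    apply h2
    · have := h4.1
      rw [h3] at this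
      exact this
    · have := hSf z h4
      rw [h3] at this
      exact this
  have hev : ∀ᶠ y in nhds y₀, deriv h y = 0 :=
    hha.deriv.frequently_zero_iff_eventually_zero.1 hfreq
  obtain ⟨ε, hε, hε'⟩ := Metric.eventually_nhds_iff_ball.1 (hev.and hha.eventually_analyticAt)
  have hconst : ∀ y ∈ ball y₀ ε, h y = z₀.1 := by
    intro y hy
    rw [← hh0]
    apply isOpen_ball.is_const_of_deriv_eq_zero (convex_ball y₀ ε).isPreconnected (𝕜 := ℂ)
      (fun t ht => ((hε' t ht).2.differentiableAt).differentiableWithinAt)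
      (fun t ht => (hε' t ht).1) hy (mem_ball_self hε)
  have hGev : ∀ᶠ y in nhds y₀, G (z₀.1, y) = 0 := by
    filter_upwards [hsnd, ball_mem_nhds y₀ hε] with y h1 h2
    rw [← hconst y h2]
    exact h1.2
  -- identity theorem
  have hga : AnalyticOnNhd ℂ (fun y : ℂ => G (z₀.1, y)) (closedBall 0 b) := by
    intro y hy
    have h1 : AnalyticAt ℂ G ((fun y : ℂ => (z₀.1, y)) y) := hG _ (hab ⟨hz₀K.1, hy⟩)
    exact AnalyticAt.comp (f := fun y : ℂ => (z₀.1, y)) h1 (analyticAt_const.prod analyticAt_id)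
  have h1 := hga.eqOn_zero_of_preconnected_of_eventuallyEq_zero
    (convex_closedBall (0 : ℂ) b).isPreconnected hz₀K.2 hGev
  have hbb : ‖(b : ℂ)‖ = b := by rw [Complex.norm_real, Real.norm_of_nonneg hb.le]
  have h2 := h1 (x := (b : ℂ)) (by rw [mem_closedBall_zero_iff, hbb])
  exact hfar z₀.1 b hx₀a (by rw [hbb]; linarith) hbb.le h2

end DD
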