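import Pool.Agent.Work.MP_dd1e4a_gt.LRad
import Pool.Agent.Work.MP_dd1e4a_gt.LZero
import Pool.Agent.Work.MP_dd1e4a_gt.LOne
import Pool.Agent.Work.MP_dd1e4a_gt.LPow
import Pool.Agent.Work.MP_dd1e4a_gt.LNewton
import Pool.Agent.Work.MP_dd1e4a_gt.Defs3

/-! # LMain: the local inequality for `∂_y G`

Start with `a₀, b, c₀, m₀` from `exists_radii` (`ρ = 1/4`). For `‖x‖ ≤ a₀` let `Z x` be the multiset of
`one_var` for `g = G (x, ·)` and `W x = (Z x).map (fun y => ∂_y G (x, y))`. The power sums of `W x`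
are the circle integrals of `power_holo` divided by `2πi` (`K = (∂_y G (x, ·))^k`), so
`newton_holo`: `card = n` is constant on `ball 0 a₀` and `R x = (W x).prod` is holomorphic.
`n ≥ 1` because `G (0, 0) = 0`, so `0 ∈ Z 0`. `R` is not identically zero near `0`: by
`zeros_finite` (with `r`, infinitely many `x` with `r ≤ ‖x‖ < a₀`) there are points with `R x ≠ 0`
(if `R x = 0` then some `y ∈ Z x` has `∂_y G (x, y) = 0`, `G (x, y) = 0`), use the identity theorem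
on `ball 0 a₀`. Hence `‖R x‖ ≥ c₁ ‖x‖ ^ ν` for `‖x‖ ≤ a₁ < a₀` (order of vanishing at `0`).
Let `B ≥ 1` bound `‖∂_y G‖` and be a Lipschitz constant of `∂_y G (x, ·)` on the closed bidisc.
For `y ∈ Z x`: `‖∂_y G (x,y)‖ ≥ c₁ ‖x‖^ν / B^(n-1)`.
Let `‖G (x, y)‖ ≤ c ‖x‖ ^ m`, `m = n ν + m₀`. By the last part of
`one_var`: `c₂ ∏_{z ∈ Z x} ‖y - z‖ ≤ ‖G (x, y)‖`, so some `z ∈ Z x` has
`‖y - z‖ ^ n ≤ c ‖x‖ ^ m / c₂ ≤ (c / c₂) ‖x‖^(nν)`, `‖y - z‖ ≤ (c/c₂)^(1/n) ‖x‖ ^ ν`, and then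
`‖∂_y G (x, y)‖ ≥ c₁‖x‖^ν/B^(n-1) - B (c/c₂)^(1/n) ‖x‖^ν ≥ c ‖x‖^ν ≥ c ‖x‖ ^ m` for small `c`.
`far`, `low` for larger `m`, smaller `c`: monotone because `‖y‖ ≤ 1` (`Loc2.mono`-like). `root`:
`Z x ≠ 0` as `n ≥ 1`. -/

open Metric Set

namespace DD

private theorem LMain_order {R : ℂ → ℂ} {a : ℝ} (ha : 0 < a) (hR : DifferentiableOn ℂ R (ball 0 a))
    (hne : ∃ x ∈ ball (0 : ℂ) a, R x ≠ 0) :
    ∃ c a₁ : ℝ, ∃ ν : ℕ, 0 < c ∧ 0 < a₁ ∧ a₁ < a ∧ ∀ x : ℂ, ‖x‖ ≤ a₁ → c * ‖x‖ ^ ν ≤ ‖R x‖ := by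
  have hA : AnalyticOnNhd ℂ R (ball 0 a) := hR.analyticOnNhd isOpen_ball
  have h0 : (0 : ℂ) ∈ ball (0 : ℂ) a := by simpa using ha
  have hnz : ¬ ∀ᶠ z in nhds (0 : ℂ), R z = 0 := by
    intro h
    have := hA.eqOn_zero_of_preconnected_of_eventuallyEq_zero
      (convex_ball (0 : ℂ) a).isPreconnected h0 h
    obtain ⟨x, hx, hx2⟩ := hne
    exact hx2 (this hx)
  obtain ⟨ν, g, hg, hg0, hgR⟩ :=
    (hA 0 h0).exists_eventuallyEq_pow_smul_nonzero_iff.mpr hnz
  have hgc : ∀ᶠ z in nhds (0 : ℂ), ‖g 0‖ / 2 < ‖g z‖ := by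
    have h1 : Filter.Tendsto (fun z => ‖g z‖) (nhds 0) (nhds ‖g 0‖) :=
      (hg.continuousAt.norm)
    have h2 : ‖g 0‖ / 2 < ‖g 0‖ := by
      have := norm_pos_iff.mpr hg0
      linarith
    exact h1.eventually (lt_mem_nhds h2)
  obtain ⟨r, hr, hr2⟩ := Metric.eventually_nhds_iff_ball.mp (hgR.and hgc)
  refine ⟨‖g 0‖ / 2, min (r / 2) (a / 2), ν, ?_, ?_, ?_, ?_⟩
  · have := norm_pos_iff.mpr hg0
    linarith
  · positivity
  · exact lt_of_le_of_lt (min_le_right _ _) (by linarith)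
  · intro x hx
    have hxr : x ∈ ball (0 : ℂ) r := by
      rw [mem_ball_zero_iff]
      exact lt_of_le_of_lt (hx.trans (min_le_left _ _)) (by linarith)
    obtain ⟨h1, h2⟩ := hr2 x hxr
    rw [h1, norm_smul, norm_pow, sub_zero, mul_comm]
    exact mul_le_mul_of_nonneg_left h2.le (by positivity)

private theorem LMain_prod_le {f : ℂ → ℝ} {B : ℝ} (hB : 1 ≤ B) (Z : Multiset ℂ)
    (h : ∀ z ∈ Z, 0 ≤ f z ∧ f z ≤ B) :
    0 ≤ (Z.map f).prod ∧ (Z.map f).prod ≤ B ^ Multiset.card Z := by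
  induction Z using Multiset.induction with
  | empty => simp
  | cons a s ih =>
    have ih' := ih (fun z hz => h z (Multiset.mem_cons_of_mem hz))
    have ha := h a (Multiset.mem_cons_self a s)
    rw [Multiset.map_cons, Multiset.prod_cons, Multiset.card_cons, pow_succ, mul_comm (B ^ _)]
    exact ⟨mul_nonneg ha.1 ih'.1, mul_le_mul ha.2 ih'.2 ih'.1 (by linarith)⟩

private theorem LMain_pow_le {f : ℂ → ℝ} {δ : ℝ} (hδ : 0 ≤ δ) (Z : Multiset ℂ)
    (h : ∀ z ∈ Z, δ ≤ f z) : δ ^ Multiset.card Z ≤ (Z.map f).prod := by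
  induction Z using Multiset.induction with
  | empty => simp
  | cons a s ih =>
    have ih' := ih (fun z hz => h z (Multiset.mem_cons_of_mem hz))
    have ha := h a (Multiset.mem_cons_self a s)
    rw [Multiset.map_cons, Multiset.prod_cons, Multiset.card_cons, pow_succ, mul_comm (δ ^ _)]
    exact mul_le_mul ha ih' (by positivity) (hδ.trans ha)

private theorem LMain_deriv {G : ℂ × ℂ → ℂ} {V : Set (ℂ × ℂ)} (hG : AnalyticOnNhd ℂ G V)
    {x y : ℂ} (h : (x, y) ∈ V) :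
    deriv (fun t => G (x, t)) y = fderiv ℂ G (x, y) (0, 1) := by
  have h1 : HasFDerivAt G (fderiv ℂ G (x, y)) (x, y) :=
    (hG _ h).differentiableAt.hasFDerivAt
  have h2 : HasDerivAt (fun t : ℂ => (x, t)) ((0 : ℂ), (1 : ℂ)) y :=
    (hasDerivAt_const y _).prodMk (hasDerivAt_id y)
  exact (h1.comp_hasDerivAt y h2).deriv

private theorem LMain_lip {G : ℂ × ℂ → ℂ} {V : Set (ℂ × ℂ)}
    (hG : AnalyticOnNhd ℂ G V) {a b : ℝ}
    (hab : closedBall (0 : ℂ) a ×ˢ closedBall (0 : ℂ) b ⊆ V) :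
    ∃ B : ℝ, 1 ≤ B ∧ ∀ x y y' : ℂ, ‖x‖ ≤ a → ‖y‖ ≤ b → ‖y'‖ ≤ b →
      ‖deriv (fun t => G (x, t)) y‖ ≤ B ∧
      ‖deriv (fun t => G (x, t)) y - deriv (fun t => G (x, t)) y'‖ ≤ B * ‖y - y'‖ := by
  set D : ℂ × ℂ → ℂ := fun z => fderiv ℂ G z (0, 1) with hD
  have hDan : AnalyticOnNhd ℂ D V := by
    intro z hz
    exact (ContinuousLinearMap.analyticAt
      (ContinuousLinearMap.apply ℂ ℂ ((0 : ℂ), (1 : ℂ))) _).comp (hG.fderiv z hz)
  have hK : IsCompact (closedBall (0 : ℂ) a ×ˢ closedBall (0 : ℂ) b) :=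
    (isCompact_closedBall _ _).prod (isCompact_closedBall _ _)
  obtain ⟨B1, hB1⟩ := hK.exists_bound_of_continuousOn (hDan.continuousOn.mono hab)
  have hD2 : ContinuousOn (fun z => fderiv ℂ D z (0, 1)) V :=
    hDan.fderiv.continuousOn.clm_apply continuousOn_const
  obtain ⟨B2, hB2⟩ := hK.exists_bound_of_continuousOn (hD2.mono hab)
  have hmem : ∀ x y : ℂ, ‖x‖ ≤ a → ‖y‖ ≤ b → (x, y) ∈ closedBall (0 : ℂ) a ×ˢ closedBall (0 : ℂ) b :=
    fun x y hx hy => ⟨by simpa using hx, by simpa using hy⟩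
  refine ⟨max 1 (max B1 B2), le_max_left _ _, ?_⟩
  intro x y y' hx hy hy'
  have h1 : ∀ t : ℂ, ‖t‖ ≤ b → deriv (fun t => G (x, t)) t = D (x, t) :=
    fun t ht => LMain_deriv hG (hab (hmem x t hx ht))
  rw [h1 y hy, h1 y' hy']
  refine ⟨(hB1 _ (hmem x y hx hy)).trans ((le_max_left _ _).trans (le_max_right _ _)), ?_⟩
  have h2 : ∀ t ∈ closedBall (0 : ℂ) b, HasDerivWithinAt (fun t => D (x, t))
      (fderiv ℂ D (x, t) (0, 1)) (closedBall (0 : ℂ) b) t := by
    intro t ht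
    have h3 := hab (hmem x t hx (by simpa using ht))
    have h4 : HasFDerivAt D (fderiv ℂ D (x, t)) (x, t) :=
      (hDan _ h3).differentiableAt.hasFDerivAt
    have h5 : HasDerivAt (fun t : ℂ => (x, t)) ((0 : ℂ), (1 : ℂ)) t :=
      (hasDerivAt_const t _).prodMk (hasDerivAt_id t)
    exact (h4.comp_hasDerivAt t h5).hasDerivWithinAt
  have h6 := (convex_closedBall (0 : ℂ) b).norm_image_sub_le_of_norm_hasDerivWithin_le h2
    (fun t ht => hB2 _ (hmem x t hx (by simpa using ht)))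
    (by simpa using hy' : y' ∈ closedBall (0 : ℂ) b) (by simpa using hy : y ∈ closedBall (0 : ℂ) b)
  exact h6.trans (mul_le_mul_of_nonneg_right ((le_max_right _ _).trans (le_max_right _ _))
    (norm_nonneg _))

theorem loc_main {G : ℂ × ℂ → ℂ} {V : Set (ℂ × ℂ)} (hV : IsOpen V) (h0 : (0 : ℂ × ℂ) ∈ V)
    (hG : AnalyticOnNhd ℂ G V) (hG0 : G 0 = 0) (hd : ∀ z ∈ V, z ≠ 0 → fderiv ℂ G z ≠ 0)
    (hy : ¬ ∀ᶠ y in nhds (0 : ℂ), G (0, y) = 0) :
    ∃ a b c : ℝ, ∃ m : ℕ, Loc2 G a b c m ∧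
      closedBall (0 : ℂ) a ×ˢ closedBall (0 : ℂ) b ⊆ V := by
  obtain ⟨a₀, b, c₀, m₀, ha₀, ha₀', hb, hb', hc₀, hc₀', hm₀, hsub, hfar, hlow⟩ :=
    exists_radii hV h0 hG hG0 hy (ρ := 1 / 4) (by norm_num)
  have hmemV : ∀ x y : ℂ, ‖x‖ ≤ a₀ → ‖y‖ ≤ b → (x, y) ∈ V := by
    intro x y hx hy
    exact hsub ⟨by simpa using hx, by simpa using hy⟩
  have hfar0 : ∀ x y : ℂ, ‖x‖ ≤ a₀ → b / 2 ≤ ‖y‖ → ‖y‖ ≤ b → G (x, y) ≠ 0 := by
    intro x y hx hy1 hy2 h
    have := hfar x y hx hy1 hy2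
    rw [h, norm_zero] at this
    linarith
  -- the roots
  have hgx : ∀ x : ℂ, ‖x‖ ≤ a₀ → AnalyticOnNhd ℂ (fun y => G (x, y)) (closedBall 0 b) := by
    intro x hx y hy
    have h1 : AnalyticAt ℂ (fun t : ℂ => (x, t)) y := analyticAt_const.prod analyticAt_id
    exact (hG (x, y) (hmemV x y hx (by simpa using hy))).comp h1
  have hDx : ∀ x : ℂ, ‖x‖ ≤ a₀ →
      AnalyticOnNhd ℂ (fun y => deriv (fun t => G (x, t)) y) (closedBall 0 b) := by
    intro x hx
    exact (hgx x hx).deriv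
  have hex : ∀ x : ℂ, ∃ Z : Multiset ℂ, ‖x‖ ≤ a₀ →
      ((∀ z ∈ Z, ‖z‖ < b / 2 ∧ G (x, z) = 0) ∧
      (∀ y : ℂ, ‖y‖ ≤ b → G (x, y) = 0 → y ∈ Z) ∧
      (∀ K : ℂ → ℂ, AnalyticOnNhd ℂ K (closedBall 0 b) →
        (∮ y in C(0, b), K y * (deriv (fun t => G (x, t)) y / G (x, y))) =
          2 * Real.pi * Complex.I * (Z.map K).sum) ∧
      (∀ c : ℝ, 0 < c → (∀ y : ℂ, ‖y‖ = b → c ≤ ‖G (x, y)‖) →
        ∀ y : ℂ, ‖y‖ ≤ b →
          c / (2 * b) ^ Multiset.card Z * (Z.map (fun z => ‖y - z‖)).prod ≤ ‖G (x, y)‖)) := by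
    intro x
    by_cases hx : ‖x‖ ≤ a₀
    · obtain ⟨Z, hZ⟩ := one_var hb (hgx x hx) (fun y hy1 hy2 => hfar0 x y hx hy1 hy2)
      exact ⟨Z, fun _ => hZ⟩
    · exact ⟨0, fun h => absurd h hx⟩
  choose Z hZ using hex
  set W : ℂ → Multiset ℂ := fun x => (Z x).map (fun y => deriv (fun t => G (x, t)) y) with hW
  have hpi : (2 * (Real.pi : ℂ) * Complex.I) ≠ 0 := by
    simp [Real.pi_ne_zero]
  have hpow : ∀ k : ℕ, DifferentiableOn ℂ (fun x => ((W x).map (fun w => w ^ k)).sum)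
      (ball 0 a₀) := by
    intro k
    have h1 := (power_holo hV hG hb hsub
      (fun x y hx hy => hfar0 x y hx (by linarith) hy.le) k).const_smul
      ((2 * (Real.pi : ℂ) * Complex.I)⁻¹)
    refine h1.congr ?_
    intro x hx
    have hx' : ‖x‖ ≤ a₀ := by
      rw [mem_ball_zero_iff] at hx
      exact hx.le
    have h2 := (hZ x hx').2.2.1 (fun y => (deriv (fun t => G (x, t)) y) ^ k)
      (fun y hy => (hDx x hx' y hy).pow k)
    rw [hW]
    simp only [Multiset.map_map, Function.comp_def, Pi.smul_apply, smul_eq_mul]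
    rw [h2, ← mul_assoc, inv_mul_cancel₀ hpi, one_mul]
  obtain ⟨⟨n, hn⟩, hR⟩ := newton_holo ha₀ hpow
  have hcard : ∀ x ∈ ball (0 : ℂ) a₀, Multiset.card (Z x) = n := by
    intro x hx
    have := hn x hx
    rwa [hW, Multiset.card_map] at this
  have h00 : (0 : ℂ) ∈ ball (0 : ℂ) a₀ := by simpa using ha₀
  have hn1 : 1 ≤ n := by
    have h1 : (0 : ℂ) ∈ Z 0 := (hZ 0 (by simpa using ha₀.le)).2.1 0 (by simpa using hb.le) hG0
    rw [← hcard 0 h00]
    exact Multiset.card_pos_iff_exists_mem.mpr ⟨0, h1⟩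
  -- the product is not identically zero
  have hRne : ∃ x ∈ ball (0 : ℂ) a₀, (W x).prod ≠ 0 := by
    by_contra hcon
    push Not at hcon
    have hfin := zeros_finite hV hG hd hb hsub hfar0 (r := a₀ / 2) (by linarith)
    have hfin2 := hfin.image Prod.fst
    have hinf : (Set.Ico (a₀ / 2) a₀).Infinite := Set.Ico_infinite (by linarith)
    have hinj : Set.InjOn (fun t : ℝ => (t : ℂ)) (Set.Ico (a₀ / 2) a₀) :=
      fun s _ t _ h => Complex.ofReal_injective h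
    refine (hinf.image hinj) (hfin2.subset ?_)
    rintro _ ⟨t, ht, rfl⟩
    have htn : ‖(t : ℂ)‖ = t := by
      rw [Complex.norm_real, Real.norm_of_nonneg (by linarith [ht.1])]
    have htb : (t : ℂ) ∈ ball (0 : ℂ) a₀ := by
      rw [mem_ball_zero_iff, htn]; exact ht.2
    have h1 := hcon (t : ℂ) htb
    rw [Multiset.prod_eq_zero_iff] at h1
    obtain ⟨y, hy1, hy2⟩ := Multiset.mem_map.mp h1
    have htle : ‖(t : ℂ)‖ ≤ a₀ := by rw [htn]; exact ht.2.le
    obtain ⟨h3, h4⟩ := (hZ (t : ℂ) htle).1 y hy1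
    refine ⟨((t : ℂ), y), ⟨?_, htle, ?_, h4, hy2⟩, rfl⟩
    · rw [htn]; exact ht.1
    · linarith
  obtain ⟨c₁, a₁, ν, hc₁, ha₁, ha₁', hRlow⟩ := LMain_order ha₀ hR hRne
  obtain ⟨B, hB1, hB⟩ := LMain_lip hG hsub
  have hBpos : 0 < B := by linarith
  set κ : ℝ := c₁ / B ^ (n - 1) with hκ
  have hκpos : 0 < κ := by positivity
  set η : ℝ := κ / (2 * B) with hη
  have hηpos : 0 < η := by positivity
  set c₂ : ℝ := c₀ / (2 * b) ^ n with hc₂
  have hc₂pos : 0 < c₂ := by positivity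
  set c : ℝ := min c₀ (min (c₂ * η ^ n / 2) (κ / 2)) with hc
  have hcpos : 0 < c := by
    refine lt_min hc₀ (lt_min (by positivity) (by positivity))
  have hcc0 : c ≤ c₀ := min_le_left _ _
  have hcc2 : c ≤ c₂ * η ^ n / 2 := (min_le_right _ _).trans (min_le_left _ _)
  have hcκ : c ≤ κ / 2 := (min_le_right _ _).trans (min_le_right _ _)
  set m : ℕ := n * ν + m₀ with hm
  have hmν : ν ≤ m := by
    rw [hm]
    have : 1 * ν ≤ n * ν := Nat.mul_le_mul_right _ hn1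
    omega
  have hball1 : ∀ x : ℂ, ‖x‖ ≤ a₁ → x ∈ ball (0 : ℂ) a₀ := by
    intro x hx
    rw [mem_ball_zero_iff]; linarith
  refine ⟨a₁, b, c, m, ?_, ?_⟩
  · refine ⟨ha₁, by linarith, hb, hb', hcpos, by linarith, by omega, ?_, ?_, ?_, ?_⟩
    · intro x y hx hy1 hy2
      exact hcc0.trans (hfar x y (by linarith) hy1 hy2)
    · intro x y hx hy
      have h1 := hlow x y (by linarith) hy
      have h2 : c * ‖y‖ ^ m ≤ c₀ * ‖y‖ ^ m₀ := by
        refine mul_le_mul hcc0 ?_ (by positivity) hc₀.le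
        exact pow_le_pow_of_le_one (norm_nonneg _) (by linarith) (by omega)
      have h3 : ‖x‖ / c₀ ≤ ‖x‖ / c := div_le_div_of_nonneg_left (norm_nonneg _) hcpos hcc0
      linarith
    · intro x y hx hy hxy
      by_cases hx0 : x = 0
      · rw [hx0, norm_zero, zero_pow (by omega), mul_zero]
        exact norm_nonneg _
      have hxpos : 0 < ‖x‖ := norm_pos_iff.mpr hx0
      have hx₀ : ‖x‖ ≤ a₀ := by linarith
      have hxball := hball1 x hx
      have hZx := hZ x hx₀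
      have hcx := hcard x hxball
      have hx1 : ‖x‖ ≤ 1 := by linarith
      -- lower bound at the roots
      have hroot : ∀ z ∈ Z x, κ * ‖x‖ ^ ν ≤ ‖deriv (fun t => G (x, t)) z‖ := by
        intro z hz
        have h1 := hRlow x hx
        have h2 : ‖(W x).prod‖ = ((Z x).map (fun y => ‖deriv (fun t => G (x, t)) y‖)).prod := by
          have : ∀ S : Multiset ℂ, ‖S.prod‖ = (S.map (fun w => ‖w‖)).prod := by
            intro S
            induction S using Multiset.induction with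
            | empty => simp
            | cons a s ih => simp [ih]
          rw [this, hW, Multiset.map_map]
          rfl
        rw [h2, ← Multiset.cons_erase hz, Multiset.map_cons, Multiset.prod_cons] at h1
        have h3 := LMain_prod_le (f := fun y => ‖deriv (fun t => G (x, t)) y‖) hB1
          ((Z x).erase z) (by
            intro w hw
            refine ⟨norm_nonneg _, ?_⟩
            have hw2 := (hZx.1 w (Multiset.mem_of_mem_erase hw)).1
            exact (hB x w w hx₀ (by linarith) (by linarith)).1)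
        have hce : Multiset.card ((Z x).erase z) = n - 1 := by
          rw [Multiset.card_erase_of_mem hz, hcx]
          rfl
        rw [hce] at h3
        have h4 : c₁ * ‖x‖ ^ ν ≤ ‖deriv (fun t => G (x, t)) z‖ * B ^ (n - 1) :=
          h1.trans (mul_le_mul_of_nonneg_left h3.2 (norm_nonneg _))
        rw [hκ, div_mul_eq_mul_div, div_le_iff₀ (by positivity)]
        exact h4
      -- a root near y
      have hnear : ∃ z ∈ Z x, ‖y - z‖ ≤ η * ‖x‖ ^ ν := by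
        by_contra hcon
        push Not at hcon
        have h1 := LMain_pow_le (f := fun z => ‖y - z‖) (δ := η * ‖x‖ ^ ν) (by positivity) (Z x)
          (fun z hz => (hcon z hz).le)
        have h2 := hZx.2.2.2 c₀ hc₀ (fun t ht => hfar x t hx₀ (by linarith) ht.le) y hy
        rw [hcx] at h1 h2
        have h3 : c₂ * (η * ‖x‖ ^ ν) ^ n ≤ c * ‖x‖ ^ m :=
          (mul_le_mul_of_nonneg_left h1 hc₂pos.le).trans (h2.trans hxy)
        have h4 : ‖x‖ ^ m ≤ ‖x‖ ^ (ν * n) := by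
          refine pow_le_pow_of_le_one (norm_nonneg _) hx1 ?_
          rw [hm, mul_comm ν n]; omega
        have h5 : c * ‖x‖ ^ m ≤ c₂ * η ^ n / 2 * ‖x‖ ^ (ν * n) :=
          mul_le_mul hcc2 h4 (by positivity) (by positivity)
        rw [mul_pow, ← pow_mul] at h3
        have h6 : 0 < c₂ * η ^ n * ‖x‖ ^ (ν * n) := by positivity
        nlinarith
      obtain ⟨z, hz, hyz⟩ := hnear
      have hzb := (hZx.1 z hz).1
      have h1 := hroot z hz
      have h2 := (hB x y z hx₀ hy (by linarith)).2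
      have h3 : ‖deriv (fun t => G (x, t)) z‖ ≤ ‖deriv (fun t => G (x, t)) y‖ +
          ‖deriv (fun t => G (x, t)) y - deriv (fun t => G (x, t)) z‖ := by
        have := norm_sub_le (deriv (fun t => G (x, t)) y)
          (deriv (fun t => G (x, t)) y - deriv (fun t => G (x, t)) z)
        simpa using this
      have h4 : B * ‖y - z‖ ≤ κ / 2 * ‖x‖ ^ ν := by
        calc B * ‖y - z‖ ≤ B * (η * ‖x‖ ^ ν) := mul_le_mul_of_nonneg_left hyz hBpos.le
          _ = κ / 2 * ‖x‖ ^ ν := by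
            rw [hη]; field_simp
      have h5 : c * ‖x‖ ^ m ≤ κ / 2 * ‖x‖ ^ ν :=
        mul_le_mul hcκ (pow_le_pow_of_le_one (norm_nonneg _) hx1 hmν) (by positivity)
          (by positivity)
      linarith
    · intro x hx
      have hcx := hcard x (hball1 x hx)
      have : 0 < Multiset.card (Z x) := by omega
      obtain ⟨y, hy1⟩ := Multiset.card_pos_iff_exists_mem.mp this
      obtain ⟨h1, h2⟩ := (hZ x (by linarith)).1 y hy1
      exact ⟨y, by linarith, h2⟩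
  · refine (Set.prod_mono (closedBall_subset_closedBall ha₁'.le) (subset_refl _)).trans hsub

theorem Loc2.mono {G : ℂ × ℂ → ℂ} {a b c a' c' : ℝ} {m m' : ℕ} (h : Loc2 G a b c m)
    (ha : 0 < a') (haa : a' ≤ a) (hc : 0 < c') (hcc : c' ≤ c) (hm : m ≤ m') :
    Loc2 G a' b c' m' := by
  obtain ⟨a_pos, a_le, b_pos, b_le, c_pos, c_le, m_pos, far, low, der, root⟩ := h
  refine ⟨ha, by linarith, b_pos, b_le, hc, by linarith, by omega, ?_, ?_, ?_, ?_⟩
  · intro x y hx hy1 hy2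
    exact hcc.trans (far x y (by linarith) hy1 hy2)
  · intro x y hx hy
    have h1 := low x y (by linarith) hy
    have h2 : c' * ‖y‖ ^ m' ≤ c * ‖y‖ ^ m := by
      refine mul_le_mul hcc ?_ (by positivity) c_pos.le
      exact pow_le_pow_of_le_one (norm_nonneg _) (by linarith) hm
    have h3 : ‖x‖ / c ≤ ‖x‖ / c' := div_le_div_of_nonneg_left (norm_nonneg _) hc hcc
    linarith
  · intro x y hx hy hxy
    have h1 : c' * ‖x‖ ^ m' ≤ c * ‖x‖ ^ m := by
      refine mul_le_mul hcc ?_ (by positivity) c_pos.le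
      exact pow_le_pow_of_le_one (norm_nonneg _) (by linarith) hm
    exact h1.trans (der x y (by linarith) hy (hxy.trans h1))
  · intro x hx
    exact root x (by linarith)

end DD
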