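import Mathlib

/-! # LRad: choice of the polydisc -/

open Metric Set

namespace DD

theorem exists_radii {G : ℂ × ℂ → ℂ} {V : Set (ℂ × ℂ)} (hV : IsOpen V) (h0 : (0 : ℂ × ℂ) ∈ V)
    (hG : AnalyticOnNhd ℂ G V) (hG0 : G 0 = 0)
    (hy : ¬ ∀ᶠ y in nhds (0 : ℂ), G (0, y) = 0) {ρ : ℝ} (hρ : 0 < ρ) :
    ∃ a b c : ℝ, ∃ m : ℕ, 0 < a ∧ a ≤ ρ ∧ 0 < b ∧ b ≤ ρ ∧ 0 < c ∧ c ≤ 1 ∧ 1 ≤ m ∧
      closedBall (0 : ℂ) a ×ˢ closedBall (0 : ℂ) b ⊆ V ∧
      (∀ x y : ℂ, ‖x‖ ≤ a → b / 2 ≤ ‖y‖ → ‖y‖ ≤ b → c ≤ ‖G (x, y)‖) ∧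
      (∀ x y : ℂ, ‖x‖ ≤ a → ‖y‖ ≤ b → c * ‖y‖ ^ m ≤ ‖G (x, y)‖ + ‖x‖ / c) := by
  -- the one variable function
  have hg : AnalyticAt ℂ (fun y : ℂ => G (0, y)) 0 := by
    have h1 : AnalyticAt ℂ G ((fun y : ℂ => ((0 : ℂ), y)) 0) := hG _ h0
    exact h1.comp (AnalyticAt.prod analyticAt_const analyticAt_id)
  obtain ⟨m, g₁, hg₁, hg₁0, hev⟩ := hg.exists_eventuallyEq_pow_smul_nonzero_iff.2 hy
  have hm : 1 ≤ m := by
    rcases Nat.eq_zero_or_pos m with h | h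
    · exfalso
      subst h
      have h1 := hev.self_of_nhds
      simp only [sub_self, pow_zero, one_smul] at h1
      apply hg₁0
      rw [← h1]
      exact hG0
    · exact h
  set c₀ : ℝ := ‖g₁ 0‖ / 2 with hc₀
  have hc₀pos : 0 < c₀ := by
    have := norm_pos_iff.2 hg₁0
    positivity
  have hev2 : ∀ᶠ y in nhds (0 : ℂ), c₀ * ‖y‖ ^ m ≤ ‖G (0, y)‖ := by
    have h1 : ∀ᶠ y in nhds (0 : ℂ), c₀ < ‖g₁ y‖ := by
      have h2 : Filter.Tendsto (fun y => ‖g₁ y‖) (nhds 0) (nhds ‖g₁ 0‖) :=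
        hg₁.continuousAt.norm
      apply h2.eventually_const_lt
      rw [hc₀]
      have := norm_pos_iff.2 hg₁0
      linarith
    filter_upwards [h1, hev] with y h2 h3
    rw [h3, sub_zero, smul_eq_mul, norm_mul, norm_pow, mul_comm]
    exact mul_le_mul_of_nonneg_left h2.le (by positivity)
  obtain ⟨r₁, hr₁, hr₁'⟩ := Metric.eventually_nhds_iff_ball.1 hev2
  obtain ⟨r₂, hr₂, hr₂'⟩ := Metric.isOpen_iff.1 hV 0 h0
  -- the radius
  set r : ℝ := min (min (r₁ / 2) (r₂ / 2)) ρ with hr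
  have hr0 : 0 < r := by
    rw [hr]
    positivity
  have hrr₁ : r < r₁ := by
    have h1 : r ≤ r₁ / 2 := (min_le_left _ _).trans (min_le_left _ _)
    linarith
  have hrr₂ : r < r₂ := by
    have h1 : r ≤ r₂ / 2 := (min_le_left _ _).trans (min_le_right _ _)
    linarith
  have hrρ : r ≤ ρ := min_le_right _ _
  have hKV : closedBall (0 : ℂ × ℂ) r ⊆ V := (closedBall_subset_ball hrr₂).trans hr₂'
  -- Lipschitz constant
  have hcomp : IsCompact (closedBall (0 : ℂ × ℂ) r) := isCompact_closedBall _ _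
  have hcont : ContinuousOn (fun z => ‖fderiv ℂ G z‖) (closedBall (0 : ℂ × ℂ) r) := by
    intro z hz
    exact ((hG z (hKV hz)).fderiv.continuousAt.norm).continuousWithinAt
  obtain ⟨L₁, hL₁⟩ := hcomp.bddAbove_image hcont
  set L : ℝ := max L₁ 1 with hL
  have hL1 : 1 ≤ L := le_max_right _ _
  have hlip : ∀ x y : ℂ, ‖x‖ ≤ r → ‖y‖ ≤ r → ‖G (x, y) - G (0, y)‖ ≤ L * ‖x‖ := by
    intro x y hx hy'
    have h1 := (convex_closedBall (0 : ℂ × ℂ) r).norm_image_sub_le_of_norm_fderiv_le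
      (f := G) (𝕜 := ℂ) (C := L) (x := ((0 : ℂ), y)) (y := (x, y))
      (fun z hz => (hG z (hKV hz)).differentiableAt)
      (fun z hz => (hL₁ (mem_image_of_mem _ hz)).trans (le_max_left _ _))
      (by
        rw [mem_closedBall_zero_iff, Prod.norm_def]
        exact max_le (by simpa using hr0.le) hy')
      (by
        rw [mem_closedBall_zero_iff, Prod.norm_def]
        exact max_le hx hy')
    refine h1.trans (le_of_eq ?_)
    congr 1
    simp [Prod.norm_def]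
  -- constants
  set c₁ : ℝ := c₀ * (r / 2) ^ m with hc₁
  have hc₁pos : 0 < c₁ := by positivity
  set a : ℝ := min r (c₁ / (2 * L)) with ha
  have ha0 : 0 < a := by
    rw [ha]
    positivity
  have har : a ≤ r := min_le_left _ _
  have haL : L * a ≤ c₁ / 2 := by
    have h1 : a ≤ c₁ / (2 * L) := min_le_right _ _
    calc L * a ≤ L * (c₁ / (2 * L)) := by gcongr
      _ = c₁ / 2 := by field_simp
  set c : ℝ := min (min 1 c₀) (min (1 / L) (c₁ / 2)) with hc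
  have hc0 : 0 < c := by
    rw [hc]
    positivity
  have hc1 : c ≤ 1 := (min_le_left _ _).trans (min_le_left _ _)
  have hcc₀ : c ≤ c₀ := (min_le_left _ _).trans (min_le_right _ _)
  have hcL : c ≤ 1 / L := (min_le_right _ _).trans (min_le_left _ _)
  have hcc₁ : c ≤ c₁ / 2 := (min_le_right _ _).trans (min_le_right _ _)
  have hlow : ∀ y : ℂ, ‖y‖ ≤ r → c₀ * ‖y‖ ^ m ≤ ‖G (0, y)‖ := by
    intro y hy'
    apply hr₁'
    rw [mem_ball_zero_iff]
    linarith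
  refine ⟨a, r, c, m, ha0, har.trans hrρ, hr0, hrρ, hc0, hc1, hm, ?_, ?_, ?_⟩
  · rintro ⟨x, y⟩ ⟨hx, hy'⟩
    apply hKV
    rw [mem_closedBall_zero_iff] at hx hy' ⊢
    rw [Prod.norm_def]
    exact max_le (hx.trans har) hy'
  · intro x y hx hy1 hy2
    have h1 := hlip x y (hx.trans har) hy2
    have h2 := hlow y hy2
    have h3 : c₁ ≤ c₀ * ‖y‖ ^ m := by
      rw [hc₁]
      gcongr
    have h4 : ‖G (0, y)‖ ≤ ‖G (x, y)‖ + ‖G (x, y) - G (0, y)‖ := by
      have := norm_sub_norm_le (G (0, y)) (G (x, y))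
      rw [norm_sub_rev (G (x, y))]
      linarith
    have h5 : L * ‖x‖ ≤ L * a := by gcongr
    linarith
  · intro x y hx hy2
    have h1 := hlip x y (hx.trans har) hy2
    have h2 := hlow y hy2
    have h4 : ‖G (0, y)‖ ≤ ‖G (x, y)‖ + ‖G (x, y) - G (0, y)‖ := by
      have := norm_sub_norm_le (G (0, y)) (G (x, y))
      rw [norm_sub_rev (G (x, y))]
      linarith
    have h5 : L * ‖x‖ ≤ ‖x‖ / c := by
      rw [le_div_iff₀ hc0]
      have h6 : L * c ≤ 1 := by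
        calc L * c ≤ L * (1 / L) := by gcongr
          _ = 1 := by field_simp
      calc L * ‖x‖ * c = (L * c) * ‖x‖ := by ring
        _ ≤ 1 * ‖x‖ := by gcongr
        _ = ‖x‖ := one_mul _
    have h6 : c * ‖y‖ ^ m ≤ c₀ * ‖y‖ ^ m := by gcongr
    linarith

end DD
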