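import Pool.Agent.Work.MP_dd1e4a_gt.LMain
import Pool.Agent.Work.MP_dd1e4a_gt.LDir
import Pool.Agent.Work.MP_dd1e4a_gt.BoxEx

/-! # LocX: local coordinates at a critical point

`e₀ = chartAt C2 p`, `F z = f (e₀.symm (e₀ p + z))`, analytic on the open set
`V = {z | e₀ p + z ∈ e₀.target, e₀.symm (e₀ p + z) ∈ O, no critical point except p}` (`Crit f` is
finite, so `O \ (Crit f \ {p})` is open); `fderiv F z ≠ 0` for `z ∈ V`, `z ≠ 0`, because `e₀` is a
biholomorphic chart (`mfderiv` of `f` in the chart). `exists_direction` gives `A`; put `G = F ∘ A`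
(`fderiv G z = fderiv F (A z) ∘ A ≠ 0`), `loc_main` gives `a, b, c, m`, and
`e = e₀` (restricted to the open set `{x ∈ O, x ∉ Crit f \ {p}}`) followed by the translation
`z ↦ z - e₀ p` and `A⁻¹`; then `f (e.symm z) = G z` on `e.target ⊇ closedBall a ×ˢ closedBall b`.
`LocProps.mono`: as `Loc2.mono`. -/

open scoped Manifold ContDiff Topology
open MeasureTheory Set

namespace DD

variable {X : Type} [TopologicalSpace X] [T2Space X] [ChartedSpace C2 X]
  [IsManifold 𝓘(ℂ, C2) ω X] {f : X → ℂ}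

omit [T2Space X] in
/-- if the derivative of `f` in the chart vanishes then the point is critical -/
private theorem LocX_crit (hf : ContMDiff 𝓘(ℂ, C2) 𝓘(ℂ, ℂ) ω f) (p : X) {x : X}
    (hx : x ∈ (chartAt C2 p).source)
    (h : fderiv ℂ (fun z => f ((chartAt C2 p).symm z)) (chartAt C2 p x) = 0) : x ∈ Crit f := by
  set e₀ := chartAt C2 p with he₀
  have h1 : MDifferentiableAt 𝓘(ℂ, C2) 𝓘(ℂ, C2) e₀ x :=
    (contMDiffOn_chart.contMDiffAt (e₀.open_source.mem_nhds hx)).mdifferentiableAt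
      (by simp : (ω : WithTop ℕ∞) ≠ 0)
  have h2 : MDifferentiableAt 𝓘(ℂ, C2) 𝓘(ℂ, ℂ) (fun z => f (e₀.symm z)) (e₀ x) := by
    have h3 : ContMDiffOn 𝓘(ℂ, C2) 𝓘(ℂ, ℂ) ω (fun z => f (e₀.symm z)) e₀.target :=
      hf.comp_contMDiffOn contMDiffOn_chart_symm
    exact (h3.contMDiffAt (e₀.open_target.mem_nhds (e₀.map_source hx))).mdifferentiableAt
      (by simp : (ω : WithTop ℕ∞) ≠ 0)
  have h4 : f =ᶠ[𝓝 x] (fun z => f (e₀.symm z)) ∘ e₀ := by
    filter_upwards [e₀.open_source.mem_nhds hx] with y hy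
    simp [e₀.left_inv hy]
  show mfderiv 𝓘(ℂ, C2) 𝓘(ℂ, ℂ) f x = 0
  rw [h4.mfderiv_eq, mfderiv_comp x h2 h1, mfderiv_eq_fderiv, h]
  ext v
  rfl

theorem exists_locProps (hf : ContMDiff 𝓘(ℂ, C2) 𝓘(ℂ, ℂ) ω f) (hfin : (Crit f).Finite) {p : X}
    (hp : p ∈ Crit f) (hp0 : f p = 0) {O : Set X} (hO : IsOpen O) (hpO : p ∈ O) :
    ∃ (e : OpenPartialHomeomorph X C2) (a b c : ℝ) (m : ℕ), LocProps f p e a b c m ∧
      e.source ⊆ O := by
  classical
  set e₀ := chartAt C2 p with he₀
  have hfinc : IsClosed (Crit f \ {p}) := (hfin.subset sdiff_subset).isClosed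
  set O' : Set X := O ∩ (Crit f \ {p})ᶜ with hO'def
  have hO' : IsOpen O' := hO.inter hfinc.isOpen_compl
  have hpO' : p ∈ O' := ⟨hpO, fun h => h.2 rfl⟩
  set e₁ := e₀.restrOpen O' hO' with he₁
  have hsrc : e₁.source = e₀.source ∩ O' := e₀.restrOpen_source O' hO'
  have htgt : e₁.target ⊆ e₀.target := by
    intro z hz
    have h1 : e₁.symm z ∈ e₁.source := e₁.map_target hz
    have h2 : e₁ (e₁.symm z) = z := e₁.right_inv hz
    rw [hsrc] at h1
    have h3 := e₀.map_source h1.1
    have h4 : e₀ (e₁.symm z) = z := h2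
    rwa [h4] at h3
  have hps : p ∈ e₁.source := by
    rw [hsrc]; exact ⟨mem_chart_source C2 p, hpO'⟩
  -- the function in the chart
  have hfe : AnalyticOnNhd ℂ (fun z => f (e₀.symm z)) e₀.target := by
    have h3 : ContMDiffOn 𝓘(ℂ, C2) 𝓘(ℂ, ℂ) ω (fun z => f (e₀.symm z)) e₀.target :=
      hf.comp_contMDiffOn contMDiffOn_chart_symm
    exact (e₀.open_target.analyticOn_iff_analyticOnNhd).1 h3.contDiffOn.analyticOn
  set F : C2 → ℂ := fun z => f (e₀.symm (z + e₀ p)) with hF
  set V : Set C2 := (fun z => z + e₀ p) ⁻¹' e₁.target with hVdef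
  have hV : IsOpen V := e₁.open_target.preimage (continuous_id.add continuous_const)
  have h0V : (0 : C2) ∈ V := by
    show (0 : C2) + e₀ p ∈ e₁.target
    rw [zero_add]
    exact e₁.map_source hps
  have hFan : AnalyticOnNhd ℂ F V := by
    intro z hz
    have h1 : AnalyticAt ℂ (fun z : C2 => z + e₀ p) z := analyticAt_id.add analyticAt_const
    exact (hfe (z + e₀ p) (htgt hz)).comp_of_eq (f := fun z : C2 => z + e₀ p) h1 rfl
  have hF0 : F 0 = 0 := by
    show f (e₀.symm (0 + e₀ p)) = 0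
    rw [zero_add, e₀.left_inv (mem_chart_source C2 p), hp0]
  have hFd : ∀ z ∈ V, z ≠ 0 → fderiv ℂ F z ≠ 0 := by
    intro z hz hz0 hcon
    have hz1 : z + e₀ p ∈ e₁.target := hz
    have hx := e₁.map_target hz1
    set x := e₁.symm (z + e₀ p) with hxdef
    have hex : e₀ x = z + e₀ p := e₁.right_inv hz1
    rw [hsrc] at hx
    have h1 : fderiv ℂ (fun z => f (e₀.symm z)) (e₀ x) = 0 := by
      rw [hex, ← hcon]
      have := fderiv_comp_add_right (𝕜 := ℂ) (f := fun z => f (e₀.symm z)) (x := z) (e₀ p)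
      exact this.symm
    have h2 := LocX_crit hf p hx.1 h1
    have h3 : x ≠ p := by
      intro h
      rw [h] at hex
      apply hz0
      have := hex
      simpa using this.symm
    exact hx.2.2 ⟨h2, h3⟩
  obtain ⟨A, hA⟩ := exists_direction hV h0V hFan hF0 hFd
  -- the new chart
  set τ : C2 ≃ₜ C2 := (Homeomorph.subRight (e₀ p)).trans A.symm.toHomeomorph with hτ
  have hτapp : ∀ z, τ z = A.symm (z - e₀ p) := fun z => rfl
  have hτsymm : ∀ z, τ.symm z = A z + e₀ p := by
    intro z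
    rw [Homeomorph.symm_apply_eq, hτapp]
    simp
  set e : OpenPartialHomeomorph X C2 := e₁.transHomeomorph τ with he
  have hes : e.source = e₁.source := rfl
  have het : e.target = τ.symm ⁻¹' e₁.target := rfl
  have heapp : ∀ x, e x = A.symm (e₀ x - e₀ p) := fun x => rfl
  have hesymm : ∀ z, e.symm z = e₀.symm (A z + e₀ p) := by
    intro z
    show e₁.symm (τ.symm z) = _
    rw [hτsymm]
    rfl
  set G : C2 → ℂ := fun z => f (e.symm z) with hG
  have hGF : G = fun z => F (A z) := by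
    funext z
    show f (e.symm z) = f (e₀.symm (A z + e₀ p))
    rw [hesymm]
  have hV' : IsOpen (A ⁻¹' V) := hV.preimage A.continuous
  have h0V' : (0 : C2) ∈ A ⁻¹' V := by
    show A 0 ∈ V
    rw [map_zero]; exact h0V
  have hGan : AnalyticOnNhd ℂ G (A ⁻¹' V) := by
    rw [hGF]
    intro z hz
    exact (hFan (A z) hz).comp_of_eq (f := fun z : C2 => A z)
      ((A : C2 →L[ℂ] C2).analyticAt z) rfl
  have hG0 : G 0 = 0 := by
    rw [hGF]
    show F (A 0) = 0
    rw [map_zero]; exact hF0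
  have hGd : ∀ z ∈ A ⁻¹' V, z ≠ 0 → fderiv ℂ G z ≠ 0 := by
    intro z hz hz0 hcon
    have hAz : A z ≠ 0 := by simpa using hz0
    apply hFd (A z) hz hAz
    rw [hGF] at hcon
    have h1 : HasFDerivAt (fun z => F (A z)) ((fderiv ℂ F (A z)).comp (A : C2 →L[ℂ] C2)) z :=
      ((hFan (A z) hz).differentiableAt.hasFDerivAt).comp z A.hasFDerivAt
    rw [h1.fderiv] at hcon
    refine ContinuousLinearMap.ext fun v => ?_
    have h2 := congrArg (fun L : C2 →L[ℂ] ℂ => L (A.symm v)) hcon
    simpa using h2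
  have hGy : ¬ ∀ᶠ y in nhds (0 : ℂ), G (0, y) = 0 := by
    rw [hGF]; exact hA
  obtain ⟨a, b, c, m, hL, hsub⟩ := loc_main hV' h0V' hGan hG0 hGd hGy
  refine ⟨e, a, b, c, m, ?_, ?_⟩
  · refine
      { holo := ?_
        holo_symm := ?_
        mem := hps
        map_p := ?_
        a_pos := hL.a_pos
        a_le := hL.a_le
        b_pos := hL.b_pos
        b_le := hL.b_le
        c_pos := hL.c_pos
        c_le := hL.c_le
        m_pos := hL.m_pos
        target := ?_
        crit := ?_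
        far := hL.far
        low := hL.low
        der := hL.der
        root := hL.root }
    · have h1 : ContMDiffOn 𝓘(ℂ, C2) 𝓘(ℂ, C2) ω e₀ e.source := by
        refine (contMDiffOn_chart (x := p)).mono ?_
        rw [hes, hsrc]
        exact inter_subset_left
      have h2 : ContMDiff 𝓘(ℂ, C2) 𝓘(ℂ, C2) ω (fun z : C2 => A.symm (z - e₀ p)) := by
        have h3 : ContDiff ℂ ω (fun z : C2 => A.symm (z - e₀ p)) :=
          A.symm.contDiff.comp (contDiff_id.sub contDiff_const)
        exact h3.contMDiff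
      exact h2.comp_contMDiffOn h1
    · have h1 : ContMDiffOn 𝓘(ℂ, C2) 𝓘(ℂ, C2) ω e₀.symm e₀.target :=
        contMDiffOn_chart_symm
      have h2 : ContMDiff 𝓘(ℂ, C2) 𝓘(ℂ, C2) ω (fun z : C2 => A z + e₀ p) := by
        have h3 : ContDiff ℂ ω (fun z : C2 => A z + e₀ p) :=
          A.contDiff.add contDiff_const
        exact h3.contMDiff
      have h4 : ContMDiffOn 𝓘(ℂ, C2) 𝓘(ℂ, C2) ω (fun z => e₀.symm (A z + e₀ p)) e.target := by
        refine h1.comp h2.contMDiffOn ?_
        intro z hz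
        have h5 : τ.symm z ∈ e₁.target := hz
        rw [hτsymm] at h5
        exact htgt h5
      exact h4.congr (fun z _ => hesymm z)
    · show A.symm (e₀ p - e₀ p) = ((0 : ℂ), (0 : ℂ))
      rw [sub_self, map_zero]
      rfl
    · intro z hz
      show τ.symm z ∈ e₁.target
      rw [hτsymm]
      exact hsub hz
    · intro x hx hxc
      by_contra hne
      have hx' : x ∈ e₁.source := hx
      rw [hsrc] at hx'
      exact hx'.2.2 ⟨hxc, hne⟩
  · rw [hes, hsrc]
    exact fun x hx => hx.2.1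

theorem LocProps.mono {p : X} {e : OpenPartialHomeomorph X C2} {a b c a' c' : ℝ} {m m' : ℕ}
    (h : LocProps f p e a b c m) (ha : 0 < a') (haa : a' ≤ a) (hc : 0 < c') (hcc : c' ≤ c)
    (hm : m ≤ m') : LocProps f p e a' b c' m' := by
  have hL : Loc2 (fun z => f (e.symm z)) a b c m :=
    ⟨h.a_pos, h.a_le, h.b_pos, h.b_le, h.c_pos, h.c_le, h.m_pos, h.far, h.low, h.der, h.root⟩
  have hL' := Loc2.mono hL ha haa hc hcc hm
  exact
    { holo := h.holo
      holo_symm := h.holo_symm
      mem := h.mem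
      map_p := h.map_p
      a_pos := hL'.a_pos
      a_le := hL'.a_le
      b_pos := hL'.b_pos
      b_le := hL'.b_le
      c_pos := hL'.c_pos
      c_le := hL'.c_le
      m_pos := hL'.m_pos
      target := (Set.prod_mono (Metric.closedBall_subset_closedBall haa)
        (subset_refl _)).trans h.target
      crit := h.crit
      far := hL'.far
      low := hL'.low
      der := hL'.der
      root := hL'.root }

end DD
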