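import Pool.Agent.Work.MP_dd1e4a_gt.Defs3

/-! # PlanarC: the planar difference estimate

`planar_shift`: `V (z + h z) - V z = ∫₀¹ DV (z + t h z) (h z) dt`, Cauchy-Schwarz, Fubini and
the change of variables `z ↦ z + t h z`, which is injective on the convex ball
`ball z₀ r` with real Jacobian determinant `≥ 1/4` (`‖D(t h)‖ ≤ 1/2`), and maps it into
`ball z₀ (2r)`. `‖DV z v‖² ≤ ‖v‖² (‖DV z 1‖² + ‖DV z I‖²)`. (The factor `2` on the right is slack.) -/

open scoped Manifold ContDiff Topology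
open MeasureTheory Set

namespace DD

private theorem pC_norm (L : ℂ →L[ℝ] ℂ) (v : ℂ) :
    ‖L v‖ ^ 2 ≤ ‖v‖ ^ 2 * (‖L 1‖ ^ 2 + ‖L Complex.I‖ ^ 2) := by
  have hv : v = v.re • (1 : ℂ) + v.im • Complex.I := by simp [Complex.re_add_im]
  have h1 : L v = v.re • L 1 + v.im • L Complex.I := by
    conv_lhs => rw [hv]
    rw [map_add, map_smul, map_smul]
  have h2 : ‖L v‖ ≤ |v.re| * ‖L 1‖ + |v.im| * ‖L Complex.I‖ := by
    rw [h1]
    refine (norm_add_le _ _).trans ?_
    rw [norm_smul, norm_smul, Real.norm_eq_abs, Real.norm_eq_abs]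
  have h3 : ‖v‖ ^ 2 = |v.re| ^ 2 + |v.im| ^ 2 := by
    rw [← Complex.normSq_eq_norm_sq, Complex.normSq_apply, sq_abs, sq_abs]
    ring
  have h4 : ‖L v‖ ^ 2 ≤ (|v.re| * ‖L 1‖ + |v.im| * ‖L Complex.I‖) ^ 2 :=
    pow_le_pow_left₀ (norm_nonneg _) h2 2
  rw [h3]
  nlinarith [sq_nonneg (|v.re| * ‖L Complex.I‖ - |v.im| * ‖L 1‖)]

private theorem pC_det (L : ℂ →L[ℝ] ℂ) (hL : ‖L‖ ≤ 1 / 2) :
    1 / 4 ≤ (ContinuousLinearMap.id ℝ ℂ + L).det := by
  have h1 : ‖L 1‖ ≤ 1 / 2 := by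
    have := L.le_opNorm 1
    simpa using this.trans (by simpa using hL)
  have h2 : ‖L Complex.I‖ ≤ 1 / 2 := by
    have := L.le_opNorm Complex.I
    simpa using this.trans (by simpa using hL)
  have hdet : (ContinuousLinearMap.id ℝ ℂ + L).det =
      (1 + (L 1).re) * (1 + (L Complex.I).im) - (L Complex.I).re * (L 1).im := by
    rw [ContinuousLinearMap.det, ← LinearMap.det_toMatrix Complex.basisOneI, Matrix.det_fin_two]
    simp [LinearMap.toMatrix_apply]
  rw [hdet]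
  have e1 : (L 1).re ^ 2 + (L 1).im ^ 2 ≤ 1 / 4 := by
    have : ‖L 1‖ ^ 2 ≤ (1 / 2) ^ 2 := pow_le_pow_left₀ (norm_nonneg _) h1 2
    rw [← Complex.normSq_eq_norm_sq, Complex.normSq_apply] at this
    nlinarith
  have e2 : (L Complex.I).re ^ 2 + (L Complex.I).im ^ 2 ≤ 1 / 4 := by
    have : ‖L Complex.I‖ ^ 2 ≤ (1 / 2) ^ 2 := pow_le_pow_left₀ (norm_nonneg _) h2 2
    rw [← Complex.normSq_eq_norm_sq, Complex.normSq_apply] at this
    nlinarith
  nlinarith [sq_nonneg ((L Complex.I).re - (L 1).im), sq_nonneg ((L 1).re + (L Complex.I).im + 1)]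

private theorem pC_cs {φ : ℝ → ℝ} (hφ : ContinuousOn φ (Icc 0 1)) :
    (∫ t in (0 : ℝ)..1, φ t) ^ 2 ≤ ∫ t in (0 : ℝ)..1, φ t ^ 2 := by
  set c := ∫ t in (0 : ℝ)..1, φ t with hc
  have hu : uIcc (0 : ℝ) 1 = Icc 0 1 := uIcc_of_le zero_le_one
  have hi1 : IntervalIntegrable φ volume 0 1 := (hu ▸ hφ).intervalIntegrable
  have hi2 : IntervalIntegrable (fun t => φ t ^ 2) volume 0 1 := by
    have : ContinuousOn (fun t => φ t ^ 2) (uIcc 0 1) := hu ▸ (hφ.pow 2)
    exact this.intervalIntegrable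
  have h0 : 0 ≤ ∫ t in (0 : ℝ)..1, (φ t - c) ^ 2 :=
    intervalIntegral.integral_nonneg zero_le_one (fun t _ => sq_nonneg _)
  have h1 : ∫ t in (0 : ℝ)..1, (φ t - c) ^ 2 =
      (∫ t in (0 : ℝ)..1, φ t ^ 2) - 2 * c * (∫ t in (0 : ℝ)..1, φ t) + c ^ 2 := by
    have : (fun t => (φ t - c) ^ 2) = fun t => (φ t ^ 2 - (2 * c) * φ t) + c ^ 2 := by
      funext t; ring
    rw [this, intervalIntegral.integral_add (hi2.sub (hi1.const_mul _)) (by simp),
      intervalIntegral.integral_sub hi2 (hi1.const_mul _), intervalIntegral.integral_const_mul,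
      intervalIntegral.integral_const]
    simp
  rw [h1, ← hc] at h0
  nlinarith

/-- the planar difference estimate. `h` is a small displacement field on the ball of radius `2r`. -/
theorem planar_shift {z₀ : ℂ} {r ε : ℝ} (hr : 0 < r) (hε : ε ≤ r) {h : ℂ → ℂ}
    (hh : DifferentiableOn ℝ h (Metric.ball z₀ (2 * r)))
    (hc : ContDiffOn ℝ 1 h (Metric.ball z₀ (2 * r)))
    (h1 : ∀ z ∈ Metric.ball z₀ (2 * r), ‖h z‖ ≤ ε)
    (h2 : ∀ z ∈ Metric.ball z₀ (2 * r), ‖fderiv ℝ h z‖ ≤ 1 / 2)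
    {V : ℂ → ℂ} (hV : ContDiffOn ℝ 1 V (Metric.ball z₀ (2 * r))) :
    ∫⁻ z in Metric.ball z₀ r, ENNReal.ofReal (‖V (z + h z) - V z‖ ^ 2) ≤
      ENNReal.ofReal (4 * ε ^ 2) * ∫⁻ z in Metric.ball z₀ (2 * r),
        ENNReal.ofReal (2 * (‖fderiv ℝ V z 1‖ ^ 2 + ‖fderiv ℝ V z Complex.I‖ ^ 2)) := by
  set W := Metric.ball z₀ (2 * r) with hW
  have hWo : IsOpen W := Metric.isOpen_ball
  have hsub : Metric.ball z₀ r ⊆ W := Metric.ball_subset_ball (by linarith)
  have hz₀ : z₀ ∈ W := Metric.mem_ball_self (by linarith)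
  have hε0 : 0 ≤ ε := (norm_nonneg _).trans (h1 z₀ hz₀)
  have hseg : ∀ z ∈ Metric.ball z₀ r, ∀ t ∈ Icc (0 : ℝ) 1, z + (t : ℂ) * h z ∈ W := by
    intro z hz t ht
    have hz' : ‖z - z₀‖ < r := by simpa [dist_eq_norm] using hz
    have h3 : ‖(t : ℂ) * h z‖ ≤ ε := by
      rw [norm_mul, Complex.norm_real, Real.norm_eq_abs, abs_of_nonneg ht.1]
      calc t * ‖h z‖ ≤ 1 * ‖h z‖ := mul_le_mul_of_nonneg_right ht.2 (norm_nonneg _)
        _ = ‖h z‖ := one_mul _
        _ ≤ ε := h1 z (hsub hz)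
    rw [hW, Metric.mem_ball, dist_eq_norm]
    calc ‖z + (t : ℂ) * h z - z₀‖ = ‖(z - z₀) + (t : ℂ) * h z‖ := by ring_nf
      _ ≤ ‖z - z₀‖ + ‖(t : ℂ) * h z‖ := norm_add_le _ _
      _ < 2 * r := by linarith
  set G : ℂ → ℝ := fun z => ‖fderiv ℝ V z 1‖ ^ 2 + ‖fderiv ℝ V z Complex.I‖ ^ 2 with hG
  have hG0 : ∀ z, 0 ≤ G z := fun z => by positivity
  have hVc : ContinuousOn (fderiv ℝ V) W := hV.continuousOn_fderiv_of_isOpen hWo le_rfl
  have hGc : ContinuousOn G W :=
    ((hVc.clm_apply continuousOn_const).norm.pow 2).add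
      ((hVc.clm_apply continuousOn_const).norm.pow 2)
  -- pointwise estimate
  have hpt : ∀ z ∈ Metric.ball z₀ r, ENNReal.ofReal (‖V (z + h z) - V z‖ ^ 2) ≤
      ENNReal.ofReal (ε ^ 2) * ∫⁻ t in Icc (0 : ℝ) 1, ENNReal.ofReal (G (z + (t : ℂ) * h z)) := by
    intro z hz
    have hu : uIcc (0 : ℝ) 1 = Icc 0 1 := uIcc_of_le zero_le_one
    have hcz : Continuous (fun t : ℝ => z + (t : ℂ) * h z) := by fun_prop
    have hmaps : MapsTo (fun t : ℝ => z + (t : ℂ) * h z) (Icc (0 : ℝ) 1) W := hseg z hz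
    have hder : ∀ t ∈ uIcc (0 : ℝ) 1, HasDerivAt (fun t : ℝ => V (z + (t : ℂ) * h z))
        (fderiv ℝ V (z + (t : ℂ) * h z) (h z)) t := by
      intro t ht
      rw [hu] at ht
      have hd : HasFDerivAt V (fderiv ℝ V (z + (t : ℂ) * h z)) (z + (t : ℂ) * h z) :=
        ((hV.contDiffAt (hWo.mem_nhds (hseg z hz t ht))).differentiableAt (by simp)).hasFDerivAt
      have hl : HasDerivAt (fun t : ℝ => z + (t : ℂ) * h z) (h z) t := by
        have h5 : HasDerivAt (fun t : ℝ => (t : ℂ) * h z) (1 * h z) t :=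
          (Complex.ofRealCLM.hasDerivAt (x := t)).mul_const (h z) |>.congr_deriv (by simp)
        simpa using h5.const_add z
      exact hd.comp_hasDerivAt t hl
    have hcont : ContinuousOn (fun t : ℝ => fderiv ℝ V (z + (t : ℂ) * h z) (h z)) (Icc 0 1) :=
      (hVc.comp hcz.continuousOn hmaps).clm_apply continuousOn_const
    have hint : IntervalIntegrable (fun t : ℝ => fderiv ℝ V (z + (t : ℂ) * h z) (h z)) volume 0 1 :=
      (hu ▸ hcont).intervalIntegrable
    have hftc := intervalIntegral.integral_eq_sub_of_hasDerivAt hder hint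
    have hGt : ContinuousOn (fun t : ℝ => G (z + (t : ℂ) * h z)) (Icc 0 1) :=
      hGc.comp hcz.continuousOn hmaps
    have hstep1 : ‖V (z + h z) - V z‖ ^ 2 ≤
        (∫ t in (0 : ℝ)..1, ‖fderiv ℝ V (z + (t : ℂ) * h z) (h z)‖) ^ 2 := by
      refine pow_le_pow_left₀ (norm_nonneg _) ?_ 2
      have h6 : V (z + h z) - V z = ∫ t in (0 : ℝ)..1, fderiv ℝ V (z + (t : ℂ) * h z) (h z) := by
        rw [hftc]; simp
      rw [h6]
      exact intervalIntegral.norm_integral_le_integral_norm zero_le_one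
    have hstep2 := pC_cs hcont.norm
    have hstep3 : ∫ t in (0 : ℝ)..1, ‖fderiv ℝ V (z + (t : ℂ) * h z) (h z)‖ ^ 2 ≤
        ∫ t in (0 : ℝ)..1, ε ^ 2 * G (z + (t : ℂ) * h z) := by
      refine intervalIntegral.integral_mono_on zero_le_one ?_ ?_ ?_
      · have : ContinuousOn (fun t : ℝ => ‖fderiv ℝ V (z + (t : ℂ) * h z) (h z)‖ ^ 2)
          (uIcc 0 1) := hu ▸ (hcont.norm.pow 2)
        exact this.intervalIntegrable
      · have : ContinuousOn (fun t : ℝ => ε ^ 2 * G (z + (t : ℂ) * h z)) (uIcc 0 1) :=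
          hu ▸ (continuousOn_const.mul hGt)
        exact this.intervalIntegrable
      · intro t ht
        refine (pC_norm _ _).trans (mul_le_mul_of_nonneg_right ?_ (hG0 _))
        exact pow_le_pow_left₀ (norm_nonneg _) (h1 z (hsub hz)) 2
    have hstep4 : ‖V (z + h z) - V z‖ ^ 2 ≤
        ε ^ 2 * ∫ t in Icc (0 : ℝ) 1, G (z + (t : ℂ) * h z) := by
      have h7 := (hstep1.trans hstep2).trans hstep3
      rw [intervalIntegral.integral_const_mul, intervalIntegral.integral_of_le zero_le_one,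
        ← integral_Icc_eq_integral_Ioc] at h7
      exact h7
    refine (ENNReal.ofReal_le_ofReal hstep4).trans ?_
    rw [ENNReal.ofReal_mul (sq_nonneg _)]
    refine mul_le_mul_right ?_ _
    rw [ofReal_integral_eq_lintegral_ofReal (hGt.integrableOn_compact isCompact_Icc)
      (Filter.Eventually.of_forall (fun t => hG0 _))]
  -- change of variables
  have hcv : ∀ t ∈ Icc (0 : ℝ) 1, ∫⁻ z in Metric.ball z₀ r, ENNReal.ofReal (G (z + (t : ℂ) * h z)) ≤
      4 * ∫⁻ z in W, ENNReal.ofReal (G z) := by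
    intro t ht
    set Φ : ℂ → ℂ := fun z => z + (t : ℂ) * h z with hΦ
    set Φ' : ℂ → ℂ →L[ℝ] ℂ := fun z => ContinuousLinearMap.id ℝ ℂ + t • fderiv ℝ h z with hΦ'
    have hfd : ∀ z ∈ W, HasFDerivAt Φ (Φ' z) z := by
      intro z hz
      have hd : HasFDerivAt h (fderiv ℝ h z) z :=
        ((hh z hz).differentiableAt (hWo.mem_nhds hz)).hasFDerivAt
      have h8 := (hasFDerivAt_id (𝕜 := ℝ) z).add (hd.const_smul t)
      refine h8.congr_of_eventuallyEq (Filter.Eventually.of_forall (fun w => ?_))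
      simp [hΦ]
    have hn : ∀ z ∈ W, ‖t • fderiv ℝ h z‖ ≤ 1 / 2 := by
      intro z hz
      rw [norm_smul, Real.norm_eq_abs, abs_of_nonneg ht.1]
      calc t * ‖fderiv ℝ h z‖ ≤ 1 * ‖fderiv ℝ h z‖ :=
            mul_le_mul_of_nonneg_right ht.2 (norm_nonneg _)
        _ = ‖fderiv ℝ h z‖ := one_mul _
        _ ≤ 1 / 2 := h2 z hz
    have hdet : ∀ z ∈ W, 1 / 4 ≤ |(Φ' z).det| := fun z hz =>
      (pC_det _ (hn z hz)).trans (le_abs_self _)
    have hlip : ∀ z ∈ W, ∀ w ∈ W, ‖h w - h z‖ ≤ 1 / 2 * ‖w - z‖ := by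
      intro z hz w hw
      exact (convex_ball z₀ (2 * r)).norm_image_sub_le_of_norm_fderiv_le
        (fun x hx => (hh x hx).differentiableAt (hWo.mem_nhds hx)) h2 hz hw
    have hinj : InjOn Φ (Metric.ball z₀ r) := by
      intro z hz w hw hzw
      have h9 := hlip z (hsub hz) w (hsub hw)
      have h10 : z - w = (t : ℂ) * (h w - h z) := by
        have : z + (t : ℂ) * h z = w + (t : ℂ) * h w := hzw
        linear_combination this
      have h11 : ‖z - w‖ ≤ 1 / 2 * ‖z - w‖ := by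
        calc ‖z - w‖ = t * ‖h w - h z‖ := by
              rw [h10, norm_mul, Complex.norm_real, Real.norm_eq_abs, abs_of_nonneg ht.1]
          _ ≤ 1 * ‖h w - h z‖ := mul_le_mul_of_nonneg_right ht.2 (norm_nonneg _)
          _ = ‖h w - h z‖ := one_mul _
          _ ≤ 1 / 2 * ‖w - z‖ := h9
          _ = 1 / 2 * ‖z - w‖ := by rw [norm_sub_rev]
      have h12 : ‖z - w‖ = 0 := by
        have := norm_nonneg (z - w)
        linarith
      exact sub_eq_zero.mp (norm_eq_zero.mp h12)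
    have himg := lintegral_image_eq_lintegral_abs_det_fderiv_mul (μ := volume)
      (s := Metric.ball z₀ r) Metric.isOpen_ball.measurableSet
      (fun z hz => (hfd z (hsub hz)).hasFDerivWithinAt) hinj (fun z => ENNReal.ofReal (G z))
    have hsubi : Φ '' Metric.ball z₀ r ⊆ W := by
      rintro _ ⟨z, hz, rfl⟩
      exact hseg z hz t ht
    calc ∫⁻ z in Metric.ball z₀ r, ENNReal.ofReal (G (z + (t : ℂ) * h z))
        ≤ ∫⁻ z in Metric.ball z₀ r,
            4 * (ENNReal.ofReal |(Φ' z).det| * ENNReal.ofReal (G (Φ z))) := by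
          refine setLIntegral_mono' Metric.isOpen_ball.measurableSet (fun z hz => ?_)
          have h13 : (1 : ENNReal) ≤ 4 * ENNReal.ofReal |(Φ' z).det| := by
            have h14 : (1 : ENNReal) = ENNReal.ofReal (4 * (1 / 4)) := by norm_num
            rw [h14, ENNReal.ofReal_mul (by norm_num)]
            have h15 : ENNReal.ofReal 4 = 4 := by norm_num
            rw [h15]
            exact mul_le_mul_right (ENNReal.ofReal_le_ofReal (hdet z (hsub hz))) _
          calc ENNReal.ofReal (G (z + (t : ℂ) * h z)) = 1 * ENNReal.ofReal (G (Φ z)) := by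
                rw [one_mul]
            _ ≤ (4 * ENNReal.ofReal |(Φ' z).det|) * ENNReal.ofReal (G (Φ z)) :=
                mul_le_mul_left h13 _
            _ = _ := by rw [mul_assoc]
      _ = 4 * ∫⁻ z in Metric.ball z₀ r,
            ENNReal.ofReal |(Φ' z).det| * ENNReal.ofReal (G (Φ z)) := by
          rw [lintegral_const_mul' _ _ (by norm_num)]
      _ = 4 * ∫⁻ z in Φ '' Metric.ball z₀ r, ENNReal.ofReal (G z) := by rw [himg]
      _ ≤ 4 * ∫⁻ z in W, ENNReal.ofReal (G z) :=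
          mul_le_mul_right (lintegral_mono_set hsubi) _
  -- Fubini
  have hmeas : AEMeasurable (Function.uncurry (fun (z : ℂ) (t : ℝ) =>
      ENNReal.ofReal (G (z + (t : ℂ) * h z))))
      ((volume.restrict (Metric.ball z₀ r)).prod (volume.restrict (Icc (0 : ℝ) 1))) := by
    rw [Measure.prod_restrict]
    refine ContinuousOn.aemeasurable ?_
      (Metric.isOpen_ball.measurableSet.prod measurableSet_Icc)
    have hinner : ContinuousOn (fun p : ℂ × ℝ => p.1 + (p.2 : ℂ) * h p.1)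
        (Metric.ball z₀ r ×ˢ Icc (0 : ℝ) 1) := by
      refine continuousOn_fst.add (ContinuousOn.mul ?_ ?_)
      · exact (Complex.continuous_ofReal.comp continuous_snd).continuousOn
      · exact (hh.continuousOn.mono hsub).comp continuousOn_fst (fun p hp => hp.1)
    have hcomp : ContinuousOn (fun p : ℂ × ℝ => G (p.1 + (p.2 : ℂ) * h p.1))
        (Metric.ball z₀ r ×ˢ Icc (0 : ℝ) 1) :=
      hGc.comp hinner (fun p hp => hseg p.1 hp.1 p.2 hp.2)
    exact ENNReal.continuous_ofReal.comp_continuousOn hcomp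
  calc ∫⁻ z in Metric.ball z₀ r, ENNReal.ofReal (‖V (z + h z) - V z‖ ^ 2)
      ≤ ∫⁻ z in Metric.ball z₀ r, ENNReal.ofReal (ε ^ 2) *
          ∫⁻ t in Icc (0 : ℝ) 1, ENNReal.ofReal (G (z + (t : ℂ) * h z)) :=
        setLIntegral_mono' Metric.isOpen_ball.measurableSet hpt
    _ = ENNReal.ofReal (ε ^ 2) * ∫⁻ z in Metric.ball z₀ r,
          ∫⁻ t in Icc (0 : ℝ) 1, ENNReal.ofReal (G (z + (t : ℂ) * h z)) := by
        rw [lintegral_const_mul' _ _ (by simp)]
    _ = ENNReal.ofReal (ε ^ 2) * ∫⁻ t in Icc (0 : ℝ) 1, ∫⁻ z in Metric.ball z₀ r,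
          ENNReal.ofReal (G (z + (t : ℂ) * h z)) := by
        rw [lintegral_lintegral_swap hmeas]
    _ ≤ ENNReal.ofReal (ε ^ 2) * ∫⁻ t in Icc (0 : ℝ) 1, 4 * ∫⁻ z in W, ENNReal.ofReal (G z) :=
        mul_le_mul_right (setLIntegral_mono' measurableSet_Icc hcv) _
    _ = ENNReal.ofReal (ε ^ 2) * (4 * ∫⁻ z in W, ENNReal.ofReal (G z)) := by
        rw [setLIntegral_const]
        simp
    _ = ENNReal.ofReal (4 * ε ^ 2) * ∫⁻ z in W, ENNReal.ofReal (G z) := by
        rw [ENNReal.ofReal_mul (by norm_num), ← mul_assoc, mul_comm (ENNReal.ofReal (ε ^ 2))]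
        norm_num
    _ ≤ ENNReal.ofReal (4 * ε ^ 2) * ∫⁻ z in W, ENNReal.ofReal (2 * G z) := by
        refine mul_le_mul_right (lintegral_mono (fun z => ENNReal.ofReal_le_ofReal ?_)) _
        have := hG0 z
        linarith

end DD
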