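import Pool.Agent.Work.MP_dd1e4a_gt.AreaC
import Pool.Agent.Work.MP_dd1e4a_gt.AreaA
import Pool.Agent.Work.MP_dd1e4a_gt.AreaB
import Pool.Agent.Work.MP_dd1e4a_gt.MetC
import Pool.Agent.Work.MP_dd1e4a_gt.PlanarC
import Pool.Agent.Work.MP_dd1e4a_gt.BoxCompact

/-! # Overlap: the difference of two transports

Let `b₁`, `b₂` be boxes and `K ⊆ b₁.source ∩ b₂.source` compact. In the box `b₂`, fibre `s'`,
coordinate `w`: `x = b₂.symm (w, s')`, `btrans b₂ s x = b₂.symm (w, s)`,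
`btrans b₁ s x = b₂.symm (τ w, s)` with `τ w = (b₂ (b₁.symm ((b₁ x).1, s))).1`,
a real smooth function of `(w, s', s)` near `{(w, 0, 0) | (w, 0) ∈ b₂ '' K}`, `τ = w` if `s = s'`.
For `x₀ ∈ K`, `f x₀ = 0`, `w₀ = (b₂ x₀).1` choose `r > 0`, `ρ > 0` such that everything is defined
and smooth on the compact set `closedBall w₀ (2r) × closedBall 0 ρ × closedBall 0 ρ` (in particular
`(w, s) ∈ b₂.target`): with `h w = τ w - w`: `‖h w‖ ≤ C ‖s - s'‖` and `‖D_w h‖ ≤ C ‖s - s'‖`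
(mean value inequality in `s`, because `h` and `D_w h` vanish for `s = s'`), `≤ r` and `≤ 1/2` for
small `ρ`. `planar_shift` with `V w = v (b₂.symm (w, s))`, and `IsFibreArea.lintegral_box`
(densities `dens` between two positive constants on the compact set; `IsParam.gradSq_eq`) give the
estimate for the part of `K` with `b₂ x ∈ ball w₀ r × ball 0 ρ`. Finitely many such sets cover
`K ∩ {‖f‖ ≤ ρ}` for small `ρ` (compactness); add the estimates. -/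

open scoped Manifold ContDiff Topology
open MeasureTheory Set

namespace DD

/-- a smooth function of `(w, s', s)` which vanishes for `s = s'`. -/
theorem ovl_H {Ω : Set (ℂ × ℂ × ℂ)} (hΩ : IsOpen Ω) {H : ℂ × ℂ × ℂ → ℂ}
    (hH : ContDiffOn ℝ 2 H Ω) {w₀ : ℂ} (hp : ((w₀, 0, 0) : ℂ × ℂ × ℂ) ∈ Ω)
    (h0 : ∀ w s' : ℂ, ((w, s', s') : ℂ × ℂ × ℂ) ∈ Ω → H (w, s', s') = 0) :
    ∃ R > 0, ∃ M : ℝ, 1 ≤ M ∧
      (∀ w s' s : ℂ, ‖w - w₀‖ ≤ R → ‖s'‖ ≤ R → ‖s‖ ≤ R → ((w, s', s) : ℂ × ℂ × ℂ) ∈ Ω) ∧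
      ∀ s' s : ℂ, ‖s'‖ ≤ R → ‖s‖ ≤ R →
        ContDiffOn ℝ 1 (fun w => H (w, s', s)) (Metric.ball w₀ R) ∧
        ∀ w ∈ Metric.ball w₀ R, ‖H (w, s', s)‖ ≤ M * ‖s - s'‖ ∧
          ‖fderiv ℝ (fun w => H (w, s', s)) w‖ ≤ M * ‖s - s'‖ := by
  obtain ⟨R₀, hR₀, hball⟩ := Metric.isOpen_iff.1 hΩ _ hp
  obtain ⟨R, hRdef⟩ : ∃ R, R = R₀ / 2 := ⟨_, rfl⟩
  have hR : 0 < R := by rw [hRdef]; positivity
  have hcb : Metric.closedBall ((w₀, 0, 0) : ℂ × ℂ × ℂ) R ⊆ Ω := by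
    refine (Metric.closedBall_subset_ball ?_).trans hball
    rw [hRdef]; linarith
  have hmem : ∀ w s' s : ℂ, ‖w - w₀‖ ≤ R → ‖s'‖ ≤ R → ‖s‖ ≤ R →
      ((w, s', s) : ℂ × ℂ × ℂ) ∈ Metric.closedBall ((w₀, 0, 0) : ℂ × ℂ × ℂ) R := by
    intro w s' s h1 h2 h3
    rw [Metric.mem_closedBall, Prod.dist_eq, Prod.dist_eq, max_le_iff, max_le_iff]
    refine ⟨by rw [dist_eq_norm]; exact h1, ?_, ?_⟩
    · simpa using h2
    · simpa using h3
  let Q : ℂ × ℂ × ℂ → (ℂ →L[ℝ] ℂ) := fun p =>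
    (fderiv ℝ H p).comp (ContinuousLinearMap.inl ℝ ℂ (ℂ × ℂ))
  have hH1 : ContDiffOn ℝ 1 (fderiv ℝ H) Ω := hH.fderiv_of_isOpen hΩ (by norm_num)
  have hQ : ContDiffOn ℝ 1 Q Ω := hH1.clm_comp contDiffOn_const
  have hHd : ∀ p ∈ Ω, HasFDerivAt H (fderiv ℝ H p) p := fun p hp =>
    ((hH.differentiableOn (by norm_num)).differentiableAt (hΩ.mem_nhds hp)).hasFDerivAt
  have hQd : ∀ p ∈ Ω, HasFDerivAt Q (fderiv ℝ Q p) p := fun p hp =>
    ((hQ.differentiableOn (by norm_num)).differentiableAt (hΩ.mem_nhds hp)).hasFDerivAt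
  have hK := isCompact_closedBall ((w₀, 0, 0) : ℂ × ℂ × ℂ) R
  obtain ⟨M1, hM1⟩ := hK.exists_bound_of_continuousOn (hH1.continuousOn.mono hcb)
  obtain ⟨M2, hM2⟩ := hK.exists_bound_of_continuousOn
    ((hQ.continuousOn_fderiv_of_isOpen hΩ le_rfl).mono hcb)
  obtain ⟨M, hM, hM1', hM2'⟩ : ∃ M : ℝ, 1 ≤ M ∧ M1 ≤ M ∧ M2 ≤ M :=
    ⟨max 1 (max M1 M2), le_max_left _ _, (le_max_left _ _).trans (le_max_right _ _),
      (le_max_right _ _).trans (le_max_right _ _)⟩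
  have hcv := convex_closedBall ((w₀, 0, 0) : ℂ × ℂ × ℂ) R
  have hdist : ∀ w s' s : ℂ, ‖((w, s', s) : ℂ × ℂ × ℂ) - (w, s', s')‖ = ‖s - s'‖ := by
    intro w s' s
    simp [Prod.norm_def]
  have hderw : ∀ w s' s : ℂ, ((w, s', s) : ℂ × ℂ × ℂ) ∈ Ω →
      HasFDerivAt (fun w => H (w, s', s)) (Q (w, s', s)) w := by
    intro w s' s hw
    have h1 : HasFDerivAt (fun w : ℂ => ((w, s', s) : ℂ × ℂ × ℂ))
        (ContinuousLinearMap.inl ℝ ℂ (ℂ × ℂ)) w := hasFDerivAt_prodMk_left _ _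
    exact (hHd _ hw).comp w h1
  refine ⟨R, hR, M, hM, fun w s' s h1 h2 h3 => hcb (hmem w s' s h1 h2 h3), ?_⟩
  intro s' s hs' hs
  have hin : ∀ w ∈ Metric.ball w₀ R, ‖w - w₀‖ ≤ R := fun w hw => by
    rw [Metric.mem_ball, dist_eq_norm] at hw; exact hw.le
  constructor
  · refine ContDiffOn.comp (hH.of_le (by norm_num)) (t := Ω) ?_ ?_
    · exact contDiffOn_id.prodMk contDiffOn_const
    · intro w hw
      exact hcb (hmem w s' s (hin w hw) hs' hs)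
  intro w hw
  have hp1 := hmem w s' s (hin w hw) hs' hs
  have hp2 := hmem w s' s' (hin w hw) hs' hs'
  constructor
  · have h1 := hcv.norm_image_sub_le_of_norm_hasFDerivWithin_le
      (fun p hp => (hHd p (hcb hp)).hasFDerivWithinAt)
      (fun p hp => (hM1 p hp).trans hM1') hp2 hp1
    rw [h0 w s' (hcb hp2), sub_zero, hdist] at h1
    exact h1
  · have h1 := hcv.norm_image_sub_le_of_norm_hasFDerivWithin_le
      (fun p hp => (hQd p (hcb hp)).hasFDerivWithinAt)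
      (fun p hp => (hM2 p hp).trans hM2') hp2 hp1
    have h2 : Q (w, s', s') = 0 := by
      have h3 := hderw w s' s' (hcb hp2)
      have h4 : (fun w => H (w, s', s')) =ᶠ[𝓝 w] fun _ => 0 := by
        filter_upwards [Metric.isOpen_ball.mem_nhds hw] with w' hw'
        exact h0 w' s' (hcb (hmem w' s' s' (hin w' hw') hs' hs'))
      exact h3.unique ((hasFDerivAt_const (0 : ℂ) w).congr_of_eventuallyEq h4)
    rw [h2, sub_zero, hdist] at h1
    rw [(hderw w s' s (hcb hp1)).fderiv]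
    exact h1

variable {X : Type} [TopologicalSpace X] [T2Space X] [SecondCountableTopology X]
  [ChartedSpace C2 X] [IsManifold 𝓘(ℂ, C2) ω X] [MeasurableSpace X] [BorelSpace X] {f : X → ℂ}

omit [T2Space X] [SecondCountableTopology X] [IsManifold 𝓘(ℂ, C2) ω X] [MeasurableSpace X]
  [BorelSpace X] in
/-- transition between two boxes -/
theorem ovl_trans {b₁ b₂ : OpenPartialHomeomorph X C2} (hb₁ : IsBox f b₁) (hb₂ : IsBox f b₂) :
    ContDiffOn ℝ 2 (fun z => b₁ (b₂.symm z)) (b₂.target ∩ b₂.symm ⁻¹' b₁.source) := by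
  have h1 : ContMDiffOn 𝓘(ℂ, C2) 𝓘(ℂ, C2) ω (fun z => b₁ (b₂.symm z))
      (b₂.target ∩ b₂.symm ⁻¹' b₁.source) :=
    hb₁.holo.comp (hb₂.holo_symm.mono inter_subset_left) inter_subset_right
  have h2 := contMDiffOn_iff_contDiffOn.1 h1
  exact (h2.restrict_scalars ℝ).of_le le_top

omit [T2Space X] [SecondCountableTopology X] [IsManifold 𝓘(ℂ, C2) ω X] [MeasurableSpace X]
  [BorelSpace X] in
/-- the smooth function `τ - w` of the two fibres and the coordinate -/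
theorem ovl_tau {b₁ b₂ : OpenPartialHomeomorph X C2} (hb₁ : IsBox f b₁) (hb₂ : IsBox f b₂)
    {x₀ : X} (h1 : x₀ ∈ b₁.source) (h2 : x₀ ∈ b₂.source) (h0 : f x₀ = 0) :
    ∃ (Ω : Set (ℂ × ℂ × ℂ)) (H : ℂ × ℂ × ℂ → ℂ), IsOpen Ω ∧ ContDiffOn ℝ 2 H Ω ∧
      (((b₂ x₀).1, 0, 0) : ℂ × ℂ × ℂ) ∈ Ω ∧
      (∀ w s' : ℂ, ((w, s', s') : ℂ × ℂ × ℂ) ∈ Ω → H (w, s', s') = 0) ∧
      ∀ w s' s : ℂ, ((w, s', s) : ℂ × ℂ × ℂ) ∈ Ω → (w, s') ∈ b₂.target ∧
        b₂.symm (w, s') ∈ transDom b₁ s ∧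
        btrans b₁ s (b₂.symm (w, s')) = b₂.symm (w + H (w, s', s), s) := by
  obtain ⟨S₁, hS₁⟩ : ∃ S₁, S₁ = b₂.target ∩ b₂.symm ⁻¹' b₁.source := ⟨_, rfl⟩
  obtain ⟨S₂, hS₂⟩ : ∃ S₂, S₂ = b₁.target ∩ b₁.symm ⁻¹' b₂.source := ⟨_, rfl⟩
  have hS₁o : IsOpen S₁ := by
    rw [hS₁]; exact b₂.isOpen_inter_preimage_symm b₁.open_source
  have hS₂o : IsOpen S₂ := by
    rw [hS₂]; exact b₁.isOpen_inter_preimage_symm b₂.open_source
  have hA : ContDiffOn ℝ 2 (fun z => b₁ (b₂.symm z)) S₁ := by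
    rw [hS₁]; exact ovl_trans hb₁ hb₂
  have hB : ContDiffOn ℝ 2 (fun z => b₂ (b₁.symm z)) S₂ := by
    rw [hS₂]; exact ovl_trans hb₂ hb₁
  let π : ℂ × ℂ × ℂ → C2 := fun p => (p.1, p.2.1)
  have hπ : ContDiff ℝ 2 π := contDiff_fst.prodMk (contDiff_fst.comp contDiff_snd)
  let q : ℂ × ℂ × ℂ → C2 := fun p => ((b₁ (b₂.symm (π p))).1, p.2.2)
  have hq : ContDiffOn ℝ 2 q (π ⁻¹' S₁) := by
    have h3 : ContDiffOn ℝ 2 (fun p => b₁ (b₂.symm (π p))) (π ⁻¹' S₁) :=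
      hA.comp hπ.contDiffOn (fun p hp => hp)
    exact (contDiff_fst.comp_contDiffOn h3).prodMk
      (contDiff_snd.comp contDiff_snd).contDiffOn
  have hΩ₁ : IsOpen (π ⁻¹' S₁) := hS₁o.preimage hπ.continuous
  have hf1 : ∀ x ∈ b₁.source, ∀ s, ((b₁ x).1, s) ∈ b₁.target →
      f (b₁.symm ((b₁ x).1, s)) = s := by
    intro x hx s hs
    have h3 := hb₁.snd _ (b₁.map_target hs)
    rw [b₁.right_inv hs] at h3
    exact h3.symm
  refine ⟨π ⁻¹' S₁ ∩ q ⁻¹' S₂, fun p => (b₂ (b₁.symm (q p))).1 - p.1,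
    hq.continuousOn.isOpen_inter_preimage hΩ₁ hS₂o, ?_, ?_, ?_, ?_⟩
  · have h3 : ContDiffOn ℝ 2 (fun p => b₂ (b₁.symm (q p))) (π ⁻¹' S₁ ∩ q ⁻¹' S₂) :=
      hB.comp (hq.mono inter_subset_left) (fun p hp => hp.2)
    exact (contDiff_fst.comp_contDiffOn h3).sub contDiff_fst.contDiffOn
  · have e1 : ((b₂ x₀).1, (0 : ℂ)) = b₂ x₀ := by
      refine Prod.ext rfl ?_
      show (0 : ℂ) = (b₂ x₀).2
      rw [hb₂.snd _ h2, h0]
    have e2 : ((b₁ x₀).1, (0 : ℂ)) = b₁ x₀ := by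
      refine Prod.ext rfl ?_
      show (0 : ℂ) = (b₁ x₀).2
      rw [hb₁.snd _ h1, h0]
    have e3 : b₂.symm ((b₂ x₀).1, (0 : ℂ)) = x₀ := by rw [e1, b₂.left_inv h2]
    constructor
    · show ((b₂ x₀).1, (0 : ℂ)) ∈ S₁
      rw [hS₁]
      refine ⟨by rw [e1]; exact b₂.map_source h2, ?_⟩
      show b₂.symm ((b₂ x₀).1, (0 : ℂ)) ∈ b₁.source
      rw [e3]; exact h1
    · show ((b₁ (b₂.symm ((b₂ x₀).1, (0 : ℂ)))).1, (0 : ℂ)) ∈ S₂
      rw [e3, e2, hS₂]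
      refine ⟨b₁.map_source h1, ?_⟩
      show b₁.symm (b₁ x₀) ∈ b₂.source
      rw [b₁.left_inv h1]; exact h2
  · rintro w s' ⟨hw1, -⟩
    have hw1' : ((w, s') : C2) ∈ S₁ := hw1
    rw [hS₁] at hw1'
    have hx1 : b₂.symm (w, s') ∈ b₁.source := hw1'.2
    have e1 : ((b₁ (b₂.symm (w, s'))).1, s') = b₁ (b₂.symm (w, s')) := by
      refine Prod.ext rfl ?_
      show s' = (b₁ (b₂.symm (w, s'))).2
      rw [hb₁.snd _ hx1, ← hb₂.snd _ (b₂.map_target hw1'.1), b₂.right_inv hw1'.1]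
    show (b₂ (b₁.symm ((b₁ (b₂.symm (w, s'))).1, s'))).1 - w = 0
    rw [e1, b₁.left_inv hx1, b₂.right_inv hw1'.1]
    simp
  · rintro w s' s ⟨hw1, hw2⟩
    have hw1' : ((w, s') : C2) ∈ S₁ := hw1
    have hw2' : ((b₁ (b₂.symm (w, s'))).1, s) ∈ S₂ := hw2
    rw [hS₁] at hw1'
    rw [hS₂] at hw2'
    refine ⟨hw1'.1, ⟨hw1'.2, hw2'.1⟩, ?_⟩
    show b₁.symm ((b₁ (b₂.symm (w, s'))).1, s) =
      b₂.symm (w + ((b₂ (b₁.symm ((b₁ (b₂.symm (w, s'))).1, s))).1 - w), s)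
    have h3 : b₁.symm ((b₁ (b₂.symm (w, s'))).1, s) ∈ b₂.source := hw2'.2
    have e2 : ((b₂ (b₁.symm ((b₁ (b₂.symm (w, s'))).1, s))).1, s) =
        b₂ (b₁.symm ((b₁ (b₂.symm (w, s'))).1, s)) := by
      refine Prod.ext rfl ?_
      show s = (b₂ (b₁.symm ((b₁ (b₂.symm (w, s'))).1, s))).2
      rw [hb₂.snd _ h3, hf1 _ hw1'.2 s hw2'.1]
    rw [add_sub_cancel, e2, b₂.left_inv h3]

/-- the estimate on a set -/
def OvlP (g : HermMetric X) (f : X → ℂ) (b₁ b₂ : OpenPartialHomeomorph X C2) (S : Set X) : Prop :=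
  ∃ C > 0, ∃ ρ > 0, ∀ s s' : ℂ, ‖s‖ ≤ ρ → ‖s'‖ ≤ ρ → ∀ μ μ' : Measure X,
      IsFibreArea g f s μ → IsFibreArea g f s' μ' → ∀ v ∈ Test f,
      ∫⁻ x in S, ENNReal.ofReal (‖v (btrans b₁ s x) - v (btrans b₂ s x)‖ ^ 2) ∂μ' ≤
        ENNReal.ofReal (C * ‖s - s'‖ ^ 2) * ∫⁻ x, ENNReal.ofReal (gradSq g f v x) ∂μ

/-- energy in the slice of a box -/
theorem ovl_energy (hf : ContMDiff 𝓘(ℂ, C2) 𝓘(ℂ, ℂ) ω f) (g : HermMetric X)
    {b : OpenPartialHomeomorph X C2} (hb : IsBox f b) {s : ℂ} {μ : Measure X}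
    (hμ : IsFibreArea g f s μ) {v : X → ℂ} (hv : v ∈ Test f) {A : Set ℂ} (hA : MeasurableSet A)
    (hAs : A ⊆ sliceDom b s) :
    ∫⁻ w in A, ENNReal.ofReal (‖fderiv ℝ (fun w => v (slice b s w)) w 1‖ ^ 2 +
      ‖fderiv ℝ (fun w => v (slice b s w)) w Complex.I‖ ^ 2) ≤
      ∫⁻ x, ENNReal.ofReal (gradSq g f v x) ∂μ := by
  classical
  have hφ := hb.isParam s
  have hcr : IsClosed (Crit f) := isClosed_crit hf
  have hgc : ContinuousOn (gradSq g f v) (Crit f)ᶜ := by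
    have h1 := continuousOn_gradSq g hf (u := v) isOpen_univ hv.1.contMDiffOn
    rwa [← compl_eq_univ_sdiff] at h1
  let G₀ : X → ENNReal := ((Crit f)ᶜ).indicator (fun x => ENNReal.ofReal (gradSq g f v x))
  have hG₀ : Measurable G₀ := by
    have h1 : G₀ = (Crit f)ᶜ.piecewise (fun x => ENNReal.ofReal (gradSq g f v x)) (fun _ => 0) := by
      exact (piecewise_eq_indicator (s := _) (f := _)).symm
    rw [h1]
    exact (ENNReal.continuous_ofReal.comp_continuousOn hgc).measurable_piecewise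
      continuousOn_const hcr.measurableSet.compl
  have h1 := hμ.lintegral_image hφ hA hAs hG₀
  have h2 : ∫⁻ w in A, ENNReal.ofReal (‖fderiv ℝ (fun w => v (slice b s w)) w 1‖ ^ 2 +
      ‖fderiv ℝ (fun w => v (slice b s w)) w Complex.I‖ ^ 2) =
      ∫⁻ z in A, G₀ (slice b s z) *
        ENNReal.ofReal (g.normSq (slice b s z) (vel (slice b s) z)) := by
    refine setLIntegral_congr_fun hA fun w hw => ?_
    have h3 : slice b s w ∈ (Crit f)ᶜ := hφ.reg w (hAs hw)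
    have h4 : MDifferentiableAt 𝓘(ℝ, C2) 𝓘(ℝ, ℂ) v (slice b s w) :=
      hv.1.contMDiffAt.mdifferentiableAt (by simp)
    show ENNReal.ofReal _ = G₀ (slice b s w) * _
    have h5 : G₀ (slice b s w) = ENNReal.ofReal (gradSq g f v (slice b s w)) :=
      indicator_of_mem h3 _
    rw [h5, ← ENNReal.ofReal_mul (gradSq_nonneg g f v _), hφ.gradSq_eq g hf (hAs hw) h4]
  rw [h2, ← h1]
  refine (setLIntegral_le_lintegral _ _).trans (lintegral_mono fun x => ?_)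
  exact indicator_le_self _ _ x

theorem ovl_local (hf : ContMDiff 𝓘(ℂ, C2) 𝓘(ℂ, ℂ) ω f) (g : HermMetric X)
    {b₁ b₂ : OpenPartialHomeomorph X C2} (hb₁ : IsBox f b₁) (hb₂ : IsBox f b₂)
    {x₀ : X} (h1 : x₀ ∈ b₁.source) (h2 : x₀ ∈ b₂.source) (h0 : f x₀ = 0) :
    ∃ N : Set X, IsOpen N ∧ x₀ ∈ N ∧ OvlP g f b₁ b₂ N := by
  classical
  obtain ⟨Ω, H, hΩ, hH, hp, hH0, hprop⟩ := ovl_tau hb₁ hb₂ h1 h2 h0
  obtain ⟨w₀, hw₀⟩ : ∃ w₀, w₀ = (b₂ x₀).1 := ⟨_, rfl⟩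
  rw [← hw₀] at hp
  obtain ⟨R, hR, M, hM, hin, hbd⟩ := ovl_H hΩ hH hp hH0
  have hr : 0 < R / 2 := half_pos hR
  -- the neighbourhood
  let N : Set X := b₂.source ∩ b₂ ⁻¹' (Metric.ball w₀ (R / 2) ×ˢ Metric.ball (0 : ℂ) (R / 2))
  have hN : IsOpen N := b₂.isOpen_inter_preimage (Metric.isOpen_ball.prod Metric.isOpen_ball)
  have hxN : x₀ ∈ N := by
    refine ⟨h2, ?_, ?_⟩
    · rw [← hw₀]; exact Metric.mem_ball_self hr
    · rw [hb₂.snd _ h2, h0]; exact Metric.mem_ball_self hr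
  have htar : ∀ w s : ℂ, ‖w - w₀‖ ≤ R → ‖s‖ ≤ R → ((w, s) : C2) ∈ b₂.target := fun w s hw hs =>
    (hprop w s s (hin w s s hw hs hs)).1
  -- bound of the density
  have hKc : IsCompact (Metric.closedBall w₀ (R / 2) ×ˢ Metric.closedBall (0 : ℂ) (R / 2)) :=
    (isCompact_closedBall _ _).prod (isCompact_closedBall _ _)
  have hKt : Metric.closedBall w₀ (R / 2) ×ˢ Metric.closedBall (0 : ℂ) (R / 2) ⊆ b₂.target := by
    rintro ⟨w, s⟩ ⟨hw, hs⟩
    rw [Metric.mem_closedBall, dist_eq_norm] at hw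
    rw [mem_closedBall_zero_iff] at hs
    exact htar w s (by linarith) (by linarith)
  obtain ⟨D, hD⟩ := hKc.exists_bound_of_continuousOn ((areaB_dens g hb₂).mono hKt)
  obtain ⟨D', hD'1, hDD⟩ : ∃ D' : ℝ, 1 ≤ D' ∧ D ≤ D' := ⟨max 1 D, le_max_left _ _, le_max_right _ _⟩
  have hM0 : 0 < M := by linarith
  obtain ⟨ρ, hρ, hρ1, hρ2, hρ3⟩ : ∃ ρ > 0, ρ ≤ R / 2 ∧ M * (2 * ρ) ≤ R / 2 ∧
      M * (2 * ρ) ≤ 1 / 2 := by
    refine ⟨min (R / 2) (min (R / (4 * M)) (1 / (4 * M))), by positivity, min_le_left _ _, ?_, ?_⟩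
    · have h3 : min (R / 2) (min (R / (4 * M)) (1 / (4 * M))) ≤ R / (4 * M) :=
        (min_le_right _ _).trans (min_le_left _ _)
      calc M * (2 * min (R / 2) (min (R / (4 * M)) (1 / (4 * M)))) ≤ M * (2 * (R / (4 * M))) := by
            gcongr
        _ = R / 2 := by field_simp; ring
    · have h3 : min (R / 2) (min (R / (4 * M)) (1 / (4 * M))) ≤ 1 / (4 * M) :=
        (min_le_right _ _).trans (min_le_right _ _)
      calc M * (2 * min (R / 2) (min (R / (4 * M)) (1 / (4 * M)))) ≤ M * (2 * (1 / (4 * M))) := by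
            gcongr
        _ = 1 / 2 := by field_simp; ring
  refine ⟨N, hN, hxN, 8 * D' * M ^ 2, by positivity, ρ, hρ, ?_⟩
  intro s s' hs hs' μ μ' hμ hμ' v hv
  have hsR : ‖s‖ ≤ R := by linarith
  have hs'R : ‖s'‖ ≤ R := by linarith
  have hss : ‖s - s'‖ ≤ 2 * ρ := (norm_sub_le _ _).trans (by linarith)
  obtain ⟨hhc, hhb⟩ := hbd s' s hs'R hsR
  have hvc : Continuous v := hv.1.continuous
  -- measurability
  have hNt1 : N ⊆ transDom b₁ s := by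
    intro x hx
    have h3 := hprop (b₂ x).1 (b₂ x).2 s (hin _ _ _ (by
      have := hx.2.1
      rw [Metric.mem_ball, dist_eq_norm] at this
      linarith) (by
      have := hx.2.2
      rw [mem_ball_zero_iff] at this
      linarith) hsR)
    have h4 : b₂.symm ((b₂ x).1, (b₂ x).2) = x := b₂.left_inv hx.1
    rw [h4] at h3
    exact h3.2.1
  have hNt2 : N ⊆ transDom b₂ s := by
    intro x hx
    refine ⟨hx.1, htar _ _ ?_ hsR⟩
    have := hx.2.1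
    rw [Metric.mem_ball, dist_eq_norm] at this
    linarith
  have hFc : ContinuousOn (fun x => ENNReal.ofReal
      (‖v (btrans b₁ s x) - v (btrans b₂ s x)‖ ^ 2)) N := by
    have c1 : ContinuousOn (fun x => v (btrans b₁ s x)) N :=
      hvc.comp_continuousOn ((hb₁.holo_btrans s).continuousOn.mono hNt1)
    have c2 : ContinuousOn (fun x => v (btrans b₂ s x)) N :=
      hvc.comp_continuousOn ((hb₂.holo_btrans s).continuousOn.mono hNt2)
    exact ENNReal.continuous_ofReal.comp_continuousOn ((c1.sub c2).norm.pow 2)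
  let G : X → ENNReal := N.indicator (fun x => ENNReal.ofReal
      (‖v (btrans b₁ s x) - v (btrans b₂ s x)‖ ^ 2))
  have hG : Measurable G := by
    have h3 : G = N.piecewise (fun x => ENNReal.ofReal
      (‖v (btrans b₁ s x) - v (btrans b₂ s x)‖ ^ 2)) (fun _ => 0) := by
      exact (piecewise_eq_indicator (s := _) (f := _)).symm
    rw [h3]
    exact hFc.measurable_piecewise continuousOn_const hN.measurableSet
  -- to the plane
  let V : ℂ → ℂ := fun w => v (slice b₂ s w)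
  let h : ℂ → ℂ := fun w => H (w, s', s)
  have hbig : Metric.ball w₀ (2 * (R / 2)) = Metric.ball w₀ R := by
    congr 1; ring
  have hVc : ContDiffOn ℝ 1 V (Metric.ball w₀ (2 * (R / 2))) := by
    rw [hbig]
    have h3 : ContMDiffOn 𝓘(ℝ, C2) 𝓘(ℝ, C2) ∞ b₂.symm b₂.target := hol_real hb₂.holo_symm
    have h4 : ContMDiffOn 𝓘(ℝ, C2) 𝓘(ℝ, ℂ) ∞ (fun z => v (b₂.symm z)) b₂.target :=
      hv.1.comp_contMDiffOn h3
    have h5 : ContDiffOn ℝ ∞ (fun z => v (b₂.symm z)) b₂.target := contMDiffOn_iff_contDiffOn.1 h4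
    have h6 : ContDiffOn ℝ ∞ (fun w : ℂ => ((w, s) : C2)) (Metric.ball w₀ R) :=
      contDiffOn_id.prodMk contDiffOn_const
    have h7 : ContDiffOn ℝ ∞ V (Metric.ball w₀ R) := by
      refine h5.comp h6 ?_
      intro w hw
      rw [Metric.mem_ball, dist_eq_norm] at hw
      exact htar w s hw.le hsR
    exact h7.of_le (by simp)
  have hε : M * ‖s - s'‖ ≤ R / 2 := (mul_le_mul_of_nonneg_left hss hM0.le).trans hρ2
  have hplan := planar_shift (z₀ := w₀) (r := R / 2) (ε := M * ‖s - s'‖) hr hε (h := h)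
    (by rw [hbig]; exact hhc.differentiableOn (by norm_num)) (by rw [hbig]; exact hhc)
    (by rw [hbig]; exact fun w hw => (hhb w hw).1)
    (by
      rw [hbig]
      intro w hw
      exact (hhb w hw).2.trans ((mul_le_mul_of_nonneg_left hss hM0.le).trans hρ3)) hVc
  have hLHS : ∫⁻ x in N, ENNReal.ofReal (‖v (btrans b₁ s x) - v (btrans b₂ s x)‖ ^ 2) ∂μ' ≤
      ENNReal.ofReal D' * ∫⁻ w in Metric.ball w₀ (R / 2), ENNReal.ofReal
        (‖V (w + h w) - V w‖ ^ 2) := by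
    have e1 : ∫⁻ x in N, ENNReal.ofReal (‖v (btrans b₁ s x) - v (btrans b₂ s x)‖ ^ 2) ∂μ' =
        ∫⁻ x in b₂.source, G x ∂μ' := by
      rw [lintegral_indicator hN.measurableSet, Measure.restrict_restrict hN.measurableSet,
        inter_eq_left.2 (inter_subset_left : N ⊆ b₂.source)]
    rw [e1, hμ'.lintegral_box hf hb₂ hG, ← lintegral_const_mul' _ _ ENNReal.ofReal_ne_top,
      ← lintegral_indicator Metric.isOpen_ball.measurableSet]
    refine le_trans (setLIntegral_mono' (isOpen_sliceDom b₂ s').measurableSet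
      (g := (Metric.ball w₀ (R / 2)).indicator fun w => ENNReal.ofReal D' * ENNReal.ofReal
        (‖V (w + h w) - V w‖ ^ 2)) ?_) (setLIntegral_le_lintegral _ _)
    intro w hw
    by_cases hwN : slice b₂ s' w ∈ N
    · have hbw : b₂ (slice b₂ s' w) = (w, s') := b₂.right_inv hw
      have hw2 := hwN.2
      rw [mem_preimage, hbw] at hw2
      have hwb : w ∈ Metric.ball w₀ (R / 2) := hw2.1
      have hsb : s' ∈ Metric.ball (0 : ℂ) (R / 2) := hw2.2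
      have hGw : G (slice b₂ s' w) = ENNReal.ofReal
          (‖v (btrans b₁ s (slice b₂ s' w)) - v (btrans b₂ s (slice b₂ s' w))‖ ^ 2) :=
        indicator_of_mem hwN _
      rw [indicator_of_mem hwb, hGw, mul_comm]
      have hwR : ‖w - w₀‖ ≤ R := by
        rw [Metric.mem_ball, dist_eq_norm] at hwb; linarith
      have e2 := (hprop w s' s (hin w s' s hwR hs'R hsR)).2.2
      have e3 : btrans b₂ s (slice b₂ s' w) = slice b₂ s w := by
        show b₂.symm ((b₂ (slice b₂ s' w)).1, s) = b₂.symm (w, s)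
        rw [hbw]
      have e4 : btrans b₁ s (slice b₂ s' w) = slice b₂ s (w + h w) := e2
      rw [e3, e4]
      refine mul_le_mul' (ENNReal.ofReal_le_ofReal ?_) le_rfl
      refine (le_abs_self _).trans ((hD _ ⟨?_, ?_⟩).trans hDD)
      · exact Metric.ball_subset_closedBall hwb
      · exact Metric.ball_subset_closedBall hsb
    · have hGw : G (slice b₂ s' w) = 0 := indicator_of_notMem hwN _
      rw [hGw, zero_mul]
      exact bot_le
  have hball : Metric.ball w₀ (2 * (R / 2)) ⊆ sliceDom b₂ s := by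
    rw [hbig]
    intro w hw
    rw [Metric.mem_ball, dist_eq_norm] at hw
    exact htar w s hw.le hsR
  have hen := ovl_energy hf g hb₂ hμ hv Metric.isOpen_ball.measurableSet hball
  have hRHS : ∫⁻ w in Metric.ball w₀ (2 * (R / 2)), ENNReal.ofReal
      (2 * (‖fderiv ℝ V w 1‖ ^ 2 + ‖fderiv ℝ V w Complex.I‖ ^ 2)) ≤
      ENNReal.ofReal 2 * ∫⁻ x, ENNReal.ofReal (gradSq g f v x) ∂μ := by
    have e1 : ∀ w, ENNReal.ofReal (2 * (‖fderiv ℝ V w 1‖ ^ 2 + ‖fderiv ℝ V w Complex.I‖ ^ 2)) =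
        ENNReal.ofReal 2 * ENNReal.ofReal (‖fderiv ℝ V w 1‖ ^ 2 +
          ‖fderiv ℝ V w Complex.I‖ ^ 2) := fun w => ENNReal.ofReal_mul (by norm_num)
    simp_rw [e1]
    rw [lintegral_const_mul' _ _ ENNReal.ofReal_ne_top]
    exact mul_le_mul' le_rfl hen
  calc _ ≤ ENNReal.ofReal D' * ∫⁻ w in Metric.ball w₀ (R / 2), ENNReal.ofReal
        (‖V (w + h w) - V w‖ ^ 2) := hLHS
    _ ≤ ENNReal.ofReal D' * (ENNReal.ofReal (4 * (M * ‖s - s'‖) ^ 2) *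
        (ENNReal.ofReal 2 * ∫⁻ x, ENNReal.ofReal (gradSq g f v x) ∂μ)) :=
        mul_le_mul' le_rfl (hplan.trans (mul_le_mul' le_rfl hRHS))
    _ = ENNReal.ofReal (8 * D' * M ^ 2 * ‖s - s'‖ ^ 2) *
        ∫⁻ x, ENNReal.ofReal (gradSq g f v x) ∂μ := by
        rw [← mul_assoc, ← mul_assoc, ← ENNReal.ofReal_mul (by positivity),
          ← ENNReal.ofReal_mul (by positivity)]
        congr 2
        ring

theorem overlap (hf : ContMDiff 𝓘(ℂ, C2) 𝓘(ℂ, ℂ) ω f) (g : HermMetric X)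
    {b₁ b₂ : OpenPartialHomeomorph X C2} (hb₁ : IsBox f b₁) (hb₂ : IsBox f b₂) {K : Set X}
    (hK : IsCompact K) (hK₁ : K ⊆ b₁.source) (hK₂ : K ⊆ b₂.source) :
    ∃ C > 0, ∃ ρ > 0, ∀ s s' : ℂ, ‖s‖ ≤ ρ → ‖s'‖ ≤ ρ → ∀ μ μ' : Measure X,
      IsFibreArea g f s μ → IsFibreArea g f s' μ' → ∀ v ∈ Test f,
      ∫⁻ x in K, ENNReal.ofReal (‖v (btrans b₁ s x) - v (btrans b₂ s x)‖ ^ 2) ∂μ' ≤
        ENNReal.ofReal (C * ‖s - s'‖ ^ 2) * ∫⁻ x, ENNReal.ofReal (gradSq g f v x) ∂μ := by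
  refine hK.induction_on (p := OvlP g f b₁ b₂) ?_ ?_ ?_ ?_
  · refine ⟨1, one_pos, 1, one_pos, ?_⟩
    intro s s' _ _ μ μ' _ _ v _
    simp
  · rintro S T hST ⟨C, hC, ρ, hρ, h⟩
    refine ⟨C, hC, ρ, hρ, ?_⟩
    intro s s' hs hs' μ μ' hμ hμ' v hv
    exact (lintegral_mono_set hST).trans (h s s' hs hs' μ μ' hμ hμ' v hv)
  · rintro S T ⟨C, hC, ρ, hρ, h⟩ ⟨C', hC', ρ', hρ', h'⟩
    refine ⟨C + C', by positivity, min ρ ρ', lt_min hρ hρ', ?_⟩
    intro s s' hs hs' μ μ' hμ hμ' v hv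
    refine (lintegral_union_le _ _ _).trans ?_
    rw [add_mul, ENNReal.ofReal_add (by positivity) (by positivity), add_mul]
    exact add_le_add
      (h s s' (hs.trans (min_le_left _ _)) (hs'.trans (min_le_left _ _)) μ μ' hμ hμ' v hv)
      (h' s s' (hs.trans (min_le_right _ _)) (hs'.trans (min_le_right _ _)) μ μ' hμ hμ' v hv)
  · intro x hx
    by_cases h0 : f x = 0
    · obtain ⟨N, hN, hxN, hP⟩ := ovl_local hf g hb₁ hb₂ (hK₁ hx) (hK₂ hx) h0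
      exact ⟨N, mem_nhdsWithin_of_mem_nhds (hN.mem_nhds hxN), hP⟩
    · have hpos : 0 < ‖f x‖ := norm_pos_iff.2 h0
      have hfc : Continuous f := hf.continuous
      have hN : IsOpen {y | ‖f x‖ / 2 < ‖f y‖} := isOpen_lt continuous_const hfc.norm
      refine ⟨{y | ‖f x‖ / 2 < ‖f y‖}, mem_nhdsWithin_of_mem_nhds
        (hN.mem_nhds (half_lt_self hpos)), 1, one_pos, ‖f x‖ / 2, half_pos hpos, ?_⟩
      intro s s' _ hs' μ μ' _ hμ' v _
      have h3 : μ' {y | ‖f x‖ / 2 < ‖f y‖} = 0 := by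
        refine measure_mono_null ?_ hμ'.carried
        intro y hy
        left
        rintro rfl
        exact absurd hs' (not_le.2 hy)
      rw [Measure.restrict_eq_zero.2 h3, lintegral_zero_measure]
      exact bot_le

end DD
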