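import Pool.Agent.Work.MP_dd1e4a_gt.PRootB

/-! # PSmooth: smoothness of the transported function -/

open scoped Manifold ContDiff Topology
open MeasureTheory Set

namespace DD

variable {X : Type} [TopologicalSpace X] [T2Space X] [SecondCountableTopology X]
  [ChartedSpace C2 X] [IsManifold 𝓘(ℂ, C2) ω X] {f : X → ℂ}

set_option linter.unusedSectionVars false in
theorem psmooth_b (S : Setup f) : ∃ β > 0, ∀ p ∈ S.P, β ≤ S.b p := by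
  by_cases hne : S.P.Nonempty
  · obtain ⟨q, hq, hmin⟩ := S.P.exists_min_image S.b hne
    exact ⟨S.b q, (S.loc q hq).b_pos, fun p hp => hmin p hp⟩
  · exact ⟨1, one_pos, fun p hp => absurd ⟨p, hp⟩ hne⟩

theorem p_smooth (S : Setup f) (hf : ContMDiff 𝓘(ℂ, C2) 𝓘(ℂ, ℂ) ω f) :
    ∃ ε₀ > 0, ∀ ε : ℝ, 0 < ε → ε < ε₀ → ∀ p ∈ S.P, ∀ s : ℂ, ‖s‖ ≤ ε →
      ∀ v ∈ Test f, S.CoreZero ε v →
      ContMDiffOn 𝓘(ℝ, C2) 𝓘(ℝ, ℂ) ∞ (fun x => v (S.ptrans p ε s x))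
        {x | x ∈ S.bidisc p ∧ ‖f x‖ < 2 * ε} ∧
      ∀ x ∈ S.bidisc p, ‖f x‖ < 2 * ε → ‖S.c1 p x‖ ≤ ε ^ S.τ → v (S.ptrans p ε s x) = 0 := by
  obtain ⟨D, hD, ε₀, hε₀, hprops⟩ := ptrans_props S hf
  obtain ⟨ε₁, hε₁, hholo⟩ := ptrans_holo S hf
  obtain ⟨β, hβ, hβb⟩ := psmooth_b S
  have hc0 := S.c_pos
  refine ⟨min (min ε₀ ε₁) (min (S.c / 2) ((β / 4) ^ 2)), by positivity, ?_⟩
  intro ε hε hεε p hp s hs v hv hv0
  have h := hprops ε hε (hεε.trans_le ((min_le_left _ _).trans (min_le_left _ _))) p hp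
  have hh := hholo ε hε (hεε.trans_le ((min_le_left _ _).trans (min_le_right _ _))) p hp s hs
  have hεc : ε < S.c / 2 := hεε.trans_le ((min_le_right _ _).trans (min_le_left _ _))
  have hεb : ε < (β / 4) ^ 2 := hεε.trans_le ((min_le_right _ _).trans (min_le_right _ _))
  have hsq : ε ^ (1 / 2 : ℝ) < S.b p / 4 := by
    have h1 : (ε ^ (1 / 2 : ℝ)) ^ 2 < (β / 4) ^ 2 := by
      rw [← Real.rpow_natCast, ← Real.rpow_mul hε.le]
      norm_num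
      exact hεb
    have h2 : ε ^ (1 / 2 : ℝ) < β / 4 := lt_of_pow_lt_pow_left₀ 2 (by positivity) h1
    have h3 := hβb p hp
    linarith
  have hzero : ∀ x ∈ S.bidisc p, ‖f x‖ < 2 * ε → ‖S.c1 p x‖ ≤ ε ^ S.τ →
      v (S.ptrans p ε s x) = 0 := by
    intro x hx hfx hx1
    obtain ⟨h1, h2, h3⟩ := h.fst s x hx hfx
    have h4 : ‖S.c2 p x‖ < S.b p / 2 := far_fibre S hp hx.1 hx.2.1.le hx.2.2.le (by linarith)
    apply hv0 p hp _ h1
    · rw [h2]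
      exact hx1
    · have h5 := norm_add_le (S.c2 p x) (S.c2 p (S.ptrans p ε s x) - S.c2 p x)
      rw [add_sub_cancel] at h5
      linarith
  refine ⟨?_, hzero⟩
  intro x₀ hx₀
  apply ContMDiffAt.contMDiffWithinAt
  have hopen : IsOpen {x | x ∈ S.bidisc p ∧ ‖f x‖ < 2 * ε} :=
    (isOpen_bidisc S p).inter (isOpen_lt hf.continuous.norm continuous_const)
  rcases lt_or_ge ‖S.c1 p x₀‖ (ε ^ S.τ) with h1 | h1
  · have hc1 : ContinuousAt (S.c1 p) x₀ :=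
      continuous_fst.continuousAt.comp ((S.e p).continuousAt hx₀.1.1)
    have h2 : ∀ᶠ x in 𝓝 x₀, ‖S.c1 p x‖ < ε ^ S.τ := hc1.norm.eventually_lt continuousAt_const h1
    have h3 : (fun x => v (S.ptrans p ε s x)) =ᶠ[𝓝 x₀] fun _ => (0 : ℂ) := by
      filter_upwards [h2, hopen.mem_nhds hx₀] with x h4 h5
      exact hzero x h5.1 h5.2 h4.le
    exact contMDiffAt_const.congr_of_eventuallyEq h3
  · have hx₀p : x₀ ∈ S.pdom p ε := by
      refine ⟨hx₀.1, ?_, hx₀.2⟩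
      have : 0 < ε ^ S.τ := Real.rpow_pos_of_pos hε _
      linarith
    have h2 : ContMDiffAt 𝓘(ℝ, C2) 𝓘(ℝ, C2) ∞ (S.ptrans p ε s) x₀ :=
      (hol_real hh).contMDiffAt (h.isOpen.mem_nhds hx₀p)
    have h3 : ContMDiff 𝓘(ℝ, C2) 𝓘(ℝ, ℂ) ∞ v := hv.1
    exact h3.contMDiffAt.comp x₀ h2

end DD
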