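import Pool.Agent.Work.MP_dd1e4a_gt.PRootC
import Pool.Agent.Work.MP_dd1e4a_gt.ChangeFibre
import Pool.Agent.Work.MP_dd1e4a_gt.AreaC
import Pool.Agent.Work.MP_dd1e4a_gt.PSmooth

/-! # PEnergy: energy under the transport near a critical point

* `p_energy`: `A = {x ∈ pdom | f x = s'}`, `B = {x ∈ bidisc | f x = s', ‖c1 x‖ ≤ ε^τ / 2}`. On `B`
  the function `v ∘ ptrans` vanishes near the point, `A` and `B` cover the fibre `s'` in the bidisc,
  and `Θ p = 0` off the bidisc. On `A`: `IsTransport.change` with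
  `G = ofReal Θ * ofReal (gradSq v)` (measurable off `Crit f`, a null set), `gradSq_comp`;
  `Θ p (ptrans x) = θ (c1 x) = Θ p x` on the fibres (`κ = 1` for `‖c2‖ ≤ 3b/4`, `far_fibre`). -/

open scoped Manifold ContDiff Topology
open MeasureTheory Set

namespace DD

variable {X : Type} [TopologicalSpace X] [T2Space X] [SecondCountableTopology X]
  [ChartedSpace C2 X] [IsManifold 𝓘(ℂ, C2) ω X] [MeasurableSpace X] [BorelSpace X] {f : X → ℂ}

private theorem PEnergy_tan {x : X} (hx : x ∈ Crit f) : tanVec f x = 0 := by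
  have h : mfderiv 𝓘(ℂ, C2) 𝓘(ℂ, ℂ) f x = 0 := hx
  unfold tanVec
  rw [h]
  exact Prod.ext (neg_zero (G := ℂ)) rfl

private theorem PEnergy_crit (g : HermMetric X) (v : X → ℂ) {x : X} (hx : x ∈ Crit f) :
    gradSq g f v x = 0 := by
  have h0 : g.normSq x (tanVec f x) = 0 := by
    rw [PEnergy_tan hx]
    have h1 := normSq_smul g x (0 : ℂ) (0 : TangentSpace 𝓘(ℂ, C2) x)
    rw [zero_smul] at h1
    rw [h1]
    simp
  unfold gradSq
  rw [h0, div_zero]

private theorem PEnergy_meas (hf : ContMDiff 𝓘(ℂ, C2) 𝓘(ℂ, ℂ) ω f) (g : HermMetric X)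
    {v : X → ℂ} (hv : v ∈ Test f) : Measurable (gradSq g f v) := by
  classical
  have h1 : ContinuousOn (gradSq g f v) (univ \ Crit f) :=
    continuousOn_gradSq g hf isOpen_univ hv.1.contMDiffOn
  have hcl : IsClosed (Crit f) := isClosed_crit hf
  have hms : MeasurableSet (univ \ Crit f) := MeasurableSet.univ.diff hcl.measurableSet
  have h2 : Measurable ((univ \ Crit f).piecewise (gradSq g f v) (fun _ => (0 : ℝ))) :=
    h1.measurable_piecewise continuousOn_const hms
  have h3 : (univ \ Crit f).piecewise (gradSq g f v) (fun _ => (0 : ℝ)) = gradSq g f v := by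
    funext x
    by_cases hx : x ∈ Crit f
    · rw [Set.piecewise_eq_of_notMem _ _ _ (by simp [hx]), PEnergy_crit g v hx]
    · rw [Set.piecewise_eq_of_mem _ _ _ (by simp [hx])]
  rwa [h3] at h2

private theorem PEnergy_zero (g : HermMetric X) (x : X) :
    gradSq g f (fun _ : X => (0 : ℂ)) x = 0 := by
  have h : ∀ w : TangentSpace 𝓘(ℂ, C2) x, dR (fun _ : X => (0 : ℂ)) x w = 0 := by
    intro w
    unfold dR
    rw [mfderiv_const]
    rfl
  unfold gradSq
  rw [h, h]
  simp

private theorem PEnergy_Theta (S : Setup f) {p : X} (hp : p ∈ S.P) {x : X} (hx : x ∈ S.bidisc p)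
    (hfx : ‖f x‖ < S.c) : S.Θ p x = S.θ (S.c1 p x) := by
  have h1 := far_fibre S hp hx.1 (le_of_lt hx.2.1) (le_of_lt hx.2.2) hfx
  have hb := (S.loc p hp).b_pos
  unfold Setup.Θ extC
  rw [if_pos hx.1]
  have h2 : S.κ p (S.e p x).2 = 1 := by
    apply S.κ_one p hp
    have : ‖(S.e p x).2‖ < S.b p / 2 := h1
    linarith
  show S.θ (S.e p x).1 * S.κ p (S.e p x).2 = S.θ (S.c1 p x)
  rw [h2, mul_one]
  rfl

private theorem PEnergy_Theta0 (S : Setup f) {p : X} (hp : p ∈ S.P) {x : X}
    (hx : x ∉ S.bidisc p) : S.Θ p x = 0 := by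
  have h := (tsupport_Θ S p hp).1
  by_contra hne
  exact hx (h (subset_tsupport _ hne))

theorem p_energy (S : Setup f) (g : HermMetric X) (hf : ContMDiff 𝓘(ℂ, C2) 𝓘(ℂ, ℂ) ω f) :
    ∃ ε₀ > 0, ∀ ε : ℝ, 0 < ε → ε < ε₀ → ∀ p ∈ S.P, ∀ s s' : ℂ, ‖s‖ ≤ ε → ‖s'‖ ≤ ε →
      ∀ μ μ' : Measure X, IsFibreArea g f s μ → IsFibreArea g f s' μ' →
      ∀ v ∈ Test f, S.CoreZero ε v →
      ∫⁻ x, ENNReal.ofReal (S.Θ p x) *
          ENNReal.ofReal (gradSq g f (fun y => v (S.ptrans p ε s y)) x) ∂μ' ≤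
        ∫⁻ x, ENNReal.ofReal (S.Θ p x) * ENNReal.ofReal (gradSq g f v x) ∂μ := by
  obtain ⟨ε1, hε1, htr⟩ := ptrans_transport S hf
  obtain ⟨ε2, hε2, hsm⟩ := p_smooth S hf
  obtain ⟨D, hD, ε3, hε3, hpr⟩ := ptrans_props S hf
  have hc := S.c_pos
  refine ⟨min (min ε1 ε2) (min ε3 S.c), lt_min (lt_min hε1 hε2) (lt_min hε3 hc), ?_⟩
  intro ε hε hεlt p hp s s' hs hs' μ μ' hμ hμ' v hv hcz
  have g1 : ε < ε1 := hεlt.trans_le ((min_le_left _ _).trans (min_le_left _ _))
  have g2 : ε < ε2 := hεlt.trans_le ((min_le_left _ _).trans (min_le_right _ _))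
  have g3 : ε < ε3 := hεlt.trans_le ((min_le_right _ _).trans (min_le_left _ _))
  have g4 : ε < S.c := hεlt.trans_le ((min_le_right _ _).trans (min_le_right _ _))
  have hσ := htr ε hε g1 p hp s s' hs hs'
  obtain ⟨-, hzero⟩ := hsm ε hε g2 p hp s hs v hv hcz
  have hP := hpr ε hε g3 p hp
  have hfc : Continuous f := hf.continuous
  have hτpos : 0 < ε ^ S.τ := Real.rpow_pos_of_pos hε _
  set A : Set X := S.pdom p ε ∩ f ⁻¹' {s'} with hA
  have hAm : MeasurableSet A :=
    hσ.isOpen.measurableSet.inter (isClosed_singleton.preimage hfc).measurableSet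
  set G : X → ENNReal := fun q => ENNReal.ofReal (S.Θ p q) *
    ENNReal.ofReal (gradSq g f v q) with hG
  have hGm : Measurable G := by
    have h1 : Measurable (S.Θ p) := (tsupport_Θ S p hp).2.2.1.continuous.measurable
    exact h1.ennreal_ofReal.mul (PEnergy_meas hf g hv).ennreal_ofReal
  have hchange := hσ.change hf hμ hμ' hAm (Subset.refl _) hGm
  calc ∫⁻ x, ENNReal.ofReal (S.Θ p x) *
          ENNReal.ofReal (gradSq g f (fun y => v (S.ptrans p ε s y)) x) ∂μ'
      ≤ ∫⁻ x, A.indicator (fun x => G (S.ptrans p ε s x) *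
          ENNReal.ofReal (ratio g f (S.ptrans p ε s) x)) x ∂μ' := by
        apply lintegral_mono_ae
        filter_upwards [hμ'.ae_fibre] with x hx
        by_cases hxb : x ∈ S.bidisc p
        · have hfx : ‖f x‖ < 2 * ε := by rw [hx.1]; linarith
          by_cases hx1 : ε ^ S.τ / 2 < ‖S.c1 p x‖
          · have hxA : x ∈ A := ⟨⟨hxb, hx1, hfx⟩, hx.1⟩
            rw [Set.indicator_of_mem hxA]
            have hc' : gradSq g f (fun y => v (S.ptrans p ε s y)) x =
                gradSq g f v (S.ptrans p ε s x) * ratio g f (S.ptrans p ε s) x :=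
              hσ.gradSq_comp (g := g) hf hv.1 hxA.1
            obtain ⟨k1, k2, k3⟩ := hP.fst s x hxb hfx
            have k4 : f (S.ptrans p ε s x) = s := hσ.fib x hxA.1
            have hΘ : S.Θ p (S.ptrans p ε s x) = S.Θ p x := by
              rw [PEnergy_Theta S hp k1 (by rw [k4]; linarith),
                PEnergy_Theta S hp hxb (by rw [hx.1]; linarith), k2]
            rw [hc', ENNReal.ofReal_mul (gradSq_nonneg g f v _), ← mul_assoc, hG]
            simp only
            rw [hΘ]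
          · -- the function vanishes near the point
            push Not at hx1
            have hopen : IsOpen {y | y ∈ S.bidisc p ∧ ‖f y‖ < 2 * ε} :=
              (isOpen_bidisc S p).inter (isOpen_lt hfc.norm continuous_const)
            have hev : (fun y => v (S.ptrans p ε s y)) =ᶠ[𝓝 x] (fun _ => (0 : ℂ)) := by
              have hcont : ContinuousAt (fun y => ‖S.c1 p y‖) x := by
                have h1 : ContinuousAt (S.e p) x := (S.e p).continuousAt hxb.1
                exact (continuous_fst.continuousAt.comp h1).norm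
              have hlt : ‖S.c1 p x‖ < ε ^ S.τ := by linarith
              have h2 : ∀ᶠ y in 𝓝 x, ‖S.c1 p y‖ < ε ^ S.τ := hcont.eventually (gt_mem_nhds hlt)
              filter_upwards [h2, hopen.mem_nhds ⟨hxb, hfx⟩] with y hy1 hy2
              exact hzero y hy2.1 hy2.2 hy1.le
            rw [gradSq_congr g hev, PEnergy_zero]
            simp
        · rw [PEnergy_Theta0 S hp hxb]
          simp
    _ = ∫⁻ x in A, G (S.ptrans p ε s x) * ENNReal.ofReal (ratio g f (S.ptrans p ε s) x) ∂μ' :=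
        lintegral_indicator hAm _
    _ = ∫⁻ x in S.ptrans p ε s '' A, G x ∂μ := hchange.symm
    _ ≤ ∫⁻ x, G x ∂μ := setLIntegral_le_lintegral _ _

end DD
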