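import Pool.Agent.Work.MP_dd1e4a_gt.PRatio
import Pool.Agent.Work.MP_dd1e4a_gt.ChangeFibre
import Pool.Agent.Work.MP_dd1e4a_gt.PSmooth

/-! # PMass: mass under the transport near a critical point

* `p_mass`: `A = {x ∈ pdom | f x = s'}`, `δ = ε^(1/2)`; `IsTransport.change` with
  `G = ofReal (Θ - C δ) * ofReal (‖v‖²)`, `ratio ≤ 1 + C δ` and the surjectivity of `ptrans s` from
  the fibre `s'` onto the fibre `s` in `pdom` (`inv`); `v = 0` on the fibre `s` in the bidisc where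
  `‖c1‖ ≤ ε^τ`; `Θ p (ptrans x) = θ (c1 x) = Θ p x` on the fibres (`κ = 1` for `‖c2‖ ≤ 3b/4`,
  `far_fibre`). -/

open scoped Manifold ContDiff Topology
open MeasureTheory Set

namespace DD

variable {X : Type} [TopologicalSpace X] [T2Space X] [SecondCountableTopology X]
  [ChartedSpace C2 X] [IsManifold 𝓘(ℂ, C2) ω X] [MeasurableSpace X] [BorelSpace X] {f : X → ℂ}

theorem p_mass (S : Setup f) (g : HermMetric X) (hf : ContMDiff 𝓘(ℂ, C2) 𝓘(ℂ, ℂ) ω f) :
    ∃ C > 0, ∃ ε₀ > 0, ∀ ε : ℝ, 0 < ε → ε < ε₀ → ∀ p ∈ S.P, ∀ s s' : ℂ, ‖s‖ ≤ ε → ‖s'‖ ≤ ε →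
      ∀ μ μ' : Measure X, IsFibreArea g f s μ → IsFibreArea g f s' μ' →
      ∀ v ∈ Test f, S.CoreZero ε v →
      ∫⁻ x, ENNReal.ofReal (S.Θ p x - C * ε ^ (1 / 2 : ℝ)) * ENNReal.ofReal (‖v x‖ ^ 2) ∂μ ≤
        ∫⁻ x, ENNReal.ofReal (S.Θ p x) *
          ENNReal.ofReal (‖v (S.ptrans p ε s x)‖ ^ 2) ∂μ' := by
  obtain ⟨C, hC, ε₁, hε₁, hratio⟩ := ptrans_ratio S g hf
  obtain ⟨D, hD, ε₂, hε₂, hprops⟩ := ptrans_props S hf
  obtain ⟨ε₃, hε₃, htrans⟩ := ptrans_transport S hf
  have hc0 := S.c_pos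
  refine ⟨C, hC, min (min ε₁ ε₂) (min ε₃ S.c), by positivity, ?_⟩
  intro ε hε hεε p hp s s' hs hs' μ μ' hμ hμ' v hv hv0
  have hεε1 : ε < ε₁ := hεε.trans_le ((min_le_left _ _).trans (min_le_left _ _))
  have hεε2 : ε < ε₂ := hεε.trans_le ((min_le_left _ _).trans (min_le_right _ _))
  have hεε3 : ε < ε₃ := hεε.trans_le ((min_le_right _ _).trans (min_le_left _ _))
  have hεc : ε < S.c := hεε.trans_le ((min_le_right _ _).trans (min_le_right _ _))
  have hr := hratio ε hε hεε1 p hp s s' hs hs'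
  have hP := hprops ε hε hεε2 p hp
  have hσ := htrans ε hε hεε3 p hp s s' hs hs'
  set δ : ℝ := ε ^ (1 / 2 : ℝ) with hδ
  have hδ0 : 0 < δ := Real.rpow_pos_of_pos hε _
  obtain ⟨hΘ1, hΘ2, hΘ3, hΘ4, _⟩ := tsupport_Θ S p hp
  have hΘ0 : ∀ x, x ∉ S.bidisc p → S.Θ p x = 0 := fun x hx =>
    image_eq_zero_of_notMem_tsupport (fun h => hx (hΘ1 h))
  have hbp := (S.loc p hp).b_pos
  have hfar : ∀ x ∈ S.bidisc p, ‖f x‖ ≤ ε → ‖S.c2 p x‖ < S.b p / 2 := fun x hx hfx =>
    far_fibre S hp hx.1 hx.2.1.le hx.2.2.le (lt_of_le_of_lt hfx hεc)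
  have hΘeq : ∀ x ∈ S.bidisc p, ‖f x‖ ≤ ε → S.Θ p x = S.θ (S.c1 p x) := by
    intro x hx hfx
    have h1 := hfar x hx hfx
    have e1 : S.Θ p x = S.θ (S.c1 p x) * S.κ p (S.c2 p x) := by
      unfold Setup.Θ extC
      rw [if_pos hx.1]
      rfl
    rw [e1, S.κ_one p hp _ (by linarith), mul_one]
  have hΘcont : Continuous (S.Θ p) := hΘ3.continuous
  have hvcont : Continuous v := hv.1.continuous
  set G : X → ENNReal := fun x =>
    ENNReal.ofReal (S.Θ p x - C * δ) * ENNReal.ofReal (‖v x‖ ^ 2) with hG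
  have hGm : Measurable G := by
    have g1 : Measurable (fun x => ENNReal.ofReal (S.Θ p x - C * δ)) :=
      (hΘcont.sub continuous_const).measurable.ennreal_ofReal
    have g2 : Measurable (fun x => ENNReal.ofReal (‖v x‖ ^ 2)) :=
      (hvcont.norm.pow 2).measurable.ennreal_ofReal
    exact g1.mul g2
  set A : Set X := S.pdom p ε ∩ f ⁻¹' {s'} with hA
  have hAm : MeasurableSet A :=
    hP.isOpen.measurableSet.inter ((isClosed_singleton.preimage hf.continuous).measurableSet)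
  have hS := IsTransport.measurableSet_image hσ hAm subset_rfl
  have hchange := IsTransport.change hf hσ hμ hμ' hAm subset_rfl hGm
  have hpt : ∀ q, f q = s → G q ≤ (S.ptrans p ε s '' A).indicator G q := by
    intro q hq
    by_cases hqd : q ∈ S.pdom p ε
    · obtain ⟨h1, h2⟩ := hP.inv s' s hs' hs q hqd hq
      have h3 := hP.fib s' hs' q hqd
      have hin : q ∈ S.ptrans p ε s '' A := ⟨S.ptrans p ε s' q, ⟨h1, h3⟩, h2⟩
      rw [indicator_of_mem hin]
    · have h0 : G q = 0 := by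
        by_cases hqb : q ∈ S.bidisc p
        · have hsm : ‖S.c1 p q‖ ≤ ε ^ S.τ := by
            by_contra h
            refine hqd ⟨hqb, ?_, ?_⟩
            · have h4 := not_le.mp h
              have h5 : 0 < ε ^ S.τ := Real.rpow_pos_of_pos hε _
              linarith
            · rw [hq]
              linarith
          have h6 := hfar q hqb (by rw [hq]; exact hs)
          have h7 := hv0 p hp q hqb hsm (by linarith)
          simp only [hG]
          rw [h7]
          simp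
        · simp only [hG]
          rw [hΘ0 q hqb, ENNReal.ofReal_of_nonpos (by nlinarith [mul_pos hC hδ0]), zero_mul]
      rw [h0]
      exact bot_le
  calc ∫⁻ x, G x ∂μ ≤ ∫⁻ x, (S.ptrans p ε s '' A).indicator G x ∂μ := by
        refine lintegral_mono_ae ?_
        filter_upwards [IsFibreArea.ae_fibre hμ] with x hx
        exact hpt x hx.1
    _ = ∫⁻ x in S.ptrans p ε s '' A, G x ∂μ := lintegral_indicator hS _
    _ = ∫⁻ x in A, G (S.ptrans p ε s x) * ENNReal.ofReal (ratio g f (S.ptrans p ε s) x) ∂μ' :=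
        hchange
    _ ≤ ∫⁻ x in A, ENNReal.ofReal (S.Θ p x) *
          ENNReal.ofReal (‖v (S.ptrans p ε s x)‖ ^ 2) ∂μ' := by
        refine setLIntegral_mono' hAm (fun x hx => ?_)
        have hfx : f x = s' := hx.2
        have hxb : x ∈ S.bidisc p := hx.1.1
        obtain ⟨h1, h2, _⟩ := hP.fst s x hxb hx.1.2.2
        have h3 := hP.fib s hs x hx.1
        have hΘσ : S.Θ p (S.ptrans p ε s x) = S.Θ p x := by
          rw [hΘeq x hxb (by rw [hfx]; exact hs'), hΘeq _ h1 (by rw [h3]; exact hs), h2]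
        have hrx : ratio g f (S.ptrans p ε s) x ≤ 1 + C * δ := by
          have := (abs_le.mp (hr x hx.1 hfx)).2
          linarith
        simp only [hG]
        rw [mul_right_comm, hΘσ]
        refine mul_le_mul_left ?_ _
        by_cases hpos : 0 < S.Θ p x - C * δ
        · rw [← ENNReal.ofReal_mul hpos.le]
          refine ENNReal.ofReal_le_ofReal ?_
          calc (S.Θ p x - C * δ) * ratio g f (S.ptrans p ε s) x
              ≤ (S.Θ p x - C * δ) * (1 + C * δ) := mul_le_mul_of_nonneg_left hrx hpos.le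
            _ ≤ S.Θ p x := by
                have k1 : 0 ≤ C * δ := (mul_pos hC hδ0).le
                have k2 : 0 ≤ C * δ * (1 - S.Θ p x) := mul_nonneg k1 (sub_nonneg.mpr (hΘ4 x).2)
                have k3 : 0 ≤ (C * δ) * (C * δ) := mul_nonneg k1 k1
                have k4 : (S.Θ p x - C * δ) * (1 + C * δ) =
                  S.Θ p x - C * δ * (1 - S.Θ p x) - (C * δ) * (C * δ) := by ring
                rw [k4]
                linarith
        · rw [ENNReal.ofReal_of_nonpos (not_lt.mp hpos), zero_mul]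
          exact bot_le
    _ ≤ ∫⁻ x, ENNReal.ofReal (S.Θ p x) *
          ENNReal.ofReal (‖v (S.ptrans p ε s x)‖ ^ 2) ∂μ' :=
        setLIntegral_le_lintegral _ _

end DD
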