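import Pool.Agent.Work.MP_dd1e4a_gt.PRootC
import Pool.Agent.Work.MP_dd1e4a_gt.MetC

/-! # PRatio: the area ratio of the transport near a critical point -/

open scoped Manifold ContDiff Topology
open MeasureTheory Set

namespace DD

theorem pratio_quot {q D M B : ℝ} (hq : 0 < q) (hq1 : q ≤ 1) (hD : 0 < D) (hM : 0 ≤ M)
    (hB : 0 ≤ B) {a a' b b' : ℂ} (ha : ‖a‖ ≤ M) (ha' : ‖a'‖ ≤ M) (hb : q / D ≤ ‖b‖)
    (hb' : q / D ≤ ‖b'‖) (haa : ‖a - a'‖ ≤ B * (D * q ^ 7)) (hbb : ‖b - b'‖ ≤ B * (D * q ^ 7)) :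
    ‖a / b‖ ≤ M * D / q ∧ ‖a' / b'‖ ≤ M * D / q ∧
      ‖a / b - a' / b'‖ ≤ (B * D ^ 2 + M * B * D ^ 3) * q ^ 5 := by
  have hqD : 0 < q / D := by positivity
  have hb0 : 0 < ‖b‖ := lt_of_lt_of_le hqD hb
  have hb0' : 0 < ‖b'‖ := lt_of_lt_of_le hqD hb'
  have hib : ‖b‖⁻¹ ≤ D / q := by
    rw [inv_le_comm₀ hb0 (by positivity), inv_div]
    exact hb
  have hib' : ‖b'‖⁻¹ ≤ D / q := by
    rw [inv_le_comm₀ hb0' (by positivity), inv_div]
    exact hb'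
  have hinvb : 0 ≤ ‖b‖⁻¹ := by positivity
  have hinvb' : 0 ≤ ‖b'‖⁻¹ := by positivity
  refine ⟨?_, ?_, ?_⟩
  · rw [norm_div, div_eq_mul_inv]
    calc ‖a‖ * ‖b‖⁻¹ ≤ M * (D / q) := by gcongr
      _ = M * D / q := by ring
  · rw [norm_div, div_eq_mul_inv]
    calc ‖a'‖ * ‖b'‖⁻¹ ≤ M * (D / q) := by gcongr
      _ = M * D / q := by ring
  · have hbn : b ≠ 0 := norm_pos_iff.1 hb0
    have hbn' : b' ≠ 0 := norm_pos_iff.1 hb0'
    have e1 : a / b - a' / b' = (a - a') / b + a' * (b' - b) / (b * b') := by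
      field_simp
      ring
    rw [e1]
    refine (norm_add_le _ _).trans ?_
    rw [norm_div, norm_div, norm_mul, norm_mul, norm_sub_rev b' b, div_eq_mul_inv, div_eq_mul_inv,
      mul_inv]
    have h1 : ‖a - a'‖ * ‖b‖⁻¹ ≤ B * D ^ 2 * q ^ 5 := by
      calc ‖a - a'‖ * ‖b‖⁻¹ ≤ (B * (D * q ^ 7)) * (D / q) := by gcongr
        _ = B * D ^ 2 * q ^ 5 * q := by
            field_simp
        _ ≤ B * D ^ 2 * q ^ 5 * 1 := by gcongr
        _ = _ := mul_one _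
    have h2 : ‖a'‖ * ‖b - b'‖ * (‖b‖⁻¹ * ‖b'‖⁻¹) ≤ M * B * D ^ 3 * q ^ 5 := by
      calc ‖a'‖ * ‖b - b'‖ * (‖b‖⁻¹ * ‖b'‖⁻¹) ≤ M * (B * (D * q ^ 7)) * (D / q * (D / q)) := by
            gcongr
        _ = M * B * D ^ 3 * q ^ 5 := by
            field_simp
    linarith

variable {X : Type} [TopologicalSpace X] [ChartedSpace C2 X] [IsManifold 𝓘(ℂ, C2) ω X]

theorem pratio_lip (g : HermMetric X) (e : OpenPartialHomeomorph X C2)
    (he : ContMDiffOn 𝓘(ℂ, C2) 𝓘(ℂ, C2) ω e e.source)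
    (he' : ContMDiffOn 𝓘(ℂ, C2) 𝓘(ℂ, C2) ω e.symm e.target)
    {K : Set C2} (hK : IsCompact K) (hKc : Convex ℝ K) (hKt : K ⊆ e.target) :
    ∃ Λ : ℝ, 0 ≤ Λ ∧ ∀ z ∈ K, ∀ z' ∈ K, ∀ w w' : C2, ‖w‖ ≤ 1 → ‖w'‖ ≤ 1 →
      |metE g e z' w' - metE g e z w| ≤ Λ * (‖z' - z‖ + ‖w' - w‖) := by
  set T : Set (C2 × C2) := K ×ˢ Metric.closedBall (0 : C2) 1 with hT
  have hTc : IsCompact T := hK.prod (isCompact_closedBall _ _)
  have hTv : Convex ℝ T := hKc.prod (convex_closedBall _ _)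
  have hO : IsOpen (e.target ×ˢ (univ : Set C2)) := e.open_target.prod isOpen_univ
  have hTO : T ⊆ e.target ×ˢ (univ : Set C2) := prod_mono hKt (subset_univ _)
  have hs := smooth_metE g e he he'
  have hcd : ContinuousOn (fderiv ℝ (fun z : C2 × C2 => metE g e z.1 z.2))
      (e.target ×ˢ (univ : Set C2)) := hs.continuousOn_fderiv_of_isOpen hO (by simp)
  obtain ⟨L, hL⟩ := hTc.bddAbove_image (hcd.mono hTO).norm
  refine ⟨max L 0, le_max_right _ _, fun z hz z' hz' w w' hw hw' => ?_⟩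
  have h1 := hTv.norm_image_sub_le_of_norm_fderiv_le (𝕜 := ℝ)
    (f := fun z : C2 × C2 => metE g e z.1 z.2) (C := max L 0) (x := (z, w)) (y := (z', w'))
    (fun x hx => (hs.contDiffAt (hO.mem_nhds (hTO hx))).differentiableAt (by simp))
    (fun x hx => (hL (mem_image_of_mem _ hx)).trans (le_max_left _ _))
    ⟨hz, mem_closedBall_zero_iff.2 hw⟩ ⟨hz', mem_closedBall_zero_iff.2 hw'⟩
  rw [Real.norm_eq_abs] at h1
  refine h1.trans ?_
  apply mul_le_mul_of_nonneg_left _ (le_max_right _ _)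
  rw [Prod.norm_def]
  apply max_le
  · have := norm_nonneg (w' - w)
    simp only [Prod.fst_sub]
    linarith
  · have := norm_nonneg (z' - z)
    simp only [Prod.snd_sub]
    linarith

omit [TopologicalSpace X] [ChartedSpace C2 X] [IsManifold 𝓘(ℂ, C2) ω X] in
theorem pratio_unif {P : Finset X} {Q : X → ℝ → ℝ → Prop}
    (hmono : ∀ p C C' ε, C ≤ C' → Q p C ε → Q p C' ε)
    (h : ∀ p ∈ P, ∃ C > 0, ∃ ε₀ > 0, ∀ ε : ℝ, 0 < ε → ε < ε₀ → Q p C ε) :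
    ∃ C > 0, ∃ ε₀ > 0, ∀ ε : ℝ, 0 < ε → ε < ε₀ → ∀ p ∈ P, Q p C ε := by
  classical
  induction P using Finset.induction_on with
  | empty => exact ⟨1, one_pos, 1, one_pos, fun ε _ _ p hp => absurd hp (Finset.notMem_empty p)⟩
  | insert p T hpT ih =>
    obtain ⟨D, hD, ε₀, hε₀, h0⟩ := ih fun x hx => h x (Finset.mem_insert_of_mem hx)
    obtain ⟨D₁, hD₁, ε₁, hε₁, h₁⟩ := h p (Finset.mem_insert_self p T)
    refine ⟨max D D₁, lt_max_of_lt_left hD, min ε₀ ε₁, lt_min hε₀ hε₁, ?_⟩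
    intro ε hε hεε r hr
    rw [Finset.mem_insert] at hr
    rcases hr with rfl | hr
    · exact hmono _ _ _ _ (le_max_right _ _) (h₁ ε hε (hεε.trans_le (min_le_right _ _)))
    · exact hmono _ _ _ _ (le_max_left _ _) (h0 ε hε (hεε.trans_le (min_le_left _ _)) r hr)

variable [T2Space X] [SecondCountableTopology X] {f : X → ℂ}

set_option linter.unusedSectionVars false

/-- the coordinates of the vector `v` with `df v = 0`. -/
theorem pratio_vec (S : Setup f) (g : HermMetric X) (hf : ContMDiff 𝓘(ℂ, C2) 𝓘(ℂ, ℂ) ω f) {p : X}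
    (hp : p ∈ S.P) {x : X} (hx : x ∈ (S.e p).source) (v : TangentSpace 𝓘(ℂ, C2) x)
    (hv : dC f x v = 0)
    (hne : fderiv ℂ (fun z : C2 => f ((S.e p).symm z)) (S.e p x) ((0 : ℂ), (1 : ℂ)) ≠ 0) :
    g.normSq x v = ‖dC (S.c1 p) x v‖ ^ 2 * metE g (S.e p) (S.e p x)
      ((1 : ℂ), -(fderiv ℂ (fun z : C2 => f ((S.e p).symm z)) (S.e p x) ((1 : ℂ), (0 : ℂ)) /
        fderiv ℂ (fun z : C2 => f ((S.e p).symm z)) (S.e p x) ((0 : ℂ), (1 : ℂ)))) := by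
  have hL := S.loc p hp
  obtain ⟨w, hw, hw2, hw3, _⟩ := mfderiv_symm_apply g (S.e p) hL.holo hL.holo_symm hx v
  have h1 := prootC_df S hf hp hx v
  rw [hv] at h1
  set L := fderiv ℂ (fun z : C2 => f ((S.e p).symm z)) (S.e p x) with hLd
  have h2 : L w = 0 := by
    have h3 : L (show C2 from mfderiv 𝓘(ℂ, C2) 𝓘(ℂ, C2) (S.e p) x v) = 0 := h1.symm
    have h4 : (show C2 from mfderiv 𝓘(ℂ, C2) 𝓘(ℂ, C2) (S.e p) x v) = w := hw
    rwa [h4] at h3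
  rw [tanA_lin L w] at h2
  have h3 : w = w.1 • (((1 : ℂ), -(L ((1 : ℂ), (0 : ℂ)) / L ((0 : ℂ), (1 : ℂ)))) : C2) := by
    apply Prod.ext
    · simp
    · simp only [Prod.smul_snd, smul_eq_mul]
      field_simp
      linear_combination h2
  have h4 : dC (S.c1 p) x v = w.1 := hw3
  rw [hw2, h4, ← metC_hom, ← h3]

theorem pratio_one (S : Setup f) (g : HermMetric X) (hf : ContMDiff 𝓘(ℂ, C2) 𝓘(ℂ, ℂ) ω f) {p : X}
    (hp : p ∈ S.P) :
    ∃ C > 0, ∃ ε₀ > 0, ∀ ε : ℝ, 0 < ε → ε < ε₀ → ∀ s s' : ℂ, ‖s‖ ≤ ε → ‖s'‖ ≤ ε →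
      ∀ x ∈ S.pdom p ε, f x = s' →
        |ratio g f (S.ptrans p ε s) x - 1| ≤ C * ε ^ (1 / 2 : ℝ) := by
  have hL := S.loc p hp
  set F : C2 → ℂ := fun z => f ((S.e p).symm z) with hF
  have hFan : AnalyticOnNhd ℂ F (S.e p).target := prootA_analytic S hf hp
  set K : Set C2 := Metric.closedBall (0 : ℂ) S.a ×ˢ Metric.closedBall (0 : ℂ) (S.b p) with hK
  have hKc : IsCompact K := (isCompact_closedBall _ _).prod (isCompact_closedBall _ _)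
  have hKv : Convex ℝ K := (convex_closedBall _ _).prod (convex_closedBall _ _)
  have hKt : K ⊆ (S.e p).target := hL.target
  obtain ⟨B₁, hB₁, hLip₁⟩ := prootA_lip hFan hKt ((1 : ℂ), (0 : ℂ))
  obtain ⟨B₂, hB₂, hLip₂⟩ := prootA_lip hFan hKt ((0 : ℂ), (1 : ℂ))
  set B : ℝ := max B₁ B₂ with hBdef
  have hB0 : 0 ≤ B := le_trans (by linarith) (le_max_left B₁ B₂)
  obtain ⟨M₀, hM₀⟩ := hKc.bddAbove_image (f := fun z => ‖fderiv ℂ F z ((1 : ℂ), (0 : ℂ))‖) (by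
    intro z hz
    exact (((hFan z (hKt hz)).fderiv.continuousAt).clm_apply
      continuousAt_const).norm.continuousWithinAt)
  set M : ℝ := max M₀ 0 with hM
  have hM0 : 0 ≤ M := le_max_right _ _
  obtain ⟨Λ, hΛ, hLipE⟩ := pratio_lip g (S.e p) hL.holo hL.holo_symm hKc hKv hKt
  obtain ⟨c, hc, _, _, hbd⟩ := metE_bounds g (S.e p) hL.holo hL.holo_symm hKc hKt
  obtain ⟨D, hD, ε₀, hε₀, hprops⟩ := ptrans_props S hf
  obtain ⟨ε₁, hε₁, hholo⟩ := ptrans_holo S hf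
  set C₁ : ℝ := B * D ^ 2 + M * B * D ^ 3 with hC₁
  have hC₁0 : 0 ≤ C₁ := by positivity
  set R : ℝ := M * D + 1 with hR
  have hR1 : 1 ≤ R := by
    have : 0 ≤ M * D := by positivity
    linarith
  set C : ℝ := (Λ * (R ^ 2 * D + R * C₁) + 1) / c with hC
  have hC0 : 0 < C := by
    have : 0 ≤ Λ * (R ^ 2 * D + R * C₁) := by positivity
    rw [hC]
    positivity
  refine ⟨C, hC0, min (min ε₀ ε₁) 1, by positivity, ?_⟩
  intro ε hε hεε s s' hs hs' x hx hfx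
  have h := hprops ε hε (hεε.trans_le ((min_le_left _ _).trans (min_le_left _ _))) p hp
  have hh := hholo ε hε (hεε.trans_le ((min_le_left _ _).trans (min_le_right _ _))) p hp s hs
  have hε1 : ε < 1 := hεε.trans_le (min_le_right _ _)
  set q : ℝ := ε ^ (1 / 8 : ℝ) with hq
  have hq0 : 0 < q := Real.rpow_pos_of_pos hε _
  have hq1 : q ≤ 1 := Real.rpow_le_one hε.le hε1.le (by norm_num)
  have hq4 : q ^ 4 = ε ^ (1 / 2 : ℝ) := prootA_pow4 hε.le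
  have hq7 : q ^ 7 = ε ^ (7 / 8 : ℝ) := prootA_pow7 hε.le
  -- the image point
  set x' := S.ptrans p ε s x with hx'
  have hx'p : x' ∈ S.pdom p ε := prootC_mem S h hε hs hx
  obtain ⟨hfst1, hfst2, _⟩ := h.fst s x hx.1 hx.2.2
  have hxc : x ∉ Crit f := prootC_noncrit S hp hε hx
  -- z and z'
  set z : C2 := S.e p x with hz
  set z' : C2 := S.e p x' with hz'
  have hzK : z ∈ K := ⟨mem_closedBall_zero_iff.2 hx.1.2.1.le, mem_closedBall_zero_iff.2 hx.1.2.2.le⟩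
  have hzK' : z' ∈ K :=
    ⟨mem_closedBall_zero_iff.2 hx'p.1.2.1.le, mem_closedBall_zero_iff.2 hx'p.1.2.2.le⟩
  have hzz : ‖z' - z‖ ≤ D * q ^ 7 := by
    rw [Prod.norm_def]
    apply max_le
    · have h1 : (z' - z).1 = 0 := by
        have h2 : z'.1 = z.1 := hfst2
        rw [Prod.fst_sub, h2, sub_self]
      rw [h1, norm_zero]
      positivity
    · rw [hq7]
      exact h.disp s hs x hx
  have hzz2 : ‖z - z'‖ ≤ D * q ^ 7 := by rwa [norm_sub_rev]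
  -- derivatives
  have hd : ∀ y : X, y ∈ S.pdom p ε → q / D ≤ ‖fderiv ℂ F (S.e p y) ((0 : ℂ), (1 : ℂ))‖ := by
    intro y hy
    have h1 := h.der y hy
    have h2 : deriv (fun t => f ((S.e p).symm (S.c1 p y, t))) (S.c2 p y) =
        fderiv ℂ F (S.e p y) ((0 : ℂ), (1 : ℂ)) :=
      (prootA_deriv (hFan _ ((S.e p).map_source hy.1.1))).deriv
    rw [h2] at h1
    exact h1
  have hne : ∀ y : X, y ∈ S.pdom p ε → fderiv ℂ F (S.e p y) ((0 : ℂ), (1 : ℂ)) ≠ 0 := by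
    intro y hy h0
    have h1 := hd y hy
    rw [h0, norm_zero] at h1
    have : 0 < q / D := by positivity
    linarith
  have hMb : ∀ y ∈ K, ‖fderiv ℂ F y ((1 : ℂ), (0 : ℂ))‖ ≤ M := fun y hy =>
    (hM₀ (mem_image_of_mem _ hy)).trans (le_max_left _ _)
  obtain ⟨k1, k2, k3⟩ := pratio_quot hq0 hq1 hD hM0 hB0 (hMb z hzK) (hMb z' hzK')
    (hd x hx) (hd x' hx'p)
    ((hLip₁ z hzK z' hzK').trans (by
      calc B₁ * ‖z - z'‖ ≤ B * ‖z - z'‖ := by gcongr; exact le_max_left _ _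
        _ ≤ B * (D * q ^ 7) := by gcongr))
    ((hLip₂ z hzK z' hzK').trans (by
      calc B₂ * ‖z - z'‖ ≤ B * ‖z - z'‖ := by gcongr; exact le_max_right _ _
        _ ≤ B * (D * q ^ 7) := by gcongr))
  -- the vectors
  set W : C2 := ((1 : ℂ), -(fderiv ℂ F z ((1 : ℂ), (0 : ℂ)) / fderiv ℂ F z ((0 : ℂ), (1 : ℂ))))
    with hW
  set W' : C2 := ((1 : ℂ), -(fderiv ℂ F z' ((1 : ℂ), (0 : ℂ)) / fderiv ℂ F z' ((0 : ℂ), (1 : ℂ))))
    with hW'
  have hσ : MDifferentiableAt 𝓘(ℂ, C2) 𝓘(ℂ, C2) (S.ptrans p ε s) x :=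
    (hh.contMDiffAt (h.isOpen.mem_nhds hx)).mdifferentiableAt (by simp)
  set v' : TangentSpace 𝓘(ℂ, C2) x' :=
    mfderiv 𝓘(ℂ, C2) 𝓘(ℂ, C2) (S.ptrans p ε s) x (tanVec f x) with hv'
  have hv1 : dC (S.c1 p) x (tanVec f x) = dC (S.c1 p) x' v' := by
    have h5 : HasMFDerivAt 𝓘(ℂ, C2) 𝓘(ℂ, ℂ) (fun z : C2 => z.1) (S.e p x')
        (ContinuousLinearMap.fst ℂ ℂ ℂ) :=
      (ContinuousLinearMap.fst ℂ ℂ ℂ).hasMFDerivAt
    have h6 : HasMFDerivAt 𝓘(ℂ, C2) 𝓘(ℂ, ℂ) (S.c1 p) x'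
        ((ContinuousLinearMap.fst ℂ ℂ ℂ).comp (mfderiv 𝓘(ℂ, C2) 𝓘(ℂ, C2) (S.e p) x')) :=
      h5.comp _ (metA_md (S.e p) hL.holo hx'p.1.1).hasMFDerivAt
    have h7 := h6.mdifferentiableAt.hasMFDerivAt.comp x hσ.hasMFDerivAt
    have h8 : S.c1 p =ᶠ[𝓝 x] (S.c1 p) ∘ (S.ptrans p ε s) := by
      filter_upwards [h.isOpen.mem_nhds hx] with y hy
      exact (h.fst s y hy.1 hy.2.2).2.1.symm
    have h9 := (h7.congr_of_eventuallyEq h8).mfderiv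
    exact congrArg (fun L : C2 →L[ℂ] ℂ => L (tanVec f x)) h9
  have hv2 : dC f x' v' = 0 := by
    have hfd : MDifferentiableAt 𝓘(ℂ, C2) 𝓘(ℂ, ℂ) f x' :=
      (hf.contMDiffAt).mdifferentiableAt (by simp)
    have h7 := hfd.hasMFDerivAt.comp x hσ.hasMFDerivAt
    have h8 : (fun _ => s) =ᶠ[𝓝 x] f ∘ (S.ptrans p ε s) := by
      filter_upwards [h.isOpen.mem_nhds hx] with y hy
      exact (h.fib s hs y hy).symm
    have h9 := (h7.congr_of_eventuallyEq h8)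
    have h10 := hasMFDerivAt_unique h9 (hasMFDerivAt_const s x)
    exact congrArg (fun L : C2 →L[ℂ] ℂ => L (tanVec f x)) h10
  have hn1 := pratio_vec S g hf hp hx.1.1 (tanVec f x) (dC_tanVec f x) (hne x hx)
  have hn2 := pratio_vec S g hf hp hx'p.1.1 v' hv2 (hne x' hx'p)
  rw [← hv1] at hn2
  have hc1ne : dC (S.c1 p) x (tanVec f x) ≠ 0 :=
    prootC_ne S hf hp hx.1.1 hxc (prootC_dne S hε hD h hx)
  have hc1pos : 0 < ‖dC (S.c1 p) x (tanVec f x)‖ ^ 2 := by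
    have := norm_pos_iff.2 hc1ne
    positivity
  have hE : c ≤ metE g (S.e p) z W := by
    have h1 := (hbd z hzK W).1
    have h2 : (1 : ℝ) ≤ ‖W.1‖ ^ 2 + ‖W.2‖ ^ 2 := by
      rw [hW]
      simp only [norm_one, one_pow]
      have := sq_nonneg ‖-(fderiv ℂ F z ((1 : ℂ), (0 : ℂ)) / fderiv ℂ F z ((0 : ℂ), (1 : ℂ)))‖
      linarith
    calc c = c * 1 := (mul_one c).symm
      _ ≤ c * (‖W.1‖ ^ 2 + ‖W.2‖ ^ 2) := by gcongr
      _ ≤ _ := h1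
  have hratio : ratio g f (S.ptrans p ε s) x = metE g (S.e p) z' W' / metE g (S.e p) z W := by
    have h1 : ratio g f (S.ptrans p ε s) x = g.normSq x' v' / g.normSq x (tanVec f x) := rfl
    rw [h1, hn1, hn2]
    rw [mul_div_mul_left _ _ hc1pos.ne']
  -- scaling
  set r : ℝ := R / q with hr
  have hr0 : 0 < r := by positivity
  have hr1 : 1 ≤ r := by
    rw [hr, le_div_iff₀ hq0]
    linarith
  have hrW : ∀ u : ℂ, ‖u‖ ≤ M * D / q → ‖((r : ℂ)⁻¹) • (((1 : ℂ), -u) : C2)‖ ≤ 1 := by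
    intro u hu
    rw [norm_smul, norm_inv, Complex.norm_real, Real.norm_of_nonneg hr0.le,
      inv_mul_le_iff₀ hr0, mul_one, Prod.norm_def]
    apply max_le
    · simpa using hr1
    · simp only [norm_neg]
      refine hu.trans ?_
      rw [hr]
      gcongr
      linarith
  have hscale : ∀ (y : C2) (u : C2), metE g (S.e p) y u =
      r ^ 2 * metE g (S.e p) y (((r : ℂ)⁻¹) • u) := by
    intro y u
    have h1 : u = (r : ℂ) • (((r : ℂ)⁻¹) • u) := by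
      rw [smul_smul, mul_inv_cancel₀, one_smul]
      exact_mod_cast hr0.ne'
    conv_lhs => rw [h1]
    rw [metC_hom, Complex.norm_real, Real.norm_of_nonneg hr0.le]
  have hdiff : |metE g (S.e p) z' W' - metE g (S.e p) z W| ≤
      Λ * (R ^ 2 * D + R * C₁) * q ^ 4 := by
    rw [hscale z' W', hscale z W, ← mul_sub, abs_mul, abs_of_nonneg (by positivity : 0 ≤ r ^ 2)]
    have h1 := hLipE z hzK z' hzK' (((r : ℂ)⁻¹) • W) (((r : ℂ)⁻¹) • W') (hrW _ k1) (hrW _ k2)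
    have h2 : ‖((r : ℂ)⁻¹) • W' - ((r : ℂ)⁻¹) • W‖ ≤ r⁻¹ * (C₁ * q ^ 5) := by
      rw [← smul_sub, norm_smul, norm_inv, Complex.norm_real, Real.norm_of_nonneg hr0.le]
      apply mul_le_mul_of_nonneg_left _ (by positivity)
      rw [Prod.norm_def]
      apply max_le
      · rw [hW, hW']
        simp only [Prod.fst_sub, sub_self, norm_zero]
        positivity
      · rw [hW, hW']
        simp only [Prod.snd_sub]
        have e1 : -(fderiv ℂ F z' ((1 : ℂ), (0 : ℂ)) / fderiv ℂ F z' ((0 : ℂ), (1 : ℂ))) -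
            -(fderiv ℂ F z ((1 : ℂ), (0 : ℂ)) / fderiv ℂ F z ((0 : ℂ), (1 : ℂ))) =
            fderiv ℂ F z ((1 : ℂ), (0 : ℂ)) / fderiv ℂ F z ((0 : ℂ), (1 : ℂ)) -
            fderiv ℂ F z' ((1 : ℂ), (0 : ℂ)) / fderiv ℂ F z' ((0 : ℂ), (1 : ℂ)) := by ring
        rw [e1]
        exact k3
    have e2 : r ^ 2 * (Λ * (D * q ^ 7 + r⁻¹ * (C₁ * q ^ 5))) =
        Λ * (R ^ 2 * D * q ^ 5 + R * C₁ * q ^ 4) := by
      rw [hr]
      field_simp
    have h5 : q ^ 5 ≤ q ^ 4 := by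
      have : q ^ 5 = q ^ 4 * q := by ring
      rw [this]
      have : 0 ≤ q ^ 4 := by positivity
      nlinarith
    calc r ^ 2 * |metE g (S.e p) z' (((r : ℂ)⁻¹) • W') - metE g (S.e p) z (((r : ℂ)⁻¹) • W)|
        ≤ r ^ 2 * (Λ * (D * q ^ 7 + r⁻¹ * (C₁ * q ^ 5))) := by
          apply mul_le_mul_of_nonneg_left _ (by positivity)
          refine h1.trans ?_
          apply mul_le_mul_of_nonneg_left _ hΛ
          exact add_le_add hzz h2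
      _ = Λ * (R ^ 2 * D * q ^ 5 + R * C₁ * q ^ 4) := e2
      _ ≤ Λ * (R ^ 2 * D * q ^ 4 + R * C₁ * q ^ 4) := by gcongr
      _ = Λ * (R ^ 2 * D + R * C₁) * q ^ 4 := by ring
  have hEpos : 0 < metE g (S.e p) z W := lt_of_lt_of_le hc hE
  rw [hratio]
  have e3 : metE g (S.e p) z' W' / metE g (S.e p) z W - 1 =
      (metE g (S.e p) z' W' - metE g (S.e p) z W) / metE g (S.e p) z W := by
    field_simp
  rw [e3, abs_div, abs_of_pos hEpos, div_le_iff₀ hEpos, ← hq4]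
  have hq40 : 0 ≤ q ^ 4 := by positivity
  calc |metE g (S.e p) z' W' - metE g (S.e p) z W|
      ≤ Λ * (R ^ 2 * D + R * C₁) * q ^ 4 := hdiff
    _ ≤ (Λ * (R ^ 2 * D + R * C₁) + 1) * q ^ 4 := by
        apply mul_le_mul_of_nonneg_right _ hq40
        linarith
    _ = C * q ^ 4 * c := by
        rw [hC]
        field_simp
    _ ≤ C * q ^ 4 * metE g (S.e p) z W := by
        apply mul_le_mul_of_nonneg_left hE
        positivity

theorem ptrans_ratio (S : Setup f) (g : HermMetric X) (hf : ContMDiff 𝓘(ℂ, C2) 𝓘(ℂ, ℂ) ω f) :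
    ∃ C > 0, ∃ ε₀ > 0, ∀ ε : ℝ, 0 < ε → ε < ε₀ → ∀ p ∈ S.P, ∀ s s' : ℂ, ‖s‖ ≤ ε → ‖s'‖ ≤ ε →
      ∀ x ∈ S.pdom p ε, f x = s' →
        |ratio g f (S.ptrans p ε s) x - 1| ≤ C * ε ^ (1 / 2 : ℝ) := by
  set Q : X → ℝ → ℝ → Prop := fun p C ε => 0 < ε → ∀ s s' : ℂ, ‖s‖ ≤ ε → ‖s'‖ ≤ ε →
      ∀ x ∈ S.pdom p ε, f x = s' →
        |ratio g f (S.ptrans p ε s) x - 1| ≤ C * ε ^ (1 / 2 : ℝ) with hQ
  have hmono : ∀ p C C' ε, C ≤ C' → Q p C ε → Q p C' ε := by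
    intro p C C' ε hCC h hε s s' hs hs' x hx hfx
    refine (h hε s s' hs hs' x hx hfx).trans ?_
    exact mul_le_mul_of_nonneg_right hCC (Real.rpow_nonneg hε.le _)
  have hex : ∀ p ∈ S.P, ∃ C > 0, ∃ ε₀ > 0, ∀ ε : ℝ, 0 < ε → ε < ε₀ → Q p C ε := by
    intro p hp
    obtain ⟨C, hC, ε₀, hε₀, h⟩ := pratio_one S g hf hp
    exact ⟨C, hC, ε₀, hε₀, fun ε hε hεε _ => h ε hε hεε⟩
  obtain ⟨C, hC, ε₀, hε₀, h⟩ := pratio_unif hmono hex
  exact ⟨C, hC, ε₀, hε₀, fun ε hε hεε p hp => h ε hε hεε p hp hε⟩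

end DD
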