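import Mathlib

/-! # QuantInv: a quantitative inverse function theorem in one complex variable

For `y, y'` in the (convex) closed ball: `g y - g y' - g'(y₀) (y - y')` has norm at most
`(d/4) ‖y - y'‖` (mean value inequality for `g - g'(y₀) ·`,
`Convex.norm_image_sub_le_of_norm_deriv_le`), so `‖g y - g y'‖ ≥ (3/4) d ‖y - y'‖`.
Surjectivity: for `‖t - g y₀‖ ≤ d R / 2` the map `y ↦ y - (g y - t) / g'(y₀)` is a contraction with
constant `1/4` of the closed ball into itself (`R/4 + R/2 ≤ R`); its fixed point solves `g y = t`.-/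

open Metric Set

namespace DD

theorem quant_inv {g : ℂ → ℂ} {y₀ : ℂ} {R d : ℝ} (hR : 0 < R) (hd : 0 < d)
    (hg : ∀ y ∈ closedBall y₀ R, DifferentiableAt ℂ g y) (h0 : d ≤ ‖deriv g y₀‖)
    (h1 : ∀ y ∈ closedBall y₀ R, ‖deriv g y - deriv g y₀‖ ≤ d / 4) :
    (∀ y ∈ closedBall y₀ R, ∀ y' ∈ closedBall y₀ R, 3 / 4 * d * ‖y - y'‖ ≤ ‖g y - g y'‖) ∧
      ∀ t : ℂ, ‖t - g y₀‖ ≤ d * R / 2 → ∃ y ∈ closedBall y₀ R, g y = t := by
  set w : ℂ := deriv g y₀ with hw
  have hlip : ∀ y ∈ closedBall y₀ R, ∀ y' ∈ closedBall y₀ R,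
      ‖(g y - g y') - w * (y - y')‖ ≤ d / 4 * ‖y - y'‖ := by
    intro y hy y' hy'
    have hder : ∀ x ∈ closedBall y₀ R, HasDerivWithinAt (fun z => g z - w * z)
        (deriv g x - w) (closedBall y₀ R) x := by
      intro x hx
      have h1 := (hg x hx).hasDerivAt
      have h2 : HasDerivAt (fun z : ℂ => w * z) w x := by
        simpa using (hasDerivAt_id x).const_mul w
      exact (h1.sub h2).hasDerivWithinAt
    have h3 := (convex_closedBall y₀ R).norm_image_sub_le_of_norm_hasDerivWithin_le hder h1 hy' hy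
    calc ‖(g y - g y') - w * (y - y')‖ = ‖(g y - w * y) - (g y' - w * y')‖ := by
          congr 1; ring
      _ ≤ d / 4 * ‖y - y'‖ := h3
  refine ⟨?_, ?_⟩
  · intro y hy y' hy'
    have h3 := hlip y hy y' hy'
    have h4 : ‖w * (y - y')‖ ≤ ‖g y - g y'‖ + ‖(g y - g y') - w * (y - y')‖ := by
      have := norm_sub_le (g y - g y') ((g y - g y') - w * (y - y'))
      simpa using this
    rw [norm_mul] at h4
    have h5 : d * ‖y - y'‖ ≤ ‖w‖ * ‖y - y'‖ := mul_le_mul_of_nonneg_right h0 (norm_nonneg _)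
    linarith
  · intro t ht
    have hw0 : w ≠ 0 := by
      intro h
      rw [h, norm_zero] at h0
      linarith
    let e : ℂ ≃L[ℂ] ℂ := ContinuousLinearEquiv.unitsEquivAut ℂ (Units.mk0 w hw0)
    have hap : ApproximatesLinearOn g (e : ℂ →L[ℂ] ℂ) (closedBall y₀ R) (Real.toNNReal (d / 4)) := by
      intro y hy y' hy'
      have h3 := hlip y hy y' hy'
      have h4 : (e : ℂ →L[ℂ] ℂ) (y - y') = w * (y - y') := by
        simp [e, mul_comm]
      rw [h4, Real.coe_toNNReal _ (by positivity)]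
      exact h3
    let r : (e : ℂ →L[ℂ] ℂ).NonlinearRightInverse :=
      { toFun := fun z => z / w
        nnnorm := ‖w‖₊⁻¹
        bound' := by
          intro z
          rw [norm_div, div_eq_inv_mul]
          simp
        right_inv' := by
          intro z
          have : (e : ℂ →L[ℂ] ℂ) (z / w) = (z / w) * w := by
            simp [e]
          rw [this]
          field_simp }
    have hs := hap.surjOn_closedBall_of_nonlinearRightInverse r hR.le (subset_refl _)
    have hmem : t ∈ closedBall (g y₀) ((((r.nnnorm : ℝ))⁻¹ - (Real.toNNReal (d / 4) : ℝ)) * R) := by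
      rw [mem_closedBall, dist_eq_norm]
      refine ht.trans ?_
      have hr : ((r.nnnorm : ℝ))⁻¹ = ‖w‖ := by
        simp [r]
      rw [hr, Real.coe_toNNReal _ (by positivity)]
      nlinarith
    obtain ⟨y, hy, hy2⟩ := hs hmem
    exact ⟨y, hy, hy2⟩

end DD
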