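import Pool.Agent.Work.MP_dd1e4a_gt.CutX
import Pool.Agent.Work.MP_dd1e4a_gt.QuantInv

/-! # PRootA: transport near a critical point, along `x₁ = const` -/

open scoped Manifold ContDiff Topology
open MeasureTheory Set

namespace DD

theorem prootA_deriv {F : ℂ × ℂ → ℂ} {z : ℂ × ℂ} (hF : AnalyticAt ℂ F z) :
    HasDerivAt (fun t => F (z.1, t)) (fderiv ℂ F z (0, 1)) z.2 := by
  have h1 : HasFDerivAt F (fderiv ℂ F z) (z.1, z.2) := hF.differentiableAt.hasFDerivAt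
  have h2 : HasDerivAt (fun t : ℂ => (z.1, t)) ((0 : ℂ), (1 : ℂ)) z.2 :=
    (hasDerivAt_const z.2 z.1).prodMk (hasDerivAt_id z.2)
  exact h1.comp_hasDerivAt z.2 h2

/-- Lipschitz constant for the partial derivative. -/
theorem prootA_lip {F : ℂ × ℂ → ℂ} {V : Set (ℂ × ℂ)} (hF : AnalyticOnNhd ℂ F V) {a b : ℝ}
    (hK : Metric.closedBall (0 : ℂ) a ×ˢ Metric.closedBall (0 : ℂ) b ⊆ V) (v : ℂ × ℂ) :
    ∃ B : ℝ, 1 ≤ B ∧ ∀ z ∈ Metric.closedBall (0 : ℂ) a ×ˢ Metric.closedBall (0 : ℂ) b,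
      ∀ z' ∈ Metric.closedBall (0 : ℂ) a ×ˢ Metric.closedBall (0 : ℂ) b,
      ‖fderiv ℂ F z v - fderiv ℂ F z' v‖ ≤ B * ‖z - z'‖ := by
  have hcomp : IsCompact (Metric.closedBall (0 : ℂ) a ×ˢ Metric.closedBall (0 : ℂ) b) :=
    (isCompact_closedBall _ _).prod (isCompact_closedBall _ _)
  have hD : AnalyticOnNhd ℂ (fun z => fderiv ℂ F z v) V := by
    intro z hz
    have h1 := (hF z hz).fderiv
    exact (ContinuousLinearMap.analyticAt (ContinuousLinearMap.apply ℂ ℂ v) _).comp h1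
  have hcont : ContinuousOn (fun z => ‖fderiv ℂ (fun z => fderiv ℂ F z v) z‖)
      (Metric.closedBall (0 : ℂ) a ×ˢ Metric.closedBall (0 : ℂ) b) := fun z hz =>
    ((hD z (hK hz)).fderiv.continuousAt.norm).continuousWithinAt
  obtain ⟨L, hL⟩ := hcomp.bddAbove_image hcont
  refine ⟨max L 1, le_max_right _ _, fun z hz z' hz' => ?_⟩
  exact ((convex_closedBall _ _).prod (convex_closedBall _ _)).norm_image_sub_le_of_norm_fderiv_le
    (𝕜 := ℂ) (fun w hw => (hD w (hK hw)).differentiableAt)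
    (fun w hw => (hL (mem_image_of_mem _ hw)).trans (le_max_left _ _)) hz' hz

theorem prootA_core {F : ℂ × ℂ → ℂ} {V : Set (ℂ × ℂ)} (hF : AnalyticOnNhd ℂ F V) {a b c : ℝ}
    {m : ℕ} (hb : 0 < b) (hc : 0 < c) (hc1 : c ≤ 1)
    (hK : Metric.closedBall (0 : ℂ) a ×ˢ Metric.closedBall (0 : ℂ) b ⊆ V)
    (hder : ∀ x y : ℂ, ‖x‖ ≤ a → ‖y‖ ≤ b → ‖F (x, y)‖ ≤ c * ‖x‖ ^ m →
      c * ‖x‖ ^ m ≤ ‖deriv (fun t => F (x, t)) y‖) :
    ∃ D > 0, ∃ q₀ > 0, ∀ q : ℝ, 0 < q → q < q₀ → ∀ x y : ℂ, ‖x‖ < a → ‖y‖ < b / 2 →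
      q ≤ 2 ^ m * ‖x‖ ^ m → ‖F (x, y)‖ < 2 * q ^ 8 →
      q / D ≤ ‖deriv (fun t => F (x, t)) y‖ ∧
      (∀ s : ℂ, ‖s‖ ≤ q ^ 8 → ∃ Y : ℂ, ‖Y - y‖ ≤ q ^ 4 ∧ F (x, Y) = s) ∧
      (∀ Y : ℂ, ‖Y - y‖ ≤ q ^ 4 → ‖F (x, Y)‖ ≤ q ^ 8 → ‖Y - y‖ ≤ D * q ^ 7) ∧
      (∀ Y Y' : ℂ, ‖Y - y‖ ≤ q ^ 4 → ‖Y' - y‖ ≤ q ^ 4 → F (x, Y) = F (x, Y') → Y = Y') := by
  obtain ⟨B, hB1, hB⟩ := prootA_lip hF hK (0, 1)
  have hB0 : 0 < B := by linarith
  have h2m : (1 : ℝ) ≤ 2 ^ m := one_le_pow₀ (by norm_num)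
  have h2m0 : (0 : ℝ) < 2 ^ m := by positivity
  set k : ℝ := c / 2 ^ m with hk
  have hk0 : 0 < k := by positivity
  have hk1 : k ≤ 1 := by
    rw [hk, div_le_one h2m0]
    linarith
  set D : ℝ := 4 / k with hD
  have hD0 : 0 < D := by positivity
  set q₀ : ℝ := min (min 1 (k / 2)) (min (k ^ 2 / (24 * B)) (min (k / (4 * B)) (min (b / 2) (1 / D))))
    with hq₀
  have hq₀0 : 0 < q₀ := by
    rw [hq₀]
    positivity
  refine ⟨D, hD0, q₀, hq₀0, fun q hq hqq x y hx hy hqx hFq => ?_⟩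
  have hq1 : q ≤ 1 := hqq.le.trans ((min_le_left _ _).trans (min_le_left _ _))
  have hqk : q ≤ k / 2 := hqq.le.trans ((min_le_left _ _).trans (min_le_right _ _))
  have hqB : q ≤ k ^ 2 / (24 * B) := hqq.le.trans ((min_le_right _ _).trans (min_le_left _ _))
  have hqB' : q ≤ k / (4 * B) := hqq.le.trans ((min_le_right _ _).trans
    ((min_le_right _ _).trans (min_le_left _ _)))
  have hqb : q ≤ b / 2 := hqq.le.trans ((min_le_right _ _).trans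
    ((min_le_right _ _).trans ((min_le_right _ _).trans (min_le_left _ _))))
  have hqD : q ≤ 1 / D := hqq.le.trans ((min_le_right _ _).trans
    ((min_le_right _ _).trans ((min_le_right _ _).trans (min_le_right _ _))))
  have hpow : ∀ j : ℕ, q ^ (j + 1) ≤ q := by
    intro j
    rw [pow_succ]
    have : q ^ j ≤ 1 := pow_le_one₀ hq.le hq1
    nlinarith
  set d : ℝ := k * q with hd
  have hd0 : 0 < d := by positivity
  set R : ℝ := d / (4 * B) with hR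
  have hR0 : 0 < R := by positivity
  have hdx : d ≤ c * ‖x‖ ^ m := by
    rw [hd, hk]
    calc c / 2 ^ m * q ≤ c / 2 ^ m * (2 ^ m * ‖x‖ ^ m) := by gcongr
      _ = c * ‖x‖ ^ m := by field_simp
  have hyb : ‖y‖ ≤ b := by linarith
  have h2q : 2 * q ^ 8 ≤ d := by
    have h1 := hpow 6
    have h2 : q ^ 8 = q ^ (6 + 1) * q := by ring
    rw [h2, hd]
    have h3 : q ^ (6 + 1) * q ≤ (k / 2) * q := by
      apply mul_le_mul_of_nonneg_right (h1.trans hqk) hq.le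
    linarith
  have hder1 := hder x y hx.le hyb (by linarith)
  have hz : ((x, y) : ℂ × ℂ) ∈ Metric.closedBall (0 : ℂ) a ×ˢ Metric.closedBall (0 : ℂ) b :=
    ⟨mem_closedBall_zero_iff.2 hx.le, mem_closedBall_zero_iff.2 hyb⟩
  have hball : ∀ Y ∈ Metric.closedBall y R, ((x, Y) : ℂ × ℂ) ∈
      Metric.closedBall (0 : ℂ) a ×ˢ Metric.closedBall (0 : ℂ) b := by
    intro Y hY
    rw [Metric.mem_closedBall, dist_eq_norm] at hY
    refine ⟨mem_closedBall_zero_iff.2 hx.le, ?_⟩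
    rw [mem_closedBall_zero_iff]
    have h1 : R ≤ b / 2 := by
      refine le_trans ?_ hqb
      rw [hR, hd, div_le_iff₀ (by positivity)]
      nlinarith
    have h2 : ‖Y‖ ≤ ‖y‖ + ‖Y - y‖ := by
      have := norm_add_le y (Y - y)
      rwa [add_sub_cancel] at this
    linarith
  have hdiff : ∀ Y ∈ Metric.closedBall y R, HasDerivAt (fun t => F (x, t))
      (fderiv ℂ F (x, Y) (0, 1)) Y := fun Y hY => prootA_deriv (hF _ (hK (hball Y hY)))
  have hyR : y ∈ Metric.closedBall y R := Metric.mem_closedBall_self hR0.le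
  have hQ := quant_inv (g := fun t => F (x, t)) (y₀ := y) hR0 hd0
    (fun Y hY => (hdiff Y hY).differentiableAt) (hdx.trans hder1) (by
      intro Y hY
      rw [(hdiff Y hY).deriv, (hdiff y hyR).deriv]
      refine (hB _ (hball Y hY) _ hz).trans ?_
      have h1 : ‖((x, Y) : ℂ × ℂ) - (x, y)‖ = ‖Y - y‖ := by
        simp [Prod.norm_def]
      rw [h1]
      rw [Metric.mem_closedBall, dist_eq_norm] at hY
      calc B * ‖Y - y‖ ≤ B * R := by gcongr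
        _ = d / 4 := by rw [hR]; field_simp)
  obtain ⟨hQ1, hQ2⟩ := hQ
  have hq4R : q ^ 4 ≤ R := by
    rw [hR, le_div_iff₀ (by positivity), hd]
    have h1 : q ^ 4 = q ^ (2 + 1) * q := by ring
    have h2 : q ^ (2 + 1) ≤ k / (4 * B) := (hpow 2).trans hqB'
    rw [le_div_iff₀ (by positivity)] at h2
    rw [h1]
    calc q ^ (2 + 1) * q * (4 * B) = (q ^ (2 + 1) * (4 * B)) * q := by ring
      _ ≤ k * q := by gcongr
  have hin : ∀ Y : ℂ, ‖Y - y‖ ≤ q ^ 4 → Y ∈ Metric.closedBall y R := by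
    intro Y hY
    rw [Metric.mem_closedBall, dist_eq_norm]
    exact hY.trans hq4R
  have hdisp : ∀ Y ∈ Metric.closedBall y R, ‖F (x, Y)‖ ≤ q ^ 8 → ‖Y - y‖ ≤ D * q ^ 7 := by
    intro Y hY hFY
    have h1 := hQ1 Y hY y hyR
    have h2 : ‖F (x, Y) - F (x, y)‖ ≤ 3 * q ^ 8 := by
      refine (norm_sub_le _ _).trans ?_
      linarith
    have h3 : 3 / 4 * d * ‖Y - y‖ ≤ 3 * q ^ 8 := h1.trans h2
    rw [hd] at h3
    have h4 : q * (k * ‖Y - y‖) ≤ q * (4 * q ^ 7) := by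
      nlinarith
    have h5 : k * ‖Y - y‖ ≤ 4 * q ^ 7 := le_of_mul_le_mul_left h4 hq
    rw [hD, div_mul_eq_mul_div, le_div_iff₀ hk0]
    linarith
  refine ⟨?_, ?_, ?_, ?_⟩
  · refine le_trans ?_ (hdx.trans hder1)
    rw [hD, hd, div_le_iff₀ (by positivity)]
    have : k * q * (4 / k) = 4 * q := by field_simp
    rw [this]
    linarith
  · intro s hs
    obtain ⟨Y, hY, hYs⟩ := hQ2 s (by
      have h1 : ‖s - F (x, y)‖ ≤ 3 * q ^ 8 := by
        refine (norm_sub_le _ _).trans ?_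
        linarith
      refine h1.trans ?_
      rw [hR, hd]
      have h2 : q ^ (5 + 1) ≤ k ^ 2 / (24 * B) := (hpow 5).trans hqB
      rw [le_div_iff₀ (by positivity)] at h2
      have e1 : k * q * (k * q / (4 * B)) / 2 = k ^ 2 * q ^ 2 / (8 * B) := by ring
      rw [e1, le_div_iff₀ (by positivity)]
      calc 3 * q ^ 8 * (8 * B) = q ^ (5 + 1) * (24 * B) * q ^ 2 := by ring
        _ ≤ k ^ 2 * q ^ 2 := by gcongr)
    refine ⟨Y, ?_, hYs⟩
    have h1 := hdisp Y hY (by rw [hYs]; exact hs)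
    refine h1.trans ?_
    have h2 : q ^ (2 + 1) ≤ 1 / D := (hpow 2).trans hqD
    rw [le_div_iff₀ hD0] at h2
    calc D * q ^ 7 = (q ^ (2 + 1) * D) * q ^ 4 := by ring
      _ ≤ 1 * q ^ 4 := by gcongr
      _ = q ^ 4 := one_mul _
  · intro Y hY hFY
    exact hdisp Y (hin Y hY) hFY
  · intro Y Y' hY hY' he
    have h1 := hQ1 Y (hin Y hY) Y' (hin Y' hY')
    rw [he, sub_self, norm_zero] at h1
    have h2 : ‖Y - Y'‖ ≤ 0 := by
      by_contra hcon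
      push Not at hcon
      have : 0 < 3 / 4 * d * ‖Y - Y'‖ := by positivity
      linarith
    exact sub_eq_zero.1 (norm_le_zero_iff.1 h2)

section pows

variable {ε : ℝ}

theorem prootA_pow8 (hε : 0 ≤ ε) : (ε ^ (1 / 8 : ℝ)) ^ 8 = ε := by
  rw [← Real.rpow_natCast, ← Real.rpow_mul hε]
  norm_num

theorem prootA_pow4 (hε : 0 ≤ ε) : (ε ^ (1 / 8 : ℝ)) ^ 4 = ε ^ (1 / 2 : ℝ) := by
  rw [← Real.rpow_natCast, ← Real.rpow_mul hε]
  norm_num

theorem prootA_pow7 (hε : 0 ≤ ε) : (ε ^ (1 / 8 : ℝ)) ^ 7 = ε ^ (7 / 8 : ℝ) := by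
  rw [← Real.rpow_natCast, ← Real.rpow_mul hε]
  norm_num

theorem prootA_powm (hε : 0 ≤ ε) {m : ℕ} (hm : 1 ≤ m) :
    (ε ^ (1 / (8 * (m : ℝ)))) ^ m = ε ^ (1 / 8 : ℝ) := by
  rw [← Real.rpow_natCast, ← Real.rpow_mul hε]
  congr 1
  have : (m : ℝ) ≠ 0 := by
    have : 0 < m := hm
    positivity
  field_simp

end pows

variable {X : Type} [TopologicalSpace X] [T2Space X] [SecondCountableTopology X]
  [ChartedSpace C2 X] [IsManifold 𝓘(ℂ, C2) ω X] {f : X → ℂ}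

omit [T2Space X] [SecondCountableTopology X] [IsManifold 𝓘(ℂ, C2) ω X] in
theorem prootA_analytic (S : Setup f) (hf : ContMDiff 𝓘(ℂ, C2) 𝓘(ℂ, ℂ) ω f) {p : X}
    (hp : p ∈ S.P) :
    AnalyticOnNhd ℂ (fun z : C2 => f ((S.e p).symm z)) (S.e p).target := by
  have h1 : ContMDiffOn 𝓘(ℂ, C2) 𝓘(ℂ, ℂ) ω (fun z : C2 => f ((S.e p).symm z))
      (S.e p).target := hf.comp_contMDiffOn (S.loc p hp).holo_symm
  have h2 : ContDiffOn ℂ ω (fun z : C2 => f ((S.e p).symm z)) (S.e p).target :=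
    contMDiffOn_iff_contDiffOn.1 h1
  exact ((S.e p).open_target.analyticOn_iff_analyticOnNhd).1 h2.analyticOn

theorem prootA_rootY_le (F : C2 → ℂ) {δ : ℝ} (hδ : 0 ≤ δ) (s : ℂ) (z : C2) :
    ‖rootY F δ s z - z.2‖ ≤ δ := by
  unfold rootY
  split_ifs with h
  · exact h.choose_spec.1
  · rw [sub_self, norm_zero]
    exact hδ

theorem prootA_rootY_eq (F : C2 → ℂ) {δ : ℝ} (s : ℂ) (z : C2)
    (h : ∃ Y : ℂ, ‖Y - z.2‖ ≤ δ ∧ F (z.1, Y) = s) : F (z.1, rootY F δ s z) = s := by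
  unfold rootY
  rw [dif_pos h]
  exact h.choose_spec.2

theorem prootA_one (S : Setup f) (hf : ContMDiff 𝓘(ℂ, C2) 𝓘(ℂ, ℂ) ω f) {p : X} (hp : p ∈ S.P) :
    ∃ D > 0, ∃ ε₀ > 0, ∀ ε : ℝ, 0 < ε → ε < ε₀ → ∀ D' : ℝ, D ≤ D' → PTransProps S p ε D' := by
  have hL := S.loc p hp
  set F : C2 → ℂ := fun z => f ((S.e p).symm z) with hF
  obtain ⟨D, hD, q₀, hq₀, hcore⟩ := prootA_core (F := F) (V := (S.e p).target)
    (prootA_analytic S hf hp) hL.b_pos hL.c_pos hL.c_le hL.target hL.der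
  refine ⟨D, hD, min (q₀ ^ 8) (min (S.c / 2) ((S.b p / 2) ^ 2)), ?_, ?_⟩
  · have := hL.c_pos
    have := hL.b_pos
    positivity
  intro ε hε hε₀ D' hDD
  have hD' : 0 < D' := lt_of_lt_of_le hD hDD
  have hε1 : ε < q₀ ^ 8 := hε₀.trans_le (min_le_left _ _)
  have hε2 : ε < S.c / 2 := hε₀.trans_le ((min_le_right _ _).trans (min_le_left _ _))
  have hε3 : ε < (S.b p / 2) ^ 2 := hε₀.trans_le ((min_le_right _ _).trans (min_le_right _ _))
  set q : ℝ := ε ^ (1 / 8 : ℝ) with hq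
  have hq0 : 0 < q := Real.rpow_pos_of_pos hε _
  have hq8 : q ^ 8 = ε := prootA_pow8 hε.le
  have hq4 : q ^ 4 = ε ^ (1 / 2 : ℝ) := prootA_pow4 hε.le
  have hq7 : q ^ 7 = ε ^ (7 / 8 : ℝ) := prootA_pow7 hε.le
  have hqq₀ : q < q₀ := by
    rw [← hq8] at hε1
    exact lt_of_pow_lt_pow_left₀ 8 hq₀.le hε1
  have hb0 := hL.b_pos
  have hsq : q ^ 4 < S.b p / 2 := by
    have h1 : (q ^ 4) ^ 2 < (S.b p / 2) ^ 2 := by
      rw [← pow_mul]
      rw [hq8]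
      exact hε3
    exact lt_of_pow_lt_pow_left₀ 2 (by positivity) h1
  -- the thin part of the bidisc
  have hthin : ∀ x ∈ S.bidisc p, ‖f x‖ < 2 * ε → ‖S.c2 p x‖ < S.b p / 2 := by
    intro x hx hfx
    exact far_fibre S hp hx.1 hx.2.1.le hx.2.2.le (by linarith)
  have hfF : ∀ x ∈ S.bidisc p, F (S.c1 p x, S.c2 p x) = f x := by
    intro x hx
    have h1 : ((S.c1 p x, S.c2 p x) : C2) = S.e p x := rfl
    rw [hF]
    simp only
    rw [h1, (S.e p).left_inv hx.1]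
  -- application of the core lemma
  have happ : ∀ x ∈ S.pdom p ε, q / D ≤ ‖deriv (fun t => F (S.c1 p x, t)) (S.c2 p x)‖ ∧
      (∀ s : ℂ, ‖s‖ ≤ q ^ 8 → ∃ Y : ℂ, ‖Y - S.c2 p x‖ ≤ q ^ 4 ∧ F (S.c1 p x, Y) = s) ∧
      (∀ Y : ℂ, ‖Y - S.c2 p x‖ ≤ q ^ 4 → ‖F (S.c1 p x, Y)‖ ≤ q ^ 8 →
        ‖Y - S.c2 p x‖ ≤ D * q ^ 7) ∧
      (∀ Y Y' : ℂ, ‖Y - S.c2 p x‖ ≤ q ^ 4 → ‖Y' - S.c2 p x‖ ≤ q ^ 4 →
        F (S.c1 p x, Y) = F (S.c1 p x, Y') → Y = Y') := by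
    rintro x ⟨hxb, hx1, hx2⟩
    apply hcore q hq0 hqq₀ (S.c1 p x) (S.c2 p x) hxb.2.1 (hthin x hxb hx2)
    · have h1 : (ε ^ S.τ) ^ S.m = q := by
        unfold Setup.τ
        exact prootA_powm hε.le S.m_pos
      rw [← h1, ← mul_pow]
      apply pow_le_pow_left₀ (by positivity)
      linarith
    · rw [hfF x hxb, hq8]
      exact hx2
  -- the first coordinate
  have hfst : ∀ s, ∀ x ∈ S.bidisc p, ‖f x‖ < 2 * ε →
      S.ptrans p ε s x ∈ S.bidisc p ∧ S.c1 p (S.ptrans p ε s x) = S.c1 p x ∧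
      S.c2 p (S.ptrans p ε s x) = rootY F (ε ^ (1 / 2 : ℝ)) s (S.e p x) := by
    intro s x hx hfx
    have h1 := hthin x hx hfx
    have h2 : ‖rootY F (ε ^ (1 / 2 : ℝ)) s (S.e p x) - (S.e p x).2‖ ≤ ε ^ (1 / 2 : ℝ) :=
      prootA_rootY_le F (Real.rpow_nonneg hε.le _) s _
    have h3 : ‖rootY F (ε ^ (1 / 2 : ℝ)) s (S.e p x)‖ < S.b p := by
      have h4 := norm_add_le (S.e p x).2 (rootY F (ε ^ (1 / 2 : ℝ)) s (S.e p x) - (S.e p x).2)
      rw [add_sub_cancel] at h4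
      rw [← hq4] at h2 h4
      have h5 : ‖(S.e p x).2‖ < S.b p / 2 := h1
      rw [hq4] at h4 h2
      rw [hq4] at hsq
      linarith
    have ht : ((S.c1 p x, rootY F (ε ^ (1 / 2 : ℝ)) s (S.e p x)) : C2) ∈ (S.e p).target := by
      apply hL.target
      exact ⟨mem_closedBall_zero_iff.2 hx.2.1.le, mem_closedBall_zero_iff.2 h3.le⟩
    have hinv : S.e p (S.ptrans p ε s x) =
        (S.c1 p x, rootY F (ε ^ (1 / 2 : ℝ)) s (S.e p x)) := by
      unfold Setup.ptrans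
      rw [(S.e p).right_inv ht]
    have hsrc : S.ptrans p ε s x ∈ (S.e p).source := by
      unfold Setup.ptrans
      exact (S.e p).map_target ht
    refine ⟨⟨hsrc, ?_, ?_⟩, ?_, ?_⟩
    · rw [hinv]
      exact hx.2.1
    · rw [hinv]
      exact h3
    · unfold Setup.c1
      rw [hinv]
      rfl
    · unfold Setup.c2
      rw [hinv]
  have hfib : ∀ s, ‖s‖ ≤ ε → ∀ x ∈ S.pdom p ε, f (S.ptrans p ε s x) = s := by
    intro s hs x hx
    obtain ⟨h1, h2, h3⟩ := hfst s x hx.1 hx.2.2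
    rw [← hfF _ h1, h2, h3]
    apply prootA_rootY_eq F s (S.e p x)
    obtain ⟨Y, hY, hYs⟩ := (happ x hx).2.1 s (by rw [hq8]; exact hs)
    rw [hq4] at hY
    exact ⟨Y, hY, hYs⟩
  have hclose : ∀ s, ∀ x ∈ S.bidisc p, ‖f x‖ < 2 * ε →
      ‖S.c2 p (S.ptrans p ε s x) - S.c2 p x‖ ≤ ε ^ (1 / 2 : ℝ) := by
    intro s x hx hfx
    rw [(hfst s x hx hfx).2.2]
    exact prootA_rootY_le F (Real.rpow_nonneg hε.le _) s _
  have huniq : ∀ s, ‖s‖ ≤ ε → ∀ x ∈ S.pdom p ε, ∀ x' ∈ S.bidisc p, S.c1 p x' = S.c1 p x →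
      f x' = s → ‖S.c2 p x' - S.c2 p x‖ ≤ ε ^ (1 / 2 : ℝ) → x' = S.ptrans p ε s x := by
    intro s hs x hx x' hx' h1 h2 h3
    obtain ⟨h4, h5, h6⟩ := hfst s x hx.1 hx.2.2
    have h7 : S.c2 p x' = S.c2 p (S.ptrans p ε s x) := by
      apply (happ x hx).2.2.2
      · rw [hq4]
        exact h3
      · rw [hq4]
        exact hclose s x hx.1 hx.2.2
      · have h8 := hfF x' hx'
        have h9 := hfF _ h4
        rw [h1, h2] at h8
        rw [h5, hfib s hs x hx] at h9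
        rw [h8, h9]
    have h8 : S.e p x' = S.e p (S.ptrans p ε s x) := Prod.ext (h1.trans h5.symm) h7
    exact (S.e p).injOn hx'.1 h4.1 h8
  refine ⟨?_, ?_, hfib, ?_, ?_, huniq, ?_⟩
  · -- open
    have h1 : S.pdom p ε = (S.bidisc p ∩ {x | ε ^ S.τ / 2 < ‖S.c1 p x‖}) ∩ {x | ‖f x‖ < 2 * ε} := by
      ext x
      constructor
      · rintro ⟨h1, h2, h3⟩
        exact ⟨⟨h1, h2⟩, h3⟩
      · rintro ⟨⟨h1, h2⟩, h3⟩
        exact ⟨h1, h2, h3⟩
    rw [h1]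
    apply IsOpen.inter
    · have h2 : ContinuousOn (fun x => ‖S.c1 p x‖) (S.bidisc p) := by
        have h3 : ContinuousOn (S.e p) (S.bidisc p) :=
          (S.e p).continuousOn.mono fun x hx => hx.1
        exact (continuous_fst.comp_continuousOn h3).norm
      exact h2.isOpen_inter_preimage (isOpen_bidisc S p) isOpen_Ioi
    · exact isOpen_lt hf.continuous.norm continuous_const
  · intro s x hx hfx
    obtain ⟨h1, h2, _⟩ := hfst s x hx hfx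
    exact ⟨h1, h2, hclose s x hx hfx⟩
  · intro s hs x hx
    rw [← hq7]
    refine le_trans ?_ (mul_le_mul_of_nonneg_right hDD (by positivity))
    obtain ⟨h4, h5, h6⟩ := hfst s x hx.1 hx.2.2
    apply (happ x hx).2.2.1
    · rw [hq4]
      exact hclose s x hx.1 hx.2.2
    · have h9 := hfF _ h4
      rw [h5, hfib s hs x hx] at h9
      rw [h9, hq8]
      exact hs
  · intro x hx
    refine le_trans ?_ (happ x hx).1
    gcongr
  · intro s s' hs hs' x hx hfx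
    obtain ⟨h4, h5, h6⟩ := hfst s x hx.1 hx.2.2
    have h7 := hfib s hs x hx
    have h8 : S.ptrans p ε s x ∈ S.pdom p ε := by
      refine ⟨h4, ?_, ?_⟩
      · rw [h5]
        exact hx.2.1
      · rw [h7]
        linarith
    refine ⟨h8, ?_⟩
    symm
    apply huniq s' hs' _ h8 x hx.1 h5.symm hfx
    rw [norm_sub_rev]
    exact hclose s x hx.1 hx.2.2

theorem ptrans_props (S : Setup f) (hf : ContMDiff 𝓘(ℂ, C2) 𝓘(ℂ, ℂ) ω f) :
    ∃ D > 0, ∃ ε₀ > 0, ∀ ε : ℝ, 0 < ε → ε < ε₀ → ∀ p ∈ S.P, PTransProps S p ε D := by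
  have key : ∀ T : Finset X, T ⊆ S.P → ∃ D > 0, ∃ ε₀ > 0, ∀ ε : ℝ, 0 < ε → ε < ε₀ → ∀ p ∈ T,
      ∀ D' : ℝ, D ≤ D' → PTransProps S p ε D' := by
    classical
    intro T
    induction T using Finset.induction_on with
    | empty =>
      intro _
      exact ⟨1, one_pos, 1, one_pos, fun ε _ _ p hp => absurd hp (Finset.notMem_empty p)⟩
    | insert p T hpT ih =>
      intro hT
      obtain ⟨D, hD, ε₀, hε₀, h⟩ := ih fun x hx => hT (Finset.mem_insert_of_mem hx)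
      obtain ⟨D₁, hD₁, ε₁, hε₁, h₁⟩ := prootA_one S hf (hT (Finset.mem_insert_self p T))
      refine ⟨max D D₁, lt_max_of_lt_left hD, min ε₀ ε₁, lt_min hε₀ hε₁, ?_⟩
      intro ε hε hεε r hr D' hD'
      rw [Finset.mem_insert] at hr
      rcases hr with rfl | hr
      · exact h₁ ε hε (hεε.trans_le (min_le_right _ _)) D' ((le_max_right _ _).trans hD')
      · exact h ε hε (hεε.trans_le (min_le_left _ _)) r hr D' ((le_max_left _ _).trans hD')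
  obtain ⟨D, hD, ε₀, hε₀, h⟩ := key S.P (Finset.Subset.refl _)
  exact ⟨D, hD, ε₀, hε₀, fun ε hε hεε p hp => h ε hε hεε p hp D le_rfl⟩

end DD
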