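import Pool.Agent.Work.MP_dd1e4a_gt.PRootA

/-! # PRootB: the transport near a critical point is holomorphic -/

open scoped Manifold ContDiff Topology
open MeasureTheory Set

namespace DD

theorem prootB_inv {Φ : ℂ × ℂ → ℂ × ℂ} {z : ℂ × ℂ} (hΦ : AnalyticAt ℂ Φ z)
    (i : (ℂ × ℂ) ≃L[ℂ] (ℂ × ℂ)) (hi : fderiv ℂ Φ z = (i : (ℂ × ℂ) →L[ℂ] (ℂ × ℂ))) :
    ∃ R : OpenPartialHomeomorph (ℂ × ℂ) (ℂ × ℂ), z ∈ R.source ∧ (∀ w, R w = Φ w) ∧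
      AnalyticAt ℂ R.symm (Φ z) := by
  have hfd : HasStrictFDerivAt Φ (i : (ℂ × ℂ) →L[ℂ] (ℂ × ℂ)) z := by
    rw [← hi]
    exact hΦ.hasStrictFDerivAt
  refine ⟨hfd.toOpenPartialHomeomorph _, hfd.mem_toOpenPartialHomeomorph_source, fun w => rfl, ?_⟩
  obtain ⟨p, hp⟩ := hΦ
  have hp1 : fderiv ℂ Φ z = (continuousMultilinearCurryFin1 ℂ (ℂ × ℂ) (ℂ × ℂ)) (p 1) :=
    hp.hasFDerivAt.fderiv
  refine ((hfd.toOpenPartialHomeomorph _).hasFPowerSeriesAt_symm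
    hfd.mem_toOpenPartialHomeomorph_source hp (i := i) ?_).analyticAt
  rw [← hi, hp1]
  ext <;> simp

/-- implicit function theorem. -/
theorem prootB_implicit {F : ℂ × ℂ → ℂ} {x₀ y₀ s : ℂ} (hF : AnalyticAt ℂ F (x₀, y₀))
    (hs : F (x₀, y₀) = s) (hne : deriv (fun t => F (x₀, t)) y₀ ≠ 0) :
    ∃ Y : ℂ → ℂ, AnalyticAt ℂ Y x₀ ∧ Y x₀ = y₀ ∧ ∀ᶠ x in 𝓝 x₀, F (x, Y x) = s := by
  have hβ : deriv (fun t => F (x₀, t)) y₀ = fderiv ℂ F (x₀, y₀) (0, 1) :=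
    (prootA_deriv (z := (x₀, y₀)) hF).deriv
  rw [hβ] at hne
  set β := fderiv ℂ F (x₀, y₀) (0, 1) with hβd
  set α := fderiv ℂ F (x₀, y₀) (1, 0) with hαd
  have hlin : ∀ u : ℂ × ℂ, fderiv ℂ F (x₀, y₀) u = u.1 * α + u.2 * β := by
    intro u
    have h1 : u = u.1 • ((1 : ℂ), (0 : ℂ)) + u.2 • ((0 : ℂ), (1 : ℂ)) := by
      ext <;> simp
    conv_lhs => rw [h1]
    rw [map_add, map_smul, map_smul, smul_eq_mul, smul_eq_mul]
  set L₁ : (ℂ × ℂ) →L[ℂ] (ℂ × ℂ) :=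
    (ContinuousLinearMap.fst ℂ ℂ ℂ).prod (fderiv ℂ F (x₀, y₀)) with hL₁
  set L₂ : (ℂ × ℂ) →L[ℂ] (ℂ × ℂ) :=
    (ContinuousLinearMap.fst ℂ ℂ ℂ).prod
      (β⁻¹ • (ContinuousLinearMap.snd ℂ ℂ ℂ - α • ContinuousLinearMap.fst ℂ ℂ ℂ)) with hL₂
  set i : (ℂ × ℂ) ≃L[ℂ] (ℂ × ℂ) := ContinuousLinearEquiv.equivOfInverse L₁ L₂ (by
    intro u
    apply Prod.ext
    · simp [hL₁, hL₂]
    · simp only [hL₁, hL₂, ContinuousLinearMap.prod_apply, ContinuousLinearMap.coe_fst',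
        ContinuousLinearMap.coe_snd', smul_apply,
        sub_apply, smul_eq_mul]
      rw [hlin]
      field_simp
      ring) (by
    intro u
    apply Prod.ext
    · simp [hL₁, hL₂]
    · simp only [hL₁, hL₂, ContinuousLinearMap.prod_apply, ContinuousLinearMap.coe_fst',
        ContinuousLinearMap.coe_snd', smul_apply,
        sub_apply, smul_eq_mul]
      rw [hlin]
      field_simp
      ring) with hi
  have hΦ : AnalyticAt ℂ (fun z : ℂ × ℂ => (z.1, F z)) (x₀, y₀) := analyticAt_fst.prod hF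
  have hfd : fderiv ℂ (fun z : ℂ × ℂ => (z.1, F z)) (x₀, y₀) =
      (i : (ℂ × ℂ) →L[ℂ] (ℂ × ℂ)) := by
    have h1 : HasFDerivAt (fun z : ℂ × ℂ => (z.1, F z)) L₁ (x₀, y₀) :=
      hasFDerivAt_fst.prodMk hF.differentiableAt.hasFDerivAt
    rw [h1.fderiv]
    rfl
  obtain ⟨R, hRs, hRe, hRa⟩ := prootB_inv hΦ i hfd
  simp only [hs] at hRa
  have hRz : R.symm (x₀, s) = (x₀, y₀) := by
    have h1 := R.left_inv hRs
    rw [hRe] at h1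
    simp only [hs] at h1
    exact h1
  refine ⟨fun x => (R.symm (x, s)).2, ?_, ?_, ?_⟩
  · have h1 : AnalyticAt ℂ (fun x : ℂ => (x, s)) x₀ := analyticAt_id.prod analyticAt_const
    have h2 : AnalyticAt ℂ (fun x : ℂ => R.symm (x, s)) x₀ :=
      AnalyticAt.comp (f := fun x : ℂ => (x, s)) hRa h1
    exact (analyticAt_snd (𝕜 := ℂ) (E := ℂ) (F := ℂ)).comp h2
  · simp only
    rw [hRz]
  · have h1 : (x₀, s) ∈ R.target := by
      have h2 := R.map_source hRs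
      rw [hRe] at h2
      simp only [hs] at h2
      exact h2
    have h2 : ContinuousAt (fun x : ℂ => (x, s)) x₀ := by fun_prop
    filter_upwards [h2.eventually_mem (R.open_target.mem_nhds h1)] with x hx
    have h3 := R.right_inv hx
    rw [hRe] at h3
    have h4 := (Prod.mk.inj h3).1
    have h5 := (Prod.mk.inj h3).2
    have h6 : ((x, (R.symm (x, s)).2) : ℂ × ℂ) = R.symm (x, s) := Prod.ext h4.symm rfl
    rw [h6]
    exact h5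

variable {X : Type} [TopologicalSpace X] [T2Space X] [SecondCountableTopology X]
  [ChartedSpace C2 X] [IsManifold 𝓘(ℂ, C2) ω X] {f : X → ℂ}

omit [T2Space X] [SecondCountableTopology X] in
theorem prootB_at (S : Setup f) (hf : ContMDiff 𝓘(ℂ, C2) 𝓘(ℂ, ℂ) ω f) {p : X} (hp : p ∈ S.P)
    {ε D : ℝ} (hε : 0 < ε) (hD : 0 < D) (h : PTransProps S p ε D)
    (hsm : D * ε ^ (7 / 8 : ℝ) < ε ^ (1 / 2 : ℝ)) {s : ℂ} (hs : ‖s‖ ≤ ε) {x₀ : X}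
    (hx₀ : x₀ ∈ S.pdom p ε) :
    ∃ Y : ℂ → ℂ, AnalyticAt ℂ Y (S.c1 p x₀) ∧
      ((S.c1 p x₀, Y (S.c1 p x₀)) : C2) ∈ (S.e p).target ∧
      S.ptrans p ε s =ᶠ[𝓝 x₀] fun x => (S.e p).symm (S.c1 p x, Y (S.c1 p x)) := by
  have hL := S.loc p hp
  set F : C2 → ℂ := fun z => f ((S.e p).symm z) with hF
  have hFan := prootA_analytic S hf hp
  obtain ⟨h1, h2, h3⟩ := h.fst s x₀ hx₀.1 hx₀.2.2
  have h4 := h.fib s hs x₀ hx₀
  set x₁ := S.ptrans p ε s x₀ with hx₁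
  have hx₁p : x₁ ∈ S.pdom p ε := by
    refine ⟨h1, ?_, ?_⟩
    · rw [h2]
      exact hx₀.2.1
    · rw [h4]
      linarith
  have hder := h.der x₁ hx₁p
  have hne : deriv (fun t => F (S.c1 p x₁, t)) (S.c2 p x₁) ≠ 0 := by
    intro h0
    have h5 : 0 < ε ^ (1 / 8 : ℝ) / D := div_pos (Real.rpow_pos_of_pos hε _) hD
    have h6 : ‖deriv (fun t => F (S.c1 p x₁, t)) (S.c2 p x₁)‖ = 0 := by rw [h0, norm_zero]
    have h7 : ε ^ (1 / 8 : ℝ) / D ≤ ‖deriv (fun t => F (S.c1 p x₁, t)) (S.c2 p x₁)‖ := hder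
    linarith
  have hmem : ((S.c1 p x₁, S.c2 p x₁) : C2) ∈ (S.e p).target := (S.e p).map_source h1.1
  have hFx : F (S.c1 p x₁, S.c2 p x₁) = s := by
    have h5 : ((S.c1 p x₁, S.c2 p x₁) : C2) = S.e p x₁ := rfl
    rw [hF]
    simp only
    rw [h5, (S.e p).left_inv h1.1]
    exact h4
  obtain ⟨Y, hY, hY0, hYe⟩ := prootB_implicit (hFan _ hmem) hFx hne
  rw [h2] at hY hY0 hYe
  refine ⟨Y, hY, ?_, ?_⟩
  · rw [hY0, ← h2]
    exact hmem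
  have hc1 : ContinuousAt (S.c1 p) x₀ :=
    continuous_fst.continuousAt.comp ((S.e p).continuousAt hx₀.1.1)
  have hc2 : ContinuousAt (S.c2 p) x₀ :=
    continuous_snd.continuousAt.comp ((S.e p).continuousAt hx₀.1.1)
  have hYc : ContinuousAt (fun x => Y (S.c1 p x)) x₀ :=
    ContinuousAt.comp (g := Y) (f := S.c1 p) hY.continuousAt hc1
  have e1 : ∀ᶠ x in 𝓝 x₀, x ∈ S.pdom p ε := h.isOpen.mem_nhds hx₀
  have e2 : ∀ᶠ x in 𝓝 x₀, F (S.c1 p x, Y (S.c1 p x)) = s := hc1.eventually hYe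
  have e3 : ∀ᶠ x in 𝓝 x₀, ‖Y (S.c1 p x)‖ < S.b p := by
    apply hYc.norm.eventually_lt continuousAt_const
    rw [hY0]
    exact h1.2.2
  have e4 : ∀ᶠ x in 𝓝 x₀, ‖Y (S.c1 p x) - S.c2 p x‖ < ε ^ (1 / 2 : ℝ) := by
    apply (hYc.sub hc2).norm.eventually_lt continuousAt_const
    simp only [Pi.sub_apply]
    rw [hY0]
    exact (h.disp s hs x₀ hx₀).trans_lt hsm
  filter_upwards [e1, e2, e3, e4] with x k1 k2 k3 k4
  have ht : ((S.c1 p x, Y (S.c1 p x)) : C2) ∈ (S.e p).target := by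
    apply hL.target
    exact ⟨mem_closedBall_zero_iff.2 k1.1.2.1.le, mem_closedBall_zero_iff.2 k3.le⟩
  have hinv : S.e p ((S.e p).symm (S.c1 p x, Y (S.c1 p x))) = (S.c1 p x, Y (S.c1 p x)) :=
    (S.e p).right_inv ht
  symm
  apply h.uniq s hs x k1
  · refine ⟨(S.e p).map_target ht, ?_, ?_⟩
    · rw [hinv]
      exact k1.1.2.1
    · rw [hinv]
      exact k3
  · have k5 : (S.e p ((S.e p).symm (S.c1 p x, Y (S.c1 p x)))).1 = S.c1 p x := by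
      rw [hinv]
    exact k5
  · exact k2
  · have k5 : S.c2 p ((S.e p).symm (S.c1 p x, Y (S.c1 p x))) = Y (S.c1 p x) := by
      unfold Setup.c2
      rw [hinv]
    rw [k5]
    exact k4.le

theorem prootB_small {D : ℝ} (hD : 0 < D) : ∃ ε₀ > 0, ∀ ε : ℝ, 0 < ε → ε < ε₀ →
    D * ε ^ (7 / 8 : ℝ) < ε ^ (1 / 2 : ℝ) := by
  refine ⟨min 1 ((1 / D) ^ 8), by positivity, fun ε hε hε₀ => ?_⟩
  have h1 : ε < 1 := hε₀.trans_le (min_le_left _ _)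
  have h2 : ε < (1 / D) ^ 8 := hε₀.trans_le (min_le_right _ _)
  rw [← prootA_pow7 hε.le, ← prootA_pow4 hε.le]
  set q : ℝ := ε ^ (1 / 8 : ℝ) with hq
  have hq0 : 0 < q := Real.rpow_pos_of_pos hε _
  have hq8 : q ^ 8 = ε := prootA_pow8 hε.le
  have h3 : q < 1 / D := by
    rw [← hq8] at h2
    exact lt_of_pow_lt_pow_left₀ 8 (by positivity) h2
  have h4 : q ≤ 1 := by
    by_contra hcon
    push Not at hcon
    have : 1 < q ^ 8 := one_lt_pow₀ hcon (by norm_num)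
    linarith
  rw [lt_div_iff₀ hD] at h3
  have h5 : q ^ 2 ≤ 1 := pow_le_one₀ hq0.le h4
  calc D * q ^ 7 = (q * D) * q ^ 2 * q ^ 4 := by ring
    _ ≤ (q * D) * 1 * q ^ 4 := by gcongr
    _ < 1 * 1 * q ^ 4 := by gcongr
    _ = q ^ 4 := by ring

theorem ptrans_holo (S : Setup f) (hf : ContMDiff 𝓘(ℂ, C2) 𝓘(ℂ, ℂ) ω f) :
    ∃ ε₀ > 0, ∀ ε : ℝ, 0 < ε → ε < ε₀ → ∀ p ∈ S.P, ∀ s : ℂ, ‖s‖ ≤ ε →
      ContMDiffOn 𝓘(ℂ, C2) 𝓘(ℂ, C2) ω (S.ptrans p ε s) (S.pdom p ε) := by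
  obtain ⟨D, hD, ε₀, hε₀, hprops⟩ := ptrans_props S hf
  obtain ⟨ε₁, hε₁, hsmall⟩ := prootB_small hD
  refine ⟨min ε₀ ε₁, lt_min hε₀ hε₁, fun ε hε hεε p hp s hs x₀ hx₀ => ?_⟩
  have h := hprops ε hε (hεε.trans_le (min_le_left _ _)) p hp
  have hsm := hsmall ε hε (hεε.trans_le (min_le_right _ _))
  have hL := S.loc p hp
  obtain ⟨Y, hY, hmem, hev⟩ := prootB_at S hf hp hε hD h hsm hs hx₀
  apply ContMDiffAt.contMDiffWithinAt
  refine ContMDiffAt.congr_of_eventuallyEq ?_ hev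
  have h1 : ContMDiffAt 𝓘(ℂ, C2) 𝓘(ℂ, C2) ω (S.e p) x₀ :=
    (hL.holo x₀ hx₀.1.1).contMDiffAt ((S.e p).open_source.mem_nhds hx₀.1.1)
  have h2 : ContMDiffAt 𝓘(ℂ, C2) 𝓘(ℂ, C2) ω (S.e p).symm (S.c1 p x₀, Y (S.c1 p x₀)) :=
    (hL.holo_symm _ hmem).contMDiffAt ((S.e p).open_target.mem_nhds hmem)
  have h3 : ContMDiffAt 𝓘(ℂ, C2) 𝓘(ℂ, C2) ω (fun z : C2 => (z.1, Y z.1)) (S.e p x₀) := by
    apply ContDiffAt.contMDiffAt
    apply AnalyticAt.contDiffAt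
    have h4 : AnalyticAt ℂ (fun z : C2 => z.1) (S.e p x₀) := analyticAt_fst
    exact h4.prod (AnalyticAt.comp (f := fun z : C2 => z.1) hY h4)
  exact ContMDiffAt.comp (f := fun x => ((S.c1 p x, Y (S.c1 p x)) : C2)) x₀ h2
    (ContMDiffAt.comp (g := fun z : C2 => (z.1, Y z.1)) (f := S.e p) x₀ h3 h1)

end DD
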