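import Pool.Agent.Work.MP_dd1e4a_gt.PRootB
import Pool.Agent.Work.MP_dd1e4a_gt.MetA

/-! # PRootC: the transport near a critical point is a transport -/

open scoped Manifold ContDiff Topology
open MeasureTheory Set

namespace DD

variable {X : Type} [TopologicalSpace X] [T2Space X] [SecondCountableTopology X]
  [ChartedSpace C2 X] [IsManifold 𝓘(ℂ, C2) ω X] {f : X → ℂ}

set_option linter.unusedSectionVars false

/-- the derivative of `f` in the coordinates. -/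
theorem prootC_df (S : Setup f) (hf : ContMDiff 𝓘(ℂ, C2) 𝓘(ℂ, ℂ) ω f) {p : X} (hp : p ∈ S.P)
    {x : X} (hx : x ∈ (S.e p).source) (v : TangentSpace 𝓘(ℂ, C2) x) :
    dC f x v = fderiv ℂ (fun z : C2 => f ((S.e p).symm z)) (S.e p x)
      (show C2 from mfderiv 𝓘(ℂ, C2) 𝓘(ℂ, C2) (S.e p) x v) := by
  have hL := S.loc p hp
  have hFa := prootA_analytic S hf hp (S.e p x) ((S.e p).map_source hx)
  have h5 : HasMFDerivAt 𝓘(ℂ, C2) 𝓘(ℂ, ℂ) (fun z : C2 => f ((S.e p).symm z)) (S.e p x)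
      (fderiv ℂ (fun z : C2 => f ((S.e p).symm z)) (S.e p x)) :=
    hFa.differentiableAt.hasFDerivAt.hasMFDerivAt
  have h6 := h5.comp x (metA_md (S.e p) hL.holo hx).hasMFDerivAt
  have h7 : f =ᶠ[𝓝 x] (fun z : C2 => f ((S.e p).symm z)) ∘ (S.e p) := by
    filter_upwards [(S.e p).open_source.mem_nhds hx] with y hy
    simp only [Function.comp_apply]
    rw [(S.e p).left_inv hy]
  have h8 := (h6.congr_of_eventuallyEq h7).mfderiv
  exact congrArg (fun L : C2 →L[ℂ] ℂ => L v) h8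

/-- the first coordinate of the tangent vector does not vanish. -/
theorem prootC_ne (S : Setup f) (hf : ContMDiff 𝓘(ℂ, C2) 𝓘(ℂ, ℂ) ω f) {p : X} (hp : p ∈ S.P)
    {x : X} (hx : x ∈ (S.e p).source) (hxc : x ∉ Crit f)
    (hne : deriv (fun t => f ((S.e p).symm (S.c1 p x, t))) (S.c2 p x) ≠ 0) :
    dC (S.c1 p) x (tanVec f x) ≠ 0 := by
  have hL := S.loc p hp
  have hFa := prootA_analytic S hf hp (S.e p x) ((S.e p).map_source hx)
  set w : C2 := (show C2 from mfderiv 𝓘(ℂ, C2) 𝓘(ℂ, C2) (S.e p) x (tanVec f x)) with hw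
  have h1 : dC (S.c1 p) x (tanVec f x) = w.1 := metA_fst (S.e p) hL.holo hx (tanVec f x)
  rw [h1]
  intro h0
  have h2 := prootC_df S hf hp hx (tanVec f x)
  rw [dC_tanVec] at h2
  have h3 : (fderiv ℂ (fun z : C2 => f ((S.e p).symm z)) (S.e p x)) w = 0 := h2.symm
  have h4 : w = w.2 • ((0 : ℂ), (1 : ℂ)) := by
    ext
    · simp [h0]
    · simp
  rw [h4, map_smul, smul_eq_mul, ← (prootA_deriv hFa).deriv] at h3
  have h5 : w.2 = 0 := by
    rcases mul_eq_zero.1 h3 with h | h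
    · exact h
    · exact absurd h hne
  have h6 : w = 0 := Prod.ext h0 h5
  have h7 := metA_left (S.e p) hL.holo hL.holo_symm hx (tanVec f x)
  apply tanVec_ne hxc
  have h8 : (mfderiv 𝓘(ℂ, C2) 𝓘(ℂ, C2) (S.e p).symm (S.e p x) w : C2) = tanVec f x := h7
  rw [h6] at h8
  rw [← h8]
  exact map_zero (mfderiv 𝓘(ℂ, C2) 𝓘(ℂ, C2) (S.e p).symm (S.e p x))

theorem prootC_noncrit (S : Setup f) {p : X} (hp : p ∈ S.P) {ε : ℝ} (hε : 0 < ε) {x : X}
    (hx : x ∈ S.pdom p ε) : x ∉ Crit f := by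
  intro hc
  have hL := S.loc p hp
  have h1 := hL.crit x hx.1.1 hc
  have h2 : S.c1 p x = 0 := by
    unfold Setup.c1
    rw [h1, hL.map_p]
  have h3 := hx.2.1
  rw [h2, norm_zero] at h3
  have : 0 < ε ^ S.τ := Real.rpow_pos_of_pos hε _
  linarith

theorem prootC_mem (S : Setup f) {p : X} {ε D : ℝ} (h : PTransProps S p ε D) (hε : 0 < ε)
    {s : ℂ} (hs : ‖s‖ ≤ ε) {x : X} (hx : x ∈ S.pdom p ε) : S.ptrans p ε s x ∈ S.pdom p ε := by
  obtain ⟨h1, h2, _⟩ := h.fst s x hx.1 hx.2.2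
  refine ⟨h1, ?_, ?_⟩
  · rw [h2]
    exact hx.2.1
  · rw [h.fib s hs x hx]
    linarith

theorem prootC_dne (S : Setup f) {p : X} {ε D : ℝ} (hε : 0 < ε) (hD : 0 < D)
    (h : PTransProps S p ε D) {x : X} (hx : x ∈ S.pdom p ε) :
    deriv (fun t => f ((S.e p).symm (S.c1 p x, t))) (S.c2 p x) ≠ 0 := by
  intro h0
  have h1 := h.der x hx
  rw [h0, norm_zero] at h1
  have : 0 < ε ^ (1 / 8 : ℝ) / D := div_pos (Real.rpow_pos_of_pos hε _) hD
  linarith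

theorem ptrans_transport (S : Setup f) (hf : ContMDiff 𝓘(ℂ, C2) 𝓘(ℂ, ℂ) ω f) :
    ∃ ε₀ > 0, ∀ ε : ℝ, 0 < ε → ε < ε₀ → ∀ p ∈ S.P, ∀ s s' : ℂ, ‖s‖ ≤ ε → ‖s'‖ ≤ ε →
      IsTransport f s' s (S.pdom p ε) (S.ptrans p ε s) := by
  obtain ⟨D, hD, ε₀, hε₀, hprops⟩ := ptrans_props S hf
  obtain ⟨ε₁, hε₁, hholo⟩ := ptrans_holo S hf
  refine ⟨min ε₀ ε₁, lt_min hε₀ hε₁, fun ε hε hεε p hp s s' hs hs' => ?_⟩
  have h := hprops ε hε (hεε.trans_le (min_le_left _ _)) p hp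
  have hh := hholo ε hε (hεε.trans_le (min_le_right _ _)) p hp s hs
  have hL := S.loc p hp
  refine ⟨h.isOpen, hh, h.fib s hs, ?_, ?_, ?_⟩
  · intro x hx
    exact ⟨prootC_noncrit S hp hε hx, prootC_noncrit S hp hε (prootC_mem S h hε hs hx)⟩
  · rintro x ⟨hx, hx'⟩ y ⟨hy, hy'⟩ hxy
    have h1 := (h.inv s s' hs hs' x hx hx').2
    have h2 := (h.inv s s' hs hs' y hy hy').2
    rw [← h1, ← h2, hxy]
  · intro x hx hfx h0
    have hxc := prootC_noncrit S hp hε hx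
    have hne := prootC_ne S hf hp hx.1.1 hxc (prootC_dne S hε hD h hx)
    apply hne
    have hσ : MDifferentiableAt 𝓘(ℂ, C2) 𝓘(ℂ, C2) (S.ptrans p ε s) x :=
      (hh.contMDiffAt (h.isOpen.mem_nhds hx)).mdifferentiableAt (by simp)
    have hσx := prootC_mem S h hε hs hx
    have h5 : HasMFDerivAt 𝓘(ℂ, C2) 𝓘(ℂ, ℂ) (fun z : C2 => z.1) (S.e p (S.ptrans p ε s x))
        (ContinuousLinearMap.fst ℂ ℂ ℂ) :=
      (ContinuousLinearMap.fst ℂ ℂ ℂ).hasMFDerivAt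
    have h6 := h5.comp _ (metA_md (S.e p) hL.holo hσx.1.1).hasMFDerivAt
    have h7 := (h6.comp x hσ.hasMFDerivAt)
    have h8 : S.c1 p =ᶠ[𝓝 x] ((fun z : C2 => z.1) ∘ (S.e p)) ∘ (S.ptrans p ε s) := by
      filter_upwards [h.isOpen.mem_nhds hx] with y hy
      exact (h.fst s y hy.1 hy.2.2).2.1.symm
    have h9 := (h7.congr_of_eventuallyEq h8).mfderiv
    have h10 := congrArg (fun L : C2 →L[ℂ] ℂ => L (tanVec f x)) h9
    refine h10.trans ?_
    have h11 : ((mfderiv 𝓘(ℂ, C2) 𝓘(ℂ, C2) (S.ptrans p ε s) x (tanVec f x)) : C2) = 0 := h0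
    have h12 : ∀ L : C2 →L[ℂ] ℂ, ∀ v : C2, v = 0 → L v = 0 := by
      rintro L v rfl
      exact map_zero L
    exact h12 ((ContinuousLinearMap.fst ℂ ℂ ℂ).comp
      (mfderiv 𝓘(ℂ, C2) 𝓘(ℂ, C2) (S.e p) (S.ptrans p ε s x))) _ h11

end DD
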