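import Pool.Agent.Work.MP_dd1e4a_gt.TanC
import Pool.Agent.Work.MP_dd1e4a_gt.TestL

/-! # Pointwise: convexity inequalities for partitions of unity

`ν` = one of the two vectors `tanVec f x`, `i tanVec f x`; put `N = normSq (tanVec) > 0`,
`a j = dR (v j) x ν`, `W j = dR (w j) x ν ∈ ℝ`. `∑ W j = 0` because `∑ w j = 1` near `x`.
`dR (∑ w j v j) x ν = ∑ w j a j + ∑ W j v j` (terms with `w j = 0` near `x` contribute nothing),
`∑ W j v j = ∑_i w i ∑_j W j (v j - v i)`. `‖A + B‖² ≤ (1+δ) ‖A‖² + (1+1/δ) ‖B‖²`,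
`‖∑ w j a j‖² ≤ ∑ w j ‖a j‖²` (Jensen / Cauchy-Schwarz with `∑ w j = 1`),
`‖∑_i w i ∑_j W j (v j - v i)‖² ≤ ∑_i w i (card J) ∑_j (W j)² ‖v j - v i‖²`.
Add the two directions and divide by `N`.
`pw_mass`: `‖∑ w j v j‖² = ∑ w j ‖v j‖² - ½ ∑∑ w i w j ‖v i - v j‖²`. -/

open scoped Manifold ContDiff Topology
open MeasureTheory Set

namespace DD

variable {X : Type} [TopologicalSpace X] [ChartedSpace C2 X]
  [IsManifold 𝓘(ℂ, C2) ω X] {f : X → ℂ}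

private theorem pointwise_jensen {J : Type} (T : Finset J) (p : J → ℝ) (a : J → ℂ)
    (hp : ∀ j ∈ T, 0 ≤ p j) (hs : ∑ j ∈ T, p j = 1) :
    ‖∑ j ∈ T, (p j : ℂ) * a j‖ ^ 2 ≤ ∑ j ∈ T, p j * ‖a j‖ ^ 2 := by
  have h1 : ‖∑ j ∈ T, (p j : ℂ) * a j‖ ≤ ∑ j ∈ T, p j * ‖a j‖ := by
    refine (norm_sum_le _ _).trans (le_of_eq (Finset.sum_congr rfl fun j hj => ?_))
    rw [norm_mul, Complex.norm_real, Real.norm_of_nonneg (hp j hj)]
  calc ‖∑ j ∈ T, (p j : ℂ) * a j‖ ^ 2 ≤ (∑ j ∈ T, p j * ‖a j‖) ^ 2 := by gcongr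
    _ ≤ ∑ j ∈ T, p j * ‖a j‖ ^ 2 :=
      Real.pow_arith_mean_le_arith_mean_pow T p (fun j => ‖a j‖) hp hs
        (fun j _ => norm_nonneg _) 2

private theorem pointwise_young (A B : ℂ) {δ : ℝ} (hδ : 0 < δ) :
    ‖A + B‖ ^ 2 ≤ (1 + δ) * ‖A‖ ^ 2 + (1 + 1 / δ) * ‖B‖ ^ 2 := by
  have h1 : ‖A + B‖ ^ 2 ≤ (‖A‖ + ‖B‖) ^ 2 := by
    have := norm_add_le A B
    gcongr
  have h2 : (‖A‖ + ‖B‖) ^ 2 ≤ (1 + δ) * ‖A‖ ^ 2 + (1 + 1 / δ) * ‖B‖ ^ 2 := by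
    have h3 : 2 * ‖A‖ * ‖B‖ ≤ δ * ‖A‖ ^ 2 + 1 / δ * ‖B‖ ^ 2 := by
      have h4 : 0 ≤ (δ * ‖A‖ - ‖B‖) ^ 2 / δ := by positivity
      have h5 : (δ * ‖A‖ - ‖B‖) ^ 2 / δ =
          δ * ‖A‖ ^ 2 - 2 * ‖A‖ * ‖B‖ + 1 / δ * ‖B‖ ^ 2 := by
        field_simp
        ring
      linarith
    nlinarith
  exact h1.trans h2

private theorem pointwise_dir {J : Type} (T : Finset J) (p W : J → ℝ) (a z : J → ℂ)
    (hp : ∀ j ∈ T, 0 ≤ p j) (hs : ∑ j ∈ T, p j = 1) (hW : ∑ j ∈ T, W j = 0) {δ : ℝ}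
    (hδ : 0 < δ) :
    ‖∑ j ∈ T, ((p j : ℂ) * a j + (W j : ℂ) * z j)‖ ^ 2 ≤
      (1 + δ) * ∑ j ∈ T, p j * ‖a j‖ ^ 2 +
      (1 + 1 / δ) * (T.card * ∑ i ∈ T, ∑ j ∈ T, p i * ((W j) ^ 2 * ‖z j - z i‖ ^ 2)) := by
  rw [Finset.sum_add_distrib]
  have hpc : ∑ i ∈ T, (p i : ℂ) = 1 := by
    rw [← Complex.ofReal_sum, hs, Complex.ofReal_one]
  have hWc : ∑ i ∈ T, (W i : ℂ) = 0 := by
    rw [← Complex.ofReal_sum, hW, Complex.ofReal_zero]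
  have h1 : ∑ j ∈ T, (W j : ℂ) * z j =
      ∑ i ∈ T, (p i : ℂ) * ∑ j ∈ T, (W j : ℂ) * (z j - z i) := by
    have h2 : ∀ i, ∑ j ∈ T, (W j : ℂ) * (z j - z i) = ∑ j ∈ T, (W j : ℂ) * z j := by
      intro i
      simp_rw [mul_sub]
      rw [Finset.sum_sub_distrib, ← Finset.sum_mul, hWc, zero_mul, sub_zero]
    simp_rw [h2]
    rw [← Finset.sum_mul, hpc, one_mul]
  have h3 : ‖∑ j ∈ T, (W j : ℂ) * z j‖ ^ 2 ≤
      T.card * ∑ i ∈ T, ∑ j ∈ T, p i * ((W j) ^ 2 * ‖z j - z i‖ ^ 2) := by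
    rw [h1]
    refine (pointwise_jensen T p _ hp hs).trans ?_
    rw [Finset.mul_sum]
    refine Finset.sum_le_sum fun i hi => ?_
    rw [← Finset.mul_sum]
    have h4 : ‖∑ j ∈ T, (W j : ℂ) * (z j - z i)‖ ^ 2 ≤
        T.card * ∑ j ∈ T, (W j) ^ 2 * ‖z j - z i‖ ^ 2 := by
      calc ‖∑ j ∈ T, (W j : ℂ) * (z j - z i)‖ ^ 2
          ≤ (∑ j ∈ T, |W j| * ‖z j - z i‖) ^ 2 := by
            have : ‖∑ j ∈ T, (W j : ℂ) * (z j - z i)‖ ≤ ∑ j ∈ T, |W j| * ‖z j - z i‖ := by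
              refine (norm_sum_le _ _).trans (le_of_eq (Finset.sum_congr rfl fun j _ => ?_))
              rw [norm_mul, Complex.norm_real, Real.norm_eq_abs]
            gcongr
        _ ≤ T.card * ∑ j ∈ T, (|W j| * ‖z j - z i‖) ^ 2 := sq_sum_le_card_mul_sum_sq
        _ = T.card * ∑ j ∈ T, (W j) ^ 2 * ‖z j - z i‖ ^ 2 := by
            congr 1
            refine Finset.sum_congr rfl fun j _ => ?_
            rw [mul_pow, sq_abs]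
    calc p i * ‖∑ j ∈ T, (W j : ℂ) * (z j - z i)‖ ^ 2
        ≤ p i * (T.card * ∑ j ∈ T, (W j) ^ 2 * ‖z j - z i‖ ^ 2) :=
          mul_le_mul_of_nonneg_left h4 (hp i hi)
      _ = T.card * (p i * ∑ j ∈ T, (W j) ^ 2 * ‖z j - z i‖ ^ 2) := by ring
  have h5 := pointwise_jensen T p a hp hs
  refine (pointwise_young _ _ hδ).trans ?_
  have hδ' : 0 < 1 + 1 / δ := by positivity
  have := mul_le_mul_of_nonneg_left h5 (by linarith : (0 : ℝ) ≤ 1 + δ)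
  have := mul_le_mul_of_nonneg_left h3 hδ'.le
  linarith

theorem pw_energy (g : HermMetric X) {J : Type} (T : Finset J) (w : J → X → ℝ) (v : J → X → ℂ)
    {x : X} (hx : x ∉ Crit f) (hw : ∀ j ∈ T, 0 ≤ w j x)
    (hreg : ∀ j ∈ T, (∀ᶠ y in 𝓝 x, w j y = 0) ∨
      (MDifferentiableAt 𝓘(ℝ, C2) 𝓘(ℝ, ℝ) (w j) x ∧ MDifferentiableAt 𝓘(ℝ, C2) 𝓘(ℝ, ℂ) (v j) x))
    (hsum : ∀ᶠ y in 𝓝 x, ∑ j ∈ T, w j y = 1) {δ : ℝ} (hδ : 0 < δ) :
    gradSq g f (fun y => ∑ j ∈ T, (w j y : ℂ) * v j y) x ≤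
      (1 + δ) * ∑ j ∈ T, w j x * gradSq g f (v j) x +
      (1 + 1 / δ) * T.card *
        ∑ i ∈ T, ∑ j ∈ T, w i x * (gradSq g f (w j) x * ‖v j x - v i x‖ ^ 2) := by
  classical
  set T' := T.filter (fun j => ¬ ∀ᶠ y in 𝓝 x, w j y = 0) with hT'
  have hsub : T' ⊆ T := Finset.filter_subset _ _
  have hout : ∀ j ∈ T, j ∉ T' → ∀ᶠ y in 𝓝 x, w j y = 0 := by
    intro j hj hj'
    by_contra h
    exact hj' (Finset.mem_filter.mpr ⟨hj, h⟩)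
  have hin : ∀ j ∈ T', MDifferentiableAt 𝓘(ℝ, C2) 𝓘(ℝ, ℝ) (w j) x ∧
      MDifferentiableAt 𝓘(ℝ, C2) 𝓘(ℝ, ℂ) (v j) x := by
    intro j hj
    have h1 := Finset.mem_filter.mp hj
    exact (hreg j h1.1).resolve_left h1.2
  have hall : ∀ᶠ y in 𝓝 x, ∀ j ∈ T, j ∉ T' → w j y = 0 := by
    have h1 : ∀ j ∈ T, ∀ᶠ y in 𝓝 x, j ∉ T' → w j y = 0 := by
      intro j hj
      by_cases hj' : j ∈ T'
      · exact Filter.Eventually.of_forall fun y h => absurd hj' h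
      · filter_upwards [hout j hj hj'] with y hy _
        exact hy
    exact (Filter.eventually_all_finset T).mpr h1
  have hu : (fun y => ∑ j ∈ T, (w j y : ℂ) * v j y) =ᶠ[𝓝 x]
      fun y => ∑ j ∈ T', (w j y : ℂ) * v j y := by
    filter_upwards [hall] with y hy
    refine (Finset.sum_subset hsub fun j hj hj' => ?_).symm
    rw [hy j hj hj', Complex.ofReal_zero, zero_mul]
  have hs' : (fun y => ∑ j ∈ T', w j y) =ᶠ[𝓝 x] fun _ => (1 : ℝ) := by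
    filter_upwards [hall, hsum] with y hy hy1
    rw [← hy1]
    exact Finset.sum_subset hsub fun j hj hj' => hy j hj hj'
  have hs1 : ∑ j ∈ T', w j x = 1 := hs'.self_of_nhds
  have hdw : ∀ ν : TangentSpace 𝓘(ℂ, C2) x, ∑ j ∈ T', dR (w j) x ν = 0 := by
    intro ν
    rw [← dR_sum (fun j hj => (hin j hj).1), dR_congr hs']
    unfold dR
    rw [mfderiv_const]
    rfl
  have hmul : ∀ j ∈ T', MDifferentiableAt 𝓘(ℝ, C2) 𝓘(ℝ, ℂ) (fun y => (w j y : ℂ) * v j y) x := by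
    intro j hj
    obtain ⟨h1, h2⟩ := hin j hj
    have h1' := calcB_iff.mp h1
    have h2' := calcB_iff.mp h2
    have h3 : MDifferentiableAt 𝓘(ℝ, C2) 𝓘(ℝ, ℂ) (fun y => w j y • v j y) x :=
      calcB_iff.mpr ⟨h1'.1.smul h2'.1, h1'.2.smul h2'.2⟩
    have h4 : (fun y => (w j y : ℂ) * v j y) = fun y => w j y • v j y := by
      funext y
      rw [Complex.real_smul]
    rw [h4]; exact h3
  have hdu : ∀ ν : TangentSpace 𝓘(ℂ, C2) x,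
      dR (fun y => ∑ j ∈ T, (w j y : ℂ) * v j y) x ν =
        ∑ j ∈ T', ((w j x : ℂ) * dR (v j) x ν + ((dR (w j) x ν : ℝ) : ℂ) * v j x) := by
    intro ν
    rw [dR_congr hu, dR_sum hmul]
    refine Finset.sum_congr rfl fun j hj => ?_
    rw [tanC_mul (hin j hj).1 (hin j hj).2]
  have hdir : ∀ ν : TangentSpace 𝓘(ℂ, C2) x,
      ‖dR (fun y => ∑ j ∈ T, (w j y : ℂ) * v j y) x ν‖ ^ 2 ≤
        (1 + δ) * ∑ j ∈ T', w j x * ‖dR (v j) x ν‖ ^ 2 +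
        (1 + 1 / δ) * (T'.card * ∑ i ∈ T', ∑ j ∈ T',
          w i x * ((dR (w j) x ν) ^ 2 * ‖v j x - v i x‖ ^ 2)) := by
    intro ν
    rw [hdu]
    exact pointwise_dir T' (fun j => w j x) (fun j => dR (w j) x ν) (fun j => dR (v j) x ν)
      (fun j => v j x) (fun j hj => hw j (hsub hj)) hs1 (hdw ν) hδ
  have hN := normSq_pos g x (tanVec_ne hx)
  set N := g.normSq x (tanVec f x) with hNdef
  have h1 := hdir (tanVec f x)
  have h2 := hdir (Complex.I • tanVec f x)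
  have hmain : gradSq g f (fun y => ∑ j ∈ T, (w j y : ℂ) * v j y) x ≤
      (1 + δ) * ∑ j ∈ T', w j x * gradSq g f (v j) x +
      (1 + 1 / δ) * (T'.card *
        ∑ i ∈ T', ∑ j ∈ T', w i x * (gradSq g f (w j) x * ‖v j x - v i x‖ ^ 2)) := by
    unfold gradSq
    rw [← hNdef, div_le_iff₀ hN]
    refine (add_le_add h1 h2).trans (le_of_eq ?_)
    have e1 : ∑ j ∈ T', w j x * ((‖dR (v j) x (tanVec f x)‖ ^ 2 +
        ‖dR (v j) x (Complex.I • tanVec f x)‖ ^ 2) / N) =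
        (∑ j ∈ T', w j x * ‖dR (v j) x (tanVec f x)‖ ^ 2 +
          ∑ j ∈ T', w j x * ‖dR (v j) x (Complex.I • tanVec f x)‖ ^ 2) / N := by
      rw [← Finset.sum_add_distrib, Finset.sum_div]
      refine Finset.sum_congr rfl fun j _ => ?_
      ring
    have e2 : ∑ i ∈ T', ∑ j ∈ T', w i x * ((‖dR (w j) x (tanVec f x)‖ ^ 2 +
        ‖dR (w j) x (Complex.I • tanVec f x)‖ ^ 2) / N * ‖v j x - v i x‖ ^ 2) =
        (∑ i ∈ T', ∑ j ∈ T', w i x * ((dR (w j) x (tanVec f x)) ^ 2 * ‖v j x - v i x‖ ^ 2) +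
          ∑ i ∈ T', ∑ j ∈ T', w i x * ((dR (w j) x (Complex.I • tanVec f x)) ^ 2 *
            ‖v j x - v i x‖ ^ 2)) / N := by
      rw [← Finset.sum_add_distrib, Finset.sum_div]
      refine Finset.sum_congr rfl fun i _ => ?_
      rw [← Finset.sum_add_distrib, Finset.sum_div]
      refine Finset.sum_congr rfl fun j _ => ?_
      rw [Real.norm_eq_abs, Real.norm_eq_abs, sq_abs, sq_abs]
      ring
    rw [e1, e2]
    field_simp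
    ring
  refine hmain.trans ?_
  have hδ' : 0 < 1 + 1 / δ := by positivity
  have hterm : ∀ i ∈ T, ∀ j ∈ T,
      0 ≤ w i x * (gradSq g f (w j) x * ‖v j x - v i x‖ ^ 2) := by
    intro i hi j _
    exact mul_nonneg (hw i hi) (mul_nonneg (gradSq_nonneg g f (w j) x) (by positivity))
  have h3 : ∑ j ∈ T', w j x * gradSq g f (v j) x ≤ ∑ j ∈ T, w j x * gradSq g f (v j) x :=
    Finset.sum_le_sum_of_subset_of_nonneg hsub
      (fun j hj _ => mul_nonneg (hw j hj) (gradSq_nonneg g f (v j) x))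
  have h4 : ∑ i ∈ T', ∑ j ∈ T', w i x * (gradSq g f (w j) x * ‖v j x - v i x‖ ^ 2) ≤
      ∑ i ∈ T, ∑ j ∈ T, w i x * (gradSq g f (w j) x * ‖v j x - v i x‖ ^ 2) := by
    calc ∑ i ∈ T', ∑ j ∈ T', w i x * (gradSq g f (w j) x * ‖v j x - v i x‖ ^ 2)
        ≤ ∑ i ∈ T', ∑ j ∈ T, w i x * (gradSq g f (w j) x * ‖v j x - v i x‖ ^ 2) :=
          Finset.sum_le_sum fun i hi =>
            Finset.sum_le_sum_of_subset_of_nonneg hsub fun j hj _ => hterm i (hsub hi) j hj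
      _ ≤ ∑ i ∈ T, ∑ j ∈ T, w i x * (gradSq g f (w j) x * ‖v j x - v i x‖ ^ 2) :=
          Finset.sum_le_sum_of_subset_of_nonneg hsub fun i hi _ =>
            Finset.sum_nonneg fun j hj => hterm i hi j hj
  have h5 : (0 : ℝ) ≤ ∑ i ∈ T', ∑ j ∈ T',
      w i x * (gradSq g f (w j) x * ‖v j x - v i x‖ ^ 2) :=
    Finset.sum_nonneg fun i hi => Finset.sum_nonneg fun j hj => hterm i (hsub hi) j (hsub hj)
  have h6 : (T'.card : ℝ) ≤ T.card := by exact_mod_cast Finset.card_le_card hsub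
  have h7 : (T'.card : ℝ) *
        ∑ i ∈ T', ∑ j ∈ T', w i x * (gradSq g f (w j) x * ‖v j x - v i x‖ ^ 2) ≤
      T.card * ∑ i ∈ T, ∑ j ∈ T, w i x * (gradSq g f (w j) x * ‖v j x - v i x‖ ^ 2) :=
    mul_le_mul h6 h4 h5 (by positivity)
  have h8 := mul_le_mul_of_nonneg_left h7 hδ'.le
  have h9 := mul_le_mul_of_nonneg_left h3 (by linarith : (0 : ℝ) ≤ 1 + δ)
  rw [mul_assoc (1 + 1 / δ)]
  linarith

theorem pw_mass {J : Type} (T : Finset J) (w : J → ℝ) (v : J → ℂ) (hw : ∀ j ∈ T, 0 ≤ w j)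
    (hsum : ∑ j ∈ T, w j = 1) :
    (∑ j ∈ T, w j * ‖v j‖ ^ 2) - ∑ i ∈ T, ∑ j ∈ T, w i * (w j * ‖v i - v j‖ ^ 2) ≤
      ‖∑ j ∈ T, (w j : ℂ) * v j‖ ^ 2 := by
  set S : ℂ := ∑ j ∈ T, (w j : ℂ) * v j with hS
  have hwc : ∑ i ∈ T, (w i : ℂ) = 1 := by
    rw [← Complex.ofReal_sum, hsum, Complex.ofReal_one]
  have h1 : ∑ i ∈ T, w i * ‖v i - S‖ ^ 2 = (∑ i ∈ T, w i * ‖v i‖ ^ 2) - ‖S‖ ^ 2 := by
    have h2 : ∀ i, w i * ‖v i - S‖ ^ 2 =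
        w i * ‖v i‖ ^ 2 - 2 * ((w i : ℂ) * v i * (starRingEnd ℂ) S).re + w i * ‖S‖ ^ 2 := by
      intro i
      rw [← Complex.normSq_eq_norm_sq, ← Complex.normSq_eq_norm_sq, ← Complex.normSq_eq_norm_sq,
        Complex.normSq_sub, mul_assoc, Complex.re_ofReal_mul]
      ring
    simp_rw [h2]
    rw [Finset.sum_add_distrib, Finset.sum_sub_distrib, ← Finset.sum_mul, hsum, one_mul,
      ← Finset.mul_sum, ← Complex.re_sum, ← Finset.sum_mul, ← hS, Complex.mul_conj,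
      Complex.ofReal_re, Complex.normSq_eq_norm_sq]
    ring
  have h3 : ∀ i ∈ T, ‖v i - S‖ ^ 2 ≤ ∑ j ∈ T, w j * ‖v i - v j‖ ^ 2 := by
    intro i _
    have h4 : v i - S = ∑ j ∈ T, (w j : ℂ) * (v i - v j) := by
      simp_rw [mul_sub]
      rw [Finset.sum_sub_distrib, ← Finset.sum_mul, hwc, one_mul]
    rw [h4]
    exact pointwise_jensen T w _ hw hsum
  have h5 : ∑ i ∈ T, w i * ‖v i - S‖ ^ 2 ≤
      ∑ i ∈ T, ∑ j ∈ T, w i * (w j * ‖v i - v j‖ ^ 2) := by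
    refine Finset.sum_le_sum fun i hi => ?_
    rw [← Finset.mul_sum]
    exact mul_le_mul_of_nonneg_left (h3 i hi) (hw i hi)
  linarith

end DD
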