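import Pool.Agent.Work.MP_dd1e4a_gt.TransLocal
import Pool.Agent.Work.MP_dd1e4a_gt.AreaD

/-! # TransAux: measurability of the terms in the estimates for the transplanted function -/

open scoped Manifold ContDiff Topology
open MeasureTheory Set

namespace DD

variable {X : Type} [TopologicalSpace X] [T2Space X] [SecondCountableTopology X]
  [ChartedSpace C2 X] [IsManifold 𝓘(ℂ, C2) ω X] [MeasurableSpace X] [BorelSpace X] {f : X → ℂ}

omit [T2Space X] [SecondCountableTopology X] [ChartedSpace C2 X] [IsManifold 𝓘(ℂ, C2) ω X] in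
/-- a function which is continuous on a measurable set and zero almost everywhere off it is
almost everywhere measurable. -/
theorem transAux_aemeas {μ : Measure X} {G : X → ENNReal} {O : Set X} (hO : MeasurableSet O)
    (hG : ContinuousOn G O) (h0 : ∀ᵐ x ∂μ, x ∉ O → G x = 0) : AEMeasurable G μ := by
  classical
  have h1 : Measurable (O.piecewise G (fun _ => 0)) :=
    hG.measurable_piecewise continuousOn_const hO
  refine ⟨_, h1, ?_⟩
  filter_upwards [h0] with x hx
  by_cases h : x ∈ O
  · simp [h]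
  · simp [h, hx h]

omit [T2Space X] [SecondCountableTopology X] [MeasurableSpace X] [BorelSpace X] in
theorem transAux_smooth {b : OpenPartialHomeomorph X C2} (hb : IsBox f b) (s : ℂ) {v : X → ℂ}
    (hv : v ∈ Test f) :
    ContMDiffOn 𝓘(ℝ, C2) 𝓘(ℝ, ℂ) ∞ (fun y => v (btrans b s y)) (transDom b s) := by
  have h1 : ContMDiffOn 𝓘(ℝ, C2) 𝓘(ℝ, C2) ∞ (btrans b s) (transDom b s) :=
    hol_real (hb.holo_btrans s)
  have h2 : ContMDiff 𝓘(ℝ, C2) 𝓘(ℝ, ℂ) ∞ v := hv.1
  exact h2.comp_contMDiffOn h1

/-- the energy term of a box is measurable on the fibre. -/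
theorem transAux_energy_box (g : HermMetric X) (hf : ContMDiff 𝓘(ℂ, C2) 𝓘(ℂ, ℂ) ω f)
    {b : OpenPartialHomeomorph X C2} (hb : IsBox f b) {ψ : X → ℝ} (hψ : Continuous ψ) {s s' : ℂ}
    (hd : ∀ x ∈ tsupport ψ, f x = s' → x ∈ transDom b s) {μ' : Measure X}
    (hμ' : IsFibreArea g f s' μ') {v : X → ℂ} (hv : v ∈ Test f) :
    AEMeasurable (fun x => ENNReal.ofReal (ψ x) *
      ENNReal.ofReal (gradSq g f (fun y => v (btrans b s y)) x)) μ' := by
  have hc : IsClosed (Crit f) := isClosed_crit hf
  have hO : MeasurableSet (transDom b s \ Crit f) :=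
    (isOpen_transDom b s).measurableSet.diff hc.measurableSet
  have h1 := continuousOn_gradSq g hf (isOpen_transDom b s) (transAux_smooth hb s hv)
  refine transAux_aemeas hO ?_ ?_
  · refine ContinuousOn.ennreal_mul ?_ ?_ ?_ ?_
    · exact (ENNReal.continuous_ofReal.comp hψ).continuousOn
    · exact ENNReal.continuous_ofReal.comp_continuousOn h1
    · intro x _
      exact Or.inr ENNReal.ofReal_ne_top
    · intro x _
      exact Or.inr ENNReal.ofReal_ne_top
  · filter_upwards [hμ'.ae_fibre] with x hx hxO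
    have h2 : x ∉ tsupport ψ := fun h => hxO ⟨hd x h hx.1, hx.2⟩
    rw [image_eq_zero_of_notMem_tsupport h2]
    simp

/-- the mass term of a box is measurable on the fibre. -/
theorem transAux_mass_box (g : HermMetric X)
    {b : OpenPartialHomeomorph X C2} (hb : IsBox f b) {ψ : X → ℝ} (hψ : Continuous ψ) {s s' : ℂ}
    (hd : ∀ x ∈ tsupport ψ, f x = s' → x ∈ transDom b s) {μ' : Measure X}
    (hμ' : IsFibreArea g f s' μ') {v : X → ℂ} (hv : v ∈ Test f) :
    AEMeasurable (fun x => ENNReal.ofReal (ψ x) *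
      ENNReal.ofReal (‖v (btrans b s x)‖ ^ 2)) μ' := by
  have hO : MeasurableSet (transDom b s) := (isOpen_transDom b s).measurableSet
  have h1 : ContinuousOn (fun y => v (btrans b s y)) (transDom b s) :=
    (transAux_smooth hb s hv).continuousOn
  refine transAux_aemeas hO ?_ ?_
  · refine ContinuousOn.ennreal_mul ?_ ?_ ?_ ?_
    · exact (ENNReal.continuous_ofReal.comp hψ).continuousOn
    · exact ENNReal.continuous_ofReal.comp_continuousOn (h1.norm.pow 2)
    · intro x _
      exact Or.inr ENNReal.ofReal_ne_top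
    · intro x _
      exact Or.inr ENNReal.ofReal_ne_top
  · filter_upwards [hμ'.ae_fibre] with x hx hxO
    have h2 : x ∉ tsupport ψ := fun h => hxO (hd x h hx.1)
    rw [image_eq_zero_of_notMem_tsupport h2]
    simp

/-- the mixed term of two boxes is measurable on the fibre. -/
theorem transAux_mixed (g : HermMetric X)
    {b₁ b₂ : OpenPartialHomeomorph X C2} (hb₁ : IsBox f b₁) (hb₂ : IsBox f b₂) {K : Set X}
    (hK : IsClosed K) {s s' : ℂ}
    (hd : ∀ x ∈ K, f x = s' → x ∈ transDom b₁ s ∧ x ∈ transDom b₂ s) {μ' : Measure X}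
    (hμ' : IsFibreArea g f s' μ') {v : X → ℂ} (hv : v ∈ Test f) :
    AEMeasurable (K.indicator (fun x =>
      ENNReal.ofReal (‖v (btrans b₁ s x) - v (btrans b₂ s x)‖ ^ 2))) μ' := by
  classical
  have hO : MeasurableSet (K ∩ (transDom b₁ s ∩ transDom b₂ s)) :=
    hK.measurableSet.inter
      ((isOpen_transDom b₁ s).measurableSet.inter (isOpen_transDom b₂ s).measurableSet)
  have h1 : ContinuousOn (fun y => v (btrans b₁ s y)) (K ∩ (transDom b₁ s ∩ transDom b₂ s)) :=
    (transAux_smooth hb₁ s hv).continuousOn.mono (fun x hx => hx.2.1)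
  have h2 : ContinuousOn (fun y => v (btrans b₂ s y)) (K ∩ (transDom b₁ s ∩ transDom b₂ s)) :=
    (transAux_smooth hb₂ s hv).continuousOn.mono (fun x hx => hx.2.2)
  refine transAux_aemeas hO ?_ ?_
  · have h3 : ContinuousOn (fun x =>
        ENNReal.ofReal (‖v (btrans b₁ s x) - v (btrans b₂ s x)‖ ^ 2))
        (K ∩ (transDom b₁ s ∩ transDom b₂ s)) :=
      ENNReal.continuous_ofReal.comp_continuousOn ((h1.sub h2).norm.pow 2)
    refine h3.congr (fun x hx => ?_)
    exact indicator_of_mem hx.1 _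
  · filter_upwards [hμ'.ae_fibre] with x hx hxO
    refine indicator_of_notMem (fun h => hxO ⟨h, ?_⟩) _
    exact hd x h hx.1

/-- the energy term of a critical point is measurable on the fibre. -/
theorem transAux_energy_p (g : HermMetric X) (hf : ContMDiff 𝓘(ℂ, C2) 𝓘(ℂ, ℂ) ω f) {O : Set X}
    (hO : IsOpen O) {Θ : X → ℝ} (hΘ : Continuous Θ) {s' : ℂ}
    (h0 : ∀ x, f x = s' → x ∉ O → Θ x = 0) {μ' : Measure X}
    (hμ' : IsFibreArea g f s' μ') {w : X → ℂ}
    (hw : ContMDiffOn 𝓘(ℝ, C2) 𝓘(ℝ, ℂ) ∞ w O) :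
    AEMeasurable (fun x => ENNReal.ofReal (Θ x) * ENNReal.ofReal (gradSq g f w x)) μ' ∧
      AEMeasurable (fun x => ENNReal.ofReal (Θ x) * ENNReal.ofReal (‖w x‖ ^ 2)) μ' := by
  have hc : IsClosed (Crit f) := isClosed_crit hf
  have h1 := continuousOn_gradSq g hf hO hw
  constructor
  · refine transAux_aemeas (hO.measurableSet.diff hc.measurableSet) ?_ ?_
    · refine ContinuousOn.ennreal_mul ?_ ?_ ?_ ?_
      · exact (ENNReal.continuous_ofReal.comp hΘ).continuousOn
      · exact ENNReal.continuous_ofReal.comp_continuousOn h1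
      · intro x _
        exact Or.inr ENNReal.ofReal_ne_top
      · intro x _
        exact Or.inr ENNReal.ofReal_ne_top
    · filter_upwards [hμ'.ae_fibre] with x hx hxO
      have h2 : x ∉ O := fun h => hxO ⟨h, hx.2⟩
      rw [h0 x hx.1 h2]
      simp
  · refine transAux_aemeas hO.measurableSet ?_ ?_
    · refine ContinuousOn.ennreal_mul ?_ ?_ ?_ ?_
      · exact (ENNReal.continuous_ofReal.comp hΘ).continuousOn
      · exact ENNReal.continuous_ofReal.comp_continuousOn (hw.continuousOn.norm.pow 2)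
      · intro x _
        exact Or.inr ENNReal.ofReal_ne_top
      · intro x _
        exact Or.inr ENNReal.ofReal_ne_top
    · filter_upwards [hμ'.ae_fibre] with x hx hxO
      rw [h0 x hx.1 hxO]
      simp

end DD
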