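import Pool.Agent.Work.MP_dd1e4a_gt.PSmooth
import Pool.Agent.Work.MP_dd1e4a_gt.BoxCompact
import Pool.Agent.Work.MP_dd1e4a_gt.CutX

/-! # TransDef: the transplantation operator

`TT v = ζ(f) (∑ ψ_α v∘btrans_α + ∑ Θ_p v∘ptrans_p)`.
`TT_mem` (small `ε`): on the open set `{‖f‖ > 3ε/2}` the function is zero. On `{‖f‖ < 2ε}` every
summand is smooth: near points of `tsupport (ψ α)` the map `btrans` is defined and smooth
(`box_lip` or `box_compact` on `tsupport (ψ α)`; `holo_btrans`), elsewhere `ψ α = 0` near the point;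
near points of `tsupport (Θ p) ⊆ bidisc p` use `p_smooth`. So `TT v` is smooth. Its support is
contained in the compact set `f⁻¹' closedBall 0 (3ε/2)` (`S.proper`). Near a critical point `p`
it vanishes: `ψ α = 0` near `p` (`ψ_supp`, `IsBox.disjoint_crit`), `Θ q = 0` near `p` for `q ≠ p`,
and `v∘ptrans = 0` for `‖c1 p‖ ≤ ε^τ`. -/

open scoped Manifold ContDiff Topology
open MeasureTheory Set

namespace DD

variable {X : Type} [TopologicalSpace X] [T2Space X] [SecondCountableTopology X]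
  [ChartedSpace C2 X] [IsManifold 𝓘(ℂ, C2) ω X] {f : X → ℂ}

theorem TT_add (S : Setup f) (ε : ℝ) (s : ℂ) (ζ : ℂ → ℝ) (v w : X → ℂ) :
    S.TT ε s ζ (fun x => v x + w x) = fun x => S.TT ε s ζ v x + S.TT ε s ζ w x := by
  funext x
  simp only [Setup.TT, mul_add, Finset.sum_add_distrib]
  ring

theorem TT_smul (S : Setup f) (ε : ℝ) (s : ℂ) (ζ : ℂ → ℝ) (c : ℂ) (v : X → ℂ) :
    S.TT ε s ζ (fun x => c * v x) = fun x => c * S.TT ε s ζ v x := by
  funext x
  simp only [Setup.TT]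
  have h1 : ∀ α, (S.ψ α x : ℂ) * (c * v (btrans (S.bx α) s x)) =
      c * ((S.ψ α x : ℂ) * v (btrans (S.bx α) s x)) := fun α => by ring
  have h2 : ∀ p, (S.Θ p x : ℂ) * (c * v (S.ptrans p ε s x)) =
      c * ((S.Θ p x : ℂ) * v (S.ptrans p ε s x)) := fun p => by ring
  simp_rw [h1, h2]
  rw [← Finset.mul_sum, ← Finset.mul_sum]
  ring

/-- a product of real and complex smooth functions. -/
private theorem transDef_mul {a : X → ℝ} {u : X → ℂ} {x : X}
    (ha : ContMDiffAt 𝓘(ℝ, C2) 𝓘(ℝ, ℝ) ∞ a x) (hu : ContMDiffAt 𝓘(ℝ, C2) 𝓘(ℝ, ℂ) ∞ u x) :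
    ContMDiffAt 𝓘(ℝ, C2) 𝓘(ℝ, ℂ) ∞ (fun y => (a y : ℂ) * u y) x := by
  have h1 : ContMDiffAt 𝓘(ℝ, C2) 𝓘(ℝ, ℂ) ∞ (fun y => a y • u y) x := ha.smul hu
  have h2 : (fun y => (a y : ℂ) * u y) = fun y => a y • u y := by
    funext y
    rw [Complex.real_smul]
  rw [h2]; exact h1

theorem TT_mem (S : Setup f) (hf : ContMDiff 𝓘(ℂ, C2) 𝓘(ℂ, ℂ) ω f) :
    ∃ ε₀ > 0, ∀ ε : ℝ, 0 < ε → ε < ε₀ → ∀ s : ℂ, ‖s‖ ≤ ε → ∀ ζ : ℂ → ℝ, ContDiff ℝ ∞ ζ →
      (∀ t, 3 / 2 * ε ≤ ‖t‖ → ζ t = 0) → ∀ v ∈ Test f, S.CoreZero ε v →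
      S.TT ε s ζ v ∈ Test f := by
  classical
  obtain ⟨ε₁, hε₁, hsm⟩ := p_smooth S hf
  have hbc : ∀ α, ∃ ρ > 0, ∀ x ∈ tsupport (S.ψ α), ‖f x‖ ≤ ρ → ∀ s : ℂ, ‖s‖ ≤ ρ →
      x ∈ transDom (S.bx α) s := by
    intro α
    obtain ⟨ρ, hρ, K', _, _, h⟩ := box_compact hf (S.box α)
      (K := tsupport (S.ψ α)) (S.ψ_compact α) (S.ψ_supp α)
    exact ⟨ρ, hρ, fun x hx h1 s hs => (h x hx h1 s hs).2⟩
  choose ρ hρ htd using hbc
  -- a positive lower bound for all the `ρ α`
  obtain ⟨r, hr, hr2⟩ : ∃ r > 0, ∀ α, r ≤ ρ α := by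
    by_cases hne : Nonempty S.ι
    · obtain ⟨α₀, hα₀⟩ := Finite.exists_min ρ
      exact ⟨ρ α₀, hρ α₀, hα₀⟩
    · exact ⟨1, one_pos, fun α => absurd ⟨α⟩ hne⟩
  refine ⟨min ε₁ (min (r / 2) (S.ρ / 2)), lt_min hε₁ (lt_min (by linarith)
    (by linarith [S.ρ_pos])), ?_⟩
  intro ε hε hεε s hs ζ hζ hζ0 v hv hvc
  have hε1 : ε < ε₁ := lt_of_lt_of_le hεε (min_le_left _ _)
  have hεr : ε < r / 2 := lt_of_lt_of_le hεε ((min_le_right _ _).trans (min_le_left _ _))
  have hερ : ε < S.ρ / 2 := lt_of_lt_of_le hεε ((min_le_right _ _).trans (min_le_right _ _))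
  obtain ⟨hv1, hv2, hv3⟩ := hv
  have hfc : Continuous f := hf.continuous
  have hζf : ContMDiff 𝓘(ℝ, C2) 𝓘(ℝ, ℝ) ∞ (fun x => ζ (f x)) := by
    have h1 : ContMDiffOn 𝓘(ℝ, C2) 𝓘(ℝ, ℂ) ∞ f univ := hol_real (hf.contMDiffOn (s := univ))
    exact hζ.contMDiff.comp (contMDiffOn_univ.mp h1)
  -- the function vanishes where `‖f‖` is large
  have hzero : ∀ x, 3 / 2 * ε ≤ ‖f x‖ → S.TT ε s ζ v x = 0 := by
    intro x hx
    simp only [Setup.TT]
    rw [hζ0 _ hx, Complex.ofReal_zero, zero_mul]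
  refine ⟨?_, ?_, ?_⟩
  · intro x
    by_cases hx : ‖f x‖ < 2 * ε
    · have hA : ∀ α, ContMDiffAt 𝓘(ℝ, C2) 𝓘(ℝ, ℂ) ∞
          (fun y => (S.ψ α y : ℂ) * v (btrans (S.bx α) s y)) x := by
        intro α
        by_cases hxα : x ∈ tsupport (S.ψ α)
        · have h1 : x ∈ transDom (S.bx α) s :=
            htd α x hxα (by linarith [hr2 α]) s (by linarith [hr2 α])
          have h2 : ContMDiffAt 𝓘(ℝ, C2) 𝓘(ℝ, C2) ∞ (btrans (S.bx α) s) x :=
            (hol_real ((S.box α).holo_btrans s)).contMDiffAt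
              ((isOpen_transDom (S.bx α) s).mem_nhds h1)
          exact transDef_mul ((S.ψ_smooth α).contMDiffAt) ((hv1.contMDiffAt).comp x h2)
        · have h1 : (fun y => (S.ψ α y : ℂ) * v (btrans (S.bx α) s y)) =ᶠ[𝓝 x] fun _ => 0 := by
            filter_upwards [notMem_tsupport_iff_eventuallyEq.mp hxα] with y hy
            rw [hy, Pi.zero_apply, Complex.ofReal_zero, zero_mul]
          exact contMDiffAt_const.congr_of_eventuallyEq h1
      have hB : ∀ p ∈ S.P, ContMDiffAt 𝓘(ℝ, C2) 𝓘(ℝ, ℂ) ∞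
          (fun y => (S.Θ p y : ℂ) * v (S.ptrans p ε s y)) x := by
        intro p hp
        obtain ⟨t1, _, t3, _, _⟩ := tsupport_Θ S p hp
        by_cases hxp : x ∈ tsupport (S.Θ p)
        · have h1 := (hsm ε hε hε1 p hp s hs v ⟨hv1, hv2, hv3⟩ hvc).1
          have h2 : IsOpen {x | x ∈ S.bidisc p ∧ ‖f x‖ < 2 * ε} :=
            (isOpen_bidisc S p).inter (isOpen_lt hfc.norm continuous_const)
          exact transDef_mul t3.contMDiffAt (h1.contMDiffAt (h2.mem_nhds ⟨t1 hxp, hx⟩))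
        · have h1 : (fun y => (S.Θ p y : ℂ) * v (S.ptrans p ε s y)) =ᶠ[𝓝 x] fun _ => 0 := by
            filter_upwards [notMem_tsupport_iff_eventuallyEq.mp hxp] with y hy
            rw [hy, Pi.zero_apply, Complex.ofReal_zero, zero_mul]
          exact contMDiffAt_const.congr_of_eventuallyEq h1
      have hAs : ContMDiffAt 𝓘(ℝ, C2) 𝓘(ℝ, ℂ) ∞
          (fun y => ∑ α, (S.ψ α y : ℂ) * v (btrans (S.bx α) s y)) x :=
        contMDiffAt_finset_sum (fun α _ => hA α)
      have hBs : ContMDiffAt 𝓘(ℝ, C2) 𝓘(ℝ, ℂ) ∞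
          (fun y => ∑ p ∈ S.P, (S.Θ p y : ℂ) * v (S.ptrans p ε s y)) x :=
        contMDiffAt_finset_sum (fun p hp => hB p hp)
      exact transDef_mul hζf.contMDiffAt (hAs.add hBs)
    · have h1 : S.TT ε s ζ v =ᶠ[𝓝 x] fun _ => 0 := by
        have h2 : IsOpen {y | 3 / 2 * ε < ‖f y‖} := isOpen_lt continuous_const hfc.norm
        filter_upwards [h2.mem_nhds (show 3 / 2 * ε < ‖f x‖ by linarith)] with y hy
        exact hzero y (le_of_lt hy)
      exact contMDiffAt_const.congr_of_eventuallyEq h1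
  · refine HasCompactSupport.intro S.proper ?_
    intro x hx
    apply hzero
    by_contra h
    apply hx
    simp only [mem_preimage, mem_closedBall_zero_iff]
    linarith
  · rw [Set.disjoint_left]
    intro p hp hpc
    rw [← S.hP] at hpc
    have hcon : S.TT ε s ζ v =ᶠ[𝓝 p] 0 := by
      by_cases hfp : ‖f p‖ < 2 * ε
      · have hloc := S.loc p hpc
        have h1 : ∀ α, ∀ᶠ y in 𝓝 p, S.ψ α y = 0 := by
          intro α
          have h2 : p ∉ tsupport (S.ψ α) := by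
            intro h
            exact Set.disjoint_left.mp (S.box α).disjoint_crit (S.ψ_supp α h) ((S.hP p).mp hpc)
          exact notMem_tsupport_iff_eventuallyEq.mp h2
        have hpb : p ∈ S.bidisc p := by
          refine ⟨hloc.mem, ?_, ?_⟩
          · rw [hloc.map_p]; simpa using S.a_pos
          · rw [hloc.map_p]; simpa using hloc.b_pos
        have h3 : ∀ q ∈ S.P, q ≠ p → ∀ᶠ y in 𝓝 p, S.Θ q y = 0 := by
          intro q hq hqp
          obtain ⟨t1, _, _, _, t5⟩ := tsupport_Θ S q hq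
          have h2 : p ∉ tsupport (S.Θ q) := by
            intro h
            exact Set.disjoint_left.mp (t5 p hpc hqp) (t1 h) hpb
          exact notMem_tsupport_iff_eventuallyEq.mp h2
        have h4 : ∀ᶠ y in 𝓝 p, v (S.ptrans p ε s y) = 0 := by
          have h5 := (hsm ε hε hε1 p hpc s hs v ⟨hv1, hv2, hv3⟩ hvc).2
          have h6 : ContinuousAt (fun y => ‖S.c1 p y‖) p := by
            have h7 : ContinuousAt (S.e p) p := (S.e p).continuousAt hloc.mem
            exact (continuous_fst.continuousAt.comp h7).norm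
          have h8 : ‖S.c1 p p‖ < ε ^ S.τ := by
            have : S.c1 p p = 0 := by
              show (S.e p p).1 = 0
              rw [hloc.map_p]
            rw [this, norm_zero]
            positivity
          filter_upwards [(isOpen_bidisc S p).mem_nhds hpb,
            (isOpen_lt hfc.norm continuous_const).mem_nhds hfp,
            h6.eventually (gt_mem_nhds h8)] with y hy1 hy2 hy3
          exact h5 y hy1 hy2 hy3.le
        have h9 : ∀ᶠ y in 𝓝 p, ∀ α ∈ (Finset.univ : Finset S.ι), S.ψ α y = 0 :=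
          (Filter.eventually_all_finset _).mpr (fun α _ => h1 α)
        have h10 : ∀ᶠ y in 𝓝 p, ∀ q ∈ S.P, q ≠ p → S.Θ q y = 0 := by
          refine (Filter.eventually_all_finset _).mpr (fun q hq => ?_)
          by_cases hqp : q = p
          · exact Filter.Eventually.of_forall (fun y h => absurd hqp h)
          · filter_upwards [h3 q hq hqp] with y hy _
            exact hy
        filter_upwards [h9, h10, h4] with y hy1 hy2 hy3
        simp only [Setup.TT, Pi.zero_apply]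
        rw [Finset.sum_eq_zero, Finset.sum_eq_zero, add_zero, mul_zero]
        · intro q hq
          by_cases hqp : q = p
          · rw [hqp, hy3, mul_zero]
          · rw [hy2 q hq hqp, Complex.ofReal_zero, zero_mul]
        · intro α hα
          rw [hy1 α hα, Complex.ofReal_zero, zero_mul]
      · have h2 : IsOpen {y | 3 / 2 * ε < ‖f y‖} := isOpen_lt continuous_const hfc.norm
        filter_upwards [h2.mem_nhds (show 3 / 2 * ε < ‖f p‖ by linarith)] with y hy
        exact hzero y (le_of_lt hy)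
    exact notMem_tsupport_iff_eventuallyEq.mpr hcon hp

end DD
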