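import Pool.Agent.Work.MP_dd1e4a_gt.TransLocal
import Pool.Agent.Work.MP_dd1e4a_gt.TransAux
import Pool.Agent.Work.MP_dd1e4a_gt.Overlap
import Pool.Agent.Work.MP_dd1e4a_gt.BoxEnergy
import Pool.Agent.Work.MP_dd1e4a_gt.PEnergy
import Pool.Agent.Work.MP_dd1e4a_gt.AreaD

/-! # TransEn: energy of the transplanted function

Integrate `trans_local` over `μ'` (almost every point lies on the fibre `s'`, off `Crit f`).
First sum by `box_energy` and `p_energy`: at most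
`∫ (∑ ψ_α + ∑ Θ_p + C ε) gradSq v dμ = (1 + C ε) ∫ gradSq v dμ` (`sum_one` on the fibre `s`);
second sum by `overlap` with `K = tsupport (ψ α) ∩ tsupport (ψ β)`:
`(C/ε) C (2ε)² ∫ gradSq v dμ ≤ C ε ∫ gradSq v`.
Lower integrals and integrals: all functions are nonnegative and integrable
(`integrable_test`, `TT_mem`; `ofReal_integral_eq_lintegral_ofReal`). -/

open scoped Manifold ContDiff Topology
open MeasureTheory Set

namespace DD

/-- the bookkeeping with lower integrals. -/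
theorem transEn_sum {X : Type} [MeasurableSpace X] {μ μ' : Measure X} {ι : Type} [Fintype ι] {P : Finset X}
    {T : X → ℝ} {A : ι → X → ENNReal} {B : X → X → ENNReal} {I : ι → ι → X → ENNReal}
    {a b : ENNReal} (hA : ∀ i, AEMeasurable (A i) μ') (hB : ∀ p ∈ P, AEMeasurable (B p) μ')
    (hI : ∀ i j, AEMeasurable (I i j) μ')
    (hT : ∀ᵐ x ∂μ', ENNReal.ofReal (T x) ≤
      a * ((∑ i, A i x) + ∑ p ∈ P, B p x) + b * ∑ i, ∑ j, I i j x)
    {A' : ι → X → ENNReal} {B' : X → X → ENNReal} {G : X → ENNReal} {c : ι → ι → ENNReal}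
    {d : ENNReal}
    (hA' : ∀ i, ∫⁻ x, A i x ∂μ' ≤ ∫⁻ x, A' i x ∂μ)
    (hB' : ∀ p ∈ P, ∫⁻ x, B p x ∂μ' ≤ ∫⁻ x, B' p x ∂μ)
    (hI' : ∀ i j, ∫⁻ x, I i j x ∂μ' ≤ c i j * ∫⁻ x, G x ∂μ)
    (hAm : ∀ i, AEMeasurable (A' i) μ) (hBm : ∀ p ∈ P, AEMeasurable (B' p) μ)
    (hG : AEMeasurable G μ)
    (hs : ∀ᵐ x ∂μ, (∑ i, A' i x) + ∑ p ∈ P, B' p x ≤ d * G x) :
    ∫⁻ x, ENNReal.ofReal (T x) ∂μ' ≤ (a * d + b * ∑ i, ∑ j, c i j) * ∫⁻ x, G x ∂μ := by
  have hAs : AEMeasurable (fun x => ∑ i, A i x) μ' := by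
    have := Finset.aemeasurable_fun_sum (Finset.univ : Finset ι) (fun i _ => hA i)
    exact this
  have hBs : AEMeasurable (fun x => ∑ p ∈ P, B p x) μ' :=
    Finset.aemeasurable_fun_sum P hB
  have hIs : AEMeasurable (fun x => ∑ i, ∑ j, I i j x) μ' :=
    Finset.aemeasurable_fun_sum _
      (fun i _ => Finset.aemeasurable_fun_sum _ (fun j _ => hI i j))
  have hAms : AEMeasurable (fun x => ∑ i, A' i x) μ :=
    Finset.aemeasurable_fun_sum _ (fun i _ => hAm i)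
  calc ∫⁻ x, ENNReal.ofReal (T x) ∂μ'
      ≤ ∫⁻ x, (a * ((∑ i, A i x) + ∑ p ∈ P, B p x) + b * ∑ i, ∑ j, I i j x) ∂μ' :=
        lintegral_mono_ae hT
    _ = a * ((∑ i, ∫⁻ x, A i x ∂μ') + ∑ p ∈ P, ∫⁻ x, B p x ∂μ') +
          b * ∑ i, ∑ j, ∫⁻ x, I i j x ∂μ' := by
        have hABs : AEMeasurable (fun x => (∑ i, A i x) + ∑ p ∈ P, B p x) μ' := hAs.add hBs
        have hABc : AEMeasurable (fun x => a * ((∑ i, A i x) + ∑ p ∈ P, B p x)) μ' :=
          hABs.const_mul a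
        rw [lintegral_add_left' hABc, lintegral_const_mul'' a hABs, lintegral_const_mul'' b hIs]
        congr 2
        · rw [lintegral_add_left' hAs, lintegral_finsetSum' _ (fun i _ => hA i),
            lintegral_finsetSum' _ hB]
        · rw [lintegral_finsetSum' _
            (fun i _ => Finset.aemeasurable_fun_sum _ (fun j _ => hI i j))]
          refine Finset.sum_congr rfl (fun i _ => ?_)
          rw [lintegral_finsetSum' _ (fun j _ => hI i j)]
    _ ≤ a * ((∑ i, ∫⁻ x, A' i x ∂μ) + ∑ p ∈ P, ∫⁻ x, B' p x ∂μ) +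
          b * ∑ i, ∑ j, c i j * ∫⁻ x, G x ∂μ := by
        refine add_le_add (mul_le_mul_right (add_le_add ?_ ?_) a) (mul_le_mul_right ?_ b)
        · exact Finset.sum_le_sum (fun i _ => hA' i)
        · exact Finset.sum_le_sum hB'
        · exact Finset.sum_le_sum (fun i _ => Finset.sum_le_sum (fun j _ => hI' i j))
    _ = a * (∫⁻ x, ((∑ i, A' i x) + ∑ p ∈ P, B' p x) ∂μ) +
          b * ((∑ i, ∑ j, c i j) * ∫⁻ x, G x ∂μ) := by
        congr 2
        · rw [lintegral_add_left' hAms, lintegral_finsetSum' _ (fun i _ => hAm i),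
            lintegral_finsetSum' _ hBm]
        · rw [Finset.sum_mul]
          refine Finset.sum_congr rfl (fun i _ => ?_)
          rw [Finset.sum_mul]
    _ ≤ a * (d * ∫⁻ x, G x ∂μ) + b * ((∑ i, ∑ j, c i j) * ∫⁻ x, G x ∂μ) := by
        gcongr
        rw [← lintegral_const_mul'' d hG]
        exact lintegral_mono_ae hs
    _ = _ := by ring

theorem transEn_arith {ε C₁ C₂ C₃ d : ℝ} (hε : 0 < ε) (hε1 : ε ≤ 1) (hC₁ : 0 < C₁)
    (hC₂ : 0 ≤ C₂) (hC₃ : 0 ≤ C₃) (hd0 : 0 ≤ d) (hd : d ≤ 2 * ε) :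
    ENNReal.ofReal (1 + ε) * ENNReal.ofReal (1 + C₂ * d) +
      ENNReal.ofReal (C₁ / ε) * ENNReal.ofReal (C₃ * d ^ 2) ≤
      ENNReal.ofReal (1 + (1 + 4 * C₂ + 4 * C₁ * C₃) * ε) := by
  rw [← ENNReal.ofReal_mul (by positivity), ← ENNReal.ofReal_mul (by positivity),
    ← ENNReal.ofReal_add (by positivity) (by positivity)]
  apply ENNReal.ofReal_le_ofReal
  have h1 : C₂ * d ≤ C₂ * (2 * ε) := mul_le_mul_of_nonneg_left hd hC₂
  have h2 : d ^ 2 ≤ (2 * ε) ^ 2 := by gcongr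
  have h3 : C₁ / ε * (C₃ * d ^ 2) ≤ C₁ / ε * (C₃ * (2 * ε) ^ 2) := by gcongr
  have h4 : C₁ / ε * (C₃ * (2 * ε) ^ 2) = 4 * C₁ * C₃ * ε := by
    field_simp
    ring
  have h5 : (1 + ε) * (1 + C₂ * d) ≤ (1 + ε) * (1 + C₂ * (2 * ε)) := by gcongr
  have h6 : ε * ε ≤ ε * 1 := mul_le_mul_of_nonneg_left hε1 hε.le
  have h7 : C₂ * (ε * ε) ≤ C₂ * (ε * 1) := mul_le_mul_of_nonneg_left h6 hC₂
  nlinarith

variable {X : Type} [TopologicalSpace X] [T2Space X] [SecondCountableTopology X]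
  [ChartedSpace C2 X] [IsManifold 𝓘(ℂ, C2) ω X] [MeasurableSpace X] [BorelSpace X] {f : X → ℂ}

theorem trans_energy (S : Setup f) (g : HermMetric X) (hf : ContMDiff 𝓘(ℂ, C2) 𝓘(ℂ, ℂ) ω f) :
    ∃ C > 0, ∃ ε₀ > 0, ∀ ε : ℝ, 0 < ε → ε < ε₀ → ∀ ζ : ℂ → ℝ, ContDiff ℝ ∞ ζ →
      (∀ t, ‖t‖ ≤ 5 / 4 * ε → ζ t = 1) → (∀ t, 3 / 2 * ε ≤ ‖t‖ → ζ t = 0) →
      ∀ s s' : ℂ, ‖s‖ ≤ ε → ‖s'‖ ≤ ε → ∀ μ μ' : Measure X,
      IsFibreArea g f s μ → IsFibreArea g f s' μ' → ∀ v ∈ Test f, S.CoreZero ε v →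
      ∫ x, gradSq g f (S.TT ε s ζ v) x ∂μ' ≤ (1 + C * ε) * ∫ x, gradSq g f v x ∂μ := by
  classical
  obtain ⟨C₁, hC₁, ε₁, hε₁, hloc⟩ := trans_local S g hf
  obtain ⟨ε₂, hε₂, hpen⟩ := p_energy S g hf
  obtain ⟨ε₃, hε₃, hTT⟩ := TT_mem S hf
  obtain ⟨ε₄, hε₄, hps⟩ := p_smooth S hf
  have hbe := fun α => box_energy hf g (S.box α) (S.ψ_smooth α) (S.ψ_nonneg α) (S.ψ_le α)
    (S.ψ_compact α) (S.ψ_supp α)
  choose Cb hCb ρb hρb hbe using hbe
  have hKc : ∀ α β, IsCompact (tsupport (S.ψ α) ∩ tsupport (S.ψ β)) := fun α β =>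
    (S.ψ_compact α).isCompact.inter_right (isClosed_tsupport _)
  have hov := fun α β => overlap hf g (S.box α) (S.box β) (hKc α β)
    (fun x hx => S.ψ_supp α hx.1) (fun x hx => S.ψ_supp β hx.2)
  choose Co hCo ρo hρo hov using hov
  have hbc := fun α => box_compact hf (S.box α) (S.ψ_compact α).isCompact (S.ψ_supp α)
  choose ρc hρc K' hK' hK't hbc using hbc
  -- a common radius
  obtain ⟨ε₅, hε₅, hε₅b⟩ : ∃ r > 0, ∀ α, r ≤ ρb α ∧ r ≤ ρc α ∧ ∀ β, r ≤ ρo α β := by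
    have h1 : ∀ F : S.ι → ℝ, (∀ α, 0 < F α) → ∃ r > 0, ∀ α, r ≤ F α := by
      intro F hF
      rcases isEmpty_or_nonempty S.ι with h | h
      · exact ⟨1, one_pos, fun α => (h.false α).elim⟩
      · obtain ⟨α, hα⟩ := Finite.exists_min F
        exact ⟨F α, hF α, hα⟩
    have h2 : ∀ α, ∃ r > 0, ∀ β, r ≤ ρo α β := fun α => h1 _ (hρo α)
    choose r2 hr2 hr2' using h2
    obtain ⟨r3, hr3, hr3'⟩ := h1 (fun α => min (ρb α) (min (ρc α) (r2 α)))
      (fun α => lt_min (hρb α) (lt_min (hρc α) (hr2 α)))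
    refine ⟨r3, hr3, fun α => ?_⟩
    have h4 := hr3' α
    simp only [le_min_iff] at h4
    exact ⟨h4.1, h4.2.1, fun β => h4.2.2.trans (hr2' α β)⟩
  set C₂ : ℝ := ∑ α, Cb α with hC₂
  set C₃ : ℝ := ∑ α, ∑ β, Co α β with hC₃
  have hC₂0 : 0 ≤ C₂ := Finset.sum_nonneg (fun α _ => (hCb α).le)
  have hC₃0 : 0 ≤ C₃ := Finset.sum_nonneg (fun α _ => Finset.sum_nonneg (fun β _ => (hCo α β).le))
  refine ⟨1 + 4 * C₂ + 4 * C₁ * C₃, by positivity,
    min (min ε₁ ε₂) (min (min ε₃ ε₄) (min ε₅ (min 1 S.ρ))), by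
      refine lt_min (lt_min hε₁ hε₂) (lt_min (lt_min hε₃ hε₄) (lt_min hε₅ (lt_min one_pos S.ρ_pos))),
    ?_⟩
  intro ε hε hεlt ζ hζ hζ1 hζ0 s s' hs hs' μ μ' hμ hμ' v hv hcz
  simp only [lt_min_iff] at hεlt
  obtain ⟨⟨he1, he2⟩, ⟨he3, he4⟩, he5, he6, he7⟩ := hεlt
  have hTv : S.TT ε s ζ v ∈ Test f := hTT ε hε he3 s hs ζ hζ hζ0 v hv hcz
  obtain ⟨hGi, -, -⟩ := hμ.integrable_test hf hv
  obtain ⟨hTi, -, -⟩ := hμ'.integrable_test hf hTv
  have hG0 : ∀ x, 0 ≤ gradSq g f v x := fun x => gradSq_nonneg g f v x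
  have hT0 : ∀ x, 0 ≤ gradSq g f (S.TT ε s ζ v) x := fun x => gradSq_nonneg g f _ x
  -- the estimate with lower integrals
  have key : ∫⁻ x, ENNReal.ofReal (gradSq g f (S.TT ε s ζ v) x) ∂μ' ≤
      ENNReal.ofReal (1 + (1 + 4 * C₂ + 4 * C₁ * C₃) * ε) *
        ∫⁻ x, ENNReal.ofReal (gradSq g f v x) ∂μ := by
    have hd0 : 0 ≤ ‖s - s'‖ := norm_nonneg _
    have hd : ‖s - s'‖ ≤ 2 * ε := by
      calc ‖s - s'‖ ≤ ‖s‖ + ‖s'‖ := norm_sub_le _ _
        _ ≤ ε + ε := add_le_add hs hs'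
        _ = 2 * ε := by ring
    have hdom : ∀ α, ∀ x ∈ tsupport (S.ψ α), f x = s' → x ∈ transDom (S.bx α) s := by
      intro α x hx hfx
      refine (hbc α x hx ?_ s ?_).2
      · rw [hfx]
        exact hs'.trans (he5.le.trans (hε₅b α).2.1)
      · exact hs.trans (he5.le.trans (hε₅b α).2.1)
    have hgm : AEMeasurable (fun x => ENNReal.ofReal (gradSq g f v x)) μ :=
      hGi.aestronglyMeasurable.aemeasurable.ennreal_ofReal
    have hmain := transEn_sum (μ := μ) (μ' := μ') (P := S.P)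
      (T := gradSq g f (S.TT ε s ζ v))
      (A := fun α x => ENNReal.ofReal (S.ψ α x) *
        ENNReal.ofReal (gradSq g f (fun y => v (btrans (S.bx α) s y)) x))
      (B := fun p x => ENNReal.ofReal (S.Θ p x) *
        ENNReal.ofReal (gradSq g f (fun y => v (S.ptrans p ε s y)) x))
      (I := fun α β => indicator (tsupport (S.ψ α) ∩ tsupport (S.ψ β)) (fun y =>
        ENNReal.ofReal (‖v (btrans (S.bx α) s y) - v (btrans (S.bx β) s y)‖ ^ 2)))
      (a := ENNReal.ofReal (1 + ε)) (b := ENNReal.ofReal (C₁ / ε))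
      (A' := fun α x => ENNReal.ofReal (S.ψ α x + Cb α * ‖s - s'‖) *
        ENNReal.ofReal (gradSq g f v x))
      (B' := fun p x => ENNReal.ofReal (S.Θ p x) * ENNReal.ofReal (gradSq g f v x))
      (G := fun x => ENNReal.ofReal (gradSq g f v x))
      (c := fun α β => ENNReal.ofReal (Co α β * ‖s - s'‖ ^ 2))
      (d := ENNReal.ofReal (1 + C₂ * ‖s - s'‖))
      (fun α => transAux_energy_box g hf (S.box α) (S.ψ_smooth α).continuous (hdom α) hμ' hv)
      (fun p hp => (transAux_energy_p g hf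
        (O := {x | x ∈ S.bidisc p ∧ ‖f x‖ < 2 * ε})
        (((isOpen_bidisc S p).inter (isOpen_lt hf.continuous.norm continuous_const)))
        (tsupport_Θ S p hp).2.2.1.continuous
        (fun x hfx hx => by
          by_contra hne
          refine hx ⟨(tsupport_Θ S p hp).1 (subset_tsupport _ hne), ?_⟩
          rw [hfx]
          linarith)
        hμ' (hps ε hε he4 p hp s hs v hv hcz).1).1)
      (fun α β => transAux_mixed g (S.box α) (S.box β) (hKc α β).isClosed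
        (fun x hx hfx => ⟨hdom α x hx.1 hfx, hdom β x hx.2 hfx⟩) hμ' hv)
      ?_
      (fun α => hbe α s s' (hs.trans (he5.le.trans (hε₅b α).1))
        (hs'.trans (he5.le.trans (hε₅b α).1)) μ μ' hμ hμ' v hv)
      (fun p hp => hpen ε hε he2 p hp s s' hs hs' μ μ' hμ hμ' v hv hcz)
      (fun α β => by
        rw [lintegral_indicator (hKc α β).isClosed.measurableSet]
        exact hov α β s s' (hs.trans (he5.le.trans ((hε₅b α).2.2 β)))
          (hs'.trans (he5.le.trans ((hε₅b α).2.2 β))) μ μ' hμ hμ' v hv)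
      (fun α => by
        refine AEMeasurable.mul ?_ hgm
        exact (((S.ψ_smooth α).continuous.add continuous_const).measurable.ennreal_ofReal).aemeasurable)
      (fun p hp => by
        refine AEMeasurable.mul ?_ hgm
        exact ((tsupport_Θ S p hp).2.2.1.continuous.measurable.ennreal_ofReal).aemeasurable)
      hgm ?_
    · refine hmain.trans ?_
      gcongr
      have h1 : ∑ α, ∑ β, ENNReal.ofReal (Co α β * ‖s - s'‖ ^ 2) =
          ENNReal.ofReal (C₃ * ‖s - s'‖ ^ 2) := by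
        rw [hC₃, Finset.sum_mul, ENNReal.ofReal_sum_of_nonneg]
        · refine Finset.sum_congr rfl (fun α _ => ?_)
          rw [Finset.sum_mul, ENNReal.ofReal_sum_of_nonneg]
          exact fun β _ => mul_nonneg (hCo α β).le (by positivity)
        · exact fun α _ => mul_nonneg (Finset.sum_nonneg (fun β _ => (hCo α β).le)) (by positivity)
      rw [h1]
      exact transEn_arith hε he6.le hC₁ hC₂0 hC₃0 hd0 hd
    · filter_upwards [hμ'.ae_fibre] with x hx
      have h1 := (hloc ε hε he1 ζ hζ1 s hs v hv hcz x (by rw [hx.1]; exact hs') hx.2).1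
      refine (ENNReal.ofReal_le_ofReal h1).trans (le_of_eq ?_)
      have hA0 : ∀ α, 0 ≤ S.ψ α x * gradSq g f (fun y => v (btrans (S.bx α) s y)) x :=
        fun α => mul_nonneg (S.ψ_nonneg α x) (gradSq_nonneg g f _ x)
      have hB0 : ∀ p ∈ S.P, 0 ≤ S.Θ p x * gradSq g f (fun y => v (S.ptrans p ε s y)) x :=
        fun p hp => mul_nonneg ((tsupport_Θ S p hp).2.2.2.1 x).1 (gradSq_nonneg g f _ x)
      have hI0 : ∀ α β, 0 ≤ indicator (tsupport (S.ψ α) ∩ tsupport (S.ψ β))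
            (fun y => ‖v (btrans (S.bx α) s y) - v (btrans (S.bx β) s y)‖ ^ 2) x :=
        fun α β => indicator_nonneg (fun y _ => by positivity) x
      have hAs : 0 ≤ ∑ α, S.ψ α x * gradSq g f (fun y => v (btrans (S.bx α) s y)) x :=
        Finset.sum_nonneg (fun α _ => hA0 α)
      have hBs : 0 ≤ ∑ p ∈ S.P, S.Θ p x * gradSq g f (fun y => v (S.ptrans p ε s y)) x :=
        Finset.sum_nonneg hB0
      have hIs : 0 ≤ ∑ α, ∑ β, indicator (tsupport (S.ψ α) ∩ tsupport (S.ψ β))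
            (fun y => ‖v (btrans (S.bx α) s y) - v (btrans (S.bx β) s y)‖ ^ 2) x :=
        Finset.sum_nonneg (fun α _ => Finset.sum_nonneg (fun β _ => hI0 α β))
      rw [ENNReal.ofReal_add (mul_nonneg (by positivity) (add_nonneg hAs hBs))
          (mul_nonneg (by positivity) hIs),
        ENNReal.ofReal_mul (by positivity), ENNReal.ofReal_mul (by positivity),
        ENNReal.ofReal_add hAs hBs, ENNReal.ofReal_sum_of_nonneg (fun α _ => hA0 α),
        ENNReal.ofReal_sum_of_nonneg hB0,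
        ENNReal.ofReal_sum_of_nonneg (fun α _ => Finset.sum_nonneg (fun β _ => hI0 α β))]
      congr 2
      · congr 1
        · refine Finset.sum_congr rfl (fun α _ => ?_)
          rw [ENNReal.ofReal_mul (S.ψ_nonneg α x)]
        · refine Finset.sum_congr rfl (fun p hp => ?_)
          rw [ENNReal.ofReal_mul ((tsupport_Θ S p hp).2.2.2.1 x).1]
      · refine Finset.sum_congr rfl (fun α _ => ?_)
        rw [ENNReal.ofReal_sum_of_nonneg (fun β _ => hI0 α β)]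
        refine Finset.sum_congr rfl (fun β _ => ?_)
        by_cases h : x ∈ tsupport (S.ψ α) ∩ tsupport (S.ψ β)
        · rw [indicator_of_mem h, indicator_of_mem h]
        · rw [indicator_of_notMem h, indicator_of_notMem h, ENNReal.ofReal_zero]
    · filter_upwards [hμ.ae_fibre] with x hx
      rw [← Finset.sum_mul, ← Finset.sum_mul, ← add_mul]
      gcongr
      rw [← ENNReal.ofReal_sum_of_nonneg (fun α _ => add_nonneg (S.ψ_nonneg α x)
          (mul_nonneg (hCb α).le hd0)),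
        ← ENNReal.ofReal_sum_of_nonneg (fun p hp => ((tsupport_Θ S p hp).2.2.2.1 x).1),
        ← ENNReal.ofReal_add (Finset.sum_nonneg (fun α _ => add_nonneg (S.ψ_nonneg α x)
          (mul_nonneg (hCb α).le hd0)))
          (Finset.sum_nonneg (fun p hp => ((tsupport_Θ S p hp).2.2.2.1 x).1))]
      apply ENNReal.ofReal_le_ofReal
      have h1 : (∑ α, S.ψ α x) + ∑ p ∈ S.P, S.Θ p x = 1 :=
        S.sum_one x (by rw [hx.1]; exact hs.trans_lt he7)
      rw [Finset.sum_add_distrib, ← Finset.sum_mul]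
      linarith
  rw [integral_eq_lintegral_of_nonneg_ae (Filter.Eventually.of_forall hT0)
      hTi.aestronglyMeasurable,
    integral_eq_lintegral_of_nonneg_ae (Filter.Eventually.of_forall hG0)
      hGi.aestronglyMeasurable]
  have hfin : ∫⁻ x, ENNReal.ofReal (gradSq g f v x) ∂μ ≠ ⊤ := by
    have h1 := ofReal_integral_eq_lintegral_ofReal hGi (Filter.Eventually.of_forall hG0)
    rw [← h1]
    exact ENNReal.ofReal_ne_top
  have h2 := ENNReal.toReal_mono (ENNReal.mul_ne_top ENNReal.ofReal_ne_top hfin) key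
  rw [ENNReal.toReal_mul, ENNReal.toReal_ofReal (by positivity)] at h2
  exact h2

end DD
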