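import Pool.Agent.Work.MP_dd1e4a_gt.TransDef
import Pool.Agent.Work.MP_dd1e4a_gt.Compat
import Pool.Agent.Work.MP_dd1e4a_gt.Pointwise
import Pool.Agent.Work.MP_dd1e4a_gt.AreaC

/-! # TransLocal: the transplanted function near a point of a fibre

Index set `J = S.ι ⊕ X`, finite set `T = univ.disjSum S.P`, weights `w = Sum.elim ψ Θ`, functions
`V = Sum.elim (v ∘ btrans) (v ∘ ptrans)`. Near `x` with `‖f x‖ ≤ ε` we have
`ζ (f ·) = 1` and `∑ w = 1` (`S.sum_one`), so `TT v = ∑ w V` near `x` (`gradSq_congr`); the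
regularity hypotheses of `pw_energy` are verified as in `TT_mem` (near points of `tsupport (ψ α)`
the map `btrans` is defined and smooth, `box_compact`; `p_smooth`).
For `i ≠ j` the product `w i x * gradSq (w j) x * ‖V j x - V i x‖²` vanishes
(`gradSq (w j) x = 0` off `tsupport (w j)`) unless `i = α`, `j = β` are both boxes: for a box and a
critical point use `compat_trans`, for two critical points `tsupport_Θ` (disjoint bidiscs).
`gradSq (ψ β) ≤ C` everywhere off `Crit f` (continuous with compact support off `Crit f`,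
`continuousOn_gradSq`; the file `Area.lean` needs no measurable structure for this statement).
`pw_energy` with `δ = ε ≤ 1`: `(1 + 1/ε) card T sup ≤ C / ε`. Mass: `pw_mass`, weights `≤ 1`. -/

open scoped Manifold ContDiff Topology
open MeasureTheory Set

namespace DD

variable {X : Type} [TopologicalSpace X] [T2Space X] [SecondCountableTopology X]
  [ChartedSpace C2 X] [IsManifold 𝓘(ℂ, C2) ω X] {f : X → ℂ}

/-- the weights. -/
private noncomputable def transLocal_w (S : Setup f) (j : S.ι ⊕ X) (y : X) : ℝ :=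
  Sum.elim (fun α => S.ψ α y) (fun p => S.Θ p y) j

private noncomputable def transLocal_V (S : Setup f) (ε : ℝ) (s : ℂ) (v : X → ℂ) (j : S.ι ⊕ X)
    (y : X) : ℂ :=
  Sum.elim (fun α => v (btrans (S.bx α) s y)) (fun p => v (S.ptrans p ε s y)) j

private theorem transLocal_gradSq_zero (g : HermMetric X) {a : X → ℝ} {x : X}
    (h : a =ᶠ[𝓝 x] fun _ => 0) : gradSq g f a x = 0 := by
  rw [gradSq_congr g h, gradSq]
  have h1 : ∀ ν : TangentSpace 𝓘(ℂ, C2) x, dR (fun _ : X => (0 : ℝ)) x ν = 0 := by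
    intro ν
    unfold dR
    rw [mfderiv_const]
    rfl
  rw [h1, h1]
  simp

/-- local form of the transplanted function, and the size of the mixed terms. -/
theorem trans_local (S : Setup f) (g : HermMetric X) (hf : ContMDiff 𝓘(ℂ, C2) 𝓘(ℂ, ℂ) ω f) :
    ∃ C > 0, ∃ ε₀ > 0, ∀ ε : ℝ, 0 < ε → ε < ε₀ → ∀ ζ : ℂ → ℝ,
      (∀ t, ‖t‖ ≤ 5 / 4 * ε → ζ t = 1) → ∀ s : ℂ, ‖s‖ ≤ ε → ∀ v ∈ Test f, S.CoreZero ε v →
      ∀ x, ‖f x‖ ≤ ε → x ∉ Crit f →
        gradSq g f (S.TT ε s ζ v) x ≤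
          (1 + ε) * ((∑ α, S.ψ α x * gradSq g f (fun y => v (btrans (S.bx α) s y)) x) +
            ∑ p ∈ S.P, S.Θ p x * gradSq g f (fun y => v (S.ptrans p ε s y)) x) +
          C / ε * ∑ α, ∑ β, indicator (tsupport (S.ψ α) ∩ tsupport (S.ψ β))
            (fun y => ‖v (btrans (S.bx α) s y) - v (btrans (S.bx β) s y)‖ ^ 2) x ∧
        ((∑ α, S.ψ α x * ‖v (btrans (S.bx α) s x)‖ ^ 2) +
            ∑ p ∈ S.P, S.Θ p x * ‖v (S.ptrans p ε s x)‖ ^ 2) -
          ∑ α, ∑ β, indicator (tsupport (S.ψ α) ∩ tsupport (S.ψ β))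
            (fun y => ‖v (btrans (S.bx α) s y) - v (btrans (S.bx β) s y)‖ ^ 2) x ≤
          ‖S.TT ε s ζ v x‖ ^ 2 := by
  classical
  obtain ⟨ε₁, hε₁, hsm⟩ := p_smooth S hf
  obtain ⟨ε₂, hε₂, hcp⟩ := compat_trans S hf
  have hbc : ∀ α, ∃ ρ > 0, ∀ x ∈ tsupport (S.ψ α), ‖f x‖ ≤ ρ → ∀ s : ℂ, ‖s‖ ≤ ρ →
      x ∈ transDom (S.bx α) s := by
    intro α
    obtain ⟨ρ, hρ, K', _, _, h⟩ := box_compact hf (S.box α)
      (K := tsupport (S.ψ α)) (S.ψ_compact α) (S.ψ_supp α)
    exact ⟨ρ, hρ, fun x hx h1 s hs => (h x hx h1 s hs).2⟩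
  choose ρ hρ htd using hbc
  obtain ⟨r, hr, hr2⟩ : ∃ r > 0, ∀ α, r ≤ ρ α := by
    by_cases hne : Nonempty S.ι
    · obtain ⟨α₀, hα₀⟩ := Finite.exists_min ρ
      exact ⟨ρ α₀, hρ α₀, hα₀⟩
    · exact ⟨1, one_pos, fun α => absurd ⟨α⟩ hne⟩
  -- the bound for the gradients of the partition functions
  have hgb : ∀ α, ∃ M : ℝ, ∀ x ∈ tsupport (S.ψ α), gradSq g f (S.ψ α) x ≤ M := by
    intro α
    have h1 : ContinuousOn (gradSq g f (S.ψ α)) (univ \ Crit f) :=
      continuousOn_gradSq g hf isOpen_univ (S.ψ_smooth α).contMDiffOn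
    have h2 : tsupport (S.ψ α) ⊆ univ \ Crit f := by
      intro x hx
      exact ⟨mem_univ _, Set.disjoint_left.mp (S.box α).disjoint_crit (S.ψ_supp α hx)⟩
    have h3 : IsCompact (tsupport (S.ψ α)) := S.ψ_compact α
    obtain ⟨M, hM⟩ := h3.exists_bound_of_continuousOn (h1.mono h2)
    exact ⟨M, fun x hx => (le_abs_self _).trans (hM x hx)⟩
  choose M₀ hM₀ using hgb
  obtain ⟨M, hM, hM2⟩ : ∃ M : ℝ, 0 < M ∧ ∀ α, ∀ x ∈ tsupport (S.ψ α), gradSq g f (S.ψ α) x ≤ M := by
    by_cases hne : Nonempty S.ι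
    · obtain ⟨α₀, hα₀⟩ := Finite.exists_max M₀
      refine ⟨max 1 (M₀ α₀), lt_of_lt_of_le one_pos (le_max_left _ _), fun α x hx => ?_⟩
      exact (hM₀ α x hx).trans ((hα₀ α).trans (le_max_right _ _))
    · exact ⟨1, one_pos, fun α => absurd ⟨α⟩ hne⟩
  set T : Finset (S.ι ⊕ X) := Finset.univ.disjSum S.P with hT
  refine ⟨2 * T.card * M + 1, by positivity,
    min (min ε₁ ε₂) (min (min r 1) S.ρ), lt_min (lt_min hε₁ hε₂)
      (lt_min (lt_min hr one_pos) S.ρ_pos), ?_⟩
  intro ε hε hεε ζ hζ s hs v hv hvc x hx hxc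
  have hε1 : ε < ε₁ := lt_of_lt_of_le hεε ((min_le_left _ _).trans (min_le_left _ _))
  have hε2 : ε < ε₂ := lt_of_lt_of_le hεε ((min_le_left _ _).trans (min_le_right _ _))
  have hεr : ε < r :=
    lt_of_lt_of_le hεε ((min_le_right _ _).trans ((min_le_left _ _).trans (min_le_left _ _)))
  have hεo : ε < 1 :=
    lt_of_lt_of_le hεε ((min_le_right _ _).trans ((min_le_left _ _).trans (min_le_right _ _)))
  have hερ : ε < S.ρ := lt_of_lt_of_le hεε ((min_le_right _ _).trans (min_le_right _ _))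
  have hfc : Continuous f := hf.continuous
  set w := transLocal_w S with hw
  set V := transLocal_V S ε s v with hV
  -- neighbourhood of x
  have hn1 : ∀ᶠ y in 𝓝 x, ‖f y‖ < 5 / 4 * ε :=
    (isOpen_lt hfc.norm continuous_const).mem_nhds (show ‖f x‖ < 5 / 4 * ε by linarith)
  have hn2 : ∀ᶠ y in 𝓝 x, ‖f y‖ < S.ρ :=
    (isOpen_lt hfc.norm continuous_const).mem_nhds (show ‖f x‖ < S.ρ by linarith)
  have hTT : S.TT ε s ζ v =ᶠ[𝓝 x] fun y => ∑ j ∈ T, (w j y : ℂ) * V j y := by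
    filter_upwards [hn1] with y hy
    simp only [Setup.TT]
    rw [hζ _ hy.le, Complex.ofReal_one, one_mul, hT, Finset.sum_disjSum]
    rfl
  have hsum : ∀ᶠ y in 𝓝 x, ∑ j ∈ T, w j y = 1 := by
    filter_upwards [hn2] with y hy
    rw [hT, Finset.sum_disjSum]
    exact S.sum_one y hy
  have hTl : ∀ α : S.ι, (Sum.inl α : S.ι ⊕ X) ∈ T := by
    intro α
    rw [hT, Finset.inl_mem_disjSum]
    exact Finset.mem_univ _
  have hw0 : ∀ j ∈ T, 0 ≤ w j x := by
    rintro (α | p) hj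
    · exact S.ψ_nonneg α x
    · rw [hT, Finset.inr_mem_disjSum] at hj
      exact ((tsupport_Θ S p hj).2.2.2.1 x).1
  have hreg : ∀ j ∈ T, (∀ᶠ y in 𝓝 x, w j y = 0) ∨
      (MDifferentiableAt 𝓘(ℝ, C2) 𝓘(ℝ, ℝ) (w j) x ∧
        MDifferentiableAt 𝓘(ℝ, C2) 𝓘(ℝ, ℂ) (V j) x) := by
    rintro (α | p) hj
    · by_cases hxα : x ∈ tsupport (S.ψ α)
      · right
        have h1 : x ∈ transDom (S.bx α) s :=
          htd α x hxα (by linarith [hr2 α]) s (by linarith [hr2 α])
        have h2 : ContMDiffAt 𝓘(ℝ, C2) 𝓘(ℝ, C2) ∞ (btrans (S.bx α) s) x :=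
          (hol_real ((S.box α).holo_btrans s)).contMDiffAt
            ((isOpen_transDom (S.bx α) s).mem_nhds h1)
        have h3 : ContMDiffAt 𝓘(ℝ, C2) 𝓘(ℝ, ℂ) ∞ (fun y => v (btrans (S.bx α) s y)) x :=
          (hv.1.contMDiffAt).comp x h2
        exact ⟨((S.ψ_smooth α).contMDiffAt).mdifferentiableAt (by simp),
          h3.mdifferentiableAt (by simp)⟩
      · left
        exact notMem_tsupport_iff_eventuallyEq.mp hxα
    · rw [hT, Finset.inr_mem_disjSum] at hj
      obtain ⟨t1, _, t3, _, _⟩ := tsupport_Θ S p hj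
      by_cases hxp : x ∈ tsupport (S.Θ p)
      · right
        have h1 := (hsm ε hε hε1 p hj s hs v hv hvc).1
        have h2 : IsOpen {x | x ∈ S.bidisc p ∧ ‖f x‖ < 2 * ε} :=
          (isOpen_bidisc S p).inter (isOpen_lt hfc.norm continuous_const)
        have h3 := h1.contMDiffAt (h2.mem_nhds ⟨t1 hxp, by linarith⟩)
        exact ⟨(t3.contMDiffAt).mdifferentiableAt (by simp), h3.mdifferentiableAt (by simp)⟩
      · left
        exact notMem_tsupport_iff_eventuallyEq.mp hxp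
  -- off the supports
  have hoff : ∀ j : S.ι ⊕ X, x ∉ tsupport (w j) → w j x = 0 ∧ gradSq g f (w j) x = 0 := by
    intro j hj
    have h1 : w j =ᶠ[𝓝 x] fun _ => 0 := notMem_tsupport_iff_eventuallyEq.mp hj
    exact ⟨h1.self_of_nhds, transLocal_gradSq_zero g h1⟩
  -- the functions agree except for two boxes
  have hagree : ∀ i ∈ T, ∀ j ∈ T, x ∈ tsupport (w i) → x ∈ tsupport (w j) →
      (∃ α β, i = Sum.inl α ∧ j = Sum.inl β) ∨ V i x = V j x := by
    rintro (α | p) hi (β | q) hj hxi hxj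
    · exact Or.inl ⟨α, β, rfl, rfl⟩
    · right
      rw [hT, Finset.inr_mem_disjSum] at hj
      have h1 := hcp ε hε hε2 α q hj s hs x ⟨hxi, hxj⟩ hx
      exact congrArg v h1
    · right
      rw [hT, Finset.inr_mem_disjSum] at hi
      have h1 := hcp ε hε hε2 β p hi s hs x ⟨hxj, hxi⟩ hx
      exact (congrArg v h1).symm
    · right
      rw [hT, Finset.inr_mem_disjSum] at hi hj
      by_cases hpq : p = q
      · rw [hpq]
      · exfalso
        have t1 := (tsupport_Θ S p hi).1 hxi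
        have t2 := (tsupport_Θ S q hj).1 hxj
        exact Set.disjoint_left.mp ((tsupport_Θ S p hi).2.2.2.2 q hj hpq) t1 t2
  set I : ℝ := ∑ α, ∑ β, indicator (tsupport (S.ψ α) ∩ tsupport (S.ψ β))
            (fun y => ‖v (btrans (S.bx α) s y) - v (btrans (S.bx β) s y)‖ ^ 2) x with hI
  have hI0 : 0 ≤ I := by
    refine Finset.sum_nonneg fun α _ => Finset.sum_nonneg fun β _ => ?_
    exact Set.indicator_nonneg (fun y _ => by positivity) x
  -- a general bound for a double sum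
  have hdouble : ∀ (t : S.ι ⊕ X → S.ι ⊕ X → ℝ) (A : ℝ), 0 ≤ A →
      (∀ i ∈ T, ∀ j ∈ T, (x ∉ tsupport (w i) ∨ x ∉ tsupport (w j)) → t i j = 0) →
      (∀ i ∈ T, ∀ j ∈ T, V i x = V j x → t i j = 0) →
      (∀ α β, x ∈ tsupport (S.ψ α) → x ∈ tsupport (S.ψ β) → t (Sum.inl α) (Sum.inl β) ≤
        A * ‖v (btrans (S.bx α) s x) - v (btrans (S.bx β) s x)‖ ^ 2) →
      ∑ i ∈ T, ∑ j ∈ T, t i j ≤ A * I := by
    intro t A hA h1 h2 h3
    have hz : ∀ i ∈ T, ∀ j ∈ T, (¬ ∃ α β, i = Sum.inl α ∧ j = Sum.inl β) → t i j = 0 := by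
      intro i hi j hj hn
      by_cases hxi : x ∈ tsupport (w i)
      · by_cases hxj : x ∈ tsupport (w j)
        · exact h2 i hi j hj ((hagree i hi j hj hxi hxj).resolve_left hn)
        · exact h1 i hi j hj (Or.inr hxj)
      · exact h1 i hi j hj (Or.inl hxi)
    have hll : ∑ i ∈ T, ∑ j ∈ T, t i j = ∑ α, ∑ β, t (Sum.inl α) (Sum.inl β) := by
      rw [hT, Finset.sum_disjSum]
      have e1 : ∑ p ∈ S.P, ∑ j ∈ Finset.univ.disjSum S.P, t (Sum.inr p) j = 0 := by
        refine Finset.sum_eq_zero fun p hp => Finset.sum_eq_zero fun j hj => ?_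
        refine hz _ ?_ _ hj ?_
        · rw [hT, Finset.inr_mem_disjSum]; exact hp
        · rintro ⟨α, β, h, _⟩
          exact absurd h (by simp)
      rw [e1, add_zero]
      refine Finset.sum_congr rfl fun α _ => ?_
      rw [Finset.sum_disjSum]
      have e2 : ∑ q ∈ S.P, t (Sum.inl α) (Sum.inr q) = 0 := by
        refine Finset.sum_eq_zero fun q hq => ?_
        refine hz _ (hTl α) _ ?_ ?_
        · rw [hT, Finset.inr_mem_disjSum]; exact hq
        · rintro ⟨α, β, _, h⟩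
          exact absurd h (by simp)
      rw [e2, add_zero]
    rw [hll, hI, Finset.mul_sum]
    refine Finset.sum_le_sum fun α _ => ?_
    rw [Finset.mul_sum]
    refine Finset.sum_le_sum fun β _ => ?_
    by_cases hxx : x ∈ tsupport (S.ψ α) ∩ tsupport (S.ψ β)
    · rw [Set.indicator_of_mem hxx]
      exact h3 α β hxx.1 hxx.2
    · rw [Set.indicator_of_notMem hxx, mul_zero]
      refine le_of_eq (h1 _ (hTl α) _ (hTl β) ?_)
      by_cases hxα : x ∈ tsupport (S.ψ α)
      · right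
        intro h
        exact hxx ⟨hxα, h⟩
      · left
        exact hxα
  constructor
  · rw [gradSq_congr g hTT]
    have h1 := pw_energy g T w V hxc hw0 hreg hsum hε
    have h2 : ∑ j ∈ T, w j x * gradSq g f (V j) x =
        (∑ α, S.ψ α x * gradSq g f (fun y => v (btrans (S.bx α) s y)) x) +
            ∑ p ∈ S.P, S.Θ p x * gradSq g f (fun y => v (S.ptrans p ε s y)) x := by
      rw [hT, Finset.sum_disjSum]
      rfl
    rw [h2] at h1
    have h3 : ∑ i ∈ T, ∑ j ∈ T, w i x * (gradSq g f (w j) x * ‖V j x - V i x‖ ^ 2) ≤ M * I := by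
      refine hdouble _ M hM.le ?_ ?_ ?_
      · rintro i _ j _ (h | h)
        · rw [(hoff i h).1, zero_mul]
        · rw [(hoff j h).2, zero_mul, mul_zero]
      · intro i _ j _ h
        rw [h, sub_self, norm_zero]
        simp
      · intro α β hα hβ
        have e1 : w (Sum.inl α) x = S.ψ α x := rfl
        have e2 : w (Sum.inl β) = S.ψ β := rfl
        have e3 : V (Sum.inl α) x = v (btrans (S.bx α) s x) := rfl
        have e4 : V (Sum.inl β) x = v (btrans (S.bx β) s x) := rfl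
        rw [e1, e2, e3, e4, norm_sub_rev]
        have h4 : S.ψ α x * (gradSq g f (S.ψ β) x *
            ‖v (btrans (S.bx α) s x) - v (btrans (S.bx β) s x)‖ ^ 2) ≤
            1 * (M * ‖v (btrans (S.bx α) s x) - v (btrans (S.bx β) s x)‖ ^ 2) := by
          refine mul_le_mul (S.ψ_le α x) ?_ ?_ zero_le_one
          · exact mul_le_mul_of_nonneg_right (hM2 β x hβ) (by positivity)
          · exact mul_nonneg (gradSq_nonneg g f _ x) (by positivity)
        linarith
    have h5 : (1 + 1 / ε) * T.card *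
        ∑ i ∈ T, ∑ j ∈ T, w i x * (gradSq g f (w j) x * ‖V j x - V i x‖ ^ 2) ≤
        (2 * T.card * M + 1) / ε * I := by
      have h6 : (1 + 1 / ε) * T.card *
        ∑ i ∈ T, ∑ j ∈ T, w i x * (gradSq g f (w j) x * ‖V j x - V i x‖ ^ 2) ≤
          (1 + 1 / ε) * T.card * (M * I) :=
        mul_le_mul_of_nonneg_left h3 (by positivity)
      have h7 : 1 + 1 / ε ≤ 2 / ε := by
        rw [le_div_iff₀ hε]
        field_simp
        linarith
      have h8 : (1 + 1 / ε) * T.card * (M * I) ≤ 2 / ε * T.card * (M * I) := by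
        have : (0 : ℝ) ≤ T.card := by positivity
        have : 0 ≤ M * I := mul_nonneg hM.le hI0
        gcongr
      have h9 : 2 / ε * T.card * (M * I) ≤ (2 * T.card * M + 1) / ε * I := by
        have e5 : (2 * T.card * M + 1) / ε * I = 2 / ε * T.card * (M * I) + I / ε := by
          field_simp
        rw [e5]
        have : 0 ≤ I / ε := by positivity
        linarith
      linarith
    linarith
  · have h1 := pw_mass T (fun j => w j x) (fun j => V j x) hw0 hsum.self_of_nhds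
    have h2 : ∑ j ∈ T, w j x * ‖V j x‖ ^ 2 =
        (∑ α, S.ψ α x * ‖v (btrans (S.bx α) s x)‖ ^ 2) +
            ∑ p ∈ S.P, S.Θ p x * ‖v (S.ptrans p ε s x)‖ ^ 2 := by
      rw [hT, Finset.sum_disjSum]
      rfl
    have h3 : S.TT ε s ζ v x = ∑ j ∈ T, (w j x : ℂ) * V j x := hTT.self_of_nhds
    rw [h2] at h1
    rw [h3]
    have h4 : ∑ i ∈ T, ∑ j ∈ T, w i x * (w j x * ‖V i x - V j x‖ ^ 2) ≤ 1 * I := by
      refine hdouble _ 1 zero_le_one ?_ ?_ ?_
      · rintro i _ j _ (h | h)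
        · rw [(hoff i h).1, zero_mul]
        · rw [(hoff j h).1, zero_mul, mul_zero]
      · intro i _ j _ h
        rw [h, sub_self, norm_zero]
        simp
      · intro α β hα hβ
        have e1 : w (Sum.inl α) x = S.ψ α x := rfl
        have e2 : w (Sum.inl β) x = S.ψ β x := rfl
        have e3 : V (Sum.inl α) x = v (btrans (S.bx α) s x) := rfl
        have e4 : V (Sum.inl β) x = v (btrans (S.bx β) s x) := rfl
        rw [e1, e2, e3, e4]
        refine mul_le_mul (S.ψ_le α x) ?_ ?_ zero_le_one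
        · have := mul_le_mul_of_nonneg_right (S.ψ_le β x)
            (by positivity : 0 ≤ ‖v (btrans (S.bx α) s x) - v (btrans (S.bx β) s x)‖ ^ 2)
          linarith
        · exact mul_nonneg (S.ψ_nonneg β x) (by positivity)
    linarith

end DD
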