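import Pool.Agent.Work.MP_dd1e4a_gt.TransLocal
import Pool.Agent.Work.MP_dd1e4a_gt.TransAux
import Pool.Agent.Work.MP_dd1e4a_gt.Overlap
import Pool.Agent.Work.MP_dd1e4a_gt.BoxMass
import Pool.Agent.Work.MP_dd1e4a_gt.PMass
import Pool.Agent.Work.MP_dd1e4a_gt.AreaD

/-! # TransMs: mass of the transplanted function

Integrate `trans_local` over `μ'` (almost every point lies on the fibre `s'`, off `Crit f`):
`box_mass`, `p_mass`, `overlap` with `K = tsupport (ψ α) ∩ tsupport (ψ β)`;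
`ofReal (a - b) ≥ ofReal a - ofReal b` and `∑ (ψ_α - C ε) + ∑ (Θ_p - C √ε) ≥ 1 - C' √ε` on the
fibre `s` (`sum_one`). Lower integrals and integrals: all functions are nonnegative and integrable
(`integrable_test`, `TT_mem`; `ofReal_integral_eq_lintegral_ofReal`). -/

open scoped Manifold ContDiff Topology
open MeasureTheory Set

namespace DD

/-- the bookkeeping with lower integrals. -/
theorem transMs_sum {X : Type} [MeasurableSpace X] {μ μ' : Measure X} {ι : Type} [Fintype ι]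
    {P : Finset X}
    {T : X → ENNReal} {A : ι → X → ENNReal} {B : X → X → ENNReal} {I : ι → ι → X → ENNReal}
    (hTm : AEMeasurable T μ')
    (hA : ∀ i, AEMeasurable (A i) μ') (hB : ∀ p ∈ P, AEMeasurable (B p) μ')
    (hI : ∀ i j, AEMeasurable (I i j) μ')
    (hT : ∀ᵐ x ∂μ', (∑ i, A i x) + ∑ p ∈ P, B p x ≤ T x + ∑ i, ∑ j, I i j x)
    {A' : ι → X → ENNReal} {B' : X → X → ENNReal} {G M : X → ENNReal} {c : ι → ι → ENNReal}
    {d : ENNReal}
    (hA' : ∀ i, ∫⁻ x, A' i x ∂μ ≤ ∫⁻ x, A i x ∂μ')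
    (hB' : ∀ p ∈ P, ∫⁻ x, B' p x ∂μ ≤ ∫⁻ x, B p x ∂μ')
    (hI' : ∀ i j, ∫⁻ x, I i j x ∂μ' ≤ c i j * ∫⁻ x, G x ∂μ)
    (hAm : ∀ i, AEMeasurable (A' i) μ) (hBm : ∀ p ∈ P, AEMeasurable (B' p) μ)
    (hM : AEMeasurable M μ)
    (hs : ∀ᵐ x ∂μ, d * M x ≤ (∑ i, A' i x) + ∑ p ∈ P, B' p x) :
    d * ∫⁻ x, M x ∂μ ≤ (∫⁻ x, T x ∂μ') + (∑ i, ∑ j, c i j) * ∫⁻ x, G x ∂μ := by
  have hAs : AEMeasurable (fun x => ∑ i, A i x) μ' :=
    Finset.aemeasurable_fun_sum (Finset.univ : Finset ι) (fun i _ => hA i)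
  have hAms : AEMeasurable (fun x => ∑ i, A' i x) μ :=
    Finset.aemeasurable_fun_sum _ (fun i _ => hAm i)
  calc d * ∫⁻ x, M x ∂μ = ∫⁻ x, d * M x ∂μ := (lintegral_const_mul'' d hM).symm
    _ ≤ ∫⁻ x, ((∑ i, A' i x) + ∑ p ∈ P, B' p x) ∂μ := lintegral_mono_ae hs
    _ = (∑ i, ∫⁻ x, A' i x ∂μ) + ∑ p ∈ P, ∫⁻ x, B' p x ∂μ := by
        rw [lintegral_add_left' hAms, lintegral_finsetSum' _ (fun i _ => hAm i),
            lintegral_finsetSum' _ hBm]
    _ ≤ (∑ i, ∫⁻ x, A i x ∂μ') + ∑ p ∈ P, ∫⁻ x, B p x ∂μ' :=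
        add_le_add (Finset.sum_le_sum (fun i _ => hA' i)) (Finset.sum_le_sum hB')
    _ = ∫⁻ x, ((∑ i, A i x) + ∑ p ∈ P, B p x) ∂μ' := by
        rw [lintegral_add_left' hAs, lintegral_finsetSum' _ (fun i _ => hA i),
            lintegral_finsetSum' _ hB]
    _ ≤ ∫⁻ x, (T x + ∑ i, ∑ j, I i j x) ∂μ' := lintegral_mono_ae hT
    _ = (∫⁻ x, T x ∂μ') + ∑ i, ∑ j, ∫⁻ x, I i j x ∂μ' := by
        rw [lintegral_add_left' hTm, lintegral_finsetSum' _
            (fun i _ => Finset.aemeasurable_fun_sum _ (fun j _ => hI i j))]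
        congr 1
        refine Finset.sum_congr rfl (fun i _ => ?_)
        rw [lintegral_finsetSum' _ (fun j _ => hI i j)]
    _ ≤ (∫⁻ x, T x ∂μ') + ∑ i, ∑ j, c i j * ∫⁻ x, G x ∂μ := by
        refine add_le_add le_rfl ?_
        exact Finset.sum_le_sum (fun i _ => Finset.sum_le_sum (fun j _ => hI' i j))
    _ = _ := by
        congr 1
        rw [Finset.sum_mul]
        refine Finset.sum_congr rfl (fun i _ => ?_)
        rw [Finset.sum_mul]

theorem transMs_ofReal_sum {J : Type} (T : Finset J) (F : J → ℝ) :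
    ENNReal.ofReal (∑ j ∈ T, F j) ≤ ∑ j ∈ T, ENNReal.ofReal (F j) :=
  Finset.le_sum_of_subadditive ENNReal.ofReal ENNReal.ofReal_zero.le
    (fun _ _ => ENNReal.ofReal_add_le) T F

variable {X : Type} [TopologicalSpace X] [T2Space X] [SecondCountableTopology X]
  [ChartedSpace C2 X] [IsManifold 𝓘(ℂ, C2) ω X] [MeasurableSpace X] [BorelSpace X] {f : X → ℂ}

theorem trans_mass (S : Setup f) (g : HermMetric X) (hf : ContMDiff 𝓘(ℂ, C2) 𝓘(ℂ, ℂ) ω f) :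
    ∃ C > 0, ∃ ε₀ > 0, ∀ ε : ℝ, 0 < ε → ε < ε₀ → ∀ ζ : ℂ → ℝ, ContDiff ℝ ∞ ζ →
      (∀ t, ‖t‖ ≤ 5 / 4 * ε → ζ t = 1) → (∀ t, 3 / 2 * ε ≤ ‖t‖ → ζ t = 0) →
      ∀ s s' : ℂ, ‖s‖ ≤ ε → ‖s'‖ ≤ ε → ∀ μ μ' : Measure X,
      IsFibreArea g f s μ → IsFibreArea g f s' μ' → ∀ v ∈ Test f, S.CoreZero ε v →
      (∫ x, ‖v x‖ ^ 2 ∂μ) - C * ε ^ (1 / 2 : ℝ) *
        ((∫ x, ‖v x‖ ^ 2 ∂μ) + ∫ x, gradSq g f v x ∂μ) ≤
        ∫ x, ‖S.TT ε s ζ v x‖ ^ 2 ∂μ' := by
  classical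
  obtain ⟨C₁, hC₁, ε₁, hε₁, hloc⟩ := trans_local S g hf
  obtain ⟨Cp, hCp, ε₂, hε₂, hpen⟩ := p_mass S g hf
  obtain ⟨ε₃, hε₃, hTT⟩ := TT_mem S hf
  obtain ⟨ε₄, hε₄, hps⟩ := p_smooth S hf
  have hbe := fun α => box_mass hf g (S.box α) (S.ψ_smooth α) (S.ψ_nonneg α) (S.ψ_le α)
    (S.ψ_compact α) (S.ψ_supp α)
  choose Cb hCb ρb hρb hbe using hbe
  have hKc : ∀ α β, IsCompact (tsupport (S.ψ α) ∩ tsupport (S.ψ β)) := fun α β =>
    (S.ψ_compact α).isCompact.inter_right (isClosed_tsupport _)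
  have hov := fun α β => overlap hf g (S.box α) (S.box β) (hKc α β)
    (fun x hx => S.ψ_supp α hx.1) (fun x hx => S.ψ_supp β hx.2)
  choose Co hCo ρo hρo hov using hov
  have hbc := fun α => box_compact hf (S.box α) (S.ψ_compact α).isCompact (S.ψ_supp α)
  choose ρc hρc K' hK' hK't hbc using hbc
  -- a common radius
  obtain ⟨ε₅, hε₅, hε₅b⟩ : ∃ r > 0, ∀ α, r ≤ ρb α ∧ r ≤ ρc α ∧ ∀ β, r ≤ ρo α β := by
    have h1 : ∀ F : S.ι → ℝ, (∀ α, 0 < F α) → ∃ r > 0, ∀ α, r ≤ F α := by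
      intro F hF
      rcases isEmpty_or_nonempty S.ι with h | h
      · exact ⟨1, one_pos, fun α => (h.false α).elim⟩
      · obtain ⟨α, hα⟩ := Finite.exists_min F
        exact ⟨F α, hF α, hα⟩
    have h2 : ∀ α, ∃ r > 0, ∀ β, r ≤ ρo α β := fun α => h1 _ (hρo α)
    choose r2 hr2 hr2' using h2
    obtain ⟨r3, hr3, hr3'⟩ := h1 (fun α => min (ρb α) (min (ρc α) (r2 α)))
      (fun α => lt_min (hρb α) (lt_min (hρc α) (hr2 α)))
    refine ⟨r3, hr3, fun α => ?_⟩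
    have h4 := hr3' α
    simp only [le_min_iff] at h4
    exact ⟨h4.1, h4.2.1, fun β => h4.2.2.trans (hr2' α β)⟩
  set C₂ : ℝ := ∑ α, Cb α with hC₂
  set C₃ : ℝ := ∑ α, ∑ β, Co α β with hC₃
  have hC₂0 : 0 ≤ C₂ := Finset.sum_nonneg (fun α _ => (hCb α).le)
  have hC₃0 : 0 ≤ C₃ := Finset.sum_nonneg (fun α _ => Finset.sum_nonneg (fun β _ => (hCo α β).le))
  refine ⟨1 + 2 * C₂ + S.P.card * Cp + 4 * C₃, by positivity,
    min (min ε₁ ε₂) (min (min ε₃ ε₄) (min ε₅ (min 1 S.ρ))), by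
      refine lt_min (lt_min hε₁ hε₂) (lt_min (lt_min hε₃ hε₄) (lt_min hε₅ (lt_min one_pos S.ρ_pos))),
    ?_⟩
  intro ε hε hεlt ζ hζ hζ1 hζ0 s s' hs hs' μ μ' hμ hμ' v hv hcz
  simp only [lt_min_iff] at hεlt
  obtain ⟨⟨he1, he2⟩, ⟨he3, he4⟩, he5, he6, he7⟩ := hεlt
  have hTv : S.TT ε s ζ v ∈ Test f := hTT ε hε he3 s hs ζ hζ hζ0 v hv hcz
  obtain ⟨hGi, -, hMi⟩ := hμ.integrable_test hf hv
  obtain ⟨-, -, hTi⟩ := hμ'.integrable_test hf hTv
  have hG0 : ∀ x, 0 ≤ gradSq g f v x := fun x => gradSq_nonneg g f v x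
  have hM0 : ∀ x, 0 ≤ ‖v x‖ ^ 2 := fun x => by positivity
  have hT0 : ∀ x, 0 ≤ ‖S.TT ε s ζ v x‖ ^ 2 := fun x => by positivity
  have hd0 : 0 ≤ ‖s - s'‖ := norm_nonneg _
  have hd : ‖s - s'‖ ≤ 2 * ε := by
    calc ‖s - s'‖ ≤ ‖s‖ + ‖s'‖ := norm_sub_le _ _
      _ ≤ ε + ε := add_le_add hs hs'
      _ = 2 * ε := by ring
  have hsq0 : 0 < ε ^ (1 / 2 : ℝ) := Real.rpow_pos_of_pos hε _
  have hsq : ε ≤ ε ^ (1 / 2 : ℝ) := by
    have h1 := Real.rpow_le_rpow_of_exponent_ge hε he6.le (show (1 / 2 : ℝ) ≤ 1 by norm_num)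
    rwa [Real.rpow_one] at h1
  set q : ℝ := ε ^ (1 / 2 : ℝ) with hq
  -- the estimate with lower integrals
  have key : ENNReal.ofReal (1 - (2 * C₂ + S.P.card * Cp) * q) *
        ∫⁻ x, ENNReal.ofReal (‖v x‖ ^ 2) ∂μ ≤
      (∫⁻ x, ENNReal.ofReal (‖S.TT ε s ζ v x‖ ^ 2) ∂μ') +
      ENNReal.ofReal (C₃ * ‖s - s'‖ ^ 2) *
        ∫⁻ x, ENNReal.ofReal (gradSq g f v x) ∂μ := by
    have hdom : ∀ α, ∀ x ∈ tsupport (S.ψ α), f x = s' → x ∈ transDom (S.bx α) s := by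
      intro α x hx hfx
      refine (hbc α x hx ?_ s ?_).2
      · rw [hfx]
        exact hs'.trans (he5.le.trans (hε₅b α).2.1)
      · exact hs.trans (he5.le.trans (hε₅b α).2.1)
    have hmm : AEMeasurable (fun x => ENNReal.ofReal (‖v x‖ ^ 2)) μ :=
      hMi.aestronglyMeasurable.aemeasurable.ennreal_ofReal
    have htm : AEMeasurable (fun x => ENNReal.ofReal (‖S.TT ε s ζ v x‖ ^ 2)) μ' :=
      hTi.aestronglyMeasurable.aemeasurable.ennreal_ofReal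
    have hmain := transMs_sum (μ := μ) (μ' := μ') (P := S.P)
      (T := fun x => ENNReal.ofReal (‖S.TT ε s ζ v x‖ ^ 2))
      (A := fun α x => ENNReal.ofReal (S.ψ α x) *
        ENNReal.ofReal (‖v (btrans (S.bx α) s x)‖ ^ 2))
      (B := fun p x => ENNReal.ofReal (S.Θ p x) *
        ENNReal.ofReal (‖v (S.ptrans p ε s x)‖ ^ 2))
      (I := fun α β => indicator (tsupport (S.ψ α) ∩ tsupport (S.ψ β)) (fun y =>
        ENNReal.ofReal (‖v (btrans (S.bx α) s y) - v (btrans (S.bx β) s y)‖ ^ 2)))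
      (A' := fun α x => ENNReal.ofReal (S.ψ α x - Cb α * ‖s - s'‖) *
        ENNReal.ofReal (‖v x‖ ^ 2))
      (B' := fun p x => ENNReal.ofReal (S.Θ p x - Cp * q) * ENNReal.ofReal (‖v x‖ ^ 2))
      (G := fun x => ENNReal.ofReal (gradSq g f v x))
      (M := fun x => ENNReal.ofReal (‖v x‖ ^ 2))
      (c := fun α β => ENNReal.ofReal (Co α β * ‖s - s'‖ ^ 2))
      (d := ENNReal.ofReal (1 - (2 * C₂ + S.P.card * Cp) * q))
      htm
      (fun α => transAux_mass_box g (S.box α) (S.ψ_smooth α).continuous (hdom α) hμ' hv)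
      (fun p hp => (transAux_energy_p g hf
        (O := {x | x ∈ S.bidisc p ∧ ‖f x‖ < 2 * ε})
        (((isOpen_bidisc S p).inter (isOpen_lt hf.continuous.norm continuous_const)))
        (tsupport_Θ S p hp).2.2.1.continuous
        (fun x hfx hx => by
          by_contra hne
          refine hx ⟨(tsupport_Θ S p hp).1 (subset_tsupport _ hne), ?_⟩
          rw [hfx]
          linarith)
        hμ' (hps ε hε he4 p hp s hs v hv hcz).1).2)
      (fun α β => transAux_mixed g (S.box α) (S.box β) (hKc α β).isClosed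
        (fun x hx hfx => ⟨hdom α x hx.1 hfx, hdom β x hx.2 hfx⟩) hμ' hv)
      ?_
      (fun α => hbe α s s' (hs.trans (he5.le.trans (hε₅b α).1))
        (hs'.trans (he5.le.trans (hε₅b α).1)) μ μ' hμ hμ' v hv)
      (fun p hp => hpen ε hε he2 p hp s s' hs hs' μ μ' hμ hμ' v hv hcz)
      (fun α β => by
        rw [lintegral_indicator (hKc α β).isClosed.measurableSet]
        exact hov α β s s' (hs.trans (he5.le.trans ((hε₅b α).2.2 β)))
          (hs'.trans (he5.le.trans ((hε₅b α).2.2 β))) μ μ' hμ hμ' v hv)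
      (fun α => by
        refine AEMeasurable.mul ?_ hmm
        exact (((S.ψ_smooth α).continuous.sub continuous_const).measurable.ennreal_ofReal).aemeasurable)
      (fun p hp => by
        refine AEMeasurable.mul ?_ hmm
        exact (((tsupport_Θ S p hp).2.2.1.continuous.sub
          continuous_const).measurable.ennreal_ofReal).aemeasurable)
      hmm ?_
    · refine hmain.trans (le_of_eq ?_)
      have h1 : ∑ α, ∑ β, ENNReal.ofReal (Co α β * ‖s - s'‖ ^ 2) =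
          ENNReal.ofReal (C₃ * ‖s - s'‖ ^ 2) := by
        rw [hC₃, Finset.sum_mul, ENNReal.ofReal_sum_of_nonneg]
        · refine Finset.sum_congr rfl (fun α _ => ?_)
          rw [Finset.sum_mul, ENNReal.ofReal_sum_of_nonneg]
          exact fun β _ => mul_nonneg (hCo α β).le (by positivity)
        · exact fun α _ => mul_nonneg (Finset.sum_nonneg (fun β _ => (hCo α β).le)) (by positivity)
      rw [h1]
    · filter_upwards [hμ'.ae_fibre] with x hx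
      have h1 := (hloc ε hε he1 ζ hζ1 s hs v hv hcz x (by rw [hx.1]; exact hs') hx.2).2
      have hA0 : ∀ α, 0 ≤ S.ψ α x * ‖v (btrans (S.bx α) s x)‖ ^ 2 :=
        fun α => mul_nonneg (S.ψ_nonneg α x) (by positivity)
      have hB0 : ∀ p ∈ S.P, 0 ≤ S.Θ p x * ‖v (S.ptrans p ε s x)‖ ^ 2 :=
        fun p hp => mul_nonneg ((tsupport_Θ S p hp).2.2.2.1 x).1 (by positivity)
      have hI0 : ∀ α β, 0 ≤ indicator (tsupport (S.ψ α) ∩ tsupport (S.ψ β))
            (fun y => ‖v (btrans (S.bx α) s y) - v (btrans (S.bx β) s y)‖ ^ 2) x :=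
        fun α β => indicator_nonneg (fun y _ => by positivity) x
      have hAs : 0 ≤ ∑ α, S.ψ α x * ‖v (btrans (S.bx α) s x)‖ ^ 2 :=
        Finset.sum_nonneg (fun α _ => hA0 α)
      have hBs : 0 ≤ ∑ p ∈ S.P, S.Θ p x * ‖v (S.ptrans p ε s x)‖ ^ 2 :=
        Finset.sum_nonneg hB0
      have hIs : 0 ≤ ∑ α, ∑ β, indicator (tsupport (S.ψ α) ∩ tsupport (S.ψ β))
            (fun y => ‖v (btrans (S.bx α) s y) - v (btrans (S.bx β) s y)‖ ^ 2) x :=
        Finset.sum_nonneg (fun α _ => Finset.sum_nonneg (fun β _ => hI0 α β))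
      have h2 : (∑ α, ENNReal.ofReal (S.ψ α x) *
            ENNReal.ofReal (‖v (btrans (S.bx α) s x)‖ ^ 2)) +
          ∑ p ∈ S.P, ENNReal.ofReal (S.Θ p x) * ENNReal.ofReal (‖v (S.ptrans p ε s x)‖ ^ 2) =
          ENNReal.ofReal ((∑ α, S.ψ α x * ‖v (btrans (S.bx α) s x)‖ ^ 2) +
            ∑ p ∈ S.P, S.Θ p x * ‖v (S.ptrans p ε s x)‖ ^ 2) := by
        rw [ENNReal.ofReal_add hAs hBs, ENNReal.ofReal_sum_of_nonneg (fun α _ => hA0 α),
          ENNReal.ofReal_sum_of_nonneg hB0]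
        congr 1
        · refine Finset.sum_congr rfl (fun α _ => ?_)
          rw [ENNReal.ofReal_mul (S.ψ_nonneg α x)]
        · refine Finset.sum_congr rfl (fun p hp => ?_)
          rw [ENNReal.ofReal_mul ((tsupport_Θ S p hp).2.2.2.1 x).1]
      have h3 : (∑ α, ∑ β, indicator (tsupport (S.ψ α) ∩ tsupport (S.ψ β)) (fun y =>
            ENNReal.ofReal (‖v (btrans (S.bx α) s y) - v (btrans (S.bx β) s y)‖ ^ 2)) x) =
          ENNReal.ofReal (∑ α, ∑ β, indicator (tsupport (S.ψ α) ∩ tsupport (S.ψ β))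
            (fun y => ‖v (btrans (S.bx α) s y) - v (btrans (S.bx β) s y)‖ ^ 2) x) := by
        rw [ENNReal.ofReal_sum_of_nonneg (fun α _ => Finset.sum_nonneg (fun β _ => hI0 α β))]
        refine Finset.sum_congr rfl (fun α _ => ?_)
        rw [ENNReal.ofReal_sum_of_nonneg (fun β _ => hI0 α β)]
        refine Finset.sum_congr rfl (fun β _ => ?_)
        by_cases h : x ∈ tsupport (S.ψ α) ∩ tsupport (S.ψ β)
        · rw [indicator_of_mem h, indicator_of_mem h]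
        · rw [indicator_of_notMem h, indicator_of_notMem h, ENNReal.ofReal_zero]
      rw [h2, h3, ← ENNReal.ofReal_add (hT0 x) hIs]
      apply ENNReal.ofReal_le_ofReal
      linarith
    · filter_upwards [hμ.ae_fibre] with x hx
      rw [← Finset.sum_mul, ← Finset.sum_mul, ← add_mul]
      gcongr
      have h1 : (∑ α, S.ψ α x) + ∑ p ∈ S.P, S.Θ p x = 1 :=
        S.sum_one x (by rw [hx.1]; exact hs.trans_lt he7)
      calc ENNReal.ofReal (1 - (2 * C₂ + S.P.card * Cp) * q)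
          ≤ ENNReal.ofReal ((∑ α, (S.ψ α x - Cb α * ‖s - s'‖)) +
              ∑ p ∈ S.P, (S.Θ p x - Cp * q)) := by
            apply ENNReal.ofReal_le_ofReal
            rw [Finset.sum_sub_distrib, Finset.sum_sub_distrib, ← Finset.sum_mul,
              Finset.sum_const, nsmul_eq_mul, ← hC₂]
            have h2 : C₂ * ‖s - s'‖ ≤ C₂ * (2 * q) :=
              mul_le_mul_of_nonneg_left (hd.trans (by linarith)) hC₂0
            nlinarith
        _ ≤ ENNReal.ofReal (∑ α, (S.ψ α x - Cb α * ‖s - s'‖)) +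
              ENNReal.ofReal (∑ p ∈ S.P, (S.Θ p x - Cp * q)) := ENNReal.ofReal_add_le
        _ ≤ _ := add_le_add (transMs_ofReal_sum _ _) (transMs_ofReal_sum _ _)
  rw [← ofReal_integral_eq_lintegral_ofReal hGi (Filter.Eventually.of_forall hG0),
    ← ofReal_integral_eq_lintegral_ofReal hMi (Filter.Eventually.of_forall hM0),
    ← ofReal_integral_eq_lintegral_ofReal hTi (Filter.Eventually.of_forall hT0)] at key
  have hGI : 0 ≤ ∫ x, gradSq g f v x ∂μ := integral_nonneg hG0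
  have hMI : 0 ≤ ∫ x, ‖v x‖ ^ 2 ∂μ := integral_nonneg hM0
  have hTI : 0 ≤ ∫ x, ‖S.TT ε s ζ v x‖ ^ 2 ∂μ' := integral_nonneg hT0
  rw [← ENNReal.ofReal_mul' hMI, ← ENNReal.ofReal_mul' hGI,
    ← ENNReal.ofReal_add hTI (mul_nonneg (mul_nonneg hC₃0 (by positivity)) hGI)] at key
  have h3 := (ENNReal.ofReal_le_ofReal_iff (add_nonneg hTI
    (mul_nonneg (mul_nonneg hC₃0 (by positivity)) hGI))).mp key
  have h4 : ‖s - s'‖ ^ 2 ≤ 4 * q := by
    calc ‖s - s'‖ ^ 2 ≤ (2 * ε) ^ 2 := by gcongr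
      _ = 4 * (ε * ε) := by ring
      _ ≤ 4 * (ε * 1) := by gcongr
      _ ≤ 4 * q := by linarith
  have h5 : C₃ * ‖s - s'‖ ^ 2 * (∫ x, gradSq g f v x ∂μ) ≤
      C₃ * (4 * q) * ∫ x, gradSq g f v x ∂μ := by gcongr
  have h6 : 0 ≤ q * ∫ x, ‖v x‖ ^ 2 ∂μ := mul_nonneg hsq0.le hMI
  have h7 : 0 ≤ q * ∫ x, gradSq g f v x ∂μ := mul_nonneg hsq0.le hGI
  have h8 : 0 ≤ (2 * C₂ + S.P.card * Cp) * (q * ∫ x, gradSq g f v x ∂μ) := by positivity
  have h9 : 0 ≤ 4 * C₃ * (q * ∫ x, ‖v x‖ ^ 2 ∂μ) := by positivity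
  nlinarith

end DD
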