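import Pool.Agent.Work.MP_dd1e4a_gt.TransEn
import Pool.Agent.Work.MP_dd1e4a_gt.TransMs
import Pool.Agent.Work.MP_dd1e4a_gt.CutEta
import Pool.Agent.Work.MP_dd1e4a_gt.CutEnergy
import Pool.Agent.Work.MP_dd1e4a_gt.CutMass

/-! # Transfer: cutoff followed by transplantation

For small `ε`, `L = log (1/ε)`: `η` from `exists_eta` with `a = S.a`, exponent `S.τ ∈ (0, 1]`
(constant `C₁ ≥ 1` after enlarging), `χ` from `exists_cut`, `ζ` a smooth bump function with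
`ζ = 1` for `‖t‖ ≤ 5ε/4` and `ζ = 0` for `‖t‖ ≥ 3ε/2`. `T u = TT (χ u)`: `χ u` is a test function
(`test_mul`) and vanishes on the cores (`IsCut.eq_eta`, `η = 0` for `‖x‖ ≤ ε^τ`), so `T u ∈ Test`
(`TT_mem`), linear by `TT_add`, `TT_smul`. With `D = ∫ gradSq`, `M = ∫ |u|²`:
`D' (T u) ≤ (1 + Cε) D (χu) ≤ (1 + Cε)(D u + (C/L) M u)`,
`M' (T u) ≥ M (χu) - C √ε (M (χu) + D (χu)) ≥ M u - (C/L)(D u + M u) - ...`, and
`ε ≤ √ε ≤ C / L` (`Real.log` grows slower than any power). -/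

open scoped Manifold ContDiff Topology
open MeasureTheory Set

namespace DD

variable {X : Type} [TopologicalSpace X] [T2Space X] [SecondCountableTopology X]
  [ChartedSpace C2 X] [IsManifold 𝓘(ℂ, C2) ω X] [MeasurableSpace X] [BorelSpace X] {f : X → ℂ}

theorem transfer_W_pos {x : ℂ} {ε : ℝ} (hε : 0 < ε) (hε' : ε < 1 / 4) (hx : ‖x‖ ≤ 1 / 4) :
    0 ≤ 1 - Real.log (‖x‖ ^ 2 + ε ^ 2) / 2 := by
  have h1 : ‖x‖ ^ 2 + ε ^ 2 ≤ 1 := by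
    have := norm_nonneg x
    nlinarith
  have h2 : Real.log (‖x‖ ^ 2 + ε ^ 2) ≤ 0 := Real.log_nonpos (by positivity) h1
  linarith

theorem transfer_sqrt_le {ε : ℝ} (hε : 0 < ε) (hε' : ε < 1) :
    ε ^ (1 / 2 : ℝ) ≤ 4 / Real.log (1 / ε) ∧ ε ≤ ε ^ (1 / 2 : ℝ) ∧ ε ^ (1 / 2 : ℝ) ≤ 1 := by
  have hL : 0 < Real.log (1 / ε) := Real.log_pos (by rw [lt_div_iff₀ hε]; linarith)
  refine ⟨?_, ?_, Real.rpow_le_one hε.le hε'.le (by norm_num)⟩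
  · rw [le_div_iff₀ hL]
    have h1 : Real.log (1 / ε) ≤ (1 / ε) ^ (1 / 2 : ℝ) / (1 / 2) :=
      Real.log_le_rpow_div (by positivity) (by norm_num)
    have h2 : ε ^ (1 / 2 : ℝ) * (1 / ε) ^ (1 / 2 : ℝ) = 1 := by
      rw [← Real.mul_rpow hε.le (by positivity), mul_one_div_cancel hε.ne', Real.one_rpow]
    have h3 : 0 < ε ^ (1 / 2 : ℝ) := by positivity
    calc ε ^ (1 / 2 : ℝ) * Real.log (1 / ε)
        ≤ ε ^ (1 / 2 : ℝ) * ((1 / ε) ^ (1 / 2 : ℝ) / (1 / 2)) :=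
          mul_le_mul_of_nonneg_left h1 h3.le
      _ = 2 * (ε ^ (1 / 2 : ℝ) * (1 / ε) ^ (1 / 2 : ℝ)) := by ring
      _ ≤ 4 := by rw [h2]; norm_num
  · have := Real.rpow_le_rpow_of_exponent_ge hε hε'.le (show (1 / 2 : ℝ) ≤ 1 by norm_num)
    rwa [Real.rpow_one] at this

theorem transfer (S : Setup f) (g : HermMetric X) (hf : ContMDiff 𝓘(ℂ, C2) 𝓘(ℂ, ℂ) ω f) :
    ∃ C > 0, ∃ ε₀ > 0, ε₀ < 1 ∧ ∀ ε : ℝ, 0 < ε → ε < ε₀ → ∀ s s' : ℂ, ‖s‖ ≤ ε → ‖s'‖ ≤ ε →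
      ∀ μ μ' : Measure X, IsFibreArea g f s μ → IsFibreArea g f s' μ' →
      ∃ T : Test f →ₗ[ℂ] Test f, ∀ u : Test f,
        ∫ x, gradSq g f (T u).1 x ∂μ' ≤ (∫ x, gradSq g f u.1 x ∂μ) +
          C / Real.log (1 / ε) * ((∫ x, gradSq g f u.1 x ∂μ) + ∫ x, ‖u.1 x‖ ^ 2 ∂μ) ∧
        (∫ x, ‖u.1 x‖ ^ 2 ∂μ) - C / Real.log (1 / ε) *
          ((∫ x, gradSq g f u.1 x ∂μ) + ∫ x, ‖u.1 x‖ ^ 2 ∂μ) ≤
          ∫ x, ‖(T u).1 x‖ ^ 2 ∂μ' := by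
  have hτ0 : 0 < S.τ := by
    have : (0 : ℝ) < S.m := by exact_mod_cast S.m_pos
    unfold Setup.τ
    positivity
  have hτ1 : S.τ ≤ 1 := by
    have : (1 : ℝ) ≤ S.m := by exact_mod_cast S.m_pos
    unfold Setup.τ
    rw [div_le_one (by positivity)]
    linarith
  obtain ⟨C₀, hC₀, ε₁, hε₁, hε₁', heta⟩ := exists_eta S.a_pos S.a_le hτ0 hτ1
  obtain ⟨C₂, hC₂, hce⟩ := cut_energy S g hf
  set C₁ := max C₀ 1 with hC₁
  obtain ⟨C₃, hC₃, ε₃, hε₃, hε₃', hcm⟩ := cut_mass S g hf (le_max_right C₀ 1)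
  obtain ⟨ε₄, hε₄, hmem⟩ := TT_mem S hf
  obtain ⟨C₅, hC₅, ε₅, hε₅, hte⟩ := trans_energy S g hf
  obtain ⟨C₆, hC₆, ε₆, hε₆, htm⟩ := trans_mass S g hf
  -- the constant
  refine ⟨4 * C₅ + (1 + C₅) * (C₂ * C₀) + C₃ + 4 * C₆ * (1 + C₂ * C₀), by positivity,
    min (min (min ε₁ ε₃) (min ε₄ ε₅)) (min ε₆ (min (S.c / 2) (Real.exp (-1)))), ?_, ?_, ?_⟩
  · have := S.c_pos
    positivity
  · refine lt_of_le_of_lt ((min_le_right _ _).trans ((min_le_right _ _).trans (min_le_right _ _))) ?_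
    rw [Real.exp_lt_one_iff]
    norm_num
  intro ε hε hεlt s s' hs hs' μ μ' hμ hμ'
  simp only [lt_min_iff] at hεlt
  obtain ⟨⟨⟨h1, h3⟩, ⟨h4, h5⟩⟩, h6, h7, h8⟩ := hεlt
  have hε4 : ε < 1 / 4 := h1.trans hε₁'
  have hL1 : 1 ≤ Real.log (1 / ε) := by
    rw [one_div, Real.log_inv]
    have : Real.log ε ≤ -1 := by
      rw [← Real.log_exp (-1)]
      exact Real.log_le_log hε h8.le
    linarith
  set L := Real.log (1 / ε) with hL
  have hL0 : 0 < L := by linarith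
  obtain ⟨hr1, hr2, hr3⟩ := transfer_sqrt_le hε (by linarith)
  rw [← hL] at hr1
  obtain ⟨η, hη, hη01, hη0, hη1, hηlap, hηW⟩ := heta ε hε h1
  obtain ⟨χ, hχ⟩ := exists_cut S hη hη01 hη1
  -- the bump function in the base
  obtain ⟨ζ, hζ, hζ1, hζ0⟩ : ∃ ζ : ℂ → ℝ, ContDiff ℝ ∞ ζ ∧ (∀ t, ‖t‖ ≤ 5 / 4 * ε → ζ t = 1) ∧
      (∀ t, 3 / 2 * ε ≤ ‖t‖ → ζ t = 0) := by
    let β : ContDiffBump (0 : ℂ) := ⟨5 / 4 * ε, 3 / 2 * ε, by positivity, by linarith⟩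
    refine ⟨β, β.contDiff, fun t ht => ?_, fun t ht => ?_⟩
    · exact β.one_of_mem_closedBall (by simpa using ht)
    · exact β.zero_of_le_dist (by simpa using ht)
  have hcore : ∀ u ∈ Test f, S.CoreZero ε (fun x => (χ x : ℂ) * u x) := by
    intro u _ p hp x hx hx1 hx2
    have h := hχ.eq_eta p hp x hx hx2
    rw [hη0 _ hx1] at h
    simp [h]
  have hmemT : ∀ u ∈ Test f, S.TT ε s ζ (fun x => (χ x : ℂ) * u x) ∈ Test f := fun u hu =>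
    hmem ε hε h4 s hs ζ hζ hζ0 _ (test_mul hχ.smooth hu) (hcore u hu)
  let T : Test f →ₗ[ℂ] Test f :=
    { toFun := fun u => ⟨S.TT ε s ζ (fun x => (χ x : ℂ) * u.1 x), hmemT u.1 u.2⟩
      map_add' := by
        intro u v
        apply Subtype.ext
        have h : (fun x => (χ x : ℂ) * (u + v).1 x) =
            fun x => (χ x : ℂ) * u.1 x + (χ x : ℂ) * v.1 x := by
          funext x
          simp [mul_add]
        change S.TT ε s ζ (fun x => (χ x : ℂ) * (u + v).1 x) = _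
        rw [h, TT_add]
        rfl
      map_smul' := by
        intro c u
        apply Subtype.ext
        have h : (fun x => (χ x : ℂ) * (c • u).1 x) = fun x => c * ((χ x : ℂ) * u.1 x) := by
          funext x
          simp [mul_left_comm]
        change S.TT ε s ζ (fun x => (χ x : ℂ) * (c • u).1 x) = _
        rw [h, TT_smul]
        rfl }
  refine ⟨T, fun u => ?_⟩
  have hv : (fun x => (χ x : ℂ) * u.1 x) ∈ Test f := test_mul hχ.smooth u.2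
  have hsc : ‖s‖ < S.c := by
    have := S.c_pos
    linarith
  have e1 := hce η χ (C₀ / L) hη hη01 hχ (by positivity) hηlap s μ hsc hμ u.1 u.2
  have hW : ∀ x : ℂ, ‖x‖ ≤ S.a → 1 - η x ^ 2 ≤
      C₁ / Real.log (1 / ε) * (1 - Real.log (‖x‖ ^ 2 + ε ^ 2) / 2) := by
    intro x hx
    refine (hηW x hx).trans ?_
    apply mul_le_mul_of_nonneg_right _ (transfer_W_pos hε hε4 (hx.trans S.a_le))
    exact div_le_div_of_nonneg_right (le_max_left _ _) hL0.le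
  have e2 := hcm ε hε h3 η χ hη hη01 hη1 hW hχ s μ hs hμ u.1 u.2
  have e3 := hte ε hε h5 ζ hζ hζ1 hζ0 s s' hs hs' μ μ' hμ hμ' _ hv (hcore u.1 u.2)
  have e4 := htm ε hε h6 ζ hζ hζ1 hζ0 s s' hs hs' μ μ' hμ hμ' _ hv (hcore u.1 u.2)
  have e5 : ∫ x, ‖(χ x : ℂ) * u.1 x‖ ^ 2 ∂μ ≤ ∫ x, ‖u.1 x‖ ^ 2 ∂μ := by
    refine integral_mono (hμ.integrable_test hf hv).2.2 (hμ.integrable_test hf u.2).2.2 ?_
    intro x
    simp only [norm_mul, mul_pow, Complex.norm_real, Real.norm_eq_abs, sq_abs]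
    have h1 := hχ.nonneg x
    have h2 := hχ.le_one x
    have h3 : χ x ^ 2 ≤ 1 := by nlinarith
    have h4 : 0 ≤ ‖u.1 x‖ ^ 2 := by positivity
    nlinarith
  have hD0 : 0 ≤ ∫ x, gradSq g f u.1 x ∂μ := integral_nonneg fun x => gradSq_nonneg g f u.1 x
  have hM0 : 0 ≤ ∫ x, ‖u.1 x‖ ^ 2 ∂μ := integral_nonneg fun x => by positivity
  have hTu : (T u).1 = S.TT ε s ζ (fun x => (χ x : ℂ) * u.1 x) := rfl
  rw [hTu]
  set D := ∫ x, gradSq g f u.1 x ∂μ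
  set M := ∫ x, ‖u.1 x‖ ^ 2 ∂μ
  set D' := ∫ x, gradSq g f (fun y => (χ y : ℂ) * u.1 y) x ∂μ
  set M' := ∫ x, ‖(χ x : ℂ) * u.1 x‖ ^ 2 ∂μ
  have hD'0 : 0 ≤ D' := integral_nonneg fun x => gradSq_nonneg g f _ x
  have hM'0 : 0 ≤ M' := integral_nonneg fun x => by positivity
  have hq : 0 ≤ C₂ * (C₀ / L) := by positivity
  have hqL : C₂ * (C₀ / L) = C₂ * C₀ / L := by ring
  have hq1 : C₂ * C₀ / L ≤ C₂ * C₀ := div_le_self (by positivity) hL1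
  have hε4L : ε ≤ 4 / L := hr2.trans hr1
  have hεone : ε ≤ 1 := by linarith
  constructor
  · refine e3.trans ?_
    have a1 : (1 + C₅ * ε) * D' ≤ (1 + C₅ * ε) * (D + C₂ * C₀ / L * M) :=
      mul_le_mul_of_nonneg_left (by rw [← hqL]; exact e1) (by positivity)
    refine a1.trans ?_
    have a2 : C₅ * ε * D ≤ C₅ * (4 / L) * D := by
      gcongr
    have a3 : C₅ * ε * (C₂ * C₀ / L * M) ≤ C₅ * 1 * (C₂ * C₀ / L * M) := by
      gcongr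
    have a4 : (4 * C₅ + (1 + C₅) * (C₂ * C₀) + C₃ + 4 * C₆ * (1 + C₂ * C₀)) / L * (D + M) =
        C₅ * (4 / L) * D + C₅ * (4 / L) * M + (1 + C₅) * (C₂ * C₀ / L * M)
          + (1 + C₅) * (C₂ * C₀ / L * D) + (C₃ + 4 * C₆ * (1 + C₂ * C₀)) / L * (D + M) := by
      ring
    rw [a4]
    have a5 : 0 ≤ C₅ * (4 / L) * M := by positivity
    have a6 : 0 ≤ (1 + C₅) * (C₂ * C₀ / L * D) := by positivity
    have a7 : 0 ≤ (C₃ + 4 * C₆ * (1 + C₂ * C₀)) / L * (D + M) := by positivity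
    have a8 : (1 + C₅ * ε) * (D + C₂ * C₀ / L * M) =
        D + C₅ * ε * D + C₂ * C₀ / L * M + C₅ * ε * (C₂ * C₀ / L * M) := by ring
    have a9 : (1 + C₅) * (C₂ * C₀ / L * M) = C₂ * C₀ / L * M + C₅ * 1 * (C₂ * C₀ / L * M) := by
      ring
    rw [a8, a9]
    linarith
  · refine le_trans ?_ e4
    have b1 : M' + D' ≤ (1 + C₂ * C₀) * (D + M) := by
      have : D' ≤ D + C₂ * C₀ * M := e1.trans (by
        rw [hqL]
        gcongr)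
      nlinarith [mul_nonneg (mul_nonneg hC₂.le hC₀.le) hD0]
    have b2 : C₆ * ε ^ (1 / 2 : ℝ) * (M' + D') ≤ C₆ * (4 / L) * ((1 + C₂ * C₀) * (D + M)) := by
      gcongr
    have b3 : (4 * C₅ + (1 + C₅) * (C₂ * C₀) + C₃ + 4 * C₆ * (1 + C₂ * C₀)) / L * (D + M) =
        (4 * C₅ + (1 + C₅) * (C₂ * C₀)) / L * (D + M) + C₃ / L * (D + M) +
          C₆ * (4 / L) * ((1 + C₂ * C₀) * (D + M)) := by
      ring
    rw [b3]
    have b4 : 0 ≤ (4 * C₅ + (1 + C₅) * (C₂ * C₀)) / L * (D + M) := by positivity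
    linarith

end DD
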